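import Pool.Agent.JNT.Event
import Pool.Agent.JNT.ChainF
import Pool.Agent.EN.ExDir

/-!
JNT: the event theorem for runs with a given label, no hypothesis.
-/

set_option autoImplicit false

namespace HexObs

namespace JNT

open Finset TS SDN SDN.CN NTm NTW NTA EN

open scoped ENNReal

/-- the sum over the chains -/
theorem chainL_of {Λ : Type} (lab : List Bool → Λ) {Dm : ℕ → ℝ≥0∞ → (List Bool → ℝ≥0∞) → Prop} (hDm : DmP Dm)
    (hA : SsA) (h3 : Ss3) (hD : SsD) : ChainL lab Dm := by
  obtain ⟨Q, hQ, h⟩ := fun_boundL lab hDm hA h3 hD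
  refine ⟨Q, hQ, ?_⟩
  intro ι kc J n W kp R δ x x0 Φ C w0 w1 hW hn hδ hx hS hC hR hDom hx0 hD0 hflp hher h0 M
  exact (chain_massL hW hR M C w0 w1 h0).trans
    (h kc J n W kp R δ x x0 Φ Φ C hC hW hn hδ hx hS hDom hDom hx0 hD0 hD0 hflp hher hher M)

/-- **the event theorem for runs, a given label** -/
theorem eventRL {Λ : Type} {lab : List Bool → Λ} (hLA : LabA lab) : EventRL lab DmJ := by
  obtain ⟨Ci, δi, hI⟩ := inp_exists
  exact eventRL_of dmP geoRun hLA (chainL_of lab dmP (ssA hI) ss3P ssDP)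

theorem eventRL_N : EventRL labN DmJ := eventRL labA_N

theorem eventRL_E : EventRL labE DmJ := eventRL labA_E

end JNT

end HexObs
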