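import Pool.Agent.EN.Seq

/-!
JNT: norms of leaf classes and of classes of runs in which one leaf has a given label (for instance a given number of letters
and a given displacement). The label is not given by a grading but by a rigid relation between the index of the continuations
on the left, the index of the continuations on the right and the run: if two runs in the relation differ in one leaf only, and
the two leaves have the same first and the same last letter, then the two leaves have the same label.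
-/

set_option autoImplicit false

namespace HexObs

namespace JNT

open Finset TS SDN NTW NTA EN

open scoped ENNReal

/-- number of letters and displacement -/
def labN (t : List Bool) : ℕ × Pt := (t.length, vx oo up t t.length)

/-- displacement -/
def labE (t : List Bool) : Pt := vx oo up t t.length

/-- the same first and the same last letter -/
def SameE (g g' : List Bool) : Prop := g.headD true = g'.headD true ∧ lst g = lst g'

section

variable {Λ : Type} (lab : List Bool → Λ)

/-- rigid relation for one leaf -/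
def RigD {ι ι' : Type} (C : ι → ι' → List Bool → Prop) : Prop :=
  ∀ a b g g', C a b g → C a b g' → SameE g g' → lab g = lab g'

/-- rigid relation for runs -/
def RigR {ι ι' : Type} (C : ι → ι' → List (List Bool) → Prop) : Prop :=
  ∀ a b ls rs g g', C a b (ls ++ g :: rs) → C a b (ls ++ g' :: rs) → SameE g g' → lab g = lab g'

/-- the label of the middle part of a leaf is determined by the label of the leaf -/
def LabM : Prop := ∀ A ∈ BU, ∀ B ∈ BU, ∀ Z ∈ BU, ∀ Z' ∈ BU, lab (A ++ (Z ++ B)) = lab (A ++ (Z' ++ B)) → lab Z = lab Z'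

/-- the label of one leaf of a zig-zag is determined by the label of the zig-zag -/
def LabU : Prop := ∀ (ls rs : List (List Bool)) (g g' : List Bool), (∀ x ∈ ls, x ∈ HB 16) → (∀ x ∈ rs, x ∈ HB 16) →
  g ∈ HB 16 → g' ∈ HB 16 → SameE g g' → lab (unf (ls ++ g :: rs)) = lab (unf (ls ++ g' :: rs)) → lab g = lab g'

end

open Classical in
/-- the continuations on the right of the leaf g in the relation C a -/
noncomputable def one {ι ι' : Type} (F : ι' → List Bool → ℝ≥0∞) (C : ι → ι' → List Bool → Prop) (a : ι)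
    (g : List Bool) : ℝ≥0∞ := ∑' b, if C a b g then F b g else 0

open Classical in
/-- the runs of R beginning with the leaf g and their continuations on the right, in the relation C a -/
noncomputable def runL {ι ι' : Type} (R : Set (List (List Bool))) (F : ι' → List Bool → ℝ≥0∞)
    (C : ι → ι' → List (List Bool) → Prop) (a : ι) (g : List Bool) : ℝ≥0∞ :=
  ∑' ms : List (List Bool), if (g :: ms) ∈ R ∧ (g :: ms).IsChain LFold then
    SDN.wl ms * ∑' b, (if C a b (g :: ms) then F b ((g :: ms).getLastD []) else 0) else 0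

/-- a leaf class of small labelled norm -/
structure SmDL {Λ : Type} (lab : List Bool → Λ) (Dm : ℕ → ℝ≥0∞ → (List Bool → ℝ≥0∞) → Prop) (kc : ℕ)
    (S : Set (List Bool)) (δ : ℝ) : Prop where
  near : ∀ {ι ι' : Type} (x : ℝ≥0∞) (F : ι' → List Bool → ℝ≥0∞) (C : ι → ι' → List Bool → Prop), RigD lab C →
    (∀ b, HerD (2 ^ (kc + 4)) (F b)) → Dm kc x (fun t => ∑' b, F b t) →
    xT (2 ^ (kc + 4)) kc (fun t => ⨆ a, vA (2 ^ (kc + 4)) S (one F C a) t) ≤ ENNReal.ofReal δ * x
  free : ∀ {ι ι' : Type} (y x : ℝ≥0∞) (P : ι → List Bool → ℝ≥0∞) (F : ι' → List Bool → ℝ≥0∞)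
    (C : ι → ι' → List Bool → Prop), RigD lab C → (∀ a, HerD (2 ^ (kc + 4)) (P a)) → (∀ a, Flp (2 ^ (kc + 4)) (P a)) →
    (∀ b, HerD (2 ^ (kc + 4)) (F b)) → Dm kc y (fun t => ∑' a, P a t) → Dm kc x (fun t => ∑' b, F b t) →
    Rec8.sw S (fun g => ∑' a, P a (rev g) * one F C a g) ≤ ENNReal.ofReal (δ * Ub kc) * (y * x)

/-- a class of runs of small labelled norm -/
structure SmRL {Λ : Type} (lab : List Bool → Λ) (Dm : ℕ → ℝ≥0∞ → (List Bool → ℝ≥0∞) → Prop) (kc : ℕ)
    (R : Set (List (List Bool))) (δ : ℝ) : Prop where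
  near : ∀ {ι ι' : Type} (x : ℝ≥0∞) (F : ι' → List Bool → ℝ≥0∞) (C : ι → ι' → List (List Bool) → Prop), RigR lab C →
    (∀ b, HerD (2 ^ (kc + 4)) (F b)) → Dm kc x (fun t => ∑' b, F b t) →
    xT (2 ^ (kc + 4)) kc (fun t => ⨆ a, vA (2 ^ (kc + 4)) (HB (2 ^ (kc + 4))) (runL R F C a) t) ≤ ENNReal.ofReal δ * x
  free : ∀ {ι ι' : Type} (y x : ℝ≥0∞) (P : ι → List Bool → ℝ≥0∞) (F : ι' → List Bool → ℝ≥0∞)
    (C : ι → ι' → List (List Bool) → Prop), RigR lab C → (∀ a, HerD (2 ^ (kc + 4)) (P a)) →
    (∀ a, Flp (2 ^ (kc + 4)) (P a)) → (∀ b, HerD (2 ^ (kc + 4)) (F b)) → Dm kc y (fun t => ∑' a, P a t) →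
    Dm kc x (fun t => ∑' b, F b t) →
    Rec8.sw (HB (2 ^ (kc + 4))) (fun g => ∑' a, P a (rev g) * runL R F C a g) ≤ ENNReal.ofReal (δ * Ub kc) * (y * x)

end JNT

end HexObs
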