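import Pool.Agent.JNT.BaseUp
import Pool.Agent.JNT.AllL

/-!
JNT: the labelled norm of one tall leaf without backtracks at the scale kc: a height in [n 2 ^ (kc + s), (n + 1) 2 ^ (kc + s))
costs 4 ^ (- n), and the label costs 1 / w kc.
-/

set_option autoImplicit false

namespace HexObs

namespace JNT

open Finset TS SDN NTW NTA EN NTm

open scoped ENNReal

variable {Λ : Type} {lab : List Bool → Λ}

lemma zg_anti {D D' : ℕ} (h : D ≤ D') (S1 L S2 : Set (List Bool)) : Zg D' S1 L S2 ⊆ Zg D S1 L S2 :=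
  fun _ hg => ⟨HB_anti h hg.1, hg.2⟩

/-- **the zig-zags of the upper scale kc' with a fold of the scale j at most kc**, as a class at the scale kc -/
theorem far_up (hLU : LabU lab) : ∃ (K : ℝ) (s : ℕ), 1 ≤ K ∧ ∀ (kc kc' j : ℕ) (e : ℝ), j ≤ kc → kc ≤ kc' →
    j + 5 + (5 + s) ≤ kc' → 0 ≤ e → SmDL lab DmJ j (EN.Bk j) e →
    SmDL lab DmJ kc {g | g ∈ Zg (2 ^ (kc' + 4)) (GU (j + 5) kc' (2 ^ (kc' + 8))) (EN.Bk j) (Ak kc') ∨
      g ∈ Zg (2 ^ (kc' + 4)) (Ak kc') (EN.Bk j) (GU (j + 5) kc' (2 ^ (kc' + 8)))}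
      (K * 4 ^ (kc' - j) / 4 ^ (2 ^ (kc' - (j + 5 + (5 + s)))) * e) := by
  obtain ⟨Kz, hKz, hz⟩ := comp_zgL hLU
  obtain ⟨Kg, s, hKg, hg⟩ := gu_base
  obtain ⟨Ka, hKa, ha⟩ := ak_base
  obtain ⟨W, hW⟩ : ∃ W : ℝ, W = Kz * (Kg * 8 ^ 8) * Ka := ⟨_, rfl⟩
  have hW0 : 0 ≤ W := by rw [hW]; positivity
  refine ⟨1 + 2 * W, s, by linarith, fun kc kc' j e hjk hk hj he hE => ?_⟩
  obtain ⟨n, hn⟩ : ∃ n, n = 2 ^ (kc' - (j + 5 + (5 + s))) := ⟨_, rfl⟩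
  rw [← hn]
  have hn' : n * 2 ^ (j + 5 + s) ≤ 2 ^ kc' := by
    rw [hn, ← pow_add]
    exact Nat.pow_le_pow_right (by norm_num) (by omega)
  have h34 : 2 ^ (kc + 4) ≤ 2 ^ (kc' + 4) := Nat.pow_le_pow_right (by norm_num) (by omega)
  have h4 : (0 : ℝ) < 4 ^ n := by positivity
  obtain ⟨g1, g2⟩ := hg kc kc' 8 (j + 5) n hk (by omega) (by omega) hn' (by norm_num)
  obtain ⟨a1, a2⟩ := ha kc kc' hk
  have hrat : ∀ i ≤ kc', Ub kc' / Ub i ≤ 2 ^ (kc' - i) := by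
    intro i hi
    rw [div_le_iff₀ (Ub_pos i)]
    exact Fl.Ub_ratio hi
  have g1' : SmD DmJ kc (GU (j + 5) kc' (2 ^ (kc' + 8))) (Kg * 8 ^ 8 / 4 ^ n * 2 ^ (kc' - kc)) :=
    LQ.SmD_le (mul_le_mul_of_nonneg_left (hrat kc hk) (by positivity)) g1
  have hHG : GU (j + 5) kc' (2 ^ (kc' + 8)) ⊆ HB (2 ^ (kc + 4)) := fun g hg => HB_anti h34 (GU_HB _ _ _ hg)
  have hHA : Ak kc' ⊆ HB (2 ^ (kc + 4)) := fun g hg => HB_anti h34 (Ak_HB kc' hg)
  have h1 := hz kc j (GU (j + 5) kc' (2 ^ (kc' + 8))) (EN.Bk j) (Ak kc') (Kg * 8 ^ 8 / 4 ^ n * 2 ^ (kc' - kc)) e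
    (Ka * 2 ^ (kc' - j)) hjk hHG (Bk_HB j) hHA (by positivity) he (by positivity) g1' hE (fun x Φ hΦ => a2 j hjk x Φ hΦ)
  have h2 := hz kc j (Ak kc') (EN.Bk j) (GU (j + 5) kc' (2 ^ (kc' + 8))) (Ka * 2 ^ (kc' - kc)) e
    (Kg * 8 ^ 8 / 4 ^ n * 2 ^ (kc' - j)) hjk hHA (Bk_HB j) hHG (by positivity) he (by positivity) a1 hE (fun x Φ hΦ =>
      (g2 j hjk x Φ hΦ).trans (mul_le_mul_left (ENNReal.ofReal_le_ofReal
        (mul_le_mul_of_nonneg_left (hrat j (hjk.trans hk)) (by positivity))) _))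
  refine smDL_up ?_ (smDL_mono ?_ (smDL_union (by positivity) (by positivity) h1 h2))
  · have e1 : Kz * (Kg * 8 ^ 8 / 4 ^ n * 2 ^ (kc' - kc)) * e * (Ka * 2 ^ (kc' - j)) +
        Kz * (Ka * 2 ^ (kc' - kc)) * e * (Kg * 8 ^ 8 / 4 ^ n * 2 ^ (kc' - j)) =
        2 * W * (2 ^ (kc' - kc) * 2 ^ (kc' - j)) / 4 ^ n * e := by
      rw [hW]
      ring
    have e2 : (2 : ℝ) ^ (kc' - kc) * 2 ^ (kc' - j) ≤ 4 ^ (kc' - j) := by
      have e3 : (4 : ℝ) ^ (kc' - j) = 2 ^ (kc' - j) * 2 ^ (kc' - j) := by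
        rw [← mul_pow]
        norm_num
      rw [e3]
      exact mul_le_mul_of_nonneg_right (pow_le_pow_right₀ (by norm_num) (by omega)) (by positivity)
    rw [e1]
    apply mul_le_mul_of_nonneg_right _ he
    apply div_le_div_of_nonneg_right _ h4.le
    exact mul_le_mul (by linarith) e2 (by positivity) (by linarith)
  · rintro g (hg | hg)
    · exact Or.inl (zg_anti h34 _ _ _ hg)
    · exact Or.inr (zg_anti h34 _ _ _ hg)

lemma num_up {Cm : ℝ} {i1 c : ℕ} (hi1 : ∀ i ≥ i1, (8 * Cm) ^ i ≤ 4 ^ (2 ^ (i - c)) ∧ c ≤ i) {t n r : ℕ}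
    (ht : i1 ≤ t) (hn : n ≤ 2 ^ (t - c)) (hr : r < c) : (8 * Cm) ^ t * 4 ^ n ≤ 4 ^ (2 ^ (t - r)) := by
  obtain ⟨h1, h2⟩ := hi1 t ht
  calc (8 * Cm) ^ t * 4 ^ n ≤ 4 ^ (2 ^ (t - c)) * 4 ^ (2 ^ (t - c)) :=
        mul_le_mul h1 (pow_le_pow_right₀ (by norm_num) hn) (by positivity) (by positivity)
    _ = 4 ^ (2 ^ (t - c + 1)) := by
        rw [← pow_add, pow_succ 2 (t - c), mul_two]
    _ ≤ _ := pow_le_pow_right₀ (by norm_num) (Nat.pow_le_pow_right (by norm_num) (by omega))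

/-- **one tall leaf without backtracks** -/
theorem ex_tall (hLU : LabU lab) {w : ℕ → ℝ} (hw : ∀ k, 0 < w k) (hup : MUp w) (hGB : GoodBadL lab w) :
    ∃ (C : ℝ) (s0 : ℕ), 1 ≤ C ∧ 7 ≤ s0 ∧ ∀ s : ℕ, s0 ≤ s → ∀ kc n : ℕ, 1 ≤ n →
      SmDL lab DmJ kc (CK (kc + 5) (kc + s) n) (C / (w kc * 4 ^ n)) := by
  obtain ⟨E, hE1, hE⟩ := ex_allL hLU hw hup hGB
  obtain ⟨Cm, hCm, hmu⟩ := hup
  obtain ⟨Kf, sf, hKf, hfar⟩ := far_up hLU
  obtain ⟨Kg, sg, hKg, hg⟩ := gu_base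
  obtain ⟨c, hc⟩ : ∃ c, c = sf + sg + 11 := ⟨_, rfl⟩
  obtain ⟨i1, hi1⟩ := exp_dexp (8 * Cm) c
  have hw0 := hw 0
  refine ⟨1 + Kg * 8 ^ 8 * w 0 + 2 * (Kf * E), i1 + c + 16, ?_, by omega, fun s hs kc n hn => ?_⟩
  · have e1 : 0 ≤ Kg * 8 ^ 8 * w 0 := by positivity
    have e2 : 0 ≤ Kf * E := by positivity
    linarith
  have hwk := hw kc
  have h4n : (0 : ℝ) < 4 ^ n := by positivity
  obtain ⟨q, hq⟩ : ∃ q, q = Nat.log 2 n + (s - 7) := ⟨_, rfl⟩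
  obtain ⟨kc', hkc⟩ : ∃ kc', kc' = kc + q := ⟨_, rfl⟩
  have hn2 : n < 2 ^ (Nat.log 2 n + 1) := Nat.lt_pow_succ_log_self (by norm_num) n
  have hn1 : 2 ^ (Nat.log 2 n) ≤ n := Nat.pow_log_le_self 2 (by omega)
  have hnq : ∀ t, q ≤ t → n ≤ 2 ^ (t - c) := fun t ht =>
    hn2.le.trans (Nat.pow_le_pow_right (by norm_num) (by omega))
  -- the block
  have hblk : CK (kc + 5) (kc + s) n ⊆ EN.Bk kc' := by
    rintro g ⟨-, h, h1, h2, h3⟩
    refine ⟨h, ?_, ?_, h3⟩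
    · refine le_trans ?_ h1
      rw [show kc' + 7 = Nat.log 2 n + (kc + s) by omega, pow_add]
      exact Nat.mul_le_mul_right _ hn1
    · refine h2.le.trans ?_
      rw [show kc' + 8 = (Nat.log 2 n + 1) + (kc + s) by omega, pow_add 2 (Nat.log 2 n + 1)]
      exact Nat.mul_le_mul_right _ hn2
  -- the clean leaves
  have hclean : SmDL lab DmJ kc (GU 3 kc' (2 ^ (kc' + 8))) (Kg * 8 ^ 8 * w 0 / (w kc * 4 ^ n)) := by
    obtain ⟨N, hN⟩ : ∃ N, N = 2 ^ (kc' - (3 + sg)) := ⟨_, rfl⟩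
    have h5 : N * 2 ^ (3 + sg) ≤ 2 ^ kc' := by
      rw [hN, ← pow_add]
      exact Nat.pow_le_pow_right (by norm_num) (by omega)
    refine smDL_up ?_ (smDL_of_smD (hg kc kc' 8 3 N (by omega) (by omega) (by omega) h5 (by norm_num)).1)
    have h6 : Ub kc' / Ub kc ≤ 2 ^ q := by
      rw [div_le_iff₀ (Ub_pos kc)]
      have := Fl.Ub_ratio (show kc ≤ kc' by omega)
      rwa [show kc' - kc = q by omega] at this
    have h7 : w kc ≤ Cm ^ kc * w 0 := by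
      have := mup_pow hCm hmu 0 kc
      rwa [Nat.zero_add] at this
    have h8 : (8 * Cm) ^ kc' * 4 ^ n ≤ 4 ^ N := by
      rw [hN]
      exact num_up hi1 (by omega) (hnq kc' (by omega)) (by omega)
    have h9 : 2 ^ q * Cm ^ kc ≤ (8 * Cm) ^ kc' := by
      rw [mul_pow]
      refine mul_le_mul ?_ (pow_le_pow_right₀ hCm (by omega)) (by positivity) (by positivity)
      exact (pow_le_pow_right₀ (by norm_num) (by omega)).trans (pow_le_pow_left₀ (by norm_num) (by norm_num) kc')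
    have hN4 : (0 : ℝ) < 4 ^ N := by positivity
    rw [div_mul_eq_mul_div, div_le_div_iff₀ hN4 (by positivity)]
    calc Kg * 8 ^ 8 * (Ub kc' / Ub kc) * (w kc * 4 ^ n) ≤ Kg * 8 ^ 8 * 2 ^ q * (Cm ^ kc * w 0 * 4 ^ n) := by
          refine mul_le_mul (mul_le_mul_of_nonneg_left h6 (by positivity)) (mul_le_mul_of_nonneg_right h7 h4n.le)
            (by positivity) (by positivity)
      _ = Kg * 8 ^ 8 * w 0 * (2 ^ q * Cm ^ kc * 4 ^ n) := by ring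
      _ ≤ Kg * 8 ^ 8 * w 0 * ((8 * Cm) ^ kc' * 4 ^ n) := by
          refine mul_le_mul_of_nonneg_left (mul_le_mul_of_nonneg_right h9 h4n.le) (by positivity)
      _ ≤ _ := mul_le_mul_of_nonneg_left h8 (by positivity)
  -- the zig-zags
  obtain ⟨Cl, hCl⟩ : ∃ Cl : ℕ → Set (List Bool), Cl = fun i =>
      {g | g ∈ Zg (2 ^ (kc' + 4)) (GU (kc - i + 5) kc' (2 ^ (kc' + 8))) (EN.Bk (kc - i)) (Ak kc') ∨
        g ∈ Zg (2 ^ (kc' + 4)) (Ak kc') (EN.Bk (kc - i)) (GU (kc - i + 5) kc' (2 ^ (kc' + 8)))} := ⟨_, rfl⟩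
  obtain ⟨dd, hdd⟩ : ∃ dd : ℕ → ℝ, dd = fun i => 4 * (Kf * E / (w kc * 4 ^ n)) * ((1 / 4 : ℝ) * (1 / 2) ^ i) := ⟨_, rfl⟩
  have hdd0 : ∀ i < kc + 1, 0 ≤ dd i := by
    intro i _
    rw [hdd]
    positivity
  have hcls : ∀ i < kc + 1, SmDL lab DmJ kc (Cl i) (dd i) := by
    intro i hi
    have hm : w kc ≤ Cm ^ i * w (kc - i) := by
      have := mup_pow hCm hmu (kc - i) i
      rwa [Nat.sub_add_cancel (by omega)] at this
    have hEi : SmDL lab DmJ (kc - i) (EN.Bk (kc - i)) (E * Cm ^ i / w kc) := by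
      refine smDL_up ?_ (hE (kc - i))
      rw [div_le_div_iff₀ (hw _) hwk]
      calc E * w kc ≤ E * (Cm ^ i * w (kc - i)) := mul_le_mul_of_nonneg_left hm (by linarith)
        _ = _ := by ring
    have h1 := hfar kc kc' (kc - i) (E * Cm ^ i / w kc) (Nat.sub_le _ _) (by omega) (by omega) (by positivity) hEi
    rw [hCl, hdd]
    simp only
    refine smDL_up ?_ h1
    have e0 : kc' - (kc - i + 5 + (5 + sf)) = (q + i) - (10 + sf) := by omega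
    have e1 : kc' - (kc - i) = q + i := by omega
    rw [e0, e1]
    have h2 : (8 * Cm) ^ (q + i) * 4 ^ n ≤ 4 ^ (2 ^ (q + i - (10 + sf))) :=
      num_up hi1 (by omega) (hnq (q + i) (by omega)) (by omega)
    have hp : (0 : ℝ) < 4 ^ (2 ^ (q + i - (10 + sf))) := by positivity
    have h3 : 4 ^ (q + i) * Cm ^ i * 2 ^ i ≤ (8 * Cm) ^ (q + i) := by
      have e2 : (8 * Cm) ^ (q + i) = 4 ^ (q + i) * Cm ^ (q + i) * 2 ^ (q + i) := by
        rw [← mul_pow, ← mul_pow]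
        congr 1
        ring
      rw [e2]
      refine mul_le_mul (mul_le_mul_of_nonneg_left (pow_le_pow_right₀ hCm (by omega)) (by positivity))
        (pow_le_pow_right₀ (by norm_num) (by omega)) (by positivity) (by positivity)
    have h5 : 4 ^ (q + i) * Cm ^ i * 2 ^ i * 4 ^ n ≤ 4 ^ (2 ^ (q + i - (10 + sf))) :=
      (mul_le_mul_of_nonneg_right h3 h4n.le).trans h2
    rw [one_div_pow, div_mul_eq_mul_div, div_le_iff₀ hp]
    have h2i : (0 : ℝ) < 2 ^ i := by positivity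
    have e3 : 4 * (Kf * E / (w kc * 4 ^ n)) * (1 / 4 * (1 / 2 ^ i)) * 4 ^ 2 ^ (q + i - (10 + sf)) =
        Kf * E / (w kc * 4 ^ n * 2 ^ i) * 4 ^ 2 ^ (q + i - (10 + sf)) := by
      field_simp
    have e4 : Kf * 4 ^ (q + i) * (E * Cm ^ i / w kc) = Kf * E / (w kc * 4 ^ n * 2 ^ i) * (4 ^ (q + i) * Cm ^ i * 2 ^ i * 4 ^ n) := by
      field_simp
    rw [e3, e4]
    exact mul_le_mul_of_nonneg_left h5 (by positivity)
  have hsum := smDL_sum (kc + 1) Cl dd hdd0 hcls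
  have hall := smDL_union (by positivity) (Finset.sum_nonneg fun i hi => hdd0 i (Finset.mem_range.1 hi)) hclean hsum
  refine smDL_up ?_ (smDL_mono ?_ hall)
  · have e1 : ∑ i ∈ range (kc + 1), dd i ≤ 2 * (Kf * E) / (w kc * 4 ^ n) := by
      rw [hdd]
      have e2 : ∑ i ∈ range (kc + 1), 4 * (Kf * E / (w kc * 4 ^ n)) * ((1 / 4 : ℝ) * (1 / 2) ^ i) =
          8 * (Kf * E / (w kc * 4 ^ n)) * ∑ i ∈ range (kc + 1), ((1 / 8 : ℝ) * (1 / 2) ^ i) := by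
        rw [Finset.mul_sum]
        exact Finset.sum_congr rfl fun i _ => by ring
      simp only
      rw [e2]
      have e3 := geo_tail (kc + 1)
      have e4 : 0 ≤ Kf * E / (w kc * 4 ^ n) := by positivity
      calc 8 * (Kf * E / (w kc * 4 ^ n)) * ∑ i ∈ range (kc + 1), ((1 / 8 : ℝ) * (1 / 2) ^ i) ≤
            8 * (Kf * E / (w kc * 4 ^ n)) * (1 / 4) := mul_le_mul_of_nonneg_left e3 (by positivity)
        _ = _ := by ring
    have e5 : (1 + Kg * 8 ^ 8 * w 0 + 2 * (Kf * E)) / (w kc * 4 ^ n) =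
        1 / (w kc * 4 ^ n) + (Kg * 8 ^ 8 * w 0 / (w kc * 4 ^ n) + 2 * (Kf * E) / (w kc * 4 ^ n)) := by ring
    rw [e5]
    have e6 : 0 ≤ 1 / (w kc * 4 ^ n) := by positivity
    linarith
  · intro g hg
    rcases cover kc' (hblk hg) with h1 | ⟨j, hj, ⟨-, s1, b1, l, b2, s2, b3, -, -, hunf⟩, h2⟩
    · exact Or.inl h1
    · right
      obtain ⟨u, u1, -, u3⟩ := b1
      obtain ⟨d, d1, -, d3⟩ := b2
      have h3 : d < 2 ^ (kc + 5) := zig_low u3 (le_trans Nat.one_le_two_pow u1) d3 (le_trans Nat.one_le_two_pow d1)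
        (by rw [hunf]; exact hg.1)
      have h4 : j ≤ kc := by
        by_contra hcon
        have : 2 ^ (kc + 5) ≤ 2 ^ (j + 7) := Nat.pow_le_pow_right (by norm_num) (by omega)
        omega
      refine ⟨kc - j, by omega, ?_⟩
      rw [hCl]
      simp only
      rw [show kc - (kc - j) = j by omega]
      exact h2

end JNT

end HexObs
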