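import Pool.Agent.JNT.ScB

/-!
JNT, row J: the joint bound, from the size of the characteristic function; the scales of the phase.
-/

set_option autoImplicit false

namespace HexObs

namespace JNT

open Finset TS NTA MeasureTheory

open scoped ENNReal

/-- growth of the sequence, below the exponent 3 / 2 -/
def GrB (m : ℕ → ℝ) : Prop := ∃ a C : ℝ, a < 3 / 2 ∧ 1 ≤ C ∧ ∀ k j : ℕ, m (k + j) ≤ C * (2 : ℝ) ^ (a * (j : ℝ)) * m k

/-- one scale of the phase -/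
def TermB (m : ℕ → ℝ) : Prop := ∃ C lam : ℝ, 0 < C ∧ 0 < lam ∧ lam < 1 ∧ ∀ k r : ℕ,
  Ub r * min 1 (Ub r / Ub k) / m r ≤ C * (Ub k / m k) * lam ^ ((k - r) + (r - k))

/-- the phases of scale r -/
def Er (m : ℕ → ℝ) (r : ℕ) : Set ℝ := {θ | |θ| ≤ Real.pi / 2 ∧ 1 ≤ |θ| * m r ∧ ∀ s, s < r → |θ| * m s < 1}

namespace JoT

lemma Ub_two : ∃ c C : ℝ, 0 < c ∧ 0 < C ∧ ∀ k : ℕ,
    c * (2 : ℝ) ^ (3 / 4 * (k : ℝ)) ≤ Ub k ∧ Ub k ≤ C * (2 : ℝ) ^ (3 / 4 * (k : ℝ)) := by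
  obtain ⟨c, C, hc, hC, h⟩ := BAR.UU_two
  refine ⟨c, C, hc, hC, fun k => ?_⟩
  have h1 := h (2 ^ k) Nat.one_le_two_pow
  have h2 : ((2 ^ k : ℕ) : ℝ) ^ (3 / 4 : ℝ) = (2 : ℝ) ^ (3 / 4 * (k : ℝ)) := by
    push_cast
    rw [← Real.rpow_natCast 2 k, ← Real.rpow_mul (by norm_num)]
    congr 1
    ring
  rw [h2] at h1
  exact h1

theorem termB_of {m : ℕ → ℝ} (hm : MLow m) (hg : GrB m) : TermB m := by
  obtain ⟨a, Cg, ha, hCg, hg⟩ := hg
  obtain ⟨c, C, hc, hC, hU⟩ := Ub_two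
  obtain ⟨R, hR⟩ : ∃ R, R = C / c := ⟨_, rfl⟩
  have hR0 : 0 < R := by rw [hR]; positivity
  -- the growth of the masses
  have g1 : ∀ k j : ℕ, Ub (k + j) ≤ R * (2 : ℝ) ^ (3 / 4 * (j : ℝ)) * Ub k := by
    intro k j
    have h1 := (hU (k + j)).2
    have h2 := (hU k).1
    have h3 : (2 : ℝ) ^ (3 / 4 * ((k + j : ℕ) : ℝ)) = (2 : ℝ) ^ (3 / 4 * (k : ℝ)) * (2 : ℝ) ^ (3 / 4 * (j : ℝ)) := by
      rw [← Real.rpow_add (by norm_num)]
      congr 1
      push_cast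
      ring
    rw [h3] at h1
    calc Ub (k + j) ≤ C * ((2 : ℝ) ^ (3 / 4 * (k : ℝ)) * (2 : ℝ) ^ (3 / 4 * (j : ℝ))) := h1
      _ = R * (2 : ℝ) ^ (3 / 4 * (j : ℝ)) * (c * (2 : ℝ) ^ (3 / 4 * (k : ℝ))) := by
          rw [hR]
          field_simp
      _ ≤ _ := mul_le_mul_of_nonneg_left h2 (by positivity)
  have g2 : ∀ r j : ℕ, Ub r * (2 : ℝ) ^ (3 / 4 * (j : ℝ)) ≤ R * Ub (r + j) := by
    intro r j
    have h1 := (hU (r + j)).1
    have h2 := (hU r).2
    have h3 : (2 : ℝ) ^ (3 / 4 * ((r + j : ℕ) : ℝ)) = (2 : ℝ) ^ (3 / 4 * (r : ℝ)) * (2 : ℝ) ^ (3 / 4 * (j : ℝ)) := by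
      rw [← Real.rpow_add (by norm_num)]
      congr 1
      push_cast
      ring
    rw [h3] at h1
    calc Ub r * (2 : ℝ) ^ (3 / 4 * (j : ℝ)) ≤ C * (2 : ℝ) ^ (3 / 4 * (r : ℝ)) * (2 : ℝ) ^ (3 / 4 * (j : ℝ)) :=
          mul_le_mul_of_nonneg_right h2 (by positivity)
      _ = R * (c * ((2 : ℝ) ^ (3 / 4 * (r : ℝ)) * (2 : ℝ) ^ (3 / 4 * (j : ℝ)))) := by
          rw [hR]
          field_simp
      _ ≤ _ := mul_le_mul_of_nonneg_left h1 hR0.le
  obtain ⟨l1, hl1⟩ : ∃ l1 : ℝ, l1 = (2 : ℝ) ^ (-(1 / 2) : ℝ) := ⟨_, rfl⟩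
  obtain ⟨l2, hl2⟩ : ∃ l2 : ℝ, l2 = (2 : ℝ) ^ (a - 3 / 2 : ℝ) := ⟨_, rfl⟩
  have h10 : 0 < l1 := by rw [hl1]; positivity
  have h20 : 0 < l2 := by rw [hl2]; positivity
  have h11 : l1 < 1 := by
    rw [hl1]
    exact Real.rpow_lt_one_of_one_lt_of_neg (by norm_num) (by norm_num)
  have h21 : l2 < 1 := by
    rw [hl2]
    exact Real.rpow_lt_one_of_one_lt_of_neg (by norm_num) (by linarith)
  have e1 : ∀ j : ℕ, (2 : ℝ) ^ (3 / 4 * (j : ℝ)) = l1 ^ j * (2 : ℝ) ^ (5 / 4 * (j : ℝ)) := by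
    intro j
    rw [hl1, ← Real.rpow_natCast, ← Real.rpow_mul (by norm_num), ← Real.rpow_add (by norm_num)]
    congr 1
    ring
  have e2 : ∀ j : ℕ, (2 : ℝ) ^ (a * (j : ℝ)) = l2 ^ j * ((2 : ℝ) ^ (3 / 4 * (j : ℝ))) ^ 2 := by
    intro j
    rw [hl2, ← Real.rpow_natCast, ← Real.rpow_mul (by norm_num), ← Real.rpow_natCast, ← Real.rpow_mul (by norm_num),
      ← Real.rpow_add (by norm_num)]
    congr 1
    push_cast
    ring
  refine ⟨R + R ^ 2 * Cg, max l1 l2, by positivity, lt_max_of_lt_left h10, max_lt h11 h21, fun k r => ?_⟩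
  have hUk := Ub_pos k
  have hUr := Ub_pos r
  have hmk := hm.pos k
  have hmr := hm.pos r
  have hlam : 0 < max l1 l2 := lt_max_of_lt_left h10
  rcases le_total k r with h | h
  · obtain ⟨j, rfl⟩ := Nat.exists_eq_add_of_le h
    rw [show (k - (k + j)) + (k + j - k) = j by omega]
    have h1 := g1 k j
    have h2 := hm.low k j
    rw [div_le_iff₀ hmr]
    have h3 : l1 ^ j ≤ (max l1 l2) ^ j := pow_le_pow_left₀ h10.le (le_max_left _ _) j
    calc Ub (k + j) * min 1 (Ub (k + j) / Ub k) ≤ Ub (k + j) * 1 :=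
          mul_le_mul_of_nonneg_left (min_le_left _ _) hUr.le
      _ ≤ R * (2 : ℝ) ^ (3 / 4 * (j : ℝ)) * Ub k := by rw [mul_one]; exact h1
      _ = R * (Ub k / m k) * l1 ^ j * ((2 : ℝ) ^ (5 / 4 * (j : ℝ)) * m k) := by
          rw [e1]
          field_simp
      _ ≤ R * (Ub k / m k) * (max l1 l2) ^ j * m (k + j) := by gcongr
      _ ≤ (R + R ^ 2 * Cg) * (Ub k / m k) * (max l1 l2) ^ j * m (k + j) := by
          have : 0 ≤ R ^ 2 * Cg := by positivity
          gcongr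
          linarith
  · obtain ⟨j, rfl⟩ := Nat.exists_eq_add_of_le h
    rw [show (r + j - r) + (r - (r + j)) = j by omega]
    have h1 := g2 r j
    have h2 := hg r j
    have h3 : l2 ^ j ≤ (max l1 l2) ^ j := pow_le_pow_left₀ h20.le (le_max_right _ _) j
    have h4 : (Ub r * (2 : ℝ) ^ (3 / 4 * (j : ℝ))) ^ 2 ≤ (R * Ub (r + j)) ^ 2 := pow_le_pow_left₀ (by positivity) h1 2
    have h5 : Ub r * min 1 (Ub r / Ub (r + j)) ≤ Ub r ^ 2 / Ub (r + j) := by
      calc Ub r * min 1 (Ub r / Ub (r + j)) ≤ Ub r * (Ub r / Ub (r + j)) :=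
            mul_le_mul_of_nonneg_left (min_le_right _ _) hUr.le
        _ = _ := by ring
    refine (div_le_div_of_nonneg_right h5 hmr.le).trans ?_
    rw [div_div, div_le_iff₀ (by positivity)]
    have h6 : Ub r ^ 2 * m (r + j) ≤ R ^ 2 * Cg * l2 ^ j * Ub (r + j) ^ 2 * m r := by
      calc Ub r ^ 2 * m (r + j) ≤ Ub r ^ 2 * (Cg * (2 : ℝ) ^ (a * (j : ℝ)) * m r) := by gcongr
        _ = Cg * l2 ^ j * m r * (Ub r * (2 : ℝ) ^ (3 / 4 * (j : ℝ))) ^ 2 := by
            rw [e2]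
            ring
        _ ≤ Cg * l2 ^ j * m r * (R * Ub (r + j)) ^ 2 := by gcongr
        _ = _ := by ring
    have h7 : Ub r ^ 2 ≤ R ^ 2 * Cg * l2 ^ j * Ub (r + j) ^ 2 * m r / m (r + j) := by
      rw [le_div_iff₀ hmk]
      exact h6
    calc Ub r ^ 2 ≤ R ^ 2 * Cg * l2 ^ j * Ub (r + j) ^ 2 * m r / m (r + j) := h7
      _ = (R ^ 2 * Cg) * (Ub (r + j) / m (r + j)) * l2 ^ j * (Ub (r + j) * m r) := by ring
      _ ≤ (R + R ^ 2 * Cg) * (Ub (r + j) / m (r + j)) * (max l1 l2) ^ j * (Ub (r + j) * m r) := by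
          gcongr
          linarith

/-- the two-sided geometric series -/
lemma geo {lam : ℝ} (h0 : 0 < lam) (h1 : lam < 1) (k : ℕ) :
    ∑' r : ℕ, ENNReal.ofReal (lam ^ ((k - r) + (r - k))) ≤ ENNReal.ofReal (2 / (1 - lam)) := by
  have h2 : 0 < 1 - lam := by linarith
  have hs : ∑' j : ℕ, ENNReal.ofReal (lam ^ j) = ENNReal.ofReal (1 / (1 - lam)) := by
    rw [← ENNReal.ofReal_tsum_of_nonneg (fun j => by positivity) (summable_geometric_of_lt_one h0.le h1),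
      tsum_geometric_of_lt_one h0.le h1, one_div]
  rw [← Summable.sum_add_tsum_nat_add' (f := fun r : ℕ => ENNReal.ofReal (lam ^ ((k - r) + (r - k)))) (k := k) ENNReal.summable]
  have e1 : ∑ r ∈ range k, ENNReal.ofReal (lam ^ ((k - r) + (r - k))) ≤ ENNReal.ofReal (1 / (1 - lam)) := by
    rw [← Finset.sum_range_reflect, ← hs]
    refine le_trans ?_ (ENNReal.sum_le_tsum (range k))
    refine Finset.sum_le_sum fun j hj => ENNReal.ofReal_le_ofReal ?_
    rw [mem_range] at hj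
    exact pow_le_pow_of_le_one h0.le h1.le (by omega)
  have e2 : ∑' r : ℕ, ENNReal.ofReal (lam ^ ((k - (r + k)) + (r + k - k))) = ENNReal.ofReal (1 / (1 - lam)) := by
    rw [← hs]
    refine tsum_congr fun j => ?_
    rw [show (k - (j + k)) + (j + k - k) = j by omega]
  rw [e2]
  refine (add_le_add e1 le_rfl).trans (le_of_eq ?_)
  rw [← ENNReal.ofReal_add (by positivity) (by positivity)]
  congr 1
  ring

/-- the number of phases of one scale -/
lemma vol_Er {m : ℕ → ℝ} (hm : MLow m) (hu : MUp m) : ∃ C : ℝ, 0 < C ∧ ∀ r, volume (Er m r) ≤ ENNReal.ofReal (C / m r) := by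
  obtain ⟨Cm, hCm, hu⟩ := hu
  have hm0 := hm.pos 0
  refine ⟨Real.pi * m 0 + 2 * Cm, by positivity, fun r => ?_⟩
  have hmr := hm.pos r
  rcases r with _ | r
  · have h1 : Er m 0 ⊆ Set.Icc (-(Real.pi / 2)) (Real.pi / 2) := fun θ hθ => abs_le.1 hθ.1
    refine (measure_mono h1).trans ?_
    rw [Real.volume_Icc]
    refine ENNReal.ofReal_le_ofReal ?_
    rw [le_div_iff₀ hmr]
    have h2 := Real.pi_pos
    nlinarith
  · have hr := hm.pos r
    have h1 : Er m (r + 1) ⊆ Set.Icc (-(1 / m r)) (1 / m r) := fun θ hθ => by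
      refine abs_le.1 ?_
      have h2 := hθ.2.2 r (by omega)
      rw [le_div_iff₀ hr]
      exact h2.le
    refine (measure_mono h1).trans ?_
    rw [Real.volume_Icc]
    refine ENNReal.ofReal_le_ofReal ?_
    have h2 := hu r
    have h3 := Real.pi_pos
    rw [le_div_iff₀ hmr]
    have h4 : 1 / m r * m (r + 1) ≤ Cm := by
      rw [one_div, inv_mul_le_iff₀ hr, mul_comm]
      exact h2
    have h5 : 0 ≤ Real.pi * m 0 := by positivity
    nlinarith

end JoT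

open JoT

lemma meas_Er (m : ℕ → ℝ) (r : ℕ) : MeasurableSet (Er m r) := by
  have h : Er m r = {θ | |θ| ≤ Real.pi / 2} ∩ ({θ | 1 ≤ |θ| * m r} ∩ ⋂ s : ℕ, ⋂ _ : s < r, {θ | |θ| * m s < 1}) := by
    ext θ
    unfold Er
    simp only [Set.mem_ofPred_eq, Set.mem_inter_iff, Set.mem_iInter]
  rw [h]
  refine (measurableSet_le (by fun_prop) (by fun_prop)).inter ((measurableSet_le (by fun_prop) (by fun_prop)).inter ?_)
  exact MeasurableSet.iInter fun s => MeasurableSet.iInter fun _ => measurableSet_lt (by fun_prop) (by fun_prop)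

/-- **the shells**: integral of the characteristic function against a weight -/
theorem shells {m : ℕ → ℝ} (hm : MLow m) {C : ℝ} {k : ℕ} {v : Pt}
    (hF : ∀ (r : ℕ) (θ : ℝ), |θ| ≤ Real.pi / 2 → 1 ≤ |θ| * m r →
      ‖Fv (2 ^ k) v θ‖ ≤ C * (Ub k / 4 ^ k) * (Ub r * min 1 (Ub r / Ub k))) (G : ℝ → ℝ≥0∞) :
    ∫⁻ θ in Set.Icc (-(Real.pi / 2)) (Real.pi / 2), ‖Fv (2 ^ k) v θ‖ₑ * G θ ≤
      ∑' r : ℕ, ENNReal.ofReal (C * (Ub k / 4 ^ k) * (Ub r * min 1 (Ub r / Ub k))) * ∫⁻ θ in Er m r, G θ := by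
  classical
  have h1 : Set.Icc (-(Real.pi / 2)) (Real.pi / 2) ⊆ {0} ∪ ⋃ r, Er m r := by
    intro θ hθ
    by_cases h0 : θ = 0
    · exact Or.inl h0
    · right
      have hex : ∃ r, 1 ≤ |θ| * m r := by
        have hm0 := hm.pos 0
        have hθ0 : 0 < |θ| := abs_pos.2 h0
        obtain ⟨r, hr⟩ := exists_nat_gt (1 / (|θ| * m 0))
        refine ⟨r, ?_⟩
        have h2 := hm.low 0 r
        rw [Nat.zero_add] at h2
        have h3 : (r : ℝ) ≤ (2 : ℝ) ^ (5 / 4 * (r : ℝ)) := by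
          have h4 : (r : ℝ) ≤ (2 : ℝ) ^ (r : ℝ) := by
            rw [Real.rpow_natCast]
            exact_mod_cast Nat.lt_two_pow_self.le
          refine h4.trans (Real.rpow_le_rpow_of_exponent_le (by norm_num) ?_)
          have : (0 : ℝ) ≤ r := Nat.cast_nonneg r
          linarith
        rw [div_lt_iff₀ (by positivity)] at hr
        calc (1 : ℝ) ≤ r * (|θ| * m 0) := hr.le
          _ = |θ| * (r * m 0) := by ring
          _ ≤ |θ| * ((2 : ℝ) ^ (5 / 4 * (r : ℝ)) * m 0) := by gcongr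
          _ ≤ _ := by gcongr
      rw [Set.mem_iUnion]
      exact ⟨Nat.find hex, abs_le.2 hθ, Nat.find_spec hex, fun s hs => not_le.1 (Nat.find_min hex hs)⟩
  refine (lintegral_mono_set h1).trans ((lintegral_union_le _ _ _).trans ?_)
  have h2 : ∫⁻ θ in ({0} : Set ℝ), ‖Fv (2 ^ k) v θ‖ₑ * G θ = 0 := by
    rw [Measure.restrict_singleton]
    simp
  rw [h2, zero_add]
  refine (lintegral_iUnion_le _ _).trans (ENNReal.tsum_le_tsum fun r => ?_)
  rw [← lintegral_const_mul' _ _ ENNReal.ofReal_ne_top]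
  refine setLIntegral_mono' (meas_Er m r) fun θ hθ => mul_le_mul' ?_ le_rfl
  rw [← ofReal_norm]
  exact ENNReal.ofReal_le_ofReal (hF r θ hθ.1 hθ.2.1)

/-- **row J: the joint bound** -/
theorem joB_of {m : ℕ → ℝ} (hm : MLow m) (hu : MUp m) (hg : GrB m) (hF : FvB m) : JoB m := by
  obtain ⟨C, hC, hF⟩ := hF
  obtain ⟨Ct, lam, hCt, h0, h1, hT⟩ := termB_of hm hg
  obtain ⟨Ce, hCe, hE⟩ := vol_Er hm hu
  have h1l : 0 < 1 - lam := by linarith
  refine ⟨C * Ce * Ct * (2 / (1 - lam)), by positivity, fun k v b => ?_⟩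
  by_cases hb : Even b
  · have hn : 1 ≤ 2 ^ k := Nat.one_le_two_pow
    have hpi := Real.pi_gt_three
    have hUk := Ub_pos k
    have hmk := hm.pos k
    have hi := inv hn v hb
    rw [intervalIntegral.integral_of_le (by linarith)] at hi
    have h2 := enorm_integral_le_lintegral_enorm (μ := volume.restrict (Set.Ioc (-(Real.pi / 2)) (Real.pi / 2)))
      (fun θ : ℝ => Fv (2 ^ k) v θ * Complex.exp (-(((θ * b : ℝ) : ℂ) * Complex.I)))
    rw [hi] at h2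
    have h3 : ENNReal.ofReal ((pairs (2 ^ k) v b).toReal) ≤ ‖(Real.pi : ℂ) * ((pairs (2 ^ k) v b).toReal : ℂ)‖ₑ := by
      rw [← ofReal_norm, norm_mul, Complex.norm_real, Complex.norm_real, Real.norm_of_nonneg Real.pi_pos.le,
        Real.norm_of_nonneg ENNReal.toReal_nonneg]
      refine ENNReal.ofReal_le_ofReal ?_
      have h4 : 0 ≤ (pairs (2 ^ k) v b).toReal := ENNReal.toReal_nonneg
      nlinarith
    have h4 : ∫⁻ θ in Set.Ioc (-(Real.pi / 2)) (Real.pi / 2),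
        ‖Fv (2 ^ k) v θ * Complex.exp (-(((θ * b : ℝ) : ℂ) * Complex.I))‖ₑ ≤
        ∫⁻ θ in Set.Icc (-(Real.pi / 2)) (Real.pi / 2), ‖Fv (2 ^ k) v θ‖ₑ * (fun _ => 1) θ := by
      refine le_trans ?_ (lintegral_mono_set Set.Ioc_subset_Icc_self)
      refine lintegral_mono fun θ => le_of_eq ?_
      rw [mul_one, ← ofReal_norm, ← ofReal_norm, norm_mul, ← neg_mul, ← Complex.ofReal_neg, Complex.norm_exp_ofReal_mul_I,
        mul_one]
    have h5 := shells hm (fun r θ h6 h7 => hF k r v θ h6 h7) (fun _ => 1)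
    have h6 : ∀ r, ENNReal.ofReal (C * (Ub k / 4 ^ k) * (Ub r * min 1 (Ub r / Ub k))) * ∫⁻ _ in Er m r, 1 ≤
        ENNReal.ofReal (C * Ce * Ct * (Ub k ^ 2 / (4 ^ k * m k))) * ENNReal.ofReal (lam ^ ((k - r) + (r - k))) := by
      intro r
      have hUr := Ub_pos r
      have hmr := hm.pos r
      have h7 : ∫⁻ _ in Er m r, (1 : ℝ≥0∞) = volume (Er m r) := by simp
      rw [h7, ← ENNReal.ofReal_mul (by positivity)]
      refine (mul_le_mul' le_rfl (hE r)).trans ?_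
      have h8 : 0 ≤ min 1 (Ub r / Ub k) := le_min one_pos.le (by positivity)
      rw [← ENNReal.ofReal_mul (by positivity)]
      refine ENNReal.ofReal_le_ofReal ?_
      calc C * (Ub k / 4 ^ k) * (Ub r * min 1 (Ub r / Ub k)) * (Ce / m r)
          = C * Ce * (Ub k / 4 ^ k) * (Ub r * min 1 (Ub r / Ub k) / m r) := by ring
        _ ≤ C * Ce * (Ub k / 4 ^ k) * (Ct * (Ub k / m k) * lam ^ ((k - r) + (r - k))) := by
            have := hT k r
            gcongr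
        _ = _ := by
            field_simp
    have h7 : ENNReal.ofReal ((pairs (2 ^ k) v b).toReal) = pairs (2 ^ k) v b := ENNReal.ofReal_toReal (pairs_ne hn v b)
    rw [← h7]
    refine h3.trans (h2.trans (h4.trans (h5.trans ((ENNReal.tsum_le_tsum h6).trans ?_))))
    rw [ENNReal.tsum_mul_left]
    refine (mul_le_mul' le_rfl (geo h0 h1 k)).trans (le_of_eq ?_)
    rw [← ENNReal.ofReal_mul (by positivity)]
    congr 1
    ring
  · rw [pairs_odd v hb]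
    exact zero_le

end JNT

end HexObs
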