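import Pool.Agent.JNT.EvDefs
import Pool.Agent.EN.ExDir
import Pool.Agent.EN.DirX

/-!
JNT: the event theorem for runs with a given number of letters and a given end point, both directions and the three
directions; the reduction of the three directions with the label (helper69).
-/

set_option autoImplicit false

namespace HexObs

namespace JNT

open Finset TS SDN NTW NTA EN NTW.DirA

open scoped ENNReal

/-- the end point behind a given first part -/
lemma end_app (w r : List Bool) : vx oo up (w ++ r) (w ++ r).length =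
    vx oo up w w.length + mulE (rotTo up (dx up w w.length)) (vx oo up r r.length) := by
  have h3 : vx oo up (w ++ r) (w ++ r).length = vx (vx oo up w w.length) (dx up w w.length) r r.length := by
    rw [List.length_append]
    have h4 : vx oo up (w ++ r) w.length = vx oo up w w.length := vx_append (by omega)
    have h5 : dx up (w ++ r) w.length = dx up w w.length := dx_append le_rfl
    rw [← h4, ← h5]
    unfold vx dx
    rw [vs_shift]
    apply vs_congr
    intro k _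
    exact tf_append_right k
  rw [h3]
  have h5 := vx_mulE (rotTo up (dx up w w.length)) oo (vx oo up w w.length) up r r.length
  rw [rotTo_apply (dx up w w.length) upd] at h5
  rw [h5]
  congr 2
  exact sub_zero _

lemma labR_E : LabR labE := by
  intro w s s' h
  unfold labE at h ⊢
  rw [end_app, end_app] at h
  exact mulE_inj (nrm_rotTo upd (dx_mem upd w w.length)) (add_left_cancel h)

lemma labR_N : LabR labN := by
  intro w s s' h
  have h1 : (w ++ s).length = (w ++ s').length := congrArg Prod.fst h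
  have h2 : labE (w ++ s) = labE (w ++ s') := congrArg Prod.snd h
  rw [List.length_append, List.length_append] at h1
  exact Prod.ext (by show s.length = s'.length; omega) (labR_E w s s' h2)

lemma labW_E : LabW labE := by
  refine ⟨fun v => (-v.1, v.1 + v.2), fun t => ?_⟩
  unfold labE
  rw [List.length_map]
  exact vx_not t (by omega)

lemma labW_N : LabW labN := by
  obtain ⟨f, hf⟩ := labW_E
  refine ⟨fun a => (a.1, f a.2), fun t => ?_⟩
  exact Prod.ext (List.length_map _) (hf t)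

variable {Λ : Type} {lab : List Bool → Λ}

/-- the words behind a given first part with a given label -/
lemma gf_rest (hR : LabR lab) (w : List Bool) (a : Λ) (F : Set (List Bool)) {B : ℝ≥0∞} (h : ∀ a', gf {s | lab s = a' ∧ s ∈ F} ≤ B) :
    gf {t | lab t = a ∧ ∃ s ∈ F, t = w ++ s} ≤ wE w * B := by
  by_cases hex : ∃ s0, s0 ∈ F ∧ lab (w ++ s0) = a
  · obtain ⟨s0, h0, h1⟩ := hex
    have h3 : gf ({w} : Set (List Bool)) = wE w := by
      have := gf_finset {w}
      rw [Finset.coe_singleton, Finset.sum_singleton] at this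
      rw [this]
      rfl
    rw [← h3]
    refine (gf_le_mul (R := {s | lab s = lab s0 ∧ s ∈ F}) fun t ht => ?_).trans (mul_le_mul_right (h _) _)
    obtain ⟨hn, s, hs, h4⟩ := ht
    refine ⟨w, rfl, s, ⟨?_, hs⟩, h4⟩
    refine hR w _ _ ?_
    rw [← h4, hn, h1]
  · have he : {t | lab t = a ∧ ∃ s ∈ F, t = w ++ s} = ∅ := by
      refine Set.eq_empty_of_forall_notMem fun t ht => ?_
      obtain ⟨hn, s, hs, h4⟩ := ht
      exact hex ⟨s, hs, by rw [← h4]; exact hn⟩
    rw [he]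
    have h5 : gf (∅ : Set (List Bool)) = 0 := by
      unfold gf
      simp
    rw [h5]
    exact zero_le

/-- words with an initial word w q of q letters -/
lemma gf_preL (hR : LabR lab) (a : Λ) (c : ℝ≥0∞) (F : Set (List Bool)) (hF : ∀ a', gf {s | lab s = a' ∧ s ∈ F} ≤ c)
    (w : ℕ → List Bool) (hw : ∀ q, (w q).length = q) :
    gf {t | lab t = a ∧ ∃ q, ∃ s ∈ F, t = w q ++ s} ≤ ENNReal.ofReal CD * c := by
  have h1 : {t | lab t = a ∧ ∃ q, ∃ s ∈ F, t = w q ++ s} = ⋃ q : ℕ, {t | lab t = a ∧ ∃ s ∈ F, t = w q ++ s} := by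
    ext t
    simp only [Set.mem_ofPred_eq, Set.mem_iUnion, exists_and_left]
  rw [h1]
  refine (ENNReal.tsum_iUnion_le_tsum wE _).trans ?_
  refine (ENNReal.tsum_le_tsum fun q => gf_rest hR (w q) a F hF).trans ?_
  rw [ENNReal.tsum_mul_right]
  refine mul_le_mul_left (le_of_eq ?_) _
  rw [← tsum_xc]
  refine tsum_congr fun q => ?_
  unfold wE
  rw [hw]

/-- **the event theorem for runs of interior leaves, both directions, a given label** -/
theorem eventRLL_of (hR : LabR lab) {Dm : ℕ → ℝ≥0∞ → (List Bool → ℝ≥0∞) → Prop} (hE : EventRL lab Dm) : ∃ (C : ℝ) (k0 : ℕ), 1 ≤ C ∧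
    ∀ (dir : Bool) (kc J lam lam' : ℕ) (a : Λ) (R : Set (List (List Bool))) (δ : ℝ), k0 ≤ kc → 6 ≤ J → 0 < δ →
    QL (kc + J + 11) lam' → SmRL lab Dm kc R δ →
    gf {t | lab t = a ∧ t ∈ SAL lam ∧ t ∈ ERL dir kc (kc + J) R} ≤
      ENNReal.ofReal (C ^ J * δ * Ub (kc + J)) * (bl (lam + lam' + 40) (kc + J + 11)) ^ 2 := by
  obtain ⟨C0, k0, hC0, h0⟩ := hE
  have hCD := CD_ge
  have hCp : 0 < C0 := by linarith
  have hCD0 : 0 < CD := by linarith
  obtain ⟨C, hC⟩ : ∃ C, C = 8 * CD * C0 ^ 4 := ⟨_, rfl⟩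
  have hC1 : 1 ≤ C := by
    rw [hC]
    have : 1 ≤ C0 ^ 4 := one_le_pow₀ hC0
    nlinarith
  refine ⟨C, k0, hC1, fun dir kc J lam lam' a R δ hk hJ hδ hQ hS => ?_⟩
  have h1 := fun a => h0 kc (J + 3) lam lam' a R δ hk (by omega) hδ
    (by rwa [show kc + (J + 3) + 8 = kc + J + 11 by omega]) hS
  rw [show kc + (J + 3) + 8 = kc + J + 11 by omega] at h1
  have hU : Ub (kc + (J + 3)) ≤ 8 * Ub (kc + J) := by
    have a1 := Ub_succ (kc + J)
    have a2 := Ub_succ (kc + J + 1)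
    have a3 := Ub_succ (kc + J + 2)
    rw [show kc + (J + 3) = kc + J + 2 + 1 by omega]
    linarith
  have hUp := Ub_pos (kc + J)
  have hM : ∀ a : Λ, gf {t | lab t = a ∧ t ∈ SAL lam ∧ t ∈ ERM kc (kc + (J + 3)) R} ≤
      gf {t | lab t = a ∧ t ∈ SAL lam ∧ t ∈ ER kc (J + 3) R} :=
    fun a => gf_mono fun t ht => ⟨ht.1, ht.2.1, RD.erm_sub ht.2.2⟩
  have hfin : ENNReal.ofReal CD * (ENNReal.ofReal (C0 ^ (J + 3) * δ * Ub (kc + (J + 3))) *
      (bl (lam + lam' + 40) (kc + J + 11)) ^ 2) ≤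
      ENNReal.ofReal (C ^ J * δ * Ub (kc + J)) * (bl (lam + lam' + 40) (kc + J + 11)) ^ 2 := by
    rw [← mul_assoc, ← ENNReal.ofReal_mul hCD0.le]
    refine mul_le_mul_left (ENNReal.ofReal_le_ofReal ?_) _
    have e1 : C0 ^ (J + 3) ≤ (C0 ^ 4) ^ J := by
      rw [← pow_mul]
      exact pow_le_pow_right₀ hC0 (by omega)
    have e2 : CD * 8 ≤ (8 * CD) ^ J := by
      calc CD * 8 = (8 * CD) ^ 1 := by ring
        _ ≤ (8 * CD) ^ J := pow_le_pow_right₀ (by linarith) (by omega)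
    have e3 : C ^ J = (8 * CD) ^ J * (C0 ^ 4) ^ J := by
      rw [hC, mul_pow]
    rw [e3]
    calc CD * (C0 ^ (J + 3) * δ * Ub (kc + (J + 3))) ≤ CD * (C0 ^ (J + 3) * δ * (8 * Ub (kc + J))) := by gcongr
      _ = (CD * 8) * C0 ^ (J + 3) * δ * Ub (kc + J) := by ring
      _ ≤ (8 * CD) ^ J * (C0 ^ 4) ^ J * δ * Ub (kc + J) := by gcongr
  cases dir
  · have hsub : {t | lab t = a ∧ t ∈ SAL lam ∧ t ∈ ERL false kc (kc + J) R} ⊆
        {t | lab t = a ∧ t ∈ SAL lam ∧ t ∈ ERM kc (kc + (J + 3)) R} := by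
      rintro t ⟨t0, t1, t2, m, u, e, hL, l, d, a1, a2, a3, a4⟩
      refine ⟨t0, t1, ⟨t2.1, fun i hi dir => (t2.2 i hi dir).trans (pow_le_pow_right₀ (by norm_num) (by omega))⟩, m, u, e, hL,
        l, d, by omega, a2, a3, a4⟩
    refine ((gf_mono hsub).trans ((hM a).trans (h1 a))).trans (le_trans ?_ hfin)
    have : (1 : ℝ≥0∞) ≤ ENNReal.ofReal CD := by
      rw [← ENNReal.ofReal_one]
      exact ENNReal.ofReal_le_ofReal hCD
    calc _ = 1 * (ENNReal.ofReal (C0 ^ (J + 3) * δ * Ub (kc + (J + 3))) * (bl (lam + lam' + 40) (kc + J + 11)) ^ 2) := by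
          rw [one_mul]
      _ ≤ _ := mul_le_mul_left this _
  · refine le_trans ?_ hfin
    have hs2 : {t | lab t = a ∧ t ∈ SAL lam ∧ t ∈ ERL true kc (kc + J) R} ⊆ {t | lab t = a ∧
        ∃ q, ∃ s ∈ {t | t ∈ SAL lam ∧ t ∈ ERM kc (kc + J + 3) R}, t = Qz q ++ s} :=
      fun t ht => ⟨ht.1, EX.true_sub ⟨ht.2.1, ht.2.2⟩⟩
    refine (gf_mono hs2).trans (gf_preL hR a _ {t | t ∈ SAL lam ∧ t ∈ ERM kc (kc + J + 3) R} (fun a' => ?_) Qz Qz_length)
    rw [show kc + J + 3 = kc + (J + 3) by omega]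
    exact (hM a').trans (h1 a')

/-- **the event theorem for runs, a given label, two directions** -/
theorem runLn_of (hR : LabR lab) {Dm : ℕ → ℝ≥0∞ → (List Bool → ℝ≥0∞) → Prop} (hE : EventRL lab Dm) : ∃ (C : ℝ) (k0 : ℕ), 1 ≤ C ∧
    ∀ (dir : Bool) (kc J : ℕ) (a : Λ) (R : Set (List (List Bool))) (δ : ℝ), k0 ≤ kc → 6 ≤ J → 0 < δ →
    SmRL lab Dm kc R δ →
    gf {t | lab t = a ∧ t ∈ ERL dir kc (kc + J) R} ≤ ENNReal.ofReal (C ^ J * δ * Ub (kc + J)) * Xb (kc + J) ^ 2 := by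
  obtain ⟨C0, k0, hC0, h0⟩ := eventRLL_of hR hE
  obtain ⟨D, hD, hDX⟩ := Xb_pow
  have hC0' : 0 ≤ C0 := by linarith
  have hD0 : 0 ≤ D := by linarith
  refine ⟨C0 * D ^ 22, k0, ?_, fun dir kc J a R δ hk hJ hδ hS => ?_⟩
  · have : 1 ≤ D ^ 22 := one_le_pow₀ hD
    nlinarith
  · have hUp := Ub_pos (kc + J)
    obtain ⟨lam', hQ⟩ := QL_exists (kc + J + 11)
    have h1 : gf {t | lab t = a ∧ t ∈ ERL dir kc (kc + J) R} ≤
        ENNReal.ofReal (C0 ^ J * δ * Ub (kc + J)) * (Xb (kc + J + 11)) ^ 2 := by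
      refine gf_le_of_mono_union (fun lam => {t | lab t = a ∧ t ∈ SAL lam ∧ t ∈ ERL dir kc (kc + J) R}) ?_ ?_ fun lam =>
        (h0 dir kc J lam lam' a R δ hk hJ hδ hQ hS).trans ?_
      · intro lam lam2 hl t ht
        exact ⟨ht.1, ⟨ht.2.1.1, ht.2.1.2.trans hl⟩, ht.2.2⟩
      · intro t ht
        rw [Set.mem_iUnion]
        exact ⟨t.length, ht.1, ⟨ht.2.1.1, le_rfl⟩, ht.2⟩
      · exact mul_le_mul_right (pow_le_pow_left' (bl_le_Xb _ _) 2) _
    refine h1.trans ?_
    calc ENNReal.ofReal (C0 ^ J * δ * Ub (kc + J)) * (Xb (kc + J + 11)) ^ 2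
        ≤ ENNReal.ofReal (C0 ^ J * δ * Ub (kc + J)) * (ENNReal.ofReal (D ^ 11) * Xb (kc + J)) ^ 2 := by
          exact mul_le_mul_right (pow_le_pow_left' (hDX (kc + J) 11) 2) _
      _ = ENNReal.ofReal (C0 ^ J * D ^ 22 * δ * Ub (kc + J)) * Xb (kc + J) ^ 2 := by
          rw [mul_pow, ← ENNReal.ofReal_pow (by positivity), ← mul_assoc, ← ENNReal.ofReal_mul (by positivity)]
          congr 2
          ring
      _ ≤ _ := by
          refine mul_le_mul_left (ENNReal.ofReal_le_ofReal ?_) _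
          have e1 : D ^ 22 ≤ (D ^ 22) ^ J := by
            calc D ^ 22 = (D ^ 22) ^ 1 := by rw [pow_one]
              _ ≤ (D ^ 22) ^ J := pow_le_pow_right₀ (one_le_pow₀ hD) (by omega)
          rw [mul_pow]
          gcongr

/-! ### the third direction -/

/-- the reduction of the three directions to the two directions of HasRun, a given label -/
theorem gf_HRL (hW : LabW lab) (d : Fin 3) (kc K : ℕ) (R : Set (List (List Bool))) (a : Λ) : ∃ a',
    gf {t | lab t = a ∧ t ∈ WL K ∧ HR d kc R t} ≤ gf {t | lab t = a' ∧ t ∈ WL (K + 2) ∧ HasRun (dr d) kc R t} := by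
  obtain ⟨f, hf⟩ := hW
  by_cases hd : d = 2
  · refine ⟨f a, gf_mw_le ?_⟩
    rintro t ⟨h1, h2, h3⟩
    unfold HR wd at h3
    rw [if_pos hd] at h3
    refine ⟨?_, mw_WL h2, h3⟩
    show lab (t.map not) = f a
    rw [hf, h1]
  · refine ⟨a, gf_mono ?_⟩
    rintro t ⟨h1, h2, h3⟩
    have h4 := wd_WL d h2
    unfold HR at h3
    unfold wd at h3 h4
    rw [if_neg hd] at h3 h4
    exact ⟨h1, h4, h3⟩

/-- **the event theorem for runs of interior leaves, a given label, three directions** -/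
theorem runL3_of (hR : LabR lab) (hW : LabW lab) {Dm : ℕ → ℝ≥0∞ → (List Bool → ℝ≥0∞) → Prop} (hE : EventRL lab Dm) : ∃ (C : ℝ) (k0 : ℕ), 1 ≤ C ∧
    ∀ (d : Fin 3) (kc J : ℕ) (a : Λ) (R : Set (List (List Bool))) (δ : ℝ), k0 ≤ kc → 6 ≤ J → 0 < δ →
    SmRL lab Dm kc R δ →
    gf {t | lab t = a ∧ t ∈ WL (kc + J) ∧ HR d kc R t} ≤ ENNReal.ofReal (C ^ J * δ * Ub (kc + J)) * Xb (kc + J) ^ 2 := by
  obtain ⟨C, k0, hC, h⟩ := runLn_of hR hE
  obtain ⟨D, hD, hDX⟩ := Xb_pow
  have hC0 : 0 ≤ C := by linarith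
  have hD0 : 0 ≤ D := by linarith
  have hE : 1 ≤ C ^ 2 * 4 * D ^ 4 := by
    have h1 : 1 ≤ C ^ 2 := one_le_pow₀ hC
    have h2 : 1 ≤ D ^ 4 := one_le_pow₀ hD
    nlinarith
  refine ⟨C * (C ^ 2 * 4 * D ^ 4), k0, by nlinarith, fun d kc J a R δ hk hJ hδ hS => ?_⟩
  obtain ⟨a', ha'⟩ := gf_HRL hW d kc (kc + J) R a
  have h1 := h (dr d) kc (J + 2) a' R δ hk (by omega) hδ hS
  have hU := Ub_pos (kc + J)
  have h3 : gf {t | lab t = a ∧ t ∈ WL (kc + J) ∧ HR d kc R t} ≤
      gf {t | lab t = a' ∧ t ∈ ERL (dr d) kc (kc + (J + 2)) R} := by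
    refine ha'.trans (gf_mono ?_)
    rintro t ⟨h0, h3, h4⟩
    exact ⟨h0, h3, h4⟩
  have hUb : Ub (kc + (J + 2)) ≤ 4 * Ub (kc + J) := by
    have := Sc.Ub_shift (kc + J) 2
    rw [show kc + (J + 2) = kc + J + 2 by ring]
    have h4 : ((2 : ℝ) ^ 2) = 4 := by norm_num
    rwa [h4] at this
  refine (h3.trans h1).trans ?_
  calc ENNReal.ofReal (C ^ (J + 2) * δ * Ub (kc + (J + 2))) * Xb (kc + (J + 2)) ^ 2
      ≤ ENNReal.ofReal (C ^ (J + 2) * δ * (4 * Ub (kc + J))) * (ENNReal.ofReal (D ^ 2) * Xb (kc + J)) ^ 2 := by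
        refine mul_le_mul' (ENNReal.ofReal_le_ofReal ?_) (pow_le_pow_left' ?_ 2)
        · exact mul_le_mul_of_nonneg_left hUb (by positivity)
        · have := hDX (kc + J) 2
          rwa [show kc + J + 2 = kc + (J + 2) by ring] at this
    _ = ENNReal.ofReal (C ^ J * (C ^ 2 * 4 * D ^ 4) * δ * Ub (kc + J)) * Xb (kc + J) ^ 2 := by
        rw [mul_pow, ← ENNReal.ofReal_pow (by positivity), ← mul_assoc, ← ENNReal.ofReal_mul (by positivity)]
        congr 2
        ring
    _ ≤ _ := by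
        refine mul_le_mul_left (ENNReal.ofReal_le_ofReal ?_) _
        have e1 : C ^ 2 * 4 * D ^ 4 ≤ (C ^ 2 * 4 * D ^ 4) ^ J := by
          calc C ^ 2 * 4 * D ^ 4 = (C ^ 2 * 4 * D ^ 4) ^ 1 := by rw [pow_one]
            _ ≤ (C ^ 2 * 4 * D ^ 4) ^ J := pow_le_pow_right₀ hE (by omega)
        rw [mul_pow]
        gcongr

/-! ### the reduction of the directions with the label -/

/-- **the reduction of the direction true to the direction false, a given label** -/
theorem dirRedL (hR : LabR lab) (a : Λ) (c : ℝ≥0∞) (E F : Set (List Bool))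
    (hF : ∀ a', gf {s | s ∈ SA ∧ lab s = a' ∧ s ∈ F} ≤ c)
    (h : ∀ (q : ℕ) (t : List Bool) (sg : ℤ), t ∈ SA → q ≤ t.length → (sg = 1 ∨ sg = -1) →
      (∀ i, i ≤ q → |lvl true (vx oo up t i) - lvl true (vx oo up t q)| ≤ 2) →
      (∀ i, q + i ≤ t.length →
        lvl true (vx oo up t (q + i)) - lvl true (vx oo up t q) = sg * lvl false (vx oo up (t.drop q) i)) →
      (∀ K, t ∈ WL K → t.drop q ∈ WL (K + 3)) → t ∈ E → t.drop q ∈ F) :
    gf {t | t ∈ SA ∧ lab t = a ∧ t ∈ E} ≤ ENNReal.ofReal (2 * CD) * c := by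
  classical
  obtain ⟨F', hF'⟩ : ∃ F', F' = {t | t ∈ SA ∧ t ∈ F} := ⟨_, rfl⟩
  have hF2 : ∀ a', gf {s | lab s = a' ∧ s ∈ F'} ≤ c := by
    intro a'
    refine (gf_mono ?_).trans (hF a')
    rintro s ⟨h1, h2⟩
    rw [hF'] at h2
    exact ⟨h2.1, h1, h2.2⟩
  have hsub : {t | t ∈ SA ∧ lab t = a ∧ t ∈ E} ⊆ {t | lab t = a ∧ ∃ q, ∃ s ∈ F', t = Qz q ++ s} ∪
      {t | lab t = a ∧ ∃ q, ∃ s ∈ F', t = Pz q ++ s} := by
    rintro t ⟨ht, htl, hE⟩
    by_cases hex : ∃ q, q ≤ t.length ∧ vert (dx up t q)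
    · left
      obtain ⟨hq, hv⟩ := Nat.find_spec hex
      have hmin : ∀ i, i < Nat.find hex → ¬ vert (dx up t i) := fun i hi h => Nat.find_min hex hi ⟨by omega, h⟩
      set q := Nat.find hex
      obtain ⟨σ, hσ, hlv, hin⟩ := lvl_drop hq hv
      have hSA : t.drop q ∈ SA := by
        refine ⟨fun _ _ _ => Set.mem_univ _, ?_⟩
        intro i k hik hk heq
        rw [List.length_drop] at hk
        exact ht.inj (q + i) (q + k) (by omega) (by omega) (hin i k heq)
      refine ⟨htl, q, t.drop q, ?_, by rw [← take_eq hq hmin hv, List.take_append_drop]⟩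
      rw [hF']
      refine ⟨hSA, h q t σ ht hq hσ ?_ ?_ (fun K hK => EN.drop_WL hK hq hv hSA) hE⟩
      · intro i hi
        rw [zz_lvl hmin i hi, zz_lvl hmin q le_rfl, abs_le]
        split_ifs <;> constructor <;> omega
      · intro i _
        rw [hlv i]
        show _ = σ * lev (t.drop q) i
        ring
    · right
      push Not at hex
      have hall : ∀ i, i < t.length + 1 → ¬ vert (dx up t i) := fun i hi => hex i (by omega)
      refine ⟨htl, t.length, [], ?_, by rw [List.append_nil]; exact all_eq hall⟩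
      rw [hF']
      refine ⟨(nil_WL 0).1, ?_⟩
      have h1 := h t.length t 1 ht le_rfl (Or.inl rfl) ?_ ?_ ?_ hE
      · rw [List.drop_length] at h1
        exact h1
      · intro i hi
        rw [zz_lvl hall i (by omega), zz_lvl hall t.length (by omega), abs_le]
        split_ifs <;> constructor <;> omega
      · intro i hi
        have h0 : i = 0 := by omega
        rw [h0, add_zero, sub_self]
        show (0 : ℤ) = 1 * lvl false oo
        decide
      · intro K _
        rw [List.drop_length]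
        exact nil_WL _
  refine (gf_mono hsub).trans ((gf_union_le _ _).trans ((add_le_add (gf_preL hR a c F' hF2 Qz Qz_length)
    (gf_preL hR a c F' hF2 Pz Pz_length)).trans (le_of_eq ?_)))
  rw [← two_mul, ← mul_assoc, ENNReal.ofReal_mul (by norm_num), show ENNReal.ofReal 2 = 2 by norm_num]

/-- **the reduction of the three directions to the direction false, a given label** -/
theorem dir3L (hR : LabR lab) (hW : LabW lab) (d : Fin 3) (a : Λ) (c : ℝ≥0∞) (E F : Set (List Bool))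
    (hF : ∀ a', gf {s | s ∈ SA ∧ lab s = a' ∧ s ∈ F} ≤ c)
    (h : ∀ (q : ℕ) (t : List Bool) (sg : ℤ), t ∈ SA → q ≤ t.length → (sg = 1 ∨ sg = -1) →
      (∀ i, i ≤ q → |lv3 d (vx oo up t i) - lv3 d (vx oo up t q)| ≤ 2) →
      (∀ i, q + i ≤ t.length →
        lv3 d (vx oo up t (q + i)) - lv3 d (vx oo up t q) = sg * lvl false (vx oo up ((wd d t).drop q) i)) →
      (∀ K, t ∈ WL K → (wd d t).drop q ∈ WL (K + 5)) → t ∈ E → (wd d t).drop q ∈ F) :
    gf {t | t ∈ SA ∧ lab t = a ∧ t ∈ E} ≤ ENNReal.ofReal (2 * CD) * c := by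
  have hCD := CD_ge
  have hWm : ∀ {K K' : ℕ} {t : List Bool}, K ≤ K' → t ∈ WL K → t ∈ WL K' := fun hK ht =>
    ⟨ht.1, fun i hi dir => (ht.2 i hi dir).trans (pow_le_pow_right₀ (by norm_num) hK)⟩
  have hd : d = 0 ∨ d = 1 ∨ d = 2 := by
    fin_cases d
    · exact Or.inl rfl
    · exact Or.inr (Or.inl rfl)
    · exact Or.inr (Or.inr rfl)
  rcases hd with rfl | rfl | rfl
  · have h1 : gf {t | t ∈ SA ∧ lab t = a ∧ t ∈ E} ≤ c := by
      refine (gf_mono ?_).trans (hF a)
      rintro t ⟨h1, h2, h3⟩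
      refine ⟨h1, h2, ?_⟩
      have h4 := h 0 t 1 h1 (Nat.zero_le _) (Or.inl rfl) ?_ ?_ ?_ h3
      · simpa [wd] using h4
      · intro i hi
        have : i = 0 := by omega
        rw [this, sub_self, abs_zero]
        norm_num
      · intro i _
        show lvl false (vx oo up t (0 + i)) - lvl false oo = 1 * lvl false (vx oo up (t.drop 0) i)
        rw [List.drop_zero, zero_add, one_mul, show lvl false oo = 0 by decide, sub_zero]
      · intro K hK
        show (t.drop 0) ∈ _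
        rw [List.drop_zero]
        exact hWm (by omega) hK
    calc gf {t | t ∈ SA ∧ lab t = a ∧ t ∈ E} ≤ 1 * c := by rw [one_mul]; exact h1
      _ ≤ ENNReal.ofReal (2 * CD) * c := by
          refine mul_le_mul_left ?_ _
          rw [← ENNReal.ofReal_one]
          exact ENNReal.ofReal_le_ofReal (by linarith)
  · refine dirRedL hR a c E F hF fun q t sg ht hq hsg h1 h2 h3 hE => ?_
    exact h q t sg ht hq hsg h1 h2 (fun K hK => hWm (by omega) (h3 K hK)) hE
  · obtain ⟨f, hf⟩ := hW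
    refine (gf_mw_le (Q := {t | t ∈ SA ∧ lab t = f a ∧ t ∈ {t | mw t ∈ E}}) ?_).trans
      (dirRedL hR (f a) c {t | mw t ∈ E} F hF fun q t sg ht hq hsg h1 h2 h3 hE => ?_)
    · rintro t ⟨h1, h2, h3⟩
      refine ⟨mw_SA h1, (hf t).trans (by rw [h2]), ?_⟩
      show mw (mw t) ∈ E
      rw [mw_mw]
      exact h3
    · have hl := mw_length t
      have e : ∀ i, i ≤ t.length + 1 → lv3 2 (vx oo up (mw t) i) = lvl true (vx oo up t i) := by
        intro i hi
        have := lvl_wd 2 (mw t) (i := i) (by rw [hl]; exact hi)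
        rw [← this]
        show lvl true (vx oo up (mw (mw t)) i) = _
        rw [mw_mw]
      have e2 : wd 2 (mw t) = t := by
        show mw (mw t) = t
        exact mw_mw t
      have h4 := h q (mw t) sg (mw_SA ht) (by rw [hl]; exact hq) hsg ?_ ?_ ?_ hE
      · rwa [e2] at h4
      · intro i hi
        rw [e i (by omega), e q (by omega)]
        exact h1 i hi
      · intro i hi
        rw [hl] at hi
        rw [e (q + i) (by omega), e q (by omega), e2]
        exact h2 i hi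
      · intro K hK
        rw [e2]
        have h5 := mw_WL hK
        rw [mw_mw] at h5
        have h6 := h3 (K + 2) h5
        rwa [show K + 2 + 3 = K + 5 by ring] at h6

end JNT

end HexObs
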