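import Pool.Agent.JNT.Rel
import Pool.Agent.EN.EmoDefs

/-!
JNT: good and bad leaves with the labelled norm; the literal statements between the rows.
-/

set_option autoImplicit false

namespace HexObs

namespace JNT

open Finset TS SDN NTW NTA EN

open scoped ENNReal

section

variable {Λ : Type} (lab : List Bool → Λ)

/-- good and bad leaves of the class A: the labelled norm of one good leaf with J0 bad leaves is at most E -/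
def GBL (Dm : ℕ → ℝ≥0∞ → (List Bool → ℝ≥0∞) → Prop) (kc : ℕ) (A : Set (List Bool)) (J0 : ℕ) (E : ℝ) : Prop :=
  ∃ (I : ℕ) (Gd Bd : ℕ → Set (List Bool)) (G b : ℕ → ℝ), (∀ i ≤ I, 0 ≤ G i) ∧ (∀ i ≤ I, 0 ≤ b i) ∧
    (∀ i ≤ I, Gd i ⊆ A) ∧ (∀ i ≤ I, Bd i ⊆ A) ∧ (∀ i ≤ I, ∀ g ∈ A, g ∈ Gd i ∨ g ∈ Bd i) ∧
    (∀ i ≤ I, SmDL lab Dm kc (Gd i) (G i)) ∧ (∀ i ≤ I, SmD Dm kc (Bd i) (b i)) ∧
    G 0 + ∑ i ∈ range I, G (i + 1) * b i ^ J0 + b I ^ (J0 + 1) ≤ E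

/-- good and bad leaves, uniform in the box -/
def GBmL (m : ℕ → ℝ) (J0 : ℕ) : Prop := ∃ (C : ℝ) (k0 : ℕ), 1 ≤ C ∧ ∀ k mu : ℕ, k0 ≤ k →
  GBL lab DmJ k (BrR (2 ^ (k + 4)) (2 ^ (k + mu + 2))) J0 (C ^ (mu + 1) / m k)

/-- the event theorem for runs of interior leaves, both directions, with the label -/
def RunLn : Prop := ∃ (C : ℝ) (k0 : ℕ), 1 ≤ C ∧
  ∀ (dir : Bool) (kc J : ℕ) (a : Λ) (R : Set (List (List Bool))) (δ : ℝ), k0 ≤ kc → 6 ≤ J → 0 < δ →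
    SmRL lab DmJ kc R δ →
    gf {t | lab t = a ∧ t ∈ ERL dir kc (kc + J) R} ≤ ENNReal.ofReal (C ^ J * δ * Ub (kc + J)) * Xb (kc + J) ^ 2

/-- tail of the time spent in the boxes, with the label, the local mass factor w -/
def EXTL (m w : ℕ → ℝ) : Prop := ∃ C : ℝ, 1 ≤ C ∧ ∀ Q : ℕ, ∃ A : ℝ, 1 ≤ A ∧ ∀ (a : Λ) (K l : ℕ) (lam : ℝ),
  l ≤ K → 1 ≤ lam → gf {t | lab t = a ∧ t ∈ WL K ∧ ∃ x z, Bx (l + 2) t x z ∧ lam * m l ≤ (z : ℝ) - x} ≤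
    ENNReal.ofReal (A / lam ^ Q * C ^ (K - l)) * (ENNReal.ofReal (Ub K / w K) * Xb K ^ 2)

end

end JNT

end HexObs
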