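import Pool.Agent.JNT.Comp
import Pool.Agent.EN.Marks
import Pool.Agent.JNT.GBL

/-!
JNT: runs of marked leaves, one leaf in the labelled class G; the labelled norm of the runs with enough leaves. A family of
pairs (Gd i, Bd i) of leaf classes, Gd i of finite labelled norm, Bd i of small norm, gives the labelled norm E; a run with
J0 + 1 leaves more than its marks has this norm. Copy of EN/Seq and EN/Marks with the labelled norms.
-/

set_option autoImplicit false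

namespace HexObs

namespace JNT

open Finset TS SDN NTW NTA EN

open scoped ENNReal

variable {Λ : Type} {lab : List Bool → Λ} {Dm : ℕ → ℝ≥0∞ → (List Bool → ℝ≥0∞) → Prop} {kc : ℕ} {R : Set (List (List Bool))} {A S G B : Set (List Bool)}
  {δ q E d b a : ℝ} {J0 : ℕ}

/-- one labelled leaf in front -/
lemma smRL_cons (hDm : DmP Dm) {X : Set (List Bool)} (hX : X ⊆ HB (2 ^ (kc + 4))) (hR : InH (2 ^ (kc + 4)) R) {x d : ℝ}
    (hx : 0 ≤ x) (hd : 0 ≤ d) (h1 : SmDL lab Dm kc X x) (h2 : SmR Dm kc R d) (h0 : [] ∈ R → 1 ≤ d ∧ R ⊆ {[]}) :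
    SmRL lab Dm kc {gs | ∃ g ∈ X, ∃ ms ∈ R, gs = g :: ms} (x * d) := by
  by_cases h3 : [] ∈ R
  · obtain ⟨h4, h5⟩ := h0 h3
    refine SmRL.le (SmRL.anti (smRL_one h1) ?_) (by nlinarith)
    rintro gs ⟨g, hg, ms, hms, rfl⟩
    have h6 : ms = [] := h5 hms
    rw [h6]
    exact ⟨g, hg, rfl⟩
  · refine SmRL.anti (smRL_right hDm (inH_one hX) hR hx hd (smRL_one h1) h2) ?_
    rintro gs ⟨g, hg, ms, hms, rfl⟩
    exact ⟨[g], ⟨g, hg, rfl⟩, ms, hms, List.cons_ne_nil _ _, fun h => h3 (h ▸ hms), rfl⟩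

/-- one more leaf in front of a labelled class -/
lemma smRL_cons' (hDm : DmP Dm) {X : Set (List Bool)} (hX : X ⊆ HB (2 ^ (kc + 4))) (hR : InH (2 ^ (kc + 4)) R)
    {x d : ℝ} (hx : 0 ≤ x) (hd : 0 ≤ d) (h1 : SmD Dm kc X x) (h2 : SmRL lab Dm kc R d) (h0 : [] ∉ R) :
    SmRL lab Dm kc {gs | ∃ g ∈ X, ∃ ms ∈ R, gs = g :: ms} (x * d) := by
  refine SmRL.anti (smRL_left hDm (inH_one hX) hR hx hd (smR_one h1) h2) ?_
  rintro gs ⟨g, hg, ms, hms, rfl⟩
  exact ⟨[g], ⟨g, hg, rfl⟩, ms, hms, List.cons_ne_nil _ _, fun h => h0 (h ▸ hms), rfl⟩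

/-- **the labelled norm of the marked runs of n leaves with one leaf in G** -/
theorem smRL_Mk (hDm : DmP Dm) (hGH : G ⊆ HB (2 ^ (kc + 4))) (hSH : S ⊆ HB (2 ^ (kc + 4))) (hBH : B ⊆ HB (2 ^ (kc + 4)))
    (hAH : A ⊆ HB (2 ^ (kc + 4))) (ha : 0 ≤ a) (hδ : 0 ≤ δ) (hb : 0 ≤ b) (hq : 1 ≤ q) (hG : SmDL lab Dm kc G a)
    (hS : SmD Dm kc S δ) (hB : SmD Dm kc B b) (hA : SmD Dm kc A q) (n : ℕ) :
    ∀ s r : ℕ, SmRL lab Dm kc {gs | gs.length = n ∧ MkX G S B A s r gs} ((4 * q) ^ n * (a * (δ ^ s * b ^ r))) := by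
  have hq0 : 0 ≤ q := by linarith
  induction n with
  | zero =>
    intro s r
    refine smRL_of_smR (smR_empty fun g ms h => ?_)
    have := h.1
    rw [List.length_cons] at this
    omega
  | succ n ih =>
    intro s r
    have hin : ∀ s r : ℕ, InH (2 ^ (kc + 4)) {gs | gs.length = n ∧ MkX G S B A s r gs} := fun s r gs hgs =>
      inH_MkX hGH hSH hBH hAH hgs.2
    have hnil : ∀ s r : ℕ, [] ∉ {gs | gs.length = n ∧ MkX G S B A s r gs} := by
      rintro s r ⟨-, h2⟩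
      exact h2.ne rfl
    have hpos : ∀ s r : ℕ, 0 ≤ (4 * q) ^ n * (a * (δ ^ s * b ^ r)) := fun s r => by positivity
    -- the labelled leaf is the first
    have p0 : SmRL lab Dm kc {gs | ∃ g ∈ G, ∃ ms ∈ {gs | gs.length = n ∧ Mk S B A s r gs}, gs = g :: ms}
        ((4 * q) ^ n * (a * (δ ^ s * b ^ r))) := by
      refine SmRL.le (smRL_cons hDm hGH (fun gs hgs => inH_Mk hSH hBH hAH hgs.2) ha
        (show 0 ≤ (3 * q) ^ n * (δ ^ s * b ^ r) by positivity) hG (smR_Mk hDm hSH hBH hAH hδ hb hq hS hB hA n s r) ?_) ?_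
      · rintro ⟨h1, h2⟩
        rw [List.length_nil] at h1
        cases h2
        subst h1
        refine ⟨by norm_num, fun gs hgs => ?_⟩
        exact List.length_eq_zero_iff.1 hgs.1
      · have h1 : (3 * q) ^ n ≤ (4 * q) ^ n := pow_le_pow_left₀ (by positivity) (by linarith) n
        have h2 : 0 ≤ a * (δ ^ s * b ^ r) := by positivity
        nlinarith
    have p1 : SmRL lab Dm kc {gs | ∃ s', s = s' + 1 ∧ ∃ g ∈ S, ∃ ms ∈ {gs | gs.length = n ∧ MkX G S B A s' r gs},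
        gs = g :: ms} ((4 * q) ^ n * (a * (δ ^ s * b ^ r))) := by
      cases s with
      | zero =>
        refine smRL_of_smR (smR_empty fun g ms h => ?_)
        obtain ⟨s', h1, -⟩ := h
        omega
      | succ s' =>
        refine SmRL.le (SmRL.anti (smRL_cons' hDm hSH (hin s' r) hδ (hpos s' r) hS (ih s' r) (hnil s' r)) ?_)
          (le_of_eq (by ring))
        rintro gs ⟨s'', h1, h2⟩
        obtain rfl : s' = s'' := by omega
        exact h2
    have p2 : SmRL lab Dm kc {gs | ∃ r', r = r' + 1 ∧ ∃ g ∈ B, ∃ ms ∈ {gs | gs.length = n ∧ MkX G S B A s r' gs},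
        gs = g :: ms} ((4 * q) ^ n * (a * (δ ^ s * b ^ r))) := by
      cases r with
      | zero =>
        refine smRL_of_smR (smR_empty fun g ms h => ?_)
        obtain ⟨s', h1, -⟩ := h
        omega
      | succ r' =>
        refine SmRL.le (SmRL.anti (smRL_cons' hDm hBH (hin s r') hb (hpos s r') hB (ih s r') (hnil s r')) ?_)
          (le_of_eq (by ring))
        rintro gs ⟨s'', h1, h2⟩
        obtain rfl : r' = s'' := by omega
        exact h2
    have p3 := smRL_cons' hDm hAH (hin s r) hq0 (hpos s r) hA (ih s r) (hnil s r)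
    refine SmRL.le (SmRL.anti (smRL_union (add_nonneg (hpos s r) (add_nonneg (hpos s r) (hpos s r)))
      (mul_nonneg hq0 (hpos s r))
      (smRL_union (hpos s r) (add_nonneg (hpos s r) (hpos s r)) p0 (smRL_union (hpos s r) (hpos s r) p1 p2)) p3) ?_) ?_
    · rintro gs ⟨h1, h2⟩
      cases h2 with
      | g h3 h4 => exact Or.inl (Or.inl ⟨_, h3, _, ⟨by simpa using h1, h4⟩, rfl⟩)
      | s h3 h4 => exact Or.inl (Or.inr (Or.inl ⟨_, rfl, _, h3, _, ⟨by simpa using h1, h4⟩, rfl⟩))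
      | b h3 h4 => exact Or.inl (Or.inr (Or.inr ⟨_, rfl, _, h3, _, ⟨by simpa using h1, h4⟩, rfl⟩))
      | a h3 h4 => exact Or.inr ⟨_, h3, _, ⟨by simpa using h1, h4⟩, rfl⟩
    · have h5 := hpos s r
      rw [pow_succ]
      nlinarith

/-- finite unions -/
lemma smRL_sum {Rf : ℕ → Set (List (List Bool))} {df : ℕ → ℝ} (I : ℕ) (h0 : ∀ i < I, 0 ≤ df i)
    (h : ∀ i < I, SmRL lab Dm kc (Rf i) (df i)) : SmRL lab Dm kc {gs | ∃ i < I, gs ∈ Rf i} (∑ i ∈ range I, df i) := by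
  induction I with
  | zero =>
    refine smRL_of_smR (smR_empty fun g ms h1 => ?_)
    obtain ⟨i, hi, -⟩ := h1
    omega
  | succ I ih =>
    rw [Finset.sum_range_succ]
    refine SmRL.anti (smRL_union (Finset.sum_nonneg fun i hi => h0 i (by
      rw [Finset.mem_range] at hi
      omega)) (h0 I (by omega)) (ih (fun i hi => h0 i (by omega)) fun i hi => h i (by omega)) (h I (by omega))) ?_
    rintro gs ⟨i, hi, h1⟩
    rcases Nat.lt_succ_iff_lt_or_eq.1 hi with h2 | h2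
    · exact Or.inl ⟨i, h2, h1⟩
    · rw [h2] at h1
      exact Or.inr h1

open Classical in
/-- **the labelled norm of the runs of n leaves, s of them in S, and J0 + 1 more** -/
theorem smRL_marks (hDm : DmP Dm) (hAH : A ⊆ HB (2 ^ (kc + 4))) (hδ : 0 ≤ δ) (hq : 1 ≤ q) (hGB : GBL lab Dm kc A J0 E)
    (hA : SmD Dm kc A q) (hS : SmD Dm kc S δ) (n s : ℕ) :
    SmRL lab Dm kc {gs | gs.length = n ∧ s + (J0 + 1) ≤ n ∧ (∀ g ∈ gs, g ∈ A) ∧
      s ≤ (gs.filter (fun g => decide (g ∈ S))).length} ((4 * q) ^ n * (δ ^ s * E)) := by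
  obtain ⟨I, Gd, Bd, G, b, hG0, hb0, hGA, hBA, hcov, hG, hB, hE⟩ := hGB
  have hS' : SmD Dm kc (S ∩ A) δ := smD_anti Set.inter_subset_left hS
  have hSH : S ∩ A ⊆ HB (2 ^ (kc + 4)) := Set.inter_subset_right.trans hAH
  have hGH : ∀ i ≤ I, Gd i ⊆ HB (2 ^ (kc + 4)) := fun i hi => (hGA i hi).trans hAH
  have hBH : ∀ i ≤ I, Bd i ⊆ HB (2 ^ (kc + 4)) := fun i hi => (hBA i hi).trans hAH
  have hq0 : 0 ≤ q := by linarith
  -- the three kinds
  have p0 : SmRL lab Dm kc {gs | gs.length = n ∧ MkX (Gd 0) (S ∩ A) A A s 0 gs} ((4 * q) ^ n * (G 0 * (δ ^ s * q ^ 0))) :=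
    smRL_Mk hDm (hGH 0 (Nat.zero_le _)) hSH hAH hAH (hG0 0 (Nat.zero_le _)) hδ hq0 hq (hG 0 (Nat.zero_le _)) hS' hA hA n s 0
  have p1 : SmRL lab Dm kc {gs | ∃ i < I, gs ∈ {gs | gs.length = n ∧ MkX (Gd (i + 1)) (S ∩ A) (Bd i) A s J0 gs}}
      (∑ i ∈ range I, (4 * q) ^ n * (G (i + 1) * (δ ^ s * b i ^ J0))) :=
    smRL_sum (Rf := fun i => {gs | gs.length = n ∧ MkX (Gd (i + 1)) (S ∩ A) (Bd i) A s J0 gs})
      (df := fun i => (4 * q) ^ n * (G (i + 1) * (δ ^ s * b i ^ J0))) I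
      (fun i hi => by
        have := hG0 (i + 1) (by omega)
        have := hb0 i (by omega)
        positivity) (fun i hi => smRL_Mk hDm (hGH (i + 1) (by omega)) hSH (hBH i (by omega)) hAH (hG0 (i + 1) (by omega)) hδ
        (hb0 i (by omega)) hq (hG (i + 1) (by omega)) hS' (hB i (by omega)) hA n s J0)
  have p2 : SmRL lab Dm kc {gs | gs.length = n ∧ Mk (S ∩ A) (Bd I) A s (J0 + 1) gs}
      ((3 * q) ^ n * (δ ^ s * b I ^ (J0 + 1))) :=
    smRL_of_smR (smR_Mk hDm hSH (hBH I le_rfl) hAH hδ (hb0 I le_rfl) hq hS' (hB I le_rfl) hA n s (J0 + 1))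
  have n0 : 0 ≤ (4 * q) ^ n * (G 0 * (δ ^ s * q ^ 0)) := by
    have := hG0 0 (Nat.zero_le _)
    positivity
  have n1 : 0 ≤ ∑ i ∈ range I, (4 * q) ^ n * (G (i + 1) * (δ ^ s * b i ^ J0)) := Finset.sum_nonneg fun i hi => by
    rw [Finset.mem_range] at hi
    have := hG0 (i + 1) (by omega)
    have := hb0 i (by omega)
    positivity
  have n2 : 0 ≤ (3 * q) ^ n * (δ ^ s * b I ^ (J0 + 1)) := by
    have := hb0 I le_rfl
    positivity
  refine SmRL.le (SmRL.anti (smRL_union (add_nonneg n0 n1) n2 (smRL_union n0 n1 p0 p1) p2) ?_) ?_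
  · rintro gs ⟨h1, h2, h3, h4⟩
    have h5 : (gs.filter (fun g => @decide (g ∈ S ∩ A) (Classical.propDecidable _))) =
        gs.filter (fun g => decide (g ∈ S)) := by
      refine List.filter_congr fun g hg => ?_
      have h6 : g ∈ S ∩ A ↔ g ∈ S := ⟨fun h => h.1, fun h => ⟨h, h3 g hg⟩⟩
      simp only [h6]
    have h6 : Mk (S ∩ A) A A s (J0 + 1) gs := mk_start gs s (J0 + 1) h3 (by rw [h5]; exact h4) (by omega)
    rcases mk_first (Gd := Gd) (Bd := Bd) (I := I) (fun g hg => hcov 0 (Nat.zero_le _) g hg)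
      (fun i hi g hg => hcov (i + 1) (by omega) g (hBA i (by omega) hg)) h6 with h7 | h7 | ⟨i, hi, h7⟩
    · exact Or.inr ⟨h1, h7⟩
    · exact Or.inl (Or.inl ⟨h1, h7.toA⟩)
    · exact Or.inl (Or.inr ⟨i, hi, h1, h7⟩)
  · have e1 : (3 * q) ^ n ≤ (4 * q) ^ n := pow_le_pow_left₀ (by positivity) (by linarith) n
    have e2 : 0 ≤ δ ^ s * b I ^ (J0 + 1) := by
      have := hb0 I le_rfl
      positivity
    have e3 : ∑ i ∈ range I, (4 * q) ^ n * (G (i + 1) * (δ ^ s * b i ^ J0)) =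
        (4 * q) ^ n * (δ ^ s * ∑ i ∈ range I, G (i + 1) * b i ^ J0) := by
      rw [Finset.mul_sum, Finset.mul_sum]
      exact Finset.sum_congr rfl fun i _ => by ring
    rw [e3, pow_zero, mul_one]
    calc (4 * q) ^ n * (G 0 * δ ^ s) + (4 * q) ^ n * (δ ^ s * ∑ i ∈ range I, G (i + 1) * b i ^ J0) +
          (3 * q) ^ n * (δ ^ s * b I ^ (J0 + 1))
        ≤ (4 * q) ^ n * (G 0 * δ ^ s) + (4 * q) ^ n * (δ ^ s * ∑ i ∈ range I, G (i + 1) * b i ^ J0) +
          (4 * q) ^ n * (δ ^ s * b I ^ (J0 + 1)) := by gcongr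
      _ = (4 * q) ^ n * (δ ^ s * (G 0 + ∑ i ∈ range I, G (i + 1) * b i ^ J0 + b I ^ (J0 + 1))) := by ring
      _ ≤ (4 * q) ^ n * (δ ^ s * E) := by gcongr

lemma GBL.nonneg (h : GBL lab Dm kc A J0 E) : 0 ≤ E := by
  obtain ⟨I, Gd, Bd, G, b, hG0, hb0, -, -, -, -, -, hE⟩ := h
  refine le_trans ?_ hE
  have h1 := hG0 0 (Nat.zero_le _)
  have h2 := hb0 I le_rfl
  have h3 : 0 ≤ ∑ i ∈ range I, G (i + 1) * b i ^ J0 := Finset.sum_nonneg fun i hi => by
    rw [Finset.mem_range] at hi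
    have := hG0 (i + 1) (by omega)
    have := hb0 i (by omega)
    positivity
  positivity

open Classical in
/-- at most m1 leaves -/
theorem smRL_marks_le (hDm : DmP Dm) (hAH : A ⊆ HB (2 ^ (kc + 4))) (hδ : 0 ≤ δ) (hq : 1 ≤ q) (hGB : GBL lab Dm kc A J0 E)
    (hA : SmD Dm kc A q) (hS : SmD Dm kc S δ) (m1 s : ℕ) :
    SmRL lab Dm kc {gs | gs.length ≤ m1 ∧ s + (J0 + 1) ≤ gs.length ∧ (∀ g ∈ gs, g ∈ A) ∧
      s ≤ (gs.filter (fun g => decide (g ∈ S))).length} ((4 * q) ^ (m1 + 1) * (δ ^ s * E)) := by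
  have hE := hGB.nonneg
  have hq0 : 0 ≤ q := by linarith
  refine SmRL.le (SmRL.anti (smRL_sum (Rf := fun n => {gs | gs.length = n ∧ s + (J0 + 1) ≤ n ∧ (∀ g ∈ gs, g ∈ A) ∧
      s ≤ (gs.filter (fun g => decide (g ∈ S))).length}) (df := fun n => (4 * q) ^ n * (δ ^ s * E)) (m1 + 1)
      (fun i _ => by positivity) (fun i _ => smRL_marks hDm hAH hδ hq hGB hA hS i s)) ?_) ?_
  · rintro gs ⟨h1, h2, h3, h4⟩
    exact ⟨gs.length, by omega, rfl, h2, h3, h4⟩
  · rw [← Finset.sum_mul]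
    exact mul_le_mul_of_nonneg_right (RFl.sum_geo (by linarith) (m1 + 1)) (by positivity)

/-- **the fill runs, labelled** -/
theorem smRL_fill (hDm : DmP Dm) {mu : ℕ} (hδ : 0 ≤ δ) (hq : 1 ≤ q)
    (hGB : GBL lab Dm kc (BrR (2 ^ (kc + 4)) (2 ^ (kc + mu + 2))) J0 E)
    (hA : SmD Dm kc (BrR (2 ^ (kc + 4)) (2 ^ (kc + mu + 2))) q) (hS : SmD Dm kc S δ) (m1 J s : ℕ)
    (hJ : s + (J0 + 1) ≤ J) : SmRL lab Dm kc (RFill kc mu m1 J S) ((4 * q) ^ (m1 + 1) * (δ ^ s * E)) := by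
  classical
  refine SmRL.anti (smRL_marks_le hDm inH_box hδ hq hGB hA hS m1 s) ?_
  rintro gs ⟨h1, h2, h3⟩
  have h4 : (gs.tail.filter (fun g => decide (g ∈ S))).length ≤ gs.tail.length := List.length_filter_le _ _
  have h5 : gs.tail.length ≤ gs.length := by
    rw [List.length_tail]
    omega
  have h6 : (gs.tail.filter (fun g => decide (g ∈ S))).length ≤ (gs.filter (fun g => decide (g ∈ S))).length :=
    ((List.tail_sublist gs).filter _).length_le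
  exact ⟨h1, by omega, h2, by omega⟩

/-- **a class of runs and then J0 + 1 leaves** -/
theorem smRL_after (hDm : DmP Dm) (hAH : A ⊆ HB (2 ^ (kc + 4))) (hq : 1 ≤ q) (hd : 0 ≤ d) (hGB : GBL lab Dm kc A J0 E)
    (hA : SmD Dm kc A q) (hRH : InH (2 ^ (kc + 4)) R) (hR : SmR Dm kc R d) :
    SmRL lab Dm kc {gs | ∃ a ∈ R, ∃ b : List (List Bool), a ≠ [] ∧ b.length = J0 + 1 ∧ (∀ g ∈ b, g ∈ A) ∧ gs = a ++ b}
      (d * ((4 * q) ^ (J0 + 1) * E)) := by
  classical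
  have hE := hGB.nonneg
  have h1 := smRL_marks hDm hAH (zero_le_one (α := ℝ)) hq hGB hA (δ := 1) (S := ∅)
    (⟨fun x Φ _ => by
        refine xT_le fun b I _ _ => ?_
        have e : (fun M => vA (2 ^ (kc + 4)) (∅ : Set (List Bool)) Φ (I ++ M)) = fun _ => 0 := by
          funext M
          unfold vA
          rw [Rec8.sw_ind]
          simp
        rw [e, Rec8.sw_zero]
        exact zero_le, fun y x Ψ Φ _ _ _ => by
        rw [Rec8.sw_ind]
        simp⟩) (J0 + 1) 0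
  rw [pow_zero, one_mul] at h1
  refine SmRL.anti (smRL_left hDm hRH ?_ hd (by positivity) hR h1) ?_
  · rintro gs ⟨-, -, h2, -⟩ g hg
    exact hAH (h2 g hg)
  · rintro gs ⟨a, ha, b, ha0, hb, hbA, rfl⟩
    refine ⟨a, ha, b, ⟨hb, by omega, hbA, Nat.zero_le _⟩, ha0, ?_, rfl⟩
    rintro rfl
    simp at hb

/-- **J0 + 1 leaves and then a class of runs** -/
theorem smRL_before (hDm : DmP Dm) (hAH : A ⊆ HB (2 ^ (kc + 4))) (hq : 1 ≤ q) (hd : 0 ≤ d) (hGB : GBL lab Dm kc A J0 E)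
    (hA : SmD Dm kc A q) (hRH : InH (2 ^ (kc + 4)) R) (hR : SmR Dm kc R d) :
    SmRL lab Dm kc {gs | ∃ a ∈ R, ∃ b : List (List Bool), a ≠ [] ∧ b.length = J0 + 1 ∧ (∀ g ∈ b, g ∈ A) ∧ gs = b ++ a}
      ((4 * q) ^ (J0 + 1) * E * d) := by
  classical
  have hE := hGB.nonneg
  have h1 := smRL_marks hDm hAH (zero_le_one (α := ℝ)) hq hGB hA (δ := 1) (S := ∅)
    (⟨fun x Φ _ => by
        refine xT_le fun b I _ _ => ?_
        have e : (fun M => vA (2 ^ (kc + 4)) (∅ : Set (List Bool)) Φ (I ++ M)) = fun _ => 0 := by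
          funext M
          unfold vA
          rw [Rec8.sw_ind]
          simp
        rw [e, Rec8.sw_zero]
        exact zero_le, fun y x Ψ Φ _ _ _ => by
        rw [Rec8.sw_ind]
        simp⟩) (J0 + 1) 0
  rw [pow_zero, one_mul] at h1
  refine SmRL.anti (smRL_right hDm ?_ hRH (by positivity) hd h1 hR) ?_
  · rintro gs ⟨-, -, h2, -⟩ g hg
    exact hAH (h2 g hg)
  · rintro gs ⟨a, ha, b, ha0, hb, hbA, rfl⟩
    refine ⟨b, ⟨hb, by omega, hbA, Nat.zero_le _⟩, a, ha, ?_, ha0, rfl⟩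
    rintro rfl
    simp at hb

end JNT

end HexObs
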