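import Pool.Agent.JNT.GBSum
import Pool.Agent.JNT.GBL

/-!
JNT, row E: the literal GBmL from good and bad leaves at every depth, generic label.
-/

set_option autoImplicit false

namespace HexObs

namespace JNT

open Finset TS SDN NTW NTA EN

open scoped ENNReal

/-- **row E**: GBmL from row D -/
theorem gbmL_of {Λ : Type} {lab : List Bool → Λ} {w : ℕ → ℝ} (hw : ∀ k, 0 < w k) (hup : MUp w) (hgb : GoodBadL lab w) :
    ∃ J00 : ℕ, ∀ J0 : ℕ, J00 ≤ J0 → GBmL lab w J0 := by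
  obtain ⟨J00, k0, h⟩ := gbL_of hw hup hgb
  refine ⟨J00, fun J0 hJ0 => ?_⟩
  obtain ⟨C, hC, h⟩ := h J0 hJ0
  exact ⟨C, k0, hC, fun k mu hk => h k hk mu⟩

end JNT

end HexObs
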