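import Pool.Agent.JNT.Rel
import Pool.Agent.NTW.RepU

/-!
JNT: the assembled words are rigid relations. A word assembled from ends and leaves determines the number of letters and
the displacement of a leaf if the other leaves, the ends, the number of letters of the word and its last vertex are given,
and the first and the last letter of the leaf.
-/

set_option autoImplicit false

namespace HexObs

namespace JNT

open Finset TS SDN NTW NTA EN

/-! ### the middle of a leaf -/

/-- the leaf without its first and its last letter -/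
def midL (g : List Bool) : List Bool := g.tail.dropLast

lemma vx_catG (v d : Pt) (s t : List Bool) (i : ℕ) :
    vx v d (s ++ t) (s.length + i) = vx (vx v d s s.length) (dx d s s.length) t i := by
  have h1 : vx v d (s ++ t) (s.length + i) = vx (vx v d (s ++ t) s.length) (dx d (s ++ t) s.length) t i := by
    unfold vx dx
    rw [vs_shift]
    exact vs_congr i fun k _ => tf_append_right k
  rw [h1, vx_append (by omega), dx_append le_rfl]

lemma dx_catG (d : Pt) (s t : List Bool) (i : ℕ) :
    dx d (s ++ t) (s.length + i) = dx (dx d s s.length) t i := by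
  have h1 : dx d (s ++ t) (s.length + i) = dx (dx d (s ++ t) s.length) t i := by
    unfold dx
    rw [ds_shift]
    exact ds_congr i fun k _ => tf_append_right k
  rw [h1, dx_append le_rfl]

/-- the frame of a direction -/
def frD (d : Pt) : Pt := rotTo up d

lemma frD_up {d : Pt} : mulE (frD d) up = d := rotTo_apply d upd

lemma vx_frD (v d : Pt) (t : List Bool) (i : ℕ) : vx v d t i = v + mulE (frD d) (vx oo up t i) := by
  have h := vx_mulE (frD d) oo v up t i
  rw [frD_up] at h
  rw [h]
  congr 2
  exact sub_zero _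

lemma dx_frD (d : Pt) (t : List Bool) (i : ℕ) : dx d t i = mulE (frD d) (dx up t i) := by
  have h := dx_mulE (frD d) up t i
  rwa [frD_up] at h

lemma nrm_frD {d : Pt} (hd : d ∈ dirs) : nrm (frD d) = 1 := nrm_rotTo upd hd

/-- a leaf: its last direction is up, it has at least two letters -/
structure LfG (g : List Bool) : Prop where
  dir : dx up g g.length = up
  len : 2 ≤ g.length

lemma LfG.of_Brd {g : List Bool} {h : ℕ} (hg : g ∈ Brd h) (hh : 1 ≤ h) : LfG g := by
  have h1 := (mem_Brd.1 hg).2.2.1
  have h2 := (mem_Brd.1 hg).2.2.2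
  refine ⟨h1, ?_⟩
  by_contra hcon
  have h3 : g.length = 0 ∨ g.length = 1 := by omega
  rcases h3 with h3 | h3
  · rw [h3, lev_zero] at h2
    omega
  · rw [h3, Rp.lev_one] at h2
    omega

lemma LfG.of_HB {g : List Bool} {D : ℕ} (hg : g ∈ HB D) (hD : 1 ≤ D) : LfG g := by
  obtain ⟨h, h1, h2⟩ := hg
  exact LfG.of_Brd h2 (by omega)

/-- first letter, middle, last letter -/
lemma LfG.split {g : List Bool} (h : LfG g) : g = g.headD true :: (midL g ++ [lst g]) := by
  obtain ⟨-, h2⟩ := h
  rcases g with _ | ⟨a, g⟩
  · simp at h2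
  · have hne : g ≠ [] := by
      rintro rfl
      simp at h2
    have e1 : lst (a :: g) = g.getLast hne := by
      unfold lst
      rw [List.getLastD_eq_getLast?, List.getLast?_cons_of_ne_nil hne, List.getLast?_eq_some_getLast hne]
      rfl
    rw [e1]
    show a :: g = a :: (g.dropLast ++ [g.getLast hne])
    rw [List.dropLast_append_getLast]

lemma LfG.len_mid {g : List Bool} (h : LfG g) : g.length = (midL g).length + 2 := by
  have e := congrArg List.length h.split
  rw [List.length_cons, List.length_append, List.length_singleton] at e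
  omega

/-- the direction behind the middle -/
lemma LfG.dir_mid {g : List Bool} (h : LfG g) :
    dx (turn (g.headD true) up) (midL g) (midL g).length = turn (!lst g) up := by
  have e := h.split
  have h1 := h.dir
  have h2 := h.len_mid
  rw [h2] at h1
  obtain ⟨b, hb⟩ : ∃ b, b = g.headD true := ⟨_, rfl⟩
  obtain ⟨l, hl⟩ : ∃ l, l = lst g := ⟨_, rfl⟩
  obtain ⟨m, hm⟩ : ∃ m, m = midL g := ⟨_, rfl⟩
  rw [← hm] at h1
  rw [← hb, ← hl, ← hm] at e
  rw [← hb, ← hl, ← hm]
  rw [e] at h1
  have h3 : dx up ([b] ++ (m ++ [l])) ([b].length + (m.length + 1)) = dx (turn b up) (m ++ [l]) (m.length + 1) :=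
    dx_catG up [b] (m ++ [l]) (m.length + 1)
  have h4 : dx (turn b up) (m ++ [l]) (m.length + 1) = turn l (dx (turn b up) m m.length) :=
    dx_catG (turn b up) m [l] 1
  have h5 : dx up (b :: (m ++ [l])) (m.length + 2) = dx up ([b] ++ (m ++ [l])) ([b].length + (m.length + 1)) := by
    congr 1
    rw [List.length_singleton]
    omega
  rw [h5, h3, h4] at h1
  have h6 := congrArg (turn (!l)) h1
  rwa [turn_turn] at h6

/-- the last vertex of a leaf -/
lemma LfG.end_mid {g : List Bool} (h : LfG g) :
    vx oo up g g.length = up + mulE (frD (turn (g.headD true) up)) (vx oo up (midL g) (midL g).length) +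
      turn (!lst g) up := by
  have e := h.split
  have h1 := h.dir_mid
  have h2 := h.len_mid
  rw [h2]
  obtain ⟨b, hb⟩ : ∃ b, b = g.headD true := ⟨_, rfl⟩
  obtain ⟨l, hl⟩ : ∃ l, l = lst g := ⟨_, rfl⟩
  obtain ⟨m, hm⟩ : ∃ m, m = midL g := ⟨_, rfl⟩
  rw [← hb, ← hl, ← hm] at e h1
  rw [← hb, ← hl, ← hm]
  rw [e]
  have h5 : vx oo up (b :: (m ++ [l])) (m.length + 2) = vx oo up ([b] ++ (m ++ [l])) ([b].length + (m.length + 1)) := by
    congr 1
    rw [List.length_singleton]
    omega
  have h6 : vx oo up [b] [b].length = up := by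
    show oo + up = up
    exact zero_add _
  have h7 : dx up [b] [b].length = turn b up := rfl
  have h8 : vx up (turn b up) (m ++ [l]) (m.length + 1) = vx up (turn b up) (m ++ [l]) m.length +
      dx (turn b up) (m ++ [l]) m.length := vx_succ _ _ _ _
  rw [h5, vx_catG, h6, h7, h8, vx_append (by omega), dx_append le_rfl, h1, vx_frD up]

/-- two leaves in the same place of a word: displacement -/
theorem labE_of_mid {g g' A B : List Bool} (hg : LfG g) (hg' : LfG g') (hs : SameE g g')
    (hx : labE (A ++ (midL g ++ B)) = labE (A ++ (midL g' ++ B))) : labE g = labE g' := by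
  unfold labE at hx ⊢
  obtain ⟨s1, s2⟩ := hs
  have d1 := hg.dir_mid
  have d2 := hg'.dir_mid
  rw [s1, s2] at d1
  -- the directions behind the middle
  have d3 : dx up (midL g) (midL g).length = dx up (midL g') (midL g').length := by
    have e := d1.trans d2.symm
    rw [dx_frD (turn (g'.headD true) up), dx_frD (turn (g'.headD true) up) (midL g')] at e
    exact mulE_inj (nrm_frD (mem_dirs.2 (by rw [nrm_turn]; exact mem_dirs.1 upd))) e
  -- the last vertices
  have key : ∀ m : List Bool, vx oo up (A ++ (m ++ B)) (A ++ (m ++ B)).length =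
      vx oo up A A.length + mulE (frD (dx up A A.length)) (vx oo up m m.length) +
        vx oo (dx (dx up A A.length) m m.length) B B.length := by
    intro m
    rw [List.length_append, List.length_append, vx_catG, vx_catG, vx_frD _ _ m,
      vx_frD _ (dx (dx up A A.length) m m.length) B, vx_frD oo (dx (dx up A A.length) m m.length) B]
    have : (oo : Pt) = 0 := rfl
    rw [this, zero_add]
  rw [key, key, dx_frD (dx up A A.length) (midL g), dx_frD (dx up A A.length) (midL g'), d3] at hx
  have hx2 := add_left_cancel (add_right_cancel hx)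
  have hx3 := mulE_inj (nrm_frD (dx_mem upd A A.length)) hx2
  rw [hg.end_mid, hg'.end_mid, s1, s2, hx3]

/-- two leaves in the same place of a word: number of letters and displacement -/
theorem labN_of_mid {g g' A B : List Bool} (hg : LfG g) (hg' : LfG g') (hs : SameE g g')
    (hx : labN (A ++ (midL g ++ B)) = labN (A ++ (midL g' ++ B))) : labN g = labN g' := by
  have h1 := congrArg Prod.fst hx
  have h2 := congrArg Prod.snd hx
  refine Prod.ext ?_ (labE_of_mid hg hg' hs h2)
  show g.length = g'.length
  have h3 : (A ++ (midL g ++ B)).length = (A ++ (midL g' ++ B)).length := h1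
  simp only [List.length_append] at h3
  rw [hg.len_mid, hg'.len_mid]
  omega

/-! ### the word of a chain -/

/-- the word in front of the leaf -/
def preU : List (List Bool) → List Bool
  | [] => []
  | a :: ls => a.dropLast ++ (!lst a) :: (!lst a) :: preU ls

/-- the word behind the middle of a leaf with the last letter l -/
def sufU (l : Bool) : List (List Bool) → List Bool
  | [] => [l]
  | r :: rs => (!l) :: (!l) :: unf (r :: rs)

lemma sufU_ne (l : Bool) (rs : List (List Bool)) : sufU l rs ≠ [] := by
  cases rs <;> simp [sufU]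

lemma unf_pre (ls : List (List Bool)) (g : List Bool) (rs : List (List Bool)) :
    unf (ls ++ g :: rs) = preU ls ++ unf (g :: rs) := by
  induction ls with
  | nil => rfl
  | cons a ls ih =>
    have e : unf (a :: ls ++ g :: rs) = a.dropLast ++ (!lst a) :: (!lst a) :: unf (ls ++ g :: rs) := by
      cases ls <;> rfl
    rw [e, ih]
    show _ = (a.dropLast ++ (!lst a) :: (!lst a) :: preU ls) ++ _
    rw [List.append_assoc]
    rfl

lemma unf_suf {g : List Bool} (h : LfG g) (rs : List (List Bool)) :
    unf (g :: rs) = g.headD true :: (midL g ++ sufU (lst g) rs) := by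
  have e := h.split
  cases rs with
  | nil => exact e
  | cons r rs =>
    show g.dropLast ++ (!lst g) :: (!lst g) :: unf (r :: rs) = _
    have e2 : g.dropLast = g.headD true :: midL g := by
      obtain ⟨b, hb⟩ : ∃ b, b = g.headD true := ⟨_, rfl⟩
      obtain ⟨l, hl⟩ : ∃ l, l = lst g := ⟨_, rfl⟩
      obtain ⟨m, hm⟩ : ∃ m, m = midL g := ⟨_, rfl⟩
      rw [← hb, ← hl, ← hm] at e
      rw [← hb, ← hm, e, ← List.cons_append, List.dropLast_concat]
    rw [e2]
    rfl

lemma unf_split {g : List Bool} (h : LfG g) (ls rs : List (List Bool)) :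
    unf (ls ++ g :: rs) = (preU ls ++ [g.headD true]) ++ (midL g ++ sufU (lst g) rs) := by
  rw [unf_pre, unf_suf h, List.append_assoc]
  rfl

/-! ### ends -/

lemma lst_append' (X : List Bool) {B : List Bool} (hB : B ≠ []) : lst (X ++ B) = lst B := by
  unfold lst
  rw [List.getLastD_eq_getLast?, List.getLastD_eq_getLast?, List.getLast?_append_of_ne_nil _ hB]

lemma endF_app (x : Bool) (y : Fin 3) (o' : Option (List Bool)) (X : List Bool) {B : List Bool} (hB : B ≠ []) :
    Rp.endF x y o' (X ++ B) = X ++ Rp.endF x y o' B := by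
  unfold Rp.endF
  rw [lst_append' X hB, List.dropLast_append_of_ne_nil hB]
  cases o' with
  | some W => simp only [List.append_assoc]
  | none =>
    simp only
    split_ifs <;> simp only [List.append_assoc]

lemma headD_append' {X : List Bool} (hX : X ≠ []) (Y : List Bool) : (X ++ Y).headD true = X.headD true := by
  cases X with
  | nil => exact absurd rfl hX
  | cons a X => rfl

lemma tail_append' {X : List Bool} (hX : X ≠ []) (Y : List Bool) : (X ++ Y).tail = X.tail ++ Y := by
  cases X with
  | nil => exact absurd rfl hX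
  | cons a X => rfl

/-- the front of the assembled word -/
def frontF (o : Option (List Bool)) (X : List Bool) : List Bool :=
  match o with
  | none => X
  | some W => rev W ++ (!X.headD true) :: (!X.headD true) :: X.tail

/-- the assembled word around a leaf -/
theorem asm_split (c : Fin 16) (o o' : Option (List Bool)) (ls rs : List (List Bool)) {g : List Bool} (h : LfG g) :
    Rp.asmF c o (ls ++ g :: rs) o' = frontF o (preU ls ++ [g.headD true]) ++ (midL g ++
      Rp.endF (decide (c.val % 2 = 1)) ⟨c.val / 2 % 3, Nat.mod_lt _ (by decide)⟩ o' (sufU (lst g) rs)) := by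
  obtain ⟨X, hX⟩ : ∃ X, X = preU ls ++ [g.headD true] := ⟨_, rfl⟩
  have hXne : X ≠ [] := by
    rw [hX]
    simp
  have e : ∀ x y, Rp.endF x y o' (unf (ls ++ g :: rs)) = X ++ (midL g ++ Rp.endF x y o' (sufU (lst g) rs)) := by
    intro x y
    rw [unf_split h, ← hX, endF_app x y o' X (by
      intro h0
      exact sufU_ne _ _ (List.append_eq_nil_iff.1 h0).2), endF_app x y o' (midL g) (sufU_ne _ _)]
  rw [← hX]
  cases o with
  | none => exact e _ _
  | some W =>
    show rev W ++ (!(Rp.endF _ _ o' (unf (ls ++ g :: rs))).headD true) ::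
      (!(Rp.endF _ _ o' (unf (ls ++ g :: rs))).headD true) :: (Rp.endF _ _ o' (unf (ls ++ g :: rs))).tail = _
    rw [e, headD_append' hXne, tail_append' hXne]
    show _ = (rev W ++ (!X.headD true) :: (!X.headD true) :: X.tail) ++ _
    rw [List.append_assoc]
    rfl

/-- **the assembled words with a given number of letters and a given end are a rigid relation** -/
theorem asm_rig (c : Fin 16) (n : ℕ) (x : Pt) : RigR labN (fun (o o' : Option (List Bool)) gs =>
    (∀ g ∈ gs, g ∈ HB 16) ∧ (Rp.asmF c o gs o').length = n ∧ vx oo up (Rp.asmF c o gs o') n = x) := by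
  intro o o' ls rs g g' h h' hs
  obtain ⟨h1, h2, h3⟩ := h
  obtain ⟨h1', h2', h3'⟩ := h'
  have L : LfG g := LfG.of_HB (h1 g (by simp)) (by norm_num)
  have L' : LfG g' := LfG.of_HB (h1' g' (by simp)) (by norm_num)
  have e := asm_split c o o' ls rs L
  have e' := asm_split c o o' ls rs L'
  rw [← hs.1, ← hs.2] at e'
  rw [e] at h2 h3
  rw [e'] at h2' h3'
  refine labN_of_mid L L' hs (Prod.ext (h2.trans h2'.symm) ?_)
  show vx oo up _ _ = vx oo up _ _
  rw [h2, h2', h3, h3']

/-- **the assembled words with a given end are a rigid relation for the displacement** -/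
theorem asm_rigE (c : Fin 16) (x : Pt) : RigR labE (fun (o o' : Option (List Bool)) gs =>
    (∀ g ∈ gs, g ∈ HB 16) ∧ vx oo up (Rp.asmF c o gs o') (Rp.asmF c o gs o').length = x) := by
  intro o o' ls rs g g' h h' hs
  obtain ⟨h1, h3⟩ := h
  obtain ⟨h1', h3'⟩ := h'
  have L : LfG g := LfG.of_HB (h1 g (by simp)) (by norm_num)
  have L' : LfG g' := LfG.of_HB (h1' g' (by simp)) (by norm_num)
  have e := asm_split c o o' ls rs L
  have e' := asm_split c o o' ls rs L'
  rw [← hs.1, ← hs.2] at e'
  rw [e] at h3
  rw [e'] at h3'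
  exact labE_of_mid L L' hs (h3.trans h3'.symm)

/-- the word of a chain of leaves, number of letters and displacement -/
theorem unf_rigN {g g' : List Bool} (ls rs : List (List Bool)) (L : LfG g) (L' : LfG g') (hs : SameE g g')
    (h : labN (unf (ls ++ g :: rs)) = labN (unf (ls ++ g' :: rs))) : labN g = labN g' := by
  have e := unf_split L ls rs
  have e' := unf_split L' ls rs
  rw [← hs.1, ← hs.2] at e'
  rw [e, e'] at h
  exact labN_of_mid L L' hs h

/-- the word of a chain of leaves, displacement -/
theorem unf_rigE {g g' : List Bool} (ls rs : List (List Bool)) (L : LfG g) (L' : LfG g') (hs : SameE g g')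
    (h : labE (unf (ls ++ g :: rs)) = labE (unf (ls ++ g' :: rs))) : labE g = labE g' := by
  have e := unf_split L ls rs
  have e' := unf_split L' ls rs
  rw [← hs.1, ← hs.2] at e'
  rw [e, e'] at h
  exact labE_of_mid L L' hs h

/-- **LabU for the number of letters and the displacement** -/
theorem labU_N : LabU labN := fun ls rs _ _ _ _ hg hg' hs h =>
  unf_rigN ls rs (LfG.of_HB hg (by norm_num)) (LfG.of_HB hg' (by norm_num)) hs h

/-- **LabU for the displacement** -/
theorem labU_E : LabU labE := fun ls rs _ _ _ _ hg hg' hs h =>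
  unf_rigE ls rs (LfG.of_HB hg (by norm_num)) (LfG.of_HB hg' (by norm_num)) hs h

/-- the zig-zags -/
theorem rig_unf {s1 l l' s2 : List Bool} (hl : l ∈ HB 16) (hl' : l' ∈ HB 16) (hs : SameE l l')
    (h : labN (unf [s1, l, s2]) = labN (unf [s1, l', s2])) : labN l = labN l' :=
  unf_rigN [s1] [s2] (LfG.of_HB hl (by norm_num)) (LfG.of_HB hl' (by norm_num)) hs h

/-! ### pieces of a leaf -/

lemma labE_app {s t : List Bool} (hs : s ∈ BU) : labE (s ++ t) = labE s + labE t := by
  obtain ⟨n, hn⟩ := hs
  unfold labE
  rw [List.length_append]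
  exact vx_cat (mem_Brd.1 hn).2.2.1 t.length

lemma labN_app {s t : List Bool} (hs : s ∈ BU) :
    labN (s ++ t) = ((labN s).1 + (labN t).1, (labN s).2 + (labN t).2) := by
  refine Prod.ext ?_ (labE_app hs)
  show (s ++ t).length = s.length + t.length
  rw [List.length_append]

/-- **LabM for the displacement** -/
theorem labM_E : LabM labE := by
  intro A hA B _ Z hZ Z' hZ' h
  rw [labE_app hA, labE_app hZ, labE_app hA, labE_app hZ'] at h
  exact add_right_cancel (add_left_cancel h)

/-- **LabM for the number of letters and the displacement** -/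
theorem labM_N : LabM labN := by
  intro A hA B hB Z hZ Z' hZ' h
  refine Prod.ext ?_ (labM_E A hA B hB Z hZ Z' hZ' (congrArg Prod.snd h))
  have h1 : (A ++ (Z ++ B)).length = (A ++ (Z' ++ B)).length := congrArg Prod.fst h
  simp only [List.length_append] at h1
  show Z.length = Z'.length
  omega

/-- the free middle bridge of a leaf -/
theorem rig_ezl {Λ : Type} {lab : List Bool → Λ} (hlab : LabM lab) {M P1 Z Z' P2 Q : List Bool} (hM : M ∈ BU)
    (hP : P1 ∈ IU) (hZ : Z ∈ BU) (hZ' : Z' ∈ BU) (hP2 : P2 ∈ IU) (hQ : Q ∈ BU)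
    (h : lab (M ++ (P1 ++ (Z ++ (P2 ++ Q)))) = lab (M ++ (P1 ++ (Z' ++ (P2 ++ Q))))) : lab Z = lab Z' := by
  refine hlab (M ++ P1) ?_ (P2 ++ Q) ?_ Z hZ Z' hZ' ?_
  · obtain ⟨a, ha⟩ := hM
    obtain ⟨b, hb⟩ := IU_BU hP
    exact ⟨a + b, Brd_append ha hb⟩
  · obtain ⟨a, ha⟩ := IU_BU hP2
    obtain ⟨b, hb⟩ := hQ
    exact ⟨a + b, Brd_append ha hb⟩
  · rw [List.append_assoc, List.append_assoc]
    exact h

end JNT

end HexObs
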