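import Pool.Agent.JNT.Rel
import Pool.Agent.EN.ExNorm
import Pool.Agent.EN.FreeJ

/-!
JNT: the labelled norm of a window class of leaves.
-/

set_option autoImplicit false

namespace HexObs

namespace JNT

open Finset TS SDN SDN.T2 NTW EN

open scoped ENNReal

open Rec8 (mb)

open KJ SH DW DO TG SE

/-- the free middle part, with a given label, of a leaf of W has a small weight -/
def EZL {Λ : Type} (lab : List Bool → Λ) (D N e j : ℕ) (W : Set (List Bool)) (A : ℝ) : Prop :=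
  ∀ M ∈ BU, ∀ P1 ∈ IU, ∀ P2 ∈ IU, ∀ Q ∈ BU, 2 ^ j < hgt M + hgt P1 → hgt M + hgt P1 ≤ 2 ^ e →
  2 ^ j < hgt P2 + hgt Q → hgt P2 + hgt Q ≤ 2 ^ e → ∀ l : Λ,
  ∑' h : ℕ, gf {Z | Z ∈ Brd h ∧ lab Z = l ∧ M ++ (P1 ++ (Z ++ (P2 ++ Q))) ∈ W ∧
    M ++ (P1 ++ (Z ++ (P2 ++ Q))) ∈ BrR D N} ≤ ENNReal.ofReal A

/-- the free middle part of a leaf of W in the relation C has a small weight -/
def EZR {ι ι' : Type} (D N e j : ℕ) (W : Set (List Bool)) (C : ι → ι' → List Bool → Prop) (A : ℝ) : Prop :=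
  ∀ M ∈ BU, ∀ P1 ∈ IU, ∀ P2 ∈ IU, ∀ Q ∈ BU, 2 ^ j < hgt M + hgt P1 → hgt M + hgt P1 ≤ 2 ^ e →
  2 ^ j < hgt P2 + hgt Q → hgt P2 + hgt Q ≤ 2 ^ e → ∀ (a : ι) (b : ι'),
  ∑' h : ℕ, gf {Z | Z ∈ Brd h ∧ C a b (M ++ (P1 ++ (Z ++ (P2 ++ Q)))) ∧ M ++ (P1 ++ (Z ++ (P2 ++ Q))) ∈ W ∧
    M ++ (P1 ++ (Z ++ (P2 ++ Q))) ∈ BrR D N} ≤ ENNReal.ofReal A

lemma EZL.mono {Λ : Type} {lab : List Bool → Λ} {D N e j : ℕ} {W : Set (List Bool)} {A A' : ℝ} (h : EZL lab D N e j W A)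
    (hA : A ≤ A') : EZL lab D N e j W A' :=
  fun M hM P1 hP1 P2 hP2 Q hQ h1 h2 h3 h4 l =>
    (h M hM P1 hP1 P2 hP2 Q hQ h1 h2 h3 h4 l).trans (ENNReal.ofReal_le_ofReal hA)

lemma headD_app {X : List Bool} (hX : X ≠ []) (Y : List Bool) : (X ++ Y).headD true = X.headD true := by
  cases X with
  | nil => exact absurd rfl hX
  | cons a X => rfl

lemma lst_app (X : List Bool) {B : List Bool} (hB : B ≠ []) : lst (X ++ B) = lst B := by
  unfold lst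
  rw [List.getLastD_eq_getLast?, List.getLastD_eq_getLast?, List.getLast?_append_of_ne_nil _ hB]

lemma iu_ne {P : List Bool} (hP : P ∈ IU) : P ≠ [] := by
  rintro rfl
  obtain ⟨r, hr⟩ := hP
  have h1 := irr_pos hr
  have h2 := Brd_height hr.1 nil_mem_Brd
  omega

/-- two leaves with the same head and the same tail -/
lemma sameE_mid {A Z Z' B : List Bool} (hA : A ≠ []) (hB : B ≠ []) : SameE (A ++ (Z ++ B)) (A ++ (Z' ++ B)) := by
  refine ⟨by rw [headD_app hA, headD_app hA], ?_⟩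
  rw [← List.append_assoc, ← List.append_assoc, lst_app _ hB, lst_app _ hB]

/-- a rigid relation gives the label of the middle part to the relation -/
lemma ezr_of_ezl {Λ ι ι' : Type} {lab : List Bool → Λ} (hlab : LabM lab) {D N e j : ℕ} {W : Set (List Bool)} {A : ℝ}
    {C : ι → ι' → List Bool → Prop} (hC : RigD lab C) (h : EZL lab D N e j W A) : EZR D N e j W C A := by
  intro M hM P1 hP1 P2 hP2 Q hQ h1 h2 h3 h4 a b
  by_cases hex : ∃ Z0 ∈ BU, C a b (M ++ (P1 ++ (Z0 ++ (P2 ++ Q))))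
  · obtain ⟨Z0, hZ0, hc0⟩ := hex
    refine (ENNReal.tsum_le_tsum fun h => gf_mono ?_).trans (h M hM P1 hP1 P2 hP2 Q hQ h1 h2 h3 h4 (lab Z0))
    rintro Z ⟨hZ, hc, hw, hr⟩
    refine ⟨hZ, ?_, hw, hr⟩
    obtain ⟨m, hm⟩ := hM
    obtain ⟨p, hp⟩ := hP1
    obtain ⟨p', hp'⟩ := hP2
    obtain ⟨q, hq⟩ := hQ
    have e : ∀ Y : List Bool, M ++ (P1 ++ (Y ++ (P2 ++ Q))) = (M ++ P1) ++ (Y ++ (P2 ++ Q)) := fun Y => by
      rw [List.append_assoc]
    have n1 : M ++ P1 ≠ [] := fun h => iu_ne ⟨p, hp⟩ (List.append_eq_nil_iff.1 h).2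
    have n2 : P2 ++ Q ≠ [] := fun h => iu_ne ⟨p', hp'⟩ (List.append_eq_nil_iff.1 h).1
    rw [e] at hc hc0
    exact hlab (M ++ P1) ⟨_, Brd_append hm hp.1⟩ (P2 ++ Q) ⟨_, Brd_append hp'.1 hq⟩ Z ⟨_, hZ⟩ Z0 hZ0
      (hC a b _ _ hc hc0 (sameE_mid n1 n2))
  · have h0 : ∀ h : ℕ, gf {Z | Z ∈ Brd h ∧ C a b (M ++ (P1 ++ (Z ++ (P2 ++ Q)))) ∧
        M ++ (P1 ++ (Z ++ (P2 ++ Q))) ∈ W ∧ M ++ (P1 ++ (Z ++ (P2 ++ Q))) ∈ BrR D N} = 0 := by
      intro h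
      have : {Z | Z ∈ Brd h ∧ C a b (M ++ (P1 ++ (Z ++ (P2 ++ Q)))) ∧
        M ++ (P1 ++ (Z ++ (P2 ++ Q))) ∈ W ∧ M ++ (P1 ++ (Z ++ (P2 ++ Q))) ∈ BrR D N} = (∅ : Set (List Bool)) := by
        rw [Set.eq_empty_iff_forall_notMem]
        rintro Z ⟨hZ, hc, -⟩
        exact hex ⟨Z, ⟨_, hZ⟩, hc⟩
      rw [this]
      unfold gf
      exact tsum_empty
    simp only [h0, tsum_zero]
    exact zero_le

open Classical in
/-- the sum over the middle parts -/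
lemma mid_l {ι ι' : Type} {D N e j n r r' m : ℕ} {A : ℝ} {W : Set (List Bool)} {C : ι → ι' → List Bool → Prop}
    (hWN : W ⊆ BrR D N) (hW : EZR D N e j W C A)
    {X P P' M : List Bool} (hX : X ∈ Brd n) (hP : P ∈ Irr r) (hP' : P' ∈ Irr r') (hM : M ∈ Brd m)
    (h0 : 2 ^ j < n + r) (h1 : n + r ≤ 2 ^ e) (h0' : 2 ^ j < m + r') (h2 : m + r' ≤ 2 ^ e) (a : ι) (f : ι' → ℝ≥0∞) :
    Rec8.sw {Z | (∃ h, h ≤ N ∧ Z ∈ Brd h) ∧ X ++ (P ++ (Z ++ (P' ++ M))) ∈ W}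
      (fun Z => ∑' b, if C a b (X ++ (P ++ (Z ++ (P' ++ M)))) then f b else 0) ≤ ENNReal.ofReal A * ∑' b, f b := by
  rw [sw_tsum, ← ENNReal.tsum_mul_left]
  refine ENNReal.tsum_le_tsum fun b => ?_
  have e1 := hW X ⟨n, hX⟩ P ⟨r, hP⟩ P' ⟨r', hP'⟩ M ⟨m, hM⟩ (by rw [hgt_eq hX, hgt_eq hP.1]; omega)
    (by rw [hgt_eq hX, hgt_eq hP.1]; omega) (by rw [hgt_eq hP'.1, hgt_eq hM]; omega)
    (by rw [hgt_eq hP'.1, hgt_eq hM]; omega) a b
  have e2 : Rec8.sw {Z | (∃ h, h ≤ N ∧ Z ∈ Brd h) ∧ X ++ (P ++ (Z ++ (P' ++ M))) ∈ W}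
      (fun Z => if C a b (X ++ (P ++ (Z ++ (P' ++ M)))) then f b else 0) =
      gf {Z | Z ∈ {Z | ∃ h, h ≤ N ∧ Z ∈ Brd h} ∧ (C a b (X ++ (P ++ (Z ++ (P' ++ M)))) ∧
        X ++ (P ++ (Z ++ (P' ++ M))) ∈ W)} * f b := by
    rw [← Rec8.sw_one, ← Rec8.sw_mul_right, Rec8.sw_ind, Rec8.sw_ind]
    refine tsum_congr fun Z => ?_
    by_cases h3 : Z ∈ {Z | (∃ h, h ≤ N ∧ Z ∈ Brd h) ∧ X ++ (P ++ (Z ++ (P' ++ M))) ∈ W}
    · by_cases h4 : C a b (X ++ (P ++ (Z ++ (P' ++ M))))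
      · rw [if_pos h3, if_pos h4, if_pos (show Z ∈ {Z | Z ∈ {Z | ∃ h, h ≤ N ∧ Z ∈ Brd h} ∧
          (C a b (X ++ (P ++ (Z ++ (P' ++ M)))) ∧ X ++ (P ++ (Z ++ (P' ++ M))) ∈ W)} from ⟨h3.1, h4, h3.2⟩), one_mul]
      · rw [if_pos h3, if_neg h4, if_neg (show Z ∉ {Z | Z ∈ {Z | ∃ h, h ≤ N ∧ Z ∈ Brd h} ∧
          (C a b (X ++ (P ++ (Z ++ (P' ++ M)))) ∧ X ++ (P ++ (Z ++ (P' ++ M))) ∈ W)} from fun h => h4 h.2.1), mul_zero]
    · rw [if_neg h3, if_neg (show Z ∉ {Z | Z ∈ {Z | ∃ h, h ≤ N ∧ Z ∈ Brd h} ∧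
          (C a b (X ++ (P ++ (Z ++ (P' ++ M)))) ∧ X ++ (P ++ (Z ++ (P' ++ M))) ∈ W)} from fun h => h3 ⟨h.1, h.2.2⟩)]
  rw [e2]
  refine mul_le_mul_left (le_trans ?_ e1) _
  refine (NTA.SP.gf_heights _ _ ?_).trans (ENNReal.tsum_le_tsum fun z => gf_mono ?_)
  · rintro Z ⟨z, -, hZ⟩
    exact ⟨z, hZ⟩
  · rintro Z ⟨h3, h4, h5⟩
    exact ⟨h3, h4, h5, hWN h5⟩

open Classical in
/-- **the rest of a leaf of W behind the head X and the piece P** -/
theorem rest_l (hA : SsA) : ∃ K : ℝ, 1 ≤ K ∧ ∀ {ι ι' : Type} (k e j N n r : ℕ) (A : ℝ) (x : ℝ≥0∞)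
    (F : ι' → List Bool → ℝ≥0∞) (X P : List Bool) (W : Set (List Bool)) (C : ι → ι' → List Bool → Prop),
    (∀ b, Hered (F b)) → DomJ k x (fun t => ∑' b, F b t) → j + 1 ≤ e → e ≤ k →
    W ⊆ BrR (2 ^ (k + 4)) N → EZR (2 ^ (k + 4)) N e j W C A → Win e j W → X ∈ Brd n → P ∈ Irr r → 2 ^ j < n + r → n + r ≤ 2 ^ e →
    ∀ a : ι, Rec8.sw {Z | Z ∈ BU ∧ X ++ (P ++ Z) ∈ W}
      (fun Z => ∑' b, if C a b (X ++ (P ++ Z)) then F b (P ++ Z) else 0) ≤
      ENNReal.ofReal (K * 2 ^ (k - j)) * ENNReal.ofReal A * x := by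
  obtain ⟨K2, hK2, hend⟩ := endsJ hA
  refine ⟨K2, hK2, fun {ι ι'} k e j N n r A x F X P W C hF hΦ hj he hWN hW hw hX hP hnl hnr a => ?_⟩
  have hp4 : 2 ^ (k + 4) = 16 * 2 ^ k := by ring
  have hp0 : 1 ≤ 2 ^ k := Nat.one_le_two_pow
  have hpe : 2 ^ e ≤ 2 ^ k := Nat.pow_le_pow_right (by norm_num) he
  have hpj : 2 ^ (j + 1) ≤ 2 ^ e := Nat.pow_le_pow_right (by norm_num) hj
  have hPb : P ∈ Brd r := hP.1
  -- the function of the rest
  obtain ⟨G, hG⟩ : ∃ G : List Bool → ℝ≥0∞, G = fun Z => if X ++ (P ++ Z) ∈ W then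
    (∑' b, if C a b (X ++ (P ++ Z)) then F b (P ++ Z) else 0) else 0 := ⟨_, rfl⟩
  have hGv : ∀ Z, G Z = if X ++ (P ++ Z) ∈ W then
    (∑' b, if C a b (X ++ (P ++ Z)) then F b (P ++ Z) else 0) else 0 := fun Z => by rw [hG]
  have s0 : Rec8.sw {Z | Z ∈ BU ∧ X ++ (P ++ Z) ∈ W}
      (fun Z => ∑' b, if C a b (X ++ (P ++ Z)) then F b (P ++ Z) else 0) ≤
      Rec8.sw {Z | Z ∈ BU ∧ ∃ Y ∈ Brd n, Y ++ (P ++ Z) ∈ BrR (2 ^ (k + 4)) N} G := by
    rw [Rec8.sw_ind, Rec8.sw_ind]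
    refine ENNReal.tsum_le_tsum fun Z => ?_
    by_cases hZ : Z ∈ {Z | Z ∈ BU ∧ X ++ (P ++ Z) ∈ W}
    · rw [if_pos hZ, if_pos (show Z ∈ {Z | Z ∈ BU ∧ ∃ Y ∈ Brd n, Y ++ (P ++ Z) ∈ BrR (2 ^ (k + 4)) N} from
        ⟨hZ.1, X, hX, hWN hZ.2⟩), hGv, if_pos hZ.2]
    · rw [if_neg hZ]
      exact zero_le
  refine s0.trans ?_
  refine (outR (k := j) (by omega) hP G).trans ?_
  have hz : ∑' m : ℕ, mu j m r * Rec8.sw {M | M ∈ Brd m ∧ ∃ Y ∈ Brd n, Y ++ (P ++ M) ∈ BrR (2 ^ (k + 4)) N} G = 0 := by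
    rw [ENNReal.tsum_eq_zero]
    intro m
    rcases Nat.lt_or_ge m (2 ^ (j + 1)) with hm | hm
    · have e : {M : List Bool | M ∈ Brd m ∧ ∃ Y ∈ Brd n, Y ++ (P ++ M) ∈ BrR (2 ^ (k + 4)) N} = ∅ := by
        rw [Set.eq_empty_iff_forall_notMem]
        rintro M ⟨hM, Y, hY, H, h1, -, h3⟩
        have := Brd_height h3 (Brd_append hY (Brd_append hP.1 hM))
        omega
      rw [e]
      unfold Rec8.sw
      rw [tsum_empty, mul_zero]
    · rw [mu_eq_zero hm, zero_mul]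
  rw [hz, zero_add]
  -- the pieces near the tail
  have hT : ∀ m r' : ℕ, mu j m r' * Rec8.sw {Z | ∃ h, h ≤ N ∧ Z ∈ Brd h} (fun Z => Rec8.sw (Irr r') (fun P' =>
      Rec8.sw {M | M ∈ Brd m ∧ ∃ Y ∈ Brd n, Y ++ (P ++ (Z ++ (P' ++ M))) ∈ BrR (2 ^ (k + 4)) N}
        (fun M => G (Z ++ (P' ++ M))))) ≤
      ENNReal.ofReal A * (mu j m r' * Rec8.sw (Irr r') (fun P' => Rec8.sw (Brd m) (fun M => ∑' b, F b (P' ++ M)))) := by
    intro m r'
    by_cases hmu : mu j m r' = 0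
    · rw [hmu, zero_mul]
      exact zero_le
    obtain ⟨hm1, hm2⟩ := mu_ne hmu
    rw [mul_left_comm]
    refine mul_le_mul_right ?_ _
    calc Rec8.sw {Z | ∃ h, h ≤ N ∧ Z ∈ Brd h} (fun Z => Rec8.sw (Irr r') (fun P' =>
          Rec8.sw {M | M ∈ Brd m ∧ ∃ Y ∈ Brd n, Y ++ (P ++ (Z ++ (P' ++ M))) ∈ BrR (2 ^ (k + 4)) N}
            (fun M => G (Z ++ (P' ++ M)))))
        ≤ Rec8.sw {Z | ∃ h, h ≤ N ∧ Z ∈ Brd h} (fun Z => Rec8.sw (Irr r') (fun P' =>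
          Rec8.sw (Brd m) (fun M => G (Z ++ (P' ++ M))))) :=
          Rec8.sw_mono' fun Z _ => Rec8.sw_mono' fun P' _ => Rec8.sw_mono (fun t ht => ht.1) fun M _ => le_rfl
      _ = Rec8.sw (Irr r') (fun P' => Rec8.sw (Brd m) (fun M => Rec8.sw {Z | ∃ h, h ≤ N ∧ Z ∈ Brd h} (fun Z =>
          G (Z ++ (P' ++ M))))) := by
          rw [Rec8.sw_comm]
          exact Rec8.sw_congr fun P' _ => Rec8.sw_comm _ _ _
      _ ≤ Rec8.sw (Irr r') (fun P' => Rec8.sw (Brd m) (fun M => ENNReal.ofReal A * ∑' b, F b (P' ++ M))) := by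
          refine Rec8.sw_mono' fun P' hP' => Rec8.sw_mono' fun M hM => ?_
          by_cases hmr : m + r' ≤ 2 ^ e
          · have hmid := mid_l hWN hW hX hP hP' hM hnl hnr (by omega) hmr a (fun b => F b (P' ++ M))
            refine le_trans ?_ hmid
            rw [Rec8.sw_ind, Rec8.sw_ind]
            refine ENNReal.tsum_le_tsum fun Z => ?_
            by_cases hZ : Z ∈ {Z | ∃ h, h ≤ N ∧ Z ∈ Brd h}
            · rw [if_pos hZ, hGv]
              by_cases h1 : X ++ (P ++ (Z ++ (P' ++ M))) ∈ W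
              · rw [if_pos h1, if_pos (show Z ∈ {Z | (∃ h, h ≤ N ∧ Z ∈ Brd h) ∧
                  X ++ (P ++ (Z ++ (P' ++ M))) ∈ W} from ⟨hZ, h1⟩)]
                refine mul_le_mul_right (ENNReal.tsum_le_tsum fun b => ?_) _
                split_ifs
                · obtain ⟨z, -, hZ1⟩ := hZ
                  rw [← List.append_assoc P Z]
                  exact hF _ _ ⟨_, Brd_append hPb hZ1⟩ _
                · exact le_rfl
              · rw [if_neg h1, mul_zero]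
                exact zero_le
            · rw [if_neg hZ]
              exact zero_le
          · have h0 : ∀ Z ∈ {Z | ∃ h, h ≤ N ∧ Z ∈ Brd h}, G (Z ++ (P' ++ M)) = 0 := by
              rintro Z ⟨z, -, hZ1⟩
              rw [hGv, if_neg]
              intro h1
              refine hmr (hw.tl m r' (X ++ (P ++ Z)) P' M ⟨_, Brd_append hX (Brd_append hPb hZ1)⟩ hP' hM ?_ hm1 hm2)
              rw [List.append_assoc, List.append_assoc]
              exact h1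
            rw [Rec8.sw_congr h0, Rec8.sw_zero]
            exact zero_le
      _ = _ := by
          rw [← Rec8.sw_mul_left]
          exact Rec8.sw_congr fun P' _ => Rec8.sw_mul_left _ _ _
  refine (ENNReal.tsum_le_tsum fun m => ENNReal.tsum_le_tsum fun r' => hT m r').trans ?_
  simp only [ENNReal.tsum_mul_left]
  have hE' : ∑' m : ℕ, ∑' r' : ℕ, mu j m r' * Rec8.sw (Irr r') (fun P' => Rec8.sw (Brd m) (fun M =>
      ∑' b, F b (P' ++ M))) ≤ ENNReal.ofReal (K2 * 2 ^ (k - j)) * x := by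
    rw [ENNReal.tsum_comm]
    exact hend k j x (fun t => ∑' b, F b t) hΦ (by omega)
  calc ENNReal.ofReal A * ∑' m : ℕ, ∑' r' : ℕ, mu j m r' * Rec8.sw (Irr r') (fun P' => Rec8.sw (Brd m) (fun M =>
        ∑' b, F b (P' ++ M))) ≤ ENNReal.ofReal A * (ENNReal.ofReal (K2 * 2 ^ (k - j)) * x) := mul_le_mul_right hE' _
    _ = _ := by ring

open Classical in
/-- **the two sided sum over the leaves of a window class, arbitrary relation** -/
theorem free_l (hA : SsA) : ∃ K : ℝ, 1 ≤ K ∧ ∀ {ι ι' : Type} (k e j N : ℕ) (A : ℝ) (y x : ℝ≥0∞)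
    (P : ι → List Bool → ℝ≥0∞) (F : ι' → List Bool → ℝ≥0∞) (W : Set (List Bool)) (C : ι → ι' → List Bool → Prop),
    (∀ a, Hered (P a)) → DomJ k y (fun t => ∑' a, P a t) → (∀ b, Hered (F b)) → DomJ k x (fun t => ∑' b, F b t) →
    j + 1 ≤ e → e ≤ k → W ⊆ BrR (2 ^ (k + 4)) N → EZR (2 ^ (k + 4)) N e j W C A → Win e j W →
    Rec8.sw W (fun g => ∑' (a : ι) (b : ι'), if C a b g then P a (rev g) * F b g else 0) ≤
      ENNReal.ofReal (K * (4 ^ (k - j) * A)) * (y * x) := by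
  obtain ⟨K0, hK0, hrest⟩ := rest_l hA
  obtain ⟨K1, hK1, hend⟩ := endsJ hA
  refine ⟨K1 * K0, one_le_mul_of_one_le_of_one_le hK1 hK0,
    fun {ι ι'} k e j N A y x P F W C hP hPd hF hFd hj he hWN hW hwin => ?_⟩
  obtain ⟨B, hB⟩ : ∃ B, B = ENNReal.ofReal (K0 * 2 ^ (k - j)) * ENNReal.ofReal A * x := ⟨_, rfl⟩
  obtain ⟨G, hG⟩ : ∃ G : List Bool → ℝ≥0∞, G = fun g => if g ∈ W then
      ∑' (a : ι), P a (rev g) * ∑' (b : ι'), (if C a b g then F b g else 0) else 0 := ⟨_, rfl⟩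
  have hGg : ∀ g, G g = if g ∈ W then
      ∑' (a : ι), P a (rev g) * ∑' (b : ι'), (if C a b g then F b g else 0) else 0 := fun g => by rw [hG]
  have e1 : Rec8.sw W (fun g => ∑' (a : ι) (b : ι'), if C a b g then P a (rev g) * F b g else 0) =
      Rec8.sw (BrR (2 ^ (k + 4)) N) G := by
    rw [Rec8.sw_ind, Rec8.sw_ind]
    refine tsum_congr fun g => ?_
    rw [hGg]
    by_cases h1 : g ∈ W
    · rw [if_pos h1, if_pos h1, if_pos (hWN h1)]
      congr 1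
      refine tsum_congr fun a => ?_
      rw [← ENNReal.tsum_mul_left]
      refine tsum_congr fun b => ?_
      rw [mul_ite, mul_zero]
    · rw [if_neg h1, if_neg h1, mul_zero]
      simp
  rw [e1]
  have hp : 2 ^ (j + 1) ≤ 2 ^ (k + 4) := Nat.pow_le_pow_right (by norm_num) (by omega)
  -- the rest behind the head X and the piece P1
  have hr : ∀ (n r : ℕ) (X P1 : List Bool), mu j n r ≠ 0 → X ∈ Brd n → P1 ∈ Irr r →
      Rec8.sw {Z | Z ∈ BU ∧ X ++ (P1 ++ Z) ∈ BrR (2 ^ (k + 4)) N} (fun Z => G (X ++ (P1 ++ Z))) ≤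
        (∑' a, P a (rev P1 ++ rev X)) * B := by
    intro n r X P1 hmu hX hP1
    obtain ⟨hn1, hn2⟩ := mu_ne hmu
    have s1 : Rec8.sw {Z | Z ∈ BU ∧ X ++ (P1 ++ Z) ∈ BrR (2 ^ (k + 4)) N} (fun Z => G (X ++ (P1 ++ Z))) ≤
        Rec8.sw {Z | Z ∈ BU ∧ X ++ (P1 ++ Z) ∈ W} (fun Z => G (X ++ (P1 ++ Z))) := by
      rw [Rec8.sw_ind, Rec8.sw_ind]
      refine ENNReal.tsum_le_tsum fun Z => ?_
      by_cases hZ : Z ∈ {Z | Z ∈ BU ∧ X ++ (P1 ++ Z) ∈ BrR (2 ^ (k + 4)) N}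
      · rw [if_pos hZ]
        by_cases h2 : X ++ (P1 ++ Z) ∈ W
        · rw [if_pos (show Z ∈ {Z | Z ∈ BU ∧ X ++ (P1 ++ Z) ∈ W} from ⟨hZ.1, h2⟩)]
        · rw [hGg, if_neg h2, mul_zero]
          exact zero_le
      · rw [if_neg hZ]
        exact zero_le
    refine s1.trans ?_
    by_cases hemp : ∃ Z, Z ∈ BU ∧ X ++ (P1 ++ Z) ∈ W
    swap
    · have : {Z | Z ∈ BU ∧ X ++ (P1 ++ Z) ∈ W} = (∅ : Set (List Bool)) := by
        rw [Set.eq_empty_iff_forall_notMem]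
        intro Z hZ
        exact hemp ⟨Z, hZ⟩
      rw [this]
      unfold Rec8.sw
      rw [tsum_empty]
      exact zero_le
    obtain ⟨Z0, hZ0, hZW⟩ := hemp
    have hnr : n + r ≤ 2 ^ e := hwin.hd n r X P1 Z0 hX hP1 hZ0 hZW hn1 hn2
    -- every left continuation
    have s2 : Rec8.sw {Z | Z ∈ BU ∧ X ++ (P1 ++ Z) ∈ W} (fun Z => G (X ++ (P1 ++ Z))) ≤
        Rec8.sw {Z | Z ∈ BU ∧ X ++ (P1 ++ Z) ∈ W} (fun Z => ∑' a, P a (rev P1 ++ rev X) *
          (∑' b, if C a b (X ++ (P1 ++ Z)) then F b (P1 ++ Z) else 0)) := by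
      refine Rec8.sw_mono' fun Z hZ => ?_
      obtain ⟨⟨z, hz⟩, hZ2⟩ := hZ
      rw [hGg, if_pos hZ2]
      refine ENNReal.tsum_le_tsum fun a => ?_
      refine mul_le_mul' ?_ (ENNReal.tsum_le_tsum fun b => ?_)
      · rw [rev_append, rev_append, List.append_assoc]
        exact hP a (rev Z) ⟨z, Brd_rev hz⟩ _
      · split_ifs
        · exact hF _ X ⟨n, hX⟩ _
        · exact le_rfl
    refine s2.trans ?_
    rw [sw_tsum, ← ENNReal.tsum_mul_right]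
    refine ENNReal.tsum_le_tsum fun a => ?_
    rw [Rec8.sw_mul_left]
    refine mul_le_mul_right ?_ _
    rw [hB]
    exact hrest k e j N n r A x F X P1 W C hF hFd hj he hWN hW hwin hX hP1 (by omega) hnr a
  -- the level near the head
  have s4 : Rec8.sw (BrR (2 ^ (k + 4)) N) G ≤ ∑' n : ℕ, ∑' r : ℕ, mu j n r * Rec8.sw (Brd n) (fun X =>
      Rec8.sw (Irr r) (fun P1 => (∑' a, P a (rev P1 ++ rev X)) * B)) := by
    refine (inR (j := j) (D := 2 ^ (k + 4)) (N := N) hp _).trans ?_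
    refine ENNReal.tsum_le_tsum fun n => ENNReal.tsum_le_tsum fun r => ?_
    by_cases hmu : mu j n r = 0
    · rw [hmu, zero_mul, zero_mul]
    exact mul_le_mul_right (Rec8.sw_mono' fun X hX => Rec8.sw_mono' fun P1 hP1 => hr n r X P1 hmu hX hP1) _
  refine s4.trans ?_
  have s5 : ∀ n r : ℕ, Rec8.sw (Brd n) (fun X => Rec8.sw (Irr r) (fun P1 => (∑' a, P a (rev P1 ++ rev X)) * B)) =
      Rec8.sw (Irr r) (fun P1 => Rec8.sw (Brd n) (fun M => ∑' a, P a (P1 ++ M))) * B := by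
    intro n r
    rw [Rec8.sw_comm, ← Rec8.sw_mul_right, ← DO.sw_rev (Irr r) (fun t ht => Irr_rev ht)
      (fun P1 => Rec8.sw (Brd n) (fun M => ∑' a, P a (P1 ++ M)) * B)]
    refine Rec8.sw_congr fun P1 _ => ?_
    rw [← Rec8.sw_mul_right, ← DO.sw_rev (Brd n) (fun t ht => Brd_rev ht) (fun M => (∑' a, P a (rev P1 ++ M)) * B)]
  have s6 := hend k j y (fun t => ∑' a, P a t) hPd (by omega)
  rw [ENNReal.tsum_comm]
  calc ∑' r : ℕ, ∑' n : ℕ, mu j n r * Rec8.sw (Brd n) (fun X => Rec8.sw (Irr r) (fun P1 =>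
        (∑' a, P a (rev P1 ++ rev X)) * B))
      = (∑' r : ℕ, ∑' n : ℕ, mu j n r * Rec8.sw (Irr r) (fun P1 => Rec8.sw (Brd n) (fun M =>
          ∑' a, P a (P1 ++ M)))) * B := by
        rw [← ENNReal.tsum_mul_right]
        refine tsum_congr fun r => ?_
        rw [← ENNReal.tsum_mul_right]
        refine tsum_congr fun n => ?_
        rw [s5, mul_assoc]
    _ ≤ (ENNReal.ofReal (K1 * 2 ^ (k - j)) * y) * B := mul_le_mul_left s6 _
    _ = ENNReal.ofReal (K1 * K0 * (4 ^ (k - j) * A)) * (y * x) := by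
        rw [hB]
        have e5 : K1 * K0 * (4 ^ (k - j) * A) = (K1 * 2 ^ (k - j)) * ((K0 * 2 ^ (k - j)) * A) := by
          have : (4 : ℝ) ^ (k - j) = 2 ^ (k - j) * 2 ^ (k - j) := by
            rw [← mul_pow]
            norm_num
          rw [this]
          ring
        rw [e5, ENNReal.ofReal_mul (p := K1 * 2 ^ (k - j)) (by positivity),
          ENNReal.ofReal_mul (p := K0 * 2 ^ (k - j)) (by positivity)]
        ring

variable {C δ : ℝ}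

open Classical in
/-- the next leaf in W, arbitrary relation -/
theorem near_l (h : Inp C δ) (hA : SsA) : ∃ K : ℝ, 1 ≤ K ∧ ∀ {ι ι' : Type} (k e j N : ℕ) (A : ℝ) (x : ℝ≥0∞)
    (F : ι' → List Bool → ℝ≥0∞) (W : Set (List Bool)) (R : ι → ι' → List Bool → Prop), (∀ b, Hered (F b)) →
    DomJ k x (fun t => ∑' b, F b t) → j + 1 ≤ e → e ≤ k →
    0 ≤ A → W ⊆ BrR (2 ^ (k + 4)) N → EZR (2 ^ (k + 4)) N e j W R A → Win e j W →
    xT (2 ^ (k + 4)) k (fun t => ⨆ a, vA (2 ^ (k + 4)) W (one F R a) t) ≤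
      ENNReal.ofReal (K * (4 ^ (k - j) * (A / Ub k))) * x := by
  obtain ⟨K1, hK1, k1h⟩ := k1 h
  obtain ⟨Kr, hKr, hrest⟩ := rest_l hA
  refine ⟨16 * (Kr * K1), by nlinarith, fun {ι ι'} k e j N A x F W R hF hΦ hj he hA0 hWN hW hw => ?_⟩
  refine xT_le fun b I hb hI => ?_
  obtain ⟨i, hIi⟩ := hI
  have hp4 : 2 ^ (k + 4) = 16 * 2 ^ k := by ring
  have hp0 : 1 ≤ 2 ^ k := Nat.one_le_two_pow
  have hpe : 2 ^ e ≤ 2 ^ k := Nat.pow_le_pow_right (by norm_num) he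
  have hpj : 2 ^ (j + 1) ≤ 2 ^ e := Nat.pow_le_pow_right (by norm_num) hj
  have hU := Ub_pos k
  have hUj := Ub_pos j
  obtain ⟨θ, hθ⟩ : ∃ θ : ℝ≥0∞, θ = ENNReal.ofReal (Kr * 2 ^ (k - j)) * ENNReal.ofReal A * x := ⟨_, rfl⟩
  have hW' : ∀ t, {g' | g' ∈ W ∧ RT (2 ^ (k + 4)) LFold t g'} = Fl.At (2 ^ (k + 4)) N W LFold t := by
    intro t
    ext g
    exact ⟨fun hg => ⟨hWN hg.1, hg.1, hg.2⟩, fun hg => ⟨hg.2.1, hg.2.2⟩⟩
  have s1 : Rec8.sw (Fld.BrB b) (fun M => ⨆ a, vA (2 ^ (k + 4)) W (one F R a) (I ++ M)) ≤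
      Rec8.sw (Fld.BrB b) (fun M => ∑' n : ℕ, ∑' r : ℕ, mu j n r * Rec8.sw (Brd n) (fun X =>
        Rec8.sw {P | P ∈ Irr r ∧ ∃ c : Bool, KRel (2 ^ (k + 4)) I P M ((!c) :: c :: X)} (fun _ => θ))) := by
    refine Rec8.sw_mono' fun M hM => ?_
    obtain ⟨m0, -, hM0⟩ := hM
    refine iSup_le fun a0 => ?_
    unfold vA
    rw [hW']
    have e1 : Rec8.sw (Fl.At (2 ^ (k + 4)) N W LFold (I ++ M)) (one F R a0) =
        Rec8.sw (BrR (2 ^ (k + 4)) N) (fun g' => if g' ∈ Fl.At (2 ^ (k + 4)) N W LFold (I ++ M) then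
          one F R a0 g' else 0) := by
      have e2 := Rec8.sw_and (BrR (2 ^ (k + 4)) N) (fun g' => g' ∈ Fl.At (2 ^ (k + 4)) N W LFold (I ++ M)) (one F R a0)
      refine Eq.trans ?_ (e2.trans ?_)
      · congr 1
        ext g'
        exact ⟨fun h => ⟨h.1, h⟩, fun h => h.2⟩
      · refine Rec8.sw_congr fun g' _ => ?_
        split_ifs <;> rfl
    rw [e1]
    refine (inR (j := j) (by omega) _).trans ?_
    refine ENNReal.tsum_le_tsum fun n => ENNReal.tsum_le_tsum fun r => ?_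
    by_cases hmu : mu j n r = 0
    · rw [hmu, zero_mul, zero_mul]
    obtain ⟨hm1, hm2⟩ := mu_ne hmu
    refine mul_le_mul_right (Rec8.sw_mono' fun X hX => ?_) _
    rw [Rec8.sw_and]
    refine Rec8.sw_mono' fun P hP => ?_
    by_cases hK : P ∈ Fl.KP1 (2 ^ (k + 4)) I M X r
    · refine le_trans ?_ (le_of_eq (if_pos hK.2).symm)
      by_cases hnr : n + r ≤ 2 ^ e
      · have h9 := hrest k e j N n r A x F X P W R hF hΦ hj he hWN hW hw hX hP hm2 hnr a0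
        rw [hθ]
        refine le_trans ?_ h9
        rw [Rec8.sw_ind, Rec8.sw_ind]
        refine ENNReal.tsum_le_tsum fun Z => ?_
        by_cases hZ : Z ∈ {Z | Z ∈ BU ∧ X ++ (P ++ Z) ∈ BrR (2 ^ (k + 4)) N}
        · rw [if_pos hZ]
          by_cases h1 : X ++ (P ++ Z) ∈ Fl.At (2 ^ (k + 4)) N W LFold (I ++ M)
          · rw [if_pos h1, if_pos (show Z ∈ {Z | Z ∈ BU ∧ X ++ (P ++ Z) ∈ W} from ⟨hZ.1, h1.2.1⟩)]
            refine mul_le_mul_right ?_ _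
            unfold one
            refine ENNReal.tsum_le_tsum fun b => ?_
            split_ifs
            · exact hF _ X ⟨n, hX⟩ _
            · exact le_rfl
          · rw [if_neg h1, mul_zero]
            exact zero_le
        · rw [if_neg hZ]
          exact zero_le
      · refine le_trans ((Rec8.sw_mono' (Ψ := fun _ => 0) fun Z hZ => ?_).trans (le_of_eq (Rec8.sw_zero _))) zero_le
        rw [if_neg]
        intro hAt
        exact hnr (hw.hd n r X P Z hX hP hZ.1 hAt.2.1 hm1 hm2)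
    · refine le_trans ((Rec8.sw_mono' (Ψ := fun _ => 0) fun Z hZ => ?_).trans (le_of_eq (Rec8.sw_zero _))) zero_le
      rw [if_neg]
      intro hAt
      exact hK (Fl.At_K RNb_LFold hIi.1 hM0 hX hP hZ.1 hAt)
  have s2 := fold_sum (2 ^ (k + 4)) b j I (mu j) (mb j) (fun a n r => mu_le_mb) (fun n r => mu_eq_zero)
    (fun a r => mb_mono (Nat.le_succ a) r) (fun _ _ => θ)
  refine s1.trans (s2.trans ?_)
  have t2 := k1h (2 ^ (k + 4)) k j b I le_rfl (by omega) hb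
  obtain ⟨S, hS⟩ : ∃ S, S = Sw (2 ^ (k + 4)) k b I := ⟨_, rfl⟩
  rw [← hS] at t2 ⊢
  have s4 : ∑ a ∈ range (j + 2), ∑' r : ℕ, mb j a r * Rec8.sw (Irr r) (fun P => KT (2 ^ (k + 4)) b I a P * θ) =
      θ * ∑ a ∈ range (j + 2), ∑' r : ℕ, mb j a r * Rec8.sw (Irr r) (fun P => KT (2 ^ (k + 4)) b I a P) := by
    rw [Finset.mul_sum]
    refine Finset.sum_congr rfl fun a _ => ?_
    rw [← ENNReal.tsum_mul_left]
    refine tsum_congr fun r => ?_
    have e1 : Rec8.sw (Irr r) (fun P => KT (2 ^ (k + 4)) b I a P * θ) =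
        Rec8.sw (Irr r) (fun P => θ * KT (2 ^ (k + 4)) b I a P) := Rec8.sw_congr fun P _ => mul_comm _ _
    rw [e1, Rec8.sw_mul_left, mul_left_comm]
  calc 16 * ∑ a ∈ range (j + 2), ∑' r : ℕ, mb j a r * Rec8.sw (Irr r) (fun P => KT (2 ^ (k + 4)) b I a P * θ)
      ≤ 16 * (θ * (ENNReal.ofReal (K1 / Ub j) * S)) := by
        rw [s4]
        exact mul_le_mul_right (mul_le_mul_right t2 _) _
    _ = ENNReal.ofReal (16 * (Kr * 2 ^ (k - j) * A * (K1 / Ub j))) * x * S := by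
        have e16 : ENNReal.ofReal 16 = 16 := by simp
        rw [ENNReal.ofReal_mul (p := 16) (by norm_num), ENNReal.ofReal_mul (p := Kr * 2 ^ (k - j) * A) (by positivity),
          ENNReal.ofReal_mul (p := Kr * 2 ^ (k - j)) (by positivity), e16, hθ]
        ring
    _ ≤ _ := by
        refine mul_le_mul_left (mul_le_mul_left (ENNReal.ofReal_le_ofReal ?_) _) _
        have h5 := Fl.Ub_ratio (show j ≤ k by omega)
        have h6 : 0 ≤ 16 * (Kr * 2 ^ (k - j) * A * K1) := by positivity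
        have h7 : 1 / Ub j ≤ 2 ^ (k - j) / Ub k := by
          rw [div_le_div_iff₀ hUj hU]
          linarith
        calc 16 * (Kr * 2 ^ (k - j) * A * (K1 / Ub j)) = 16 * (Kr * 2 ^ (k - j) * A * K1) * (1 / Ub j) := by ring
          _ ≤ 16 * (Kr * 2 ^ (k - j) * A * K1) * (2 ^ (k - j) / Ub k) := mul_le_mul_of_nonneg_left h7 h6
          _ = 16 * (Kr * K1) * ((2 ^ (k - j) * 2 ^ (k - j)) * (A / Ub k)) := by ring
          _ = _ := by rw [← mul_pow]; norm_num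


/-- **the labelled norm of a window class** whose free middle part has a weight of at most A for every label -/
theorem win_norm : ∃ K : ℝ, 1 ≤ K ∧ ∀ {Λ : Type} (lab : List Bool → Λ) (k N e j : ℕ) (A : ℝ) (W : Set (List Bool)),
    LabM lab → j + 1 ≤ e → e ≤ k → 0 ≤ A → W ⊆ BrR (2 ^ (k + 4)) N → EZL lab (2 ^ (k + 4)) N e j W A → Win e j W →
    SmDL lab DmJ k W (K * (4 ^ (k - j) * (A / Ub k))) := by
  classical
  obtain ⟨C, δ, h⟩ := inp_exists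
  have hA := ssA h
  obtain ⟨K1, hK1, h1⟩ := near_l h hA
  obtain ⟨K2, hK2, h2⟩ := free_l hA
  refine ⟨K1 + K2, by linarith, fun {Λ} lab k N e j A W hlab hj he hA0 hWN hW hwin => ?_⟩
  have hU := Ub_pos k
  have ha : 0 ≤ 4 ^ (k - j) * (A / Ub k) := by positivity
  refine ⟨fun {ι ι'} x F R hR hF hFd => ?_, fun {ι ι'} y x P F R hR hP _ hF hPd hFd => ?_⟩
  · refine (h1 k e j N A x F W R (fun b => (hF b).her) hFd.2 hj he hA0 hWN (ezr_of_ezl hlab hR hW) hwin).trans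
      (mul_le_mul_left (ENNReal.ofReal_le_ofReal ?_) _)
    exact mul_le_mul_of_nonneg_right (by linarith) ha
  · have e0 : Rec8.sw W (fun g => ∑' a, P a (rev g) * one F R a g) =
        Rec8.sw W (fun g => ∑' (a : ι) (b : ι'), if R a b g then P a (rev g) * F b g else 0) := by
      refine Rec8.sw_congr fun g _ => tsum_congr fun a => ?_
      unfold one
      rw [← ENNReal.tsum_mul_left]
      refine tsum_congr fun b => ?_
      rw [mul_ite, mul_zero]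
    rw [e0]
    refine (h2 k e j N A y x P F W R (fun a => (hP a).her) hPd.2 (fun b => (hF b).her) hFd.2 hj he hWN
      (ezr_of_ezl hlab hR hW) hwin).trans (mul_le_mul_left (ENNReal.ofReal_le_ofReal ?_) _)
    have e1 : (K1 + K2) * (4 ^ (k - j) * (A / Ub k)) * Ub k = (K1 + K2) * (4 ^ (k - j) * A) := by
      field_simp
    rw [e1]
    exact mul_le_mul_of_nonneg_right (by linarith) (by positivity)

end JNT

end HexObs
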