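import Pool.Agent.JNT.PairCut
import Pool.Agent.JNT.GBSum
import Pool.Agent.JNT.Win
import Pool.Agent.JNT.Asm
import Pool.Agent.EN.GBGood

/-!
JNT, row D: the good leaves of the depth D in relation form. A good leaf has cut levels in four windows; the free middle
part of a good leaf contains a bridge of height between 2^e and 2^e2 with at least 2^e levels below and above it, so the
weight of the middle parts with a given label is bounded by the joint bound for the pairs of bridges (helper59).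
-/

set_option autoImplicit false

namespace HexObs

namespace JNT

open Finset TS SDN NTW NTA EN

open scoped ENNReal

section

variable {Λ : Type} (lab : List Bool → Λ)

open scoped Classical in
/-- pairs of bridges of height at least n around a piece with a given label -/
noncomputable def prs (n : ℕ) (P : List Bool) (a : Λ) : ℝ≥0∞ := ∑' Z : List Bool, ∑' Z' : List Bool,
  (if Z ∈ HB n ∧ Z' ∈ HB n ∧ lab (Z ++ (P ++ Z')) = a then wE Z * wE Z' else 0)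

/-- the joint bound for a label -/
def JoG (w : ℕ → ℝ) : Prop := ∃ C : ℝ, 0 < C ∧ ∀ k : ℕ, ∀ P ∈ IU, ∀ a : Λ,
  prs lab (2 ^ k) P a ≤ ENNReal.ofReal (C * (Ub k ^ 2 / w k))

/-- the good classes of the depth D in relation form -/
def GBLs (w : ℕ → ℝ) : Prop := ∃ (C B : ℝ) (s2 : ℕ) (Gs : ℕ → ℕ → Set (List Bool)), 1 ≤ C ∧ 1 ≤ B ∧
  ∀ k N D : ℕ, 1 ≤ D → s2 * D + s2 ≤ k → SmD DmJ k (BrR (2 ^ (k + 4)) N \ Gs D k) (C * (1 + UU N / Ub k) ^ 2 / 2 ^ D) ∧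
    SmDL lab DmJ k {g | g ∈ BrR (2 ^ (k + 4)) N ∧ g ∈ Gs D k} (C * B ^ D / w k)

end

/-- the joint bound for displacement and number of letters -/
theorem joG_N {m : ℕ → ℝ} (hJ : JoB m) : JoG labN (fun k => m k * 4 ^ k) := by
  classical
  obtain ⟨C, hC, h⟩ := hJ
  refine ⟨C, hC, fun k P hP a => ?_⟩
  have e1 : C * (Ub k ^ 2 / (m k * 4 ^ k)) = C * (Ub k ^ 2 / (4 ^ k * m k)) := by rw [mul_comm (m k)]
  rw [e1]
  refine le_trans ?_ (h k (a.2 - en P) (a.1 - P.length))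
  unfold prs pairs
  refine ENNReal.tsum_le_tsum fun Z => ENNReal.tsum_le_tsum fun Z' => ?_
  by_cases hd : Z ∈ HB (2 ^ k) ∧ Z' ∈ HB (2 ^ k) ∧ labN (Z ++ (P ++ Z')) = a
  · rw [if_pos hd, if_pos]
    obtain ⟨hZ, hZ', ha⟩ := hd
    have hZB : Z ∈ BU := by
      obtain ⟨h0, -, h1⟩ := hZ
      exact ⟨h0, h1⟩
    have hPB : P ∈ BU := SIM.CS.IUB hP
    have h2 : en (Z ++ (P ++ Z')) = a.2 := by rw [← ha]; rfl
    have h3 : (Z ++ (P ++ Z')).length = a.1 := by rw [← ha]; rfl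
    rw [en_app hZB, en_app hPB] at h2
    rw [List.length_append, List.length_append] at h3
    refine ⟨hZ, hZ', ?_, by omega⟩
    rw [← h2]
    abel
  · rw [if_neg hd]
    exact zero_le

open scoped Classical in
/-- one bridge with a middle structure: average over the pieces of the middle -/
theorem pair_cutG : ∃ C : ℝ, 1 ≤ C ∧ ∀ (E : Set (List Bool)) (n b0 : ℕ) (x : ℝ≥0∞), 1 ≤ n →
    (∀ t ∈ E, SIM.Cut1 (HB n) (HB n) n (2 ^ b0) t) →
    (∀ P ∈ IU, ∑' Z : List Bool, ∑' Z' : List Bool,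
      (if Z ∈ HB n ∧ Z' ∈ HB n ∧ Z ++ (P ++ Z') ∈ E then wE Z * wE Z' else 0) ≤ x) →
    gf E ≤ ENNReal.ofReal (C * (2 ^ b0 / (n * Ub b0))) * x := by
  obtain ⟨K, hK, hP⟩ := SIM.piece_mass
  refine ⟨K, hK, fun E n b0 x hn hE hx => ?_⟩
  have hU := Ub_pos b0
  have hn0 : (0 : ℝ) < n := by exact_mod_cast hn
  obtain ⟨p, hp⟩ : ∃ p : List Bool → ℝ≥0∞, p = fun P => if P ∈ IU ∧ hgt P ≤ 2 ^ b0 then wE P * (hgt P : ℝ≥0∞) else 0 :=
    ⟨_, rfl⟩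
  have h1 : (n : ℝ≥0∞) * gf E ≤ ∑' P : List Bool, p P * x := by
    refine (SIM.cut1_master hE).trans ?_
    refine ENNReal.tsum_le_tsum fun P => ?_
    by_cases hc : P ∈ IU ∧ hgt P ≤ 2 ^ b0
    · have e1 : p P = wE P * (hgt P : ℝ≥0∞) := by rw [hp]; exact if_pos hc
      rw [e1]
      refine le_trans ?_ (mul_le_mul' le_rfl (hx P hc.1))
      rw [ENNReal.tsum_comm, ← ENNReal.tsum_mul_left]
      refine ENNReal.tsum_le_tsum fun L => ?_
      rw [← ENNReal.tsum_mul_left]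
      refine ENNReal.tsum_le_tsum fun R => ?_
      by_cases hd : (L ∈ HB n ∧ R ∈ HB n ∧ P ∈ IU ∧ hgt P ≤ 2 ^ b0) ∧ L ++ (P ++ R) ∈ E
      · rw [if_pos hd, if_pos ⟨hd.1.1, hd.1.2.1, hd.2⟩]
        refine le_of_eq ?_
        ring
      · rw [if_neg hd]
        exact zero_le
    · refine le_trans (le_of_eq (ENNReal.tsum_eq_zero.2 fun R => ENNReal.tsum_eq_zero.2 fun L => if_neg ?_)) zero_le
      rintro ⟨h2, -⟩
      exact hc ⟨h2.2.2.1, h2.2.2.2⟩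
  have h3 : ∑' P, p P ≤ ENNReal.ofReal (K * 2 ^ b0 / Ub b0) := by
    rw [hp]
    exact hP b0
  have hn1 : (n : ℝ≥0∞) ≠ 0 := by exact_mod_cast (by omega : n ≠ 0)
  have hn2 : (n : ℝ≥0∞) ≠ ⊤ := ENNReal.natCast_ne_top n
  rw [ENNReal.tsum_mul_right] at h1
  have h4 : gf E ≤ (n : ℝ≥0∞)⁻¹ * (ENNReal.ofReal (K * 2 ^ b0 / Ub b0) * x) := by
    calc gf E = (n : ℝ≥0∞)⁻¹ * ((n : ℝ≥0∞) * gf E) := by
          rw [← mul_assoc, ENNReal.inv_mul_cancel hn1 hn2, one_mul]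
      _ ≤ _ := mul_le_mul' le_rfl (h1.trans (mul_le_mul' h3 le_rfl))
  refine h4.trans (le_of_eq ?_)
  rw [← mul_assoc, ← ENNReal.ofReal_natCast, ← ENNReal.ofReal_inv_of_pos hn0, ← ENNReal.ofReal_mul (by positivity)]
  congr 2
  field_simp

namespace GD

open LQ

/-- the sum over the heights -/
lemma sum_h_le (p : List Bool → Prop) : ∑' h : ℕ, gf {Z | Z ∈ Brd h ∧ p Z} ≤ gf {Z | Z ∈ BU ∧ p Z} := by
  classical
  have hone : ∀ A : Set (List Bool), gf A = Rec8.sw A (fun _ => 1) := fun A => (Rec8.sw_one A).symm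
  simp only [hone, Rec8.sw_ind]
  rw [ENNReal.tsum_comm]
  refine ENNReal.tsum_le_tsum fun Z => ?_
  by_cases hZ : Z ∈ {Z | Z ∈ BU ∧ p Z}
  · obtain ⟨⟨n, hn⟩, hp⟩ := id hZ
    rw [if_pos hZ]
    rw [tsum_eq_single n]
    · rw [if_pos (show Z ∈ {Z | Z ∈ Brd n ∧ p Z} from ⟨hn, hp⟩)]
    · intro n' hn'
      rw [if_neg]
      rintro ⟨h1, -⟩
      exact hn' (Brd_height h1 hn)
  · rw [if_neg hZ]
    refine le_of_eq (ENNReal.tsum_eq_zero.2 fun n => ?_)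
    rw [if_neg]
    rintro ⟨h1, h2⟩
    exact hZ ⟨⟨n, h1⟩, h2⟩

/-- a cut level above the window -/
lemma cut_above {e j n : ℕ} {g : List Bool} (hg : g ∈ Brd n) (hw : g ∈ WinH e j) (hn : 2 ^ j < n) :
    ∃ A B : List Bool, A ∈ BU ∧ B ∈ BU ∧ A ++ B = g ∧ 2 ^ j < hgt A ∧ hgt A ≤ 2 ^ e := by
  obtain ⟨i, r, X, P, Z, h1, h2, -, hX, hP, hZ, he⟩ := jump_dec hn hg
  have hPU : P ∈ BU := ⟨r, hP.1⟩
  have hXU : X ∈ BU := ⟨i, hX⟩
  have h3 : hgt (X ++ P) = i + r := by rw [hgt_app hXU hPU, hgt_eq hX, hgt_eq hP.1]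
  have h4 : 2 ^ j < 2 ^ (j + 1) := Nat.pow_lt_pow_right (by norm_num) (Nat.lt_succ_self j)
  refine ⟨X ++ P, Z, BU_app hXU hPU, ⟨_, hZ⟩, he.symm, by omega, ?_⟩
  rw [h3]
  exact hw i r X P Z hX hP ⟨_, hZ⟩ (by rw [he, List.append_assoc]) (by omega) h2

/-- the free middle part of a good leaf contains a bridge of a middle height -/
lemma mid_cut {k N e j2 e2 : ℕ} {M P1 Z P2 Q : List Bool} (he : e ≤ j2) (he2 : j2 + 1 ≤ e2) (hk : e2 ≤ k) (hM : M ∈ BU)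
    (hP1 : P1 ∈ IU) (hZ : Z ∈ BU) (hP2 : P2 ∈ IU) (hQ : Q ∈ BU)
    (hg : M ++ (P1 ++ (Z ++ (P2 ++ Q))) ∈ BrR (2 ^ (k + 4)) N) (h1 : hgt M + hgt P1 ≤ 2 ^ e) (h2 : hgt P2 + hgt Q ≤ 2 ^ e)
    (hw1 : M ++ (P1 ++ (Z ++ (P2 ++ Q))) ∈ WinH j2 (e + 1)) (hw2 : M ++ (P1 ++ (Z ++ (P2 ++ Q))) ∈ WinH e2 (j2 + 1)) :
    SIM.Cut1 (HB (2 ^ e)) (HB (2 ^ e)) (2 ^ e) (2 ^ e2) Z := by
  obtain ⟨n, hn, -, hgn⟩ := hg
  have p1 : 2 ^ (e + 1) = 2 * 2 ^ e := pow_succ' 2 e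
  have p2 : 2 ^ (j2 + 1) = 2 * 2 ^ j2 := pow_succ' 2 j2
  have p3 : 2 ^ (k + 4) = 16 * 2 ^ k := by ring
  have p4 : 2 ^ e ≤ 2 ^ j2 := Nat.pow_le_pow_right (by norm_num) he
  have p5 : 2 ^ (j2 + 1) ≤ 2 ^ e2 := Nat.pow_le_pow_right (by norm_num) he2
  have p6 : 2 ^ e2 ≤ 2 ^ k := Nat.pow_le_pow_right (by norm_num) hk
  have p7 : 1 ≤ 2 ^ e := Nat.one_le_two_pow
  have hMP := BU_app hM (IU_BU hP1)
  have hPQ := BU_app (IU_BU hP2) hQ
  have hZPQ := BU_app hZ hPQ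
  have hMPh := hgt_app hM (IU_BU hP1)
  have hPQh := hgt_app (IU_BU hP2) hQ
  obtain ⟨A1, B1, hA1, hB1, e1, l1, u1⟩ := cut_above hgn hw1 (by omega)
  obtain ⟨A2, B2, hA2, hB2, e2', l2, u2⟩ := cut_above hgn hw2 (by omega)
  have hnn : n = hgt M + hgt P1 + (hgt Z + (hgt P2 + hgt Q)) := by
    have h3 := hgt_eq hgn
    rw [← h3, ← List.append_assoc M P1, hgt_app hMP hZPQ, hMPh, hgt_app hZ hPQ, hPQh]
  obtain ⟨H, hH, e3, e4⟩ := nest hA1 hB1 hA2 hB2 (e1.trans e2'.symm) (by omega)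
  have hHh : hgt A2 = hgt A1 + hgt H := by rw [e3, hgt_app hA1 hH]
  obtain ⟨X, hX, e5, e6⟩ := nest hMP hZPQ hA1 hB1 (by rw [e1, List.append_assoc]) (by omega)
  have hXh : hgt A1 = hgt M + hgt P1 + hgt X := by rw [e5, hgt_app hMP hX, hMPh]
  have hXH := BU_app hX hH
  have hXHh : hgt (X ++ H) = hgt X + hgt H := hgt_app hX hH
  obtain ⟨Y, hY, e7, -⟩ := nest hXH hB2 hZ hPQ (by rw [e6, e4, List.append_assoc]) (by omega)
  have hYh : hgt Z = hgt X + hgt H + hgt Y := by rw [e7, hgt_app hXH hY, hXHh]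
  refine ⟨X, H, Y, hgt H, by rw [e7, List.append_assoc], hgt_mem hH, by omega, by omega, fun A B hA hB _ => ?_,
    fun A B hA hB _ => ?_⟩
  · exact ⟨hgt X + hgt A, by omega, Brd_append (hgt_mem hX) (hgt_mem hA)⟩
  · exact ⟨hgt B + hgt Y, by omega, Brd_append (hgt_mem hB) (hgt_mem hY)⟩

/-- good leaves -/
def GoodL (e j j2 e2 : ℕ) : Set (List Bool) := {g | (g ∈ WinH e j ∧ g ∈ WinT e j) ∧ g ∈ WinH j2 (e + 1) ∧
  g ∈ WinH e2 (j2 + 1)}

/-- the weight of the middle parts of the good leaves with a given label -/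
theorem ezl_good {Λ : Type} {lab : List Bool → Λ} {w : ℕ → ℝ} (hJ : JoG lab w) : ∃ C : ℝ, 0 < C ∧
    ∀ k N e j j2 e2 : ℕ, e ≤ j2 → j2 + 1 ≤ e2 → e2 ≤ k →
      EZL lab (2 ^ (k + 4)) N e j {g | g ∈ BrR (2 ^ (k + 4)) N ∧ g ∈ GoodL e j j2 e2}
        (C * (2 ^ e2 / (2 ^ e * Ub e2)) * (Ub e ^ 2 / w e)) := by
  classical
  obtain ⟨C1, hC1, h1⟩ := pair_cutG
  obtain ⟨C2, hC2, h2⟩ := hJ
  refine ⟨C1 * C2, by positivity, fun k N e j j2 e2 he he2 hk => ?_⟩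
  intro M hM P1 hP1 P2 hP2 Q hQ _ h4 _ h6 l
  have hU := Ub_pos e2
  refine (sum_h_le _).trans ((h1 _ (2 ^ e) e2 _ Nat.one_le_two_pow ?_ (fun P hP => le_trans ?_ (h2 e P hP l))).trans ?_)
  · rintro Z ⟨hZ, h7, h8, h9⟩
    exact mid_cut he he2 hk hM hP1 hZ hP2 hQ h8.1 h4 h6 h8.2.2.1 h8.2.2.2
  · unfold prs
    refine ENNReal.tsum_le_tsum fun Z => ENNReal.tsum_le_tsum fun Z' => ?_
    split_ifs with h7 h8 h8
    · exact le_rfl
    · exact absurd ⟨h7.1, h7.2.1, h7.2.2.2.1⟩ h8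
    · exact zero_le
    · exact le_rfl
  · rw [← ENNReal.ofReal_mul (by positivity)]
    refine ENNReal.ofReal_le_ofReal (le_of_eq ?_)
    push_cast
    ring

lemma win_goodL {D N e j j2 e2 : ℕ} : Win e j {g | g ∈ BrR D N ∧ g ∈ GoodL e j j2 e2} where
  hd := fun n r X P Z hX hP hZ hg h1 h2 => hg.2.1.1 n r X P Z hX hP hZ rfl h1 h2
  tl := fun m r Z P M hZ hP hM hg h1 h2 => hg.2.1.2 m r Z P M hZ hP hM rfl h1 h2

/-- a window without free middle parts -/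
theorem bad_win : ∃ (K : ℝ) (c0 : ℕ), 1 ≤ K ∧ 3 ≤ c0 ∧ ∀ (k N p q D : ℕ) (W : Set (List Bool)), 1 ≤ D →
    q = p + 1 + c0 * (2 * p + D) → q ≤ k → W ⊆ BrR (2 ^ (k + 4)) N → EZW (2 ^ (k + 4)) N (k - p) (k - q + 1) W 0 →
    SmD DmJ k W (K * (1 + UU N / Ub k) ^ 2 / 2 ^ D) := by
  obtain ⟨K, c, hK, hc, hsp⟩ := sp_winR
  obtain ⟨c1, hc1⟩ := exists_nat_ge (1 / c)
  refine ⟨K, c1 + 3, hK, by omega, fun k N p q D W hD hq hqk hW hE => ?_⟩
  obtain ⟨c0, hc0⟩ : ∃ c0, c0 = c1 + 3 := ⟨_, rfl⟩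
  rw [← hc0] at hq
  have hcc : 1 ≤ c * c0 := by
    have h1 : 1 / c ≤ (c0 : ℝ) := by
      rw [hc0]
      push_cast
      linarith
    rw [div_le_iff₀ hc] at h1
    linarith
  obtain ⟨w, hw⟩ : ∃ w, w = c0 * (2 * p + D) := ⟨_, rfl⟩
  rw [← hw] at hq
  have hw3 : 3 ≤ w := by
    rw [hw]
    have h1 : 3 ≤ c0 := by omega
    nlinarith
  have hU := Ub_pos k
  have hR0 : 0 ≤ (1 + UU N / Ub k) ^ 2 := by positivity
  have h1 := hsp k N (k - p) (k - q + 1) 0 W (by omega) (by omega) le_rfl hW hE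
  refine LQ.SmD_le ?_ h1
  have e1 : k - (k - p) = p := by omega
  have e3 : ((k - p : ℕ) : ℝ) - ((k - q + 1 : ℕ) : ℝ) = (w : ℝ) := by
    have e4 : ((k - p : ℕ) : ℝ) = ((k - q + 1 : ℕ) : ℝ) + (w : ℝ) := by
      exact_mod_cast (by omega : k - p = (k - q + 1) + w)
    linarith
  rw [e1, e3, zero_div, mul_zero, add_zero]
  have h2 : (2 : ℝ) ^ (-(c * (w : ℝ))) ≤ (2 : ℝ) ^ (-((2 * p + D : ℕ) : ℝ)) := by
    apply Real.rpow_le_rpow_of_exponent_le (by norm_num)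
    have h4 : (0 : ℝ) ≤ ((2 * p + D : ℕ) : ℝ) := Nat.cast_nonneg _
    have h5 : (w : ℝ) = c0 * ((2 * p + D : ℕ) : ℝ) := by
      rw [hw]
      push_cast
      ring
    rw [h5]
    nlinarith
  have h5 : (4 : ℝ) ^ p * (2 : ℝ) ^ (-((2 * p + D : ℕ) : ℝ)) = 1 / 2 ^ D := by
    rw [Real.rpow_neg (by norm_num), Real.rpow_natCast]
    have e5 : (4 : ℝ) ^ p = 2 ^ (2 * p) := by
      rw [pow_mul]
      norm_num
    rw [e5, pow_add]
    field_simp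
  calc K * (1 + UU N / Ub k) ^ 2 * (4 ^ p * (2 : ℝ) ^ (-(c * (w : ℝ)))) ≤
      K * (1 + UU N / Ub k) ^ 2 * (4 ^ p * (2 : ℝ) ^ (-((2 * p + D : ℕ) : ℝ))) := by gcongr
    _ = _ := by
        rw [h5]
        ring

/-- m decreases at most by a factor C -/
lemma m_down {m : ℕ → ℝ} {Cm : ℝ} (hC : 1 ≤ Cm) (hu : ∀ k, m (k + 1) ≤ Cm * m k) (e d : ℕ) :
    m (e + d) ≤ Cm ^ d * m e := by
  induction d with
  | zero => simp
  | succ d ih =>
    have h1 := hu (e + d)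
    have h2 := mul_le_mul_of_nonneg_left ih (by linarith : 0 ≤ Cm)
    rw [← add_assoc]
    calc m (e + d + 1) ≤ Cm * (Cm ^ d * m e) := h1.trans h2
      _ = _ := by ring

end GD

open GD LQ

/-- **the good and the bad leaves of the depth D in relation form** -/
theorem good_bad_L {Λ : Type} {lab : List Bool → Λ} {w : ℕ → ℝ} (hlab : LabM lab) (hm : ∀ k, 0 < w k) (hu : MUp w)
    (hJ : JoG lab w) : GBLs lab w := by
  obtain ⟨K, c0, hK, hc0, hbad⟩ := bad_win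
  obtain ⟨C1, hC1, hez⟩ := ezl_good hJ
  obtain ⟨K2, hK2, hwin⟩ := win_norm
  obtain ⟨Cm, hCm, hmu⟩ := hu
  -- the four levels
  obtain ⟨p1, hp1⟩ : ∃ p1 : ℕ → ℕ, ∀ D, p1 D = c0 * D + 2 := ⟨_, fun _ => rfl⟩
  obtain ⟨p2, hp2⟩ : ∃ p2 : ℕ → ℕ, ∀ D, p2 D = p1 D + 2 + c0 * (2 * p1 D + D) := ⟨_, fun _ => rfl⟩
  obtain ⟨p3, hp3⟩ : ∃ p3 : ℕ → ℕ, ∀ D, p3 D = p2 D + 1 + c0 * (2 * p2 D + D) := ⟨_, fun _ => rfl⟩
  obtain ⟨s2, hs2⟩ : ∃ s2 : ℕ, s2 = (4 * c0 * c0 + 16 * c0 + 4) * (1 + 2 * c0) + c0 + 1 := ⟨_, rfl⟩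
  have hp3s : ∀ D, p3 D ≤ s2 * D + s2 := by
    intro D
    rw [hp3, hp2, hp1, hs2]
    have hD0 : 0 ≤ D := Nat.zero_le _
    nlinarith [Nat.zero_le (c0 * D), Nat.zero_le (c0 * c0 * D), Nat.zero_le (c0 * c0 * c0 * D), Nat.zero_le (c0 * c0),
      Nat.zero_le (c0 * c0 * c0)]
  refine ⟨4 * K + K2 * C1 * (8 * Cm) ^ s2, (8 * Cm) ^ s2, s2,
    fun D k => GoodL (k - p2 D) (k - p3 D) (k - p1 D) k, ?_, ?_, fun k N D hD hk => ⟨?_, ?_⟩⟩
  · have : 0 ≤ K2 * C1 * (8 * Cm) ^ s2 := by positivity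
    linarith
  · exact one_le_pow₀ (by linarith)
  · -- the bad leaves
    have h3 := hp3s D
    have q1 := hp1 D
    have q2 := hp2 D
    have q3 := hp3 D
    have hU := Ub_pos k
    obtain ⟨R, hR⟩ : ∃ R : ℝ, R = K * (1 + UU N / Ub k) ^ 2 / 2 ^ D := ⟨_, rfl⟩
    have hR0 : 0 ≤ R := by rw [hR]; positivity
    have hz2 : 0 ≤ c0 * (2 * p1 D + D) := Nat.zero_le _
    have hz3 : 0 ≤ c0 * (2 * p2 D + D) := Nat.zero_le _
    have a1 : SmD DmJ k {g | g ∈ BrR (2 ^ (k + 4)) N ∧ g ∉ WinH (k - p2 D) (k - p3 D)} R := by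
      rw [hR]
      exact hbad k N (p2 D) (p3 D) D _ hD q3 (by omega) (fun g hg => hg.1) ezw_head
    have a2 : SmD DmJ k {g | g ∈ BrR (2 ^ (k + 4)) N ∧ g ∉ WinT (k - p2 D) (k - p3 D)} R := by
      rw [hR]
      exact hbad k N (p2 D) (p3 D) D _ hD q3 (by omega) (fun g hg => hg.1) ezw_tail
    have a3 : SmD DmJ k {g | g ∈ BrR (2 ^ (k + 4)) N ∧ g ∉ WinH (k - p1 D) (k - p2 D + 1)} R := by
      rw [hR]
      have e1 : k - p2 D + 1 = k - (p2 D - 1) := by omega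
      rw [e1]
      exact hbad k N (p1 D) (p2 D - 1) D _ hD (by omega) (by omega) (fun g hg => hg.1) ezw_head
    have a4 : SmD DmJ k {g | g ∈ BrR (2 ^ (k + 4)) N ∧ g ∉ WinH k (k - p1 D + 1)} R := by
      rw [hR]
      have e1 : k - p1 D + 1 = k - (p1 D - 1) := by omega
      rw [e1]
      have h4 := hbad k N 0 (p1 D - 1) D {g | g ∈ BrR (2 ^ (k + 4)) N ∧ g ∉ WinH (k - 0) (k - (p1 D - 1))} hD
        (by
          have h6 : c0 * (2 * 0 + D) = c0 * D := by ring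
          omega) (by omega) (fun g hg => hg.1) ezw_head
      exact h4
    have hfin := LQ.SmD_union (by linarith) (by linarith) (LQ.SmD_union hR0 hR0 a1 a2) (LQ.SmD_union hR0 hR0 a3 a4)
    refine LQ.SmD_le ?_ (QF.SmD_mono ?_ hfin)
    · have h5 : R + R + (R + R) = 4 * K * (1 + UU N / Ub k) ^ 2 / 2 ^ D := by rw [hR]; ring
      rw [h5]
      apply div_le_div_of_nonneg_right _ (by positivity)
      apply mul_le_mul_of_nonneg_right _ (by positivity)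
      have : 0 ≤ K2 * C1 * (8 * Cm) ^ s2 := by positivity
      linarith
    · rintro g ⟨hg, hn⟩
      by_cases h1 : g ∈ WinH (k - p2 D) (k - p3 D)
      · by_cases h2 : g ∈ WinT (k - p2 D) (k - p3 D)
        · by_cases h4 : g ∈ WinH (k - p1 D) (k - p2 D + 1)
          · by_cases h5 : g ∈ WinH k (k - p1 D + 1)
            · exact absurd ⟨⟨h1, h2⟩, h4, h5⟩ hn
            · exact Or.inr (Or.inr ⟨hg, h5⟩)
          · exact Or.inr (Or.inl ⟨hg, h4⟩)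
        · exact Or.inl (Or.inr ⟨hg, h2⟩)
      · exact Or.inl (Or.inl ⟨hg, h1⟩)
  · -- the good leaves
    have h3 := hp3s D
    have q1 := hp1 D
    have q2 := hp2 D
    have q3 := hp3 D
    have hU := Ub_pos k
    have hz2 : 0 ≤ c0 * (2 * p1 D + D) := Nat.zero_le _
    have hz3 : 0 ≤ c0 * (2 * p2 D + D) := Nat.zero_le _
    have hwk := hm k
    obtain ⟨e, he⟩ : ∃ e, e = k - p2 D := ⟨_, rfl⟩
    obtain ⟨j, hj⟩ : ∃ j, j = k - p3 D := ⟨_, rfl⟩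
    obtain ⟨j2, hj2⟩ : ∃ j2, j2 = k - p1 D := ⟨_, rfl⟩
    have h1 := hez k N e j j2 k (by omega) (by omega) le_rfl
    have hwe := hm e
    have hUe := Ub_pos e
    have h2 := hwin lab k N e j _ _ hlab (by omega) (by omega) (by positivity) (fun g hg => hg.1) h1 win_goodL
    rw [he, hj, hj2] at h2
    refine smDL_num h2 ?_
    rw [← he, ← hj]
    -- the numbers
    obtain ⟨d, hd⟩ : ∃ d, k = e + d := ⟨k - e, by omega⟩
    have hdj : d ≤ k - j := by omega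
    have hkj : k - j ≤ s2 * D + s2 := by omega
    have hmd : w k ≤ Cm ^ d * w e := by
      rw [hd]
      exact m_down hCm hmu e d
    have hUeU : Ub e ≤ Ub k := Ub_mono (by omega)
    have n1 : (2 : ℝ) ^ k / (2 ^ e * Ub k) * (Ub e ^ 2 / w e) ≤ (2 * Cm) ^ d * (Ub k / w k) := by
      have e1 : (2 : ℝ) ^ k = 2 ^ e * 2 ^ d := by rw [hd, pow_add]
      have e3 : (2 : ℝ) ^ k / (2 ^ e * Ub k) * (Ub e ^ 2 / w e) = 2 ^ d * (Ub e ^ 2 / Ub k) * (1 / w e) := by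
        rw [e1]
        field_simp
      have e4 : (2 * Cm) ^ d * (Ub k / w k) = 2 ^ d * Ub k * (Cm ^ d / w k) := by
        rw [mul_pow]
        ring
      rw [e3, e4]
      have n2 : Ub e ^ 2 / Ub k ≤ Ub k := by
        rw [div_le_iff₀ hU, ← sq]
        exact pow_le_pow_left₀ hUe.le hUeU 2
      have n3 : 1 / w e ≤ Cm ^ d / w k := by
        rw [div_le_div_iff₀ hwe hwk, one_mul]
        exact hmd
      gcongr
    have n4 : K2 * (4 ^ (k - j) * (C1 * (2 ^ k / (2 ^ e * Ub k)) * (Ub e ^ 2 / w e) / Ub k)) ≤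
        K2 * C1 * (8 * Cm) ^ (s2 * D + s2) / w k := by
      calc K2 * (4 ^ (k - j) * (C1 * (2 ^ k / (2 ^ e * Ub k)) * (Ub e ^ 2 / w e) / Ub k)) =
            K2 * C1 * 4 ^ (k - j) / Ub k * (2 ^ k / (2 ^ e * Ub k) * (Ub e ^ 2 / w e)) := by ring
        _ ≤ K2 * C1 * 4 ^ (k - j) / Ub k * ((2 * Cm) ^ d * (Ub k / w k)) := by gcongr
        _ = K2 * C1 * (4 ^ (k - j) * (2 * Cm) ^ d) / w k := by field_simp
        _ ≤ K2 * C1 * (8 * Cm) ^ (s2 * D + s2) / w k := by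
            have n5 : (2 * Cm) ^ d ≤ (2 * Cm) ^ (k - j) := pow_le_pow_right₀ (by linarith) hdj
            have n6 : (4 : ℝ) ^ (k - j) * (2 * Cm) ^ (k - j) = (8 * Cm) ^ (k - j) := by
              rw [← mul_pow]
              congr 1
              ring
            have n7 : (8 * Cm) ^ (k - j) ≤ (8 * Cm) ^ (s2 * D + s2) := pow_le_pow_right₀ (by linarith) hkj
            have n8 : (4 : ℝ) ^ (k - j) * (2 * Cm) ^ d ≤ (8 * Cm) ^ (s2 * D + s2) :=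
              (mul_le_mul_of_nonneg_left n5 (by positivity)).trans (n6.le.trans n7)
            gcongr
    refine n4.trans ?_
    apply div_le_div_of_nonneg_right _ hwk.le
    have e6 : (8 * Cm) ^ (s2 * D + s2) = (8 * Cm) ^ s2 * ((8 * Cm) ^ s2) ^ D := by
      rw [pow_add, pow_mul, mul_comm]
    rw [e6]
    have n9 : (0 : ℝ) ≤ ((8 * Cm) ^ s2) ^ D := by positivity
    nlinarith [mul_nonneg (by linarith : (0 : ℝ) ≤ 4 * K) n9]

/-- displacement and number of letters -/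
theorem good_bad_N {m : ℕ → ℝ} (hm : ∀ k, 0 < m k) (hu : MUp m) (hJ : JoB m) : GBLs labN (fun k => m k * 4 ^ k) :=
  good_bad_L labM_N (fun k => mul_pos (hm k) (by positivity)) (mUp_four hu) (joG_N hJ)

/-- the classes with one good level among bad ones -/
theorem gbl_of {Λ : Type} {lab : List Bool → Λ} {w : ℕ → ℝ} (hlab : LabM lab) (hm : ∀ k, 0 < w k) (hu : MUp w)
    (hJ : JoG lab w) : GoodBadL lab w := by
  obtain ⟨C, B, s2, Gs, hC, hB, h⟩ := good_bad_L hlab hm hu hJ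
  exact goodBadL_of hm hC hB fun k N D hD hk => ⟨Gs D k, h k N D hD hk⟩

end JNT

end HexObs
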