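import Pool.Agent.JNT.EndX
import Pool.Agent.JNT.Ext
import Pool.Agent.JNT.GBAll
import Pool.Agent.JNT.Good
import Pool.Agent.JNT.Dir
import Pool.Agent.JNT.EventM
import Pool.Agent.EN.EspM

/-!
JNT: the pointwise bound of the law of the end point for the mean length of the bridges.
-/

set_option autoImplicit false

namespace HexObs

namespace JNT

open Finset TS SDN NTW NTA EN

open scoped ENNReal

/-- the mean length of the bridges of the scale k -/
noncomputable abbrev mM (k : ℕ) : ℝ := PW.mZ (2 ^ k)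

theorem runLn_N : RunLn labN := runLn_of labR_N eventRL_N

theorem gbmL_M (hJ : JoB mM) : ∃ J0 : ℕ, GBmL labN (w4 mM) J0 := by
  obtain ⟨J00, h⟩ := gbmL_of (w4_pos mlow_M) (w4_up mup_M) (gbl_of labM_N (w4_pos mlow_M) (w4_up mup_M) (joG_N hJ))
  exact ⟨J00, h J00 le_rfl⟩

/-- **the tail of the infixes with a given number of letters and a given end point** -/
theorem extL_N (hJ : JoB mM) : EXTL labN mM (w4 mM) := by
  obtain ⟨J0, h⟩ := gbmL_M hJ
  exact ext_L mlow_M mup_M mpow_M longN_M tb_M (w4_pos mlow_M) (w4_up mup_M) runLn_N h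

/-- **the pointwise bound of the law of the end point** -/
theorem endX_N (hJ : JoB mM) (hE : ExsL labN) : ∃ (C : ℝ) (k0 : ℕ), 0 < C ∧ ∀ k n : ℕ, k0 ≤ k → mM k ≤ n →
    (n : ℝ) < mM (k + 1) → ∀ x : Pt, gf {t | t ∈ SawN n ∧ vx oo up t n = x} ≤ ENNReal.ofReal (C / 4 ^ k) * nuX mM k := by
  obtain ⟨J0, h⟩ := gbmL_M hJ
  exact endX_of mlow_M mup_M asm_M h hE (extL_N hJ)

end JNT

end HexObs
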