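import Pool.Agent.JNT.Defs
import Pool.Agent.EN.GBM
import Pool.Agent.RSWP.LocalT

/-!
JNT, row L: a proportion of the bridges of the heights 2 ^ k .. 2 ^ (k + 1) has its end in the box and a number of
letters between y m k and A m k.
-/

set_option autoImplicit false

namespace HexObs

namespace JNT

open Finset TS SDN NTA EN RP

open scoped ENNReal

/-- the bridges with the end in the box -/
theorem box_low : ∃ (c : ℝ) (t0 : ℕ), 0 < c ∧ ∀ h : ℕ, t0 ≤ h → 1 ≤ h →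
    ENNReal.ofReal (c * uu h) ≤ gf {Z | Z ∈ Brd h ∧ |latE Z| ≤ (h : ℤ)} := by
  obtain ⟨c, t0, hc, hloc⟩ := localTube 1 (η := 1) one_pos
  refine ⟨c, t0, hc, fun h ht h1 => ?_⟩
  have hh : (0 : ℝ) < h := by exact_mod_cast h1
  obtain ⟨f, hf⟩ : ∃ f : ℕ → Set (List Bool), f = fun j : ℕ =>
    {Z | Z ∈ Brd h ∧ |latE Z| ≤ (h : ℤ) ∧ latE Z = -(h : ℤ) + 2 * (j : ℤ)} := ⟨_, rfl⟩
  have hsub : (⋃ j, f j) ⊆ {Z | Z ∈ Brd h ∧ |latE Z| ≤ (h : ℤ)} := by
    intro Z hZ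
    rw [Set.mem_iUnion] at hZ
    obtain ⟨j, hj⟩ := hZ
    rw [hf] at hj
    exact ⟨hj.1, hj.2.1⟩
  have hdis : ∀ i j, ∀ Z, Z ∈ f i → Z ∈ f j → i = j := by
    intro i j Z hi hj
    rw [hf] at hi hj
    have h3 := hi.2.2
    have h4 := hj.2.2
    omega
  have hge : ∀ j ∈ range (h + 1), ENNReal.ofReal (c * (uu h / h)) ≤ gf (f j) := by
    intro j hj
    rw [Finset.mem_range] at hj
    have hx : |(-(h : ℤ) + 2 * j)| ≤ (h : ℤ) := by
      rw [abs_le]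
      omega
    refine (hloc h (-(h : ℤ) + 2 * j) ht ⟨(j : ℤ) - h, by ring⟩ (by simpa using hx)).trans (gf_mono ?_)
    rintro Z ⟨⟨h3, h4⟩, _⟩
    rw [hf]
    exact ⟨h3, by rw [h4]; exact hx, h4⟩
  calc ENNReal.ofReal (c * uu h) ≤ ENNReal.ofReal (((h + 1 : ℕ) : ℝ) * (c * (uu h / h))) := by
        apply ENNReal.ofReal_le_ofReal
        have h3 : 0 < uu h := uu_pos h
        have h4 : ((h + 1 : ℕ) : ℝ) * (c * (uu h / h)) = c * uu h + c * (uu h / h) := by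
          push_cast
          field_simp
        rw [h4]
        have : 0 ≤ c * (uu h / h) := by positivity
        linarith
    _ = ∑ _j ∈ range (h + 1), ENNReal.ofReal (c * (uu h / h)) := by
        rw [Finset.sum_const, Finset.card_range, nsmul_eq_mul, ENNReal.ofReal_mul (by positivity),
          ENNReal.ofReal_natCast]
    _ ≤ ∑ j ∈ range (h + 1), gf (f j) := Finset.sum_le_sum hge
    _ ≤ ∑' j, gf (f j) := ENNReal.sum_le_tsum _
    _ = gf (⋃ j, f j) := (K1.gf_iUnion f hdis).symm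
    _ ≤ _ := gf_mono hsub

/-- the weights of the heights of one scale -/
theorem uu_scale {k h : ℕ} (h1 : 2 ^ k ≤ h) (h2 : h < 2 ^ (k + 1)) :
    (2 * (6 + CW))⁻¹ * (Ub k / 2 ^ k) ≤ uu h := by
  have hC : 0 < 6 + CW := LocalT.C0_pos
  have hk : 1 ≤ 2 ^ k := Nat.one_le_two_pow
  have h3 := UU_le_mul (T := h) (by omega)
  have h4 : Ub k ≤ UU h := UU_mono h1
  have hu : 0 < uu h := uu_pos h
  have h5 : (h : ℝ) ≤ 2 * 2 ^ k := by
    have : ((h : ℕ) : ℝ) ≤ ((2 ^ (k + 1) : ℕ) : ℝ) := by exact_mod_cast h2.le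
    rw [pow_succ] at this
    push_cast at this
    linarith
  have h6 : Ub k ≤ (6 + CW) * (2 * 2 ^ k * uu h) := by
    refine (h4.trans h3).trans (mul_le_mul_of_nonneg_left ?_ hC.le)
    exact mul_le_mul_of_nonneg_right h5 hu.le
  rw [inv_mul_le_iff₀ (by positivity), div_le_iff₀ (by positivity)]
  calc Ub k ≤ (6 + CW) * (2 * 2 ^ k * uu h) := h6
    _ = _ := by ring

/-- the bridges of one scale with the end in the box -/
theorem box_scale : ∃ (c : ℝ) (k0 : ℕ), 0 < c ∧ ∀ k : ℕ, k0 ≤ k →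
    ENNReal.ofReal (c * Ub k) ≤ ∑ h ∈ Ico (2 ^ k) (2 ^ (k + 1)), gf {Z | Z ∈ Brd h ∧ |latE Z| ≤ (h : ℤ)} := by
  obtain ⟨c, t0, hc, hb⟩ := box_low
  have hC : 0 < 6 + CW := LocalT.C0_pos
  refine ⟨c * (2 * (6 + CW))⁻¹, t0, by positivity, fun k hk => ?_⟩
  have hU : 0 < Ub k := Ub_pos k
  have hk2 : t0 ≤ 2 ^ k := hk.trans Nat.lt_two_pow_self.le
  have hk1 : 1 ≤ 2 ^ k := Nat.one_le_two_pow
  calc ENNReal.ofReal (c * (2 * (6 + CW))⁻¹ * Ub k)
      = ENNReal.ofReal (((2 ^ k : ℕ) : ℝ) * (c * ((2 * (6 + CW))⁻¹ * (Ub k / 2 ^ k)))) := by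
        congr 1
        push_cast
        field_simp
    _ = ∑ _h ∈ Ico (2 ^ k) (2 ^ (k + 1)), ENNReal.ofReal (c * ((2 * (6 + CW))⁻¹ * (Ub k / 2 ^ k))) := by
        rw [Finset.sum_const, Nat.card_Ico, nsmul_eq_mul, ENNReal.ofReal_mul (by positivity), ENNReal.ofReal_natCast]
        congr 2
        rw [pow_succ]
        omega
    _ ≤ _ := by
        refine Finset.sum_le_sum fun h hh => ?_
        rw [Finset.mem_Ico] at hh
        refine (ENNReal.ofReal_le_ofReal ?_).trans (hb h (hk2.trans hh.1) (hk1.trans hh.1))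
        exact mul_le_mul_of_nonneg_left (uu_scale hh.1 hh.2) hc.le

/-- **row L** -/
theorem longB_of {m : ℕ → ℝ} {a1 : ℝ} (hm : MLow m) (hd : MUp m) (hC : C1 m) (h1 : 0 < a1) (hI : BrL.IndB2 a1)
    (hM : ∃ C : ℝ, 0 < C ∧ ∀ (k : ℕ) (y : ℝ), 0 < y → NTm.TL (2 ^ k) y ≤ ENNReal.ofReal (C * m k / y * Ub k)) :
    LongB m := by
  obtain ⟨c, k0, hc, hb⟩ := box_scale
  obtain ⟨Cs, hCs, hs⟩ := num_short hm.pos hC h1 hI
  obtain ⟨Cm, hCm, hu⟩ := hd
  obtain ⟨CM, hCM, hmk⟩ := hM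
  -- the lower bound of the number of letters
  obtain ⟨y, hy0, hy1, hy⟩ : ∃ y : ℝ, 0 < y ∧ y ≤ 1 ∧ Cs * y ^ a1 ≤ c / 4 := by
    refine ⟨min 1 ((c / (4 * Cs)) ^ a1⁻¹), lt_min one_pos (Real.rpow_pos_of_pos (by positivity) _), min_le_left _ _, ?_⟩
    have e1 : (min 1 ((c / (4 * Cs)) ^ a1⁻¹)) ^ a1 ≤ ((c / (4 * Cs)) ^ a1⁻¹) ^ a1 :=
      Real.rpow_le_rpow (le_min zero_le_one (Real.rpow_nonneg (by positivity) _)) (min_le_right _ _) h1.le
    rw [← Real.rpow_mul (by positivity), inv_mul_cancel₀ h1.ne', Real.rpow_one] at e1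
    calc Cs * (min 1 ((c / (4 * Cs)) ^ a1⁻¹)) ^ a1 ≤ Cs * (c / (4 * Cs)) := mul_le_mul_of_nonneg_left e1 hCs.le
      _ = c / 4 := by field_simp
  -- the upper bound
  obtain ⟨A, hA⟩ : ∃ A : ℝ, A = 1 + 8 * CM * Cm / c := ⟨_, rfl⟩
  have hA1 : 1 ≤ A := by
    rw [hA]
    have : 0 ≤ 8 * CM * Cm / c := by positivity
    linarith
  have hA2 : CM * Cm * 2 / A ≤ c / 4 := by
    rw [div_le_iff₀ (by linarith), hA]
    have e1 : c / 4 * (1 + 8 * CM * Cm / c) = c / 4 + CM * Cm * 2 := by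
      field_simp
      ring
    rw [e1]
    linarith
  -- the scale is large
  obtain ⟨k1, hk1⟩ : ∃ k1 : ℕ, 1 ≤ y * m 0 * k1 := by
    obtain ⟨k1, hk⟩ := exists_nat_ge (1 / (y * m 0))
    have h0 := hm.pos 0
    refine ⟨k1, ?_⟩
    rw [div_le_iff₀ (by positivity)] at hk
    linarith
  refine ⟨y, A, c / 2, max k0 k1, hy0, hy1.trans hA1, by positivity, fun k hk => ?_⟩
  have hkk0 : k0 ≤ k := (le_max_left _ _).trans hk
  have hkk1 : k1 ≤ k := (le_max_right _ _).trans hk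
  have hmk0 := hm.pos k
  have hU : 0 < Ub k := Ub_pos k
  have hym : 1 ≤ y * m k := by
    have h2 := hm.low 0 k
    rw [Nat.zero_add] at h2
    have h3 : (k : ℝ) ≤ (2 : ℝ) ^ (5 / 4 * (k : ℝ)) := by
      have h4 : (k : ℝ) ≤ (2 : ℝ) ^ k := by exact_mod_cast Nat.lt_two_pow_self.le
      refine h4.trans ?_
      rw [← Real.rpow_natCast]
      refine Real.rpow_le_rpow_of_exponent_le (by norm_num) ?_
      have : (0 : ℝ) ≤ k := Nat.cast_nonneg k
      linarith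
    have h5 : (k1 : ℝ) ≤ k := by exact_mod_cast hkk1
    have h0 := hm.pos 0
    calc (1 : ℝ) ≤ y * m 0 * k1 := hk1
      _ ≤ y * m 0 * (2 : ℝ) ^ (5 / 4 * (k : ℝ)) := mul_le_mul_of_nonneg_left (h5.trans h3) (by positivity)
      _ = y * ((2 : ℝ) ^ (5 / 4 * (k : ℝ)) * m 0) := by ring
      _ ≤ _ := mul_le_mul_of_nonneg_left h2 hy0.le
  -- the three parts
  have hS : ∑ h ∈ Ico (2 ^ k) (2 ^ (k + 1)), gf {Z | Z ∈ Brd h ∧ (Z.length : ℝ) < y * m k} ≤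
      ENNReal.ofReal (c / 4 * Ub k) := by
    refine (ENNReal.sum_le_tsum _).trans ((hs k y hy0 hy1 hym).trans (ENNReal.ofReal_le_ofReal ?_))
    exact mul_le_mul_of_nonneg_right hy hU.le
  have hL : ∑ h ∈ Ico (2 ^ k) (2 ^ (k + 1)), gf {Z | Z ∈ Brd h ∧ A * m k ≤ (Z.length : ℝ)} ≤
      ENNReal.ofReal (c / 4 * Ub k) := by
    have h2 : ∑ h ∈ Ico (2 ^ k) (2 ^ (k + 1)), gf {Z | Z ∈ Brd h ∧ A * m k ≤ (Z.length : ℝ)} ≤
        NTm.TL (2 ^ (k + 1)) (A * m k) := by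
      unfold NTm.TL
      refine Finset.sum_le_sum_of_subset fun h hh => ?_
      rw [Finset.mem_Ico] at hh
      rw [Finset.mem_range]
      omega
    refine h2.trans ((hmk (k + 1) (A * m k) (by positivity)).trans (ENNReal.ofReal_le_ofReal ?_))
    have h3 : CM * m (k + 1) / (A * m k) ≤ CM * Cm / A := by
      rw [div_le_div_iff₀ (by positivity) (by positivity)]
      have h4 := mul_le_mul_of_nonneg_left (hu k) (show 0 ≤ CM * A by positivity)
      calc CM * m (k + 1) * A = CM * A * m (k + 1) := by ring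
        _ ≤ CM * A * (Cm * m k) := h4
        _ = _ := by ring
    have h4 : Ub (k + 1) ≤ 2 * Ub k := Ub_succ k
    calc CM * m (k + 1) / (A * m k) * Ub (k + 1) ≤ CM * Cm / A * (2 * Ub k) :=
          mul_le_mul h3 h4 (Ub_pos _).le (by positivity)
      _ = CM * Cm * 2 / A * Ub k := by ring
      _ ≤ _ := mul_le_mul_of_nonneg_right hA2 hU.le
  have hsplit : ∑ h ∈ Ico (2 ^ k) (2 ^ (k + 1)), gf {Z | Z ∈ Brd h ∧ |latE Z| ≤ (h : ℤ)} ≤
      ∑ h ∈ Ico (2 ^ k) (2 ^ (k + 1)),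
        gf {Z | Z ∈ Brd h ∧ |latE Z| ≤ (h : ℤ) ∧ y * m k ≤ (Z.length : ℝ) ∧ (Z.length : ℝ) ≤ A * m k} +
      (∑ h ∈ Ico (2 ^ k) (2 ^ (k + 1)), gf {Z | Z ∈ Brd h ∧ (Z.length : ℝ) < y * m k} +
        ∑ h ∈ Ico (2 ^ k) (2 ^ (k + 1)), gf {Z | Z ∈ Brd h ∧ A * m k ≤ (Z.length : ℝ)}) := by
    rw [← Finset.sum_add_distrib, ← Finset.sum_add_distrib]
    refine Finset.sum_le_sum fun h _ => ?_
    refine (gf_mono ?_).trans ((gf_union_le _ _).trans (add_le_add le_rfl (gf_union_le _ _)))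
    rintro Z ⟨h2, h3⟩
    rcases lt_or_ge (Z.length : ℝ) (y * m k) with h4 | h4
    · exact Or.inr (Or.inl ⟨h2, h4⟩)
    · rcases le_or_gt (Z.length : ℝ) (A * m k) with h5 | h5
      · exact Or.inl ⟨h2, h3, h4, h5⟩
      · exact Or.inr (Or.inr ⟨h2, h5.le⟩)
  have hfin := (hb k hkk0).trans (hsplit.trans (add_le_add le_rfl (add_le_add hS hL)))
  rw [← ENNReal.ofReal_add (by positivity) (by positivity)] at hfin
  have e1 : c * Ub k = c / 2 * Ub k + (c / 4 * Ub k + c / 4 * Ub k) := by ring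
  rw [e1, ENNReal.ofReal_add (by positivity) (by positivity)] at hfin
  exact (ENNReal.add_le_add_iff_right ENNReal.ofReal_ne_top).1 hfin

/-- **row L, no hypothesis** -/
theorem longB_M : LongB (fun k => PW.mZ (2 ^ k)) := by
  obtain ⟨a1, h1, h2, hI⟩ := indB2_M
  exact longB_of mlow_M mup_M c1_M (by linarith) hI markov_M

end JNT

end HexObs
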