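import Pool.Agent.EN.LatC
import Pool.Agent.NTA.TailDefs

/-!
JNT: displacement and number of letters together. Literal statements of the rows.

The words of a set A are tested with phase exp (i θ |t|) against bounded functions φ of the displacement. NB θ A ρ means
that the sum over the displacements of the absolute values of the characteristic functions of the length is at most ρ.
-/

set_option autoImplicit false

namespace HexObs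

namespace JNT

open Finset TS

open scoped ENNReal

/-- the displacement of a word -/
def en (t : List Bool) : Pt := vx oo up t t.length

/-- weight and phase -/
noncomputable def wp (θ : ℝ) (t : List Bool) : ℂ :=
  (((wE t).toReal : ℝ) : ℂ) * Complex.exp (((θ * t.length : ℝ) : ℂ) * Complex.I)

/-- the words of A against a function of the displacement -/
noncomputable def Fo (θ : ℝ) (A : Set (List Bool)) (φ : Pt → ℂ) : ℂ := ∑' t : A, wp θ t.1 * φ (en t.1)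

/-- the norm -/
def NB (θ : ℝ) (A : Set (List Bool)) (ρ : ℝ) : Prop := ∀ φ : Pt → ℂ, (∀ z, ‖φ z‖ ≤ 1) → ‖Fo θ A φ‖ ≤ ρ

/-- row S: short bridges with a given end, lower bound at every end -/
def ShortB (m : ℕ → ℝ) : Prop := ∀ a : ℝ, 0 < a → ∃ (c : ℝ) (k0 : ℕ), 0 < c ∧ ∀ (k h : ℕ) (x : ℤ), k0 ≤ k →
  2 ^ k ≤ h → h ≤ 2 ^ (k + 1) → Even (x - h) → |x| ≤ h →
    ENNReal.ofReal (c * (uu h / h)) ≤ gf {Z | Z ∈ Brd h ∧ latE Z = x ∧ (Z.length : ℝ) ≤ a * m k}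

/-- row L: long bridges with an end in the box -/
def LongB (m : ℕ → ℝ) : Prop := ∃ (y A c : ℝ) (k0 : ℕ), 0 < y ∧ y ≤ A ∧ 0 < c ∧ ∀ k : ℕ, k0 ≤ k →
  ENNReal.ofReal (c * Ub k) ≤ ∑ h ∈ Ico (2 ^ k) (2 ^ (k + 1)),
    gf {Z | Z ∈ Brd h ∧ |latE Z| ≤ (h : ℤ) ∧ y * m k ≤ (Z.length : ℝ) ∧ (Z.length : ℝ) ≤ A * m k}

/-- row N: the loss at the scale of the phase -/
def NdB (m : ℕ → ℝ) : Prop := ∃ (C k0 : ℕ) (c : ℝ), 0 < c ∧ ∀ (k : ℕ) (θ : ℝ), k0 ≤ k → 1 ≤ |θ| * m (k + C + 1) →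
  |θ| * m (k + C) ≤ 1 → ∀ φ : ℕ → Pt → ℂ, (∀ h z, ‖φ h z‖ ≤ 1) →
    ∑ h ∈ Ico (2 ^ k) (2 ^ (k + 1)), ‖Fo θ (Brd h) (φ h)‖ ≤ ∑ h ∈ Ico (2 ^ k) (2 ^ (k + 1)), uu h - c * Ub k

/-- row K: the blocks contract -/
def ConB (m : ℕ → ℝ) : Prop := ∃ (C k0 : ℕ) (ρ : ℝ), ρ < 1 ∧ ∀ (k : ℕ) (θ : ℝ), k0 ≤ k → 1 ≤ |θ| * m (k + C + 1) →
  |θ| * m (k + C) ≤ 1 → NB θ (EN.LB.Bk (2 ^ (k + 2))) ρ

/-- row T: from the blocks to the bridges -/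
def RecB : Prop := ∀ ρ : ℝ, 0 ≤ ρ → ρ < 1 → ∃ C : ℝ, 0 < C ∧ ∀ (N : ℕ) (θ : ℝ), NB θ (EN.LB.Bk N) ρ → ∀ (n : ℕ), 1 ≤ n →
  ∀ S : Finset ℕ, (∀ h ∈ S, n ≤ h) → ∀ φ : Pt → ℂ, (∀ z, ‖φ z‖ ≤ 1) →
    ‖∑ h ∈ S, Fo θ (Brd h) φ‖ ≤ C * (UU N ^ 2 / UU n)

/-- row O: the phase is of order one -/
def SmB : Prop := ∀ θ0 : ℝ, 0 < θ0 → ∃ ρ : ℝ, 0 ≤ ρ ∧ ρ < 1 ∧ ∀ θ : ℝ, θ0 ≤ |θ| → |θ| ≤ Real.pi / 2 → NB θ (EN.LB.Bk 0) ρ

open scoped Classical in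
/-- pairs of bridges of height at least n with a given displacement and a given number of letters -/
noncomputable def pairs (n : ℕ) (v : Pt) (b : ℕ) : ℝ≥0∞ := ∑' Z : List Bool, ∑' Z' : List Bool,
  (if Z ∈ HB n ∧ Z' ∈ HB n ∧ en Z + en Z' = v ∧ Z.length + Z'.length = b then wE Z * wE Z' else 0)

/-- row J: the joint bound -/
def JoB (m : ℕ → ℝ) : Prop := ∃ C : ℝ, 0 < C ∧ ∀ (k : ℕ) (v : Pt) (b : ℕ),
  pairs (2 ^ k) v b ≤ ENNReal.ofReal (C * (Ub k ^ 2 / (4 ^ k * m k)))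

end JNT

end HexObs
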