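import Pool.Agent.JNT.ShortP
import Pool.Agent.JNT.Defs

/-!
JNT, row S: short bridges with a given end.
-/

set_option autoImplicit false

namespace HexObs

namespace JNT

open Finset TS

open scoped ENNReal

/-- **row S** -/
theorem shortB_M : ShortB (fun k => PW.mZ (2 ^ k)) := by
  obtain ⟨C, hC, hg⟩ := PW.mZ_growth (a := 2) (by
    have h1 : Real.sqrt 3 < 9 / 5 := by
      rw [Real.sqrt_lt' (by norm_num)]
      norm_num
    linarith)
  intro a ha
  obtain ⟨c, t0, hc, h1⟩ := shP (a := a / (4 * C)) (R := 1) (by positivity) one_pos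
  refine ⟨c, t0, hc, fun k h x hk hh1 hh2 hp hx => ?_⟩
  have h2k : t0 ≤ h := by
    have := @Nat.lt_two_pow_self k
    omega
  refine (h1 h x h2k hp ?_).trans (gf_mono ?_)
  · rw [one_mul]
    exact_mod_cast hx
  · rintro b ⟨⟨hb1, hb2⟩, hb3⟩
    refine ⟨hb1, hb2, ?_⟩
    have e0 : 1 ≤ 2 ^ k := Nat.one_le_two_pow
    have e1 : PW.mZ h ≤ 4 * C * PW.mZ (2 ^ k) := by
      refine (hg (2 ^ k) h e0 hh1).trans ?_
      have e2 : ((h : ℝ) / ((2 ^ k : ℕ) : ℝ)) ≤ 2 := by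
        rw [div_le_iff₀ (by positivity)]
        have : h ≤ 2 * 2 ^ k := by
          rw [pow_succ] at hh2
          omega
        exact_mod_cast this
      have e3 : ((h : ℝ) / ((2 ^ k : ℕ) : ℝ)) ^ (2 : ℝ) ≤ 4 := by
        calc ((h : ℝ) / ((2 ^ k : ℕ) : ℝ)) ^ (2 : ℝ) ≤ 2 ^ (2 : ℝ) := Real.rpow_le_rpow (by positivity) e2 (by norm_num)
          _ = 4 := by norm_num
      have e4 := PW.mZ_nonneg (2 ^ k)
      have hC0 : 0 ≤ C := by linarith
      calc C * ((h : ℝ) / ((2 ^ k : ℕ) : ℝ)) ^ (2 : ℝ) * PW.mZ (2 ^ k) ≤ C * 4 * PW.mZ (2 ^ k) := by gcongr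
        _ = _ := by ring
    have hb3' : (b.length : ℝ) ≤ a / (4 * C) * PW.mZ h := hb3
    have hC0 : 0 < C := by linarith
    calc (b.length : ℝ) ≤ a / (4 * C) * PW.mZ h := hb3'
      _ ≤ a / (4 * C) * (4 * C * PW.mZ (2 ^ k)) := by gcongr
      _ = a * (fun k => PW.mZ (2 ^ k)) k := by
          show a / (4 * C) * (4 * C * PW.mZ (2 ^ k)) = a * PW.mZ (2 ^ k)
          field_simp

end JNT

end HexObs
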