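import Pool.Agent.JNT.Contr
import Pool.Agent.JNT.Short
import Pool.Agent.JNT.Long

/-!
JNT: rows N and K for the scale m k = mZ (2 ^ k), no hypothesis.
-/

set_option autoImplicit false

namespace HexObs

namespace JNT

theorem ndB_M : NdB (fun k => PW.mZ (2 ^ k)) := ndB_of NTA.mlow_M NTA.mup_M shortB_M longB_M

theorem conB_M : ConB (fun k => PW.mZ (2 ^ k)) := conB_of ndB_M

end JNT

end HexObs
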