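import Pool.Agent.JNT.Defs

/-!
JNT, row O (helper14): two irreducible bridges with the same end and with 10 and 12 letters; the norm of the blocks of
N = 0 is less than one when the phase is of order one.
-/

set_option autoImplicit false

namespace HexObs

namespace JNT

open Finset TS

open scoped ENNReal

/-! ### two words -/

/-- ten letters -/
def wa : List Bool := [true, false, true, true, true, false, false, false, false, true]

/-- twelve letters -/
def wb : List Bool := [false, true, true, true, true, false, false, true, false, false, false, true]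

lemma wa_Brd : wa ∈ Brd 2 := by
  rw [mem_Brd]
  refine ⟨?_, ?_, by decide, by decide⟩
  · intro i h1 h2
    have : i ≤ 10 := h2
    interval_cases i <;> decide
  · intro i k h1 h2
    have : k ≤ 10 := h2
    interval_cases k <;> interval_cases i <;> decide

lemma wb_Brd : wb ∈ Brd 2 := by
  rw [mem_Brd]
  refine ⟨?_, ?_, by decide, by decide⟩
  · intro i h1 h2
    have : i ≤ 12 := h2
    interval_cases i <;> decide
  · intro i k h1 h2
    have : k ≤ 12 := h2
    interval_cases k <;> interval_cases i <;> decide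

/-- a bridge of height two that is not the sum of two bridges of height one -/
lemma irr_two {t : List Bool} (ht : t ∈ Brd 2) (h0 : t ≠ [])
    (h : ∀ i, 1 ≤ i → i < t.length → lev t i = 3 → (∃ j, i < j ∧ j ≤ t.length ∧ lev t j ≤ 3) ∨
      ∃ j, 1 ≤ j ∧ j < i ∧ 3 < lev t j) : t ∈ Irr 2 := by
  refine ⟨ht, h0, ?_⟩
  intro a b s u hs hu he
  by_contra hc
  push Not at hc
  have h1 : 1 ≤ a := by
    rcases Nat.eq_zero_or_pos a with h | h
    · subst h; rw [Brd_zero] at hs; exact absurd hs hc.1
    · exact h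
  have h2 : 1 ≤ b := by
    rcases Nat.eq_zero_or_pos b with h | h
    · subst h; rw [Brd_zero] at hu; exact absurd hu hc.2
    · exact h
  have h3 := Brd_append hs hu
  rw [← he] at h3
  have h4 := Brd_height ht h3
  have ha : a = 1 := by omega
  have hb : b = 1 := by omega
  subst ha hb
  have hs2 := mem_Brd.1 hs
  have hu2 := mem_Brd.1 hu
  have hsl : 1 ≤ s.length := List.length_pos_iff.2 hc.1
  have hul : 1 ≤ u.length := List.length_pos_iff.2 hc.2
  have hl : t.length = s.length + u.length := by rw [he, List.length_append]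
  have e1 : lev t s.length = 3 := by
    rw [he, lev_append (by omega), hs2.2.2.2]
    norm_num
  rcases h s.length hsl (by omega) e1 with ⟨j, j1, j2, j3⟩ | ⟨j, j1, j2, j3⟩
  swap
  · rw [he, lev_append (by omega)] at j3
    have := (hs2.1 j j1 (by omega)).2
    push_cast at this
    omega
  obtain ⟨i, rfl⟩ : ∃ i, j = s.length + i := ⟨j - s.length, by omega⟩
  rw [he, lev_cat hs2.2.2.1, hs2.2.2.2] at j3
  have := (hu2.1 i (by omega) (by omega)).1
  push_cast at j3
  omega

lemma wa_Irr : wa ∈ Irr 2 := by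
  refine irr_two wa_Brd (by decide) ?_
  intro i h1 h2 h3
  have : i < 10 := h2
  interval_cases i
  all_goals first
    | exact absurd h3 (by decide)
    | exact Or.inl ⟨7, by decide, by decide, by decide⟩
    | exact Or.inr ⟨4, by decide, by decide, by decide⟩

lemma wb_Irr : wb ∈ Irr 2 := by
  refine irr_two wb_Brd (by decide) ?_
  intro i h1 h2 h3
  have : i < 12 := h2
  interval_cases i
  all_goals first
    | exact absurd h3 (by decide)
    | exact Or.inl ⟨7, by decide, by decide, by decide⟩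
    | exact Or.inr ⟨4, by decide, by decide, by decide⟩

lemma Irr_Bk {r : ℕ} (hr : 1 ≤ r) {t : List Bool} (ht : t ∈ Irr r) : t ∈ EN.LB.Bk 0 :=
  ⟨0, r, [], t, nil_mem_Brd, ht, le_rfl, by omega, rfl⟩

lemma en_wab : en wa = en wb := by decide

/-! ### the sum with two terms taken out -/

lemma norm_two {A : Set (List Bool)} (hA : gf A ≤ 1) {s t : List Bool} (hs : s ∈ A) (ht : t ∈ A) (hst : s ≠ t)
    {f : List Bool → ℂ} (hf : ∀ u, ‖f u‖ ≤ xc ^ u.length) {x : ℝ} (hx : ‖f s + f t‖ ≤ x) :
    ‖∑' u : A, f u‖ ≤ 1 - (xc ^ s.length + xc ^ t.length) + x := by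
  classical
  have hA' : gf A ≠ ∞ := ne_top_of_le_ne_top ENNReal.one_ne_top hA
  have hw : Summable fun u : A => xc ^ u.1.length := by
    have := ENNReal.summable_toReal hA'
    simpa only [wE_toReal] using this
  have hW : ∑' u : A, xc ^ u.1.length ≤ 1 := by
    have h1 : (gf A).toReal = ∑' u : A, xc ^ u.1.length := by
      unfold gf
      rw [ENNReal.tsum_toReal_eq fun u => wE_ne_top _]
      simp only [wE_toReal]
    rw [← h1]
    exact ENNReal.toReal_le_of_le_ofReal zero_le_one (by simpa using hA)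
  have hf' : Summable fun u : A => f u := Summable.of_norm_bounded hw fun u => hf u
  set S : Finset A := {⟨s, hs⟩, ⟨t, ht⟩} with hS
  have hne : (⟨s, hs⟩ : A) ≠ ⟨t, ht⟩ := fun h => hst (congrArg Subtype.val h)
  have h1 := hf'.sum_add_tsum_compl (s := S)
  have h2 := hw.sum_add_tsum_compl (s := S)
  rw [hS, Finset.sum_pair hne] at h1 h2
  have h3 : ‖∑' u : ↑((({⟨s, hs⟩, ⟨t, ht⟩} : Finset A) : Set A)ᶜ), f u.1.1‖ ≤
      ∑' u : ↑((({⟨s, hs⟩, ⟨t, ht⟩} : Finset A) : Set A)ᶜ), xc ^ u.1.1.length :=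
    tsum_of_norm_bounded (hw.subtype _).hasSum fun u => hf u.1.1
  rw [← h1]
  refine (norm_add_le _ _).trans ?_
  linarith

theorem smB : SmB := by
  intro θ0 hθ0
  by_cases hp : Real.pi / 2 < θ0
  · exact ⟨0, le_rfl, one_pos, fun θ h1 h2 => absurd (h1.trans h2) (not_le.2 hp)⟩
  push Not at hp
  have hx := xc_pos
  have hc0 : Real.cos θ0 < 1 := by
    have h := Real.cos_lt_cos_of_nonneg_of_le_pi_div_two (x := 0) (y := θ0) le_rfl hp hθ0
    rwa [Real.cos_zero] at h
  have hc1 : 0 ≤ Real.cos θ0 := Real.cos_nonneg_of_neg_pi_div_two_le_of_le (by linarith) hp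
  have hwa : wa.length = 10 := rfl
  have hwb : wb.length = 12 := rfl
  have hab : wa ≠ wb := by decide
  have h12 : xc ^ 12 ≤ xc ^ 10 := pow_le_pow_of_le_one hx.le SDN.xc_bounds.2 (by norm_num)
  have hsum : xc ^ 10 + xc ^ 12 ≤ 1 := by
    have h := norm_two (f := fun _ => 0) (EN.LB.gf_Bk 0) (Irr_Bk (by norm_num) wa_Irr) (Irr_Bk (by norm_num) wb_Irr) hab
      (fun u => by simpa using (pow_pos hx u.length).le) (x := 0) (by simp)
    have := (norm_nonneg _).trans h
    rw [hwa, hwb] at this
    linarith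
  refine ⟨1 - 2 * xc ^ 12 * (1 - Real.cos θ0), ?_, ?_, ?_⟩
  · nlinarith [pow_pos hx 12]
  · have := pow_pos hx 12
    nlinarith
  intro θ h1 h2 φ hφ
  have hcos : |Real.cos θ| ≤ Real.cos θ0 := by
    rw [← Real.cos_abs θ, abs_of_nonneg (Real.cos_nonneg_of_neg_pi_div_two_le_of_le (by linarith [abs_nonneg θ]) h2)]
    exact Real.cos_le_cos_of_nonneg_of_le_pi hθ0.le (by linarith [Real.pi_pos]) h1
  have hf : ∀ u : List Bool, ‖wp θ u * φ (en u)‖ ≤ xc ^ u.length := by
    intro u
    rw [norm_mul]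
    have h3 : ‖wp θ u‖ = xc ^ u.length := by
      unfold wp
      rw [norm_mul, Complex.norm_exp_ofReal_mul_I, mul_one, wE_toReal, Complex.norm_real, Real.norm_of_nonneg (by positivity)]
    rw [h3]
    exact mul_le_of_le_one_right (by positivity) (hφ _)
  have hx2 : ‖wp θ wa * φ (en wa) + wp θ wb * φ (en wb)‖ ≤ xc ^ 10 - xc ^ 12 + 2 * xc ^ 12 * Real.cos θ0 := by
    have e1 : wp θ wa * φ (en wa) + wp θ wb * φ (en wb) = Complex.exp (((θ * 10 : ℝ) : ℂ) * Complex.I) *
        (((xc ^ 10 - xc ^ 12 : ℝ) : ℂ) + ((2 * xc ^ 12 * Real.cos θ : ℝ) : ℂ) * Complex.exp ((θ : ℂ) * Complex.I)) *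
        φ (en wa) := by
      unfold wp
      rw [← en_wab, wE_toReal, wE_toReal, hwa, hwb, ← add_mul]
      congr 1
      have e2 : Complex.exp (((θ * (12 : ℕ) : ℝ) : ℂ) * Complex.I) =
          Complex.exp (((θ * 10 : ℝ) : ℂ) * Complex.I) * Complex.exp ((θ : ℂ) * Complex.I) ^ 2 := by
        rw [← Complex.exp_nat_mul, ← Complex.exp_add]
        congr 1
        push_cast
        ring
      have e3 : Complex.exp (((θ * (10 : ℕ) : ℝ) : ℂ) * Complex.I) = Complex.exp (((θ * 10 : ℝ) : ℂ) * Complex.I) := by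
        push_cast
        rfl
      have e4 : Complex.exp ((θ : ℂ) * Complex.I) ^ 2 = 2 * Complex.cos θ * Complex.exp ((θ : ℂ) * Complex.I) - 1 := by
        rw [Complex.exp_mul_I]
        have := Complex.cos_sq_add_sin_sq (θ : ℂ)
        linear_combination (-1 : ℂ) * this + Complex.sin θ ^ 2 * Complex.I_sq
      rw [e2, e3, e4]
      push_cast
      ring
    rw [e1, norm_mul, norm_mul, Complex.norm_exp_ofReal_mul_I, one_mul]
    refine (mul_le_of_le_one_right (norm_nonneg _) (hφ _)).trans ((norm_add_le _ _).trans ?_)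
    rw [norm_mul, Complex.norm_exp_ofReal_mul_I, mul_one, Complex.norm_real, Complex.norm_real,
      Real.norm_of_nonneg (by linarith), Real.norm_eq_abs, abs_mul, abs_of_nonneg (by positivity)]
    have h3 := mul_le_mul_of_nonneg_left hcos (show 0 ≤ 2 * xc ^ 12 by positivity)
    linarith
  have h3 := norm_two (EN.LB.gf_Bk 0) (Irr_Bk (by norm_num) wa_Irr) (Irr_Bk (by norm_num) wb_Irr) hab hf hx2
  unfold Fo
  refine h3.trans ?_
  rw [hwa, hwb]
  linarith

end JNT

end HexObs
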