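import Pool.Agent.JNT.JoB
import Pool.Agent.JNT.ContrM
import Pool.Agent.JNT.SmallO

/-!
JNT, row J for the scale m k = mZ (2 ^ k), no hypothesis.
-/

set_option autoImplicit false

namespace HexObs

namespace JNT

theorem grB_M : GrB (fun k => PW.mZ (2 ^ k)) := by
  obtain ⟨a, C, ha, hC, h⟩ := PW.mZ_growth_32
  refine ⟨a, C, ha, hC, fun k j => ?_⟩
  have h1 := h (2 ^ k) (2 ^ (k + j)) Nat.one_le_two_pow (Nat.pow_le_pow_right (by norm_num) (by omega))
  have h2 : (((2 ^ (k + j) : ℕ) : ℝ) / ((2 ^ k : ℕ) : ℝ)) ^ a = (2 : ℝ) ^ (a * (j : ℝ)) := by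
    push_cast
    rw [pow_add, mul_div_cancel_left₀ _ (by positivity), ← Real.rpow_natCast 2 j, ← Real.rpow_mul (by norm_num), mul_comm]
  rw [h2] at h1
  exact h1

theorem scB_M : ScB (fun k => PW.mZ (2 ^ k)) := scB_of NTA.mlow_M conB_M smB

theorem fvB_M : FvB (fun k => PW.mZ (2 ^ k)) := fvB_of scB_M

theorem termB_M : TermB (fun k => PW.mZ (2 ^ k)) := JoT.termB_of NTA.mlow_M grB_M

/-- **the joint bound of the number of letters and the displacement of two bridges, no hypothesis** -/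
theorem joB_M : JoB (fun k => PW.mZ (2 ^ k)) := joB_of NTA.mlow_M NTA.mup_M grB_M fvB_M

end JNT

end HexObs
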