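import Pool.Agent.JNT.LowDefs2

/-!
JNT, lower side close to the starting point: literal statements (doc JNT/LOC2_70).
-/

set_option autoImplicit false

namespace HexObs

namespace JNT

open Finset TS SDN NTW NTA PtC RP

open scoped ENNReal

/-- X1: half plane words without a cut, few letters, the parity given, all vertices in a small box -/
def NcB (m : ℕ → ℝ) : Prop := ∀ e : ℝ, 0 < e → ∃ (c : ℝ) (k0 : ℕ), 0 < c ∧ ∀ k p : ℕ, k0 ≤ k → p < 2 →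
  ENNReal.ofReal c * Xb k ≤ gf {A | A ∈ BAR.HiN A.length ∧ A.length % 2 = p ∧ (A.length : ℝ) ≤ e * m k ∧
    ∀ i, i ≤ A.length → ∀ dir : Bool, ((|lvl dir (vx oo up A i)| : ℤ) : ℝ) ≤ e * 2 ^ k}

/-- X2: half plane words without a cut, with many letters (a window), the parity given, the end in a small box -/
def NcH (m : ℕ → ℝ) : Prop := ∀ e A : ℝ, 0 < e → 1 / 2 ≤ A → ∃ (c : ℝ) (k0 : ℕ), 0 < c ∧ ∀ k b p : ℕ, k0 ≤ k → p < 2 →
  1 / 2 * m k ≤ b → (b : ℝ) ≤ A * m k → ENNReal.ofReal c * Xb k ≤ gf {F | F ∈ BAR.HiN F.length ∧ F.length % 2 = p ∧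
    b ≤ F.length ∧ (F.length : ℝ) ≤ b + e * m k ∧ ∀ dir : Bool, ((|lvl dir (en F)| : ℤ) : ℝ) ≤ e * 2 ^ k}

/-- X3: the pointwise lower bound, every point at a distance of the order of the scale -/
def LocE (m : ℕ → ℝ) : Prop := ∀ e K : ℝ, 0 < e → e ≤ K → ∃ (c : ℝ) (k0 : ℕ), 0 < c ∧
  ∀ (k n : ℕ) (x : Pt), k0 ≤ k → m k ≤ n → n < m (k + 1) → e * 2 ^ k ≤ ((ip x up : ℤ) : ℝ) →
    ((ip x up : ℤ) : ℝ) ≤ K * 2 ^ k → |cross up x| ≤ ip x up →
    (if n % 2 = 0 then ip x up % 3 = 0 else ip x up % 3 = 2) →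
      ENNReal.ofReal (c / 4 ^ k) * nuX m k ≤
        gf {t | t ∈ SawN n ∧ (vx oo up t n = x ∨ vx oo up t n = r3 x ∨ vx oo up t n = r3 (r3 x))}

end JNT

end HexObs
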