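import Pool.Agent.JNT.LowDefs
import Pool.Agent.JNT.Long
import Pool.Agent.RSWP.OneMark

/-!
JNT, lower side, row E: bridges with exactly b letters and the end in a box, for every even b from a m k to A m k.

* `mark`: the one-mark lemma for a word cut into two pieces, the number of letters of the whole word given;
* `step`: if one piece of the scale q has all the numbers of letters of a window around b0 and p pieces those of a window
  around p b0, then p + 1 pieces those of a larger window around (p + 1) b0;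
* `base`: the first window, from row L (a good number of letters) and row V (continuity in the number of letters);
* `exLen_of`: the windows of p pieces overlap for large p.
-/

set_option autoImplicit false

namespace HexObs

namespace JNT

open Finset TS SDN NTW NTA RP

open scoped ENNReal

namespace EL

/-! ### 1. The one-mark lemma -/

/-- the words of A with i letters -/
def LL (A : Set (List Bool)) (i : ℕ) : Set (List Bool) := {t | t ∈ A ∧ t.length = i}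

/-- words of A followed by words of B -/
lemma gf_cat {A B : Set (List Bool)} (i j : ℕ) :
    gf (LL A i) * gf (LL B j) ≤ gf {Z | Z.length = i + j ∧ Z.take i ∈ A ∧ Z.drop i ∈ B} := by
  have h1 : gf (LL A i) * gf (LL B j) = ∑' p : LL A i × LL B j, wE p.1.1 * wE p.2.1 := by
    unfold gf
    rw [ENNReal.tsum_prod', ← ENNReal.tsum_mul_right]
    refine tsum_congr fun a => ?_
    exact ENNReal.tsum_mul_left.symm
  rw [h1]
  have hmem0 : ∀ a c : List Bool, a ∈ LL A i → c ∈ LL B j → a ++ c ∈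
      {Z : List Bool | Z.length = i + j ∧ Z.take i ∈ A ∧ Z.drop i ∈ B} := by
    rintro a c ⟨ha, ha2⟩ ⟨hc, hc2⟩
    refine ⟨by rw [List.length_append, ha2, hc2], ?_, ?_⟩
    · rw [← ha2, List.take_left]
      exact ha
    · rw [← ha2, List.drop_left]
      exact hc
  have hmem : ∀ p : LL A i × LL B j, p.1.1 ++ p.2.1 ∈
      {Z : List Bool | Z.length = i + j ∧ Z.take i ∈ A ∧ Z.drop i ∈ B} := fun p => hmem0 _ _ p.1.2 p.2.2
  let f : LL A i × LL B j → {Z : List Bool | Z.length = i + j ∧ Z.take i ∈ A ∧ Z.drop i ∈ B} := fun p =>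
    ⟨p.1.1 ++ p.2.1, hmem p⟩
  have hf : Function.Injective f := by
    rintro ⟨⟨a, ha, ha2⟩, ⟨c, hc, hc2⟩⟩ ⟨⟨a', ha', ha2'⟩, ⟨c', hc', hc2'⟩⟩ e
    have e1 : a ++ c = a' ++ c' := congrArg Subtype.val e
    obtain ⟨e2, e3⟩ := List.append_inj e1 (by rw [ha2, ha2'])
    subst e2
    subst e3
    rfl
  refine le_trans (le_of_eq ?_) (ENNReal.tsum_comp_le_tsum_of_injective hf (fun Z => wE Z.1))
  refine tsum_congr fun p => ?_
  exact (wE_append _ _).symm

/-- three parts -/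
lemma gf_tri {A B P : Set (List Bool)} (hP : ∀ a p c : List Bool, a ∈ A → a ++ p ∈ A → c ∈ B → p ++ c ∈ B → p ∈ P)
    {b i j : ℕ} (hij : i ≤ j) (hj : j ≤ b) :
    gf {Z : List Bool | Z.length = b ∧ (Z.take i ∈ A ∧ Z.drop i ∈ B) ∧ (Z.take j ∈ A ∧ Z.drop j ∈ B)} ≤
      gf (LL A i) * (gf (LL P (j - i)) * gf (LL B (b - j))) := by
  have h1 : gf (LL A i) * (gf (LL P (j - i)) * gf (LL B (b - j))) =
      ∑' p : LL A i × (LL P (j - i) × LL B (b - j)), wE p.1.1 * (wE p.2.1.1 * wE p.2.2.1) := by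
    unfold gf
    rw [ENNReal.tsum_prod', ← ENNReal.tsum_mul_right]
    refine tsum_congr fun a => ?_
    refine (congrArg (fun x => wE a.1 * x) ?_).trans ENNReal.tsum_mul_left.symm
    rw [ENNReal.tsum_prod', ← ENNReal.tsum_mul_right]
    refine tsum_congr fun p => ?_
    exact ENNReal.tsum_mul_left.symm
  rw [h1]
  have hsp : ∀ Z : List Bool, Z.length = b → Z.take i ++ ((Z.drop i).take (j - i) ++ Z.drop j) = Z := by
    intro Z hZ
    have e1 : (Z.drop i).take (j - i) ++ Z.drop j = Z.drop i := by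
      have h2 := List.take_append_drop (j - i) (Z.drop i)
      rw [List.drop_drop] at h2
      have h3 : i + (j - i) = j := by omega
      rw [h3] at h2
      exact h2
    rw [e1, List.take_append_drop]
  have hmem : ∀ Z : {Z : List Bool | Z.length = b ∧ (Z.take i ∈ A ∧ Z.drop i ∈ B) ∧ (Z.take j ∈ A ∧ Z.drop j ∈ B)},
      Z.1.take i ∈ LL A i ∧ (Z.1.drop i).take (j - i) ∈ LL P (j - i) ∧ Z.1.drop j ∈ LL B (b - j) := by
    rintro ⟨Z, hb, ⟨h2, h3⟩, h4, h5⟩
    simp only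
    have e1 : (Z.drop i).take (j - i) ++ Z.drop j = Z.drop i := by
      have h6 := List.take_append_drop (j - i) (Z.drop i)
      rw [List.drop_drop] at h6
      have h7 : i + (j - i) = j := by omega
      rw [h7] at h6
      exact h6
    have e2 : Z.take i ++ (Z.drop i).take (j - i) = Z.take j := by
      have h6 := List.take_add (l := Z) (i := i) (j := j - i)
      have h7 : i + (j - i) = j := by omega
      rw [h7] at h6
      exact h6.symm
    refine ⟨⟨h2, by rw [List.length_take]; omega⟩, ⟨?_, ?_⟩, ⟨h5, by rw [List.length_drop]; omega⟩⟩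
    · exact hP (Z.take i) _ (Z.drop j) h2 (by rw [e2]; exact h4) h5 (by rw [e1]; exact h3)
    · rw [List.length_take, List.length_drop]
      omega
  let f : {Z : List Bool | Z.length = b ∧ (Z.take i ∈ A ∧ Z.drop i ∈ B) ∧ (Z.take j ∈ A ∧ Z.drop j ∈ B)} →
      LL A i × (LL P (j - i) × LL B (b - j)) := fun Z => (⟨_, (hmem Z).1⟩, (⟨_, (hmem Z).2.1⟩, ⟨_, (hmem Z).2.2⟩))
  have hf : Function.Injective f := by
    rintro ⟨Z, hZ⟩ ⟨Z', hZ'⟩ e
    have e1 : Z.take i = Z'.take i := congrArg (fun p => p.1.1) e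
    have e2 : (Z.drop i).take (j - i) = (Z'.drop i).take (j - i) := congrArg (fun p => p.2.1.1) e
    have e3 : Z.drop j = Z'.drop j := congrArg (fun p => p.2.2.1) e
    apply Subtype.ext
    show Z = Z'
    rw [← hsp Z hZ.1, ← hsp Z' hZ'.1, e1, e2, e3]
  refine le_trans (le_of_eq ?_) (ENNReal.tsum_comp_le_tsum_of_injective hf
    (fun p => wE p.1.1 * (wE p.2.1.1 * wE p.2.2.1)))
  unfold gf
  refine tsum_congr fun Z => ?_
  show wE Z.1 = wE (Z.1.take i) * (wE ((Z.1.drop i).take (j - i)) * wE (Z.1.drop j))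
  rw [← wE_append, ← wE_append, hsp Z.1 Z.2.1]

open Classical in
/-- indicator of a split -/
noncomputable def chi (A B : Set (List Bool)) (i : ℕ) (Z : List Bool) : ℝ≥0∞ :=
  if Z.take i ∈ A ∧ Z.drop i ∈ B then 1 else 0

open Classical in
/-- **one mark, number of letters** -/
theorem mark {A B P S : Set (List Bool)} {b : ℕ} (hS : ∀ a ∈ A, ∀ c ∈ B, a.length + c.length = b → a ++ c ∈ S)
    (hP : ∀ a p c : List Bool, a ∈ A → a ++ p ∈ A → c ∈ B → p ++ c ∈ B → p ∈ P) {l κ : ℝ≥0∞} (hl : l ≠ 0)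
    (hl' : l ≠ ∞) (hκ : ∀ j, gf (LL B j) ≤ κ) :
    ∑ i ∈ range (b + 1), gf (LL A i) * gf (LL B (b - i)) ≤ l * gf (LL S b) + l⁻¹ * (2 * (gf A * (gf P * κ))) := by
  have hsum : ∀ (Q : Set (List Bool)) (s : Finset ℕ), ∑ i ∈ s, gf (LL Q i) ≤ gf Q := by
    intro Q s
    rw [NTF.gf_lengths Q]
    exact ENNReal.sum_le_tsum s
  have h1 : ∑ i ∈ range (b + 1), gf (LL A i) * gf (LL B (b - i)) ≤
      ∑' Z : List Bool, ∑ i ∈ range (b + 1), chi A B i Z * (if Z.length = b then wE Z else 0) := by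
    rw [Summable.tsum_finsetSum (fun _ _ => ENNReal.summable)]
    refine Finset.sum_le_sum fun i hi => ?_
    rw [Finset.mem_range] at hi
    refine (gf_cat i (b - i)).trans (le_of_eq ?_)
    rw [gf_ind]
    refine tsum_congr fun Z => ?_
    unfold chi
    have e : i + (b - i) = b := by omega
    rw [e]
    simp only [Set.mem_ofPred_eq]
    by_cases h2 : Z.length = b
    · by_cases h3 : Z.take i ∈ A ∧ Z.drop i ∈ B
      · rw [if_pos ⟨h2, h3⟩, if_pos h3, if_pos h2, one_mul]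
      · rw [if_neg (fun h => h3 h.2), if_neg h3, zero_mul]
    · rw [if_neg (fun h => h2 h.1), if_neg h2, mul_zero]
  refine h1.trans ?_
  have h2 : ∀ Z : List Bool, ∑ i ∈ range (b + 1), chi A B i Z * (if Z.length = b then wE Z else 0) ≤
      l * (if Z ∈ LL S b then wE Z else 0) + l⁻¹ * (2 * ∑ i ∈ range (b + 1),
        ∑ j ∈ (range (b + 1)).filter (fun j => i ≤ j), chi A B i Z * chi A B j Z * (if Z.length = b then wE Z else 0)) := by
    intro Z
    by_cases hZ : Z.length = b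
    swap
    · simp only [if_neg hZ, mul_zero, Finset.sum_const_zero]
      exact zero_le
    simp only [if_pos hZ]
    have h3 := OneMark.point (range (b + 1)) (fun i => chi A B i Z) (fun i => by
      unfold chi
      split_ifs
      · exact Or.inr rfl
      · exact Or.inl rfl) l (if Z ∈ LL S b then 1 else 0) hl hl' (fun i hi h => by
        have hm : Z.take i ∈ A ∧ Z.drop i ∈ B := by
          by_contra hm
          unfold chi at h
          rw [if_neg hm] at h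
          exact zero_ne_one h
        rw [Finset.mem_range] at hi
        have h4 := hS (Z.take i) hm.1 (Z.drop i) hm.2 (by rw [List.length_take, List.length_drop]; omega)
        rw [List.take_append_drop] at h4
        exact if_pos ⟨h4, hZ⟩)
    have h4 := mul_le_mul_left h3 (wE Z)
    rw [Finset.sum_mul, add_mul] at h4
    refine h4.trans (le_of_eq ?_)
    congr 1
    · rw [mul_assoc, ite_mul, one_mul, zero_mul]
    · rw [mul_assoc, mul_assoc, Finset.sum_mul]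
      congr 2
      exact Finset.sum_congr rfl fun c _ => Finset.sum_mul _ _ _
  refine (ENNReal.tsum_le_tsum h2).trans ?_
  rw [ENNReal.tsum_add, ENNReal.tsum_mul_left, ENNReal.tsum_mul_left, ENNReal.tsum_mul_left, ← gf_ind]
  gcongr
  rw [Summable.tsum_finsetSum (fun _ _ => ENNReal.summable)]
  calc ∑ i ∈ range (b + 1), ∑' Z : List Bool, ∑ j ∈ (range (b + 1)).filter (fun j => i ≤ j),
        chi A B i Z * chi A B j Z * (if Z.length = b then wE Z else 0)
      ≤ ∑ i ∈ range (b + 1), ∑ j ∈ (range (b + 1)).filter (fun j => i ≤ j), gf (LL A i) * (gf (LL P (j - i)) * κ) := by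
        refine Finset.sum_le_sum fun i hi => ?_
        rw [Summable.tsum_finsetSum (fun _ _ => ENNReal.summable)]
        refine Finset.sum_le_sum fun j hj => ?_
        obtain ⟨hj1, hj2⟩ := Finset.mem_filter.1 hj
        rw [Finset.mem_range] at hj1
        have h3 := gf_tri (b := b) hP hj2 (by omega)
        refine le_trans (le_of_eq ?_) (h3.trans ?_)
        · rw [gf_ind]
          refine tsum_congr fun Z => ?_
          unfold chi
          simp only [Set.mem_ofPred_eq]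
          by_cases a1 : Z.length = b
          · by_cases a2 : Z.take i ∈ A ∧ Z.drop i ∈ B
            · by_cases a3 : Z.take j ∈ A ∧ Z.drop j ∈ B
              · rw [if_pos a2, if_pos a3, if_pos a1, if_pos ⟨a1, a2, a3⟩, one_mul, one_mul]
              · have n3 : ¬ (Z.length = b ∧ (Z.take i ∈ A ∧ Z.drop i ∈ B) ∧ Z.take j ∈ A ∧ Z.drop j ∈ B) := fun h => a3 h.2.2
                rw [if_neg a3, if_neg n3, mul_zero, zero_mul]
            · have n3 : ¬ (Z.length = b ∧ (Z.take i ∈ A ∧ Z.drop i ∈ B) ∧ Z.take j ∈ A ∧ Z.drop j ∈ B) := fun h => a2 h.2.1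
              rw [if_neg a2, if_neg n3, zero_mul, zero_mul]
          · have n3 : ¬ (Z.length = b ∧ (Z.take i ∈ A ∧ Z.drop i ∈ B) ∧ Z.take j ∈ A ∧ Z.drop j ∈ B) := fun h => a1 h.1
            rw [if_neg a1, if_neg n3, mul_zero]
        · gcongr
          exact hκ _
    _ ≤ ∑ i ∈ range (b + 1), gf (LL A i) * (gf P * κ) := by
        refine Finset.sum_le_sum fun i _ => ?_
        rw [← Finset.mul_sum, ← Finset.sum_mul]
        gcongr
        have h3 : ∑ j ∈ (range (b + 1)).filter (fun j => i ≤ j), gf (LL P (j - i)) =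
            ∑ d ∈ ((range (b + 1)).filter (fun j => i ≤ j)).image (fun j => j - i), gf (LL P d) := by
          rw [Finset.sum_image]
          intro x hx y hy hxy
          have hx1 : i ≤ x := (Finset.mem_filter.1 hx).2
          have hy1 : i ≤ y := (Finset.mem_filter.1 hy).2
          simp only at hxy
          omega
        rw [h3]
        exact hsum P _
    _ ≤ gf A * (gf P * κ) := by
        rw [← Finset.sum_mul]
        gcongr
        exact hsum A _

/-! ### 2. The classes -/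

/-- p pieces of the scale q -/
def WW (p q : ℕ) : Set (List Bool) := {Z | Z ∈ BU ∧ p * 2 ^ q ≤ hgt Z ∧ hgt Z < p * 2 ^ (q + 1) ∧ |latE Z| ≤ (hgt Z : ℤ)}

lemma up_end {h : ℕ} {a : List Bool} (ha : a ∈ Brd h) : dx up a a.length = up := (mem_Brd.1 ha).2.2.1

lemma WW_cat {p q : ℕ} {a c : List Bool} (ha : a ∈ WW p q) (hc : c ∈ WW 1 q) : a ++ c ∈ WW (p + 1) q := by
  obtain ⟨h1, h2, h3, h4⟩ := ha
  obtain ⟨h5, h6, h7, h8⟩ := hc
  have a1 := BU_hgt h1
  have c1 := BU_hgt h5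
  have e := Brd_append a1 c1
  have e1 := hgt_eq e
  refine ⟨⟨_, e⟩, ?_, ?_, ?_⟩
  · rw [e1]
    nlinarith
  · rw [e1]
    nlinarith
  · rw [e1, latE_cat (up_end a1)]
    push_cast
    exact (abs_add_le _ _).trans (add_le_add h4 h8)

lemma hgt_pre {a p : List Bool} {h1 h2 : ℕ} (ha : a ∈ Brd h1) (hp : a ++ p ∈ Brd h2) : h1 ≤ h2 := by
  rcases Nat.eq_zero_or_pos a.length with h0 | h0
  · have e := (mem_Brd.1 ha).2.2.2
    rw [h0, lev_zero] at e
    omega
  · have h3 := ((mem_Brd.1 hp).1 a.length h0 (by rw [List.length_append]; omega)).2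
    rw [lev_append (by omega), (mem_Brd.1 ha).2.2.2] at h3
    omega

/-- the middle part -/
lemma mid {a p c : List Bool} (ha : a ∈ BU) (hap : a ++ p ∈ BU) (hc : c ∈ BU) (hpc : p ++ c ∈ BU) :
    p ∈ BU ∧ hgt p ≤ hgt (p ++ c) := by
  have h1 := BU_hgt ha
  have h2 := BU_hgt hap
  have h3 := BU_hgt hc
  have h4 := BU_hgt hpc
  obtain ⟨v, hv, e1, e2⟩ := cut_nested h1 h2 h4 h3 (hgt_pre h1 h2) (by rw [List.append_assoc])
  have e3 : p = v := List.append_cancel_left e1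
  rw [← e3] at hv
  refine ⟨⟨_, hv⟩, ?_⟩
  have h5 := hgt_eq (Brd_append hv h3)
  have h6 := hgt_eq hv
  omega

lemma BrR_le (N : ℕ) : gf (BrR 0 N) ≤ ENNReal.ofReal (UU N) := by
  refine le_trans (gf_mono ?_) (gf_BU_le _)
  rintro t ⟨m, -, h1, h2⟩
  exact ⟨m, h1, h2⟩

/-- the words of the classes -/
lemma gf_WW {p q : ℕ} (hp : 1 ≤ p) : gf (WW p q) ≤ ENNReal.ofReal (2 * p * Ub q) := by
  have h1 : WW p q ⊆ BrR 0 (p * 2 ^ (q + 1)) := by
    rintro Z ⟨h1, -, h2, -⟩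
    exact ⟨hgt Z, Nat.zero_le _, h2.le, BU_hgt h1⟩
  refine (gf_mono h1).trans ((BrR_le _).trans (ENNReal.ofReal_le_ofReal ?_))
  obtain ⟨r, rfl⟩ : ∃ r, p = r + 1 := ⟨p - 1, by omega⟩
  have h2 := UU_mul_le r (2 ^ (q + 1))
  have h3 := Ub_succ q
  have h4 : UU (2 ^ (q + 1)) = Ub (q + 1) := rfl
  rw [h4] at h2
  push_cast
  nlinarith

lemma gf_P {q : ℕ} : gf {Z | Z ∈ BU ∧ hgt Z < 2 ^ (q + 1)} ≤ ENNReal.ofReal (2 * Ub q) := by
  have h1 : {Z | Z ∈ BU ∧ hgt Z < 2 ^ (q + 1)} ⊆ BrR 0 (2 ^ (q + 1)) := by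
    rintro Z ⟨h1, h2⟩
    exact ⟨hgt Z, Nat.zero_le _, h2.le, BU_hgt h1⟩
  refine (gf_mono h1).trans ((BrR_le _).trans (ENNReal.ofReal_le_ofReal ?_))
  have h3 := Ub_succ q
  have h4 : UU (2 ^ (q + 1)) = Ub (q + 1) := rfl
  rw [h4]
  linarith

/-! ### 3. One more piece -/

lemma count_even {u v : ℝ} (hu : 0 ≤ u) (hv : 0 ≤ v) :
    ∃ J : Finset ℕ, (∀ j ∈ J, u ≤ ((2 * j : ℕ) : ℝ) ∧ ((2 * j : ℕ) : ℝ) ≤ v) ∧ (v - u) / 2 - 1 ≤ (J.card : ℝ) := by
  refine ⟨Finset.Icc ⌈u / 2⌉₊ ⌊v / 2⌋₊, ?_, ?_⟩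
  · intro j hj
    rw [Finset.mem_Icc] at hj
    have h1 : u / 2 ≤ j := (Nat.le_ceil _).trans (by exact_mod_cast hj.1)
    have h3 : (j : ℝ) ≤ v / 2 := (by exact_mod_cast hj.2 : (j : ℝ) ≤ ⌊v / 2⌋₊).trans (Nat.floor_le (by linarith))
    constructor
    · push_cast
      linarith
    · push_cast
      linarith
  · rw [Nat.card_Icc]
    have h1 : (⌊v / 2⌋₊ : ℝ) + 1 - (⌈u / 2⌉₊ : ℝ) ≤ ((⌊v / 2⌋₊ + 1 - ⌈u / 2⌉₊ : ℕ) : ℝ) := by
      have h2 : ((⌊v / 2⌋₊ + 1 : ℕ) : ℝ) ≤ ((⌊v / 2⌋₊ + 1 - ⌈u / 2⌉₊ + ⌈u / 2⌉₊ : ℕ) : ℝ) := by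
        exact_mod_cast (by omega : ⌊v / 2⌋₊ + 1 ≤ ⌊v / 2⌋₊ + 1 - ⌈u / 2⌉₊ + ⌈u / 2⌉₊)
      push_cast at h2 ⊢
      linarith
    have h2 := Nat.lt_floor_add_one (v / 2)
    have h4 := Nat.ceil_lt_add_one (show 0 ≤ u / 2 by linarith)
    linarith

/-- the last piece: one piece of the scale q with at least y M / 2 letters -/
def BB (q : ℕ) (z : ℝ) : Set (List Bool) := {c | c ∈ WW 1 q ∧ z ≤ (c.length : ℝ)}

/-- **one more piece** -/
theorem step {q p b0 : ℕ} {M K y δ c1 cp : ℝ} (hM : 0 < M) (hp1 : 1 ≤ p) (hδ : 0 < δ) (hδM : 16 ≤ δ * M)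
    (hyM : y * M ≤ b0) (hδy : δ ≤ y / 2) (hK : 0 < K)
    (hκ : ∀ ℓ : ℕ, y / 2 * M ≤ ℓ → gf (LL BU ℓ) ≤ ENNReal.ofReal (K * (Ub q / M))) (hc1 : 0 < c1)
    (h1 : ∀ ℓ : ℕ, Even ℓ → |(ℓ : ℝ) - b0| ≤ δ * M → ENNReal.ofReal (c1 * (Ub q / M)) ≤ gf (LL (WW 1 q) ℓ))
    (hcp : 0 < cp) (hp : ∀ b : ℕ, Even b → |(b : ℝ) - p * b0| ≤ (p + 1) / 4 * (δ * M) →
      ENNReal.ofReal (cp * (Ub q / M)) ≤ gf (LL (WW p q) b)) :
    ∀ b : ℕ, Even b → |(b : ℝ) - (p + 1) * b0| ≤ (p + 2) / 4 * (δ * M) →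
      ENNReal.ofReal ((δ * cp * c1 / 16) ^ 2 / (32 * p * K) * (Ub q / M)) ≤ gf (LL (WW (p + 1) q) b) := by
  intro b hb hbw
  obtain ⟨U, hU⟩ : ∃ U, U = Ub q := ⟨_, rfl⟩
  have hU0 : 0 < U := by
    rw [hU]
    exact Ub_pos q
  rw [← hU] at hκ h1 hp ⊢
  have hpR : (1 : ℝ) ≤ p := by exact_mod_cast hp1
  -- the numbers
  obtain ⟨e, he⟩ : ∃ e : ℝ, e = b - (p + 1) * b0 := ⟨_, rfl⟩
  rw [← he] at hbw
  obtain ⟨s1, hs1⟩ : ∃ s1 : ℝ, s1 = e * (3 / 2) / (p + 2) := ⟨_, rfl⟩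
  have hs1a : |s1| ≤ 3 / 8 * (δ * M) := by
    rw [hs1, abs_div, abs_mul, abs_of_pos (show (0 : ℝ) < p + 2 by linarith), abs_of_pos (show (0 : ℝ) < 3 / 2 by norm_num),
      div_le_iff₀ (by linarith)]
    nlinarith
  have hs1b : |e - s1| ≤ (p + 1 / 2) / 4 * (δ * M) := by
    have e1 : e - s1 = e * ((p + 1 / 2) / (p + 2)) := by
      rw [hs1]
      field_simp
      ring
    rw [e1, abs_mul, abs_of_nonneg (show (0 : ℝ) ≤ (p + 1 / 2) / (p + 2) by positivity)]
    have e2 := mul_le_mul_of_nonneg_right hbw (show (0 : ℝ) ≤ (p + 1 / 2) / (p + 2) by positivity)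
    refine e2.trans (le_of_eq ?_)
    field_simp
  rw [abs_le] at hs1a hs1b
  have hyd : 2 * (δ * M) ≤ b0 := by nlinarith
  obtain ⟨J, hJ, hJc⟩ := count_even (u := b0 + s1 - δ * M / 8) (v := b0 + s1 + δ * M / 8) (by linarith) (by linarith)
  have hcard : δ * M / 16 ≤ (J.card : ℝ) := by linarith
  -- the mark
  have hB0 : ∀ z : ℝ, BB q z ⊆ BU := fun z c hc => hc.1.1
  have hm := mark (A := WW p q) (B := BB q (y / 2 * M)) (P := {Z | Z ∈ BU ∧ hgt Z < 2 ^ (q + 1)}) (S := WW (p + 1) q)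
    (b := b) (fun a ha c hc _ => WW_cat ha hc.1) (fun a m c ha ham hc hmc => by
      obtain ⟨g1, g2⟩ := mid ha.1 ham.1 hc.1.1 hmc.1.1
      exact ⟨g1, by
        have g3 := hmc.1.2.2.1
        rw [one_mul] at g3
        exact lt_of_le_of_lt g2 g3⟩)
    (l := ENNReal.ofReal (16 * p * K / (δ * cp * c1 / 16) * U)) (κ := ENNReal.ofReal (K * (U / M)))
    (by
      rw [Ne, ENNReal.ofReal_eq_zero, not_le]
      positivity) ENNReal.ofReal_ne_top (fun j => by
      by_cases hj : y / 2 * M ≤ j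
      · have g1 : LL (BB q (y / 2 * M)) j ⊆ LL BU j := fun Z hZ => ⟨hB0 _ hZ.1, hZ.2⟩
        exact (gf_mono g1).trans (hκ j hj)
      · have : LL (BB q (y / 2 * M)) j = ∅ := by
          ext Z
          simp only [Set.mem_empty_iff_false, iff_false]
          rintro ⟨⟨-, h2⟩, h3⟩
          rw [h3] at h2
          exact hj h2
        rw [this]
        unfold gf
        simp)
  -- the lower bound of the left side
  have hL : ENNReal.ofReal (δ * cp * c1 / 16 * (U * (U / M))) ≤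
      ∑ i ∈ range (b + 1), gf (LL (WW p q) i) * gf (LL (BB q (y / 2 * M)) (b - i)) := by
    have hJb : ∀ j ∈ J, 2 * j ≤ b := by
      intro j hj
      obtain ⟨-, g2⟩ := hJ j hj
      have g3 : (p : ℝ) * b0 ≥ b0 := by nlinarith
      have g4 : ((2 * j : ℕ) : ℝ) ≤ b := by
        have : (b : ℝ) = e + (p + 1) * b0 := by linarith
        nlinarith
      exact_mod_cast g4
    have g1 : ∑ j ∈ J, gf (LL (WW p q) (b - 2 * j)) * gf (LL (BB q (y / 2 * M)) (2 * j)) ≤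
        ∑ i ∈ range (b + 1), gf (LL (WW p q) i) * gf (LL (BB q (y / 2 * M)) (b - i)) := by
      have g2 : ∑ j ∈ J, gf (LL (WW p q) (b - 2 * j)) * gf (LL (BB q (y / 2 * M)) (2 * j)) =
          ∑ i ∈ J.image (fun j => b - 2 * j), gf (LL (WW p q) i) * gf (LL (BB q (y / 2 * M)) (b - i)) := by
        rw [Finset.sum_image]
        · refine Finset.sum_congr rfl fun j hj => ?_
          have := hJb j hj
          have g3 : b - (b - 2 * j) = 2 * j := by omega
          rw [g3]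
        · intro j hj j' hj' hjj
          have := hJb j hj
          have := hJb j' hj'
          simp only at hjj
          omega
      rw [g2]
      refine Finset.sum_le_sum_of_subset fun i hi => ?_
      obtain ⟨j, -, rfl⟩ := Finset.mem_image.1 hi
      rw [Finset.mem_range]
      omega
    refine le_trans ?_ g1
    calc ENNReal.ofReal (δ * cp * c1 / 16 * (U * (U / M)))
        ≤ ENNReal.ofReal (J.card * (cp * (U / M) * (c1 * (U / M)))) := by
          refine ENNReal.ofReal_le_ofReal ?_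
          have g2 : δ * cp * c1 / 16 * (U * (U / M)) = δ * M / 16 * (cp * (U / M) * (c1 * (U / M))) := by
            field_simp
          rw [g2]
          exact mul_le_mul_of_nonneg_right hcard (by positivity)
      _ = ∑ _j ∈ J, ENNReal.ofReal (cp * (U / M)) * ENNReal.ofReal (c1 * (U / M)) := by
          rw [Finset.sum_const, nsmul_eq_mul, ENNReal.ofReal_mul (by positivity), ENNReal.ofReal_natCast,
            ENNReal.ofReal_mul (by positivity)]
      _ ≤ _ := by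
          refine Finset.sum_le_sum fun j hj => ?_
          obtain ⟨g2, g3⟩ := hJ j hj
          have g5 := hJb j hj
          have g6 : ((b - 2 * j : ℕ) : ℝ) = b - ((2 * j : ℕ) : ℝ) := by
            rw [Nat.cast_sub g5]
          refine mul_le_mul' (hp _ ((Nat.even_sub g5).2 ⟨fun _ => even_two_mul j, fun _ => hb⟩) ?_) ?_
          · rw [g6, abs_le]
            constructor
            · have : (b : ℝ) = e + (p + 1) * b0 := by linarith
              nlinarith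
            · have : (b : ℝ) = e + (p + 1) * b0 := by linarith
              nlinarith
          · refine (h1 (2 * j) (even_two_mul j) ?_).trans (gf_mono ?_)
            · rw [abs_le]
              constructor
              · nlinarith
              · nlinarith
            · rintro Z ⟨g7, g8⟩
              refine ⟨⟨g7, ?_⟩, g8⟩
              rw [g8]
              nlinarith
  -- the end
  have hR : (ENNReal.ofReal (16 * p * K / (δ * cp * c1 / 16) * U))⁻¹ * (2 * (gf (WW p q) *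
      (gf {Z | Z ∈ BU ∧ hgt Z < 2 ^ (q + 1)} * ENNReal.ofReal (K * (U / M))))) ≤
      ENNReal.ofReal (δ * cp * c1 / 16 / 2 * (U * (U / M))) := by
    have g1 := gf_WW (q := q) hp1
    have g2 := gf_P (q := q)
    rw [← hU] at g1 g2
    calc _ ≤ (ENNReal.ofReal (16 * p * K / (δ * cp * c1 / 16) * U))⁻¹ * (2 * (ENNReal.ofReal (2 * p * U) *
          (ENNReal.ofReal (2 * U) * ENNReal.ofReal (K * (U / M))))) := by gcongr
      _ = ENNReal.ofReal (δ * cp * c1 / 16 / 2 * (U * (U / M))) := by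
          rw [← ENNReal.ofReal_inv_of_pos (by positivity), ← ENNReal.ofReal_mul (by positivity),
            ← ENNReal.ofReal_mul (by positivity), ← ENNReal.ofReal_ofNat, ← ENNReal.ofReal_mul (by positivity),
            ← ENNReal.ofReal_mul (by positivity)]
          congr 1
          field_simp
          ring
  have hfin := hL.trans (hm.trans (add_le_add le_rfl hR))
  have e1 : δ * cp * c1 / 16 * (U * (U / M)) = δ * cp * c1 / 16 / 2 * (U * (U / M)) +
      δ * cp * c1 / 16 / 2 * (U * (U / M)) := by ring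
  rw [e1, ENNReal.ofReal_add (by positivity) (by positivity)] at hfin
  have hfin2 := (ENNReal.add_le_add_iff_right ENNReal.ofReal_ne_top).1 hfin
  have e2 : ENNReal.ofReal (δ * cp * c1 / 16 / 2 * (U * (U / M))) =
      ENNReal.ofReal (16 * p * K / (δ * cp * c1 / 16) * U) *
        ENNReal.ofReal ((δ * cp * c1 / 16) ^ 2 / (32 * p * K) * (U / M)) := by
    rw [← ENNReal.ofReal_mul (by positivity)]
    congr 1
    field_simp
    ring
  rw [e2] at hfin2
  refine (ENNReal.mul_le_mul_iff_right ?_ ENNReal.ofReal_ne_top).1 hfin2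
  rw [Ne, ENNReal.ofReal_eq_zero, not_le]
  positivity

/-! ### 4. The first window -/

lemma m_large {m : ℕ → ℝ} (hm : MLow m) (x : ℝ) : ∃ k1 : ℕ, ∀ k : ℕ, k1 ≤ k → x ≤ m k := by
  have h0 := hm.pos 0
  obtain ⟨k1, hk1⟩ := exists_nat_ge (x / m 0)
  refine ⟨k1, fun k hk => ?_⟩
  have h2 := hm.low 0 k
  rw [Nat.zero_add] at h2
  rw [div_le_iff₀ h0] at hk1
  have h3 : (k1 : ℝ) ≤ (2 : ℝ) ^ (5 / 4 * (k : ℝ)) := by
    have h4 : (k1 : ℝ) ≤ k := by exact_mod_cast hk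
    have h5 : (k : ℝ) ≤ (2 : ℝ) ^ k := by exact_mod_cast Nat.lt_two_pow_self.le
    refine (h4.trans h5).trans ?_
    rw [← Real.rpow_natCast]
    refine Real.rpow_le_rpow_of_exponent_le (by norm_num) ?_
    have : (0 : ℝ) ≤ k := Nat.cast_nonneg k
    linarith
  nlinarith

/-- the ends of the bridges of one piece -/
noncomputable def DD (q : ℕ) : Finset Pt :=
  ((Finset.Icc (-(4 * 2 ^ (q + 1)) : ℤ) (4 * 2 ^ (q + 1))) ×ˢ (Finset.Icc (-(4 * 2 ^ (q + 1)) : ℤ) (4 * 2 ^ (q + 1)))).filter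
    (fun z => 3 * 2 ^ q ≤ ip z up ∧ ip z up < 3 * 2 ^ (q + 1) ∧ |3 * z.1| ≤ ip z up)

lemma mem_DD {q : ℕ} {Z : List Bool} (hZ : Z ∈ BU) : en Z ∈ DD q ↔ Z ∈ WW 1 q := by
  obtain ⟨h, hh⟩ := hZ
  have h1 := (mem_Brd.1 hh).2.2.2
  have h2 := hgt_eq hh
  unfold lev at h1
  have h3 : (en Z).1 = latE Z := by
    unfold en latE lat
    simp only [cross, up]
    ring
  have h4 : ip (en Z) up = 3 * (h : ℤ) := h1
  have h5 : ip (en Z) up = (en Z).1 + 2 * (en Z).2 := by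
    simp only [ip, up]
    ring
  unfold DD WW
  rw [Finset.mem_filter, Finset.mem_product, Finset.mem_Icc, Finset.mem_Icc]
  simp only [Set.mem_ofPred_eq]
  rw [h2, h4, ← h3, abs_mul, abs_of_pos (show (0 : ℤ) < 3 by norm_num)]
  constructor
  · rintro ⟨-, g1, g2, g3⟩
    refine ⟨⟨h, hh⟩, ?_, ?_, ?_⟩
    · have : ((1 * 2 ^ q : ℕ) : ℤ) ≤ h := by
        push_cast
        linarith
      exact_mod_cast this
    · have : (h : ℤ) < ((1 * 2 ^ (q + 1) : ℕ) : ℤ) := by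
        push_cast
        linarith
      exact_mod_cast this
    · linarith
  · rintro ⟨-, g1, g2, g3⟩
    have g1' : ((1 * 2 ^ q : ℕ) : ℤ) ≤ h := by exact_mod_cast g1
    have g2' : (h : ℤ) < ((1 * 2 ^ (q + 1) : ℕ) : ℤ) := by exact_mod_cast g2
    push_cast at g1' g2'
    have g4 := abs_le.1 g3
    refine ⟨⟨⟨?_, ?_⟩, ⟨?_, ?_⟩⟩, ?_, ?_, ?_⟩
    all_goals linarith [g4.1, g4.2]

lemma gz_sum (q b : ℕ) : gf (LL (WW 1 q) b) = ∑ z ∈ DD q, gf {Z | Z ∈ BU ∧ en Z = z ∧ Z.length = b} := by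
  classical
  have h1 : ∑ z ∈ DD q, gf {Z | Z ∈ BU ∧ en Z = z ∧ Z.length = b} =
      ∑' Z : List Bool, ∑ z ∈ DD q, (if Z ∈ {Z | Z ∈ BU ∧ en Z = z ∧ Z.length = b} then wE Z else 0) := by
    rw [Summable.tsum_finsetSum (fun _ _ => ENNReal.summable)]
    refine Finset.sum_congr rfl fun z _ => (gf_ind _).trans (tsum_congr fun Z => ?_)
    by_cases hz : Z ∈ {Z | Z ∈ BU ∧ en Z = z ∧ Z.length = b}
    · rw [if_pos hz, if_pos hz]
    · rw [if_neg hz, if_neg hz]
  rw [h1, gf_ind]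
  refine tsum_congr fun Z => ?_
  simp only [Set.mem_ofPred_eq]
  by_cases h2 : Z ∈ BU ∧ Z.length = b
  · have h3 : ∀ z : Pt, (Z ∈ BU ∧ en Z = z ∧ Z.length = b) ↔ z = en Z := fun z =>
      ⟨fun h => h.2.1.symm, fun h => ⟨h2.1, h.symm, h2.2⟩⟩
    simp only [h3, Finset.sum_ite_eq']
    have h4 : Z ∈ LL (WW 1 q) b ↔ en Z ∈ DD q := by
      rw [mem_DD h2.1]
      exact ⟨fun h => h.1, fun h => ⟨h, h2.2⟩⟩
    simp only [h4]
  · have h3 : ∀ z : Pt, ¬ (Z ∈ BU ∧ en Z = z ∧ Z.length = b) := fun z h => h2 ⟨h.1, h.2.2⟩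
    have h4 : Z ∉ LL (WW 1 q) b := fun h => h2 ⟨h.1.1, h.2⟩
    rw [if_neg h4]
    simp only [h3, if_false, Finset.sum_const_zero]

lemma ww_fin (q b : ℕ) : gf (LL (WW 1 q) b) ≠ ∞ :=
  ne_top_of_le_ne_top (BrL.BLs_ne_top b) (gf_mono fun _ hZ => ⟨hZ.1.1, hZ.2⟩)

lemma gz_real (q b : ℕ) : (gf (LL (WW 1 q) b)).toReal = ∑ z ∈ DD q, gz z b := by
  rw [gz_sum, ENNReal.toReal_sum fun z _ => ne_top_of_le_ne_top (BrL.BLs_ne_top b) (gf_mono fun _ hZ => ⟨hZ.1, hZ.2.2⟩)]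
  rfl

/-- a good number of letters -/
lemma some_b {m : ℕ → ℝ} (hm : MLow m) (hL : LongB m) : ∃ (y A c : ℝ) (k0 : ℕ), 0 < y ∧ y ≤ A ∧ 0 < c ∧
    ∀ q : ℕ, k0 ≤ q → ∃ b0 : ℕ, Even b0 ∧ y * m q ≤ b0 ∧ (b0 : ℝ) ≤ A * m q ∧
      ENNReal.ofReal (c * (Ub q / m q)) ≤ gf (LL (WW 1 q) b0) := by
  classical
  obtain ⟨y, A, c, k0, hy, hyA, hc, h⟩ := hL
  have hA : 0 < A := by linarith
  obtain ⟨k1, hk1⟩ := m_large hm (1 / A)
  refine ⟨y, A, c / (4 * A), max k0 k1, hy, hyA, by positivity, fun q hq => ?_⟩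
  have hmq := hm.pos q
  have hU := Ub_pos q
  have hAM : 1 ≤ A * m q := by
    have := hk1 q (le_trans (le_max_right _ _) hq)
    rwa [div_le_iff₀ hA, mul_comm] at this
  obtain ⟨S, hS⟩ : ∃ S : Finset ℕ, S = (range (⌊A * m q⌋₊ + 1)).filter (fun b : ℕ => y * m q ≤ (b : ℝ)) := ⟨_, rfl⟩
  have h1 : ENNReal.ofReal (c * Ub q) ≤ ∑ b ∈ S, gf (LL (WW 1 q) b) := by
    refine (h q (le_trans (le_max_left _ _) hq)).trans ?_
    obtain ⟨f, hf⟩ : ∃ f : ℕ → Set (List Bool), f = fun h : ℕ => {Z | (Z ∈ Brd h ∧ |latE Z| ≤ (h : ℤ) ∧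
      y * m q ≤ (Z.length : ℝ) ∧ (Z.length : ℝ) ≤ A * m q) ∧ 2 ^ q ≤ h ∧ h < 2 ^ (q + 1)} := ⟨_, rfl⟩
    have hdis : ∀ i j, ∀ Z, Z ∈ f i → Z ∈ f j → i = j := by
      intro i j Z hi hj
      rw [hf] at hi hj
      have g1 := hgt_eq hi.1.1
      have g2 := hgt_eq hj.1.1
      omega
    have g1 : ∑ h ∈ Ico (2 ^ q) (2 ^ (q + 1)), gf {Z | Z ∈ Brd h ∧ |latE Z| ≤ (h : ℤ) ∧ y * m q ≤ (Z.length : ℝ) ∧
        (Z.length : ℝ) ≤ A * m q} ≤ ∑' h, gf (f h) := by
      refine le_trans (Finset.sum_le_sum fun h hh => ?_) (ENNReal.sum_le_tsum (Ico (2 ^ q) (2 ^ (q + 1))))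
      rw [Finset.mem_Ico] at hh
      rw [hf]
      exact gf_mono fun Z hZ => ⟨hZ, hh.1, hh.2⟩
    refine g1.trans ?_
    rw [← K1.gf_iUnion f hdis]
    have g2 : gf (⋃ h, f h) ≤ gf {Z | Z ∈ WW 1 q ∧ y * m q ≤ (Z.length : ℝ) ∧ (Z.length : ℝ) ≤ A * m q} := by
      refine gf_mono fun Z hZ => ?_
      rw [Set.mem_iUnion] at hZ
      obtain ⟨h, hh⟩ := hZ
      rw [hf] at hh
      obtain ⟨⟨a1, a2, a3, a4⟩, a5, a6⟩ := hh
      have a7 := hgt_eq a1
      refine ⟨⟨⟨h, a1⟩, ?_, ?_, ?_⟩, a3, a4⟩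
      · rw [a7, one_mul]
        exact a5
      · rw [a7, one_mul]
        exact a6
      · rw [a7]
        exact a2
    refine g2.trans ?_
    rw [NTF.gf_lengths, tsum_eq_sum (s := S)]
    · exact Finset.sum_le_sum fun b _ => gf_mono fun Z hZ => ⟨hZ.1.1, hZ.2⟩
    · intro b hb
      have : {Z | Z ∈ {Z | Z ∈ WW 1 q ∧ y * m q ≤ (Z.length : ℝ) ∧ (Z.length : ℝ) ≤ A * m q} ∧ Z.length = b} = ∅ := by
        ext Z
        simp only [Set.mem_empty_iff_false, iff_false]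
        rintro ⟨⟨-, a1, a2⟩, a3⟩
        rw [a3] at a1 a2
        apply hb
        rw [hS, Finset.mem_filter, Finset.mem_range]
        exact ⟨Nat.lt_succ_of_le (Nat.le_floor a2), a1⟩
      rw [this]
      unfold gf
      simp
  by_contra hno
  push Not at hno
  have h2 : ∑ b ∈ S, gf (LL (WW 1 q) b) ≤ ∑ _b ∈ S, ENNReal.ofReal (c / (4 * A) * (Ub q / m q)) := by
    refine Finset.sum_le_sum fun b hb => ?_
    by_cases he : Even b
    · rw [hS, Finset.mem_filter, Finset.mem_range] at hb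
      refine (hno b he hb.2 ?_).le
      have a1 : b ≤ ⌊A * m q⌋₊ := by omega
      exact (by exact_mod_cast a1 : (b : ℝ) ≤ ⌊A * m q⌋₊).trans (Nat.floor_le (by positivity))
    · have : LL (WW 1 q) b = ∅ := by
        ext Z
        simp only [Set.mem_empty_iff_false, iff_false]
        rintro ⟨⟨⟨n, hn⟩, -⟩, a2⟩
        have := BrL.even_length hn
        rw [a2] at this
        exact he this
      rw [this]
      unfold gf
      simp
  have h3 : (S.card : ℝ) ≤ 2 * (A * m q) := by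
    have a1 : S.card ≤ ⌊A * m q⌋₊ + 1 := by
      rw [hS]
      refine (Finset.card_filter_le _ _).trans ?_
      rw [Finset.card_range]
    have a2 : (S.card : ℝ) ≤ ⌊A * m q⌋₊ + 1 := by exact_mod_cast a1
    have a3 := Nat.floor_le (show 0 ≤ A * m q by positivity)
    linarith
  rw [Finset.sum_const, nsmul_eq_mul, ← ENNReal.ofReal_natCast, ← ENNReal.ofReal_mul (by positivity)] at h2
  have h4 := h1.trans h2
  have h5 := (ENNReal.ofReal_le_ofReal_iff (by positivity)).1 h4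
  have h6 : (S.card : ℝ) * (c / (4 * A) * (Ub q / m q)) ≤ 2 * (A * m q) * (c / (4 * A) * (Ub q / m q)) :=
    mul_le_mul_of_nonneg_right h3 (by positivity)
  have h7 : 2 * (A * m q) * (c / (4 * A) * (Ub q / m q)) = c * Ub q / 2 := by
    field_simp
    ring
  have h8 : 0 < c * Ub q := by positivity
  linarith

/-- **the first window** -/
theorem base {m : ℕ → ℝ} (hm : MLow m) (hL : LongB m) (hT : TVX m) : ∃ (y A δ c : ℝ) (k0 : ℕ), 0 < y ∧ y ≤ 1 ∧ y ≤ A ∧
    0 < δ ∧ δ ≤ y / 2 ∧ 0 < c ∧ ∀ q : ℕ, k0 ≤ q → ∃ b0 : ℕ, Even b0 ∧ y * m q ≤ b0 ∧ (b0 : ℝ) ≤ A * m q ∧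
      ∀ ℓ : ℕ, Even ℓ → |(ℓ : ℝ) - b0| ≤ δ * m q → ENNReal.ofReal (c * (Ub q / m q)) ≤ gf (LL (WW 1 q) ℓ) := by
  obtain ⟨y0, A, c, k0, hy0, hyA0, hc, h⟩ := some_b hm hL
  obtain ⟨C, k1, hC, hv⟩ := hT
  obtain ⟨y, hy⟩ : ∃ y, y = min y0 1 := ⟨_, rfl⟩
  have hy1 : 0 < y := by
    rw [hy]
    exact lt_min hy0 one_pos
  have hyy : y ≤ y0 := by
    rw [hy]
    exact min_le_left _ _
  obtain ⟨δ, hδ⟩ : ∃ δ : ℝ, δ = min (y / 2) ((c / (2 * C)) ^ (16 : ℝ)) := ⟨_, rfl⟩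
  have hδ0 : 0 < δ := by
    rw [hδ]
    exact lt_min (by positivity) (Real.rpow_pos_of_pos (by positivity) _)
  have hδ1 : δ ^ (1 / 16 : ℝ) ≤ c / (2 * C) := by
    have e1 : δ ^ (1 / 16 : ℝ) ≤ ((c / (2 * C)) ^ (16 : ℝ)) ^ (1 / 16 : ℝ) :=
      Real.rpow_le_rpow hδ0.le (by
        rw [hδ]
        exact min_le_right _ _) (by norm_num)
    rw [← Real.rpow_mul (by positivity)] at e1
    norm_num at e1
    exact e1
  refine ⟨y, A, δ, c / 2, max k0 k1, hy1, by
    rw [hy]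
    exact min_le_right _ _, by linarith, hδ0, by
    rw [hδ]
    exact min_le_left _ _, by positivity, fun q hq => ?_⟩
  have hmq := hm.pos q
  have hU := Ub_pos q
  obtain ⟨b0, g1, g2, g3, g4⟩ := h q (le_trans (le_max_left _ _) hq)
  refine ⟨b0, g1, (mul_le_mul_of_nonneg_right hyy hmq.le).trans g2, g3, fun ℓ hℓ hb => ?_⟩
  have h1 := hv q b0 ℓ (DD q) (le_trans (le_max_right _ _) hq) g1 hℓ (fun z hz => (Finset.mem_filter.1 hz).2.1)
  have h2 : |(gf (LL (WW 1 q) b0)).toReal - (gf (LL (WW 1 q) ℓ)).toReal| ≤ ∑ z ∈ DD q, |gz z b0 - gz z ℓ| := by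
    rw [gz_real, gz_real, ← Finset.sum_sub_distrib]
    exact Finset.abs_sum_le_sum_abs _ _
  have h3 : (|(b0 : ℝ) - ℓ| / m q) ^ (1 / 16 : ℝ) ≤ c / (2 * C) := by
    refine le_trans (Real.rpow_le_rpow (by positivity) ?_ (by norm_num)) hδ1
    rw [div_le_iff₀ hmq, abs_sub_comm]
    exact hb
  have h4 : C * (Ub q / m q) * (|(b0 : ℝ) - ℓ| / m q) ^ (1 / 16 : ℝ) ≤ c / 2 * (Ub q / m q) := by
    have := mul_le_mul_of_nonneg_left h3 (show 0 ≤ C * (Ub q / m q) by positivity)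
    refine this.trans (le_of_eq ?_)
    field_simp
  have h5 := (ENNReal.ofReal_le_iff_le_toReal (ww_fin q b0)).1 g4
  have h6 := (abs_le.1 (h2.trans (h1.trans h4))).2
  rw [ENNReal.ofReal_le_iff_le_toReal (ww_fin q ℓ)]
  have h7 : c / 2 * (Ub q / m q) + c / 2 * (Ub q / m q) = c * (Ub q / m q) := by ring
  linarith

/-! ### 5. All windows -/

/-- **windows of p pieces** -/
theorem win {m : ℕ → ℝ} (hm : MLow m) (hL : LongB m) (hT : TVX m)
    (hN : ∃ C : ℝ, 0 < C ∧ ∀ (k b : ℕ) (y : ℝ), 0 < y → y ≤ 1 → y * m k ≤ b →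
      ∑' h : ℕ, gf {Z | Z ∈ Brd h ∧ Z.length = b} ≤ ENNReal.ofReal (C / y * (Ub k / m k))) :
    ∃ (y A δ : ℝ) (b0 : ℕ → ℕ) (k0 : ℕ) (cc : ℕ → ℝ), 0 < y ∧ y ≤ A ∧ 0 < δ ∧ δ ≤ y / 2 ∧ (∀ p, 1 ≤ p → 0 < cc p) ∧
      ∀ q : ℕ, k0 ≤ q → y * m q ≤ b0 q ∧ (b0 q : ℝ) ≤ A * m q ∧ ∀ p : ℕ, 1 ≤ p → ∀ b : ℕ, Even b →
        |(b : ℝ) - p * b0 q| ≤ (p + 1) / 4 * (δ * m q) → ENNReal.ofReal (cc p * (Ub q / m q)) ≤ gf (LL (WW p q) b) := by
  obtain ⟨y, A, δ, c, k0, hy, hy1, hyA, hδ, hδy, hc, h⟩ := base hm hL hT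
  obtain ⟨C, hC, hn⟩ := hN
  choose! b0 g1 g2 g3 g4 using h
  obtain ⟨k1, hk1⟩ := m_large hm (16 / δ)
  have hw : ∀ p : ℕ, 1 ≤ p → ∃ cp : ℝ, 0 < cp ∧ ∀ q : ℕ, max k0 k1 ≤ q → ∀ b : ℕ, Even b →
      |(b : ℝ) - p * b0 q| ≤ (p + 1) / 4 * (δ * m q) → ENNReal.ofReal (cp * (Ub q / m q)) ≤ gf (LL (WW p q) b) := by
    intro p hp
    induction p, hp using Nat.le_induction with
    | base =>
      refine ⟨c, hc, fun q hq b hb hbw => g4 q (le_trans (le_max_left _ _) hq) b hb ?_⟩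
      have hmq := hm.pos q
      push_cast at hbw
      rw [one_mul] at hbw
      have : 0 < δ * m q := by positivity
      linarith
    | succ p hp ih =>
      obtain ⟨cp, hcp, hh⟩ := ih
      have hp0 : (0 : ℝ) < p := by exact_mod_cast hp
      refine ⟨(δ * cp * c / 16) ^ 2 / (32 * p * (C / (y / 2))), by positivity, fun q hq b hb hbw => ?_⟩
      have hq0 : k0 ≤ q := le_trans (le_max_left _ _) hq
      have hmq := hm.pos q
      refine step (q := q) (p := p) (b0 := b0 q) (M := m q) (K := C / (y / 2)) (y := y) (δ := δ) (c1 := c) (cp := cp) hmq hp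
        hδ ?_ (g2 q hq0) hδy (by positivity) ?_ hc (g4 q hq0) hcp (hh q hq) b hb ?_
      · have := hk1 q (le_trans (le_max_right _ _) hq)
        rwa [div_le_iff₀ hδ, mul_comm] at this
      · intro ℓ hℓ
        have e1 : LL BU ℓ ⊆ ⋃ h, {Z | Z ∈ Brd h ∧ Z.length = ℓ} := by
          rintro Z ⟨⟨h, hh⟩, hl⟩
          exact Set.mem_iUnion.2 ⟨h, hh, hl⟩
        refine (gf_mono e1).trans ((ENNReal.tsum_iUnion_le_tsum wE _).trans (hn q ℓ (y / 2) (by linarith) (by linarith) hℓ))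
      · push_cast at hbw
        have e1 : ((p : ℝ) + 1 + 1) / 4 = (p + 2) / 4 := by ring
        rw [e1] at hbw
        exact hbw
  choose! cc hc1 hc2 using hw
  refine ⟨y, A, δ, b0, max k0 k1, cc, hy, hyA, hδ, hδy, hc1, fun q hq => ?_⟩
  have hq0 : k0 ≤ q := le_trans (le_max_left _ _) hq
  exact ⟨g2 q hq0, g3 q hq0, fun p hp b hb hbw => hc2 p hp q hq b hb hbw⟩

lemma min_fin {cc : ℕ → ℝ} (hcc : ∀ p, 1 ≤ p → 0 < cc p) (P : ℕ) : ∃ c : ℝ, 0 < c ∧ ∀ p, 1 ≤ p → p ≤ P → c ≤ cc p := by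
  induction P with
  | zero => exact ⟨1, one_pos, fun p h1 h2 => by omega⟩
  | succ P ih =>
    obtain ⟨c, hc, h⟩ := ih
    refine ⟨min c (cc (P + 1)), lt_min hc (hcc _ (by omega)), fun p h1 h2 => ?_⟩
    rcases Nat.lt_or_ge p (P + 1) with h3 | h3
    · exact (min_le_left _ _).trans (h p h1 (by omega))
    · have : p = P + 1 := by omega
      rw [this]
      exact min_le_right _ _

lemma ub_shift (q i : ℕ) : Ub (q + i) ≤ 2 ^ i * Ub q := by
  induction i with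
  | zero => simp
  | succ i ih =>
    have h1 := Ub_succ (q + i)
    rw [← add_assoc, pow_succ]
    linarith

lemma m_iter {m : ℕ → ℝ} {C : ℝ} (hC : 1 ≤ C) (hu : ∀ k, m (k + 1) ≤ C * m k) (q i : ℕ) : m (q + i) ≤ C ^ i * m q := by
  induction i with
  | zero => simp
  | succ i ih =>
    have h1 := hu (q + i)
    have h2 := mul_le_mul_of_nonneg_left ih (show 0 ≤ C by linarith)
    calc m (q + (i + 1)) ≤ C * m (q + i) := h1
      _ ≤ C * (C ^ i * m q) := h2
      _ = C ^ (i + 1) * m q := by ring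

end EL

open EL

/-- **row E** -/
theorem exLen_of {m : ℕ → ℝ} (hm : MLow m) (hu : MUp m) (hL : LongB m) (hT : TVX m)
    (hN : ∃ C : ℝ, 0 < C ∧ ∀ (k b : ℕ) (y : ℝ), 0 < y → y ≤ 1 → y * m k ≤ b →
      ∑' h : ℕ, gf {Z | Z ∈ Brd h ∧ Z.length = b} ≤ ENNReal.ofReal (C / y * (Ub k / m k))) : ExLen m := by
  obtain ⟨y, A0, δ, b0, k0, cc, hy, hyA, hδ, hδy, hcc, h⟩ := win hm hL hT hN
  obtain ⟨Cu, hCu, hu⟩ := hu
  have hA0 : 0 < A0 := by linarith
  intro a A ha haA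
  have hA : 0 < A := by linarith
  -- the scale
  obtain ⟨i, hi⟩ : ∃ i : ℕ, 4 * A0 ^ 2 / (a * δ) ≤ (2 : ℝ) ^ i := by
    obtain ⟨i, hi⟩ := exists_nat_ge (4 * A0 ^ 2 / (a * δ))
    exact ⟨i, hi.trans (by exact_mod_cast Nat.lt_two_pow_self.le)⟩
  obtain ⟨P, hP⟩ := exists_nat_ge (A * Cu ^ i / y)
  obtain ⟨c, hc, hcm⟩ := min_fin hcc P
  refine ⟨c / 2 ^ i, i, P + 1, k0 + i, by positivity, fun k b hk hik hb hab hbA => ?_⟩
  obtain ⟨q, rfl⟩ : ∃ q, k = q + i := ⟨k - i, by omega⟩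
  have hq : k0 ≤ q := by omega
  obtain ⟨g2, g3, g4⟩ := h q hq
  have hmq := hm.pos q
  have hUq := Ub_pos q
  have hb00 : 0 < (b0 q : ℝ) := lt_of_lt_of_le (by positivity) g2
  have hb0n : 0 < b0 q := by exact_mod_cast hb00
  have hmk : (2 : ℝ) ^ i * m q ≤ m (q + i) := by
    have h1 := hm.low q i
    refine le_trans (mul_le_mul_of_nonneg_right ?_ hmq.le) h1
    rw [← Real.rpow_natCast]
    refine Real.rpow_le_rpow_of_exponent_le (by norm_num) ?_
    have : (0 : ℝ) ≤ i := Nat.cast_nonneg i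
    linarith
  obtain ⟨p, hp⟩ : ∃ p, p = b / b0 q := ⟨_, rfl⟩
  have hp1 : p * b0 q ≤ b := by
    rw [hp]
    exact Nat.div_mul_le_self _ _
  have hp2 : b < (p + 1) * b0 q := by
    rw [hp]
    have h1 := Nat.lt_div_mul_add (a := b) hb0n
    rw [add_mul, one_mul]
    exact h1
  have hp1R : (p : ℝ) * b0 q ≤ b := by exact_mod_cast hp1
  have hp2R : (b : ℝ) < (p + 1) * b0 q := by exact_mod_cast hp2
  -- p is large
  have hlarge : A0 * m q ≤ (p + 1) / 4 * (δ * m q) := by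
    have h1 : 4 * A0 ^ 2 / (a * δ) * (a * δ) ≤ (2 : ℝ) ^ i * (a * δ) := mul_le_mul_of_nonneg_right hi (by positivity)
    rw [div_mul_cancel₀ _ (by positivity)] at h1
    have h2 : 4 * A0 ^ 2 * m q ≤ b * δ := by
      calc 4 * A0 ^ 2 * m q ≤ (2 : ℝ) ^ i * (a * δ) * m q := mul_le_mul_of_nonneg_right h1 hmq.le
        _ = a * ((2 : ℝ) ^ i * m q) * δ := by ring
        _ ≤ a * m (q + i) * δ := by gcongr
        _ ≤ b * δ := by gcongr
    have h3 : (b : ℝ) * δ ≤ (p + 1) * (A0 * m q) * δ := by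
      refine mul_le_mul_of_nonneg_right (hp2R.le.trans ?_) hδ.le
      exact mul_le_mul_of_nonneg_left g3 (by positivity)
    have h4 : A0 * m q * (4 * A0) ≤ (p + 1) / 4 * (δ * m q) * (4 * A0) := by
      calc A0 * m q * (4 * A0) = 4 * A0 ^ 2 * m q := by ring
        _ ≤ (p + 1) * (A0 * m q) * δ := h2.trans h3
        _ = (p + 1) / 4 * (δ * m q) * (4 * A0) := by ring
    exact le_of_mul_le_mul_right h4 (by positivity)
  have hp1' : 1 ≤ p := by
    by_contra hp0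
    have h1 : p = 0 := by omega
    rw [h1] at hlarge
    have h2 : A0 ≤ (((0 : ℕ) : ℝ) + 1) / 4 * δ := by
      refine le_of_mul_le_mul_right ?_ hmq
      rw [mul_assoc]
      exact hlarge
    push_cast at h2
    linarith
  have hpP : p ≤ P := by
    have h1 : (p : ℝ) * (y * m q) ≤ A * Cu ^ i * m q := by
      calc (p : ℝ) * (y * m q) ≤ p * b0 q := mul_le_mul_of_nonneg_left g2 (by positivity)
        _ ≤ b := hp1R
        _ ≤ A * m (q + i) := hbA
        _ ≤ A * (Cu ^ i * m q) := mul_le_mul_of_nonneg_left (m_iter hCu hu q i) hA.le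
        _ = _ := by ring
    have h2 : (p : ℝ) ≤ A * Cu ^ i / y := by
      rw [le_div_iff₀ hy]
      refine le_of_mul_le_mul_right ?_ hmq
      calc (p : ℝ) * y * m q = p * (y * m q) := by ring
        _ ≤ _ := h1
    exact_mod_cast h2.trans hP
  have hmain := g4 p hp1' b hb (by
    rw [abs_le]
    constructor
    · have : 0 ≤ (p + 1 : ℝ) / 4 * (δ * m q) := by positivity
      linarith
    · refine le_trans ?_ hlarge
      nlinarith)
  -- the constants
  have hcc1 : c / 2 ^ i * (Ub (q + i) / m (q + i)) ≤ cc p * (Ub q / m q) := by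
    have h1 : Ub (q + i) ≤ 2 ^ i * Ub q := ub_shift q i
    have h2 : m q ≤ m (q + i) := by
      refine le_trans ?_ hmk
      have : (1 : ℝ) ≤ 2 ^ i := one_le_pow₀ (by norm_num)
      nlinarith
    have h3 : Ub (q + i) / m (q + i) ≤ 2 ^ i * Ub q / m q := div_le_div₀ (by positivity) h1 hmq h2
    calc c / 2 ^ i * (Ub (q + i) / m (q + i)) ≤ c / 2 ^ i * (2 ^ i * Ub q / m q) :=
          mul_le_mul_of_nonneg_left h3 (by positivity)
      _ = c * (Ub q / m q) := by field_simp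
      _ ≤ _ := mul_le_mul_of_nonneg_right (hcm p hp1' hpP) (by positivity)
  refine (ENNReal.ofReal_le_ofReal hcc1).trans (hmain.trans (gf_mono ?_))
  rintro Z ⟨⟨a1, a2, a3, a4⟩, a5⟩
  have e1 : q + i - i = q := by omega
  rw [Set.mem_ofPred_eq, e1]
  refine ⟨a1, ?_, ?_, a4, a5⟩
  · refine le_trans ?_ a2
    exact Nat.le_mul_of_pos_left _ hp1'
  · refine a3.le.trans ?_
    calc p * 2 ^ (q + 1) ≤ 2 ^ P * 2 ^ (q + 1) := Nat.mul_le_mul_right _ (hpP.trans Nat.lt_two_pow_self.le)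
      _ = 2 ^ (P + (q + 1)) := (pow_add _ _ _).symm
      _ ≤ 2 ^ (q + i + (P + 1)) := Nat.pow_le_pow_right (by norm_num) (by omega)

/-- **row E for the public scale** -/
theorem exLen_M (hT : TVX (fun k => PW.mZ (2 ^ k))) : ExLen (fun k => PW.mZ (2 ^ k)) := by
  obtain ⟨a1, h1, h2, hI⟩ := EN.indB2_M
  exact exLen_of mlow_M mup_M longB_M hT (EN.num_up mlow_M.pos EN.c1_M h1 h2 hI)

end JNT

end HexObs
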