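import Pool.Agent.JNT.LowDefs

/-!
JNT, lower side in narrow tubes: literal statements.
-/

set_option autoImplicit false

namespace HexObs

namespace JNT

open Finset TS SDN NTW NTA PtC RP

open scoped ENNReal

/-- the joint local lower bound in a narrow tube -/
def LowNar (m : ℕ → ℝ) : Prop := ∀ w a A : ℝ, 0 < w → 0 < a → a ≤ A → ∃ H0 : ℕ, ∀ H : ℕ, H0 ≤ H → ∃ (c : ℝ) (k0 : ℕ), 0 < c ∧
  ∀ (k h b : ℕ) (x : ℤ), k0 ≤ k → H * 2 ^ k ≤ h → h ≤ 2 * (H * 2 ^ k) → Even (x - h) → |(x : ℝ)| ≤ w * 2 ^ k → Even b →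
    a * m k ≤ b → (b : ℝ) ≤ A * m k → ENNReal.ofReal (c * (Ub k / (4 ^ k * m k))) ≤
      gf {Z | Z ∈ EndB h x ∧ Z.length = b ∧ ∀ i, i ≤ Z.length → |(lat Z i : ℝ)| ≤ 20 * w * 2 ^ k}

/-- n1: the first cut at or above s is long, with all vertices in a box, to the right -/
def SlowC : Prop := ∃ (c y A K : ℝ) (s0 : ℕ), 0 < c ∧ 0 < y ∧ 0 < A ∧ 1 ≤ K ∧ 1 ≤ s0 ∧ ∀ s : ℕ, s0 ≤ s →
  ENNReal.ofReal c ≤ gf {a | a ∈ FPs s ∧ (hgt a : ℝ) ≤ K * s ∧ 0 ≤ latE a ∧ (∀ i, i ≤ a.length → |(lat a i : ℝ)| ≤ K * s) ∧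
    y * (s : ℝ) ^ (4 / 3 : ℝ) ≤ (a.length : ℝ) ∧ (a.length : ℝ) ≤ A * (s : ℝ) ^ (4 / 3 : ℝ)}

/-- n2: the first cut at or above s is short, with all vertices in a box, to the right -/
def QuickC : Prop := ∃ (c A K : ℝ) (s0 : ℕ), 0 < c ∧ 0 < A ∧ 1 ≤ K ∧ 1 ≤ s0 ∧ ∀ s : ℕ, s0 ≤ s →
  ENNReal.ofReal c ≤ gf {a | a ∈ FPs s ∧ hgt a ≤ 2 * s ∧ 0 ≤ latE a ∧ (∀ i, i ≤ a.length → |(lat a i : ℝ)| ≤ K * s) ∧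
    (a.length : ℝ) ≤ A * (s : ℝ) ^ (4 / 3 : ℝ)}

/-- n3: the joint local lower bound in a wide tube -/
def LowWide (m : ℕ → ℝ) : Prop := ∀ R a A : ℝ, 0 < R → 0 < a → a ≤ A → ∃ (H : ℕ) (c K : ℝ) (k0 : ℕ), 1 ≤ H ∧ 0 < c ∧ 1 ≤ K ∧
  ∀ (k h b : ℕ) (x : ℤ), k0 ≤ k → H * 2 ^ k ≤ h → h ≤ 2 * (H * 2 ^ k) → Even (x - h) → |(x : ℝ)| ≤ R * h → Even b →
    a * m k ≤ b → (b : ℝ) ≤ A * m k → ENNReal.ofReal (c * (Ub k / (4 ^ k * m k))) ≤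
      gf {Z | Z ∈ EndB h x ∧ Z.length = b ∧ ∀ i, i ≤ Z.length → |(lat Z i : ℝ)| ≤ K * 2 ^ k}

end JNT

end HexObs
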