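import Pool.Agent.JNT.LowNum
import Pool.Agent.JNT.LowDefs2
import Pool.Agent.JNT.ExLen
import Pool.Agent.HexSPR.Final

/-!
JNT, lower side in narrow tubes, n3: the joint local lower bound in a wide tube.

Pairs of bridges with few letters for their height (LowJ twice); the pairs with a part that leaves the wide tube are few: the
mass of these parts is small (Lat0), and the other part has a given displacement and a given number of letters; then the
one-mark lemma for the words in the tube.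
-/

set_option autoImplicit false

namespace HexObs

namespace JNT

open Finset TS SDN NTW NTA PtC RP

open scoped ENNReal

namespace NaB

open LO1

/-! ### 1. The core with a smaller set of words -/

theorem core2S {m : ℕ → ℝ} (hm : ∀ k, 0 < m k) (hJ : JoB m) : ∃ K : ℝ, 0 < K ∧ ∀ (q H n : ℕ) (v : Pt)
    (S : Set (List Bool)) (P : List Bool → List Bool → Prop) (E : ℝ), 0 ≤ E → (∀ a b, P a b → a ∈ HB (2 ^ q) ∧
      b ∈ HB (2 ^ q) ∧ en a + en b = v ∧ a.length + b.length = n) → (∀ a b, P a b → a ++ b ∈ S) → gf S ≠ ⊤ →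
        ip v up ≤ 3 * H → ENNReal.ofReal E ≤ E1 P →
          E ^ 2 / (K * (UU H * (Ub q ^ 2 / (4 ^ q * m q)))) ≤ (gf S).toReal := by
  classical
  obtain ⟨C, hC, hJ⟩ := hJ
  refine ⟨8 * C, by positivity, fun q H n v S P E hE hP hSS hSf hv h1 => ?_⟩
  have hmq := hm q
  have hUH := Num2Aux.UU_pos H
  have hUq := Ub_pos q
  obtain ⟨Q, hQd⟩ : ∃ Q : List Bool → List Bool → List Bool → Prop, Q = fun a μ b => a ∈ HB (2 ^ q) ∧ b ∈ HB (2 ^ q) ∧
    μ ∈ BU ∧ hgt μ ≤ H ∧ μ.length ≤ n ∧ en a + en b = v - en μ ∧ a.length + b.length = n - μ.length := ⟨_, rfl⟩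
  have hQ : ∀ a μ b, P a (μ ++ b) → P (a ++ μ) b → Q a μ b := by
    intro a μ b h2 h3
    obtain ⟨a1, a2, a3, a4⟩ := hP _ _ h2
    obtain ⟨b1, b2, b3, b4⟩ := hP _ _ h3
    have hμ := mid (HB_BU a1) (HB_BU a2) (HB_BU b1) (HB_BU b2)
    rw [en_app hμ] at a3
    rw [List.length_append] at a4
    rw [hQd]
    refine ⟨a1, b2, hμ, ?_, by omega, ?_, by omega⟩
    · have e1 := ip_en (HB_BU b1)
      have e2 := ip_en (HB_BU b2)
      rw [hgt_app (HB_BU a1) hμ] at e1
      have e3 : ip v up = ip (en (a ++ μ)) up + ip (en b) up := by rw [← ip_add_left, b3]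
      push_cast at e1
      omega
    · rw [← a3]
      abel
  have h3 : E3 Q ≤ ENNReal.ofReal (UU H * (C * (Ub q ^ 2 / (4 ^ q * m q)))) := by
    have e1 : E3 Q = ∑' μ : List Bool, ∑' a : List Bool, ∑' b : List Bool, (if Q a μ b then wE a * (wE μ * wE b) else 0) :=
      ENNReal.tsum_comm
    obtain ⟨U, hU⟩ : ∃ U : Set (List Bool), U = {X | ∃ n, n ≤ H ∧ X ∈ Brd n} := ⟨_, rfl⟩
    have e2 : ∀ μ : List Bool, (∑' a : List Bool, ∑' b : List Bool, (if Q a μ b then wE a * (wE μ * wE b) else 0)) ≤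
        (if μ ∈ U then wE μ else 0) * ENNReal.ofReal (C * (Ub q ^ 2 / (4 ^ q * m q))) := by
      intro μ
      by_cases hμ : μ ∈ U
      · rw [if_pos hμ]
        refine le_trans ?_ (mul_le_mul_right (hJ q (v - en μ) (n - μ.length)) _)
        unfold pairs
        rw [← ENNReal.tsum_mul_left]
        refine ENNReal.tsum_le_tsum fun a => ?_
        rw [← ENNReal.tsum_mul_left]
        refine ENNReal.tsum_le_tsum fun b => ?_
        by_cases hq : Q a μ b
        · have hq' := hq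
          rw [hQd] at hq'
          obtain ⟨c1, c2, c3, c4, c5, c6, c7⟩ := hq'
          rw [if_pos hq, if_pos ⟨c1, c2, c6, c7⟩]
          exact le_of_eq (by ring)
        · rw [if_neg hq]
          exact zero_le
      · rw [if_neg hμ, zero_mul]
        refine le_of_eq ?_
        rw [ENNReal.tsum_eq_zero]
        intro a
        rw [ENNReal.tsum_eq_zero]
        intro b
        refine if_neg fun hq => hμ ?_
        rw [hU]
        rw [hQd] at hq
        obtain ⟨c, hc⟩ := hq.2.2.1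
        refine ⟨c, ?_, hc⟩
        have := hq.2.2.2.1
        rwa [hgt_eq hc] at this
    rw [e1]
    refine (ENNReal.tsum_le_tsum e2).trans ?_
    rw [ENNReal.tsum_mul_right, ← gf_ind, ENNReal.ofReal_mul hUH.le, hU]
    exact mul_le_mul_left (PtC.gf_BU_le H) _
  have h4 := om_num hQ hSS hSf (by positivity) hE h1 h3
  refine le_trans (le_of_eq ?_) h4
  congr 1
  ring

/-! ### 2. The pairs that leave the tube -/

/-- all vertices in the tube -/
def Tb (r : ℝ) (a : List Bool) : Prop := ∀ i, i ≤ a.length → |(lat a i : ℝ)| ≤ r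

/-- bridges that leave the tube -/
def WdB (N : ℕ) (r : ℝ) : Set (List Bool) := {a | (∃ n, n ≤ N ∧ a ∈ Brd n) ∧ ¬ Tb r a}

/-- pairs in the tube -/
def PT (D : Finset (Pt × ℕ)) (v : Pt) (n : ℕ) (r : ℝ) (a b : List Bool) : Prop := PD D v n a b ∧ Tb r a ∧ Tb r b

lemma wide_pairs {D : Finset (Pt × ℕ)} {v : Pt} {n N : ℕ} {r κ : ℝ} (h1 : ∀ p ∈ D, gz p.1 p.2 ≤ κ)
    (h2 : ∀ p ∈ D, gz (v - p.1) (n - p.2) ≤ κ) (h3 : ∀ p ∈ D, ip p.1 up ≤ 3 * N ∧ ip (v - p.1) up ≤ 3 * N) :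
    E1 (PD D v n) ≤ E1 (PT D v n r) + 2 * (gf (WdB N r) * ENNReal.ofReal κ) := by
  classical
  have key : ∀ a b : List Bool, (if PD D v n a b then wE a * wE b else 0) ≤
      (if PT D v n r a b then wE a * wE b else 0) + ((if PD D v n a b ∧ ¬ Tb r a then wE a * wE b else 0) +
        (if PD D v n a b ∧ ¬ Tb r b then wE a * wE b else 0)) := by
    intro a b
    by_cases h : PD D v n a b
    · rw [if_pos h]
      by_cases ha : Tb r a
      · by_cases hb : Tb r b
        · rw [if_pos (show PT D v n r a b from ⟨h, ha, hb⟩)]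
          exact le_self_add
        · rw [if_pos (show PD D v n a b ∧ ¬ Tb r b from ⟨h, hb⟩)]
          exact le_trans le_add_self le_add_self
      · rw [if_pos (show PD D v n a b ∧ ¬ Tb r a from ⟨h, ha⟩)]
        exact le_trans le_self_add le_add_self
    · rw [if_neg h]
      exact zero_le
  have hA : ∑' a : List Bool, ∑' b : List Bool, (if PD D v n a b ∧ ¬ Tb r a then wE a * wE b else 0) ≤
      gf (WdB N r) * ENNReal.ofReal κ := by
    rw [gf_ind, ← ENNReal.tsum_mul_right]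
    refine ENNReal.tsum_le_tsum fun a => ?_
    by_cases ha : (en a, a.length) ∈ D ∧ a ∈ BU ∧ ¬ Tb r a
    · have hW : a ∈ WdB N r := by
        refine ⟨?_, ha.2.2⟩
        have g1 := (h3 _ ha.1).1
        simp only at g1
        rw [ip_en ha.2.1] at g1
        obtain ⟨c, hc⟩ := ha.2.1
        rw [hgt_eq hc] at g1
        exact ⟨c, by omega, hc⟩
      rw [if_pos hW]
      obtain ⟨V, hV⟩ : ∃ V : Set (List Bool), V = {Z | Z ∈ BU ∧ en Z = v - en a ∧ Z.length = n - a.length} := ⟨_, rfl⟩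
      calc ∑' b : List Bool, (if PD D v n a b ∧ ¬ Tb r a then wE a * wE b else 0)
          ≤ ∑' b : List Bool, wE a * (if b ∈ V then wE b else 0) := by
            refine ENNReal.tsum_le_tsum fun b => ?_
            by_cases hb : PD D v n a b ∧ ¬ Tb r a
            · rw [if_pos hb, if_pos]
              obtain ⟨⟨-, -, g3, g4, g5⟩, -⟩ := hb
              rw [hV]
              exact ⟨g3, by rw [← g4]; abel, by omega⟩
            · rw [if_neg hb]
              exact zero_le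
        _ = wE a * ENNReal.ofReal (gz (v - en a) (n - a.length)) := by
            rw [ENNReal.tsum_mul_left, ← gf_ind, hV, gz_ofReal]
        _ ≤ _ := mul_le_mul_right (ENNReal.ofReal_le_ofReal (h2 _ ha.1)) _
    · have hz : ∀ b, ¬ (PD D v n a b ∧ ¬ Tb r a) := fun b h => ha ⟨h.1.1, h.1.2.1, h.2⟩
      simp only [hz, if_false, tsum_zero]
      exact zero_le
  have hB : ∑' a : List Bool, ∑' b : List Bool, (if PD D v n a b ∧ ¬ Tb r b then wE a * wE b else 0) ≤
      gf (WdB N r) * ENNReal.ofReal κ := by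
    rw [ENNReal.tsum_comm, gf_ind, ← ENNReal.tsum_mul_right]
    refine ENNReal.tsum_le_tsum fun b => ?_
    by_cases hb : ∃ a, PD D v n a b ∧ ¬ Tb r b
    · obtain ⟨a0, ⟨g1, g2, g3, g4, g5⟩, g6⟩ := hb
      have e1 : en a0 = v - en b := by rw [← g4]; abel
      have e2 : a0.length = n - b.length := by omega
      have hW : b ∈ WdB N r := by
        refine ⟨?_, g6⟩
        have g7 := (h3 _ g1).2
        simp only at g7
        rw [e1, sub_sub_cancel, ip_en g3] at g7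
        obtain ⟨c, hc⟩ := g3
        rw [hgt_eq hc] at g7
        exact ⟨c, by omega, hc⟩
      rw [if_pos hW]
      obtain ⟨V, hV⟩ : ∃ V : Set (List Bool), V = {Z | Z ∈ BU ∧ en Z = v - en b ∧ Z.length = n - b.length} := ⟨_, rfl⟩
      calc ∑' a : List Bool, (if PD D v n a b ∧ ¬ Tb r b then wE a * wE b else 0)
          ≤ ∑' a : List Bool, wE b * (if a ∈ V then wE a else 0) := by
            refine ENNReal.tsum_le_tsum fun a => ?_
            by_cases ha : PD D v n a b ∧ ¬ Tb r b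
            · rw [if_pos ha, if_pos, mul_comm]
              obtain ⟨⟨-, g7, g8, g9, g10⟩, -⟩ := ha
              rw [hV]
              exact ⟨g7, by rw [← g9]; abel, by omega⟩
            · rw [if_neg ha]
              exact zero_le
        _ = wE b * ENNReal.ofReal (gz (v - en b) (n - b.length)) := by
            rw [ENNReal.tsum_mul_left, ← gf_ind, hV, gz_ofReal]
        _ ≤ _ := by
            refine mul_le_mul_right (ENNReal.ofReal_le_ofReal ?_) _
            have := h1 _ g1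
            simp only at this
            rwa [e1, e2] at this
    · have hz : ∀ a, ¬ (PD D v n a b ∧ ¬ Tb r b) := fun a h => hb ⟨a, h⟩
      simp only [hz, if_false, tsum_zero]
      exact zero_le
  calc E1 (PD D v n) = ∑' a : List Bool, ∑' b : List Bool, (if PD D v n a b then wE a * wE b else 0) := rfl
    _ ≤ ∑' a : List Bool, ∑' b : List Bool, ((if PT D v n r a b then wE a * wE b else 0) +
        ((if PD D v n a b ∧ ¬ Tb r a then wE a * wE b else 0) + (if PD D v n a b ∧ ¬ Tb r b then wE a * wE b else 0))) :=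
        ENNReal.tsum_le_tsum fun a => ENNReal.tsum_le_tsum fun b => key a b
    _ = E1 (PT D v n r) + (∑' a : List Bool, ∑' b : List Bool, (if PD D v n a b ∧ ¬ Tb r a then wE a * wE b else 0) +
        ∑' a : List Bool, ∑' b : List Bool, (if PD D v n a b ∧ ¬ Tb r b then wE a * wE b else 0)) := by
        simp_rw [ENNReal.tsum_add]
        rfl
    _ ≤ _ := by
        rw [two_mul]
        exact add_le_add le_rfl (add_le_add hA hB)

/-- the mass of the bridges that leave the tube -/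
lemma wide_mass {ε : ℝ} (hε : 0 < ε) : ∃ M : ℕ, ∀ (N : ℕ) (r : ℝ), (M * N : ℝ) ≤ r →
    gf (WdB N r) ≤ ENNReal.ofReal (ε * UU N) := by
  obtain ⟨M, hM⟩ := Ex.lat0 ε hε
  refine ⟨M, fun N r hr => ?_⟩
  have h1 : WdB N r ⊆ ⋃ n : ℕ, {t | n ≤ N ∧ t ∈ Brd n ∧ ¬ Tb r t} := by
    rintro t ⟨⟨n, hn, ht⟩, h2⟩
    exact Set.mem_iUnion.2 ⟨n, hn, ht, h2⟩
  refine (gf_mono h1).trans ((ENNReal.tsum_iUnion_le_tsum wE _).trans ?_)
  have h2 : ∀ n : ℕ, gf {t | n ≤ N ∧ t ∈ Brd n ∧ ¬ Tb r t} ≤ if n ∈ range (N + 1) then ENNReal.ofReal (ε * uu n) else 0 := by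
    intro n
    by_cases hn : n ∈ range (N + 1)
    · rw [if_pos hn]
      rw [Finset.mem_range] at hn
      rcases Nat.eq_zero_or_pos n with h0 | h0
      · have : {t | n ≤ N ∧ t ∈ Brd n ∧ ¬ Tb r t} = ∅ := by
          ext t
          simp only [Set.mem_empty_iff_false, iff_false]
          rintro ⟨-, h3, h4⟩
          rw [h0, Brd_zero] at h3
          rw [Set.mem_singleton_iff] at h3
          apply h4
          intro i hi
          rw [h3] at hi ⊢
          have hi0 : i = 0 := by simpa using hi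
          rw [hi0, lat_zero']
          simp only [Int.cast_zero, abs_zero]
          refine le_trans ?_ hr
          positivity
        rw [this]
        unfold gf
        simp
      · refine (gf_mono ?_).trans (hM n h0)
        rintro t ⟨-, h3, h4⟩
        refine ⟨h3, ?_⟩
        by_contra hc
        push Not at hc
        apply h4
        intro i hi
        have h5 : ((|lat t i| : ℤ) : ℝ) ≤ ((M * n : ℤ) : ℝ) := by exact_mod_cast hc i hi
        push_cast at h5
        refine h5.trans (le_trans ?_ hr)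
        have : (n : ℝ) ≤ N := by
          have : n ≤ N := by omega
          exact_mod_cast this
        exact mul_le_mul_of_nonneg_left this (Nat.cast_nonneg M)
    · rw [if_neg hn]
      rw [Finset.mem_range] at hn
      have : {t | n ≤ N ∧ t ∈ Brd n ∧ ¬ Tb r t} = ∅ := by
        ext t
        simp only [Set.mem_empty_iff_false, iff_false]
        rintro ⟨h3, -⟩
        omega
      rw [this]
      unfold gf
      simp
  refine (ENNReal.tsum_le_tsum h2).trans ?_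
  rw [tsum_eq_sum (s := range (N + 1)) (fun n hn => if_neg hn), Finset.sum_congr rfl (fun n hn => if_pos hn),
    ← ENNReal.ofReal_sum_of_nonneg (fun i _ => by
      have := uu_pos i
      positivity), ← Finset.mul_sum]
  exact le_of_eq rfl

/-! ### 3. One bridge with a given displacement and a given number of letters -/

/-- upper bound for the bridges of one scale -/
def SingleB (m : ℕ → ℝ) : Prop := ∃ C : ℝ, 0 < C ∧ ∀ (k : ℕ) (z : Pt) (l : ℕ),
  gf {Z | Z ∈ BrR (2 ^ k) (2 ^ (k + 1)) ∧ en Z = z ∧ Z.length = l} ≤ ENNReal.ofReal (C * (Ub k / (4 ^ k * m k)))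

lemma gz_up {m : ℕ → ℝ} (hm : MLow m) (hS : SingleB m) : ∃ C : ℝ, 0 < C ∧ ∀ (k : ℕ) (z : Pt) (l : ℕ),
    3 * 2 ^ k ≤ ip z up → gz z l ≤ C * (Ub k / (4 ^ k * m k)) := by
  obtain ⟨C, hC, h⟩ := hS
  refine ⟨C, hC, fun k z l hz => ?_⟩
  have hmk := hm.pos k
  have hU := Ub_pos k
  by_cases he : ∃ Z, Z ∈ BU ∧ en Z = z ∧ Z.length = l
  · obtain ⟨Z0, g1, g2, g3⟩ := he
    have g4 := ip_en g1
    rw [g2] at g4
    obtain ⟨c, hc⟩ : ∃ c, c = hgt Z0 := ⟨_, rfl⟩
    rw [← hc] at g4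
    have g5 : 2 ^ k ≤ c := by
      have : (2 : ℤ) ^ k ≤ c := by omega
      exact_mod_cast this
    obtain ⟨p, hp⟩ : ∃ p, p = Nat.log 2 c := ⟨_, rfl⟩
    have hc0 : c ≠ 0 := by
      have : 0 < 2 ^ k := Nat.two_pow_pos k
      omega
    have g6 : 2 ^ p ≤ c := by
      rw [hp]
      exact Nat.pow_log_le_self 2 hc0
    have g7 : c < 2 ^ (p + 1) := by
      rw [hp]
      exact Nat.lt_pow_succ_log_self (by norm_num) c
    have g8 : k ≤ p := by
      have : 2 ^ k < 2 ^ (p + 1) := by omega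
      have := (Nat.pow_lt_pow_iff_right (by norm_num : 1 < 2)).1 this
      omega
    obtain ⟨j, rfl⟩ : ∃ j, p = k + j := ⟨p - k, by omega⟩
    have h1 : gf {Z | Z ∈ BU ∧ en Z = z ∧ Z.length = l} ≤ ENNReal.ofReal (C * (Ub (k + j) / (4 ^ (k + j) * m (k + j)))) := by
      refine (gf_mono ?_).trans (h (k + j) z l)
      rintro Z ⟨e1, e2, e3⟩
      have e4 := ip_en e1
      rw [e2, g4] at e4
      obtain ⟨c', hc'⟩ := e1
      rw [hgt_eq hc'] at e4
      exact ⟨⟨c', by omega, by omega, hc'⟩, e2, e3⟩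
    have hmj := hm.pos (k + j)
    have hUj := Ub_pos (k + j)
    have h2 : gz z l ≤ C * (Ub (k + j) / (4 ^ (k + j) * m (k + j))) := ENNReal.toReal_le_of_le_ofReal (by positivity) h1
    refine h2.trans (mul_le_mul_of_nonneg_left ?_ hC.le)
    have e1 := EL.ub_shift k j
    have e2 : (2 : ℝ) ^ j * m k ≤ m (k + j) := by
      refine le_trans (mul_le_mul_of_nonneg_right ?_ hmk.le) (hm.low k j)
      rw [← Real.rpow_natCast]
      refine Real.rpow_le_rpow_of_exponent_le (by norm_num) ?_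
      have : (0 : ℝ) ≤ j := Nat.cast_nonneg j
      linarith
    rw [div_le_div_iff₀ (by positivity) (by positivity)]
    have e3 : (1 : ℝ) ≤ 4 ^ j := one_le_pow₀ (by norm_num)
    calc Ub (k + j) * (4 ^ k * m k) ≤ 2 ^ j * Ub k * (4 ^ k * m k) := mul_le_mul_of_nonneg_right e1 (by positivity)
      _ = Ub k * (4 ^ k * (2 ^ j * m k)) := by ring
      _ ≤ Ub k * (4 ^ k * m (k + j)) := by gcongr
      _ ≤ Ub k * (4 ^ k * 4 ^ j * m (k + j)) := by
          refine mul_le_mul_of_nonneg_left ?_ hU.le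
          refine mul_le_mul_of_nonneg_right ?_ hmj.le
          have : (0 : ℝ) < 4 ^ k := by positivity
          nlinarith
      _ = Ub k * (4 ^ (k + j) * m (k + j)) := by rw [pow_add]
  · have : gz z l = 0 := by
      unfold gz
      have e : {Z | Z ∈ BU ∧ en Z = z ∧ Z.length = l} = ∅ := by
        ext Z
        simp only [Set.mem_empty_iff_false, iff_false]
        exact fun h => he ⟨Z, h⟩
      rw [e]
      unfold gf
      simp
    rw [this]
    positivity

/-- LowJ on a factor 8 of heights, in reals -/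
lemma low8 {m : ℕ → ℝ} (hm : MLow m) (hu : MUp m) (hJ : LowJ m) {R a A : ℝ} (hR : 0 < R) (ha : 0 < a) (haA : a ≤ A) :
    ∃ (H : ℕ) (c : ℝ) (k0 : ℕ), 1 ≤ H ∧ 0 < c ∧ ∀ (k h b : ℕ) (x : ℤ), k0 ≤ k → H * 2 ^ k ≤ h → h ≤ 8 * (H * 2 ^ k) →
      Even (x - h) → |(x : ℝ)| ≤ R * h → Even b → a * m k ≤ b → (b : ℝ) ≤ A * m k →
        c * (Ub k / (4 ^ k * m k)) ≤ gz (pt h x) b := by
  obtain ⟨Cm, hCm, hu⟩ := hu
  have hCm0 : 0 < Cm := by linarith
  have hCm2 : 1 ≤ Cm ^ 2 := one_le_pow₀ hCm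
  obtain ⟨H, c, k0, hH, hc, h⟩ := hJ R (a / Cm ^ 2) A hR (by positivity) (by
    rw [div_le_iff₀ (by positivity)]
    nlinarith)
  refine ⟨H, c / (16 * Cm ^ 2), k0, hH, by positivity, fun k h' b x hk h1 h2 hx hxR hb hab hbA => ?_⟩
  have hmk := hm.pos k
  -- the three scales
  have key : ∀ i : ℕ, i ≤ 2 → H * 2 ^ (k + i) ≤ h' → h' ≤ 2 * (H * 2 ^ (k + i)) →
      c / (16 * Cm ^ 2) * (Ub k / (4 ^ k * m k)) ≤ gz (pt h' x) b := by
    intro i hi g1 g2
    have hmi := hm.pos (k + i)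
    have hUk := Ub_pos k
    have hUi := Ub_pos (k + i)
    have e1 : m (k + i) ≤ Cm ^ i * m k := EL.m_iter hCm hu k i
    have e2 : Cm ^ i ≤ Cm ^ 2 := pow_le_pow_right₀ hCm hi
    have e3 : m (k + i) ≤ Cm ^ 2 * m k := e1.trans (mul_le_mul_of_nonneg_right e2 hmk.le)
    have e4 : m k ≤ m (k + i) := by
      refine le_trans ?_ (hm.low k i)
      have : (1 : ℝ) ≤ (2 : ℝ) ^ (5 / 4 * (i : ℝ)) := Real.one_le_rpow (by norm_num) (by positivity)
      nlinarith
    have g3 := h (k + i) h' b x (by omega) g1 g2 hx hxR hb (by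
      refine le_trans ?_ hab
      rw [div_mul_eq_mul_div, div_le_iff₀ (by positivity)]
      calc a * m (k + i) ≤ a * (Cm ^ 2 * m k) := mul_le_mul_of_nonneg_left e3 ha.le
        _ = a * m k * Cm ^ 2 := by ring) (hbA.trans (mul_le_mul_of_nonneg_left e4 (by linarith)))
    rw [gz_pt hx, ENNReal.ofReal_le_ofReal_iff (gz_nonneg _ _)] at g3
    refine le_trans ?_ g3
    have e5 : Ub k ≤ Ub (k + i) := UU_mono (Nat.pow_le_pow_right (by norm_num) (by omega))
    have e6 : (4 : ℝ) ^ (k + i) ≤ 16 * 4 ^ k := by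
      rw [pow_add]
      have : (4 : ℝ) ^ i ≤ 4 ^ 2 := pow_le_pow_right₀ (by norm_num) hi
      have h4 : (0 : ℝ) < 4 ^ k := by positivity
      nlinarith
    have e7 : Ub k / (16 * 4 ^ k * (Cm ^ 2 * m k)) ≤ Ub (k + i) / (4 ^ (k + i) * m (k + i)) := by
      refine div_le_div₀ hUi.le e5 (by positivity) ?_
      exact mul_le_mul e6 e3 hmi.le (by positivity)
    calc c / (16 * Cm ^ 2) * (Ub k / (4 ^ k * m k)) = c * (Ub k / (16 * 4 ^ k * (Cm ^ 2 * m k))) := by
          field_simp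
      _ ≤ _ := mul_le_mul_of_nonneg_left e7 hc.le
  have p1 : H * 2 ^ (k + 1) = 2 * (H * 2 ^ k) := by rw [pow_succ]; ring
  have p2 : H * 2 ^ (k + 2) = 4 * (H * 2 ^ k) := by rw [pow_add]; ring
  rcases Nat.lt_or_ge (2 * (H * 2 ^ k)) h' with g1 | g1
  · rcases Nat.lt_or_ge (4 * (H * 2 ^ k)) h' with g2 | g2
    · exact key 2 le_rfl (by omega) (by omega)
    · exact key 1 (by norm_num) (by omega) (by omega)
  · exact key 0 (by norm_num) (by simpa using h1) (by simpa using g1)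

/-! ### 4. The family of the first parts -/

/-- the heights -/
def Ch (h : ℕ) : Finset ℕ := Finset.Icc ((3 * h + 7) / 8) (5 * h / 8)

lemma mem_Ch {h c : ℕ} (hc : c ∈ Ch h) : 3 * h ≤ 8 * c ∧ 8 * c ≤ 5 * h := by
  unfold Ch at hc
  rw [Finset.mem_Icc] at hc
  omega

lemma card_Ch {h : ℕ} (h8 : 8 ≤ h) : (h : ℝ) / 8 ≤ (Ch h).card := by
  have h1 : h ≤ 8 * (Ch h).card := by
    unfold Ch
    rw [Nat.card_Icc]
    omega
  have h2 : (h : ℝ) ≤ 8 * (Ch h).card := by exact_mod_cast h1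
  linarith

/-- pairs of heights and lateral coordinates -/
lemma famW {h : ℕ} {x : ℤ} (hh : 16 ≤ h) : ∃ W : Finset (ℕ × ℤ), (∀ w ∈ W, 3 * h ≤ 8 * w.1 ∧ 8 * w.1 ≤ 5 * h ∧
    Even (w.2 - w.1) ∧ (x : ℝ) * w.1 / h - h / 8 ≤ w.2 ∧ (w.2 : ℝ) ≤ x * w.1 / h + h / 8) ∧
    (h : ℝ) ^ 2 / 128 ≤ W.card := by
  classical
  have hhR : (16 : ℝ) ≤ h := by exact_mod_cast hh
  have hX : ∀ c : ℕ, ∃ F : Finset ℤ, (∀ y ∈ F, Even (y - c) ∧ (x : ℝ) * c / h - h / 8 ≤ y ∧ (y : ℝ) ≤ x * c / h + h / 8) ∧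
      (h : ℝ) / 16 ≤ F.card := by
    intro c
    obtain ⟨F, h1, h2⟩ := LoN.cnt_int (u := (x : ℝ) * c / h - h / 8) (v := (x : ℝ) * c / h + h / 8) (by linarith) (c : ℤ)
    refine ⟨F, h1, le_trans (le_of_eq ?_) h2⟩
    ring
  choose F hF hFc using hX
  obtain ⟨W, hW⟩ : ∃ W : Finset (ℕ × ℤ), W = (Ch h).biUnion fun c => (F c).image fun y => (c, y) := ⟨_, rfl⟩
  refine ⟨W, ?_, ?_⟩
  · intro w hw
    rw [hW, Finset.mem_biUnion] at hw
    obtain ⟨c, hc, hw⟩ := hw
    obtain ⟨y, hy, rfl⟩ := Finset.mem_image.1 hw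
    obtain ⟨g1, g2⟩ := mem_Ch hc
    obtain ⟨g3, g4, g5⟩ := hF c y hy
    exact ⟨g1, g2, g3, g4, g5⟩
  · have h1 : W.card = ∑ c ∈ Ch h, (F c).card := by
      rw [hW, Finset.card_biUnion]
      · refine Finset.sum_congr rfl fun c _ => ?_
        exact Finset.card_image_of_injective _ (fun y y' e => (Prod.mk.injEq _ _ _ _ ▸ e : _ ∧ _).2)
      · intro c _ c' _ hne
        rw [Function.onFun, Finset.disjoint_left]
        intro w hw hw'
        obtain ⟨y, -, rfl⟩ := Finset.mem_image.1 hw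
        obtain ⟨y', -, e⟩ := Finset.mem_image.1 hw'
        exact hne (congrArg Prod.fst e).symm
    rw [h1]
    push_cast
    calc (h : ℝ) ^ 2 / 128 = (h : ℝ) / 8 * (h / 16) := by ring
      _ ≤ (Ch h).card * ((h : ℝ) / 16) := mul_le_mul_of_nonneg_right (card_Ch (by omega)) (by positivity)
      _ = ∑ _c ∈ Ch h, (h : ℝ) / 16 := by rw [Finset.sum_const, nsmul_eq_mul]
      _ ≤ _ := Finset.sum_le_sum fun c _ => hFc c

/-- the numbers of a first part -/
lemma num_part {R : ℝ} {h : ℕ} {x y : ℤ} {c : ℕ} (hh : 16 ≤ h) (h1 : 3 * h ≤ 8 * c) (h2 : 8 * c ≤ 5 * h)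
    (hx : |(x : ℝ)| ≤ R * h) (h3 : (x : ℝ) * c / h - h / 8 ≤ y) (h4 : (y : ℝ) ≤ x * c / h + h / 8) :
    |(y : ℝ)| ≤ (R + 1) * c ∧ |((x - y : ℤ) : ℝ)| ≤ (R + 1) * ((h - c : ℕ) : ℝ) := by
  have hh0 : (0 : ℝ) < h := by
    have : 0 < h := by omega
    exact_mod_cast this
  have h1R : 3 * (h : ℝ) ≤ 8 * c := by exact_mod_cast h1
  have h2R : 8 * (c : ℝ) ≤ 5 * h := by exact_mod_cast h2
  have hc : ((h - c : ℕ) : ℝ) = h - c := by
    rw [Nat.cast_sub (by omega)]
  have e1 : |(x : ℝ) * c / h| ≤ R * c := by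
    rw [abs_div, abs_mul, abs_of_pos hh0, abs_of_nonneg (Nat.cast_nonneg c : (0 : ℝ) ≤ c), div_le_iff₀ hh0]
    calc |(x : ℝ)| * c ≤ R * h * c := mul_le_mul_of_nonneg_right hx (Nat.cast_nonneg c)
      _ = R * c * h := by ring
  have e2 : |(x : ℝ) - x * c / h| ≤ R * (h - c) := by
    have e3 : (x : ℝ) - x * c / h = x * (h - c) / h := by
      field_simp
    have e4 : (0 : ℝ) ≤ h - c := by linarith
    rw [e3, abs_div, abs_mul, abs_of_pos hh0, abs_of_nonneg e4, div_le_iff₀ hh0]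
    calc |(x : ℝ)| * (h - c) ≤ R * h * (h - c) := mul_le_mul_of_nonneg_right hx e4
      _ = R * (h - c) * h := by ring
  rw [abs_le] at e1 e2
  rw [hc, abs_le, abs_le]
  push_cast
  refine ⟨⟨?_, ?_⟩, ⟨?_, ?_⟩⟩ <;> linarith

end NaB

open NaB LO1

/-- **n3** -/
theorem lowWide_of {m : ℕ → ℝ} (hm : MLow m) (hu : MUp m) (hB : JoB m) (hJ : LowJ m) (hS : SingleB m) : LowWide m := by
  classical
  obtain ⟨K2, hK2, hcore⟩ := core2S hm.pos hB
  obtain ⟨C1, hC1, hup⟩ := gz_up hm hS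
  intro R a A hR ha haA
  have hA : 0 < A := by linarith
  obtain ⟨H, c1, k1, hH, hc1, hlow⟩ := low8 hm hu hJ (R := R + 1) (a := 3 / 8 * a) (A := A) (by linarith) (by positivity)
    (by linarith)
  have hHR : (1 : ℝ) ≤ H := by exact_mod_cast hH
  obtain ⟨c4, hc4⟩ : ∃ c4 : ℝ, c4 = c1 ^ 2 * a / 128 := ⟨_, rfl⟩
  have hc40 : 0 < c4 := by
    rw [hc4]
    positivity
  obtain ⟨ε, hε⟩ : ∃ ε : ℝ, ε = c4 / (32 * H * C1) := ⟨_, rfl⟩
  have hε0 : 0 < ε := by
    rw [hε]
    positivity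
  obtain ⟨M, hM⟩ := wide_mass hε0
  obtain ⟨k2, hk2⟩ := EL.m_large hm (16 / a)
  refine ⟨4 * H, (c4 / 2) ^ 2 / (K2 * (8 * H)), 16 * M * H + 1, k1 + k2 + 2, by omega, by positivity, by
    have : (0 : ℝ) ≤ 16 * M * H := by positivity
    linarith, fun k h b x hk hh1 hh2 hx hxR hb hab hbA => ?_⟩
  have hmk := hm.pos k
  obtain ⟨U, hUd⟩ : ∃ U, U = Ub k := ⟨_, rfl⟩
  have hU : 0 < U := by
    rw [hUd]
    exact Ub_pos k
  have hP4 : (0 : ℝ) < 4 ^ k := by positivity
  -- numbers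
  have hp : 4 ≤ 2 ^ k := by
    calc 4 = 2 ^ 2 := by norm_num
      _ ≤ 2 ^ k := Nat.pow_le_pow_right (by norm_num) (by omega)
  have hHp : 2 ^ k ≤ H * 2 ^ k := Nat.le_mul_of_pos_left _ hH
  have hh16 : 16 ≤ h := by
    have : 4 * H * 2 ^ k = 4 * (H * 2 ^ k) := by ring
    omega
  have hh1' : 4 * (H * 2 ^ k) ≤ h := by
    have : 4 * H * 2 ^ k = 4 * (H * 2 ^ k) := by ring
    omega
  have hh2' : h ≤ 8 * (H * 2 ^ k) := by
    have : 2 * (4 * H * 2 ^ k) = 8 * (H * 2 ^ k) := by ring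
    omega
  have hb16 : (16 : ℝ) ≤ b := by
    have := hk2 k (by omega)
    rw [div_le_iff₀ ha] at this
    linarith
  have hb0 : (0 : ℝ) < b := by linarith
  -- the family
  obtain ⟨W, hW, hWc⟩ := famW (h := h) (x := x) hh16
  obtain ⟨L, hL, hLc⟩ := LoN.cnt_nat (u := 3 / 8 * (b : ℝ)) (v := 5 / 8 * (b : ℝ)) (by positivity) (by linarith)
  have hLb : ∀ l ∈ L, l ≤ b := fun l hl => by
    have h1 := (hL l hl).2.2
    have h2 : (l : ℝ) ≤ b := by linarith
    exact_mod_cast h2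
  obtain ⟨D, hD⟩ : ∃ D : Finset (Pt × ℕ), D = W.biUnion fun w => L.image fun l => (pt w.1 w.2, l) := ⟨_, rfl⟩
  obtain ⟨κ, hκ⟩ : ∃ κ : ℝ, κ = U / (4 ^ k * m k) := ⟨_, rfl⟩
  have hκ0 : 0 < κ := by
    rw [hκ]
    positivity
  -- the members
  have hmem : ∀ p ∈ D, ∃ (c : ℕ) (y : ℤ) (l : ℕ), (c, y) ∈ W ∧ l ∈ L ∧ p = (pt c y, l) ∧ Even (y - c) ∧
      Even ((x - y) - ((h - c : ℕ) : ℤ)) ∧ pt h x - pt c y = pt (h - c) (x - y) ∧ H * 2 ^ k ≤ c ∧ c ≤ 8 * (H * 2 ^ k) ∧
      H * 2 ^ k ≤ h - c ∧ h - c ≤ 8 * (H * 2 ^ k) ∧ |(y : ℝ)| ≤ (R + 1) * c ∧ |((x - y : ℤ) : ℝ)| ≤ (R + 1) * ((h - c : ℕ) : ℝ) := by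
    intro p hp
    rw [hD, Finset.mem_biUnion] at hp
    obtain ⟨⟨c, y⟩, hw, hp⟩ := hp
    obtain ⟨l, hl, rfl⟩ := Finset.mem_image.1 hp
    obtain ⟨g1, g2, g3, g4, g5⟩ := hW _ hw
    simp only at g1 g2 g3 g4 g5
    have g6 := num_part hh16 g1 g2 hxR g4 g5
    refine ⟨c, y, l, hw, hl, rfl, g3, ?_, pt_sub (by omega) hx g3, by omega, by omega, by omega, by omega, g6.1, g6.2⟩
    rw [Int.even_iff] at hx g3 ⊢
    omega
  have hlb : ∀ l ∈ L, Even l ∧ 3 / 8 * a * m k ≤ l ∧ (l : ℝ) ≤ A * m k := by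
    intro l hl
    obtain ⟨g1, g2, g3⟩ := hL l hl
    refine ⟨g1, ?_, ?_⟩
    · nlinarith
    · nlinarith
  have hlb' : ∀ l ∈ L, Even (b - l) ∧ 3 / 8 * a * m k ≤ ((b - l : ℕ) : ℝ) ∧ ((b - l : ℕ) : ℝ) ≤ A * m k := by
    intro l hl
    obtain ⟨g1, g2, g3⟩ := hL l hl
    have g4 := hLb l hl
    have g5 : ((b - l : ℕ) : ℝ) = b - l := by rw [Nat.cast_sub g4]
    refine ⟨(Nat.even_sub g4).2 ⟨fun _ => g1, fun _ => hb⟩, ?_, ?_⟩
    · rw [g5]
      nlinarith
    · rw [g5]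
      nlinarith
  -- the sum
  have hsum : ∑ p ∈ D, gz p.1 p.2 * gz (pt h x - p.1) (b - p.2) =
      ∑ w ∈ W, ∑ l ∈ L, gz (pt w.1 w.2) l * gz (pt (h - w.1) (x - w.2)) (b - l) := by
    rw [hD, Finset.sum_biUnion]
    · refine Finset.sum_congr rfl fun w hw => ?_
      obtain ⟨a1, a2, a3, a4, a5⟩ := hW w hw
      rw [Finset.sum_image (fun l _ l' _ h => (Prod.mk.injEq _ _ _ _ ▸ h : _ ∧ _).2)]
      refine Finset.sum_congr rfl fun l _ => ?_
      rw [pt_sub (by omega) hx a3]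
    · intro w hw w' hw' hne
      have a' := (hW w hw).2.2.1
      have a'' := (hW w' hw').2.2.1
      rw [Function.onFun, Finset.disjoint_left]
      intro p hp hp'
      obtain ⟨l, hl, rfl⟩ := Finset.mem_image.1 hp
      obtain ⟨l', hl', he⟩ := Finset.mem_image.1 hp'
      have e1 := congrArg Prod.fst he
      obtain ⟨e2, e3⟩ := pt_inj a'' a' e1
      exact hne (Prod.ext e2.symm e3.symm)
  have hE0 : c4 * (U ^ 2 / (4 ^ k * m k)) ≤ ∑ p ∈ D, gz p.1 p.2 * gz (pt h x - p.1) (b - p.2) := by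
    rw [hsum]
    have g1 : ∀ w ∈ W, ∀ l ∈ L, (c1 * κ) * (c1 * κ) ≤ gz (pt w.1 w.2) l * gz (pt (h - w.1) (x - w.2)) (b - l) := by
      intro w hw l hl
      obtain ⟨a1, a2, a3, a4, a5⟩ := hW w hw
      obtain ⟨f1, f2⟩ := num_part hh16 a1 a2 hxR a4 a5
      obtain ⟨b1, b2, b3⟩ := hlb l hl
      obtain ⟨b4, b5, b6⟩ := hlb' l hl
      have f3 := hlow k w.1 l w.2 (by omega) (by omega) (by omega) a3 f1 b1 b2 b3
      have f4 := hlow k (h - w.1) (b - l) (x - w.2) (by omega) (by omega) (by omega) (by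
        rw [Int.even_iff] at hx a3 ⊢
        omega) f2 b4 b5 b6
      rw [← hUd, ← hκ] at f3 f4
      exact mul_le_mul f3 f4 (by positivity) (gz_nonneg _ _)
    have g2 : (W.card : ℝ) * (L.card * ((c1 * κ) * (c1 * κ))) ≤
        ∑ w ∈ W, ∑ l ∈ L, gz (pt w.1 w.2) l * gz (pt (h - w.1) (x - w.2)) (b - l) := by
      rw [← nsmul_eq_mul, ← nsmul_eq_mul, ← Finset.sum_const, ← Finset.sum_const]
      exact Finset.sum_le_sum fun w hw => Finset.sum_le_sum fun l hl => g1 w hw l hl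
    refine le_trans ?_ g2
    have g3 : (4 : ℝ) ^ k * 16 ≤ (h : ℝ) ^ 2 := by
      have e1 : (4 : ℝ) * 2 ^ k ≤ h := by
        have : 4 * 2 ^ k ≤ h := by omega
        exact_mod_cast this
      have e2 : (4 : ℝ) ^ k = (2 ^ k) ^ 2 := by
        rw [← pow_mul, mul_comm k 2, pow_mul]
        norm_num
      rw [e2]
      have e3 : (0 : ℝ) < 2 ^ k := by positivity
      nlinarith
    have g4 : a * m k / 16 ≤ L.card := by
      refine le_trans ?_ hLc
      linarith
    have g5 : 4 ^ k / 8 ≤ (W.card : ℝ) := by linarith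
    calc c4 * (U ^ 2 / (4 ^ k * m k)) = 4 ^ k / 8 * (a * m k / 16 * ((c1 * κ) * (c1 * κ))) := by
          rw [hc4, hκ]
          field_simp
          ring
      _ ≤ (W.card : ℝ) * (a * m k / 16 * ((c1 * κ) * (c1 * κ))) := mul_le_mul_of_nonneg_right g5 (by positivity)
      _ ≤ _ := by
          refine mul_le_mul_of_nonneg_left ?_ (Nat.cast_nonneg _)
          exact mul_le_mul_of_nonneg_right g4 (by positivity)
  -- the pairs in the tube
  obtain ⟨r, hr⟩ : ∃ r : ℝ, r = M * ((8 * (H * 2 ^ k) : ℕ) : ℝ) := ⟨_, rfl⟩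
  have hwide := wide_pairs (D := D) (v := pt h x) (n := b) (N := 8 * (H * 2 ^ k)) (r := r) (κ := C1 * κ) (fun p hp => by
      obtain ⟨c, y, l, -, -, rfl, g1, g2, g3, g4, g5, g6, g7, -, -⟩ := hmem p hp
      rw [hκ, hUd]
      refine hup k _ _ ?_
      show 3 * 2 ^ k ≤ ip (pt c y) up
      rw [ip_pt g1]
      have : ((2 ^ k : ℕ) : ℤ) ≤ c := by
        have : 2 ^ k ≤ c := by omega
        exact_mod_cast this
      push_cast at this
      linarith) (fun p hp => by
      obtain ⟨c, y, l, -, -, rfl, g1, g2, g3, g4, g5, g6, g7, -, -⟩ := hmem p hp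
      rw [hκ, hUd]
      refine hup k _ _ ?_
      show 3 * 2 ^ k ≤ ip (pt h x - pt c y) up
      rw [g3, ip_pt g2]
      have : ((2 ^ k : ℕ) : ℤ) ≤ ((h - c : ℕ) : ℤ) := by
        have : 2 ^ k ≤ h - c := by omega
        exact_mod_cast this
      push_cast at this ⊢
      linarith) (fun p hp => by
      obtain ⟨c, y, l, -, -, rfl, g1, g2, g3, g4, g5, g6, g7, -, -⟩ := hmem p hp
      constructor
      · show ip (pt c y) up ≤ _
        rw [ip_pt g1]
        have : (c : ℤ) ≤ ((8 * (H * 2 ^ k) : ℕ) : ℤ) := by exact_mod_cast g5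
        linarith
      · show ip (pt h x - pt c y) up ≤ _
        rw [g3, ip_pt g2]
        have : ((h - c : ℕ) : ℤ) ≤ ((8 * (H * 2 ^ k) : ℕ) : ℤ) := by exact_mod_cast g7
        linarith)
  rw [E1_PD (fun p hp => by
    obtain ⟨c, y, l, -, g2, rfl, -⟩ := hmem p hp
    exact hLb l g2)] at hwide
  have hUH : UU (8 * (H * 2 ^ k)) ≤ 8 * H * U := by
    obtain ⟨j, hj⟩ : ∃ j, 8 * H = j + 1 := ⟨8 * H - 1, by omega⟩
    have g1 := UU_mul_le j (2 ^ k)
    rw [← hj] at g1
    have g2 : (j : ℝ) + 1 = 8 * H := by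
      have : ((j + 1 : ℕ) : ℝ) = ((8 * H : ℕ) : ℝ) := by rw [hj]
      push_cast at this
      exact this
    rw [g2] at g1
    have g3 : 8 * H * 2 ^ k = 8 * (H * 2 ^ k) := by ring
    rw [g3] at g1
    rw [hUd]
    exact g1
  have hwm := hM (8 * (H * 2 ^ k)) r (le_of_eq hr.symm)
  have hbad : 2 * (gf (WdB (8 * (H * 2 ^ k)) r) * ENNReal.ofReal (C1 * κ)) ≤ ENNReal.ofReal (c4 / 2 * (U ^ 2 / (4 ^ k * m k))) := by
    calc 2 * (gf (WdB (8 * (H * 2 ^ k)) r) * ENNReal.ofReal (C1 * κ))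
        ≤ 2 * (ENNReal.ofReal (ε * (8 * H * U)) * ENNReal.ofReal (C1 * κ)) := by
          gcongr
          exact hwm.trans (ENNReal.ofReal_le_ofReal (mul_le_mul_of_nonneg_left hUH hε0.le))
      _ = ENNReal.ofReal (c4 / 2 * (U ^ 2 / (4 ^ k * m k))) := by
          rw [← ENNReal.ofReal_mul (by positivity), ← ENNReal.ofReal_ofNat, ← ENNReal.ofReal_mul (by norm_num)]
          congr 1
          rw [hε, hκ]
          field_simp
          ring
  have hE1 : ENNReal.ofReal (c4 / 2 * (U ^ 2 / (4 ^ k * m k))) ≤ E1 (PT D (pt h x) b r) := by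
    have g1 := (ENNReal.ofReal_le_ofReal hE0).trans (hwide.trans (add_le_add le_rfl hbad))
    have e1 : c4 * (U ^ 2 / (4 ^ k * m k)) = c4 / 2 * (U ^ 2 / (4 ^ k * m k)) + c4 / 2 * (U ^ 2 / (4 ^ k * m k)) := by ring
    rw [e1, ENNReal.ofReal_add (by positivity) (by positivity)] at g1
    exact (ENNReal.add_le_add_iff_right ENNReal.ofReal_ne_top).1 g1
  -- the core
  obtain ⟨S, hSd⟩ : ∃ S : Set (List Bool), S = {Z | Z ∈ EndB h x ∧ Z.length = b ∧
    ∀ i, i ≤ Z.length → |(lat Z i : ℝ)| ≤ (16 * M * H + 1) * 2 ^ k} := ⟨_, rfl⟩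
  have hSf : gf S ≠ ⊤ := by
    refine ne_top_of_le_ne_top (gz_fin (pt h x) b) (gf_mono ?_)
    rw [hSd]
    rintro Z ⟨g1, g2, -⟩
    exact ⟨⟨h, g1.1⟩, en_pt g1, g2⟩
  have hfin := hcore k h b (pt h x) S (PT D (pt h x) b r) (c4 / 2 * (U ^ 2 / (4 ^ k * m k))) (by positivity) (by
      rintro u w ⟨⟨g1, g2, g3, g4, g5⟩, -, -⟩
      obtain ⟨c, y, l, -, -, e, f1, f2, f3, f4, f5, f6, f7, -, -⟩ := hmem _ g1
      have e1 : en u = pt c y := congrArg Prod.fst e
      have e2 : en w = pt (h - c) (x - y) := by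
        rw [← f3, ← e1, ← g4]
        abel
      have e3 := ip_en g2
      have e4 := ip_en g3
      rw [e1, ip_pt f1] at e3
      rw [e2, ip_pt f2] at e4
      obtain ⟨n1, hn1⟩ := g2
      obtain ⟨n2, hn2⟩ := g3
      rw [hgt_eq hn1] at e3
      rw [hgt_eq hn2] at e4
      exact ⟨⟨n1, by omega, hn1⟩, ⟨n2, by omega, hn2⟩, g4, g5⟩) (by
      rintro u w ⟨⟨g1, g2, g3, g4, g5⟩, g6, g7⟩
      rw [hSd]
      obtain ⟨n1, hn1⟩ := g2
      have hBU : u ++ w ∈ BU := by
        obtain ⟨n2, hn2⟩ := g3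
        exact ⟨_, Brd_append hn1 hn2⟩
      have hr2 : 2 * r ≤ (16 * M * H + 1) * 2 ^ k := by
        rw [hr]
        push_cast
        have : (0 : ℝ) < 2 ^ k := by positivity
        nlinarith
      have hr0 : 0 ≤ r := by
        rw [hr]
        positivity
      refine ⟨mem_EndB hx hBU ?_, by rw [List.length_append, g5], fun i hi => ?_⟩
      · rw [en_app ⟨n1, hn1⟩, g4]
      · rcases Nat.lt_or_ge u.length i with f1 | f1
        · obtain ⟨i', rfl⟩ : ∃ i', i = u.length + i' := ⟨i - u.length, by omega⟩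
          rw [lat_cat (mem_Brd.1 hn1).2.2.1]
          have f2 := g6 u.length le_rfl
          have f3 := g7 i' (by rw [List.length_append] at hi; omega)
          have f4 : (latE u : ℝ) = (lat u u.length : ℝ) := rfl
          push_cast
          rw [f4]
          refine (abs_add_le _ _).trans ?_
          linarith
        · rw [lat_append (by omega)]
          refine (g6 i f1).trans ?_
          linarith) hSf (le_of_eq (ip_pt hx)) hE1
  rw [ENNReal.ofReal_le_iff_le_toReal (by rw [← hSd]; exact hSf), ← hSd]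
  refine le_trans ?_ hfin
  rw [← hUd]
  have hUh : UU h ≤ 8 * H * U := (UU_mono hh2').trans hUH
  have hUh0 : 0 < UU h := Num2Aux.UU_pos h
  calc (c4 / 2) ^ 2 / (K2 * (8 * H)) * (U / (4 ^ k * m k))
      = (c4 / 2 * (U ^ 2 / (4 ^ k * m k))) ^ 2 / (K2 * (8 * H * U * (U ^ 2 / (4 ^ k * m k)))) := by
        field_simp
    _ ≤ _ := by
        refine div_le_div_of_nonneg_left (by positivity) (by positivity) ?_
        refine mul_le_mul_of_nonneg_left ?_ hK2.le
        exact mul_le_mul_of_nonneg_right hUh (by positivity)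

end JNT

end HexObs
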