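import Pool.Agent.RSWP.LocalT
import Pool.Agent.NTA.MeanM

/-!
JNT (joint local bounds): the pointwise lower bound for the bridges with few letters.
-/

set_option autoImplicit false

namespace HexObs

namespace JNT

open Finset ENNReal RP

/-- pointwise lower bound for the bridges of height h with at most L h letters, |x| at most R h -/
def ShP (L : ℕ → ℝ) (R : ℝ) : Prop := ∃ (c : ℝ) (t0 : ℕ), 0 < c ∧ ∀ (h : ℕ) (x : ℤ), t0 ≤ h → Even (x - h) →
  |(x : ℝ)| ≤ R * h → ENNReal.ofReal (c * (uu h / h)) ≤ gf {b | b ∈ EndB h x ∧ (b.length : ℝ) ≤ L h}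

/-- the heights of the mark -/
def Wn (h : ℕ) : Finset ℕ := (range (h + 1)).filter fun c => 9 * h ≤ 20 * c ∧ 20 * c ≤ 11 * h

lemma mem_Wn {h c : ℕ} : c ∈ Wn h ↔ c < h + 1 ∧ 9 * h ≤ 20 * c ∧ 20 * c ≤ 11 * h := by
  unfold Wn
  rw [Finset.mem_filter, Finset.mem_range]

lemma card_Wn_le (h : ℕ) : (Wn h).card ≤ h + 1 := by
  unfold Wn
  exact (Finset.card_filter_le _ _).trans (le_of_eq (Finset.card_range _))

lemma card_Wn_ge (h : ℕ) : h / 20 ≤ (Wn h).card := by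
  have h1 : Finset.Icc ((9 * h + 19) / 20) (11 * h / 20) ⊆ Wn h := by
    intro c hc
    rw [Finset.mem_Icc] at hc
    rw [mem_Wn]
    omega
  have h2 := Finset.card_le_card h1
  rw [Nat.card_Icc] at h2
  omega

lemma Wn_half {h c : ℕ} (hh : 4 ≤ h) (hc : c ∈ Wn h) : c ≤ h ∧ h / 4 ≤ c ∧ h / 4 ≤ h - c ∧ h ≤ 4 * c ∧ h ≤ 4 * (h - c) ∧
    1 ≤ c ∧ 1 ≤ h - c := by
  rw [mem_Wn] at hc
  omega

/-- the one-mark lemma in numbers -/
lemma core : ∃ K : ℝ, 0 < K ∧ ∀ κ : ℝ, 0 < κ → ∀ (h : ℕ) (x : ℤ) (A B : ℕ → Set (List Bool)) (S : Set (List Bool)),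
    4 ≤ h → (∀ c ∈ Wn h, A c ⊆ Brd c) → (∀ c ∈ Wn h, B c ⊆ Brd (h - c)) →
    (∀ c ∈ Wn h, ∀ a ∈ A c, ∀ b ∈ B c, latE a + latE b = x → a ++ b ∈ S) →
    ENNReal.ofReal (κ * uu h ^ 2) ≤ ∑ c ∈ Wn h, conv2 (A c) (B c) x →
    ENNReal.ofReal (κ ^ 2 / K * (uu h / h)) ≤ gf S := by
  obtain ⟨C3, hC3, hconv⟩ := conv3_le
  obtain ⟨D, hD, hq⟩ := Local0.uu_quarter
  have hCW := Num2Aux.CW_pos
  have hD0 : 0 < D := by linarith
  obtain ⟨K0, hK0⟩ : ∃ K0 : ℝ, K0 = 8 * C3 * D ^ 2 := ⟨_, rfl⟩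
  have hK0p : 0 < K0 := by
    rw [hK0]
    positivity
  refine ⟨16 * K0 * (6 + CW), by positivity, fun κ hκ h x A B S hh hA hB hS hsum => ?_⟩
  have hh0 : (0 : ℝ) < h := by
    have : 0 < h := by omega
    exact_mod_cast this
  have hh1 : (1 : ℝ) ≤ h := by
    have : 1 ≤ h := by omega
    exact_mod_cast this
  have hu : 0 < uu h := uu_pos h
  have hUU : 0 < UU h := Num2Aux.UU_pos h
  have hUl := UU_le_mul (T := h) (by omega)
  -- the denominator
  have h3 : ∀ c ∈ Wn h, ∀ c' ∈ (Wn h).filter (fun c' => c ≤ c'), conv3 (Brd c) (Brd (c' - c)) (Brd (h - c')) x ≤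
      ENNReal.ofReal (4 * C3 * D ^ 2 / h * uu h ^ 2 * uu (c' - c)) := by
    intro c hc c' hc'
    obtain ⟨hc1, hc2⟩ := Finset.mem_filter.1 hc'
    obtain ⟨a1, a2, a3, a4, a5, a6, a7⟩ := Wn_half hh hc
    obtain ⟨b1, b2, b3, b4, b5, b6, b7⟩ := Wn_half hh hc1
    refine (hconv c (c' - c) (h - c') x b7).trans (ENNReal.ofReal_le_ofReal ?_)
    have e1 : uu c ≤ D * uu h := (uu_anti a2).trans (hq h hh)
    have e2 : uu (h - c') ≤ D * uu h := (uu_anti b3).trans (hq h hh)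
    have e3 : (0 : ℝ) < ((h - c' : ℕ) : ℝ) := by exact_mod_cast b7
    have e4 : (h : ℝ) ≤ 4 * ((h - c' : ℕ) : ℝ) := by exact_mod_cast b5
    have e5 : uu (h - c') / ((h - c' : ℕ) : ℝ) ≤ D * uu h * (4 / h) := by
      rw [div_le_iff₀ e3]
      calc uu (h - c') ≤ D * uu h * 1 := by linarith
        _ ≤ D * uu h * (4 / h * ((h - c' : ℕ) : ℝ)) := by
            refine mul_le_mul_of_nonneg_left ?_ (by positivity)
            rw [div_mul_eq_mul_div, le_div_iff₀ hh0]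
            linarith
        _ = _ := by ring
    have e6 : 0 < uu (c' - c) := uu_pos _
    have e7 : 0 ≤ uu (h - c') / ((h - c' : ℕ) : ℝ) := by
      have := uu_pos (h - c')
      positivity
    calc C3 * (uu c * uu (c' - c) * (uu (h - c') / ((h - c' : ℕ) : ℝ)))
        ≤ C3 * (D * uu h * uu (c' - c) * (D * uu h * (4 / h))) := by
          have := uu_pos c
          gcongr
      _ = _ := by ring
  have h4 : ∀ c ∈ Wn h, ∑ c' ∈ (Wn h).filter (fun c' => c ≤ c'), conv3 (Brd c) (Brd (c' - c)) (Brd (h - c')) x ≤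
      ENNReal.ofReal (4 * C3 * D ^ 2 / h * uu h ^ 2 * UU h) := by
    intro c hc
    refine (Finset.sum_le_sum (h3 c hc)).trans ?_
    rw [← ENNReal.ofReal_sum_of_nonneg (fun c' _ => by
      have := uu_pos (c' - c)
      positivity), ← Finset.mul_sum]
    refine ENNReal.ofReal_le_ofReal (mul_le_mul_of_nonneg_left ?_ (by positivity))
    have e1 : Set.InjOn (fun c' => c' - c) ((Wn h).filter (fun c' => c ≤ c') : Set ℕ) := by
      intro i hi j hj hij
      have hi' := (Finset.mem_filter.1 (Finset.mem_coe.1 hi)).2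
      have hj' := (Finset.mem_filter.1 (Finset.mem_coe.1 hj)).2
      simp only at hij
      omega
    rw [← Finset.sum_image (f := fun d => uu d) e1]
    unfold UU
    refine Finset.sum_le_sum_of_subset_of_nonneg ?_ fun d _ _ => (uu_pos d).le
    intro d hd
    obtain ⟨c', hc', rfl⟩ := Finset.mem_image.1 hd
    have h5 := (mem_Wn.1 (Finset.mem_filter.1 hc').1).1
    rw [Finset.mem_range]
    omega
  have h5 : ∑ c ∈ Wn h, ∑ c' ∈ (Wn h).filter (fun c' => c ≤ c'), conv3 (Brd c) (Brd (c' - c)) (Brd (h - c')) x ≤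
      ENNReal.ofReal (K0 * (uu h ^ 2 * UU h)) := by
    refine (Finset.sum_le_sum h4).trans ?_
    rw [Finset.sum_const, nsmul_eq_mul, ← ENNReal.ofReal_natCast, ← ENNReal.ofReal_mul (by positivity)]
    refine ENNReal.ofReal_le_ofReal ?_
    have e1 : ((Wn h).card : ℝ) ≤ 2 * h := by
      have : (Wn h).card ≤ 2 * h := (card_Wn_le h).trans (by omega)
      exact_mod_cast this
    calc ((Wn h).card : ℝ) * (4 * C3 * D ^ 2 / h * uu h ^ 2 * UU h) ≤ 2 * h * (4 * C3 * D ^ 2 / h * uu h ^ 2 * UU h) := by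
          gcongr
      _ = K0 * (uu h ^ 2 * UU h) := by
          rw [hK0]
          field_simp
          ring
  -- the choice of l
  obtain ⟨lam, hlam⟩ : ∃ lam : ℝ, lam = 4 * K0 / κ := ⟨_, rfl⟩
  have hlam0 : 0 < lam := by
    rw [hlam]
    positivity
  have hl0 : 0 < lam * UU h := by positivity
  have h6 := one_mark (t := h) (I := Wn h) (fun c hc => (Wn_half hh hc).1) A B hA hB x S hS (ENNReal.ofReal (lam * UU h))
    (by rw [Ne, ENNReal.ofReal_eq_zero]; linarith) ENNReal.ofReal_ne_top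
  have h7 : (ENNReal.ofReal (lam * UU h))⁻¹ * (2 * ∑ c ∈ Wn h, ∑ c' ∈ (Wn h).filter (fun c' => c ≤ c'),
      conv3 (Brd c) (Brd (c' - c)) (Brd (h - c')) x) ≤ ENNReal.ofReal (κ / 2 * uu h ^ 2) := by
    refine (mul_le_mul_right (mul_le_mul_right h5 2) _).trans (le_of_eq ?_)
    rw [← ENNReal.ofReal_inv_of_pos hl0, show (2 : ℝ≥0∞) = ENNReal.ofReal 2 by norm_num, ← ENNReal.ofReal_mul (by norm_num),
      ← ENNReal.ofReal_mul (by positivity)]
    congr 1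
    rw [hlam]
    field_simp
    ring
  by_contra hc
  push Not at hc
  have h8 : ENNReal.ofReal (lam * UU h) * gf S ≤ ENNReal.ofReal (κ / 4 * uu h ^ 2) := by
    refine (mul_le_mul_right hc.le _).trans ?_
    rw [← ENNReal.ofReal_mul hl0.le]
    refine ENNReal.ofReal_le_ofReal ?_
    have e1 : lam * UU h * (κ ^ 2 / (16 * K0 * (6 + CW)) * (uu h / h)) = κ / 4 * (UU h / ((6 + CW) * h) * uu h) := by
      rw [hlam]
      field_simp
      ring
    rw [e1]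
    have e2 : UU h / ((6 + CW) * h) ≤ uu h := by
      rw [div_le_iff₀ (by positivity)]
      linarith
    calc κ / 4 * (UU h / ((6 + CW) * h) * uu h) ≤ κ / 4 * (uu h * uu h) := by gcongr
      _ = _ := by ring
  have h9 := hsum.trans (h6.trans (add_le_add h8 h7))
  rw [← ENNReal.ofReal_add (by positivity) (by positivity), ENNReal.ofReal_le_ofReal_iff (by positivity)] at h9
  have h10 : 0 < κ * uu h ^ 2 := by positivity
  nlinarith

lemma sum_gf_le (F : Finset ℕ) (E : ℕ → Set (List Bool)) {G : Set (List Bool)}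
    (hd : ∀ i j : ℕ, i ≠ j → Disjoint (E i) (E j)) (h : ∀ n ∈ F, E n ⊆ G) : ∑ n ∈ F, gf (E n) ≤ gf G := by
  classical
  induction F using Finset.induction_on generalizing G with
  | empty => simp
  | insert a F ha ih =>
    rw [Finset.sum_insert ha]
    have h1 := ih (G := {t | t ∈ G ∧ t ∉ E a}) (fun n hn t ht =>
      ⟨h n (Finset.mem_insert_of_mem hn) ht, fun h2 => Set.disjoint_left.1 (hd n a (fun h3 => ha (h3 ▸ hn))) ht h2⟩)
    calc gf (E a) + ∑ n ∈ F, gf (E n) ≤ gf (E a) + gf {t | t ∈ G ∧ t ∉ E a} := by gcongr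
      _ = gf (E a ∪ {t | t ∈ G ∧ t ∉ E a}) := by
          rw [gf_union]
          rw [Set.disjoint_left]
          rintro t h2 ⟨-, h3⟩
          exact h3 h2
      _ ≤ gf G := by
          apply gf_mono
          rintro t (h2 | h2)
          · exact h a (Finset.mem_insert_self _ _) h2
          · exact h2.1

/-- the mass of a window of width δ c -/
lemma mass_ge {c : ℕ} {P : Set (List Bool)} {δ κ y : ℝ} (hδ : 0 < δ) (hδc : 8 ≤ δ * c) (hκ : 0 ≤ κ)
    (h : ∀ x : ℤ, Even (x - c) → |(x : ℝ) - y| ≤ δ / 2 * c → ENNReal.ofReal (κ * (uu c / c)) ≤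
      gf {b | b ∈ EndB c x ∧ b ∈ P}) :
    ENNReal.ofReal (δ / 8 * κ * uu c) ≤ gf {a | a ∈ Brd c ∧ a ∈ P ∧ |(latE a : ℝ) - y| ≤ δ / 2 * c} := by
  have hc0 : (0 : ℝ) < c := by
    by_contra hc
    push Not at hc
    nlinarith
  have hu := uu_pos c
  obtain ⟨z, hz⟩ : ∃ z : ℤ, z = ⌈y - δ / 2 * c⌉ := ⟨_, rfl⟩
  have hz1 : y - δ / 2 * c ≤ z := by
    rw [hz]
    exact Int.le_ceil _
  have hz2 : (z : ℝ) < y - δ / 2 * c + 1 := by
    rw [hz]
    exact Int.ceil_lt_add_one _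
  obtain ⟨x0, hx0⟩ : ∃ x0 : ℤ, x0 = z + (z - c) % 2 := ⟨_, rfl⟩
  have hx1 : z ≤ x0 := by omega
  have hx2 : x0 ≤ z + 1 := by omega
  have hx3 : Even (x0 - c) := by
    rw [Int.even_iff]
    omega
  obtain ⟨N, hN⟩ : ∃ N : ℕ, N = ⌊δ * c / 4⌋₊ := ⟨_, rfl⟩
  have hN1 : (N : ℝ) ≤ δ * c / 4 := by
    rw [hN]
    exact Nat.floor_le (by positivity)
  have hN2 : δ * c / 8 ≤ N := by
    have h1 : δ * c / 4 < N + 1 := by
      rw [hN]
      exact Nat.lt_floor_add_one _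
    linarith
  have hx1' : (z : ℝ) ≤ x0 := by exact_mod_cast hx1
  have hx2' : (x0 : ℝ) ≤ z + 1 := by exact_mod_cast hx2
  have key : ∀ i ∈ range N, ENNReal.ofReal (κ * (uu c / c)) ≤ gf {b | b ∈ EndB c (x0 + 2 * i) ∧ b ∈ P} ∧
      |((x0 + 2 * (i : ℤ) : ℤ) : ℝ) - y| ≤ δ / 2 * c := by
    intro i hi
    rw [Finset.mem_range] at hi
    have hi0 : (0 : ℝ) ≤ (i : ℝ) := Nat.cast_nonneg i
    have hi1 : (i : ℝ) ≤ N := by exact_mod_cast hi.le
    have h2 : |((x0 + 2 * (i : ℤ) : ℤ) : ℝ) - y| ≤ δ / 2 * c := by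
      push_cast
      rw [abs_le]
      constructor <;> linarith
    refine ⟨h _ ?_ h2, h2⟩
    obtain ⟨r, hr⟩ := hx3
    exact ⟨r + i, by linarith⟩
  have h1 := sum_gf_le (range N) (fun i => {b | b ∈ EndB c (x0 + 2 * i) ∧ b ∈ P})
    (G := {a | a ∈ Brd c ∧ a ∈ P ∧ |(latE a : ℝ) - y| ≤ δ / 2 * c}) (fun i j hij => by
      rw [Set.disjoint_left]
      rintro b ⟨⟨-, h2⟩, -⟩ ⟨⟨-, h3⟩, -⟩
      omega) (fun i hi => by
      rintro b ⟨⟨h2, h3⟩, h4⟩
      refine ⟨h2, h4, ?_⟩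
      rw [h3]
      exact (key i hi).2)
  refine le_trans ?_ ((Finset.sum_le_sum fun i hi => (key i hi).1).trans h1)
  rw [Finset.sum_const, Finset.card_range, nsmul_eq_mul, ← ENNReal.ofReal_natCast, ← ENNReal.ofReal_mul (by positivity)]
  refine ENNReal.ofReal_le_ofReal ?_
  calc δ / 8 * κ * uu c = δ * c / 8 * (κ * (uu c / c)) := by
        field_simp
    _ ≤ N * (κ * (uu c / c)) := by
        gcongr

/-- the first moment of the number of pairs, from the pointwise lower bounds of the two pieces -/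
lemma main_low {P : ℕ → Set (List Bool)} {R R' κ : ℝ} {t1 : ℕ} (hR' : 0 < R') (hRR : R' < R) (hκ : 0 < κ)
    (hP : ∀ (h : ℕ) (x : ℤ), t1 ≤ h → Even (x - h) → |(x : ℝ)| ≤ R * h →
      ENNReal.ofReal (κ * (uu h / h)) ≤ gf {b | b ∈ EndB h x ∧ b ∈ P h}) :
    ∃ t0 : ℕ, ∀ (h : ℕ) (x : ℤ), t0 ≤ h → Even (x - h) → |(x : ℝ)| ≤ R' * h →
      ENNReal.ofReal ((R - R') * κ ^ 2 / 320 * uu h ^ 2) ≤ ∑ c ∈ Wn h,
        conv2 {a | a ∈ Brd c ∧ a ∈ P c ∧ |(latE a : ℝ) - x * c / h| ≤ (R - R') / 2 * c} {b | b ∈ Brd (h - c) ∧ b ∈ P (h - c)} x := by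
  obtain ⟨δ, hδ⟩ : ∃ δ : ℝ, δ = R - R' := ⟨_, rfl⟩
  have hδ0 : 0 < δ := by
    rw [hδ]
    linarith
  rw [← hδ]
  refine ⟨4 * t1 + 20 + ⌈32 / δ⌉₊, fun h x hh hpar hx => ?_⟩
  have hh4 : 4 ≤ h := by omega
  have hh0 : (0 : ℝ) < h := by
    have : 0 < h := by omega
    exact_mod_cast this
  have hu := uu_pos h
  have hδh : 32 ≤ δ * h := by
    have h1 : 32 / δ ≤ h := by
      have h2 : ⌈32 / δ⌉₊ ≤ h := by omega
      exact (Nat.le_ceil _).trans (by exact_mod_cast h2)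
    rw [div_le_iff₀ hδ0] at h1
    linarith
  have hone : ∀ c ∈ Wn h, ENNReal.ofReal (δ * κ ^ 2 / 8 * (uu h ^ 2 / h)) ≤
      conv2 {a | a ∈ Brd c ∧ a ∈ P c ∧ |(latE a : ℝ) - x * c / h| ≤ δ / 2 * c} {b | b ∈ Brd (h - c) ∧ b ∈ P (h - c)} x := by
    intro c hc
    obtain ⟨a1, a2, a3, a4, a5, a6, a7⟩ := Wn_half hh4 hc
    obtain ⟨-, w1, w2⟩ := mem_Wn.1 hc
    have hc0 : (0 : ℝ) < c := by exact_mod_cast a6
    have hhc : ((h - c : ℕ) : ℝ) = h - c := by
      rw [Nat.cast_sub a1]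
    have hhc0 : (0 : ℝ) < ((h - c : ℕ) : ℝ) := by exact_mod_cast a7
    have w1' : 9 * (h : ℝ) ≤ 20 * c := by exact_mod_cast w1
    have w2' : 20 * (c : ℝ) ≤ 11 * h := by exact_mod_cast w2
    have hyc : |(x : ℝ) * c / h| ≤ R' * c := by
      rw [abs_div, abs_mul, Nat.abs_cast, Nat.abs_cast, div_le_iff₀ hh0]
      nlinarith
    have h1 : ENNReal.ofReal (δ / 8 * κ * uu c) ≤
        gf {a | a ∈ Brd c ∧ a ∈ P c ∧ |(latE a : ℝ) - x * c / h| ≤ δ / 2 * c} := by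
      refine mass_ge hδ0 ?_ hκ.le fun z hz1 hz2 => ?_
      · have : (h : ℝ) ≤ 4 * c := by exact_mod_cast a4
        nlinarith
      · refine hP c z (by omega) hz1 ?_
        rw [abs_le] at hz2 hyc ⊢
        constructor <;> nlinarith
    have h2 : ∀ a ∈ {a | a ∈ Brd c ∧ a ∈ P c ∧ |(latE a : ℝ) - x * c / h| ≤ δ / 2 * c},
        ENNReal.ofReal (κ * (uu (h - c) / ((h - c : ℕ) : ℝ))) ≤
          gf {b | b ∈ {b | b ∈ Brd (h - c) ∧ b ∈ P (h - c)} ∧ latE b = x - latE a} := by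
      rintro a ⟨ha1, ha2, ha3⟩
      refine (hP (h - c) (x - latE a) (by omega) ?_ ?_).trans (gf_mono ?_)
      · have h3 := LocalT.par_end ha1
        rw [Int.even_iff] at hpar ⊢
        rw [Nat.cast_sub a1]
        omega
      · have h3 : (x : ℝ) * (h - c) / h = x - x * c / h := by
          field_simp
        have h4 : |(x : ℝ) * (h - c) / h| ≤ R' * (h - c) := by
          have h5 : (0 : ℝ) ≤ h - c := by
            rw [← hhc]
            exact hhc0.le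
          rw [abs_div, abs_mul, abs_of_nonneg h5, Nat.abs_cast, div_le_iff₀ hh0]
          nlinarith
        have h5 : δ / 2 * c ≤ δ * (h - c) := by nlinarith
        push_cast
        rw [hhc]
        rw [h3] at h4
        rw [abs_le] at h4 ha3 ⊢
        constructor <;> nlinarith
      · rintro b ⟨⟨hb1, hb2⟩, hb3⟩
        exact ⟨⟨hb1, hb3⟩, hb2⟩
    have h3 := LocalT.conv2_ge h2
    refine le_trans ?_ ((mul_le_mul_left h1 _).trans h3)
    rw [← ENNReal.ofReal_mul (by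
      have := uu_pos c
      positivity)]
    refine ENNReal.ofReal_le_ofReal ?_
    have e1 : uu h ≤ uu c := uu_anti a1
    have e2 : uu h ≤ uu (h - c) := uu_anti (Nat.sub_le _ _)
    have e3 : ((h - c : ℕ) : ℝ) ≤ h := by exact_mod_cast Nat.sub_le h c
    have e4 : uu h / h ≤ uu (h - c) / ((h - c : ℕ) : ℝ) := div_le_div₀ (uu_pos _).le e2 hhc0 e3
    have e5 : 0 < uu c := uu_pos c
    calc δ * κ ^ 2 / 8 * (uu h ^ 2 / h) = δ / 8 * κ * uu h * (κ * (uu h / h)) := by ring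
      _ ≤ δ / 8 * κ * uu c * (κ * (uu (h - c) / ((h - c : ℕ) : ℝ))) := by gcongr
  refine le_trans ?_ (Finset.sum_le_sum hone)
  rw [Finset.sum_const, nsmul_eq_mul, ← ENNReal.ofReal_natCast, ← ENNReal.ofReal_mul (by positivity)]
  refine ENNReal.ofReal_le_ofReal ?_
  have h1 : (h : ℝ) / 40 ≤ (Wn h).card := by
    have h2 := card_Wn_ge h
    have h3 : h ≤ 40 * (Wn h).card := by omega
    have h4 : (h : ℝ) ≤ 40 * (Wn h).card := by exact_mod_cast h3
    linarith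
  calc δ * κ ^ 2 / 320 * uu h ^ 2 = (h : ℝ) / 40 * (δ * κ ^ 2 / 8 * (uu h ^ 2 / h)) := by
        field_simp
        ring
    _ ≤ (Wn h).card * (δ * κ ^ 2 / 8 * (uu h ^ 2 / h)) := by gcongr

lemma ShP.mono {L : ℕ → ℝ} {R R' : ℝ} (h : ShP L R) (hR : R' ≤ R) : ShP L R' := by
  obtain ⟨c, t0, hc, h1⟩ := h
  refine ⟨c, t0, hc, fun n x hn hp hx => h1 n x hn hp (hx.trans ?_)⟩
  exact mul_le_mul_of_nonneg_right hR (Nat.cast_nonneg n)

lemma ShP.mono_L {L L' : ℕ → ℝ} {R : ℝ} (h : ShP L R) (hL : ∀ n, L n ≤ L' n) : ShP L' R := by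
  obtain ⟨c, t0, hc, h1⟩ := h
  exact ⟨c, t0, hc, fun n x hn hp hx => (h1 n x hn hp hx).trans (gf_mono fun b hb => ⟨hb.1, hb.2.trans (hL n)⟩)⟩

lemma cat_mem {h c : ℕ} {x : ℤ} (hc : c ≤ h) {a b : List Bool} (ha : a ∈ Brd c) (hb : b ∈ Brd (h - c))
    (he : latE a + latE b = x) : a ++ b ∈ EndB h x := by
  refine ⟨?_, ?_⟩
  · have := Brd_append ha hb
    rwa [show c + (h - c) = h by omega] at this
  · rw [latE_cat (mem_Brd.1 ha).2.2.1]
    exact he

/-- **the doubling step** -/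
theorem shP_step {L L' : ℕ → ℝ} {R R' : ℝ} (hR' : 0 < R') (hRR : R' < R) (hL : ShP L R)
    (hLL : ∀ h c : ℕ, c ∈ Wn h → L c + L (h - c) ≤ L' h) : ShP L' R' := by
  obtain ⟨κ, t1, hκ, hP⟩ := hL
  obtain ⟨K, hK, hcore⟩ := core
  obtain ⟨t0, hmain⟩ := main_low (P := fun h => {b | (b.length : ℝ) ≤ L h}) hR' hRR hκ hP
  have hκ' : 0 < (R - R') * κ ^ 2 / 320 := by
    have : 0 < R - R' := by linarith
    positivity
  refine ⟨((R - R') * κ ^ 2 / 320) ^ 2 / K, max t0 4, by positivity, fun h x hh hp hx => ?_⟩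
  refine hcore _ hκ' h x _ _ _ (le_trans (le_max_right _ _) hh) ?_ ?_ ?_ (hmain h x (le_trans (le_max_left _ _) hh) hp hx)
  · exact fun c _ a ha => ha.1
  · exact fun c _ b hb => hb.1
  · rintro c hc a ⟨ha1, ha2, -⟩ b ⟨hb1, hb2⟩ he
    refine ⟨cat_mem (Wn_half (le_trans (le_max_right _ _) hh) hc).1 ha1 hb1 he, ?_⟩
    rw [List.length_append]
    push_cast
    have ha2' : (a.length : ℝ) ≤ L c := ha2
    have hb2' : (b.length : ℝ) ≤ L (h - c) := hb2
    linarith [hLL h c hc]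

open Classical in
/-- Markov's inequality for the bridges of one height -/
lemma long_le {c : ℕ} (hc : 1 ≤ c) {y : ℝ} (hy : 0 < y) :
    gf {a | a ∈ Brd c ∧ y < (a.length : ℝ)} ≤ ENNReal.ofReal (6 * c * PW.Zt c / y) := by
  have h1 := LP.mean_len_NF hc fun M => PW.NF_le_Zt c M
  have h2 : ENNReal.ofReal y * gf {a | a ∈ Brd c ∧ y < (a.length : ℝ)} ≤ ∑' t : Brd c, (t.1.length : ℝ≥0∞) * wE t.1 := by
    rw [gf_ind, ← ENNReal.tsum_mul_left, tsum_subtype (Brd c) (fun t : List Bool => (t.length : ℝ≥0∞) * wE t)]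
    refine ENNReal.tsum_le_tsum fun t => ?_
    by_cases ht : t ∈ {a | a ∈ Brd c ∧ y < (a.length : ℝ)}
    · rw [if_pos ht, Set.indicator_of_mem ht.1]
      refine mul_le_mul_left ?_ _
      rw [← ENNReal.ofReal_natCast]
      exact ENNReal.ofReal_le_ofReal ht.2.le
    · rw [if_neg ht, mul_zero]
      exact zero_le
  have h3 := h2.trans h1
  have hy' : ENNReal.ofReal y ≠ 0 := by
    rw [Ne, ENNReal.ofReal_eq_zero]
    linarith
  calc gf {a | a ∈ Brd c ∧ y < (a.length : ℝ)} =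
      (ENNReal.ofReal y)⁻¹ * (ENNReal.ofReal y * gf {a | a ∈ Brd c ∧ y < (a.length : ℝ)}) := by
        rw [← mul_assoc, ENNReal.inv_mul_cancel hy' ENNReal.ofReal_ne_top, one_mul]
    _ ≤ (ENNReal.ofReal y)⁻¹ * ENNReal.ofReal (6 * c * PW.Zt c) := mul_le_mul_right h3 _
    _ = _ := by
        rw [← ENNReal.ofReal_inv_of_pos hy, ← ENNReal.ofReal_mul (by positivity)]
        congr 1
        rw [inv_mul_eq_div]

lemma upp2 {A B : Set (List Bool)} {x : ℤ} {m : ℝ≥0∞} (h : ∀ b ∈ B, gf {a | a ∈ A ∧ latE a = x - latE b} ≤ m) :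
    conv2 A B x ≤ gf B * m := by
  classical
  rw [Local0.conv2_ind, ENNReal.tsum_comm, gf_ind, ← ENNReal.tsum_mul_right]
  refine ENNReal.tsum_le_tsum fun b => ?_
  by_cases hb : b ∈ B
  · rw [if_pos hb]
    have h1 : (∑' a : List Bool, if a ∈ A ∧ b ∈ B ∧ latE a + latE b = x then wE a * wE b else 0) =
        wE b * gf {a | a ∈ A ∧ latE a = x - latE b} := by
      rw [gf_ind, ← ENNReal.tsum_mul_left]
      refine tsum_congr fun a => ?_
      by_cases ha : a ∈ A ∧ latE a = x - latE b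
      · rw [if_pos (show a ∈ {a | a ∈ A ∧ latE a = x - latE b} from ha),
          if_pos ⟨ha.1, hb, by linarith [ha.2]⟩, mul_comm]
      · rw [if_neg (show a ∉ {a | a ∈ A ∧ latE a = x - latE b} from ha), mul_zero, if_neg]
        rintro ⟨h2, _, h3⟩
        exact ha ⟨h2, by linarith⟩
    rw [h1]
    exact mul_le_mul_right (h b hb) _
  · rw [if_neg hb, zero_mul]
    refine le_of_eq ?_
    rw [ENNReal.tsum_eq_zero]
    intro a
    exact if_neg fun h2 => hb h2.2.1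

lemma split2 {A B B1 B2 : Set (List Bool)} {x : ℤ} (h : B ⊆ B1 ∪ B2) :
    conv2 A B x ≤ conv2 A B1 x + conv2 A B2 x := by
  classical
  rw [Local0.conv2_ind, Local0.conv2_ind, Local0.conv2_ind, ← ENNReal.tsum_add]
  refine ENNReal.tsum_le_tsum fun a => ?_
  rw [← ENNReal.tsum_add]
  refine ENNReal.tsum_le_tsum fun b => ?_
  by_cases h1 : a ∈ A ∧ b ∈ B ∧ latE a + latE b = x
  · rw [if_pos h1]
    rcases h h1.2.1 with h2 | h2
    · rw [if_pos ⟨h1.1, h2, h1.2.2⟩]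
      exact le_self_add
    · rw [if_pos (show a ∈ A ∧ b ∈ B2 ∧ latE a + latE b = x from ⟨h1.1, h2, h1.2.2⟩)]
      exact le_add_self
  · rw [if_neg h1]
    exact zero_le

lemma hmZ {h : ℕ} (hh : 1 ≤ h) : (h : ℝ) * PW.Zt h = (h : ℝ) ^ (-(1 / 4) : ℝ) * PW.mZ h := by
  have h0 : (0 : ℝ) < h := by exact_mod_cast hh
  unfold PW.mZ
  rw [← mul_assoc, ← Real.rpow_add h0]
  norm_num

/-- **the first case: a constant times mZ h letters** -/
theorem shP_base {R : ℝ} (hR : 0 < R) : ∃ C0 : ℝ, 0 < C0 ∧ ShP (fun h => C0 * PW.mZ h) R := by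
  obtain ⟨Rn, hRn⟩ : ∃ Rn : ℕ, Rn = ⌈R⌉₊ + 1 := ⟨_, rfl⟩
  have hRR : R < (Rn : ℝ) := by
    rw [hRn]
    push_cast
    linarith [Nat.le_ceil R]
  obtain ⟨κ, t1, hκ, hloc⟩ := localTube Rn (η := 1) one_pos
  obtain ⟨t0, hmain⟩ := main_low (P := fun _ => Set.univ) (R := (Rn : ℝ)) (t1 := t1) hR hRR hκ (fun h x hh hp hx => by
    refine (hloc h x hh hp ?_).trans (gf_mono fun b hb => ⟨hb.1, Set.mem_univ _⟩)
    exact_mod_cast hx)
  obtain ⟨K, hK, hcore⟩ := core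
  obtain ⟨Ca, hCa, hend⟩ := anti_end
  obtain ⟨D, hD, hq⟩ := Local0.uu_quarter
  obtain ⟨cq, hcq, hbT⟩ := T2.bT_quarter
  have hD0 : 0 < D := by linarith
  obtain ⟨κ1, hκ1⟩ : ∃ κ1 : ℝ, κ1 = (Rn - R) * κ ^ 2 / 320 := ⟨_, rfl⟩
  rw [← hκ1] at hmain
  have hκ1p : 0 < κ1 := by
    rw [hκ1]
    have : 0 < (Rn : ℝ) - R := by linarith
    positivity
  obtain ⟨C0, hC0⟩ : ∃ C0 : ℝ, C0 = 384 * Ca * D / (cq * κ1) := ⟨_, rfl⟩
  have hC0p : 0 < C0 := by
    rw [hC0]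
    positivity
  refine ⟨C0, hC0p, (κ1 / 2) ^ 2 / K, max t0 4, by positivity, fun h x hh hp hx => ?_⟩
  have hh4 : 4 ≤ h := le_trans (le_max_right _ _) hh
  have hh1 : 1 ≤ h := by omega
  have hh0 : (0 : ℝ) < h := by exact_mod_cast hh1
  have hu := uu_pos h
  have hm := PW.mZ_pos hh1
  obtain ⟨y, hy⟩ : ∃ y : ℝ, y = C0 * PW.mZ h / 2 := ⟨_, rfl⟩
  have hy0 : 0 < y := by
    rw [hy]
    positivity
  -- the weight of the long pieces
  have hlong : ∀ c : ℕ, 1 ≤ c → c ≤ h → gf {a | a ∈ Brd c ∧ y < (a.length : ℝ)} ≤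
      ENNReal.ofReal (12 / (C0 * cq) * uu h) := by
    intro c hc hch
    refine (long_le hc hy0).trans (ENNReal.ofReal_le_ofReal ?_)
    have e1 : (c : ℝ) ≤ h := by exact_mod_cast hch
    have e2 := PW.Zt_mono hch
    have e3 := PW.Zt_pos c
    have e4 := hbT h hh1
    have e5 : (BT h).toReal = uu h := rfl
    rw [e5] at e4
    rw [div_le_iff₀ hy0]
    calc 6 * (c : ℝ) * PW.Zt c ≤ 6 * (h * PW.Zt h) := by
          rw [← mul_assoc]
          gcongr
      _ = 6 * ((h : ℝ) ^ (-(1 / 4) : ℝ) * PW.mZ h) := by rw [hmZ hh1]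
      _ ≤ 6 * (uu h / cq * PW.mZ h) := by
          have e6 : (h : ℝ) ^ (-(1 / 4) : ℝ) ≤ uu h / cq := by
            rw [le_div_iff₀ hcq]
            linarith
          gcongr
      _ = 12 / (C0 * cq) * uu h * y := by
          rw [hy]
          field_simp
          ring
  have hends : ∀ n : ℕ, 1 ≤ n → h ≤ 4 * n → h / 4 ≤ n → ∀ z : ℤ, gf {t | t ∈ Brd n ∧ latE t = z} ≤
      ENNReal.ofReal (Ca * D * 4 * (uu h / h)) := by
    intro n hn h1 h2 z
    refine (hend n hn z).trans (ENNReal.ofReal_le_ofReal ?_)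
    have hn0 : (0 : ℝ) < n := by exact_mod_cast hn
    have e1 : uu n ≤ D * uu h := (uu_anti h2).trans (hq h hh4)
    have e2 : (h : ℝ) ≤ 4 * n := by exact_mod_cast h1
    have e3 : uu n / n ≤ D * 4 * (uu h / h) := by
      rw [div_le_iff₀ hn0]
      calc uu n ≤ D * uu h * 1 := by linarith
        _ ≤ D * uu h * (4 * n / h) := by
            refine mul_le_mul_of_nonneg_left ?_ (by positivity)
            rw [le_div_iff₀ hh0]
            linarith
        _ = _ := by ring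
    calc Ca * (uu n / n) ≤ Ca * (D * 4 * (uu h / h)) := by gcongr
      _ = _ := by ring
  obtain ⟨A, hA⟩ : ∃ A : ℕ → Set (List Bool), A = fun c => {a | a ∈ Brd c ∧ a ∈ (Set.univ : Set (List Bool)) ∧
    |(latE a : ℝ) - x * c / h| ≤ (Rn - R) / 2 * c} := ⟨_, rfl⟩
  obtain ⟨B, hB⟩ : ∃ B : ℕ → Set (List Bool), B = fun c => {b | b ∈ Brd (h - c) ∧ b ∈ (Set.univ : Set (List Bool))} := ⟨_, rfl⟩
  have hAB : ENNReal.ofReal (κ1 * uu h ^ 2) ≤ ∑ c ∈ Wn h, conv2 (A c) (B c) x := by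
    rw [hA, hB]
    exact hmain h x (le_trans (le_max_left _ _) hh) hp hx
  have hone : ∀ c ∈ Wn h, conv2 (A c) (B c) x ≤ conv2 {a | a ∈ A c ∧ (a.length : ℝ) ≤ y} {b | b ∈ B c ∧ (b.length : ℝ) ≤ y} x +
      ENNReal.ofReal (2 * (12 / (C0 * cq) * uu h * (Ca * D * 4 * (uu h / h)))) := by
    intro c hc
    obtain ⟨a1, a2, a3, a4, a5, a6, a7⟩ := Wn_half hh4 hc
    have s1 : conv2 (A c) (B c) x ≤ conv2 {a | a ∈ A c ∧ (a.length : ℝ) ≤ y} (B c) x +
        conv2 {a | a ∈ Brd c ∧ y < (a.length : ℝ)} (B c) x := by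
      refine Local0.split fun a ha => ?_
      rcases le_or_gt (a.length : ℝ) y with h1 | h1
      · exact Or.inl ⟨ha, h1⟩
      · rw [hA] at ha
        exact Or.inr ⟨ha.1, h1⟩
    have s2 : conv2 {a | a ∈ A c ∧ (a.length : ℝ) ≤ y} (B c) x ≤
        conv2 {a | a ∈ A c ∧ (a.length : ℝ) ≤ y} {b | b ∈ B c ∧ (b.length : ℝ) ≤ y} x +
        conv2 {a | a ∈ A c ∧ (a.length : ℝ) ≤ y} {b | b ∈ Brd (h - c) ∧ y < (b.length : ℝ)} x := by
      refine split2 fun b hb => ?_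
      rcases le_or_gt (b.length : ℝ) y with h1 | h1
      · exact Or.inl ⟨hb, h1⟩
      · rw [hB] at hb
        exact Or.inr ⟨hb.1, h1⟩
    have e0 : 0 ≤ 12 / (C0 * cq) * uu h := by positivity
    have s3 : conv2 {a | a ∈ Brd c ∧ y < (a.length : ℝ)} (B c) x ≤
        ENNReal.ofReal (12 / (C0 * cq) * uu h * (Ca * D * 4 * (uu h / h))) := by
      refine (Local0.upp (m := ENNReal.ofReal (Ca * D * 4 * (uu h / h))) fun a _ => (gf_mono ?_).trans
        (hends (h - c) a7 a5 a3 (x - latE a))).trans ?_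
      · rintro b ⟨h1, h2⟩
        rw [hB] at h1
        exact ⟨h1.1, h2⟩
      · rw [ENNReal.ofReal_mul e0]
        exact mul_le_mul_left (hlong c a6 a1) _
    have s4 : conv2 {a | a ∈ A c ∧ (a.length : ℝ) ≤ y} {b | b ∈ Brd (h - c) ∧ y < (b.length : ℝ)} x ≤
        ENNReal.ofReal (12 / (C0 * cq) * uu h * (Ca * D * 4 * (uu h / h))) := by
      refine (upp2 (m := ENNReal.ofReal (Ca * D * 4 * (uu h / h))) fun b _ => (gf_mono ?_).trans
        (hends c a6 a4 a2 (x - latE b))).trans ?_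
      · rintro a ⟨⟨h1, -⟩, h2⟩
        rw [hA] at h1
        exact ⟨h1.1, h2⟩
      · rw [ENNReal.ofReal_mul e0]
        exact mul_le_mul_left (hlong (h - c) a7 (Nat.sub_le _ _)) _
    refine s1.trans ((add_le_add (s2.trans (add_le_add_right s4 _)) s3).trans (le_of_eq ?_))
    rw [add_assoc, two_mul, ENNReal.ofReal_add (by positivity) (by positivity)]
  have hsum : ENNReal.ofReal (κ1 / 2 * uu h ^ 2) ≤ ∑ c ∈ Wn h,
      conv2 {a | a ∈ A c ∧ (a.length : ℝ) ≤ y} {b | b ∈ B c ∧ (b.length : ℝ) ≤ y} x := by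
    have h1 := hAB.trans (Finset.sum_le_sum hone)
    rw [Finset.sum_add_distrib, Finset.sum_const, nsmul_eq_mul, ← ENNReal.ofReal_natCast,
      ← ENNReal.ofReal_mul (by positivity)] at h1
    have h2 : ((Wn h).card : ℝ) * (2 * (12 / (C0 * cq) * uu h * (Ca * D * 4 * (uu h / h)))) ≤ κ1 / 2 * uu h ^ 2 := by
      have e1 : ((Wn h).card : ℝ) ≤ 2 * h := by
        have : (Wn h).card ≤ 2 * h := (card_Wn_le h).trans (by omega)
        exact_mod_cast this
      calc ((Wn h).card : ℝ) * (2 * (12 / (C0 * cq) * uu h * (Ca * D * 4 * (uu h / h))))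
          ≤ 2 * h * (2 * (12 / (C0 * cq) * uu h * (Ca * D * 4 * (uu h / h)))) := by gcongr
        _ = κ1 / 2 * uu h ^ 2 := by
            rw [hC0]
            field_simp
            ring
    by_contra hc
    push Not at hc
    have h3 := h1.trans (add_le_add_right (ENNReal.ofReal_le_ofReal h2) _)
    have h4 : ∑ c ∈ Wn h, conv2 {a | a ∈ A c ∧ (a.length : ℝ) ≤ y} {b | b ∈ B c ∧ (b.length : ℝ) ≤ y} x +
        ENNReal.ofReal (κ1 / 2 * uu h ^ 2) < ENNReal.ofReal (κ1 / 2 * uu h ^ 2) + ENNReal.ofReal (κ1 / 2 * uu h ^ 2) :=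
      ENNReal.add_lt_add_right ENNReal.ofReal_ne_top hc
    rw [← ENNReal.ofReal_add (by positivity) (by positivity)] at h4
    have h5 : κ1 / 2 * uu h ^ 2 + κ1 / 2 * uu h ^ 2 = κ1 * uu h ^ 2 := by ring
    rw [h5] at h4
    exact absurd (h3.trans_lt h4) (lt_irrefl _)
  refine hcore (κ1 / 2) (by positivity) h x _ _ _ hh4 ?_ ?_ ?_ hsum
  · rintro c _ a ⟨h1, -⟩
    rw [hA] at h1
    exact h1.1
  · rintro c _ b ⟨h1, -⟩
    rw [hB] at h1
    exact h1.1
  · rintro c hc a ⟨h1, h2⟩ b ⟨h3, h4⟩ he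
    rw [hA] at h1
    rw [hB] at h3
    refine ⟨cat_mem (Wn_half hh4 hc).1 h1.1 h3.1 he, ?_⟩
    rw [List.length_append]
    push_cast
    linarith

lemma mZ_half {h c : ℕ} (hc : 20 * c ≤ 11 * h) : PW.mZ c ≤ (11 / 20 : ℝ) ^ (5 / 4 : ℝ) * PW.mZ h := by
  unfold PW.mZ
  have h1 : (c : ℝ) ≤ 11 / 20 * h := by
    have : 20 * (c : ℝ) ≤ 11 * h := by exact_mod_cast hc
    linarith
  have h2 : PW.Zt c ≤ PW.Zt h := PW.Zt_mono (by omega)
  have h3 := PW.Zt_pos c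
  rw [← mul_assoc, ← Real.mul_rpow (by norm_num) (Nat.cast_nonneg h)]
  exact mul_le_mul (Real.rpow_le_rpow (Nat.cast_nonneg c) h1 (by norm_num)) h2 h3.le (by positivity)

lemma rho_lt : (11 / 20 : ℝ) ^ (5 / 4 : ℝ) < 1 / 2 := by
  by_contra hc
  push Not at hc
  have h1 : (1 / 2 : ℝ) ^ 4 ≤ ((11 / 20 : ℝ) ^ (5 / 4 : ℝ)) ^ 4 := pow_le_pow_left₀ (by norm_num) hc 4
  rw [← Real.rpow_natCast ((11 / 20 : ℝ) ^ (5 / 4 : ℝ)) 4, ← Real.rpow_mul (by norm_num),
    show (5 / 4 * ((4 : ℕ) : ℝ) : ℝ) = ((5 : ℕ) : ℝ) by norm_num, Real.rpow_natCast] at h1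
  norm_num at h1

/-- **the pointwise lower bound for the bridges with at most a * mZ h letters, a as small as you like** -/
theorem shP {a R : ℝ} (ha : 0 < a) (hR : 0 < R) : ShP (fun h => a * PW.mZ h) R := by
  obtain ⟨C0, hC0, hb⟩ := shP_base (R := R + 1) (by linarith)
  obtain ⟨ρ, hρ⟩ : ∃ ρ : ℝ, ρ = 2 * (11 / 20 : ℝ) ^ (5 / 4 : ℝ) := ⟨_, rfl⟩
  have hρ0 : 0 < ρ := by
    rw [hρ]
    positivity
  have hρ1 : ρ < 1 := by
    rw [hρ]
    linarith [rho_lt]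
  have key : ∀ j : ℕ, ∀ R' : ℝ, 0 < R' → R' < R + 1 → ShP (fun h => ρ ^ j * C0 * PW.mZ h) R' := by
    intro j
    induction j with
    | zero =>
      intro R' _ h2
      refine (hb.mono h2.le).mono_L fun n => le_of_eq ?_
      rw [pow_zero, one_mul]
    | succ j ih =>
      intro R' h1 h2
      refine shP_step (R := (R' + (R + 1)) / 2) h1 (by linarith) (ih _ (by linarith) (by linarith)) fun h c hc => ?_
      obtain ⟨w0, w1, w2⟩ := mem_Wn.1 hc
      have e1 := mZ_half w2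
      have e2 := mZ_half (h := h) (c := h - c) (by omega)
      have e3 : 0 < ρ ^ j * C0 := by positivity
      calc ρ ^ j * C0 * PW.mZ c + ρ ^ j * C0 * PW.mZ (h - c)
          ≤ ρ ^ j * C0 * ((11 / 20 : ℝ) ^ (5 / 4 : ℝ) * PW.mZ h) + ρ ^ j * C0 * ((11 / 20 : ℝ) ^ (5 / 4 : ℝ) * PW.mZ h) := by
            gcongr
        _ = ρ ^ (j + 1) * C0 * PW.mZ h := by
            rw [pow_succ, hρ]
            ring
  obtain ⟨j, hj⟩ := exists_pow_lt_of_lt_one (show 0 < a / C0 by positivity) hρ1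
  refine (key j R hR (by linarith)).mono_L fun n => ?_
  have e1 : ρ ^ j * C0 ≤ a := by
    rw [lt_div_iff₀ hC0] at hj
    exact hj.le
  exact mul_le_mul_of_nonneg_right e1 (PW.mZ_nonneg n)

end JNT

end HexObs
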