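import Pool.Agent.JNT.LowG
import Pool.Agent.JNT.ShortP

/-!
JNT, row C: the first cut at or above s is steep to the right, low and short with a positive probability.

V = the first cut with height in [s / 2, 9 s / 10], lateral coordinate in [4 R s, 5 R s] and few letters; then the first
cut at or above the rest of s, in a tube.
-/

set_option autoImplicit false

namespace HexObs

namespace JNT

open Finset TS SDN NTW NTA PtC RP

open scoped ENNReal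

/-! ### 1. Masses of the bridges of the heights [s / 2, 9 s / 10] -/

/-- the heights -/
def Hs (s : ℕ) : Finset ℕ := Icc (s / 2 + 1) (9 * s / 10)

lemma mem_Hs {s t : ℕ} : t ∈ Hs s ↔ s / 2 + 1 ≤ t ∧ t ≤ 9 * s / 10 := by
  unfold Hs
  rw [Finset.mem_Icc]

lemma card_Hs {s : ℕ} (h : 20 ≤ s) : s ≤ 4 * (Hs s).card := by
  unfold Hs
  rw [Nat.card_Icc]
  omega

lemma card_Hs_le (s : ℕ) : (Hs s).card ≤ s := by
  unfold Hs
  rw [Nat.card_Icc]
  omega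

/-- the long ones -/
lemma long_Hs (hZ : ∃ C : ℝ, 0 < C ∧ ∀ N : ℕ, 1 ≤ N → PW.mZ N ≤ C * (N : ℝ) ^ (4 / 3 : ℝ)) : ∃ K : ℝ, 0 < K ∧
    ∀ (s : ℕ) (A : ℝ), 1 ≤ s → 0 < A → ∑ t ∈ Hs s, gf {a | a ∈ Brd t ∧ A * (s : ℝ) ^ (4 / 3 : ℝ) < (a.length : ℝ)} ≤
      ENNReal.ofReal (K / A * (s * uu s)) := by
  obtain ⟨C, hC, hZ⟩ := hZ
  obtain ⟨cq, hcq, hbT⟩ := T2.bT_quarter
  refine ⟨6 * C / cq, by positivity, fun s A hs hA => ?_⟩
  have hs0 : (0 : ℝ) < s := by exact_mod_cast hs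
  have hu := uu_pos s
  have hp : 0 < (s : ℝ) ^ (4 / 3 : ℝ) := by positivity
  have h1 : ∀ t ∈ Hs s, gf {a | a ∈ Brd t ∧ A * (s : ℝ) ^ (4 / 3 : ℝ) < (a.length : ℝ)} ≤
      ENNReal.ofReal (6 * C / cq / A * uu s) := by
    intro t ht
    rw [mem_Hs] at ht
    have hts : t ≤ s := by omega
    refine (long_le (by omega) (by positivity)).trans (ENNReal.ofReal_le_ofReal ?_)
    have e1 : (t : ℝ) ≤ s := by exact_mod_cast hts
    have e2 := PW.Zt_mono hts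
    have e3 := PW.Zt_pos t
    have e4 := hbT s hs
    have e5 : (BT s).toReal = uu s := rfl
    rw [e5] at e4
    rw [div_le_iff₀ (by positivity)]
    calc 6 * (t : ℝ) * PW.Zt t ≤ 6 * (s * PW.Zt s) := by
          rw [← mul_assoc]
          gcongr
      _ = 6 * ((s : ℝ) ^ (-(1 / 4) : ℝ) * PW.mZ s) := by rw [hmZ hs]
      _ ≤ 6 * (uu s / cq * (C * (s : ℝ) ^ (4 / 3 : ℝ))) := by
          have e6 : (s : ℝ) ^ (-(1 / 4) : ℝ) ≤ uu s / cq := by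
            rw [le_div_iff₀ hcq]
            linarith
          have e7 := hZ s hs
          have e8 := PW.mZ_pos hs
          gcongr
      _ = 6 * C / cq / A * uu s * (A * (s : ℝ) ^ (4 / 3 : ℝ)) := by
          field_simp
  refine (Finset.sum_le_sum h1).trans ?_
  rw [Finset.sum_const, nsmul_eq_mul, ← ENNReal.ofReal_natCast, ← ENNReal.ofReal_mul (by positivity)]
  refine ENNReal.ofReal_le_ofReal ?_
  have h2 : ((Hs s).card : ℝ) ≤ s := by exact_mod_cast card_Hs_le s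
  calc ((Hs s).card : ℝ) * (6 * C / cq / A * uu s) ≤ s * (6 * C / cq / A * uu s) := by gcongr
    _ = 6 * C / cq / A * (s * uu s) := by ring

/-- the mass with few letters -/
lemma few_Hs (hZ : ∃ C : ℝ, 0 < C ∧ ∀ N : ℕ, 1 ≤ N → PW.mZ N ≤ C * (N : ℝ) ^ (4 / 3 : ℝ)) {κ : ℝ} (hκ : 0 < κ) :
    ∃ A : ℝ, 0 < A ∧ ∀ (s : ℕ) (P : Set (List Bool)), 20 ≤ s →
      (∀ t ∈ Hs s, ENNReal.ofReal (κ * uu t) ≤ gf {a | a ∈ Brd t ∧ a ∈ P}) →
      ENNReal.ofReal (κ / 8 * (s * uu s)) ≤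
        gf {a | (∃ t ∈ Hs s, a ∈ Brd t) ∧ a ∈ P ∧ (a.length : ℝ) ≤ A * (s : ℝ) ^ (4 / 3 : ℝ)} := by
  obtain ⟨K, hK, hlong⟩ := long_Hs hZ
  refine ⟨8 * K / κ, by positivity, fun s P hs h => ?_⟩
  have hs0 : (0 : ℝ) < s := by
    have : 0 < s := by omega
    exact_mod_cast this
  have hu := uu_pos s
  obtain ⟨N, hN⟩ : ∃ N : ℝ, N = 8 * K / κ * (s : ℝ) ^ (4 / 3 : ℝ) := ⟨_, rfl⟩
  have h1 : ENNReal.ofReal (κ / 4 * (s * uu s)) ≤ ∑ t ∈ Hs s, gf {a | a ∈ Brd t ∧ a ∈ P} := by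
    have h2 : ∀ t ∈ Hs s, ENNReal.ofReal (κ * uu s) ≤ gf {a | a ∈ Brd t ∧ a ∈ P} := by
      intro t ht
      refine le_trans (ENNReal.ofReal_le_ofReal ?_) (h t ht)
      rw [mem_Hs] at ht
      exact mul_le_mul_of_nonneg_left (uu_anti (by omega)) hκ.le
    refine le_trans ?_ (Finset.sum_le_sum h2)
    rw [Finset.sum_const, nsmul_eq_mul, ← ENNReal.ofReal_natCast, ← ENNReal.ofReal_mul (by positivity)]
    refine ENNReal.ofReal_le_ofReal ?_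
    have h3 : (s : ℝ) ≤ 4 * ((Hs s).card : ℝ) := by exact_mod_cast card_Hs hs
    calc κ / 4 * (s * uu s) = κ * uu s * (s / 4) := by ring
      _ ≤ κ * uu s * ((Hs s).card : ℝ) := by
          refine mul_le_mul_of_nonneg_left ?_ (by positivity)
          linarith
      _ = _ := by ring
  have h2 : ∑ t ∈ Hs s, gf {a | a ∈ Brd t ∧ a ∈ P} ≤
      ∑ t ∈ Hs s, gf {a | a ∈ Brd t ∧ a ∈ P ∧ (a.length : ℝ) ≤ N} + ∑ t ∈ Hs s, gf {a | a ∈ Brd t ∧ N < (a.length : ℝ)} := by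
    rw [← Finset.sum_add_distrib]
    refine Finset.sum_le_sum fun t _ => ?_
    refine (gf_mono ?_).trans (gf_union_le _ _)
    rintro a ⟨ha, hP⟩
    rcases le_or_gt (a.length : ℝ) N with h3 | h3
    · exact Or.inl ⟨ha, hP, h3⟩
    · exact Or.inr ⟨ha, h3⟩
  have h3 : ∑ t ∈ Hs s, gf {a | a ∈ Brd t ∧ a ∈ P ∧ (a.length : ℝ) ≤ N} ≤
      gf {a | (∃ t ∈ Hs s, a ∈ Brd t) ∧ a ∈ P ∧ (a.length : ℝ) ≤ N} := by
    refine sum_gf_le _ _ ?_ ?_
    · intro i j hij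
      rw [Set.disjoint_left]
      rintro a ⟨ha, -⟩ ⟨ha', -⟩
      exact hij (Brd_height ha ha')
    · rintro t ht a ⟨ha, hP, hl⟩
      exact ⟨⟨t, ht, ha⟩, hP, hl⟩
  have h4 : ∑ t ∈ Hs s, gf {a | a ∈ Brd t ∧ N < (a.length : ℝ)} ≤ ENNReal.ofReal (κ / 8 * (s * uu s)) := by
    rw [hN]
    refine (hlong s (8 * K / κ) (by omega) (by positivity)).trans (le_of_eq ?_)
    congr 1
    field_simp
  have h5 := h1.trans (h2.trans (add_le_add h3 h4))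
  rw [← hN]
  by_contra hc
  push Not at hc
  have h6 : gf {a | (∃ t ∈ Hs s, a ∈ Brd t) ∧ a ∈ P ∧ (a.length : ℝ) ≤ N} + ENNReal.ofReal (κ / 8 * (s * uu s)) <
      ENNReal.ofReal (κ / 8 * (s * uu s)) + ENNReal.ofReal (κ / 8 * (s * uu s)) :=
    ENNReal.add_lt_add_right ENNReal.ofReal_ne_top hc
  rw [← ENNReal.ofReal_add (by positivity) (by positivity)] at h6
  have h7 : κ / 8 * (s * uu s) + κ / 8 * (s * uu s) = κ / 4 * (s * uu s) := by ring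
  rw [h7] at h6
  exact absurd (h5.trans_lt h6) (lt_irrefl _)

/-- steep bridges, in a tube -/
lemma steep_mass (hZ : ∃ C : ℝ, 0 < C ∧ ∀ N : ℕ, 1 ≤ N → PW.mZ N ≤ C * (N : ℝ) ^ (4 / 3 : ℝ)) {R : ℝ} (hR : 1 ≤ R) :
    ∃ (c A : ℝ) (s0 : ℕ), 0 < c ∧ 0 < A ∧ ∀ s : ℕ, s0 ≤ s → ENNReal.ofReal (c * (s * uu s)) ≤
      gf {a | (∃ t ∈ Hs s, a ∈ Brd t) ∧ a ∈ {a | (∀ i, i ≤ a.length → |(lat a i : ℝ)| ≤ 6 * R * s) ∧
        4 * R * s ≤ (latE a : ℝ) ∧ (latE a : ℝ) ≤ 5 * R * s} ∧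
        (a.length : ℝ) ≤ A * (s : ℝ) ^ (4 / 3 : ℝ)} := by
  obtain ⟨κ, t0, hκ, hloc⟩ := localTube ⌈10 * R⌉₊ (η := 1) one_pos
  have hR10 : 10 * R ≤ (⌈10 * R⌉₊ : ℝ) := Nat.le_ceil _
  obtain ⟨A, hA, hfew⟩ := few_Hs hZ (κ := 1 / 8 * κ) (by positivity)
  refine ⟨1 / 8 * κ / 8, A, 2 * t0 + 20, by positivity, hA, fun s hs => hfew s _ (by omega) fun t ht => ?_⟩
  rw [mem_Hs] at ht
  have ht1 : (s : ℝ) ≤ 2 * t := by
    have : s ≤ 2 * t := by omega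
    exact_mod_cast this
  have ht2 : (t : ℝ) ≤ s := by
    have : t ≤ s := by omega
    exact_mod_cast this
  have ht3 : (8 : ℝ) ≤ t := by
    have : 8 ≤ t := by omega
    exact_mod_cast this
  have hRs : (t : ℝ) ≤ R * s := by nlinarith
  refine (mass_ge (c := t) (P := {a | ∀ i, i ≤ a.length → |(lat a i : ℝ)| ≤ 6 * R * s}) (δ := 1)
    (y := 9 / 2 * R * s) one_pos (by linarith) hκ.le ?_).trans (gf_mono ?_)
  · intro x hx1 hx2
    have h1 : |(x : ℝ)| ≤ 5 * R * s := by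
      rw [abs_le] at hx2 ⊢
      constructor <;> nlinarith
    refine (hloc t x (by omega) hx1 ?_).trans (gf_mono fun b hb => ⟨hb.1, fun i hi => ?_⟩)
    swap
    · obtain ⟨g1, g2⟩ := hb.2 i hi
      rw [abs_le] at h1
      have hRs0 : 0 ≤ R * s := by positivity
      have g3 : -(5 * R * s) ≤ ((min 0 x : ℤ) : ℝ) := by
        push_cast
        exact le_min (by linarith) (by linarith)
      have g4 : ((max 0 x : ℤ) : ℝ) ≤ 5 * R * s := by
        push_cast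
        exact max_le (by linarith) (by linarith)
      rw [abs_le]
      constructor <;> linarith
    have h2 : |(x : ℝ)| ≤ (⌈10 * R⌉₊ : ℝ) * t := by
      calc |(x : ℝ)| ≤ 5 * R * s := h1
        _ ≤ 5 * R * (2 * t) := mul_le_mul_of_nonneg_left ht1 (by positivity)
        _ = 10 * R * t := by ring
        _ ≤ _ := mul_le_mul_of_nonneg_right hR10 (by positivity)
    have h3 : ((|x| : ℤ) : ℝ) ≤ ((((⌈10 * R⌉₊ : ℕ) : ℤ) * (t : ℤ) : ℤ) : ℝ) := by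
      push_cast
      exact h2
    exact_mod_cast h3
  · rintro a ⟨ha, h0, h1⟩
    refine ⟨ha, h0, ?_⟩
    rw [abs_le] at h1
    constructor <;> nlinarith

/-- bridges in a tube -/
lemma tube_mass (hZ : ∃ C : ℝ, 0 < C ∧ ∀ N : ℕ, 1 ≤ N → PW.mZ N ≤ C * (N : ℝ) ^ (4 / 3 : ℝ)) :
    ∃ (c A : ℝ) (s0 : ℕ), 0 < c ∧ 0 < A ∧ ∀ s : ℕ, s0 ≤ s → ENNReal.ofReal (c * (s * uu s)) ≤
      gf {a | (∃ t ∈ Hs s, a ∈ Brd t) ∧ a ∈ {a | ∀ i, i ≤ a.length → |(lat a i : ℝ)| ≤ 2 * s} ∧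
        (a.length : ℝ) ≤ A * (s : ℝ) ^ (4 / 3 : ℝ)} := by
  obtain ⟨κ, t0, hκ, hloc⟩ := localTube 1 (η := 1) one_pos
  obtain ⟨A, hA, hfew⟩ := few_Hs hZ (κ := 1 / 8 * κ) (by positivity)
  refine ⟨1 / 8 * κ / 8, A, 2 * t0 + 20, by positivity, hA, fun s hs => hfew s _ (by omega) fun t ht => ?_⟩
  rw [mem_Hs] at ht
  have ht2 : (t : ℝ) ≤ s := by
    have : t ≤ s := by omega
    exact_mod_cast this
  have ht3 : (8 : ℝ) ≤ t := by
    have : 8 ≤ t := by omega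
    exact_mod_cast this
  refine (mass_ge (c := t) (P := {a | ∀ i, i ≤ a.length → |(lat a i : ℝ)| ≤ 2 * s}) (δ := 1) (y := 0) one_pos
    (by linarith) hκ.le ?_).trans (gf_mono ?_)
  · intro x hx1 hx2
    rw [sub_zero, abs_le] at hx2
    have h1 : |x| ≤ ((1 : ℕ) : ℤ) * (t : ℤ) := by
      have h2 : |(x : ℝ)| ≤ t := by
        rw [abs_le]
        constructor <;> linarith
      have h3 : ((|x| : ℤ) : ℝ) ≤ ((((1 : ℕ) : ℤ) * (t : ℤ) : ℤ) : ℝ) := by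
        push_cast
        rw [one_mul]
        exact h2
      exact_mod_cast h3
    refine (hloc t x (by omega) hx1 h1).trans (gf_mono fun b hb => ⟨hb.1, fun i hi => ?_⟩)
    obtain ⟨g1, g2⟩ := hb.2 i hi
    have g3 : -(1 / 2 * t) ≤ ((min 0 x : ℤ) : ℝ) := by
      push_cast
      exact le_min (by linarith) (by linarith)
    have g4 : ((max 0 x : ℤ) : ℝ) ≤ 1 / 2 * t := by
      push_cast
      exact max_le (by linarith) (by linarith)
    rw [abs_le]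
    constructor <;> linarith
  · rintro a ⟨ha, h1, -⟩
    exact ⟨ha, h1⟩

/-! ### 2. The first element of a set of bridges -/

/-- the elements of W without a proper prefix in W -/
def Fst (W : Set (List Bool)) : Set (List Bool) := {b | b ∈ W ∧ ∀ a u : List Bool, b = a ++ u → a ∈ W → u ∈ BU → u = []}

lemma Fst_exists {W : Set (List Bool)} (hW : W ⊆ BU) : ∀ (n : ℕ) (w : List Bool), w.length = n → w ∈ W →
    ∃ a ∈ Fst W, ∃ u ∈ BU, w = a ++ u := by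
  intro n
  induction n using Nat.strong_induction_on with
  | _ n ih =>
  intro w hn hw
  by_cases h : w ∈ Fst W
  · exact ⟨w, h, [], ⟨0, nil_mem_Brd⟩, (List.append_nil w).symm⟩
  · have h1 : ∃ a u : List Bool, w = a ++ u ∧ a ∈ W ∧ u ∈ BU ∧ u ≠ [] := by
      by_contra hc
      push Not at hc
      exact h ⟨hw, fun a u h2 h3 h4 => hc a u h2 h3 h4⟩
    obtain ⟨a, u, h2, h3, ⟨m, h4⟩, h5⟩ := h1
    have h6 : 0 < u.length := List.length_pos_iff.2 h5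
    have h7 : a.length < n := by
      rw [← hn, h2, List.length_append]
      omega
    obtain ⟨a', ha', u', ⟨m', hu'⟩, h8⟩ := ih a.length h7 a rfl h3
    refine ⟨a', ha', u' ++ u, ⟨m' + m, Brd_append hu' h4⟩, ?_⟩
    rw [h2, h8, List.append_assoc]

lemma Fst_mass {W : Set (List Bool)} {S : ℕ} (hW : ∀ w ∈ W, ∃ n, n ≤ S ∧ w ∈ Brd n) :
    gf W ≤ gf (Fst W) * ENNReal.ofReal (UU S) := by
  have hWB : W ⊆ BU := fun w hw => by
    obtain ⟨n, -, h⟩ := hW w hw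
    exact ⟨n, h⟩
  refine (gf_le_mul (Q := Fst W) (R := {X | ∃ n, n ≤ S ∧ X ∈ Brd n}) ?_).trans (mul_le_mul_right (PtC.gf_BU_le S) _)
  intro t ht
  obtain ⟨a, ha, u, ⟨m, hu⟩, e⟩ := Fst_exists hWB t.length t rfl ht
  obtain ⟨n, hn, htn⟩ := hW t ht
  obtain ⟨p, -, hap⟩ := hW a ha.1
  have h1 := Brd_height htn (e ▸ Brd_append hap hu)
  exact ⟨a, ha, u, ⟨m, by omega, hu⟩, e⟩

lemma Fst_unique {W : Set (List Bool)} (hW : W ⊆ BU) {a a' u u' : List Bool} (ha : a ∈ Fst W) (ha' : a' ∈ Fst W)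
    (hu : u ∈ BU) (hu' : u' ∈ BU) (h : a ++ u = a' ++ u') : a = a' := by
  obtain ⟨c, hc⟩ := hW ha.1
  obtain ⟨c', hc'⟩ := hW ha'.1
  obtain ⟨b, hb⟩ := hu
  obtain ⟨b', hb'⟩ := hu'
  rcases Nat.le_total c c' with hcc | hcc
  · obtain ⟨v, hv, h1, -⟩ := FCaux.nested hc hc' hb hb' hcc h
    have h2 := ha'.2 a v h1 ha.1 ⟨_, hv⟩
    rw [h1, h2, List.append_nil]
  · obtain ⟨v, hv, h1, -⟩ := FCaux.nested hc' hc hb' hb hcc h.symm
    have h2 := ha.2 a' v h1 ha'.1 ⟨_, hv⟩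
    rw [h1, h2, List.append_nil]

/-- a bridge of height j ≤ s, then the first cut at or above s - j -/
lemma FC_cat {s j i : ℕ} {a u : List Bool} (ha : a ∈ Brd j) (hj : j ≤ s) (hu : u ∈ FC (s - j) i) :
    a ++ u ∈ FC s (j + i) := by
  refine ⟨Brd_append ha hu.1, by have := hu.2.1; omega, ?_⟩
  rintro c hc1 hc2 ⟨s', u', b', hs', hu', e⟩
  obtain ⟨v, hv, h1, h2⟩ := FCaux.nested ha hs' hu.1 hu' (by omega) e
  exact hu.2.2 (c - j) (by omega) (by omega) ⟨v, u', b', hv, hu', h2⟩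

/-! ### 3. The row -/

/-- the first cut at or above s is steep to the right, low and short, and in a tube, with a positive probability -/
def StepT : Prop := ∀ R : ℝ, 1 ≤ R → ∃ (c A : ℝ) (s0 : ℕ), 0 < c ∧ 0 < A ∧ 1 ≤ s0 ∧ ∀ s : ℕ, s0 ≤ s →
  ENNReal.ofReal c ≤ gf {a | a ∈ FPs s ∧ hgt a ≤ 2 * s ∧ R * (hgt a : ℝ) ≤ (latE a : ℝ) ∧ (latE a : ℝ) ≤ 8 * R * s ∧
    (a.length : ℝ) ≤ A * (s : ℝ) ^ (4 / 3 : ℝ) ∧ ∀ i, i ≤ a.length → |(lat a i : ℝ)| ≤ 8 * R * s}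

/-- **row C, in a tube** -/
theorem stepT_of (hZ : ∃ C : ℝ, 0 < C ∧ ∀ N : ℕ, 1 ≤ N → PW.mZ N ≤ C * (N : ℝ) ^ (4 / 3 : ℝ)) : StepT := by
  intro R hR
  obtain ⟨c1, A1, s1, hc1, hA1, h1⟩ := steep_mass hZ hR
  obtain ⟨c2, A2, s2, hc2, hA2, h2⟩ := tube_mass hZ
  have hCW := Num2Aux.CW_pos
  refine ⟨c1 / (6 + CW) * (c2 / (6 + CW)), A1 + A2, s1 + s2 + 20, by positivity, by positivity, by omega, fun s hs => ?_⟩
  have hsn : 20 ≤ s := by omega
  have hs0 : (0 : ℝ) < s := by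
    have : 0 < s := by omega
    exact_mod_cast this
  have hu := uu_pos s
  have hU : 0 < UU s := Num2Aux.UU_pos s
  have hUl := UU_le_mul (T := s) (by omega)
  obtain ⟨W1, hW1⟩ : ∃ W1 : Set (List Bool), W1 = {a | (∃ t ∈ Hs s, a ∈ Brd t) ∧
    a ∈ {a | (∀ i, i ≤ a.length → |(lat a i : ℝ)| ≤ 6 * R * s) ∧ 4 * R * s ≤ (latE a : ℝ) ∧
      (latE a : ℝ) ≤ 5 * R * s} ∧ (a.length : ℝ) ≤ A1 * (s : ℝ) ^ (4 / 3 : ℝ)} := ⟨_, rfl⟩
  obtain ⟨W2, hW2⟩ : ∃ W2 : Set (List Bool), W2 = {a | (∃ t ∈ Hs s, a ∈ Brd t) ∧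
    a ∈ {a | ∀ i, i ≤ a.length → |(lat a i : ℝ)| ≤ 2 * s} ∧
        (a.length : ℝ) ≤ A2 * (s : ℝ) ^ (4 / 3 : ℝ)} := ⟨_, rfl⟩
  have hm1 := h1 s (by omega)
  have hm2 := h2 s (by omega)
  rw [← hW1] at hm1
  rw [← hW2] at hm2
  -- from the mass to a probability
  have hdiv : ∀ (c : ℝ) (g : ℝ≥0∞), 0 < c → ENNReal.ofReal (c * (s * uu s)) ≤ g * ENNReal.ofReal (UU s) →
      ENNReal.ofReal (c / (6 + CW)) ≤ g := by
    intro c g hc h
    have e1 : ENNReal.ofReal (c / (6 + CW)) * ENNReal.ofReal (UU s) ≤ g * ENNReal.ofReal (UU s) := by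
      refine le_trans ?_ h
      rw [← ENNReal.ofReal_mul (by positivity)]
      refine ENNReal.ofReal_le_ofReal ?_
      calc c / (6 + CW) * UU s ≤ c / (6 + CW) * ((6 + CW) * (s * uu s)) :=
            mul_le_mul_of_nonneg_left hUl (by positivity)
        _ = c * (s * uu s) := by field_simp
    exact (ENNReal.mul_le_mul_iff_left (by simpa using hU) ENNReal.ofReal_ne_top).1 e1
  have hV1 : ENNReal.ofReal (c1 / (6 + CW)) ≤ gf (Fst W1) := by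
    refine hdiv c1 _ hc1 (hm1.trans (Fst_mass fun w hw => ?_))
    rw [hW1] at hw
    obtain ⟨⟨t, ht, hw⟩, -⟩ := hw
    rw [mem_Hs] at ht
    exact ⟨t, by omega, hw⟩
  have hW1B : W1 ⊆ BU := by
    intro w hw
    rw [hW1] at hw
    obtain ⟨⟨t, ht, hw⟩, -⟩ := hw
    exact ⟨t, hw⟩
  obtain ⟨G, hG⟩ : ∃ G : ℕ → Set (List Bool), G = fun s' => {u | u ∈ FPs s' ∧ hgt u ≤ s ∧
    (∀ i, i ≤ u.length → |(lat u i : ℝ)| ≤ 2 * s) ∧ (u.length : ℝ) ≤ A2 * (s : ℝ) ^ (4 / 3 : ℝ)} := ⟨_, rfl⟩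
  have hV2 : ∀ s' : ℕ, s' ≤ s / 2 + 1 → ENNReal.ofReal (c2 / (6 + CW)) ≤ gf (G s') := by
    intro s' hs'
    refine hdiv c2 _ hc2 (hm2.trans ?_)
    refine (gf_le_mul (Q := G s') (R := {X | ∃ n, n ≤ s ∧ X ∈ Brd n}) ?_).trans (mul_le_mul_right (PtC.gf_BU_le s) _)
    intro w hw
    rw [hW2] at hw
    obtain ⟨⟨t, ht, hw⟩, hw2, hw3⟩ := hw
    rw [mem_Hs] at ht
    obtain ⟨j, a, u, g1, g2, g3, g4, g5⟩ := FC_dec (s := s') (by omega) hw
    refine ⟨a, ?_, u, ⟨t - j, by omega, g4⟩, g5⟩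
    rw [hG]
    refine ⟨⟨j, g3⟩, ?_, ?_, ?_⟩
    · rw [hgt_eq g3.1]
      omega
    · intro i hi
      have g6 := hw2 i (by rw [g5, List.length_append]; omega)
      rw [g5, lat_append (by omega)] at g6
      exact g6
    · refine le_trans ?_ hw3
      rw [g5, List.length_append]
      push_cast
      have : (0 : ℝ) ≤ u.length := Nat.cast_nonneg _
      linarith
  have hmain : gf (Fst W1) * ENNReal.ofReal (c2 / (6 + CW)) ≤ gf {a | a ∈ FPs s ∧ hgt a ≤ 2 * s ∧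
      R * (hgt a : ℝ) ≤ (latE a : ℝ) ∧ (latE a : ℝ) ≤ 8 * R * s ∧ (a.length : ℝ) ≤ (A1 + A2) * (s : ℝ) ^ (4 / 3 : ℝ) ∧
      ∀ i, i ≤ a.length → |(lat a i : ℝ)| ≤ 8 * R * s} := by
    refine dep_le (fun a => G (s - hgt a)) ?_ ?_ ?_
    · intro a ha u hu
      have ha1 := ha.1
      rw [hW1] at ha1
      obtain ⟨⟨t, ht, hat⟩, ⟨h3', h3, h4⟩, h5⟩ := ha1
      rw [mem_Hs] at ht
      simp only [hG, hgt_eq hat] at hu
      obtain ⟨⟨i, hui⟩, h6, h7', h8⟩ := hu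
      have h7 : |(latE u : ℝ)| ≤ 2 * s := h7' u.length le_rfl
      rw [hgt_eq hui.1] at h6
      have h9 := FC_cat hat (by omega) hui
      have h10 : (t : ℝ) ≤ 9 / 10 * s := by
        have h11 : 10 * t ≤ 9 * s := by omega
        have h12 : (10 : ℝ) * t ≤ 9 * s := by exact_mod_cast h11
        linarith
      have h11 : (i : ℝ) ≤ s := by exact_mod_cast h6
      have hsR : (s : ℝ) ≤ R * s := by nlinarith
      have h12 : ((latE (a ++ u) : ℤ) : ℝ) = latE a + latE u := by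
        rw [latE_cat (mem_Brd.1 hat).2.2.1]
        push_cast
        ring
      rw [abs_le] at h7
      refine ⟨⟨_, h9⟩, ?_, ?_, ?_, ?_, ?_⟩
      · rw [hgt_eq h9.1]
        omega
      · rw [hgt_eq h9.1, h12]
        push_cast
        have h13 : R * (t + i) ≤ R * (2 * s) := mul_le_mul_of_nonneg_left (by linarith) (by linarith)
        linarith
      · rw [h12]
        linarith
      · rw [List.length_append]
        push_cast
        linarith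
      · intro n hn
        rcases le_or_gt n a.length with h14 | h14
        · rw [lat_append (by omega)]
          exact (h3' n h14).trans (by nlinarith)
        · obtain ⟨r, rfl⟩ : ∃ r, n = a.length + r := ⟨n - a.length, by omega⟩
          have h15 := h7' r (by rw [List.length_append] at hn; omega)
          rw [lat_cat (mem_Brd.1 hat).2.2.1]
          push_cast
          rw [abs_le] at h15 ⊢
          constructor <;> linarith
    · intro a ha u hu a' ha' u' hu' e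
      rw [hG] at hu hu'
      obtain ⟨⟨i, h3⟩, -⟩ := hu
      obtain ⟨⟨i', h3'⟩, -⟩ := hu'
      exact Fst_unique hW1B ha ha' ⟨i, h3.1⟩ ⟨i', h3'.1⟩ e
    · intro a ha
      have ha1 := ha.1
      rw [hW1] at ha1
      obtain ⟨⟨t, ht, hat⟩, -⟩ := ha1
      rw [mem_Hs] at ht
      refine hV2 _ ?_
      rw [hgt_eq hat]
      omega
  refine le_trans ?_ hmain
  rw [ENNReal.ofReal_mul (by positivity)]
  exact mul_le_mul_left hV1 _

/-- **row C** -/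
theorem stepC_of (hZ : ∃ C : ℝ, 0 < C ∧ ∀ N : ℕ, 1 ≤ N → PW.mZ N ≤ C * (N : ℝ) ^ (4 / 3 : ℝ)) : StepC := by
  intro R hR
  obtain ⟨c, A, s0, h1, h2, h3, h4⟩ := stepT_of hZ R hR
  exact ⟨c, A, s0, h1, h2, h3, fun s hs => (h4 s hs).trans (gf_mono fun a ha =>
    ⟨ha.1, ha.2.1, ha.2.2.1, ha.2.2.2.1, ha.2.2.2.2.1⟩)⟩

end JNT

end HexObs
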