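import Pool.Agent.JNT.LowDefs2
import Pool.Agent.JNT.LowStep

/-!
JNT, the joint local lower bound in a narrow tube: slow steps (first cuts with many letters), quick steps (first cuts with
few letters, the lateral coordinate moves towards the end point), then the bound in a wide tube at a smaller scale.
-/

set_option autoImplicit false

namespace HexObs

namespace JNT

open Finset TS SDN NTW NTA PtC RP

open scoped ENNReal

/-- **n2** -/
theorem quickC_of (h : StepT) : QuickC := by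
  obtain ⟨c, A, s0, h1, h2, h3, h4⟩ := h 1 le_rfl
  refine ⟨c, A, 8, s0, h1, h2, by norm_num, h3, fun s hs => (h4 s hs).trans (gf_mono ?_)⟩
  rintro a ⟨g1, g2, g3, -, g5, g6⟩
  refine ⟨g1, g2, ?_, fun i hi => ?_, g5⟩
  · have e1 : (0 : ℝ) ≤ (latE a : ℝ) := by
      have : (0 : ℝ) ≤ (hgt a : ℝ) := Nat.cast_nonneg _
      linarith
    exact_mod_cast e1
  · have := g6 i hi
    rwa [mul_one] at this

/-! ### 1. Words measured from the end point -/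

/-- the bridges with a given end and a given number of letters, all vertices at a lateral distance at most D from the end -/
def TT (D : ℝ) (h b : ℕ) (x : ℤ) : Set (List Bool) :=
  {Z | Z ∈ EndB h x ∧ Z.length = b ∧ ∀ i, i ≤ Z.length → |(x : ℝ) - lat Z i| ≤ D}

/-- the mirror image -/
lemma TT_mirror (D : ℝ) (h b : ℕ) (x : ℤ) : gf (TT D h b (-x)) = gf (TT D h b x) := by
  have h1 := Wall.gf_Brd_not h (fun Z => latE Z = x ∧ Z.length = b ∧ ∀ i, i ≤ Z.length → |(x : ℝ) - lat Z i| ≤ D)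
  have e1 : TT D h b x =
      {P | P ∈ Brd h ∧ (fun Z => latE Z = x ∧ Z.length = b ∧ ∀ i, i ≤ Z.length → |(x : ℝ) - lat Z i| ≤ D) P} := by
    ext Z
    simp only [TT, EndB, Set.mem_setOf_eq, and_assoc]
  have e2 : TT D h b (-x) = {P | P ∈ Brd h ∧
      (fun Z => latE Z = x ∧ Z.length = b ∧ ∀ i, i ≤ Z.length → |(x : ℝ) - lat Z i| ≤ D) (P.map not)} := by
    ext Z
    simp only [TT, EndB, Set.mem_setOf_eq, and_assoc, latE_not, List.length_map]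
    have e3 : ∀ i, i ≤ Z.length → |(x : ℝ) - (lat (Z.map not) i : ℝ)| = |((-x : ℤ) : ℝ) - (lat Z i : ℝ)| := by
      intro i hi
      rw [lat_not Z (by omega)]
      push_cast
      rw [← abs_neg]
      congr 1
      ring
    constructor
    · rintro ⟨h2, h3, h4, h5⟩
      exact ⟨h2, by omega, h4, fun i hi => by rw [e3 i hi]; exact h5 i hi⟩
    · rintro ⟨h2, h3, h4, h5⟩
      exact ⟨h2, by omega, h4, fun i hi => by rw [← e3 i hi]; exact h5 i hi⟩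
  rw [e1, e2]
  exact h1

/-- one step -/
lemma one_step {D : ℝ} {s h b : ℕ} {x : ℤ} {F : Set (List Bool)} {v : ℝ≥0∞} (hF : F ⊆ FPs s)
    (h1 : ∀ a ∈ F, hgt a ≤ h ∧ a.length ≤ b ∧ ∀ i, i ≤ a.length → |(x : ℝ) - lat a i| ≤ D)
    (hv : ∀ a ∈ F, v ≤ gf (TT D (h - hgt a) (b - a.length) (x - latE a))) : gf F * v ≤ gf (TT D h b x) := by
  refine dep_le (fun a => TT D (h - hgt a) (b - a.length) (x - latE a)) ?_ ?_ hv
  · rintro a ha u ⟨⟨hu1, hu2⟩, hu3, hu4⟩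
    obtain ⟨j, haj⟩ := hF ha
    obtain ⟨h2, h3, h4⟩ := h1 a ha
    have hj := hgt_eq haj.1
    rw [hj] at h2 hu1
    refine ⟨⟨?_, ?_⟩, ?_, ?_⟩
    · have h5 := Brd_append haj.1 hu1
      rwa [Nat.add_sub_of_le h2] at h5
    · rw [latE_cat (mem_Brd.1 haj.1).2.2.1, hu2]
      ring
    · rw [List.length_append, hu3]
      omega
    · intro i hi
      rcases le_or_gt i a.length with h6 | h6
      · rw [lat_append (by omega)]
        exact h4 i h6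
      · obtain ⟨r, rfl⟩ : ∃ r, i = a.length + r := ⟨i - a.length, by omega⟩
        have h7 := hu4 r (by rw [List.length_append] at hi; omega)
        rw [lat_cat (mem_Brd.1 haj.1).2.2.1]
        push_cast at h7 ⊢
        rw [← sub_sub]
        exact h7
  · rintro a ha u ⟨⟨hu1, -⟩, -⟩ a' ha' u' ⟨⟨hu1', -⟩, -⟩ e
    obtain ⟨j, haj⟩ := hF ha
    obtain ⟨j', haj'⟩ := hF ha'
    exact (FC_unique haj haj' hu1 hu1' e).1

/-- parity -/
lemma par_step {h j : ℕ} {x : ℤ} {a : List Bool} (ha : a ∈ Brd j) (hj : j ≤ h) (h2 : Even (x - h)) :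
    Even (x - latE a - ((h - j : ℕ) : ℤ)) := by
  have g1 := latE_even ha
  obtain ⟨p, hp⟩ := h2
  obtain ⟨r, hr⟩ := g1
  refine ⟨p - r, ?_⟩
  rw [Nat.cast_sub hj]
  linarith

/-! ### 2. The quick chain -/

theorem chainQ {D K N am Am c : ℝ} {s L : ℕ} {v : ℝ≥0∞} (hK : 1 ≤ K) (hs : 1 ≤ s) (hL : K * s ≤ L) (hL2 : 2 * s ≤ L)
    (hc1 : c ≤ 1) (hN : 0 ≤ N) (ham : 0 ≤ am) {W : ℝ} (hKW : K * s ≤ W) (hWD : W + K * s ≤ D)
    (hF : ENNReal.ofReal c ≤ gf {a | a ∈ FPs s ∧ hgt a ≤ 2 * s ∧ (s : ℝ) ≤ (latE a : ℝ) ∧ (latE a : ℝ) ≤ K * s ∧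
      (a.length : ℝ) ≤ N ∧ ∀ i, i ≤ a.length → |(lat a i : ℝ)| ≤ K * s})
    (hb : ∀ (h b : ℕ) (x : ℤ), L ≤ h → h ≤ 2 * L → Even (x - h) → |(x : ℝ)| ≤ L → Even b → am ≤ b →
      (b : ℝ) ≤ Am → v ≤ gf (TT D h b x)) :
    ∀ (h b : ℕ) (x : ℤ), L ≤ h → Even (x - h) → |(x : ℝ)| ≤ W → 2 * |(x : ℝ)| ≤ max (2 * (K * s)) (h - 2 * L) → Even b →
      am + ((h / s : ℕ) : ℝ) * N ≤ b → (b : ℝ) ≤ Am → ENNReal.ofReal c ^ (h / s) * v ≤ gf (TT D h b x) := by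
  have hce : ENNReal.ofReal c ≤ 1 := by
    rw [← ENNReal.ofReal_one]
    exact ENNReal.ofReal_le_ofReal hc1
  have hs0 : (0 : ℝ) < s := by exact_mod_cast hs
  have hKs : (s : ℝ) ≤ K * s := by nlinarith
  intro h
  induction h using Nat.strong_induction_on with
  | _ h ih =>
  have key : ∀ (b : ℕ) (x : ℤ), 0 ≤ x → L ≤ h → Even (x - h) → |(x : ℝ)| ≤ W →
      2 * |(x : ℝ)| ≤ max (2 * (K * s)) (h - 2 * L) → Even b →
      am + ((h / s : ℕ) : ℝ) * N ≤ b → (b : ℝ) ≤ Am →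
      ENNReal.ofReal c ^ (h / s) * v ≤ gf (TT D h b x) := by
    intro b x hx0 h1 h2 h3 h3' h4 h5 h6
    rcases Nat.lt_or_ge (2 * L) h with hh | hh
    swap
    · refine le_trans ?_ (hb h b x h1 hh h2 ?_ h4 (le_trans (by
        have : 0 ≤ ((h / s : ℕ) : ℝ) * N := by positivity
        linarith) h5) h6)
      · calc ENNReal.ofReal c ^ (h / s) * v ≤ 1 * v := mul_le_mul_left (pow_le_one₀ zero_le hce) _
          _ = v := one_mul v
      · have e1 : (h : ℝ) ≤ 2 * L := by exact_mod_cast hh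
        have e2 : max (2 * (K * s)) ((h : ℝ) - 2 * L) ≤ 2 * L := max_le (by linarith) (by linarith [Nat.cast_nonneg (α := ℝ) L])
        linarith
    · have hq : 1 ≤ h / s := (Nat.one_le_div_iff (by omega)).2 (by omega)
      have hqN : N ≤ ((h / s : ℕ) : ℝ) * N := by
        have : (1 : ℝ) ≤ ((h / s : ℕ) : ℝ) := by exact_mod_cast hq
        nlinarith
      have hdiv : ∀ j, s ≤ j → j ≤ h → (h - j) / s + 1 ≤ h / s := by
        intro j hj hj'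
        rw [← Nat.add_div_right _ (by omega)]
        exact Nat.div_le_div_right (by omega)
      have e1 : ENNReal.ofReal c ^ (h / s) * v = ENNReal.ofReal c * (ENNReal.ofReal c ^ (h / s - 1) * v) := by
        rw [← mul_assoc, ← pow_succ']
        congr 2
        omega
      have g0 : (0 : ℝ) ≤ x := by exact_mod_cast hx0
      rw [abs_of_nonneg g0] at h3 h3'
      rw [e1]
      refine (mul_le_mul_left hF _).trans (one_step (s := s) (fun a ha => ha.1) ?_ ?_)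
      · rintro a ⟨⟨j, ha⟩, h7, h8, h9, h10, h11⟩
        have f3 : (a.length : ℝ) ≤ b := by linarith
        refine ⟨by omega, by exact_mod_cast f3, fun i hi => ?_⟩
        have h12 := h11 i hi
        rw [abs_le] at h12 ⊢
        constructor <;> linarith
      · rintro a ⟨⟨j, ha⟩, h7, h8, h9, h10, h11⟩
        have hj := hgt_eq ha.1
        have hjs : s ≤ j := ha.2.1
        rw [hj] at h7
        have f1 : (s : ℝ) ≤ j := by exact_mod_cast hjs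
        have f1' : (j : ℝ) ≤ 2 * s := by exact_mod_cast h7
        have f3 : (a.length : ℝ) ≤ b := by linarith
        have f4 : a.length ≤ b := by exact_mod_cast f3
        have f5 : ((b - a.length : ℕ) : ℝ) = b - a.length := by
          rw [Nat.cast_sub f4]
        have f6 : ((h - j : ℕ) : ℝ) = h - j := by
          rw [Nat.cast_sub (by omega)]
        have hd := hdiv j hjs (by omega)
        have f8 : (((h - j) / s : ℕ) : ℝ) + 1 ≤ ((h / s : ℕ) : ℝ) := by exact_mod_cast hd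
        have hx' : |((x - latE a : ℤ) : ℝ)| ≤ max (K * s) (x - s) := by
          push_cast
          rw [abs_le]
          constructor
          · have := le_max_left (K * s) ((x : ℝ) - s)
            linarith
          · have := le_max_right (K * s) ((x : ℝ) - s)
            linarith
        have h12 := ih (h - j) (by omega) (b - a.length) (x - latE a) (by omega) (par_step ha.1 (by omega) h2)
          (hx'.trans (max_le hKW (by linarith))) (by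
            rw [f6]
            refine (mul_le_mul_of_nonneg_left hx' (by norm_num)).trans ?_
            rw [mul_max_of_nonneg _ _ (by norm_num)]
            refine max_le (le_max_left _ _) ?_
            rcases le_max_iff.1 h3' with g1 | g1
            · refine le_trans ?_ (le_max_left _ _)
              linarith
            · refine le_trans ?_ (le_max_right _ _)
              linarith) ((Nat.even_sub f4).2 ⟨fun _ => FPs_even ⟨j, ha⟩, fun _ => h4⟩) (by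
            rw [f5]
            have g1 : ((((h - j) / s : ℕ) : ℝ) + 1) * N ≤ ((h / s : ℕ) : ℝ) * N := mul_le_mul_of_nonneg_right f8 hN
            linarith) (by
            rw [f5]
            have : (0 : ℝ) ≤ a.length := by positivity
            linarith)
        rw [hj]
        refine le_trans ?_ h12
        refine mul_le_mul_left ?_ _
        exact pow_le_pow_right_of_le_one' hce (by omega)
  intro b x h1 h2 h3 h3' h4 h5 h6
  rcases le_total 0 x with hx | hx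
  · exact key b x hx h1 h2 h3 h3' h4 h5 h6
  · rw [← TT_mirror]
    have e1 : |((-x : ℤ) : ℝ)| = |(x : ℝ)| := by push_cast; rw [abs_neg]
    refine key b (-x) (by omega) h1 ?_ (by rw [e1]; exact h3) (by rw [e1]; exact h3') h4 h5 h6
    obtain ⟨p, hp⟩ := h2
    exact ⟨-p - h, by push_cast at hp ⊢; linarith⟩

/-! ### 3. The slow chain -/

theorem chainS {D K y N B0 B1 c W : ℝ} {s L Hm : ℕ} {v : ℝ≥0∞} (hK : 1 ≤ K) (hc1 : c ≤ 1) (hKW : K * s ≤ W)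
    (hWD : W + K * s ≤ D) (hB : B0 + N ≤ B1) (hB0 : 0 ≤ B0)
    (hF : ENNReal.ofReal c ≤ gf {a | a ∈ FPs s ∧ (hgt a : ℝ) ≤ K * s ∧ 0 ≤ latE a ∧
      (∀ i, i ≤ a.length → |(lat a i : ℝ)| ≤ K * s) ∧ y ≤ (a.length : ℝ) ∧ (a.length : ℝ) ≤ N})
    (hb : ∀ (h b : ℕ) (x : ℤ), L ≤ h → h ≤ Hm → Even (x - h) → |(x : ℝ)| ≤ W → Even b → B0 ≤ b →
      (b : ℝ) ≤ B1 → v ≤ gf (TT D h b x)) :
    ∀ (n h b : ℕ) (x : ℤ), L + n * (K * s) ≤ h → h ≤ Hm → Even (x - h) → |(x : ℝ)| ≤ W → Even b → B0 ≤ b →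
      (b : ℝ) ≤ B1 + n * y → ENNReal.ofReal c ^ n * v ≤ gf (TT D h b x) := by
  have hce : ENNReal.ofReal c ≤ 1 := by
    rw [← ENNReal.ofReal_one]
    exact ENNReal.ofReal_le_ofReal hc1
  have hs0 : (0 : ℝ) ≤ s := Nat.cast_nonneg s
  have hKs : 0 ≤ K * s := by positivity
  intro n
  induction n with
  | zero =>
    intro h b x h1 h2 h3 h4 h5 h6 h7
    rw [pow_zero, one_mul]
    have e1 : (L : ℝ) ≤ h := by simpa using h1
    exact hb h b x (by exact_mod_cast e1) h2 h3 h4 h5 h6 (by simpa using h7)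
  | succ n ih =>
  have key : ∀ (h b : ℕ) (x : ℤ), 0 ≤ x → L + ((n + 1 : ℕ) : ℝ) * (K * s) ≤ h → h ≤ Hm → Even (x - h) → |(x : ℝ)| ≤ W →
      Even b → B0 ≤ b → (b : ℝ) ≤ B1 + ((n + 1 : ℕ) : ℝ) * y → ENNReal.ofReal c ^ (n + 1) * v ≤ gf (TT D h b x) := by
    intro h b x hx0 h1 h2 h3 h4 h5 h6 h7
    push_cast at h1 h7
    have hn0 : (0 : ℝ) ≤ n := Nat.cast_nonneg n
    have hL : (L : ℝ) ≤ h := by nlinarith
    rcases le_or_gt (b : ℝ) B1 with h8 | h8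
    · refine le_trans ?_ (hb h b x (by exact_mod_cast hL) h2 h3 h4 h5 h6 h8)
      calc ENNReal.ofReal c ^ (n + 1) * v ≤ 1 * v := mul_le_mul_left (pow_le_one₀ zero_le hce) _
        _ = v := one_mul v
    · have g0 : (0 : ℝ) ≤ x := by exact_mod_cast hx0
      rw [abs_of_nonneg g0] at h4
      rw [pow_succ', mul_assoc]
      refine (mul_le_mul_left hF _).trans (one_step (s := s) (fun a ha => ha.1) ?_ ?_)
      · rintro a ⟨⟨j, ha⟩, h9, h10, h11, h12, h13⟩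
        have f3 : (a.length : ℝ) ≤ b := by linarith
        have f4 : (hgt a : ℝ) ≤ h := by nlinarith [Nat.cast_nonneg (α := ℝ) L]
        refine ⟨by exact_mod_cast f4, by exact_mod_cast f3, fun i hi => ?_⟩
        have h14 := h11 i hi
        rw [abs_le] at h14 ⊢
        constructor <;> linarith
      · rintro a ⟨⟨j, ha⟩, h9, h10, h11, h12, h13⟩
        have hj := hgt_eq ha.1
        rw [hj] at h9
        have f3 : (a.length : ℝ) ≤ b := by linarith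
        have f4 : a.length ≤ b := by exact_mod_cast f3
        have f5 : ((b - a.length : ℕ) : ℝ) = b - a.length := by
          rw [Nat.cast_sub f4]
        have f7 : (j : ℝ) ≤ h := by nlinarith [Nat.cast_nonneg (α := ℝ) L]
        have f8 : j ≤ h := by exact_mod_cast f7
        have f6 : ((h - j : ℕ) : ℝ) = h - j := by
          rw [Nat.cast_sub f8]
        have f9 := h11 a.length le_rfl
        have f10 : (latE a : ℝ) ≤ K * s := (abs_le.1 f9).2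
        have f11 : (0 : ℝ) ≤ (latE a : ℝ) := by exact_mod_cast h10
        rw [hj]
        refine ih (h - j) (b - a.length) (x - latE a) (by rw [f6]; linarith) (by omega) (par_step ha.1 f8 h3) ?_
          ((Nat.even_sub f4).2 ⟨fun _ => FPs_even ⟨j, ha⟩, fun _ => h5⟩) (by rw [f5]; linarith) (by rw [f5]; linarith)
        push_cast
        rw [abs_le]
        constructor <;> linarith
  intro h b x h1 h2 h3 h4 h5 h6 h7
  rcases le_total 0 x with hx | hx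
  · exact key h b x hx h1 h2 h3 h4 h5 h6 h7
  · rw [← TT_mirror]
    have e1 : |((-x : ℤ) : ℝ)| = |(x : ℝ)| := by push_cast; rw [abs_neg]
    refine key h b (-x) (by omega) h1 h2 ?_ (by rw [e1]; exact h4) h5 h6 h7
    obtain ⟨p, hp⟩ := h3
    exact ⟨-p - h, by push_cast at hp ⊢; linarith⟩

/-! ### 4. The bound in a narrow tube -/

/-- the number of letters in k rows, as a power of two -/
lemma pow43_two (r : ℕ) : (((2 ^ r : ℕ) : ℝ)) ^ (4 / 3 : ℝ) = 2 ^ (4 / 3 * (r : ℝ)) := by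
  push_cast
  rw [← Real.rpow_natCast, ← Real.rpow_mul (by norm_num)]
  congr 1
  ring

/-- **n4** -/
theorem lowNar_of {m : ℕ → ℝ} (hS : SlowC) (hQ : StepT) (hW : LowWide m)
    (hm1 : ∃ c : ℝ, 0 < c ∧ ∀ k : ℕ, c * 2 ^ (4 / 3 * (k : ℝ)) ≤ m k)
    (hm2 : ∃ C : ℝ, 0 < C ∧ ∀ k : ℕ, m k ≤ C * 2 ^ (4 / 3 * (k : ℝ))) : LowNar m := by
  intro w a A hw ha haA
  obtain ⟨cm, hcm, hm1⟩ := hm1
  obtain ⟨Cm, hCm, hm2⟩ := hm2
  obtain ⟨H2, c2, K2, k2, hH2, hc2, hK2, hW⟩ := hW 1 (1 / 4) 1 one_pos (by norm_num) (by norm_num)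
  obtain ⟨cS', y, AS, KS, s0S, hcS', hy, hAS, hKS, hs0S, hS⟩ := hS
  obtain ⟨cQ', AQ, s0Q, hcQ', hAQ, hs0Q, hQ⟩ := hQ 1 le_rfl
  have hmk : ∀ k, 0 < m k := fun k => lt_of_lt_of_le (by positivity) (hm1 k)
  obtain ⟨cS, hcSd⟩ : ∃ cS, cS = min cS' 1 := ⟨_, rfl⟩
  have hcS : 0 < cS := by rw [hcSd]; exact lt_min hcS' one_pos
  have hcS1 : cS ≤ 1 := by rw [hcSd]; exact min_le_right _ _
  have hcS2 : cS ≤ cS' := by rw [hcSd]; exact min_le_left _ _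
  obtain ⟨cQ, hcQd⟩ : ∃ cQ, cQ = min cQ' 1 := ⟨_, rfl⟩
  have hcQ : 0 < cQ := by rw [hcQd]; exact lt_min hcQ' one_pos
  have hcQ1 : cQ ≤ 1 := by rw [hcQd]; exact min_le_right _ _
  have hcQ2 : cQ ≤ cQ' := by rw [hcQd]; exact min_le_left _ _
  -- the offsets p (wide tube), q1 (slow steps)
  obtain ⟨p, hp⟩ := pow_unbounded_of_one_lt ((H2 + K2) / w + Cm / (a * cm)) (one_lt_two (α := ℝ))
  obtain ⟨q1, hq1⟩ := pow_unbounded_of_one_lt (KS / w + 4 * AS / cm) (one_lt_two (α := ℝ))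
  have hH2r : (1 : ℝ) ≤ H2 := by exact_mod_cast hH2
  have hp1 : (H2 + K2) ≤ w * 2 ^ p := by
    have e1 : (H2 + K2) / w ≤ 2 ^ p := by
      have : 0 ≤ Cm / (a * cm) := by positivity
      linarith
    rw [div_le_iff₀ hw] at e1
    linarith
  have hp2 : Cm ≤ a * cm * 2 ^ p := by
    have e1 : Cm / (a * cm) ≤ 2 ^ p := by
      have : 0 ≤ (H2 + K2) / w := by positivity
      linarith
    rw [div_le_iff₀ (by positivity)] at e1
    linarith
  have hq11 : KS ≤ w * 2 ^ q1 := by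
    have e1 : KS / w ≤ 2 ^ q1 := by
      have : 0 ≤ 4 * AS / cm := by positivity
      linarith
    rw [div_le_iff₀ hw] at e1
    linarith
  have hq12 : 4 * AS ≤ cm * 2 ^ q1 := by
    have e1 : 4 * AS / cm ≤ 2 ^ q1 := by
      have : 0 ≤ KS / w := by positivity
      linarith
    rw [div_le_iff₀ hcm] at e1
    linarith
  obtain ⟨n1, hn1⟩ : ∃ n1 : ℕ, A * Cm / y * 2 ^ (4 / 3 * ((p + q1 : ℕ) : ℝ)) ≤ n1 := ⟨_, Nat.le_ceil _⟩
  obtain ⟨w', hw'⟩ : ∃ w' : ℕ, 2 * w ≤ w' := ⟨_, Nat.le_ceil _⟩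
  obtain ⟨e', he'⟩ : ∃ e' : ℕ, n1 * KS ≤ e' := ⟨_, Nat.le_ceil _⟩
  refine ⟨2 * H2 + w' + e', fun H hH => ?_⟩
  -- the offset of the quick steps
  obtain ⟨q3, hq3⟩ := pow_unbounded_of_one_lt (4 * H * 2 ^ p * AQ / cm) (one_lt_two (α := ℝ))
  obtain ⟨q2, hq2⟩ : ∃ q2, q2 = 3 * q3 + 3 := ⟨_, rfl⟩
  obtain ⟨n2, hn2⟩ : ∃ n2 : ℕ, n2 = 2 * H * 2 ^ (p + q2) := ⟨_, rfl⟩
  refine ⟨cS ^ n1 * cQ ^ n2 * c2 * (cm / (2 ^ p * Cm)), p + q1 + q2 + s0S + s0Q + k2, by positivity, ?_⟩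
  intro k h b x hk h1 h2 h3 h4 h5 h6 h7
  obtain ⟨κ, hκ⟩ : ∃ κ, κ = k - p := ⟨_, rfl⟩
  have hkκ : k = κ + p := by omega
  obtain ⟨r1, hr1⟩ : ∃ r1, r1 = κ - q1 := ⟨_, rfl⟩
  have hκ1 : κ = r1 + q1 := by omega
  obtain ⟨r2, hr2⟩ : ∃ r2, r2 = κ - q2 := ⟨_, rfl⟩
  have hκ2 : κ = r2 + q2 := by omega
  have hk2 : (2 : ℝ) ^ k = 2 ^ κ * 2 ^ p := by rw [hkκ, pow_add]
  have hs1 : (2 : ℝ) ^ κ = 2 ^ r1 * 2 ^ q1 := by rw [hκ1, pow_add]
  have hs2 : (2 : ℝ) ^ κ = 2 ^ r2 * 2 ^ q2 := by rw [hκ2, pow_add]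
  have hs2n : 2 ^ κ = 2 ^ r2 * 2 ^ q2 := by rw [hκ2, pow_add]
  have hk2n : 2 ^ k = 2 ^ κ * 2 ^ p := by rw [hkκ, pow_add]
  have hmκ : m κ ≤ a * m k := by
    have e1 : (2 : ℝ) ^ (4 / 3 * (k : ℝ)) = 2 ^ (4 / 3 * (κ : ℝ)) * 2 ^ (4 / 3 * (p : ℝ)) := by
      rw [← Real.rpow_add (by norm_num)]
      congr 1
      rw [hkκ]
      push_cast
      ring
    have e2 : (2 : ℝ) ^ p ≤ 2 ^ (4 / 3 * (p : ℝ)) := by
      rw [← Real.rpow_natCast]
      exact Real.rpow_le_rpow_of_exponent_le (by norm_num) (by have : (0 : ℝ) ≤ p := Nat.cast_nonneg _; linarith)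
    calc m κ ≤ Cm * 2 ^ (4 / 3 * (κ : ℝ)) := hm2 κ
      _ ≤ a * cm * 2 ^ p * 2 ^ (4 / 3 * (κ : ℝ)) := mul_le_mul_of_nonneg_right hp2 (by positivity)
      _ ≤ a * cm * 2 ^ (4 / 3 * (p : ℝ)) * 2 ^ (4 / 3 * (κ : ℝ)) := by gcongr
      _ = a * (cm * 2 ^ (4 / 3 * (k : ℝ))) := by rw [e1]; ring
      _ ≤ a * m k := mul_le_mul_of_nonneg_left (hm1 k) ha.le
  -- the wide tube
  obtain ⟨v2, hv2⟩ : ∃ v2 : ℝ≥0∞, v2 = ENNReal.ofReal (c2 * (Ub κ / (4 ^ κ * m κ))) := ⟨_, rfl⟩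
  obtain ⟨D, hD⟩ : ∃ D : ℝ, D = 2 * (w * 2 ^ k) := ⟨_, rfl⟩
  have hHK : (H2 + K2) * 2 ^ κ ≤ w * 2 ^ k := by
    rw [hk2]
    calc (H2 + K2) * 2 ^ κ ≤ w * 2 ^ p * 2 ^ κ := mul_le_mul_of_nonneg_right hp1 (by positivity)
      _ = _ := by ring
  have hbase : ∀ (h b : ℕ) (x : ℤ), H2 * 2 ^ κ ≤ h → h ≤ 2 * (H2 * 2 ^ κ) → Even (x - h) →
      |(x : ℝ)| ≤ ((H2 * 2 ^ κ : ℕ) : ℝ) → Even b → 1 / 4 * m κ ≤ b → (b : ℝ) ≤ m κ → v2 ≤ gf (TT D h b x) := by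
    intro h b x g1 g2 g3 g4 g5 g6 g7
    have g8 : ((H2 * 2 ^ κ : ℕ) : ℝ) ≤ h := by exact_mod_cast g1
    rw [hv2]
    refine (hW κ h b x (by omega) g1 g2 g3 (by linarith) g5 g6 (by linarith)).trans (gf_mono ?_)
    rintro Z ⟨g9, g10, g11⟩
    refine ⟨g9, g10, fun i hi => ?_⟩
    have g12 := g11 i hi
    push_cast at g4
    rw [abs_le] at g4 g12 ⊢
    rw [hD]
    have g13 : 0 < w * 2 ^ k := by positivity
    constructor <;> nlinarith
  -- the quick chain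
  have hq2w : 8 * ((2 ^ r2 : ℕ) : ℝ) ≤ w * 2 ^ k := by
    have e1 : (8 : ℝ) ≤ 2 ^ q2 := by
      calc (8 : ℝ) = 2 ^ 3 := by norm_num
        _ ≤ 2 ^ q2 := pow_le_pow_right₀ (by norm_num) (by omega)
    push_cast
    calc 8 * (2 : ℝ) ^ r2 ≤ 2 ^ q2 * 2 ^ r2 := mul_le_mul_of_nonneg_right e1 (by positivity)
      _ = 1 * 2 ^ κ := by rw [hs2]; ring
      _ ≤ (H2 + K2) * 2 ^ κ := mul_le_mul_of_nonneg_right (by linarith) (by positivity)
      _ ≤ _ := hHK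
  have hq2n : 8 * 2 ^ r2 ≤ H2 * 2 ^ κ := by
    have e1 : 8 ≤ 2 ^ q2 := by
      calc 8 = 2 ^ 3 := by norm_num
        _ ≤ 2 ^ q2 := Nat.pow_le_pow_right (by norm_num) (by omega)
    calc 8 * 2 ^ r2 ≤ 2 ^ q2 * 2 ^ r2 := Nat.mul_le_mul_right _ e1
      _ = 1 * 2 ^ κ := by rw [hs2n]; ring
      _ ≤ H2 * 2 ^ κ := Nat.mul_le_mul_right _ hH2
  obtain ⟨N2, hN2⟩ : ∃ N2 : ℝ, N2 = AQ * ((2 ^ r2 : ℕ) : ℝ) ^ (4 / 3 : ℝ) := ⟨_, rfl⟩
  have hN20 : 0 ≤ N2 := by rw [hN2]; positivity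
  have hFQ : ENNReal.ofReal cQ ≤ gf {a | a ∈ FPs (2 ^ r2) ∧ hgt a ≤ 2 * 2 ^ r2 ∧ ((2 ^ r2 : ℕ) : ℝ) ≤ (latE a : ℝ) ∧
      (latE a : ℝ) ≤ 8 * ((2 ^ r2 : ℕ) : ℝ) ∧ (a.length : ℝ) ≤ N2 ∧
      ∀ i, i ≤ a.length → |(lat a i : ℝ)| ≤ 8 * ((2 ^ r2 : ℕ) : ℝ)} := by
    have e1 : r2 < 2 ^ r2 := Nat.lt_two_pow_self
    refine (ENNReal.ofReal_le_ofReal hcQ2).trans ((hQ (2 ^ r2) (by omega)).trans (gf_mono ?_))
    rintro a ⟨⟨j, ha⟩, g2, g3, g4, g5, g6⟩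
    have g7 : 2 ^ r2 ≤ hgt a := by
      rw [hgt_eq ha.1]
      exact ha.2.1
    have g8 : ((2 ^ r2 : ℕ) : ℝ) ≤ hgt a := by exact_mod_cast g7
    rw [hN2]
    refine ⟨⟨j, ha⟩, g2, by linarith, by linarith, g5, fun i hi => ?_⟩
    have := g6 i hi
    rwa [mul_one] at this
  have hdiv : ∀ h, h ≤ 2 * (H * 2 ^ k) → h / 2 ^ r2 ≤ n2 := by
    intro h hh
    rw [Nat.div_le_iff_le_mul_add_pred (by positivity)]
    have e1 : 2 ^ r2 * n2 = 2 * (H * 2 ^ k) := by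
      rw [hn2, hk2n, hs2n, pow_add]
      ring
    omega
  have hlen : ∀ h, h ≤ 2 * (H * 2 ^ k) → ((h / 2 ^ r2 : ℕ) : ℝ) * N2 ≤ 1 / 2 * m κ := by
    intro h hh
    have e1 : ((h / 2 ^ r2 : ℕ) : ℝ) ≤ 2 * H * 2 ^ (p + q2) := by
      have := hdiv h hh
      rw [hn2] at this
      exact_mod_cast this
    have e3 : (2 : ℝ) ^ (p + q2) * 2 ^ (4 / 3 * (r2 : ℝ)) = 2 ^ p * 2 ^ (4 / 3 * (κ : ℝ)) / 2 ^ (q3 + 1) := by
      rw [eq_div_iff (by positivity)]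
      rw [← Real.rpow_natCast 2 (p + q2), ← Real.rpow_natCast 2 (q3 + 1), ← Real.rpow_natCast 2 p,
        ← Real.rpow_add (by norm_num), ← Real.rpow_add (by norm_num), ← Real.rpow_add (by norm_num)]
      congr 1
      rw [hκ2, hq2]
      push_cast
      ring
    calc ((h / 2 ^ r2 : ℕ) : ℝ) * N2 ≤ 2 * H * 2 ^ (p + q2) * (AQ * 2 ^ (4 / 3 * (r2 : ℝ))) := by
          rw [hN2, pow43_two]
          exact mul_le_mul_of_nonneg_right e1 (by positivity)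
      _ = 2 * H * AQ * ((2 : ℝ) ^ (p + q2) * 2 ^ (4 / 3 * (r2 : ℝ))) := by ring
      _ = (4 * H * 2 ^ p * AQ / cm) / 2 ^ (q3 + 1) * (1 / 2 * (cm * 2 ^ (4 / 3 * (κ : ℝ)))) := by
          rw [e3]
          field_simp
          ring
      _ ≤ 1 * (1 / 2 * (cm * 2 ^ (4 / 3 * (κ : ℝ)))) := by
          refine mul_le_mul_of_nonneg_right ?_ (by positivity)
          rw [div_le_one (by positivity)]
          exact hq3.le.trans (pow_le_pow_right₀ (by norm_num) (by omega))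
      _ ≤ 1 / 2 * m κ := by
          rw [one_mul]
          exact mul_le_mul_of_nonneg_left (hm1 κ) (by norm_num)
  have hw2 : 0 < w * 2 ^ k := by positivity
  have hquick := chainQ (D := D) (K := 8) (N := N2) (am := 1 / 4 * m κ) (Am := m κ) (c := cQ) (s := 2 ^ r2)
    (L := H2 * 2 ^ κ) (v := v2) (by norm_num) Nat.one_le_two_pow (by exact_mod_cast hq2n) (by omega) hcQ1 hN20
    (by have := hmk κ; positivity) (W := w * 2 ^ k) hq2w (by rw [hD]; linarith) hFQ hbase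
  -- the slow chain
  obtain ⟨L1, hL1⟩ : ∃ L1 : ℕ, L1 = 2 * (H2 * 2 ^ κ) + w' * 2 ^ k := ⟨_, rfl⟩
  have hbase1 : ∀ (h b : ℕ) (x : ℤ), L1 ≤ h → h ≤ 2 * (H * 2 ^ k) → Even (x - h) → |(x : ℝ)| ≤ w * 2 ^ k → Even b →
      3 / 4 * m κ ≤ b → (b : ℝ) ≤ m κ → ENNReal.ofReal cQ ^ n2 * v2 ≤ gf (TT D h b x) := by
    intro h b x g1 g2 g3 g4 g5 g6 g7
    have g8 : (L1 : ℝ) ≤ h := by exact_mod_cast g1
    rw [hL1] at g8
    push_cast at g8
    have g9 : 2 * w * 2 ^ k ≤ w' * 2 ^ k := mul_le_mul_of_nonneg_right hw' (by positivity)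
    refine le_trans ?_ (hquick h b x (by omega) g3 g4 ?_ g5 ?_ g7)
    · refine mul_le_mul_left ?_ _
      refine pow_le_pow_right_of_le_one' ?_ (hdiv h g2)
      rw [← ENNReal.ofReal_one]
      exact ENNReal.ofReal_le_ofReal hcQ1
    · refine le_trans ?_ (le_max_right _ _)
      push_cast
      linarith
    · have := hlen h g2
      linarith
  have hs1k : ((2 ^ r1 : ℕ) : ℝ) ≤ 2 ^ k := by
    have : 2 ^ r1 ≤ 2 ^ k := Nat.pow_le_pow_right (by norm_num) (by omega)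
    exact_mod_cast this
  have hKSw : KS * ((2 ^ r1 : ℕ) : ℝ) ≤ w * 2 ^ k := by
    push_cast
    have e1 : (1 : ℝ) ≤ 2 ^ p := one_le_pow₀ (by norm_num)
    calc KS * 2 ^ r1 ≤ w * 2 ^ q1 * 2 ^ r1 := mul_le_mul_of_nonneg_right hq11 (by positivity)
      _ = w * 2 ^ κ * 1 := by rw [hs1]; ring
      _ ≤ w * 2 ^ κ * 2 ^ p := mul_le_mul_of_nonneg_left e1 (by positivity)
      _ = w * 2 ^ k := by rw [hk2]; ring
  have hFS : ENNReal.ofReal cS ≤ gf {a | a ∈ FPs (2 ^ r1) ∧ (hgt a : ℝ) ≤ KS * ((2 ^ r1 : ℕ) : ℝ) ∧ 0 ≤ latE a ∧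
      (∀ i, i ≤ a.length → |(lat a i : ℝ)| ≤ KS * ((2 ^ r1 : ℕ) : ℝ)) ∧
      y * ((2 ^ r1 : ℕ) : ℝ) ^ (4 / 3 : ℝ) ≤ (a.length : ℝ) ∧
      (a.length : ℝ) ≤ AS * ((2 ^ r1 : ℕ) : ℝ) ^ (4 / 3 : ℝ)} := by
    have e1 : r1 < 2 ^ r1 := Nat.lt_two_pow_self
    exact (ENNReal.ofReal_le_ofReal hcS2).trans (hS (2 ^ r1) (by omega))
  have hAS4 : AS * ((2 ^ r1 : ℕ) : ℝ) ^ (4 / 3 : ℝ) ≤ 1 / 4 * m κ := by
    have e1 : (2 : ℝ) ^ (4 / 3 * (κ : ℝ)) = 2 ^ (4 / 3 * (r1 : ℝ)) * 2 ^ (4 / 3 * (q1 : ℝ)) := by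
      rw [← Real.rpow_add (by norm_num)]
      congr 1
      rw [hκ1]
      push_cast
      ring
    have e2 : (2 : ℝ) ^ q1 ≤ 2 ^ (4 / 3 * (q1 : ℝ)) := by
      rw [← Real.rpow_natCast]
      exact Real.rpow_le_rpow_of_exponent_le (by norm_num) (by have : (0 : ℝ) ≤ q1 := Nat.cast_nonneg _; linarith)
    rw [pow43_two]
    calc AS * 2 ^ (4 / 3 * (r1 : ℝ)) = 1 / 4 * (4 * AS * 2 ^ (4 / 3 * (r1 : ℝ))) := by ring
      _ ≤ 1 / 4 * (cm * 2 ^ q1 * 2 ^ (4 / 3 * (r1 : ℝ))) := by gcongr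
      _ ≤ 1 / 4 * (cm * 2 ^ (4 / 3 * (q1 : ℝ)) * 2 ^ (4 / 3 * (r1 : ℝ))) := by gcongr
      _ = 1 / 4 * (cm * 2 ^ (4 / 3 * (κ : ℝ))) := by rw [e1]; ring
      _ ≤ 1 / 4 * m κ := mul_le_mul_of_nonneg_left (hm1 κ) (by norm_num)
  have hslow := chainS (D := D) (K := KS) (y := y * ((2 ^ r1 : ℕ) : ℝ) ^ (4 / 3 : ℝ))
    (N := AS * ((2 ^ r1 : ℕ) : ℝ) ^ (4 / 3 : ℝ)) (B0 := 3 / 4 * m κ) (B1 := m κ) (c := cS) (W := w * 2 ^ k)
    (s := 2 ^ r1) (L := L1) (Hm := 2 * (H * 2 ^ k)) (v := ENNReal.ofReal cQ ^ n2 * v2) hKS hcS1 hKSw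
    (by rw [hD]; linarith) (by linarith) (by have := hmk κ; positivity) hFS hbase1 n1 h b x (by
      have g1 : n1 * (KS * ((2 ^ r1 : ℕ) : ℝ)) ≤ e' * 2 ^ k := by
        calc n1 * (KS * ((2 ^ r1 : ℕ) : ℝ)) = n1 * KS * ((2 ^ r1 : ℕ) : ℝ) := by ring
          _ ≤ e' * 2 ^ k := by gcongr
      have g2 : (L1 : ℝ) ≤ (2 * H2 + w') * 2 ^ k := by
        rw [hL1]
        push_cast
        have g3 : (2 : ℝ) ^ κ ≤ 2 ^ k := pow_le_pow_right₀ (by norm_num) (by omega)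
        have g4 : (0 : ℝ) ≤ H2 := Nat.cast_nonneg _
        nlinarith
      have g5 : (2 * H2 + w' + e' : ℝ) ≤ H := by exact_mod_cast hH
      have g6 : (H * 2 ^ k : ℝ) ≤ h := by exact_mod_cast h1
      have g7 : (2 * H2 + w' + e' : ℝ) * 2 ^ k ≤ H * 2 ^ k := mul_le_mul_of_nonneg_right g5 (by positivity)
      linarith) h2 h3 h4 h5 (by have := hmk κ; linarith) (by
      have g1 : A * Cm * 2 ^ (4 / 3 * (k : ℝ)) ≤ n1 * (y * ((2 ^ r1 : ℕ) : ℝ) ^ (4 / 3 : ℝ)) := by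
        rw [pow43_two]
        have e1 : (2 : ℝ) ^ (4 / 3 * (k : ℝ)) = 2 ^ (4 / 3 * ((p + q1 : ℕ) : ℝ)) * 2 ^ (4 / 3 * (r1 : ℝ)) := by
          rw [← Real.rpow_add (by norm_num)]
          congr 1
          rw [hkκ, hκ1]
          push_cast
          ring
        calc A * Cm * 2 ^ (4 / 3 * (k : ℝ)) =
            A * Cm / y * 2 ^ (4 / 3 * ((p + q1 : ℕ) : ℝ)) * (y * 2 ^ (4 / 3 * (r1 : ℝ))) := by
              rw [e1]
              field_simp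
          _ ≤ n1 * (y * 2 ^ (4 / 3 * (r1 : ℝ))) := mul_le_mul_of_nonneg_right hn1 (by positivity)
      have g2 : A * m k ≤ A * Cm * 2 ^ (4 / 3 * (k : ℝ)) := by
        rw [mul_assoc]
        exact mul_le_mul_of_nonneg_left (hm2 k) (by linarith)
      have := hmk κ
      linarith)
  -- the conclusion
  refine le_trans ?_ (hslow.trans (gf_mono ?_))
  · rw [hv2, ← ENNReal.ofReal_pow hcQ.le, ← ENNReal.ofReal_pow hcS.le, ← ENNReal.ofReal_mul (by positivity),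
      ← ENNReal.ofReal_mul (by positivity)]
    refine ENNReal.ofReal_le_ofReal ?_
    have hU := Ub_pos κ
    have g1 : Ub k ≤ 2 ^ p * Ub κ := by
      rw [hkκ]
      exact Sc.Ub_shift κ p
    have g2 : m κ ≤ Cm / cm * m k := by
      calc m κ ≤ Cm * 2 ^ (4 / 3 * (κ : ℝ)) := hm2 κ
        _ ≤ Cm * 2 ^ (4 / 3 * (k : ℝ)) := by
            refine mul_le_mul_of_nonneg_left (Real.rpow_le_rpow_of_exponent_le (by norm_num) ?_) hCm.le
            have : (κ : ℝ) ≤ k := by exact_mod_cast (show κ ≤ k by omega)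
            linarith
        _ = Cm / cm * (cm * 2 ^ (4 / 3 * (k : ℝ))) := by field_simp
        _ ≤ Cm / cm * m k := mul_le_mul_of_nonneg_left (hm1 k) (by positivity)
    have g3 : (4 : ℝ) ^ κ ≤ 4 ^ k := pow_le_pow_right₀ (by norm_num) (by omega)
    have hmk1 := hmk k
    have hmk2 := hmk κ
    have g4 : cm / (2 ^ p * Cm) * (Ub k / (4 ^ k * m k)) ≤ Ub κ / (4 ^ κ * m κ) := by
      calc cm / (2 ^ p * Cm) * (Ub k / (4 ^ k * m k)) ≤ cm / (2 ^ p * Cm) * (2 ^ p * Ub κ / (4 ^ k * m k)) := by gcongr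
        _ = Ub κ / (4 ^ k * (Cm / cm * m k)) := by field_simp
        _ ≤ Ub κ / (4 ^ κ * m κ) := by gcongr
    calc cS ^ n1 * cQ ^ n2 * c2 * (cm / (2 ^ p * Cm)) * (Ub k / (4 ^ k * m k)) =
        cS ^ n1 * cQ ^ n2 * c2 * (cm / (2 ^ p * Cm) * (Ub k / (4 ^ k * m k))) := by ring
      _ ≤ cS ^ n1 * cQ ^ n2 * c2 * (Ub κ / (4 ^ κ * m κ)) := by gcongr
      _ = cS ^ n1 * (cQ ^ n2 * (c2 * (Ub κ / (4 ^ κ * m κ)))) := by ring
  · rintro Z ⟨g1, g2, g3⟩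
    refine ⟨g1, g2, fun i hi => ?_⟩
    have g4 := g3 i hi
    rw [hD] at g4
    rw [abs_le] at g4 h4 ⊢
    constructor <;> nlinarith

end JNT

end HexObs
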