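import Pool.Agent.JNT.LowStep
import Pool.Agent.JNT.LowDefs2
import Pool.Agent.JNT.Long
import Pool.Agent.HexSPR.Final

/-!
JNT, lower side in narrow tubes, n1: the first cut at or above s is long, with all vertices in a box, to the right.

The long bridges of the heights 2 ^ q .. 2 ^ (q + 1) ≤ s (row L) that stay in a box (Lat0); the first of them in a word
(Fst), then the first cut at or above the rest of s, in a box and with few letters (tube_mass).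
-/

set_option autoImplicit false

namespace HexObs

namespace JNT

open Finset TS SDN NTW NTA PtC RP

open scoped ENNReal

namespace NaS

/-- long bridges of one scale in a box -/
def LW (q : ℕ) (D a b : ℝ) : Set (List Bool) := {Z | (∃ h, 2 ^ q ≤ h ∧ h < 2 ^ (q + 1) ∧ Z ∈ Brd h) ∧
  (∀ i, i ≤ Z.length → |(lat Z i : ℝ)| ≤ D) ∧ a ≤ (Z.length : ℝ) ∧ (Z.length : ℝ) ≤ b}

lemma long_tube {m : ℕ → ℝ} (hL : LongB m) : ∃ (y A c K : ℝ) (k0 : ℕ), 0 < y ∧ y ≤ A ∧ 0 < c ∧ 1 ≤ K ∧ ∀ q : ℕ, k0 ≤ q →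
    ENNReal.ofReal (c * Ub q) ≤ gf (LW q (K * 2 ^ q) (y * m q) (A * m q)) := by
  obtain ⟨y, A, c, k0, hy, hyA, hc, h⟩ := hL
  obtain ⟨M, hM⟩ := Ex.lat0 (c / 4) (by positivity)
  refine ⟨y, A, c / 2, 2 * M + 1, k0, hy, hyA, by positivity, by
    linarith [(Nat.cast_nonneg M : (0 : ℝ) ≤ M)], fun q hq => ?_⟩
  have hU := Ub_pos q
  have h1 := h q hq
  obtain ⟨f, hf⟩ : ∃ f : ℕ → Set (List Bool), f = fun h : ℕ => {Z | Z ∈ Brd h ∧ (∀ i, i ≤ Z.length →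
    |(lat Z i : ℝ)| ≤ (2 * M + 1) * 2 ^ q) ∧ y * m q ≤ (Z.length : ℝ) ∧ (Z.length : ℝ) ≤ A * m q} := ⟨_, rfl⟩
  have h2 : ∑ h ∈ Ico (2 ^ q) (2 ^ (q + 1)), gf {Z | Z ∈ Brd h ∧ |latE Z| ≤ (h : ℤ) ∧ y * m q ≤ (Z.length : ℝ) ∧
      (Z.length : ℝ) ≤ A * m q} ≤ ∑ h ∈ Ico (2 ^ q) (2 ^ (q + 1)), gf (f h) +
        ∑ h ∈ Ico (2 ^ q) (2 ^ (q + 1)), ENNReal.ofReal (c / 4 * uu h) := by
    rw [← Finset.sum_add_distrib]
    refine Finset.sum_le_sum fun h hh => ?_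
    rw [Finset.mem_Ico] at hh
    have hh1 : 1 ≤ h := le_trans Nat.one_le_two_pow hh.1
    refine (gf_mono ?_).trans ((gf_union_le (f h) {t | t ∈ Brd h ∧ ∃ i, i ≤ t.length ∧ (M * h : ℤ) < |lat t i|}).trans
      (add_le_add le_rfl (hM h hh1)))
    rintro Z ⟨g1, -, g2, g3⟩
    by_cases g4 : ∃ i, i ≤ Z.length ∧ (M * h : ℤ) < |lat Z i|
    · exact Or.inr ⟨g1, g4⟩
    · left
      push Not at g4
      rw [hf]
      refine ⟨g1, fun i hi => ?_, g2, g3⟩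
      have g5 : ((|lat Z i| : ℤ) : ℝ) ≤ ((M * h : ℤ) : ℝ) := by exact_mod_cast g4 i hi
      push_cast at g5
      have g6 : (h : ℝ) ≤ 2 * 2 ^ q := by
        have : (h : ℝ) < ((2 ^ (q + 1) : ℕ) : ℝ) := by exact_mod_cast hh.2
        rw [pow_succ] at this
        push_cast at this
        linarith
      have g7 : (M : ℝ) * h ≤ M * (2 * 2 ^ q) := mul_le_mul_of_nonneg_left g6 (Nat.cast_nonneg M)
      have g8 : (0 : ℝ) < 2 ^ q := by positivity
      linarith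
  have h3 : ∑ h ∈ Ico (2 ^ q) (2 ^ (q + 1)), ENNReal.ofReal (c / 4 * uu h) ≤ ENNReal.ofReal (c / 2 * Ub q) := by
    rw [← ENNReal.ofReal_sum_of_nonneg (fun i _ => by
      have := uu_pos i
      positivity), ← Finset.mul_sum]
    refine ENNReal.ofReal_le_ofReal ?_
    have g1 : ∑ h ∈ Ico (2 ^ q) (2 ^ (q + 1)), uu h ≤ UU (2 ^ (q + 1)) := by
      unfold UU
      refine Finset.sum_le_sum_of_subset_of_nonneg (fun h hh => ?_) fun i _ _ => (uu_pos i).le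
      rw [Finset.mem_Ico] at hh
      rw [Finset.mem_range]
      omega
    have g2 := Ub_succ q
    have g3 : UU (2 ^ (q + 1)) = Ub (q + 1) := rfl
    rw [g3] at g1
    have g4 : ∑ h ∈ Ico (2 ^ q) (2 ^ (q + 1)), uu h ≤ 2 * Ub q := g1.trans g2
    calc c / 4 * ∑ h ∈ Ico (2 ^ q) (2 ^ (q + 1)), uu h ≤ c / 4 * (2 * Ub q) :=
          mul_le_mul_of_nonneg_left g4 (by positivity)
      _ = c / 2 * Ub q := by ring
  have h4 := h1.trans (h2.trans (add_le_add le_rfl h3))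
  have e1 : c * Ub q = c / 2 * Ub q + c / 2 * Ub q := by ring
  rw [e1, ENNReal.ofReal_add (by positivity) (by positivity)] at h4
  refine ((ENNReal.add_le_add_iff_right ENNReal.ofReal_ne_top).1 h4).trans ?_
  refine sum_gf_le _ f ?_ ?_
  · intro i j hij
    rw [Set.disjoint_left]
    intro Z hZ hZ'
    rw [hf] at hZ hZ'
    exact hij (Brd_height hZ.1 hZ'.1)
  · intro h hh Z hZ
    rw [Finset.mem_Ico] at hh
    rw [hf] at hZ
    exact ⟨⟨h, hh.1, hh.2, hZ.1⟩, hZ.2.1, hZ.2.2.1, hZ.2.2.2⟩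

lemma FPs_not {s : ℕ} {t : List Bool} (h : t ∈ FPs s) : t.map not ∈ FPs s := by
  obtain ⟨j, h1, h2, h3⟩ := h
  exact ⟨j, Brd_not h1, h2, fun c hc1 hc2 hc => h3 c hc1 hc2 (Cut_not_iff.1 hc)⟩

lemma hgt_not {s : ℕ} {t : List Bool} (h : t ∈ FPs s) : hgt (t.map not) = hgt t := by
  obtain ⟨j, h1, -⟩ := h
  rw [hgt_eq h1, hgt_eq (Brd_not h1)]

end NaS

open NaS

/-- **n1** -/
theorem slowC_of (hZ : ∃ c C : ℝ, 0 < c ∧ 0 < C ∧ ∀ N : ℕ, 1 ≤ N → c * (N : ℝ) ^ (4 / 3 : ℝ) ≤ PW.mZ N ∧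
    PW.mZ N ≤ C * (N : ℝ) ^ (4 / 3 : ℝ)) : SlowC := by
  obtain ⟨cz, Cz, hcz, hCz, hz⟩ := hZ
  obtain ⟨y, A1, c1, K1, k0, hy, hyA, hc1, hK1, h1⟩ := long_tube longB_M
  obtain ⟨c2, A2, s2, hc2, hA2, h2⟩ := tube_mass ⟨Cz, hCz, fun N hN => (hz N hN).2⟩
  have hCW := Num2Aux.CW_pos
  have hA1 : 0 < A1 := by linarith
  have hpk : 0 < 2 ^ (k0 + 2) := Nat.two_pow_pos _
  refine ⟨c1 / 4 * (c2 / (6 + CW)) / 2, y * cz / 4 ^ (4 / 3 : ℝ), A1 * Cz + A2 * 2 ^ (4 / 3 : ℝ), K1 + 6,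
    2 ^ (k0 + 2) + s2 + 20, by positivity, by positivity, by positivity, by linarith, by omega, fun s hs => ?_⟩
  have hs0 : (0 : ℝ) < s := by
    have : 0 < s := by omega
    exact_mod_cast this
  -- the scale
  obtain ⟨q, hq1, hq2, hq3⟩ : ∃ q : ℕ, 2 ^ (q + 1) ≤ s ∧ s < 2 ^ (q + 2) ∧ k0 ≤ q := by
    obtain ⟨p, hp⟩ : ∃ p, p = Nat.log 2 s := ⟨_, rfl⟩
    have g1 : 2 ^ p ≤ s := by
      rw [hp]
      exact Nat.pow_log_le_self 2 (by omega)
    have g2 : s < 2 ^ (p + 1) := by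
      rw [hp]
      exact Nat.lt_pow_succ_log_self (by norm_num) s
    have g3 : k0 + 2 ≤ p := by
      have : 2 ^ (k0 + 2) < 2 ^ (p + 1) := by omega
      have := (Nat.pow_lt_pow_iff_right (by norm_num : 1 < 2)).1 this
      omega
    refine ⟨p - 1, ?_, ?_, by omega⟩
    · rwa [Nat.sub_add_cancel (by omega)]
    · have : p - 1 + 2 = p + 1 := by omega
      rwa [this]
  have hqR1 : 2 * (2 : ℝ) ^ q ≤ s := by
    have : ((2 ^ (q + 1) : ℕ) : ℝ) ≤ s := by exact_mod_cast hq1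
    rw [pow_succ] at this
    push_cast at this
    linarith
  have hqR2 : (s : ℝ) ≤ 4 * (2 : ℝ) ^ q := by
    have : (s : ℝ) < ((2 ^ (q + 2) : ℕ) : ℝ) := by exact_mod_cast hq2
    rw [pow_add] at this
    push_cast at this
    linarith
  have hqp : (0 : ℝ) < 2 ^ q := by positivity
  obtain ⟨mq, hmq⟩ : ∃ mq : ℝ, mq = PW.mZ (2 ^ q) := ⟨_, rfl⟩
  have hz1 := hz (2 ^ q) Nat.one_le_two_pow
  rw [← hmq] at hz1
  push_cast at hz1
  have hm1 : y * cz / 4 ^ (4 / 3 : ℝ) * (s : ℝ) ^ (4 / 3 : ℝ) ≤ y * mq := by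
    have g1 : (s : ℝ) ^ (4 / 3 : ℝ) ≤ 4 ^ (4 / 3 : ℝ) * (2 ^ q : ℝ) ^ (4 / 3 : ℝ) := by
      rw [← Real.mul_rpow (by norm_num) hqp.le]
      exact Real.rpow_le_rpow hs0.le hqR2 (by norm_num)
    calc y * cz / 4 ^ (4 / 3 : ℝ) * (s : ℝ) ^ (4 / 3 : ℝ) ≤ y * cz / 4 ^ (4 / 3 : ℝ) *
          (4 ^ (4 / 3 : ℝ) * (2 ^ q : ℝ) ^ (4 / 3 : ℝ)) := mul_le_mul_of_nonneg_left g1 (by positivity)
      _ = y * (cz * (2 ^ q : ℝ) ^ (4 / 3 : ℝ)) := by
          field_simp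
      _ ≤ y * mq := mul_le_mul_of_nonneg_left hz1.1 hy.le
  have hm2 : A1 * mq ≤ A1 * Cz * (s : ℝ) ^ (4 / 3 : ℝ) := by
    rw [mul_assoc]
    refine mul_le_mul_of_nonneg_left (hz1.2.trans ?_) hA1.le
    refine mul_le_mul_of_nonneg_left ?_ hCz.le
    exact Real.rpow_le_rpow hqp.le (by linarith) (by norm_num)
  -- the long part
  obtain ⟨W1, hW1⟩ : ∃ W1 : Set (List Bool), W1 = LW q (K1 * 2 ^ q) (y * mq) (A1 * mq) := ⟨_, rfl⟩
  have hg1 := h1 q hq3
  rw [← hmq, ← hW1] at hg1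
  have hU : 0 < UU s := Num2Aux.UU_pos s
  have hUs : UU s ≤ 4 * Ub q := by
    have g1 : UU s ≤ UU (2 ^ (q + 2)) := UU_mono hq2.le
    have g2 : UU (2 ^ (q + 2)) = Ub (q + 2) := rfl
    have g3 : Ub (q + 2) ≤ 2 * Ub (q + 1) := Ub_succ (q + 1)
    have g4 := Ub_succ q
    linarith
  have hW1B : ∀ w ∈ W1, ∃ n, n ≤ s ∧ w ∈ Brd n := by
    intro w hw
    rw [hW1] at hw
    obtain ⟨⟨t, -, ht, hw⟩, -⟩ := hw
    exact ⟨t, by omega, hw⟩
  have hW1B' : W1 ⊆ BU := fun w hw => by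
    obtain ⟨n, -, h⟩ := hW1B w hw
    exact ⟨n, h⟩
  have hV1 : ENNReal.ofReal (c1 / 4) ≤ gf (Fst W1) := by
    have e1 : ENNReal.ofReal (c1 / 4) * ENNReal.ofReal (UU s) ≤ gf (Fst W1) * ENNReal.ofReal (UU s) := by
      refine le_trans ?_ (hg1.trans (Fst_mass hW1B))
      rw [← ENNReal.ofReal_mul (by positivity)]
      refine ENNReal.ofReal_le_ofReal ?_
      have := mul_le_mul_of_nonneg_left hUs (show 0 ≤ c1 / 4 by positivity)
      linarith
    exact (ENNReal.mul_le_mul_iff_left (by simpa using hU) ENNReal.ofReal_ne_top).1 e1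
  -- the rest
  have hS : (((2 * s : ℕ) : ℝ)) = 2 * s := by push_cast; ring
  have hg2 := h2 (2 * s) (by omega)
  obtain ⟨W2, hW2⟩ : ∃ W2 : Set (List Bool), W2 = {a | (∃ t ∈ Hs (2 * s), a ∈ Brd t) ∧
    a ∈ {a | ∀ i, i ≤ a.length → |(lat a i : ℝ)| ≤ 2 * ((2 * s : ℕ) : ℝ)} ∧
        (a.length : ℝ) ≤ A2 * ((2 * s : ℕ) : ℝ) ^ (4 / 3 : ℝ)} := ⟨_, rfl⟩
  rw [← hW2] at hg2
  have hU2 : 0 < UU (2 * s) := Num2Aux.UU_pos _
  have hUl := UU_le_mul (T := 2 * s) (by omega)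
  obtain ⟨G, hG⟩ : ∃ G : ℕ → Set (List Bool), G = fun s' => {u | u ∈ FPs s' ∧ hgt u ≤ 2 * s ∧
    (∀ i, i ≤ u.length → |(lat u i : ℝ)| ≤ 4 * s) ∧ (u.length : ℝ) ≤ A2 * (2 * (s : ℝ)) ^ (4 / 3 : ℝ)} := ⟨_, rfl⟩
  have hV2 : ∀ s' : ℕ, s' ≤ s → ENNReal.ofReal (c2 / (6 + CW)) ≤ gf (G s') := by
    intro s' hs'
    have e1 : ENNReal.ofReal (c2 / (6 + CW)) * ENNReal.ofReal (UU (2 * s)) ≤ gf (G s') * ENNReal.ofReal (UU (2 * s)) := by
      refine le_trans ?_ (hg2.trans ?_)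
      · rw [← ENNReal.ofReal_mul (by positivity)]
        refine ENNReal.ofReal_le_ofReal ?_
        calc c2 / (6 + CW) * UU (2 * s) ≤ c2 / (6 + CW) * ((6 + CW) * (((2 * s : ℕ) : ℝ) * uu (2 * s))) :=
              mul_le_mul_of_nonneg_left hUl (by positivity)
          _ = c2 * (((2 * s : ℕ) : ℝ) * uu (2 * s)) := by field_simp
      · refine (gf_le_mul (Q := G s') (R := {X | ∃ n, n ≤ 2 * s ∧ X ∈ Brd n}) ?_).trans
          (mul_le_mul_right (PtC.gf_BU_le _) _)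
        intro w hw
        rw [hW2] at hw
        obtain ⟨⟨t, ht, hw⟩, hw2, hw3⟩ := hw
        rw [mem_Hs] at ht
        obtain ⟨j, a, u, g1, g2, g3, g4, g5⟩ := FC_dec (s := s') (by omega) hw
        refine ⟨a, ?_, u, ⟨t - j, by omega, g4⟩, g5⟩
        rw [hG]
        refine ⟨⟨j, g3⟩, ?_, fun i hi => ?_, ?_⟩
        · rw [hgt_eq g3.1]
          omega
        · have g6 := hw2 i (by rw [g5, List.length_append]; omega)
          rw [g5, lat_append (by omega), hS] at g6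
          linarith
        · rw [hS, g5, List.length_append] at hw3
          refine le_trans ?_ hw3
          push_cast
          have : (0 : ℝ) ≤ u.length := Nat.cast_nonneg _
          linarith
    exact (ENNReal.mul_le_mul_iff_left (by simpa using hU2) ENNReal.ofReal_ne_top).1 e1
  -- both together
  obtain ⟨T, hT⟩ : ∃ T : Set (List Bool), T = {a | a ∈ FPs s ∧ (hgt a : ℝ) ≤ (K1 + 6) * s ∧
    (∀ i, i ≤ a.length → |(lat a i : ℝ)| ≤ (K1 + 6) * s) ∧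
    y * cz / 4 ^ (4 / 3 : ℝ) * (s : ℝ) ^ (4 / 3 : ℝ) ≤ (a.length : ℝ) ∧
    (a.length : ℝ) ≤ (A1 * Cz + A2 * 2 ^ (4 / 3 : ℝ)) * (s : ℝ) ^ (4 / 3 : ℝ)} := ⟨_, rfl⟩
  have hmain : gf (Fst W1) * ENNReal.ofReal (c2 / (6 + CW)) ≤ gf T := by
    refine dep_le (fun a => G (s - hgt a)) ?_ ?_ ?_
    · intro a ha u hu
      have ha1 := ha.1
      rw [hW1] at ha1
      obtain ⟨⟨t, ht1, ht2, hat⟩, h3, h4, h5⟩ := ha1
      simp only [hG, hgt_eq hat] at hu
      obtain ⟨⟨i, hui⟩, h6, h7, h8⟩ := hu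
      rw [hgt_eq hui.1] at h6
      have h9 := FC_cat hat (by omega) hui
      have hK0 : 0 ≤ K1 := by linarith
      have h10 : (t : ℝ) ≤ s := by
        have : t ≤ s := by omega
        exact_mod_cast this
      have h11 : (i : ℝ) ≤ 2 * s := by exact_mod_cast h6
      have hK2 : K1 * 2 ^ q ≤ K1 * s := mul_le_mul_of_nonneg_left (by linarith) hK0
      rw [hT]
      refine ⟨⟨_, h9⟩, ?_, fun l hl => ?_, ?_, ?_⟩
      · rw [hgt_eq h9.1]
        push_cast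
        nlinarith
      · rcases Nat.lt_or_ge a.length l with g1 | g1
        · obtain ⟨l', rfl⟩ : ∃ l', l = a.length + l' := ⟨l - a.length, by omega⟩
          rw [lat_cat (mem_Brd.1 hat).2.2.1]
          have g2 := h3 a.length le_rfl
          have g3 := h7 l' (by rw [List.length_append] at hl; omega)
          have g4 : (latE a : ℝ) = (lat a a.length : ℝ) := rfl
          push_cast
          rw [g4]
          refine (abs_add_le _ _).trans ?_
          linarith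
        · rw [lat_append (by omega)]
          refine (h3 l g1).trans ?_
          linarith
      · refine hm1.trans (h4.trans ?_)
        rw [List.length_append]
        push_cast
        have : (0 : ℝ) ≤ u.length := Nat.cast_nonneg _
        linarith
      · rw [List.length_append]
        push_cast
        rw [Real.mul_rpow (by norm_num) hs0.le] at h8
        have g1 := h5.trans hm2
        calc (a.length : ℝ) + u.length ≤ A1 * Cz * (s : ℝ) ^ (4 / 3 : ℝ) + A2 * (2 ^ (4 / 3 : ℝ) * (s : ℝ) ^ (4 / 3 : ℝ)) :=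
              add_le_add g1 h8
          _ = _ := by ring
    · intro a ha u hu a' ha' u' hu' e
      rw [hG] at hu hu'
      obtain ⟨⟨i, h3⟩, -⟩ := hu
      obtain ⟨⟨i', h3'⟩, -⟩ := hu'
      exact Fst_unique hW1B' ha ha' ⟨i, h3.1⟩ ⟨i', h3'.1⟩ e
    · intro a ha
      exact hV2 _ (Nat.sub_le _ _)
  -- the sign
  obtain ⟨T', hT'⟩ : ∃ T' : Set (List Bool), T' = {a | a ∈ FPs s ∧ (hgt a : ℝ) ≤ (K1 + 6) * s ∧ 0 ≤ latE a ∧
    (∀ i, i ≤ a.length → |(lat a i : ℝ)| ≤ (K1 + 6) * s) ∧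
    y * cz / 4 ^ (4 / 3 : ℝ) * (s : ℝ) ^ (4 / 3 : ℝ) ≤ (a.length : ℝ) ∧
    (a.length : ℝ) ≤ (A1 * Cz + A2 * 2 ^ (4 / 3 : ℝ)) * (s : ℝ) ^ (4 / 3 : ℝ)} := ⟨_, rfl⟩
  rw [← hT']
  have hsym : gf {a | a ∈ FPs s ∧ a.map not ∈ T'} = gf T' := by
    have e1 := Wall.gf_invol (F := FPs s) (List.map not) map_not_not wE_not (fun _ h => FPs_not h) (fun a => a ∈ T')
    rw [e1]
    congr 1
    ext a
    constructor
    · exact fun h => h.2
    · intro h
      refine ⟨?_, h⟩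
      rw [hT'] at h
      exact h.1
  have hTT : gf T ≤ gf T' + gf T' := by
    have e1 : T ⊆ T' ∪ {a | a ∈ FPs s ∧ a.map not ∈ T'} := by
      intro a ha
      rw [hT] at ha
      obtain ⟨g1, g2, g3, g4, g5⟩ := ha
      rcases le_total 0 (latE a) with g6 | g6
      · left
        rw [hT']
        exact ⟨g1, g2, g6, g3, g4, g5⟩
      · right
        rw [hT']
        refine ⟨g1, FPs_not g1, ?_, ?_, fun i hi => ?_, ?_, ?_⟩
        · rw [hgt_not g1]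
          exact g2
        · rw [latE_not]
          omega
        · rw [List.length_map] at hi
          rw [lat_not a (by omega)]
          push_cast
          rw [abs_neg]
          exact g3 i hi
        · rw [List.length_map]
          exact g4
        · rw [List.length_map]
          exact g5
    exact (gf_mono e1).trans ((gf_union_le _ _).trans (by rw [hsym]))
  have hfin : ENNReal.ofReal (c1 / 4 * (c2 / (6 + CW))) ≤ gf T' + gf T' := by
    refine le_trans ?_ (hmain.trans hTT)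
    rw [ENNReal.ofReal_mul (by positivity)]
    exact mul_le_mul_left hV1 _
  by_contra hc
  push Not at hc
  have h6 : gf T' + gf T' < ENNReal.ofReal (c1 / 4 * (c2 / (6 + CW)) / 2) + ENNReal.ofReal (c1 / 4 * (c2 / (6 + CW)) / 2) :=
    ENNReal.add_lt_add hc hc
  rw [← ENNReal.ofReal_add (by positivity) (by positivity), add_halves] at h6
  exact absurd (hfin.trans_lt h6) (lt_irrefl _)

end JNT

end HexObs
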