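import Pool.Agent.JNT.ExTall
import Pool.Agent.JNT.Asm
import Pool.Agent.JNT.EndM
import Pool.Agent.JNT.JoBM

/-!
JNT: the mass of the bridges of one scale with a given label (number of letters and displacement) is at most
C Ub k / w k.
-/

set_option autoImplicit false

namespace HexObs

namespace JNT

open Finset TS SDN NTW NTA EN

open scoped ENNReal

variable {Λ : Type} {lab : List Bool → Λ}

lemma her_one (D : ℕ) : HerD D (fun _ => 1) := ⟨fun _ _ _ => le_rfl, fun _ _ _ _ => le_rfl⟩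

/-- a class of small labelled norm, one leaf with a given label -/
theorem gf_lab {kc : ℕ} {S : Set (List Bool)} {δ : ℝ} (h : SmDL lab DmJ kc S δ) (a : Λ) :
    gf {Z | Z ∈ S ∧ lab Z = a} ≤ ENNReal.ofReal (δ * Ub kc) * 4 := by
  classical
  have h1 : DmJ kc 2 (fun _ => 1) := (DmJ_dm kc (fun _ => 1) (her_one _)).mono (by
    have := NTW.xT_const (2 ^ (kc + 4)) kc 1
    rwa [mul_one] at this)
  have e1 : (fun _ : List Bool => ∑' _ : Unit, (1 : ℝ≥0∞)) = fun _ => 1 := by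
    funext t
    simp
  have h2 := h.free (ι := Unit) (ι' := Unit) 2 2 (fun _ _ => 1) (fun _ _ => 1) (fun _ _ g => lab g = a)
    (fun _ _ g g' h1 h2 _ => h1.trans h2.symm) (fun _ => her_one _) (fun _ _ _ _ _ _ => le_rfl) (fun _ => her_one _)
    (e1 ▸ h1) (e1 ▸ h1)
  rw [show (2 : ℝ≥0∞) * 2 = 4 by norm_num] at h2
  refine le_trans ?_ h2
  rw [← Rec8.sw_one, Rec8.sw_ind, Rec8.sw_ind]
  refine ENNReal.tsum_le_tsum fun g => ?_
  by_cases hg : g ∈ {Z | Z ∈ S ∧ lab Z = a}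
  · rw [if_pos hg, if_pos hg.1]
    refine mul_le_mul_right ?_ _
    unfold one
    simp [hg.2]
  · rw [if_neg hg]
    exact zero_le

/-- **the bridges of one scale with a given label** -/
theorem single_lab (hLU : LabU lab) {w : ℕ → ℝ} (hw : ∀ k, 0 < w k) (hup : MUp w) (hGB : GoodBadL lab w) :
    ∃ C : ℝ, 1 ≤ C ∧ ∀ (k : ℕ) (a : Λ), gf {Z | Z ∈ BrR (2 ^ k) (2 ^ (k + 1)) ∧ lab Z = a} ≤
      ENNReal.ofReal (C * Ub k / w k) := by
  obtain ⟨E, hE1, hE⟩ := ex_allL hLU hw hup hGB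
  obtain ⟨Cm, hCm, hmu⟩ := hup
  obtain ⟨M0, hM0, hM⟩ : ∃ M0 : ℝ, 0 ≤ M0 ∧ ∀ k < 7, w k ≤ M0 := by
    refine ⟨∑ k ∈ range 7, w k, Finset.sum_nonneg fun k _ => (hw k).le, fun k hk => ?_⟩
    exact Finset.single_le_sum (f := w) (fun i _ => (hw i).le) (Finset.mem_range.2 hk)
  obtain ⟨C, hC⟩ : ∃ C : ℝ, C = 1 + 2 * M0 + 4 * (E * Cm ^ 7) := ⟨_, rfl⟩
  have hp : 0 ≤ E * Cm ^ 7 := by positivity
  refine ⟨C, by linarith, fun k a => ?_⟩
  have hU := Ub_pos k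
  have hwk := hw k
  rcases Nat.lt_or_ge k 7 with h7 | h7
  · have h1 : gf {Z | Z ∈ BrR (2 ^ k) (2 ^ (k + 1)) ∧ lab Z = a} ≤ ENNReal.ofReal (UU (2 ^ (k + 1))) := by
      refine (gf_mono ?_).trans (gf_BU_le (2 ^ (k + 1)))
      rintro Z ⟨⟨h, -, h2, h3⟩, -⟩
      exact ⟨h, h2, h3⟩
    refine h1.trans (ENNReal.ofReal_le_ofReal ?_)
    have h2 : UU (2 ^ (k + 1)) ≤ 2 * Ub k := by
      have := UU_ratio_up k 1
      rwa [pow_one] at this
    rw [le_div_iff₀ hwk]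
    calc UU (2 ^ (k + 1)) * w k ≤ 2 * Ub k * M0 := mul_le_mul h2 (hM k h7) hwk.le (by positivity)
      _ = 2 * M0 * Ub k := by ring
      _ ≤ C * Ub k := mul_le_mul_of_nonneg_right (by rw [hC]; linarith) hU.le
  · obtain ⟨j, rfl⟩ : ∃ j, k = j + 7 := ⟨k - 7, by omega⟩
    have h1 := gf_lab (hE j) a
    have h2 : w (j + 7) ≤ Cm ^ 7 * w j := mup_pow hCm hmu j 7
    have hUj := Ub_pos j
    have h3 : Ub j ≤ Ub (j + 7) := UU_mono (Nat.pow_le_pow_right (by norm_num) (by omega))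
    refine h1.trans ?_
    rw [show (4 : ℝ≥0∞) = ENNReal.ofReal 4 by simp, ← ENNReal.ofReal_mul (by have := hw j; positivity)]
    apply ENNReal.ofReal_le_ofReal
    rw [div_mul_eq_mul_div, div_mul_eq_mul_div, div_le_div_iff₀ (hw j) hwk]
    calc E * Ub j * 4 * w (j + 7) ≤ E * Ub (j + 7) * 4 * (Cm ^ 7 * w j) := by
          have := hw j
          gcongr
      _ = 4 * (E * Cm ^ 7) * Ub (j + 7) * w j := by ring
      _ ≤ C * Ub (j + 7) * w j := by
          apply mul_le_mul_of_nonneg_right _ (hw j).le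
          exact mul_le_mul_of_nonneg_right (by rw [hC]; linarith) hU.le

theorem goodBadL_Z : GoodBadL labN (w4 mM) := gbl_of labM_N (w4_pos mlow_M) (w4_up mup_M) (joG_N joB_M)

/-- **the bridges of one scale with a given number of letters and a given displacement** -/
theorem single_Z : ∃ C : ℝ, 1 ≤ C ∧ ∀ (k : ℕ) (a : ℕ × Pt), gf {Z | Z ∈ BrR (2 ^ k) (2 ^ (k + 1)) ∧ labN Z = a} ≤
    ENNReal.ofReal (C * Ub k / (mM k * 4 ^ k)) := single_lab labU_N (w4_pos mlow_M) (w4_up mup_M) goodBadL_Z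

/-- one tall leaf without backtracks with a given number of letters and a given displacement -/
theorem ex_tall_Z : ∃ (C : ℝ) (s0 : ℕ), 1 ≤ C ∧ 7 ≤ s0 ∧ ∀ s : ℕ, s0 ≤ s → ∀ kc n : ℕ, 1 ≤ n →
    SmDL labN DmJ kc (CK (kc + 5) (kc + s) n) (C / (w4 mM kc * 4 ^ n)) :=
  ex_tall labU_N (w4_pos mlow_M) (w4_up mup_M) goodBadL_Z

/-- one leaf of the block kc + 7 with a given number of letters and a given displacement -/
theorem ex_all_Z : ∃ C : ℝ, 1 ≤ C ∧ ∀ kc : ℕ, SmDL labN DmJ kc (EN.Bk kc) (C / w4 mM kc) :=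
  ex_allL labU_N (w4_pos mlow_M) (w4_up mup_M) goodBadL_Z

end JNT

end HexObs
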