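import Pool.Agent.JNT.LowM
import Pool.Agent.JNT.NarBase
import Pool.Agent.JNT.NarSlow
import Pool.Agent.JNT.NarChain
import Pool.Agent.JNT.SingleB

/-!
JNT, lower side in narrow tubes, no hypothesis: slowC_M, lowWide_M, lowNar_M.
-/

set_option autoImplicit false

namespace HexObs

namespace JNT

open Finset TS SDN NTW NTA PtC RP

open scoped ENNReal

/-- one slow step, no hypothesis -/
theorem slowC_M : SlowC := slowC_of (VF.mZ_two VF.sharpZ)

/-- one bridge with a given displacement and a given number of letters, no hypothesis -/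
theorem singleB_M : NaB.SingleB (fun k => PW.mZ (2 ^ k)) := by
  obtain ⟨C, hC, h⟩ := single_Z
  refine ⟨C, by linarith, fun k z l => ?_⟩
  refine (gf_mono ?_).trans ((h k (l, z)).trans (ENNReal.ofReal_le_ofReal (le_of_eq ?_)))
  · rintro Z ⟨h1, h2, h3⟩
    exact ⟨h1, Prod.ext h3 h2⟩
  · show C * Ub k / (PW.mZ (2 ^ k) * 4 ^ k) = C * (Ub k / (4 ^ k * PW.mZ (2 ^ k)))
    rw [mul_comm (PW.mZ (2 ^ k)), mul_div_assoc]

/-- **the joint local lower bound in a wide tube**, no hypothesis -/
theorem lowWide_M : LowWide (fun k => PW.mZ (2 ^ k)) := lowWide_of mlow_M mup_M joB_M lowJ_M singleB_M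

/-- **the joint local lower bound in a narrow tube**, no hypothesis -/
theorem lowNar_M : LowNar (fun k => PW.mZ (2 ^ k)) :=
  lowNar_of slowC_M (stepT_of zUp_M) lowWide_M (VF.mLow VF.sharpZ) (VF.mUp VF.sharpZ)

end JNT

end HexObs
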