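import Pool.Agent.JNT.LocDefs
import Pool.Agent.JNT.Marks

/-!
JNT: the pointwise tail, the words with many leaves in a direction of large range.
-/

set_option autoImplicit false

namespace HexObs

namespace JNT

open Finset TS SDN NTW NTA EN

open scoped ENNReal

variable {Λ : Type} {lab : List Bool → Λ}

/-- the runs of J leaves, one of them tall and short -/
lemma smRL_RJ {m : ℕ → ℝ} {J0 k0 : ℕ} {C : ℝ} (hG : ∀ k, k0 ≤ k → ∀ mu : ℕ,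
    GBL lab DmJ k (BrR (2 ^ (k + 4)) (2 ^ (k + mu + 2))) J0 (C ^ (mu + 1) / m k)) {K : ℝ} (hK : 1 ≤ K)
    (hbox : ∀ kc mu : ℕ, SmD DmJ kc (BrR (2 ^ (kc + 4)) (2 ^ (kc + mu + 2))) (K * 2 ^ mu)) {s mu n H : ℕ} {ε : ℝ}
    (hs : k0 ≤ s) (hε : 0 ≤ ε)
    (hS : SmD DmJ s {g | g ∈ BrR (2 ^ (s + 4)) (2 ^ (s + mu + 2)) ∧ 2 ^ H ≤ hgt g ∧ g.length ≤ n} ε) :
    SmRL lab DmJ s (RJ s (2 ^ (s + mu + 2)) (J0 + 2)) ((4 * (K * 2 ^ mu)) ^ (J0 + 2) * (C ^ (mu + 1) / m s)) ∧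
    SmRL lab DmJ s {ms | ms ∈ RJ s (2 ^ (s + mu + 2)) (J0 + 2) ∧ ∃ g ∈ ms, 2 ^ H ≤ hgt g ∧ g.length ≤ n}
      ((4 * (K * 2 ^ mu)) ^ (J0 + 2) * (C ^ (mu + 1) / m s) * ε) := by
  classical
  have hq : 1 ≤ K * 2 ^ mu := one_le_mul_of_one_le_of_one_le hK (one_le_pow₀ (by norm_num))
  have h0 := smRL_marks dmP inH_box hε hq (hG s hs mu) (hbox s mu) hS (J0 + 2) 0
  have h1 := smRL_marks dmP inH_box hε hq (hG s hs mu) (hbox s mu) hS (J0 + 2) 1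
  constructor
  · rw [pow_zero, one_mul] at h0
    refine h0.anti ?_
    rintro gs ⟨h2, h3⟩
    exact ⟨h2, by omega, h3, Nat.zero_le _⟩
  · refine SmRL.le (h1.anti ?_) (le_of_eq ?_)
    · rintro gs ⟨⟨h2, h3⟩, g, hg, h4, h5⟩
      refine ⟨h2, by omega, h3, ?_⟩
      exact List.length_pos_of_mem (a := g) (List.mem_filter.2 ⟨hg,
        @decide_eq_true _ (Classical.propDecidable _) ⟨h3 g hg, h4, h5⟩⟩)
    · rw [pow_one]
      ring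

/-- **the words with many leaves in a direction of large range** -/
theorem many_L {m w : ℕ → ℝ} {J0 : ℕ} (hw0 : ∀ k, 0 < w k) (hd : MUp w) (hA : ASm m) (hG : GBmL lab w J0) (hE : ExsL lab) :
    ∃ J : ℕ, 1 ≤ J ∧
    ∀ J2 : ℕ, 6 ≤ J2 → ∀ Q : ℕ, ∃ (A : ℝ) (D : ℕ), 1 ≤ A ∧ ∀ (a : Λ) (d : Fin 3) (k i n : ℕ), D * (i + 1) ≤ k →
    (n : ℝ) < m (k + 1) →
    gf {t | lab t = a ∧ t.length = n ∧ t ∈ WL (k + i) ∧ HR d (k - (8 * i + J2)) (RJ (k - (8 * i + J2)) (2 ^ (k + i + 3)) J) t ∧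
      ∃ x y, x ≤ n ∧ y ≤ n ∧ (2 : ℤ) ^ (k + i) ≤ 2 * (lv3 d (vx oo up t x) - lv3 d (vx oo up t y))} ≤
      ENNReal.ofReal (A * (1 / 2) ^ (Q * i) * (Ub k / w k)) * Xb k ^ 2 := by
  obtain ⟨C2, k0, hC2, hG'⟩ := hG
  have hG : ∀ k, k0 ≤ k → ∀ mu : ℕ, GBL lab DmJ k (BrR (2 ^ (k + 4)) (2 ^ (k + mu + 2))) J0 (C2 ^ (mu + 1) / w k) :=
    fun k hk mu => hG' k mu hk
  obtain ⟨Ce, ke, hCe, hexs⟩ := hE
  obtain ⟨K, hK, hbox⟩ := smD_box
  obtain ⟨Cm, hCm, hmu⟩ := hd.pow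
  obtain ⟨Dx, hDx, hDX⟩ := Xb_pow
  obtain ⟨cH, hcH⟩ : ∃ cH : ℕ, 12 * (J0 + 2 + 3) ≤ 2 ^ cH := ⟨12 * (J0 + 2 + 3), Nat.lt_two_pow_self.le⟩
  refine ⟨J0 + 2, by omega, fun J2 hJ2 Q => ?_⟩
  obtain ⟨c5, B, hB, hS⟩ := smD_S hA cH J2
  have hCe0 : 0 < Ce := by linarith
  have hC20 : 0 < C2 := by linarith
  have hCm0 : 0 < Cm := by linarith
  have hK0 : 0 < K := by linarith
  have hB0 : 0 < B := by linarith
  have hDx0 : 0 < Dx := by linarith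
  obtain ⟨W, hW⟩ : ∃ W : ℝ, W = Ce ^ 9 * (2 ^ (J0 + 2)) ^ 9 * C2 ^ 9 * Cm ^ 8 * B * 2 * Dx ^ 2 := ⟨_, rfl⟩
  have hW0 : 0 < W := by
    rw [hW]
    positivity
  obtain ⟨qW, hqW⟩ := two_pow_ge W
  obtain ⟨A, D, hA1, hSQ⟩ := hS (Q + qW)
  have hA0 : 0 < A := by linarith
  obtain ⟨F, hF⟩ : ∃ F : ℝ, F = Ce ^ J2 * 2 * (4 * K) ^ (J0 + 2) * (2 ^ (J0 + 2)) ^ (J2 + 1) * C2 ^ (J2 + 2) * Cm ^ J2 * A :=
    ⟨_, rfl⟩
  have hF1 : 1 ≤ F := by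
    rw [hF]
    have a1 : 1 ≤ Ce ^ J2 := one_le_pow₀ hCe
    have a2 : (1 : ℝ) ≤ 2 := by norm_num
    have a3 : 1 ≤ (4 * K) ^ (J0 + 2) := one_le_pow₀ (by linarith)
    have a4 : (1 : ℝ) ≤ (2 ^ (J0 + 2)) ^ (J2 + 1) := one_le_pow₀ (one_le_pow₀ (by norm_num))
    have a5 : 1 ≤ C2 ^ (J2 + 2) := one_le_pow₀ hC2
    have a6 : 1 ≤ Cm ^ J2 := one_le_pow₀ hCm
    exact one_le_mul_of_one_le_of_one_le (one_le_mul_of_one_le_of_one_le (one_le_mul_of_one_le_of_one_le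
      (one_le_mul_of_one_le_of_one_le (one_le_mul_of_one_le_of_one_le (one_le_mul_of_one_le_of_one_le a1 a2) a3) a4)
      a5) a6) hA1
  have hF0 : 0 < F := by linarith
  refine ⟨F * 2 ^ ((Q + qW) * c5), D + 8 + J2 + cH + k0 + ke, one_le_mul_of_one_le_of_one_le hF1
    (one_le_pow₀ (by norm_num)), fun a d k i n hk hn => ?_⟩
  have hkD : (D + 8 + J2 + cH + k0 + ke) * (i + 1) =
      D * (i + 1) + 8 * i + 8 + J2 * (i + 1) + cH * (i + 1) + k0 * (i + 1) + ke * (i + 1) := by ring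
  have b1 : J2 ≤ J2 * (i + 1) := Nat.le_mul_of_pos_right _ (by omega)
  have b2 : cH ≤ cH * (i + 1) := Nat.le_mul_of_pos_right _ (by omega)
  have b3 : k0 ≤ k0 * (i + 1) := Nat.le_mul_of_pos_right _ (by omega)
  have b4 : ke ≤ ke * (i + 1) := Nat.le_mul_of_pos_right _ (by omega)
  rw [hkD] at hk
  obtain ⟨s, hs⟩ : ∃ s, s = k - (8 * i + J2) := ⟨_, rfl⟩
  rw [← hs]
  obtain ⟨mu, hmu1⟩ : ∃ mu, mu = 9 * i + (J2 + 1) := ⟨_, rfl⟩
  have hsm : s + mu + 2 = k + i + 3 := by omega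
  have hms := hw0 s
  have hmk := hw0 k
  have hU := Ub_pos k
  obtain ⟨ε, hε⟩ : ∃ ε : ℝ, ε = A * B ^ i * (1 / 2) ^ ((Q + qW) * (i - c5)) := ⟨_, rfl⟩
  have hε0 : 0 < ε := by
    rw [hε]
    positivity
  have hSk : ∀ k1, s ≤ k1 → k1 ≤ k + i + 8 →
      SmD DmJ k1 {g | g ∈ BrR (2 ^ (k1 + 4)) (2 ^ (k + i + 10)) ∧ 2 ^ (k + i - cH) ≤ hgt g ∧ g.length ≤ n} ε := by
    intro k1 h1 h2
    rw [hε]
    exact hSQ k i n k1 (by omega) hn (by omega) h2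
  obtain ⟨δ, hδ⟩ : ∃ δ : ℝ, δ = (4 * (K * 2 ^ mu)) ^ (J0 + 2) * (C2 ^ (mu + 1) / w s) := ⟨_, rfl⟩
  have hδ0 : 0 < δ := by
    rw [hδ]
    positivity
  obtain ⟨h1, h2⟩ := smRL_RJ hG hK hbox (s := s) (mu := mu) (n := n) (H := k + i - cH) (ε := ε) (by omega) hε0.le (by
    refine smD_anti ?_ (hSk s le_rfl (by omega))
    rintro g ⟨g1, g2⟩
    exact ⟨brR_mono (Nat.pow_le_pow_right (by norm_num) (by omega)) g1, g2⟩)
  rw [← hδ, hsm] at h1 h2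
  have h3 := hexs d s (9 * i + J2) n (k + i - cH) (J0 + 2) a (RJ s (2 ^ (k + i + 3)) (J0 + 2)) δ (δ * ε) ε (by omega)
    (by omega) hδ0 (by positivity) hε0 (fun ms hms => le_of_eq hms.1) h1 h2 (by
    intro k1 g1 g2
    have := hSk k1 g1 (by omega)
    rwa [show s + (9 * i + J2) + 10 = k + i + 10 by omega])
  rw [show s + (9 * i + J2) = k + i by omega] at h3
  refine (gf_mono ?_).trans (h3.trans ?_)
  · rintro t ⟨t0, t1, t2, t3, x, y, t4, t5, t6⟩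
    refine ⟨t0, t1.le, t2, t3, x, y, by omega, by omega, ?_⟩
    have e1 : 12 * (((J0 + 2 : ℕ) : ℤ) + 3) * 2 ^ (k + i - cH) ≤ 2 ^ (k + i) := by
      have e2 : (12 : ℤ) * (((J0 + 2 : ℕ) : ℤ) + 3) ≤ 2 ^ cH := by exact_mod_cast hcH
      calc 12 * (((J0 + 2 : ℕ) : ℤ) + 3) * 2 ^ (k + i - cH) ≤ 2 ^ cH * 2 ^ (k + i - cH) := by gcongr
        _ = 2 ^ (k + i) := by
            rw [← pow_add]
            congr 1
            omega
    linarith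
  -- the numbers
  have hUK : Ub (k + i) ≤ 2 ^ i * Ub k := UU_ratio_up k i
  have hms2 : w k ≤ Cm ^ (8 * i + J2) * w s := by
    have := hmu s (8 * i + J2)
    rwa [show s + (8 * i + J2) = k by omega] at this
  have hUK0 := Ub_pos (k + i)
  calc ENNReal.ofReal (Ce ^ (9 * i + J2) * (δ * ε + δ * ε) * Ub (k + i)) * Xb (k + i) ^ 2
      ≤ ENNReal.ofReal (Ce ^ (9 * i + J2) * (δ * ε + δ * ε) * Ub (k + i)) * (ENNReal.ofReal (Dx ^ i) * Xb k) ^ 2 :=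
        mul_le_mul_right (pow_le_pow_left' (hDX k i) 2) _
    _ = ENNReal.ofReal (Ce ^ (9 * i + J2) * (δ * ε + δ * ε) * Ub (k + i) * (Dx ^ i) ^ 2) * Xb k ^ 2 := by
        rw [mul_pow, ← ENNReal.ofReal_pow (by positivity), ← mul_assoc, ← ENNReal.ofReal_mul (by positivity)]
    _ ≤ _ := by
        refine mul_le_mul_left (ENNReal.ofReal_le_ofReal ?_) _
        have e1 : 1 / w s ≤ Cm ^ (8 * i + J2) / w k := by
          rw [div_le_div_iff₀ hms hmk, one_mul]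
          exact hms2
        have e2 : Ce ^ (9 * i + J2) * (δ * ε + δ * ε) * Ub (k + i) * (Dx ^ i) ^ 2 =
            Ce ^ (9 * i + J2) * 2 * (4 * (K * 2 ^ mu)) ^ (J0 + 2) * C2 ^ (mu + 1) * (A * B ^ i) * (Dx ^ i) ^ 2 *
              (1 / w s) * Ub (k + i) * (1 / 2) ^ ((Q + qW) * (i - c5)) := by
          rw [hδ, hε]
          ring
        have e3 : Ce ^ (9 * i + J2) * 2 * (4 * (K * 2 ^ mu)) ^ (J0 + 2) * C2 ^ (mu + 1) * (A * B ^ i) * (Dx ^ i) ^ 2 *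
              (Cm ^ (8 * i + J2) / w k) * (2 ^ i * Ub k) = F * W ^ i * (Ub k / w k) := by
          have f1 : Ce ^ (9 * i + J2) = Ce ^ J2 * (Ce ^ 9) ^ i := by
            rw [pow_add, pow_mul]
            ring
          have f2 : (4 * (K * 2 ^ mu)) ^ (J0 + 2) =
              (4 * K) ^ (J0 + 2) * (2 ^ (J0 + 2)) ^ (J2 + 1) * ((2 ^ (J0 + 2)) ^ 9) ^ i := by
            rw [hmu1, ← mul_assoc, mul_pow (4 * K), mul_assoc, ← pow_mul, ← pow_mul, ← pow_mul, ← pow_mul, ← pow_add]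
            congr 2
            ring
          have f3 : C2 ^ (mu + 1) = C2 ^ (J2 + 2) * (C2 ^ 9) ^ i := by
            rw [hmu1, ← pow_mul, ← pow_add]
            congr 1
            ring
          have f4 : Cm ^ (8 * i + J2) = Cm ^ J2 * (Cm ^ 8) ^ i := by
            rw [pow_add, pow_mul]
            ring
          have f5 : (Dx ^ i) ^ 2 = (Dx ^ 2) ^ i := by
            rw [← pow_mul, ← pow_mul, mul_comm]
          rw [f1, f2, f3, f4, f5, hF, hW, mul_pow, mul_pow, mul_pow, mul_pow, mul_pow, mul_pow]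
          ring
        have e4 : ((1 : ℝ) / 2) ^ ((Q + qW) * (i - c5)) ≤ 2 ^ ((Q + qW) * c5) * (1 / 2) ^ ((Q + qW) * i) := by
          have e5 : ((1 : ℝ) / 2) ^ ((Q + qW) * (i - c5) + (Q + qW) * c5) ≤ (1 / 2) ^ ((Q + qW) * i) := by
            apply pow_le_pow_of_le_one (by norm_num) (by norm_num)
            rw [← mul_add]
            exact Nat.mul_le_mul_left _ (by omega)
          have e6 : ((1 : ℝ) / 2) ^ ((Q + qW) * c5) * 2 ^ ((Q + qW) * c5) = 1 := by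
            rw [← mul_pow]
            norm_num
          rw [pow_add] at e5
          calc ((1 : ℝ) / 2) ^ ((Q + qW) * (i - c5)) =
                2 ^ ((Q + qW) * c5) * ((1 / 2) ^ ((Q + qW) * (i - c5)) * (1 / 2) ^ ((Q + qW) * c5)) := by
                rw [mul_comm (((1 : ℝ) / 2) ^ ((Q + qW) * (i - c5))), ← mul_assoc, mul_comm ((2 : ℝ) ^ _), e6, one_mul]
            _ ≤ _ := by gcongr
        have e7 : W ^ i * (1 / 2) ^ ((Q + qW) * i) ≤ (1 / 2) ^ (Q * i) := by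
          have e8 : W ^ i ≤ (2 ^ qW) ^ i := pow_le_pow_left₀ hW0.le hqW.le i
          have e9 : ((2 : ℝ) ^ qW) ^ i * (1 / 2) ^ ((Q + qW) * i) = (1 / 2) ^ (Q * i) := by
            rw [← pow_mul, add_mul, pow_add, mul_comm ((1 / 2 : ℝ) ^ (Q * i)), ← mul_assoc, ← mul_pow]
            norm_num
          calc W ^ i * (1 / 2) ^ ((Q + qW) * i) ≤ (2 ^ qW) ^ i * (1 / 2) ^ ((Q + qW) * i) := by gcongr
            _ = _ := e9
        rw [e2]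
        calc _ ≤ Ce ^ (9 * i + J2) * 2 * (4 * (K * 2 ^ mu)) ^ (J0 + 2) * C2 ^ (mu + 1) * (A * B ^ i) * (Dx ^ i) ^ 2 *
              (Cm ^ (8 * i + J2) / w k) * (2 ^ i * Ub k) * (1 / 2) ^ ((Q + qW) * (i - c5)) := by gcongr
          _ = F * W ^ i * (Ub k / w k) * (1 / 2) ^ ((Q + qW) * (i - c5)) := by rw [e3]
          _ ≤ F * W ^ i * (Ub k / w k) * (2 ^ ((Q + qW) * c5) * (1 / 2) ^ ((Q + qW) * i)) := by gcongr
          _ = F * 2 ^ ((Q + qW) * c5) * (W ^ i * (1 / 2) ^ ((Q + qW) * i)) * (Ub k / w k) := by ring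
          _ ≤ F * 2 ^ ((Q + qW) * c5) * (1 / 2) ^ (Q * i) * (Ub k / w k) := by gcongr

end JNT

end HexObs
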