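import Pool.Agent.JNT.EspA
import Pool.Agent.JNT.EspB
import Pool.Agent.EN.Esp

/-!
JNT: the walks with n letters and a given label, every n. With the label (number of letters, displacement) and the local
mass factor m k 4^k this is the pointwise bound of the law of the end point.
-/

set_option autoImplicit false

namespace HexObs

namespace JNT

open Finset TS SDN NTW NTA EN

open scoped ENNReal

variable {Λ : Type} {lab : List Bool → Λ}

/-- **the spatial tail at exact n, every shell** -/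
theorem shell_L {m w : ℕ → ℝ} {J0 : ℕ} (hm : MLow m) (hw0 : ∀ k, 0 < w k) (hwm : Monotone w) (hd : MUp w) (hA : ASm m)
    (hG : GBmL lab w J0) (hE : ExsL lab) (hX : EXTL lab m w) (Q : ℕ) :
    ∃ A : ℝ, 1 ≤ A ∧ ∀ (a : Λ) (k i n : ℕ), 1 ≤ i → m k ≤ n → (n : ℝ) < m (k + 1) →
    gf {t | lab t = a ∧ t ∈ WL (k + i) ∧ t ∉ WL (k + i - 1) ∧ t.length = n} ≤
      ENNReal.ofReal (A * (1 / 2) ^ (Q * i)) * (ENNReal.ofReal (Ub k / w k) * Xb k ^ 2) := by
  obtain ⟨J, hJ, hmany⟩ := many_L hw0 hd hA hG hE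
  obtain ⟨J2, hJ2, hfew⟩ := few_L hm hw0 hwm hX hJ
  obtain ⟨A1, D, hA1, h1⟩ := hmany J2 hJ2 Q
  obtain ⟨A2, hA2, h2⟩ := hfew Q
  obtain ⟨Cm, hCm, hmu⟩ := hd.pow
  obtain ⟨qm, hqm⟩ := two_pow_ge Cm
  obtain ⟨D2, hD2⟩ : ∃ D2, D2 = D + 8 + J2 := ⟨_, rfl⟩
  obtain ⟨A3, hA3, h3⟩ := sp_tail hA (Q + qm * D2)
  obtain ⟨C4, hC4, h4⟩ := tot_WL
  obtain ⟨Dx, hDx, hDX⟩ := Xb_pow
  have hm0 := hw0 0
  have hA10 : 0 < A1 := by linarith
  have hA20 : 0 < A2 := by linarith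
  have hA30 : 0 < A3 := by linarith
  have hC40 : 0 < C4 := by linarith
  have hDx0 : 0 < Dx := by linarith
  have hCm0 : 0 < Cm := by linarith
  obtain ⟨A, hAd⟩ : ∃ A : ℝ, A = 9 * A2 + 3 * A1 + A3 * w 0 * 2 ^ (Q + 2 * (qm * D2)) + C4 * 2 * Dx ^ 2 * w 0 * 2 ^ Q := ⟨_, rfl⟩
  have t1 : 0 < A3 * w 0 * 2 ^ (Q + 2 * (qm * D2)) := by positivity
  have t2 : 0 < C4 * 2 * Dx ^ 2 * w 0 * 2 ^ Q := by positivity
  refine ⟨A, by linarith, fun a k i n hi hn1 hn2 => ?_⟩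
  have hmk := hw0 k
  have hU := Ub_pos k
  have hkD : D2 * (i + 1) = D * (i + 1) + 8 * i + 8 + J2 * (i + 1) := by
    rw [hD2]
    ring
  have hJ2i : J2 ≤ J2 * (i + 1) := Nat.le_mul_of_pos_right _ (by omega)
  rcases Nat.lt_or_ge k (D2 * (i + 1)) with hk | hk
  · -- large i
    rcases Nat.eq_zero_or_pos (k + (i - 1)) with h0 | h0
    · have e1 : k = 0 := by omega
      have e2 : i = 1 := by omega
      subst e1 e2
      refine (gf_mono (fun t ht => ht.2.1 : {t | lab t = a ∧ t ∈ WL (0 + 1) ∧ t ∉ WL (0 + 1 - 1) ∧ t.length = n} ⊆ WL (0 + 1))).trans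
        ((h4 (0 + 1)).trans ?_)
      have hU1 : Ub (0 + 1) ≤ 2 * Ub 0 := Ub_succ 0
      have hX1 := hDX 0 1
      rw [pow_one] at hX1
      calc ENNReal.ofReal C4 * (ENNReal.ofReal (Ub (0 + 1)) * Xb (0 + 1) ^ 2)
          ≤ ENNReal.ofReal C4 * (ENNReal.ofReal (2 * Ub 0) * (ENNReal.ofReal Dx * Xb 0) ^ 2) := by
            refine mul_le_mul_right (mul_le_mul' (ENNReal.ofReal_le_ofReal hU1) (pow_le_pow_left' hX1 2)) _
        _ = ENNReal.ofReal (C4 * (2 * Ub 0) * Dx ^ 2) * Xb 0 ^ 2 := by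
            rw [mul_pow, ← ENNReal.ofReal_pow (by positivity), ← mul_assoc, ← mul_assoc, ← ENNReal.ofReal_mul (by positivity),
              ← ENNReal.ofReal_mul (by positivity)]
        _ ≤ ENNReal.ofReal (A * (1 / 2) ^ (Q * 1) * (Ub 0 / w 0)) * Xb 0 ^ 2 := by
            refine mul_le_mul_left (ENNReal.ofReal_le_ofReal ?_) _
            have e5 : ((2 : ℝ)) ^ Q * (1 / 2) ^ Q = 1 := by
              rw [← mul_pow]
              norm_num
            have e6 : C4 * (2 * Ub 0) * Dx ^ 2 = C4 * 2 * Dx ^ 2 * w 0 * 2 ^ Q * (1 / 2) ^ (Q * 1) * (Ub 0 / w 0) := by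
              rw [mul_one, mul_assoc (C4 * 2 * Dx ^ 2 * w 0), e5]
              field_simp
            rw [e6]
            have : C4 * 2 * Dx ^ 2 * w 0 * 2 ^ Q ≤ A := by linarith
            gcongr
        _ = _ := by
            rw [← mul_assoc, ← ENNReal.ofReal_mul (by rw [hAd]; positivity)]
    · have h5 := h3 k (i - 1) n hn2.le (by omega)
      refine (gf_mono ?_).trans (h5.trans ?_)
      · rintro t ⟨-, a1, a2, a3⟩
        refine ⟨⟨a1.1, a3.le⟩, ?_⟩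
        rwa [show k + (i - 1) = k + i - 1 by omega]
      · rw [← mul_assoc, ← ENNReal.ofReal_mul (by rw [hAd]; positivity)]
        refine mul_le_mul_left (ENNReal.ofReal_le_ofReal ?_) _
        have e1 : w k ≤ 2 ^ (qm * (D2 * (i + 1))) * w 0 := by
          have e2 := hmu 0 k
          rw [zero_add] at e2
          refine e2.trans (mul_le_mul_of_nonneg_right ?_ hm0.le)
          calc Cm ^ k ≤ (2 ^ qm) ^ k := pow_le_pow_left₀ hCm0.le hqm.le k
            _ = 2 ^ (qm * k) := (pow_mul _ _ _).symm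
            _ ≤ 2 ^ (qm * (D2 * (i + 1))) := pow_le_pow_right₀ (by norm_num) (Nat.mul_le_mul_left _ hk.le)
        have e3 : ((1 : ℝ) / 2) ^ ((Q + qm * D2) * (i - 1)) * 2 ^ (qm * (D2 * (i + 1))) =
            2 ^ (Q + 2 * (qm * D2)) * (1 / 2) ^ (Q * i) := by
          obtain ⟨r, rfl⟩ := Nat.exists_eq_add_of_le hi
          rw [show 1 + r - 1 = r by omega, one_div, inv_pow, inv_pow, ← div_eq_inv_mul, ← div_eq_mul_inv,
            div_eq_div_iff (by positivity) (by positivity), ← pow_add, ← pow_add]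
          congr 1
          ring
        have e4 : Ub k = w k * (Ub k / w k) := by field_simp
        calc A3 * (1 / 2) ^ ((Q + qm * D2) * (i - 1)) * Ub k =
              A3 * (1 / 2) ^ ((Q + qm * D2) * (i - 1)) * (w k * (Ub k / w k)) := by rw [← e4]
          _ ≤ A3 * (1 / 2) ^ ((Q + qm * D2) * (i - 1)) * (2 ^ (qm * (D2 * (i + 1))) * w 0 * (Ub k / w k)) := by gcongr
          _ = A3 * w 0 * ((1 / 2) ^ ((Q + qm * D2) * (i - 1)) * 2 ^ (qm * (D2 * (i + 1)))) * (Ub k / w k) := by ring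
          _ = A3 * w 0 * 2 ^ (Q + 2 * (qm * D2)) * (1 / 2) ^ (Q * i) * (Ub k / w k) := by
              rw [e3]
              ring
          _ ≤ A * (1 / 2) ^ (Q * i) * (Ub k / w k) := by
              have : A3 * w 0 * 2 ^ (Q + 2 * (qm * D2)) ≤ A := by linarith
              gcongr
  · -- the exact estimates
    obtain ⟨s, hs⟩ : ∃ s, s = k - (8 * i + J2) := ⟨_, rfl⟩
    have hsub : {t | lab t = a ∧ t ∈ WL (k + i) ∧ t ∉ WL (k + i - 1) ∧ t.length = n} ⊆
        (⋃ x : Fin 3 × Fin 3, {t | x.1 ≠ x.2 ∧ lab t = a ∧ t.length = n ∧ t ∈ WL (k + i) ∧ ∀ d, d = x.1 ∨ d = x.2 →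
          ¬ HR d (k - (8 * i + J2)) (RJ (k - (8 * i + J2)) (2 ^ (k + i + 3)) J) t}) ∪
        ⋃ d : Fin 3, {t | lab t = a ∧ t.length = n ∧ t ∈ WL (k + i) ∧
          HR d (k - (8 * i + J2)) (RJ (k - (8 * i + J2)) (2 ^ (k + i + 3)) J) t ∧
          ∃ x y, x ≤ n ∧ y ≤ n ∧ (2 : ℤ) ^ (k + i) ≤ 2 * (lv3 d (vx oo up t x) - lv3 d (vx oo up t y))} := by
      rintro t ⟨hlb, ht, ho, hlen⟩
      obtain ⟨d, d', hdd, r1, r2⟩ := out_range ht.1 ho
      rw [show k + i - 1 + 1 = k + i by omega, hlen] at r1 r2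
      by_cases g1 : HR d (k - (8 * i + J2)) (RJ (k - (8 * i + J2)) (2 ^ (k + i + 3)) J) t
      · exact Or.inr (Set.mem_iUnion.2 ⟨d, hlb, hlen, ht, g1, r1⟩)
      · by_cases g2 : HR d' (k - (8 * i + J2)) (RJ (k - (8 * i + J2)) (2 ^ (k + i + 3)) J) t
        · exact Or.inr (Set.mem_iUnion.2 ⟨d', hlb, hlen, ht, g2, r2⟩)
        · refine Or.inl (Set.mem_iUnion.2 ⟨(d, d'), Ne.symm hdd, hlb, hlen, ht, ?_⟩)
          rintro e (rfl | rfl)
          · exact g1
          · exact g2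
    refine (gf_mono hsub).trans ((gf_union_le _ _).trans ((add_le_add (Crw.gf_iUnion_le _) (Crw.gf_iUnion_le _)).trans ?_))
    rw [tsum_fintype, tsum_fintype]
    have u1 : ∑ x : Fin 3 × Fin 3, gf {t | x.1 ≠ x.2 ∧ lab t = a ∧ t.length = n ∧ t ∈ WL (k + i) ∧ ∀ d, d = x.1 ∨ d = x.2 →
          ¬ HR d (k - (8 * i + J2)) (RJ (k - (8 * i + J2)) (2 ^ (k + i + 3)) J) t} ≤
        9 * (ENNReal.ofReal (A2 * (1 / 2) ^ (Q * i) * (Ub k / w k)) * Xb k ^ 2) := by
      refine (Finset.sum_le_card_nsmul _ _ (ENNReal.ofReal (A2 * (1 / 2) ^ (Q * i) * (Ub k / w k)) * Xb k ^ 2)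
        fun x _ => ?_).trans (le_of_eq ?_)
      · by_cases hx : x.1 ≠ x.2
        · refine (gf_mono ?_).trans (h2 a x.1 x.2 hx k i n (by omega) hn1)
          rintro t ⟨-, h⟩
          exact h
        · refine le_trans (gf_mono ?_) (le_trans (le_of_eq gf_empty) zero_le)
          rintro t ⟨h, -⟩
          exact absurd h hx
      · rw [Finset.card_univ, Fintype.card_prod, Fintype.card_fin, nsmul_eq_mul]
        norm_num
    have u2 : ∑ d : Fin 3, gf {t | lab t = a ∧ t.length = n ∧ t ∈ WL (k + i) ∧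
          HR d (k - (8 * i + J2)) (RJ (k - (8 * i + J2)) (2 ^ (k + i + 3)) J) t ∧
          ∃ x y, x ≤ n ∧ y ≤ n ∧ (2 : ℤ) ^ (k + i) ≤ 2 * (lv3 d (vx oo up t x) - lv3 d (vx oo up t y))} ≤
        3 * (ENNReal.ofReal (A1 * (1 / 2) ^ (Q * i) * (Ub k / w k)) * Xb k ^ 2) := by
      refine (Finset.sum_le_card_nsmul _ _ (ENNReal.ofReal (A1 * (1 / 2) ^ (Q * i) * (Ub k / w k)) * Xb k ^ 2)
        fun d _ => h1 a d k i n (by omega) hn2).trans (le_of_eq ?_)
      rw [Finset.card_univ, Fintype.card_fin, nsmul_eq_mul]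
      norm_num
    refine (add_le_add u1 u2).trans ?_
    rw [← mul_assoc, ← mul_assoc, ← mul_assoc, ← add_mul]
    refine mul_le_mul_left ?_ _
    rw [show (9 : ℝ≥0∞) = ENNReal.ofReal 9 by norm_num, show (3 : ℝ≥0∞) = ENNReal.ofReal 3 by norm_num,
      ← ENNReal.ofReal_mul (by norm_num), ← ENNReal.ofReal_mul (by norm_num), ← ENNReal.ofReal_add (by positivity)
      (by positivity), ← ENNReal.ofReal_mul (by rw [hAd]; positivity)]
    refine ENNReal.ofReal_le_ofReal ?_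
    calc 9 * (A2 * (1 / 2) ^ (Q * i) * (Ub k / w k)) + 3 * (A1 * (1 / 2) ^ (Q * i) * (Ub k / w k)) =
          (9 * A2 + 3 * A1) * (1 / 2) ^ (Q * i) * (Ub k / w k) := by ring
      _ ≤ A * (1 / 2) ^ (Q * i) * (Ub k / w k) := by
          have : 9 * A2 + 3 * A1 ≤ A := by linarith
          gcongr

/-- **the pointwise upper bound** -/
theorem all_L {m w : ℕ → ℝ} {J0 : ℕ} (hm : MLow m) (hw0 : ∀ k, 0 < w k) (hwm : Monotone w) (hd : MUp w) (hA : ASm m)
    (hG : GBmL lab w J0) (hE : ExsL lab) (hX : EXTL lab m w) : ∃ C : ℝ, 0 < C ∧ ∀ (a : Λ) (k n : ℕ), m k ≤ n →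
    (n : ℝ) < m (k + 1) → gf {t | lab t = a ∧ t ∈ SawN n} ≤
      ENNReal.ofReal C * (ENNReal.ofReal (Ub k / w k) * Xb k ^ 2) := by
  obtain ⟨A, hA1, h⟩ := shell_L hm hw0 hwm hd hA hG hE hX 1
  obtain ⟨C, hC, hQ⟩ := hX
  obtain ⟨A0, hA0, h0⟩ := hQ 0
  have hA' : 0 < A := by linarith
  have hA0' : 0 < A0 := by linarith
  refine ⟨A0 + A, by linarith, fun a k n h1 h2 => ?_⟩
  have hmk := hw0 k
  have hsub : {t | lab t = a ∧ t ∈ SawN n} ⊆
      {t | lab t = a ∧ t ∈ WL k ∧ ∃ x z : ℕ, Bx (k + 2) t x z ∧ 1 * m k ≤ (z : ℝ) - x} ∪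
      ⋃ j : ℕ, {t | lab t = a ∧ t ∈ WL (k + (1 + j)) ∧ t ∉ WL (k + (1 + j) - 1) ∧ t.length = n} := by
    rintro t ⟨hlb, ht, hs⟩
    have hex := exists_WL (t := t) hs
    classical
    have h3 := Nat.find_spec hex
    by_cases h4 : t ∈ WL k
    · left
      refine ⟨hlb, h4, 0, t.length, bx_all h4, ?_⟩
      rw [ht, one_mul]
      simpa using h1
    · right
      have h5 : k < Nat.find hex := by
        by_contra hc
        exact h4 (WL_mono (by omega) h3)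
      have h6 : t ∉ WL (Nat.find hex - 1) := Nat.find_min hex (by omega)
      rw [Set.mem_iUnion]
      refine ⟨Nat.find hex - k - 1, hlb, ?_, ?_, ht⟩
      · rw [show k + (1 + (Nat.find hex - k - 1)) = Nat.find hex by omega]
        exact h3
      · rw [show k + (1 + (Nat.find hex - k - 1)) - 1 = Nat.find hex - 1 by omega]
        exact h6
  refine (gf_mono hsub).trans ((gf_union_le _ _).trans ?_)
  rw [ENNReal.ofReal_add hA0'.le hA'.le, add_mul]
  refine add_le_add ?_ ((Crw.gf_iUnion_le _).trans ?_)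
  · refine (h0 a k k 1 le_rfl le_rfl).trans (le_of_eq ?_)
    rw [Nat.sub_self, pow_zero, pow_zero, div_one, mul_one]
  · have h3 : ∀ j : ℕ, gf {t | lab t = a ∧ t ∈ WL (k + (1 + j)) ∧ t ∉ WL (k + (1 + j) - 1) ∧ t.length = n} ≤
        ENNReal.ofReal (A * (1 / 2 / 2 ^ j)) * (ENNReal.ofReal (Ub k / w k) * Xb k ^ 2) := by
      intro j
      refine (h a k (1 + j) n (by omega) h1 h2).trans (mul_le_mul_left (ENNReal.ofReal_le_ofReal (le_of_eq ?_)) _)
      rw [one_mul, pow_add, pow_one, one_div, inv_pow, ← div_eq_mul_inv]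
    refine (ENNReal.tsum_le_tsum h3).trans ?_
    rw [ENNReal.tsum_mul_right]
    refine mul_le_mul_left ?_ _
    rw [← ENNReal.ofReal_tsum_of_nonneg (fun j => by positivity) ((summable_geometric_two' 1).mul_left _)]
    refine ENNReal.ofReal_le_ofReal (le_of_eq ?_)
    rw [tsum_mul_left, tsum_geometric_two', mul_one]


/-- the mass factor of the end point -/
noncomputable def w4 (m : ℕ → ℝ) (k : ℕ) : ℝ := m k * 4 ^ k

lemma w4_pos {m : ℕ → ℝ} (hm : MLow m) (k : ℕ) : 0 < w4 m k := mul_pos (hm.pos k) (by positivity)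

lemma w4_mono {m : ℕ → ℝ} (hm : MLow m) : Monotone (w4 m) := fun _ _ h =>
  mul_le_mul (hm.mono h) (pow_le_pow_right₀ (by norm_num) h) (by positivity) (hm.pos _).le

lemma w4_up {m : ℕ → ℝ} (hd : MUp m) : MUp (w4 m) := by
  obtain ⟨C, hC, h⟩ := hd
  refine ⟨C * 4, by linarith, fun k => ?_⟩
  unfold w4
  calc m (k + 1) * 4 ^ (k + 1) ≤ (C * m k) * 4 ^ (k + 1) := mul_le_mul_of_nonneg_right (h k) (by positivity)
    _ = C * 4 * (m k * 4 ^ k) := by ring

/-- **the pointwise bound of the law of the end point** -/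
theorem endX_of {m : ℕ → ℝ} {J0 : ℕ} (hm : MLow m) (hd : MUp m) (hA : ASm m) (hG : GBmL labN (w4 m) J0)
    (hE : ExsL labN) (hX : EXTL labN m (w4 m)) : ∃ (C : ℝ) (k0 : ℕ), 0 < C ∧ ∀ k n : ℕ, k0 ≤ k → m k ≤ n →
    (n : ℝ) < m (k + 1) → ∀ x : Pt, gf {t | t ∈ SawN n ∧ vx oo up t n = x} ≤ ENNReal.ofReal (C / 4 ^ k) * nuX m k := by
  obtain ⟨C, hC, h⟩ := all_L hm (w4_pos hm) (w4_mono hm) (w4_up hd) hA hG hE hX
  refine ⟨C, 0, hC, fun k n _ h1 h2 x => ?_⟩
  refine (gf_mono ?_).trans ((h (n, x) k n h1 h2).trans (le_of_eq ?_))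
  · rintro t ⟨ht, hx⟩
    refine ⟨?_, ht⟩
    have hl : t.length = n := ht.1
    unfold labN
    rw [hl, hx]
  · unfold nuX
    rw [← mul_assoc, ← mul_assoc, ← ENNReal.ofReal_mul hC.le, ← ENNReal.ofReal_mul (by positivity)]
    congr 2
    unfold w4
    have := hm.pos k
    field_simp

end JNT

end HexObs
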