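import Pool.Agent.JNT.Defs

/-!
JNT: calculus of the sums with phase.
-/

set_option autoImplicit false

namespace HexObs

namespace JNT

open Finset TS

open scoped ENNReal

lemma en_app {s t : List Bool} (hs : s ∈ BU) : en (s ++ t) = en s + en t := by
  obtain ⟨n, hn⟩ := hs
  unfold en
  rw [List.length_append]
  exact vx_cat (mem_Brd.1 hn).2.2.1 t.length

lemma wp_app (θ : ℝ) (s t : List Bool) : wp θ (s ++ t) = wp θ s * wp θ t := by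
  unfold wp
  rw [wE_append, ENNReal.toReal_mul, List.length_append]
  push_cast
  rw [mul_add, add_mul, Complex.exp_add]
  ring

lemma norm_wp (θ : ℝ) (t : List Bool) : ‖wp θ t‖ = (wE t).toReal := by
  unfold wp
  rw [norm_mul, Complex.norm_exp_ofReal_mul_I, mul_one, Complex.norm_real, Real.norm_of_nonneg ENNReal.toReal_nonneg]

lemma sum_wE {A : Set (List Bool)} (h : gf A ≠ ⊤) : Summable fun t : A => (wE t.1).toReal :=
  ENNReal.summable_toReal h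

lemma hasSum_wE {A : Set (List Bool)} (h : gf A ≠ ⊤) : HasSum (fun t : A => (wE t.1).toReal) (gf A).toReal := by
  have h1 := ENNReal.hasSum_toReal (f := fun t : A => wE t.1) h
  rwa [← ENNReal.tsum_toReal_eq (ENNReal.ne_top_of_tsum_ne_top h)] at h1

lemma summ {θ : ℝ} {A : Set (List Bool)} (h : gf A ≠ ⊤) {φ : Pt → ℂ} {M : ℝ} (hφ : ∀ z, ‖φ z‖ ≤ M) :
    Summable fun t : A => wp θ t.1 * φ (en t.1) := by
  refine Summable.of_norm_bounded ((sum_wE h).mul_right M) fun t => ?_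
  rw [norm_mul, norm_wp]
  exact mul_le_mul_of_nonneg_left (hφ _) ENNReal.toReal_nonneg

lemma Fo_le {θ : ℝ} {A : Set (List Bool)} (h : gf A ≠ ⊤) {φ : Pt → ℂ} {M : ℝ} (hφ : ∀ z, ‖φ z‖ ≤ M) :
    ‖Fo θ A φ‖ ≤ (gf A).toReal * M := by
  have h1 : ∀ t : A, ‖wp θ t.1 * φ (en t.1)‖ ≤ (wE t.1).toReal * M := fun t => by
    rw [norm_mul, norm_wp]
    exact mul_le_mul_of_nonneg_left (hφ _) ENNReal.toReal_nonneg
  exact tsum_of_norm_bounded ((hasSum_wE h).mul_right M) h1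

/-- only the values at the ends of the words of A count -/
lemma Fo_congr {θ : ℝ} {A : Set (List Bool)} {φ ψ : Pt → ℂ} (h : ∀ t ∈ A, φ (en t) = ψ (en t)) :
    Fo θ A φ = Fo θ A ψ :=
  tsum_congr fun t => by rw [h t.1 t.2]

lemma NB_gf {θ : ℝ} {A : Set (List Bool)} (h : gf A ≠ ⊤) : NB θ A (gf A).toReal := fun φ hφ => by
  have h1 := Fo_le (θ := θ) h hφ
  rwa [mul_one] at h1

/-- homogeneity -/
lemma NB_mul {θ : ℝ} {A : Set (List Bool)} {ρ : ℝ} (h : NB θ A ρ) {φ : Pt → ℂ} {M : ℝ} (hM : 0 ≤ M)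
    (hφ : ∀ z, ‖φ z‖ ≤ M) : ‖Fo θ A φ‖ ≤ ρ * M := by
  rcases hM.eq_or_lt with h0 | h0
  · have h1 : Fo θ A φ = 0 := by
      unfold Fo
      have : ∀ t : A, wp θ t.1 * φ (en t.1) = 0 := fun t => by
        have h2 := hφ (en t.1)
        rw [← h0] at h2
        rw [norm_le_zero_iff.1 h2, mul_zero]
      simp only [this, tsum_zero]
    rw [h1, ← h0]
    simp
  · have h1 := h (fun z => ((M⁻¹ : ℝ) : ℂ) * φ z) fun z => by
      rw [norm_mul, Complex.norm_real, Real.norm_of_nonneg (inv_nonneg.2 hM), inv_mul_le_iff₀ h0, mul_one]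
      exact hφ z
    have h2 : Fo θ A (fun z => ((M⁻¹ : ℝ) : ℂ) * φ z) = ((M⁻¹ : ℝ) : ℂ) * Fo θ A φ := by
      unfold Fo
      rw [← tsum_mul_left]
      exact tsum_congr fun t => by ring
    rw [h2, norm_mul, Complex.norm_real, Real.norm_of_nonneg (inv_nonneg.2 hM), inv_mul_le_iff₀ h0] at h1
    rwa [mul_comm] at h1

lemma Fo_union {θ : ℝ} {A B : Set (List Bool)} (hA : gf A ≠ ⊤) (hB : gf B ≠ ⊤) (hAB : Disjoint A B) {φ : Pt → ℂ}
    {M : ℝ} (hφ : ∀ z, ‖φ z‖ ≤ M) : Fo θ (A ∪ B) φ = Fo θ A φ + Fo θ B φ :=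
  Summable.tsum_union_disjoint (f := fun t => wp θ t * φ (en t)) hAB (summ hA hφ) (summ hB hφ)

lemma Fo_biUnion {ι : Type} {θ : ℝ} (I : Finset ι) {D : ι → Set (List Bool)} (hD : ∀ i ∈ I, gf (D i) ≠ ⊤)
    (hdis : ∀ i ∈ I, ∀ j ∈ I, i ≠ j → Disjoint (D i) (D j)) {φ : Pt → ℂ} {M : ℝ} (hφ : ∀ z, ‖φ z‖ ≤ M) :
    Fo θ (⋃ i ∈ I, D i) φ = ∑ i ∈ I, Fo θ (D i) φ := by
  classical
  induction I using Finset.induction_on with
  | empty =>
    unfold Fo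
    simp
  | insert a s ha ih =>
    rw [Finset.sum_insert ha, ← ih (fun i hi => hD i (Finset.mem_insert_of_mem hi))
      (fun i hi j hj => hdis i (Finset.mem_insert_of_mem hi) j (Finset.mem_insert_of_mem hj)), Finset.set_biUnion_insert]
    refine Fo_union (hD a (Finset.mem_insert_self a s)) ?_ ?_ hφ
    · refine ne_top_of_le_ne_top ?_ (JumpVaux.gf_biUnion_le s D)
      exact ENNReal.sum_ne_top.2 fun i hi => hD i (Finset.mem_insert_of_mem hi)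
    · rw [Set.disjoint_iUnion₂_right]
      intro i hi
      refine hdis a (Finset.mem_insert_self a s) i (Finset.mem_insert_of_mem hi) ?_
      rintro rfl
      exact ha hi

/-- the product of two families with unique decomposition, sum over the second factor outside -/
lemma Fo_prod {θ : ℝ} {A B C : Set (List Bool)} (hA : gf A ≠ ⊤) (hB : gf B ≠ ⊤)
    (hC : ∀ t, t ∈ C ↔ ∃ a ∈ A, ∃ b ∈ B, t = a ++ b)
    (hinj : ∀ a ∈ A, ∀ b ∈ B, ∀ a' ∈ A, ∀ b' ∈ B, a ++ b = a' ++ b' → a = a') {φ : Pt → ℂ} {M : ℝ}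
    (hφ : ∀ z, ‖φ z‖ ≤ M) :
    Summable (fun x : A × B => wp θ (x.1.1 ++ x.2.1) * φ (en (x.1.1 ++ x.2.1))) ∧
    Fo θ C φ = ∑' x : A × B, wp θ (x.1.1 ++ x.2.1) * φ (en (x.1.1 ++ x.2.1)) := by
  have hgC : gf C ≠ ⊤ := by
    refine ne_top_of_le_ne_top (ENNReal.mul_ne_top hA hB) (gf_le_mul fun t ht => ?_)
    obtain ⟨a, ha, b, hb, h⟩ := (hC t).1 ht
    exact ⟨a, ha, b, hb, h⟩
  obtain ⟨e, he⟩ : ∃ e : A × B ≃ C, ∀ x, (e x).1 = x.1.1 ++ x.2.1 := by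
    refine ⟨Equiv.ofBijective (fun x => ⟨x.1.1 ++ x.2.1, (hC _).2 ⟨_, x.1.2, _, x.2.2, rfl⟩⟩) ⟨?_, ?_⟩, fun x => rfl⟩
    · rintro ⟨⟨a, ha⟩, ⟨b, hb⟩⟩ ⟨⟨a', ha'⟩, ⟨b', hb'⟩⟩ h
      have h1 : a ++ b = a' ++ b' := congrArg Subtype.val h
      have h2 := hinj a ha b hb a' ha' b' hb' h1
      subst h2
      have h3 := List.append_cancel_left h1
      subst h3
      rfl
    · rintro ⟨t, ht⟩
      obtain ⟨a, ha, b, hb, h⟩ := (hC t).1 ht
      exact ⟨(⟨a, ha⟩, ⟨b, hb⟩), Subtype.ext h.symm⟩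
  have h1 := e.summable_iff.2 (summ (θ := θ) hgC hφ)
  have h2 := e.tsum_eq fun t : C => wp θ t.1 * φ (en t.1)
  simp only [Function.comp_def, he] at h1 h2
  exact ⟨h1, h2.symm⟩

/-- sum over the second factor outside -/
lemma Fo_mul_right {θ : ℝ} {A B C : Set (List Bool)} (hAU : A ⊆ BU) (hA : gf A ≠ ⊤) (hB : gf B ≠ ⊤)
    (hC : ∀ t, t ∈ C ↔ ∃ a ∈ A, ∃ b ∈ B, t = a ++ b)
    (hinj : ∀ a ∈ A, ∀ b ∈ B, ∀ a' ∈ A, ∀ b' ∈ B, a ++ b = a' ++ b' → a = a') {φ : Pt → ℂ} {M : ℝ}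
    (hφ : ∀ z, ‖φ z‖ ≤ M) :
    Fo θ C φ = ∑' b : B, wp θ b.1 * Fo θ A (fun z => φ (z + en b.1)) := by
  obtain ⟨h1, h2⟩ := Fo_prod (θ := θ) hA hB hC hinj hφ
  rw [h2]
  have h3 := (Equiv.prodComm B A).summable_iff.2 h1
  have h4 := (Equiv.prodComm B A).tsum_eq fun x : A × B => wp θ (x.1.1 ++ x.2.1) * φ (en (x.1.1 ++ x.2.1))
  rw [← h4]
  simp only [Function.comp_def] at h3
  rw [h3.tsum_prod]
  refine tsum_congr fun b => ?_
  unfold Fo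
  rw [← tsum_mul_left]
  refine tsum_congr fun a => ?_
  simp only [Equiv.prodComm_apply, Prod.fst_swap, Prod.snd_swap]
  rw [wp_app, en_app (hAU a.2)]
  ring

/-- sum over the first factor outside -/
lemma Fo_mul_left {θ : ℝ} {A B C : Set (List Bool)} (hAU : A ⊆ BU) (hA : gf A ≠ ⊤) (hB : gf B ≠ ⊤)
    (hC : ∀ t, t ∈ C ↔ ∃ a ∈ A, ∃ b ∈ B, t = a ++ b)
    (hinj : ∀ a ∈ A, ∀ b ∈ B, ∀ a' ∈ A, ∀ b' ∈ B, a ++ b = a' ++ b' → a = a') {φ : Pt → ℂ} {M : ℝ}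
    (hφ : ∀ z, ‖φ z‖ ≤ M) :
    Fo θ C φ = ∑' a : A, wp θ a.1 * Fo θ B (fun z => φ (en a.1 + z)) := by
  obtain ⟨h1, h2⟩ := Fo_prod (θ := θ) hA hB hC hinj hφ
  rw [h2, h1.tsum_prod]
  refine tsum_congr fun a => ?_
  unfold Fo
  rw [← tsum_mul_left]
  refine tsum_congr fun b => ?_
  rw [wp_app, en_app (hAU a.2)]
  ring

/-- norm of a sum over a family -/
lemma norm_sum_le {A : Set (List Bool)} (hA : gf A ≠ ⊤) {θ : ℝ} {g : A → ℂ} {M : ℝ} (hg : ∀ t, ‖g t‖ ≤ M) :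
    ‖∑' t : A, wp θ t.1 * g t‖ ≤ (gf A).toReal * M := by
  refine tsum_of_norm_bounded ((hasSum_wE hA).mul_right M) fun t => ?_
  rw [norm_mul, norm_wp]
  exact mul_le_mul_of_nonneg_left (hg _) ENNReal.toReal_nonneg

end JNT

end HexObs
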