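import Pool.Agent.JNT.LowDefs
import Pool.Agent.JNT.Ph
import Pool.Agent.NTA.PtFar

/-!
JNT, lower side, row I: word without a cut (reversed), bridge, word without a cut: the joined words by the displacement
and the number of letters.
-/

set_option autoImplicit false

namespace HexObs

namespace JNT

open Finset TS SDN NTW NTA PtC RP BAR

open scoped ENNReal

/-! ### 1. The end of the joined word -/

lemma nrm_up : nrm up = 1 := by decide

lemma mulE_left_inj {u v p : Pt} (hp : nrm p = 1) (h : mulE u p = mulE v p) : u = v := by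
  rw [mulE_comm u, mulE_comm v] at h
  exact mulE_inj hp h

lemma mulE_negl (u p : Pt) : mulE (-u) p = - mulE u p := by
  rw [mulE_comm, mulE_neg, mulE_comm]

/-- the end of the joined word -/
theorem glue_end (s v : List Bool) (x : Bool) : ∃ R : Pt, nrm R = 1 ∧ mulE R up = jd s ∧
    vx oo up (rev s ++ v) (s.length + v.length) = mulE R (en (s ++ [x]) - up + en v) := by
  obtain ⟨R, hR, h1, h2⟩ := jvx_snd s v
  obtain ⟨R', hR', h3, h4, _⟩ := frame_rev s
  refine ⟨R, hR, h1, ?_⟩
  rw [h2 v.length]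
  have h5 := h4 s.length (by omega)
  rw [show s.length + 1 - s.length = 1 by omega] at h5
  have h6 : vx oo up (rev s ++ v) s.length = vx oo up (rev s) s.length := vx_append (by rw [rev_length]; omega)
  have h7 : vx oo up s 1 = up := by
    show vs oo up (tf s) 1 = up
    simp [vs, ds, oo]
  have h8 : en (s ++ [x]) = tip oo up s := by
    unfold en tip
    rw [List.length_append, List.length_singleton]
    exact vx_append le_rfl
  -- R' = - (R inverse)
  have h9 : mulE R' (mulE R up) = mulE (-(1, 0)) up := by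
    rw [h1, h3, mulE_negl, mulE_one]
  have h10 : mulE R' R = -(1, 0) := by
    rw [mulE_assoc] at h9
    exact mulE_left_inj nrm_up h9
  have h11 : vx oo up (rev s) s.length = mulE R (en (s ++ [x]) - up) := by
    apply mulE_inj hR'
    rw [h5, h7, h8, mulE_assoc, h10, mulE_negl, mulE_one]
    abel
  rw [h6, h11, ← mulE_add]
  rfl

/-- the direction of the joint, even number of letters -/
lemma jd_even {s : List Bool} (hs : Even s.length) : jd s = up ∨ jd s = r3 up ∨ jd s = r3 (r3 up) := by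
  have h1 : cl (jd s) = cl up := by
    unfold jd
    rw [cl_dx, if_pos hs]
  have key : ∀ d ∈ dirs, cl d = cl up → d = up ∨ d = r3 up ∨ d = r3 (r3 up) := by decide
  exact key _ (jd_dirs s) h1

theorem glue_orbit {s v : List Bool} {x : Bool} (hs : Even s.length) {z : Pt} (hz : en (s ++ [x]) - up + en v = z) :
    vx oo up (rev s ++ v) (s.length + v.length) = z ∨ vx oo up (rev s ++ v) (s.length + v.length) = r3 z ∨
      vx oo up (rev s ++ v) (s.length + v.length) = r3 (r3 z) := by
  obtain ⟨R, hR, h1, h2⟩ := glue_end s v x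
  rw [hz] at h2
  rw [h2]
  rcases jd_even hs with h | h | h
  · left
    have h3 : R = (1, 0) := mulE_left_inj nrm_up (by rw [h1, h, mulE_one])
    rw [h3, mulE_one]
  · right; left
    have h3 : R = (-1, 1) := mulE_left_inj nrm_up (by rw [h1, h]; rfl)
    rw [h3]
    rfl
  · right; right
    have h3 : R = mulE (-1, 1) (-1, 1) := mulE_left_inj nrm_up (by rw [h1, h, ← mulE_assoc]; rfl)
    rw [h3, ← mulE_assoc]
    rfl

/-! ### 2. Injectivity -/

lemma split_inj {Z B Z' B' : List Bool} (hZ : Z ∈ BU) (hZ' : Z' ∈ BU) (hB : B ∈ HiN B.length)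
    (hB' : B' ∈ HiN B'.length) (h : Z ++ B = Z' ++ B') : Z = Z' ∧ B = B' := by
  have key : ∀ (r r' : ℕ) (c s c' s' : List Bool), r ≤ r' → c ∈ Brd r → c' ∈ Brd r' →
      s ∈ HiN s.length → s' ∈ HiN s'.length → c ++ s = c' ++ s' → c = c' ∧ s = s' := by
    intro r r' c s c' s' hr hc hc' hs hs' h
    obtain ⟨v, hv, h2, h3⟩ := nested hc hc' (HpN_iff.1 hs.1).2.1 (HpN_iff.1 hs'.1).2.1 hr h
    rcases Nat.eq_zero_or_pos (r' - r) with h0 | h0
    · rw [h0, Brd_zero] at hv
      have h4 : v = [] := hv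
      rw [h4, List.append_nil] at h2
      rw [h4, List.nil_append] at h3
      exact ⟨h2.symm, h3⟩
    · exfalso
      have h5 := cutP_cat h0 hv (HpN_iff.1 hs'.1).2.1
      rw [← h3, ← mem_cuts, hs.2] at h5
      exact absurd h5 (Finset.notMem_empty _)
  obtain ⟨r, hr⟩ := hZ
  obtain ⟨r', hr'⟩ := hZ'
  rcases Nat.le_total r r' with h1 | h1
  · exact key r r' Z B Z' B' h1 hr hr' hB hB' h
  · obtain ⟨h2, h3⟩ := key r' r Z' B' Z B h1 hr' hr hB' hB h.symm
    exact ⟨h2.symm, h3.symm⟩

/-- the second part is a half plane word -/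
lemma snd_HpN {Z B : List Bool} (hZ : Z ∈ BU) (hB : B ∈ HiN B.length) : Z ++ B ∈ HpN (Z.length + B.length) := by
  obtain ⟨r, hr⟩ := hZ
  exact cat_HpN hr rfl hB.1

theorem triple_inj {A V A' V' : List Bool} {l l' : ℕ} (hA : A ∈ HiN A.length) (hA' : A' ∈ HiN A'.length)
    (h1 : 1 ≤ A.length) (h1' : 1 ≤ A'.length) (hV : V ∈ HpN l) (hV' : V' ∈ HpN l')
    (hx : A.getLastD true = A'.getLastD true) (hd : jd A.dropLast = jd A'.dropLast)
    (h : rev A.dropLast ++ V = rev A'.dropLast ++ V') : A = A' ∧ V = V' := by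
  have key : ∀ (k k' l l' : ℕ) (a v a' v' : List Bool), a ∈ HiN (k + 1) → v ∈ HpN l →
      a' ∈ HiN (k' + 1) → v' ∈ HpN l' → jd a.dropLast = jd a'.dropLast →
      rev a.dropLast ++ v = rev a'.dropLast ++ v' → ¬ k < k' := by
    intro k k' l l' a v a' v' h1 h2 h3 h4 h5 h6 hlt
    have e1 := last_form h1.1.1
    have e3 := last_form h3.1.1
    have h7 := glue_cut (s := a.dropLast) (x := a.getLastD true) (v := v) (k := k) (l := l)
      (s' := a'.dropLast) (x' := a'.getLastD true) (v' := v') (k' := k') (l' := l')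
      (by rw [← e1]; exact h1.1) h2 (by rw [← e3]; exact h3.1) h4 h6 h5 hlt
    rw [← e3, h3.2] at h7
    exact Finset.not_nonempty_empty h7
  obtain ⟨k, hk⟩ : ∃ k, A.length = k + 1 := ⟨A.length - 1, by omega⟩
  obtain ⟨k', hk'⟩ : ∃ k, A'.length = k + 1 := ⟨A'.length - 1, by omega⟩
  rw [hk] at hA
  rw [hk'] at hA'
  have hkk : k = k' := by
    rcases Nat.lt_trichotomy k k' with h2 | h2 | h2
    · exact absurd h2 (key k k' l l' A V A' V' hA hV hA' hV' hd h)
    · exact h2
    · exact absurd h2 (key k' k l' l A' V' A V hA' hV' hA hV hd.symm h.symm)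
  subst hkk
  obtain ⟨e4, e5⟩ := List.append_inj h (by
    rw [rev_length, rev_length, List.length_dropLast, List.length_dropLast, hk, hk'])
  have e6 : A.dropLast = A'.dropLast := by rw [← rev_rev A.dropLast, e4, rev_rev]
  exact ⟨by rw [last_form hk, last_form hk', e6, hx], e5⟩

/-! ### 3. The count -/

theorem jCnt : JCnt := by
  classical
  intro n x P Q hP hQ
  set T : Set (List Bool) := {t | t ∈ SawN n ∧ (vx oo up t n = x ∨ vx oo up t n = r3 x ∨ vx oo up t n = r3 (r3 x))}
    with hT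
  set S : Set (List Bool × List Bool × List Bool) := {p | p.1 ∈ P ∧ p.2.1 ∈ BU ∧ p.2.2 ∈ Q ∧
    p.1.length + p.2.1.length + p.2.2.length = n + 1 ∧ en p.1 - up + en p.2.1 + en p.2.2 = x} with hS
  have e1 : ∑' A : List Bool, ∑' Z : List Bool, ∑' B : List Bool, (if A ∈ P ∧ Z ∈ BU ∧ B ∈ Q ∧
      A.length + Z.length + B.length = n + 1 ∧ en A - up + en Z + en B = x then wE A * (wE Z * wE B) else 0) =
      ∑' p : S, wE p.1.1 * (wE p.1.2.1 * wE p.1.2.2) := by
    have h1 : ∀ A : List Bool, ∑' Z : List Bool, ∑' B : List Bool, (if A ∈ P ∧ Z ∈ BU ∧ B ∈ Q ∧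
      A.length + Z.length + B.length = n + 1 ∧ en A - up + en Z + en B = x then wE A * (wE Z * wE B) else 0) =
        ∑' q : List Bool × List Bool, (if A ∈ P ∧ q.1 ∈ BU ∧ q.2 ∈ Q ∧
          A.length + q.1.length + q.2.length = n + 1 ∧ en A - up + en q.1 + en q.2 = x then
            wE A * (wE q.1 * wE q.2) else 0) := fun A => (ENNReal.tsum_prod (f := fun Z B =>
        if A ∈ P ∧ Z ∈ BU ∧ B ∈ Q ∧ A.length + Z.length + B.length = n + 1 ∧ en A - up + en Z + en B = x then
          wE A * (wE Z * wE B) else 0)).symm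
    simp only [h1]
    rw [← ENNReal.tsum_prod (f := fun (A : List Bool) (q : List Bool × List Bool) =>
      (if A ∈ P ∧ q.1 ∈ BU ∧ q.2 ∈ Q ∧ A.length + q.1.length + q.2.length = n + 1 ∧
        en A - up + en q.1 + en q.2 = x then wE A * (wE q.1 * wE q.2) else 0)),
      tsum_subtype S (fun p => wE p.1 * (wE p.2.1 * wE p.2.2))]
    refine tsum_congr fun p => ?_
    rw [Set.indicator_apply]
    rfl
  rw [e1]
  -- the map
  have hmem : ∀ p ∈ S, rev p.1.dropLast ++ (p.2.1 ++ p.2.2) ∈ T := by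
    rintro ⟨A, Z, B⟩ ⟨h1, h2, h3, h4, h5⟩
    simp only at h1 h2 h3 h4 h5 ⊢
    obtain ⟨hA, hodd⟩ := hP A h1
    have hB := hQ B h3
    obtain ⟨k, hk⟩ : ∃ k, A.length = k + 1 := ⟨A.length - 1, by omega⟩
    have hf := last_form hk
    have hsl : A.dropLast.length = k := by rw [List.length_dropLast, hk]; omega
    have hv := snd_HpN h2 hB
    have h6 := glue_mem (s := A.dropLast) (x := A.getLastD true) (v := Z ++ B) (k := k)
      (l := Z.length + B.length) (by rw [← hf, ← hk]; exact hA.1) hv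
    rw [show k + (Z.length + B.length) = n by omega] at h6
    refine ⟨h6, ?_⟩
    have h7 := glue_orbit (s := A.dropLast) (v := Z ++ B) (x := A.getLastD true) (z := x)
      (by rw [hsl]; rw [Nat.even_iff]; omega) (by rw [← hf, en_app h2, ← h5]; abel)
    rw [hsl, List.length_append, show k + (Z.length + B.length) = n by omega] at h7
    exact h7
  set F : S → Bool × dirs × T := fun p => (p.1.1.getLastD true, ⟨jd p.1.1.dropLast, jd_dirs _⟩,
    ⟨rev p.1.1.dropLast ++ (p.1.2.1 ++ p.1.2.2), hmem p.1 p.2⟩) with hF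
  have hinj : Function.Injective F := by
    rintro ⟨⟨A, Z, B⟩, hp⟩ ⟨⟨A', Z', B'⟩, hp'⟩ h
    obtain ⟨h1, h2, h3, h4, h5⟩ := hp
    obtain ⟨h1', h2', h3', h4', h5'⟩ := hp'
    simp only at h1 h2 h3 h4 h5 h1' h2' h3' h4' h5'
    rw [hF] at h
    simp only [Prod.mk.injEq, Subtype.mk.injEq] at h
    obtain ⟨g1, g2, g3⟩ := h
    obtain ⟨hA, hodd⟩ := hP A h1
    obtain ⟨hA', hodd'⟩ := hP A' h1'
    obtain ⟨e2, e3⟩ := triple_inj hA hA' (by omega) (by omega) (snd_HpN h2 (hQ B h3)) (snd_HpN h2' (hQ B' h3'))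
      g1 g2 g3
    obtain ⟨e4, e5⟩ := split_inj h2 h2' (hQ B h3) (hQ B' h3') e3
    subst e2
    subst e4
    subst e5
    rfl
  have hw : ∀ p : S, wE p.1.1 * (wE p.1.2.1 * wE p.1.2.2) ≤ wE (F p).2.2.1 := by
    rintro ⟨⟨A, Z, B⟩, ⟨h1, h2, h3, h4, h5⟩⟩
    simp only at h1 h2 h3 h4 h5
    rw [hF]
    simp only
    have hodd := (hP A h1).2
    rw [← wE_append, ← wE_append]
    unfold wE
    apply ENNReal.ofReal_le_ofReal
    apply pow_le_pow_of_le_one xc_pos.le (by linarith [xc_le])
    simp only [List.length_append, rev_length, List.length_dropLast]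
    omega
  calc ∑' p : S, wE p.1.1 * (wE p.1.2.1 * wE p.1.2.2) ≤ ∑' p : S, (fun q : Bool × dirs × T => wE q.2.2.1) (F p) :=
        ENNReal.tsum_le_tsum hw
    _ ≤ ∑' q : Bool × dirs × T, wE q.2.2.1 := ENNReal.tsum_comp_le_tsum_of_injective hinj _
    _ = 12 * gf T := by
        rw [ENNReal.tsum_prod (f := fun (_ : Bool) (q : dirs × T) => wE q.2.1)]
        have h1 : ∑' q : dirs × T, wE q.2.1 = 6 * gf T := by
          rw [ENNReal.tsum_prod (f := fun (_ : dirs) (t : T) => wE t.1)]
          rw [tsum_fintype, Finset.sum_const, Finset.card_univ, Fintype.card_coe, show dirs.card = 6 by decide,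
            nsmul_eq_mul]
          rfl
        rw [h1, tsum_fintype, Finset.sum_const, Finset.card_univ, Fintype.card_bool, nsmul_eq_mul, ← mul_assoc]
        norm_num

end JNT

end HexObs
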