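import Pool.Agent.JNT.Rec
import Pool.Agent.PHW.AntiC
import Pool.Agent.NUX.Br1

/-!
JNT: the characteristic function of the number of letters of two bridges with a given displacement; inversion.
-/

set_option autoImplicit false

namespace HexObs

namespace JNT

open Finset TS

open scoped ENNReal

/-- the pairs of bridges of height at least n with the displacement v -/
def PP (n : ℕ) (v : Pt) : Set (List Bool × List Bool) := {p | p.1 ∈ HB n ∧ p.2 ∈ HB n ∧ en p.1 + en p.2 = v}

open scoped Classical in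
/-- the characteristic function of their number of letters -/
noncomputable def Fv (n : ℕ) (v : Pt) (θ : ℝ) : ℂ :=
  ∑' p : List Bool × List Bool, (if p ∈ PP n v then wp θ p.1 * wp θ p.2 else 0)

namespace IvT

lemma lat_en {s t : List Bool} (h : en s = en t) : latE s = latE t := by
  unfold latE lat
  exact congrArg (fun p => -(cross up p)) h

/-- the bridges of height at least n with a given end -/
lemma gf_at : ∃ C : ℝ, 0 < C ∧ ∀ n : ℕ, 1 ≤ n → ∀ z : Pt,
    gf {Z | Z ∈ HB n ∧ en Z = z} ≤ ENNReal.ofReal (C * (UU n / (n : ℝ) ^ 2)) := by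
  obtain ⟨C, hC, hanti⟩ := anti_end
  refine ⟨2 * C, by positivity, fun n hn z => ?_⟩
  have hn0 : (0 : ℝ) < n := by exact_mod_cast hn
  have hUn := Num2Aux.UU_pos n
  rcases Set.eq_empty_or_nonempty {Z | Z ∈ HB n ∧ en Z = z} with h0 | ⟨Z0, ⟨h, hh, hZ0⟩, hz0⟩
  · rw [h0]
    unfold gf
    simp
  · have hh1 : 1 ≤ h := hn.trans hh
    have hh0 : (0 : ℝ) < h := by exact_mod_cast hh1
    have h1 : {Z | Z ∈ HB n ∧ en Z = z} ⊆ {t | t ∈ Brd h ∧ latE t = latE Z0} := by
      rintro Z ⟨⟨h', -, hZ⟩, hz⟩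
      have h2 : h' = h := by
        rw [← hgt_eq hZ, ← hgt_eq hZ0, ← RcT.hz_en, ← RcT.hz_en, hz, hz0]
      subst h2
      exact ⟨hZ, lat_en (hz.trans hz0.symm)⟩
    refine (gf_mono h1).trans ((hanti h hh1 _).trans (ENNReal.ofReal_le_ofReal ?_))
    have h2 := Num2Aux.mul_le_UU h
    obtain ⟨q, hq⟩ : ∃ q, q = h / n + 1 := ⟨_, rfl⟩
    have hq1 : h ≤ q * n := by
      rw [hq]
      exact (Nat.lt_div_mul_add (a := h) (b := n) hn).le.trans (le_of_eq (by ring))
    have hq2 : (q : ℝ) ≤ 2 * h / n := by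
      rw [hq, le_div_iff₀ hn0]
      have h3 : h / n * n ≤ h := Nat.div_mul_le_self h n
      have h4 : ((h / n + 1) * n : ℕ) ≤ 2 * h := by
        rw [add_mul, one_mul]
        omega
      exact_mod_cast h4
    have hq3 : 1 ≤ q := by
      rw [hq]
      exact Nat.le_add_left _ _
    have h3 : UU h ≤ q * UU n := (Num2Aux.UU_mono hq1).trans (Ex.UU_mul_le n q hq3)
    have h4 : uu h ≤ 2 * UU n / n := by
      have h5 : (h : ℝ) * uu h ≤ h * (2 * UU n / n) := by
        calc (h : ℝ) * uu h ≤ q * UU n := h2.trans h3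
          _ ≤ 2 * h / n * UU n := mul_le_mul_of_nonneg_right hq2 hUn.le
          _ = _ := by ring
      exact le_of_mul_le_mul_left h5 hh0
    have h5 : uu h / h ≤ 2 * UU n / n / n := by
      have hnh : (n : ℝ) ≤ h := by exact_mod_cast hh
      exact div_le_div₀ (by positivity) h4 hn0 hnh
    calc C * (uu h / h) ≤ C * (2 * UU n / n / n) := mul_le_mul_of_nonneg_left h5 hC.le
      _ = _ := by
          field_simp

lemma hz_add {h h' : ℕ} {s t : List Bool} (hs : s ∈ Brd h) (ht : t ∈ Brd h') : RcT.hz (en s + en t) = h + h' := by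
  have h1 : ip (en s) up = 3 * (h : ℤ) := (mem_Brd.1 hs).2.2.2
  have h2 : ip (en t) up = 3 * (h' : ℤ) := (mem_Brd.1 ht).2.2.2
  unfold RcT.hz
  rw [ip_add_left, h1, h2]
  omega

variable {n : ℕ} {v : Pt} {θ M : ℝ}

/-- the bound of the height -/
lemma hz_le {p : List Bool × List Bool} (hp : p ∈ PP n v) : ∃ h, n ≤ h ∧ h ≤ RcT.hz v ∧ p.1 ∈ Brd h := by
  obtain ⟨⟨h, hh, h1⟩, ⟨h', hh', h2⟩, h3⟩ := hp
  refine ⟨h, hh, ?_, h1⟩
  rw [← h3, hz_add h1 h2]
  omega

/-- the first bridges -/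
def AA (n : ℕ) (v : Pt) : Set (List Bool) := ⋃ h ∈ Finset.Icc n (RcT.hz v), Brd h

lemma mem_AA {t : List Bool} : t ∈ AA n v ↔ ∃ h, n ≤ h ∧ h ≤ RcT.hz v ∧ t ∈ Brd h := by
  unfold AA
  simp only [Set.mem_iUnion, Finset.mem_Icc, exists_prop, and_assoc]

lemma gf_AA : gf (AA n v) ≠ ⊤ := by
  refine ne_top_of_le_ne_top ?_ (JumpVaux.gf_biUnion_le _ _)
  exact ENNReal.sum_ne_top.2 fun h _ => RcT.gf_Brd_ne h

open scoped Classical in
/-- the weights of the pairs -/
noncomputable def gp (n : ℕ) (v : Pt) (p : List Bool × List Bool) : ℝ≥0∞ := if p ∈ PP n v then wE p.1 * wE p.2 else 0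

lemma sum_gp {c : ℝ≥0∞} (hc : ∀ z, gf {Z | Z ∈ HB n ∧ en Z = z} ≤ c) : ∑' p, gp n v p ≤ gf (AA n v) * c := by
  classical
  rw [ENNReal.tsum_prod']
  unfold gf
  rw [← ENNReal.tsum_mul_right, tsum_subtype (AA n v) (fun t => wE t * c)]
  refine ENNReal.tsum_le_tsum fun Z => ?_
  by_cases hZ : Z ∈ AA n v
  · rw [Set.indicator_of_mem hZ]
    calc ∑' Z', gp n v (Z, Z') ≤ ∑' Z', wE Z * Set.indicator {Z' | Z' ∈ HB n ∧ en Z' = v - en Z} wE Z' := by
          refine ENNReal.tsum_le_tsum fun Z' => ?_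
          unfold gp
          split_ifs with h
          · rw [Set.indicator_of_mem]
            exact ⟨h.2.1, by
              have := h.2.2
              simp only at this
              rw [← this]
              simp⟩
          · exact zero_le
      _ = wE Z * gf {Z' | Z' ∈ HB n ∧ en Z' = v - en Z} := by
          rw [ENNReal.tsum_mul_left, ← _root_.tsum_subtype]
          rfl
      _ ≤ _ := mul_le_mul' le_rfl (hc _)
  · rw [Set.indicator_of_notMem hZ]
    refine le_of_eq ?_
    refine (tsum_congr fun Z' => ?_).trans tsum_zero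
    unfold gp
    rw [if_neg]
    intro h
    exact hZ (mem_AA.2 (hz_le h))

lemma sum_gp_ne (hn : 1 ≤ n) : ∑' p, gp n v p ≠ ⊤ := by
  obtain ⟨C, -, h⟩ := gf_at
  exact ne_top_of_le_ne_top (ENNReal.mul_ne_top gf_AA ENNReal.ofReal_ne_top) (sum_gp fun z => h n hn z)

lemma summ_gp (hn : 1 ≤ n) : Summable fun p => (gp n v p).toReal := ENNReal.summable_toReal (sum_gp_ne hn)

open scoped Classical in
lemma norm_cp (p : List Bool × List Bool) :
    ‖(if p ∈ PP n v then wp θ p.1 * wp θ p.2 else 0)‖ = (gp n v p).toReal := by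
  unfold gp
  split_ifs
  · rw [norm_mul, norm_wp, norm_wp, ENNReal.toReal_mul]
  · simp

open scoped Classical in
lemma summ_cp (hn : 1 ≤ n) : Summable fun p : List Bool × List Bool => (if p ∈ PP n v then wp θ p.1 * wp θ p.2 else 0) :=
  Summable.of_norm (by simpa only [norm_cp] using summ_gp hn)

/-- the second bridge -/
noncomputable def ph (n : ℕ) (v : Pt) (θ : ℝ) (z : Pt) : ℂ := Fo θ {Z | Z ∈ HB n ∧ en Z = v - z} (fun _ => 1)

lemma ph_le (hM : 0 ≤ M) (hc : ∀ z, gf {Z | Z ∈ HB n ∧ en Z = z} ≤ ENNReal.ofReal M) (z : Pt) : ‖ph n v θ z‖ ≤ M := by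
  unfold ph
  have h1 := hc (v - z)
  refine (Fo_le (M := 1) (ne_top_of_le_ne_top ENNReal.ofReal_ne_top h1) fun _ => by simp).trans ?_
  rw [mul_one]
  exact ENNReal.toReal_le_of_le_ofReal hM h1

/-- **the characteristic function as a sum over the heights of the first bridge** -/
lemma Fv_eq (hn : 1 ≤ n) : Fv n v θ = ∑ h ∈ Finset.Icc n (RcT.hz v), Fo θ (Brd h) (ph n v θ) := by
  classical
  obtain ⟨C, hC, hG⟩ := gf_at
  have hb := fun z => ph_le (θ := θ) (v := v) (M := C * (UU n / (n : ℝ) ^ 2))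
    (by have := Num2Aux.UU_pos n; positivity) (hG n hn) z
  have h1 : Fv n v θ = Fo θ (AA n v) (ph n v θ) := by
    unfold Fv
    rw [(summ_cp hn).tsum_prod]
    unfold Fo
    rw [tsum_subtype (AA n v) (fun t => wp θ t * ph n v θ (en t))]
    refine tsum_congr fun Z => ?_
    by_cases hZ : Z ∈ AA n v
    · rw [Set.indicator_of_mem hZ]
      unfold ph Fo
      rw [tsum_subtype {Z' | Z' ∈ HB n ∧ en Z' = v - en Z} (fun t => wp θ t * 1), ← tsum_mul_left]
      refine tsum_congr fun Z' => ?_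
      obtain ⟨h, hh, -, h2⟩ := mem_AA.1 hZ
      by_cases hp : (Z, Z') ∈ PP n v
      · rw [if_pos hp, Set.indicator_of_mem, mul_one]
        refine ⟨hp.2.1, ?_⟩
        have := hp.2.2
        simp only at this
        rw [← this]
        simp
      · rw [if_neg hp, Set.indicator_of_notMem, mul_zero]
        rintro ⟨h3, h4⟩
        exact hp ⟨⟨h, hh, h2⟩, h3, by
          show en Z + en Z' = v
          rw [h4]
          simp⟩
    · rw [Set.indicator_of_notMem hZ]
      refine (tsum_congr fun Z' => ?_).trans tsum_zero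
      rw [if_neg]
      intro h
      exact hZ (mem_AA.2 (hz_le h))
  rw [h1]
  refine Fo_biUnion _ (fun h _ => RcT.gf_Brd_ne h) (fun i _ j _ hij => ?_) hb
  rw [Set.disjoint_left]
  intro t hi hj
  exact hij (Brd_height hi hj)

/-- scaling -/
lemma sum_scale {S : Finset ℕ} {B : ℝ} {φ : Pt → ℂ} (hM : 0 < M) (hφ : ∀ z, ‖φ z‖ ≤ M)
    (hB : ∀ ψ : Pt → ℂ, (∀ z, ‖ψ z‖ ≤ 1) → ‖∑ h ∈ S, Fo θ (Brd h) ψ‖ ≤ B) : ‖∑ h ∈ S, Fo θ (Brd h) φ‖ ≤ M * B := by
  have h1 := hB (fun z => ((M⁻¹ : ℝ) : ℂ) * φ z) fun z => by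
    rw [norm_mul, Complex.norm_real, Real.norm_of_nonneg (inv_nonneg.2 hM.le), inv_mul_le_iff₀ hM, mul_one]
    exact hφ z
  have h2 : ∀ h, Fo θ (Brd h) (fun z => ((M⁻¹ : ℝ) : ℂ) * φ z) = ((M⁻¹ : ℝ) : ℂ) * Fo θ (Brd h) φ := by
    intro h
    unfold Fo
    rw [← tsum_mul_left]
    exact tsum_congr fun t => by ring
  simp only [h2] at h1
  rw [← Finset.mul_sum, norm_mul, Complex.norm_real, Real.norm_of_nonneg (inv_nonneg.2 hM.le), inv_mul_le_iff₀ hM] at h1
  exact h1

/-- the integral of a character of even order -/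
lemma int_exp {l : ℤ} (hl : Even l) : ∫ θ in (-(Real.pi / 2))..(Real.pi / 2), Complex.exp (((l : ℂ) * Complex.I) * (θ : ℂ)) =
    if l = 0 then (Real.pi : ℂ) else 0 := by
  split_ifs with h0
  · subst h0
    simp
  · obtain ⟨j, hj⟩ := hl
    have hc : (l : ℂ) * Complex.I ≠ 0 := mul_ne_zero (by exact_mod_cast h0) Complex.I_ne_zero
    rw [integral_exp_mul_complex hc, div_eq_zero_iff]
    left
    rw [sub_eq_zero]
    have h1 : (l : ℂ) * Complex.I * ((Real.pi / 2 : ℝ) : ℂ) =
        (l : ℂ) * Complex.I * ((-(Real.pi / 2) : ℝ) : ℂ) + (j : ℂ) * (2 * Real.pi * Complex.I) := by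
      rw [hj]
      push_cast
      ring
    rw [h1, Complex.exp_add, Complex.exp_int_mul_two_pi_mul_I, mul_one]

lemma wp_mul (p : List Bool × List Bool) (b : ℕ) : wp θ p.1 * wp θ p.2 * Complex.exp (-(((θ * b : ℝ) : ℂ) * Complex.I)) =
    ((((wE p.1).toReal * (wE p.2).toReal : ℝ)) : ℂ) *
      Complex.exp (((((p.1.length + p.2.length : ℕ) : ℤ) - (b : ℤ) : ℤ) : ℂ) * Complex.I * (θ : ℂ)) := by
  unfold wp
  have h1 : Complex.exp (((((p.1.length + p.2.length : ℕ) : ℤ) - (b : ℤ) : ℤ) : ℂ) * Complex.I * (θ : ℂ)) =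
      Complex.exp (((θ * p.1.length : ℝ) : ℂ) * Complex.I) * Complex.exp (((θ * p.2.length : ℝ) : ℂ) * Complex.I) *
        Complex.exp (-(((θ * b : ℝ) : ℂ) * Complex.I)) := by
    rw [← Complex.exp_add, ← Complex.exp_add]
    congr 1
    push_cast
    ring
  rw [h1]
  push_cast
  ring

lemma len_even {p : List Bool × List Bool} (hp : p ∈ PP n v) : Even (p.1.length + p.2.length) := by
  obtain ⟨⟨h, hh, h1⟩, ⟨h', hh', h2⟩, h3⟩ := hp
  exact (BrL.even_length h1).add (BrL.even_length h2)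

end IvT

open IvT

lemma pairs_eq (n : ℕ) (v : Pt) (b : ℕ) : pairs n v b =
    ∑' p : List Bool × List Bool, (if p.1.length + p.2.length = b then gp n v p else 0) := by
  classical
  unfold pairs
  rw [ENNReal.tsum_prod']
  refine tsum_congr fun Z => tsum_congr fun Z' => ?_
  unfold gp PP
  by_cases h1 : Z.length + Z'.length = b
  · rw [if_pos h1]
    by_cases h2 : Z ∈ HB n ∧ Z' ∈ HB n ∧ en Z + en Z' = v
    · have h3 : (Z, Z') ∈ {p : List Bool × List Bool | p.1 ∈ HB n ∧ p.2 ∈ HB n ∧ en p.1 + en p.2 = v} := h2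
      rw [if_pos ⟨h2.1, h2.2.1, h2.2.2, h1⟩, if_pos h3]
    · have h3 : (Z, Z') ∉ {p : List Bool × List Bool | p.1 ∈ HB n ∧ p.2 ∈ HB n ∧ en p.1 + en p.2 = v} := h2
      rw [if_neg (fun h => h2 ⟨h.1, h.2.1, h.2.2.1⟩), if_neg h3]
  · rw [if_neg h1, if_neg (fun h => h1 h.2.2.2)]

lemma pairs_ne {n : ℕ} (hn : 1 ≤ n) (v : Pt) (b : ℕ) : pairs n v b ≠ ⊤ := by
  rw [pairs_eq]
  refine ne_top_of_le_ne_top (sum_gp_ne (v := v) hn) (ENNReal.tsum_le_tsum fun p => ?_)
  split_ifs
  · exact le_rfl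
  · exact zero_le

lemma pairs_odd {n : ℕ} (v : Pt) {b : ℕ} (hb : ¬ Even b) : pairs n v b = 0 := by
  rw [pairs_eq]
  refine (tsum_congr fun p => ?_).trans tsum_zero
  split_ifs with h
  · unfold gp
    rw [if_neg]
    intro hp
    exact hb (h ▸ len_even hp)
  · rfl

/-- **inversion** -/
theorem inv {n : ℕ} (hn : 1 ≤ n) (v : Pt) {b : ℕ} (hb : Even b) :
    ∫ θ in (-(Real.pi / 2))..(Real.pi / 2), Fv n v θ * Complex.exp (-(((θ * b : ℝ) : ℂ) * Complex.I)) =
      Real.pi * ((pairs n v b).toReal : ℂ) := by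
  classical
  have h1 := intervalIntegral.hasSum_integral_of_dominated_convergence (μ := MeasureTheory.volume)
    (a := -(Real.pi / 2)) (b := Real.pi / 2)
    (F := fun (p : List Bool × List Bool) (θ : ℝ) => (if p ∈ PP n v then wp θ p.1 * wp θ p.2 else 0) *
      Complex.exp (-(((θ * b : ℝ) : ℂ) * Complex.I)))
    (f := fun θ => Fv n v θ * Complex.exp (-(((θ * b : ℝ) : ℂ) * Complex.I)))
    (fun p _ => (gp n v p).toReal) ?_ ?_ ?_ ?_ ?_
  · rw [← h1.tsum_eq]
    have h2 : (pairs n v b).toReal = ∑' p : List Bool × List Bool, (if p.1.length + p.2.length = b then (gp n v p).toReal else 0) := by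
      rw [pairs_eq, ENNReal.tsum_toReal_eq]
      · refine tsum_congr fun p => ?_
        split_ifs <;> simp
      · intro p
        have h3 : gp n v p ≠ ⊤ := ENNReal.ne_top_of_tsum_ne_top (sum_gp_ne hn) p
        split_ifs
        · exact h3
        · simp
    rw [h2, Complex.ofReal_tsum, ← tsum_mul_left]
    refine tsum_congr fun p => ?_
    by_cases hp : p ∈ PP n v
    · have h3 : (gp n v p).toReal = (wE p.1).toReal * (wE p.2).toReal := by
        unfold gp
        rw [if_pos hp, ENNReal.toReal_mul]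
      simp only [if_pos hp, wp_mul]
      rw [intervalIntegral.integral_const_mul, int_exp]
      · by_cases h4 : p.1.length + p.2.length = b
        · rw [if_pos h4, h4, if_pos (by simp), h3]
          ring
        · rw [if_neg h4, if_neg (by
            intro h5
            apply h4
            have : ((p.1.length + p.2.length : ℕ) : ℤ) = b := by linarith
            exact_mod_cast this)]
          simp
      · have h4 := len_even hp
        have h5 : Even (((p.1.length + p.2.length : ℕ) : ℤ)) := by exact_mod_cast h4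
        have h6 : Even (b : ℤ) := by exact_mod_cast hb
        exact h5.sub h6
    · have h3 : gp n v p = 0 := by
        unfold gp
        rw [if_neg hp]
      simp only [if_neg hp, h3]
      simp
  · intro p
    split_ifs
    · unfold wp
      fun_prop
    · simp only [zero_mul]
      fun_prop
  · intro p
    refine Filter.Eventually.of_forall fun θ _ => ?_
    rw [norm_mul, norm_cp, ← neg_mul, ← Complex.ofReal_neg, Complex.norm_exp_ofReal_mul_I, mul_one]
  · exact Filter.Eventually.of_forall fun θ _ => summ_gp hn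
  · exact intervalIntegrable_const
  · exact Filter.Eventually.of_forall fun θ _ => (summ_cp hn).hasSum.mul_right _

/-- the characteristic function is continuous -/
lemma cont_Fv {n : ℕ} (hn : 1 ≤ n) (v : Pt) : Continuous (Fv n v) := by
  classical
  unfold Fv
  refine continuous_tsum (fun p => ?_) (summ_gp (v := v) hn) fun p θ => (norm_cp p).le
  split_ifs
  · unfold wp
    fun_prop
  · exact continuous_const

end JNT

end HexObs
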