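import Pool.Agent.JNT.Cont
import Pool.Agent.JNT.JoBM
import Pool.Agent.VF.MeanZ
import Pool.Agent.VF.SharpZ

/-!
JNT, row V for the scale m k = mZ (2 ^ k), no hypothesis.
-/

set_option autoImplicit false

namespace HexObs

namespace JNT

/-- **the exact order of the mean length** -/
theorem sh43_M : Sh43 (fun k => PW.mZ (2 ^ k)) := by
  obtain ⟨c, hc, h1⟩ := VF.mLow VF.sharpZ
  obtain ⟨C, hC, h2⟩ := VF.mUp VF.sharpZ
  exact ⟨c, C, hc, hC, fun k => ⟨h1 k, h2 k⟩⟩

/-- **continuity of the number of pairs in the number of letters** -/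
theorem pairC_M : PairC (fun k => PW.mZ (2 ^ k)) := pairC_of NTA.mlow_M NTA.mup_M sh43_M fvB_M

/-- **continuity in the number of letters, total variation over the displacements** -/
theorem tvx_M : TVX (fun k => PW.mZ (2 ^ k)) := tvx_of NTA.mlow_M NTA.mup_M sh43_M scB_M

end JNT

end HexObs
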