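import Pool.Agent.JNT.LowDefs
import Pool.Agent.RSWP.Peak
import Pool.Agent.HexWall.Sym
import Pool.Agent.TightS.SBasic

/-!
JNT, row G: the joint local lower bound for all heights up to 2 ^ (k + i): a chain of C 16 ^ i first cuts of the scale
k - 3 i (steep to the right, or to the left), then the bound of the scale k.
-/

set_option autoImplicit false

namespace HexObs

namespace JNT

open Finset TS SDN NTW NTA PtC RP

open scoped ENNReal

/-! ### 1. Products with a family -/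

/-- a ++ u with u in a set that depends on a -/
lemma dep_le {F P : Set (List Bool)} (U : List Bool → Set (List Bool)) (h : ∀ a ∈ F, ∀ u ∈ U a, a ++ u ∈ P)
    (hu : ∀ a ∈ F, ∀ u ∈ U a, ∀ a' ∈ F, ∀ u' ∈ U a', a ++ u = a' ++ u' → a = a') {v : ℝ≥0∞}
    (hv : ∀ a ∈ F, v ≤ gf (U a)) : gf F * v ≤ gf P := by
  have h1 : gf F * v ≤ ∑' a : F, ∑' u : U a.1, wE a.1 * wE u.1 := by
    unfold gf
    rw [← ENNReal.tsum_mul_right]
    refine ENNReal.tsum_le_tsum fun a => ?_
    rw [ENNReal.tsum_mul_left]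
    exact mul_le_mul_right (hv a.1 a.2) _
  refine h1.trans ?_
  rw [← ENNReal.tsum_sigma' (fun p : Σ a : F, U a.1 => wE p.1.1 * wE p.2.1)]
  let ψ : (Σ a : F, U a.1) → P := fun p => ⟨p.1.1 ++ p.2.1, h _ p.1.2 _ p.2.2⟩
  have hψ : Function.Injective ψ := by
    rintro ⟨⟨a, ha⟩, ⟨u, hu1⟩⟩ ⟨⟨a', ha'⟩, ⟨u', hu1'⟩⟩ hab
    have h2 : a ++ u = a' ++ u' := congrArg Subtype.val hab
    have h3 := hu a ha u hu1 a' ha' u' hu1' h2
    subst h3
    have h4 := List.append_cancel_left h2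
    subst h4
    rfl
  calc ∑' p : (Σ a : F, U a.1), wE p.1.1 * wE p.2.1 = ∑' p : (Σ a : F, U a.1), wE (ψ p).1 := by
        refine tsum_congr fun p => ?_
        rw [← wE_append]
    _ ≤ ∑' t : P, wE t.1 := ENNReal.tsum_comp_le_tsum_of_injective hψ (fun t : P => wE t.1)
    _ = gf P := rfl

/-- the mirror image -/
lemma gf_mirror (h b : ℕ) (x : ℤ) : gf {Z | Z ∈ EndB h (-x) ∧ Z.length = b} = gf {Z | Z ∈ EndB h x ∧ Z.length = b} := by
  have h1 := Wall.gf_Brd_not h (fun Z => latE Z = x ∧ Z.length = b)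
  have e1 : {Z | Z ∈ EndB h x ∧ Z.length = b} = {P | P ∈ Brd h ∧ (fun Z => latE Z = x ∧ Z.length = b) P} := by
    ext Z
    simp only [EndB, Set.mem_setOf_eq, and_assoc]
  have e2 : {Z | Z ∈ EndB h (-x) ∧ Z.length = b} =
      {P | P ∈ Brd h ∧ (fun Z => latE Z = x ∧ Z.length = b) (P.map not)} := by
    ext Z
    simp only [EndB, Set.mem_setOf_eq, and_assoc, latE_not, List.length_map]
    constructor
    · rintro ⟨h2, h3, h4⟩
      exact ⟨h2, by omega, h4⟩
    · rintro ⟨h2, h3, h4⟩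
      exact ⟨h2, by omega, h4⟩
  rw [e1, e2]
  exact h1

/-! ### 2. The chain -/

/-- the steps -/
def SF (R N : ℝ) (s : ℕ) : Set (List Bool) := {a | a ∈ FPs s ∧ hgt a ≤ 2 * s ∧ R * (hgt a : ℝ) ≤ (latE a : ℝ) ∧
  (latE a : ℝ) ≤ 8 * R * s ∧ (a.length : ℝ) ≤ N}

theorem chain {R N am Am c : ℝ} {s L : ℕ} {v : ℝ≥0∞} (hR : 1 ≤ R) (hs : 1 ≤ s) (hL : 8 * s ≤ L) (hc1 : c ≤ 1)
    (hN : 0 ≤ N) (ham : 0 ≤ am) (hF : ENNReal.ofReal c ≤ gf (SF R N s))
    (hb : ∀ (h b : ℕ) (x : ℤ), L ≤ h → h ≤ 2 * L → Even (x - h) → |(x : ℝ)| ≤ R * h → Even b → am ≤ b →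
      (b : ℝ) ≤ Am → v ≤ gf {Z | Z ∈ EndB h x ∧ Z.length = b}) :
    ∀ (h b : ℕ) (x : ℤ), L ≤ h → Even (x - h) → |(x : ℝ)| ≤ R * h → Even b → am + ((h / s : ℕ) : ℝ) * N ≤ b →
      (b : ℝ) ≤ Am → ENNReal.ofReal c ^ (h / s) * v ≤ gf {Z | Z ∈ EndB h x ∧ Z.length = b} := by
  have hce : ENNReal.ofReal c ≤ 1 := by
    rw [← ENNReal.ofReal_one]
    exact ENNReal.ofReal_le_ofReal hc1
  intro h
  induction h using Nat.strong_induction_on with
  | _ h ih =>
  -- the case of a nonnegative lateral coordinate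
  have key : ∀ (b : ℕ) (x : ℤ), 0 ≤ x → L ≤ h → Even (x - h) → |(x : ℝ)| ≤ R * h → Even b →
      am + ((h / s : ℕ) : ℝ) * N ≤ b → (b : ℝ) ≤ Am →
      ENNReal.ofReal c ^ (h / s) * v ≤ gf {Z | Z ∈ EndB h x ∧ Z.length = b} := by
    intro b x hx0 h1 h2 h3 h4 h5 h6
    rcases Nat.lt_or_ge (2 * L) h with hh | hh
    swap
    · refine le_trans ?_ (hb h b x h1 hh h2 h3 h4 (le_trans (by
        have : 0 ≤ ((h / s : ℕ) : ℝ) * N := by positivity
        linarith) h5) h6)
      calc ENNReal.ofReal c ^ (h / s) * v ≤ 1 * v := mul_le_mul_left (pow_le_one₀ zero_le hce) _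
        _ = v := one_mul v
    · have hq : 1 ≤ h / s := (Nat.one_le_div_iff (by omega)).2 (by omega)
      have hqN : N ≤ ((h / s : ℕ) : ℝ) * N := by
        have : (1 : ℝ) ≤ ((h / s : ℕ) : ℝ) := by exact_mod_cast hq
        nlinarith
      have hdiv : ∀ j, s ≤ j → j ≤ h → (h - j) / s + 1 ≤ h / s := by
        intro j hj hj'
        rw [← Nat.add_div_right _ (by omega)]
        exact Nat.div_le_div_right (by omega)
      have e1 : ENNReal.ofReal c ^ (h / s) * v = ENNReal.ofReal c * (ENNReal.ofReal c ^ (h / s - 1) * v) := by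
        rw [← mul_assoc, ← pow_succ']
        congr 2
        omega
      rw [e1]
      refine (mul_le_mul_left hF _).trans ?_
      refine dep_le (fun a => {Z | Z ∈ EndB (h - hgt a) (x - latE a) ∧ Z.length = b - a.length}) ?_ ?_ ?_
      · rintro a ⟨⟨j, ha⟩, h7, -, -, h8⟩ u ⟨⟨hu1, hu2⟩, hu3⟩
        have hj := hgt_eq ha.1
        rw [hj] at h7 hu1
        have h9 : (a.length : ℝ) ≤ b := by linarith
        have h10 : a.length ≤ b := by exact_mod_cast h9
        refine ⟨⟨?_, ?_⟩, ?_⟩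
        · have h11 := Brd_append ha.1 hu1
          rwa [Nat.add_sub_of_le (by omega)] at h11
        · rw [latE_cat (mem_Brd.1 ha.1).2.2.1, hu2]
          ring
        · rw [List.length_append, hu3]
          omega
      · rintro a ⟨⟨j, ha⟩, -⟩ u ⟨⟨hu1, -⟩, -⟩ a' ⟨⟨j', ha'⟩, -⟩ u' ⟨⟨hu1', -⟩, -⟩ e
        exact (FC_unique ha ha' hu1 hu1' e).1
      · rintro a ⟨⟨j, ha⟩, h7, h8, h9, h10⟩
        have hj := hgt_eq ha.1
        have hjs : s ≤ j := ha.2.1
        rw [hj] at h7 h8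
        have f1 : (s : ℝ) ≤ j := by exact_mod_cast hjs
        have f2 : (8 : ℝ) * s ≤ L := by exact_mod_cast hL
        have f3 : (a.length : ℝ) ≤ b := by linarith
        have f4 : a.length ≤ b := by exact_mod_cast f3
        have f5 : ((b - a.length : ℕ) : ℝ) = b - a.length := by
          rw [Nat.cast_sub f4]
        have f6 : ((h - j : ℕ) : ℝ) = h - j := by
          rw [Nat.cast_sub (by omega)]
        have f7 : L ≤ h - j := by omega
        have f7' : (L : ℝ) ≤ h - j := by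
          rw [← f6]
          exact_mod_cast f7
        have hd := hdiv j hjs (by omega)
        have f8 : (((h - j) / s : ℕ) : ℝ) + 1 ≤ ((h / s : ℕ) : ℝ) := by exact_mod_cast hd
        have h11 := ih (h - j) (by omega) (b - a.length) (x - latE a) f7 (by
            have g1 := latE_even ha.1
            obtain ⟨p, hp⟩ := h2
            obtain ⟨r, hr⟩ := g1
            refine ⟨p - r, ?_⟩
            rw [Nat.cast_sub (by omega)]
            linarith) (by
            rw [f6]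
            push_cast
            have g0 : (0 : ℝ) ≤ x := by exact_mod_cast hx0
            rw [abs_of_nonneg g0] at h3
            have g1 : 0 ≤ R * (j : ℝ) := by positivity
            rw [abs_le]
            constructor
            · have g2 : 8 * R * s ≤ R * (h - j) := by
                calc 8 * R * s = R * (8 * s) := by ring
                  _ ≤ R * (h - j) := mul_le_mul_of_nonneg_left (by linarith) (by linarith)
              linarith
            · linarith) (by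
            have g1 := FPs_even ⟨j, ha⟩
            exact (Nat.even_sub f4).2 ⟨fun _ => g1, fun _ => h4⟩) (by
            rw [f5]
            have g1 : ((((h - j) / s : ℕ) : ℝ) + 1) * N ≤ ((h / s : ℕ) : ℝ) * N := mul_le_mul_of_nonneg_right f8 hN
            linarith) (by
            rw [f5]
            have : (0 : ℝ) ≤ a.length := by positivity
            linarith)
        simp only [hj]
        refine le_trans ?_ h11
        refine mul_le_mul_left ?_ _
        exact pow_le_pow_right_of_le_one' hce (by omega)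
  intro b x h1 h2 h3 h4 h5 h6
  rcases le_total 0 x with hx | hx
  · exact key b x hx h1 h2 h3 h4 h5 h6
  · rw [← gf_mirror]
    refine key b (-x) (by omega) h1 ?_ (by push_cast; rw [abs_neg]; exact h3) h4 h5 h6
    obtain ⟨p, hp⟩ := h2
    exact ⟨-p - h, by push_cast at hp ⊢; linarith⟩

/-! ### 3. The row -/

/-- **row G** -/
theorem lowC_of {m : ℕ → ℝ} (hJ : LowJ m) (hS : StepC)
    (hm : ∃ c : ℝ, 0 < c ∧ ∀ k : ℕ, c * 2 ^ (4 / 3 * (k : ℝ)) ≤ m k) : LowC m := by
  intro R a A hR ha haA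
  obtain ⟨cm, hcm, hm⟩ := hm
  obtain ⟨H, c0, k0, hH, hc0, hJ⟩ := hJ R (a / 2) A (by linarith) (by linarith) (by linarith)
  obtain ⟨c1', A1, s0, hc1', hA1, hs0, hS⟩ := hS R hR
  obtain ⟨c1, hc1d⟩ : ∃ c1, c1 = min c1' 1 := ⟨_, rfl⟩
  have hc1 : 0 < c1 := by rw [hc1d]; exact lt_min hc1' one_pos
  have hc11 : c1 ≤ 1 := by rw [hc1d]; exact min_le_right _ _
  have hc12 : c1 ≤ c1' := by rw [hc1d]; exact min_le_left _ _
  -- the offset
  obtain ⟨q', hq'⟩ : ∃ q' : ℕ, 4 * H * A1 / (a * cm) ≤ (2 : ℝ) ^ q' := by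
    obtain ⟨q', hq'⟩ := pow_unbounded_of_one_lt (4 * H * A1 / (a * cm)) (one_lt_two)
    exact ⟨q', hq'.le⟩
  obtain ⟨q, hq⟩ : ∃ q, q = 3 * q' + 3 := ⟨_, rfl⟩
  refine ⟨H, c0, H * 2 ^ (q + 1) * (-Real.log c1) + 1, q + s0 + k0, hH, hc0, ?_, ?_⟩
  · have : 0 ≤ -Real.log c1 := by
      have := Real.log_nonpos hc1.le hc11
      linarith
    positivity
  intro k i h b x hk h1 h2 h3 h4 h5 h6 h7
  obtain ⟨r, hr⟩ : ∃ r, r = k - 3 * i - q := ⟨_, rfl⟩
  obtain ⟨s, hs⟩ : ∃ s, s = 2 ^ r := ⟨_, rfl⟩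
  have hkr : k = 3 * i + q + r := by omega
  have hs1 : 1 ≤ s := by rw [hs]; exact Nat.one_le_two_pow
  have hs2 : s0 ≤ s := by
    have e1 : r < 2 ^ r := Nat.lt_two_pow_self
    omega
  have hmk : 0 < m k := lt_of_lt_of_le (by positivity) (hm k)
  obtain ⟨N, hN⟩ : ∃ N, N = A1 * (s : ℝ) ^ (4 / 3 : ℝ) := ⟨_, rfl⟩
  have hN0 : 0 ≤ N := by rw [hN]; positivity
  have hF : ENNReal.ofReal c1 ≤ gf (SF R N s) := by
    refine (ENNReal.ofReal_le_ofReal hc12).trans ((hS s hs2).trans (gf_mono ?_))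
    intro t ht
    rw [Set.mem_setOf_eq] at ht
    rw [hN]
    exact ht
  have h8s : 8 * s ≤ H * 2 ^ k := by
    have e1 : 8 * s = 2 ^ (r + 3) := by rw [hs, pow_add]; ring
    rw [e1]
    calc 2 ^ (r + 3) ≤ 2 ^ k := Nat.pow_le_pow_right (by norm_num) (by omega)
      _ = 1 * 2 ^ k := (one_mul _).symm
      _ ≤ H * 2 ^ k := Nat.mul_le_mul_right _ hH
  have hdiv : h / s ≤ H * 2 ^ (4 * i + q + 1) := by
    rw [Nat.div_le_iff_le_mul_add_pred (by omega)]
    have e1 : s * (H * 2 ^ (4 * i + q + 1)) = H * 2 ^ (k + i + 1) := by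
      rw [hs, hkr, show 3 * i + q + r + i + 1 = r + (4 * i + q + 1) by ring, pow_add 2 r]
      ring
    omega
  -- the number of letters of the chain
  have hlen : ((h / s : ℕ) : ℝ) * N ≤ a / 2 * m k := by
    have e1 : ((h / s : ℕ) : ℝ) ≤ H * 2 ^ (4 * i + q + 1) := by exact_mod_cast hdiv
    have e2 : (s : ℝ) ^ (4 / 3 : ℝ) = 2 ^ (4 / 3 * (r : ℝ)) := by
      rw [hs]
      push_cast
      rw [← Real.rpow_natCast, ← Real.rpow_mul (by norm_num)]
      congr 1
      ring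
    have e3 : (2 : ℝ) ^ (4 * i + q + 1) * 2 ^ (4 / 3 * (r : ℝ)) = 2 * 2 ^ (4 / 3 * (k : ℝ)) / 2 ^ (q' + 1) := by
      rw [eq_div_iff (by positivity)]
      rw [← Real.rpow_natCast 2 (4 * i + q + 1), ← Real.rpow_natCast 2 (q' + 1), ← Real.rpow_add (by norm_num),
        ← Real.rpow_add (by norm_num)]
      have : (2 : ℝ) * 2 ^ (4 / 3 * (k : ℝ)) = 2 ^ (1 + 4 / 3 * (k : ℝ)) := by
        rw [Real.rpow_add (by norm_num), Real.rpow_one]
      rw [this]
      congr 1
      rw [hkr, hq]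
      push_cast
      ring
    calc ((h / s : ℕ) : ℝ) * N ≤ H * 2 ^ (4 * i + q + 1) * (A1 * 2 ^ (4 / 3 * (r : ℝ))) := by
          rw [hN, e2]
          exact mul_le_mul_of_nonneg_right e1 (by positivity)
      _ = H * A1 * ((2 : ℝ) ^ (4 * i + q + 1) * 2 ^ (4 / 3 * (r : ℝ))) := by ring
      _ = (4 * H * A1 / (a * cm)) / 2 ^ (q' + 1) * (a / 2 * (cm * 2 ^ (4 / 3 * (k : ℝ)))) := by
          rw [e3]
          field_simp
          ring
      _ ≤ 1 * (a / 2 * (cm * 2 ^ (4 / 3 * (k : ℝ)))) := by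
          refine mul_le_mul_of_nonneg_right ?_ (by positivity)
          rw [div_le_one (by positivity)]
          refine hq'.trans ?_
          exact pow_le_pow_right₀ (by norm_num) (by omega)
      _ ≤ a / 2 * m k := by
          rw [one_mul]
          exact mul_le_mul_of_nonneg_left (hm k) (by positivity)
  have hmain := chain (am := a / 2 * m k) (Am := A * m k) (c := c1) (v := ENNReal.ofReal (c0 * (Ub k / (4 ^ k * m k))))
    hR hs1 h8s hc11 hN0 (by positivity) hF (fun h' b' x' g1 g2 g3 g4 g5 g6 g7 =>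
      hJ k h' b' x' (by omega) g1 g2 g3 g4 g5 g6 g7) h b x h1 h3 h4 h5 (by linarith) h7
  refine le_trans ?_ hmain
  rw [← ENNReal.ofReal_pow hc1.le, ← ENNReal.ofReal_mul (by positivity)]
  refine ENNReal.ofReal_le_ofReal ?_
  have hU : 0 ≤ Ub k / (4 ^ k * m k) := div_nonneg (Ub_pos k).le (by positivity)
  have e4 : Real.exp (-((H * 2 ^ (q + 1) * (-Real.log c1) + 1) * 16 ^ i)) ≤ c1 ^ (h / s) := by
    have g1 : c1 ^ (H * 2 ^ (4 * i + q + 1)) ≤ c1 ^ (h / s) := pow_le_pow_of_le_one hc1.le hc11 hdiv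
    refine le_trans ?_ g1
    have g2 : c1 ^ (H * 2 ^ (4 * i + q + 1)) = Real.exp (Real.log c1 * (H * 2 ^ (4 * i + q + 1) : ℕ)) := by
      rw [Real.exp_mul, Real.exp_log hc1, Real.rpow_natCast]
    rw [g2]
    refine Real.exp_le_exp.2 ?_
    push_cast
    have g3 : (2 : ℝ) ^ (4 * i + q + 1) = 16 ^ i * 2 ^ (q + 1) := by
      rw [show 4 * i + q + 1 = 4 * i + (q + 1) by ring, pow_add, pow_mul]
      norm_num
    rw [g3]
    have g4 : (0 : ℝ) < 16 ^ i := by positivity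
    nlinarith
  calc c0 * Real.exp (-((H * 2 ^ (q + 1) * (-Real.log c1) + 1) * 16 ^ i)) * (Ub k / (4 ^ k * m k)) ≤
      c0 * c1 ^ (h / s) * (Ub k / (4 ^ k * m k)) :=
        mul_le_mul_of_nonneg_right (mul_le_mul_of_nonneg_left e4 hc0.le) hU
    _ = c1 ^ (h / s) * (c0 * (Ub k / (4 ^ k * m k))) := by ring

end JNT

end HexObs
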