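import Pool.Agent.JNT.LowW
import Pool.Agent.JNT.ContM
import Pool.Agent.JNT.ExLen
import Pool.Agent.JNT.LowG
import Pool.Agent.JNT.LowStep

/-!
JNT, lower side, no hypothesis: the joint local lower bound (LowJ) and the lower bound in the cone (LowC) for the
scale m k = mZ (2 ^ k).
-/

set_option autoImplicit false

namespace HexObs

namespace JNT

/-- the exact order of the scales, in the form of the rows Q and W -/
theorem shp_M : Shp (fun k => PW.mZ (2 ^ k)) := by
  obtain ⟨c, C, hc, hC, h1⟩ := VF.mZ_two VF.sharpZ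
  refine ⟨c, C, hc, hC, fun k => ?_⟩
  have h2 := h1 (2 ^ k) Nat.one_le_two_pow
  push_cast at h2
  exact h2

/-- the upper bound of the mean length -/
theorem zUp_M : ∃ C : ℝ, 0 < C ∧ ∀ h : ℕ, 1 ≤ h → PW.mZ h ≤ C * (h : ℝ) ^ (4 / 3 : ℝ) := by
  obtain ⟨c, C, hc, hC, h1⟩ := VF.mZ_two VF.sharpZ
  exact ⟨C, hC, fun h hh => (h1 h hh).2⟩

/-- **the joint local lower bound**, no hypothesis -/
theorem lowJ_M : LowJ (fun k => PW.mZ (2 ^ k)) :=
  LoW.lowJ_of (fun k => NTA.mlow_M.pos k) shp_M joB_M tvx_M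
    (fun _ _ _ hR hβ => LoQ.qI_good (fun k => NTA.mlow_M.pos k) shp_M joB_M pairC_M zUp_M hR hβ) (exLen_M tvx_M)

/-- one step with few letters, no hypothesis -/
theorem stepC_M : StepC := stepC_of zUp_M

/-- **the lower bound in the cone, every number of letters**, no hypothesis -/
theorem lowC_M : LowC (fun k => PW.mZ (2 ^ k)) := by
  refine lowC_of lowJ_M stepC_M ?_
  obtain ⟨c, hc, h1⟩ := VF.mLow VF.sharpZ
  exact ⟨c, hc, h1⟩

end JNT

end HexObs
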