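import Pool.Agent.JNT.ExSaw

/-!
`exists_saw8` : for `n ≥ 8` every point `z ≠ 0` which is reached by a walk with `n` steps is reached by a self-avoiding
walk with `n` steps (for `|z| > 2` this is `exists_saw`, for every `n`).
-/

set_option autoImplicit false

open scoped Classical

namespace NTSZ.ExS

open Pool.Agent.NTS.Res

/-- target `(0, 1)`, length `4 k + 1`: right to `2 k`, up, left -/
lemma tA (k : ℕ) : ∃ S, P (0, 0) (0, 1) (4 * k + 1) S := by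
  have h1 := P_right 0 0 (2 * k)
  have h2 := P_up (0 + ((2 * k : ℕ) : ℤ)) 0 (by push_cast; omega)
  have h3 := P_left (0 + ((2 * k : ℕ) : ℤ)) (0 + 1) (2 * k)
  refine ⟨_, ((h1.app h2 ?_).app h3 ?_).cast ?_ ?_⟩
  · rintro ⟨a, b⟩ ⟨p1, p2, p3⟩ ⟨q1, q2⟩
    simp only at p1 p2 p3 q1 q2
    ext <;> simp only <;> omega
  · rintro ⟨a, b⟩ (⟨p1, p2, p3⟩ | ⟨p1, p2⟩) ⟨q1, q2, q3⟩
    · simp only at p1 p2 p3 q1 q2 q3
      ext <;> simp only <;> omega
    · simp only at p1 p2 q1 q2 q3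
      ext <;> simp only <;> omega
  · ext
    · simp only
      push_cast
      ring
    · simp only
      norm_num
  · ring

/-- target `(0, 1)`, length `4 k + 3`, `k ≥ 2`: right to `2 k`, up, left to `3`, up, left to `1`, down, left -/
lemma tB (k : ℕ) (hk : 2 ≤ k) : ∃ S, P (0, 0) (0, 1) (4 * k + 3) S := by
  have h1 := P_right 0 0 (2 * k)
  have h2 := P_up (0 + ((2 * k : ℕ) : ℤ)) 0 (by push_cast; omega)
  have h3 : P (0 + ((2 * k : ℕ) : ℤ), 0 + 1) (3, 1) (2 * k - 3) (fun p => p.2 = 1 ∧ 3 ≤ p.1 ∧ p.1 ≤ 2 * k) :=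
    ((P_left (0 + ((2 * k : ℕ) : ℤ)) (0 + 1) (2 * k - 3)).cast (by
      ext
      · simp only
        push_cast [Nat.cast_sub (show 3 ≤ 2 * k by omega)]
        ring
      · simp only
        norm_num) rfl).mono (by
      rintro ⟨a, b⟩ ⟨p1, p2, p3⟩
      simp only at p1 p2 p3 ⊢
      push_cast [Nat.cast_sub (show 3 ≤ 2 * k by omega)] at p2 p3
      omega)
  have h4 : P (3, 1) (3, 2) 1 (fun p => p.1 = 3 ∧ (p.2 = 1 ∨ p.2 = 2)) :=
    ((P_up 3 1 (by norm_num)).cast (by norm_num) rfl).mono (by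
      rintro ⟨a, b⟩ ⟨p1, p2⟩
      simp only at p1 p2 ⊢
      omega)
  have h5 : P (3, 2) (1, 2) 2 (fun p => p.2 = 2 ∧ 1 ≤ p.1 ∧ p.1 ≤ 3) :=
    ((P_left 3 2 2).cast (by norm_num) rfl).mono (by
      rintro ⟨a, b⟩ ⟨p1, p2, p3⟩
      simp only at p1 p2 p3 ⊢
      push_cast at p2
      omega)
  have h6 : P (1, 2) (1, 1) 1 (fun p => p.1 = 1 ∧ (p.2 = 2 ∨ p.2 = 1)) :=
    ((P_down 1 2 (by norm_num)).cast (by norm_num) rfl).mono (by
      rintro ⟨a, b⟩ ⟨p1, p2⟩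
      simp only at p1 p2 ⊢
      omega)
  have h7 : P (1, 1) (0, 1) 1 (fun p => p.2 = 1 ∧ 0 ≤ p.1 ∧ p.1 ≤ 1) :=
    ((P_left 1 1 1).cast (by norm_num) rfl).mono (by
      rintro ⟨a, b⟩ ⟨p1, p2, p3⟩
      simp only at p1 p2 p3 ⊢
      push_cast at p2
      omega)
  refine ⟨_, ((((((h1.app h2 ?_).app h3 ?_).app h4 ?_).app h5 ?_).app h6 ?_).app h7 ?_).cast rfl (by omega)⟩
  · rintro ⟨a, b⟩ ⟨p1, p2, p3⟩ ⟨q1, q2⟩
    simp only at p1 p2 p3 q1 q2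
    ext <;> simp only <;> omega
  · rintro ⟨a, b⟩ (⟨p1, p2, p3⟩ | ⟨p1, p2⟩) ⟨q1, q2, q3⟩
    · simp only at p1 p2 p3 q1 q2 q3
      ext <;> simp only <;> omega
    · simp only at p1 p2 q1 q2 q3
      ext <;> simp only <;> omega
  · rintro ⟨a, b⟩ ((⟨p1, p2, p3⟩ | ⟨p1, p2⟩) | ⟨p1, p2, p3⟩) ⟨q1, q2⟩
    · simp only at p1 p2 p3 q1 q2
      ext <;> simp only <;> omega
    · simp only at p1 p2 q1 q2
      push_cast at p1
      ext <;> simp only <;> omega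
    · simp only at p1 p2 p3 q1 q2
      ext <;> simp only <;> omega
  · rintro ⟨a, b⟩ (((⟨p1, p2, p3⟩ | ⟨p1, p2⟩) | ⟨p1, p2, p3⟩) | ⟨p1, p2⟩) ⟨q1, q2, q3⟩
    · simp only at p1 p2 p3 q1 q2 q3
      ext <;> simp only <;> omega
    · simp only at p1 p2 q1 q2 q3
      push_cast at p1
      ext <;> simp only <;> omega
    · simp only at p1 p2 p3 q1 q2 q3
      ext <;> simp only <;> omega
    · simp only at p1 p2 q1 q2 q3
      ext <;> simp only <;> omega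
  · rintro ⟨a, b⟩ ((((⟨p1, p2, p3⟩ | ⟨p1, p2⟩) | ⟨p1, p2, p3⟩) | ⟨p1, p2⟩) | ⟨p1, p2, p3⟩) ⟨q1, q2⟩
    · simp only at p1 p2 p3 q1 q2
      ext <;> simp only <;> omega
    · simp only at p1 p2 q1 q2
      push_cast at p1
      ext <;> simp only <;> omega
    · simp only at p1 p2 p3 q1 q2
      ext <;> simp only <;> omega
    · simp only at p1 p2 q1 q2
      ext <;> simp only <;> omega
    · simp only at p1 p2 p3 q1 q2
      ext <;> simp only <;> omega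
  · rintro ⟨a, b⟩ (((((⟨p1, p2, p3⟩ | ⟨p1, p2⟩) | ⟨p1, p2, p3⟩) | ⟨p1, p2⟩) | ⟨p1, p2, p3⟩) | ⟨p1, p2⟩) ⟨q1, q2, q3⟩
    · simp only at p1 p2 p3 q1 q2 q3
      ext <;> simp only <;> omega
    · simp only at p1 p2 q1 q2 q3
      push_cast at p1
      ext <;> simp only <;> omega
    · simp only at p1 p2 p3 q1 q2 q3
      ext <;> simp only <;> omega
    · simp only at p1 p2 q1 q2 q3
      ext <;> simp only <;> omega
    · simp only at p1 p2 p3 q1 q2 q3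
      ext <;> simp only <;> omega
    · simp only at p1 p2 q1 q2 q3
      ext <;> simp only <;> omega

/-- target `(2, 1)`, length `4 k + 1`, `k ≥ 2`: to `(1, 0)`, down, right to `(3, -1)`, up, right to `2 k`, up, left -/
lemma tC (k : ℕ) (hk : 2 ≤ k) : ∃ S, P (0, 0) (2, 1) (4 * k + 1) S := by
  have h1 : P (0, 0) (1, 0) 1 (fun p => p.2 = 0 ∧ 0 ≤ p.1 ∧ p.1 ≤ 1) :=
    ((P_right 0 0 1).cast (by norm_num) rfl).mono (by
      rintro ⟨a, b⟩ ⟨p1, p2, p3⟩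
      simp only at p1 p2 p3 ⊢
      push_cast at p3
      omega)
  have h2 : P (1, 0) (1, -1) 1 (fun p => p.1 = 1 ∧ (p.2 = 0 ∨ p.2 = -1)) :=
    ((P_down 1 0 (by norm_num)).cast (by norm_num) rfl).mono (by
      rintro ⟨a, b⟩ ⟨p1, p2⟩
      simp only at p1 p2 ⊢
      omega)
  have h3 : P (1, -1) (3, -1) 2 (fun p => p.2 = -1 ∧ 1 ≤ p.1 ∧ p.1 ≤ 3) :=
    ((P_right 1 (-1) 2).cast (by norm_num) rfl).mono (by
      rintro ⟨a, b⟩ ⟨p1, p2, p3⟩
      simp only at p1 p2 p3 ⊢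
      push_cast at p3
      omega)
  have h4 : P (3, -1) (3, 0) 1 (fun p => p.1 = 3 ∧ (p.2 = -1 ∨ p.2 = 0)) :=
    ((P_up 3 (-1) (by norm_num)).cast (by norm_num) rfl).mono (by
      rintro ⟨a, b⟩ ⟨p1, p2⟩
      simp only at p1 p2 ⊢
      omega)
  have h5 : P (3, 0) (2 * (k : ℤ), 0) (2 * k - 3) (fun p => p.2 = 0 ∧ 3 ≤ p.1 ∧ p.1 ≤ 2 * k) :=
    ((P_right 3 0 (2 * k - 3)).cast (by
      ext
      · simp only
        push_cast [Nat.cast_sub (show 3 ≤ 2 * k by omega)]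
        ring
      · rfl) rfl).mono (by
      rintro ⟨a, b⟩ ⟨p1, p2, p3⟩
      simp only at p1 p2 p3 ⊢
      push_cast [Nat.cast_sub (show 3 ≤ 2 * k by omega)] at p3
      omega)
  have h6 : P (2 * (k : ℤ), 0) (2 * (k : ℤ), 1) 1 (fun p => p.1 = 2 * k ∧ (p.2 = 0 ∨ p.2 = 1)) :=
    ((P_up (2 * (k : ℤ)) 0 (by omega)).cast (by norm_num) rfl).mono (by
      rintro ⟨a, b⟩ ⟨p1, p2⟩
      simp only at p1 p2 ⊢
      omega)
  have h7 : P (2 * (k : ℤ), 1) (2, 1) (2 * k - 2) (fun p => p.2 = 1 ∧ 2 ≤ p.1 ∧ p.1 ≤ 2 * k) :=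
    ((P_left (2 * (k : ℤ)) 1 (2 * k - 2)).cast (by
      ext
      · simp only
        push_cast [Nat.cast_sub (show 2 ≤ 2 * k by omega)]
        ring
      · rfl) rfl).mono (by
      rintro ⟨a, b⟩ ⟨p1, p2, p3⟩
      simp only at p1 p2 p3 ⊢
      push_cast [Nat.cast_sub (show 2 ≤ 2 * k by omega)] at p2
      omega)
  refine ⟨_, ((((((h1.app h2 ?_).app h3 ?_).app h4 ?_).app h5 ?_).app h6 ?_).app h7 ?_).cast rfl (by omega)⟩
  · rintro ⟨a, b⟩ ⟨p1, p2, p3⟩ ⟨q1, q2⟩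
    simp only at p1 p2 p3 q1 q2
    ext <;> simp only <;> omega
  · rintro ⟨a, b⟩ (⟨p1, p2, p3⟩ | ⟨p1, p2⟩) ⟨q1, q2, q3⟩
    · simp only at p1 p2 p3 q1 q2 q3
      ext <;> simp only <;> omega
    · simp only at p1 p2 q1 q2 q3
      ext <;> simp only <;> omega
  · rintro ⟨a, b⟩ ((⟨p1, p2, p3⟩ | ⟨p1, p2⟩) | ⟨p1, p2, p3⟩) ⟨q1, q2⟩
    · simp only at p1 p2 p3 q1 q2
      ext <;> simp only <;> omega
    · simp only at p1 p2 q1 q2
      ext <;> simp only <;> omega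
    · simp only at p1 p2 p3 q1 q2
      ext <;> simp only <;> omega
  · rintro ⟨a, b⟩ (((⟨p1, p2, p3⟩ | ⟨p1, p2⟩) | ⟨p1, p2, p3⟩) | ⟨p1, p2⟩) ⟨q1, q2, q3⟩
    · simp only at p1 p2 p3 q1 q2 q3
      ext <;> simp only <;> omega
    · simp only at p1 p2 q1 q2 q3
      ext <;> simp only <;> omega
    · simp only at p1 p2 p3 q1 q2 q3
      ext <;> simp only <;> omega
    · simp only at p1 p2 q1 q2 q3
      ext <;> simp only <;> omega
  · rintro ⟨a, b⟩ ((((⟨p1, p2, p3⟩ | ⟨p1, p2⟩) | ⟨p1, p2, p3⟩) | ⟨p1, p2⟩) | ⟨p1, p2, p3⟩) ⟨q1, q2⟩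
    · simp only at p1 p2 p3 q1 q2
      ext <;> simp only <;> omega
    · simp only at p1 p2 q1 q2
      ext <;> simp only <;> omega
    · simp only at p1 p2 p3 q1 q2
      ext <;> simp only <;> omega
    · simp only at p1 p2 q1 q2
      ext <;> simp only <;> omega
    · simp only at p1 p2 p3 q1 q2
      ext <;> simp only <;> omega
  · rintro ⟨a, b⟩ (((((⟨p1, p2, p3⟩ | ⟨p1, p2⟩) | ⟨p1, p2, p3⟩) | ⟨p1, p2⟩) | ⟨p1, p2, p3⟩) | ⟨p1, p2⟩) ⟨q1, q2, q3⟩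
    · simp only at p1 p2 p3 q1 q2 q3
      ext <;> simp only <;> omega
    · simp only at p1 p2 q1 q2 q3
      ext <;> simp only <;> omega
    · simp only at p1 p2 p3 q1 q2 q3
      ext <;> simp only <;> omega
    · simp only at p1 p2 q1 q2 q3
      ext <;> simp only <;> omega
    · simp only at p1 p2 p3 q1 q2 q3
      ext <;> simp only <;> omega
    · simp only at p1 p2 q1 q2 q3
      ext <;> simp only <;> omega

/-- target `(0, 1)`: every odd length `≥ 9` -/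
lemma ex01 (n : ℕ) (hn : 9 ≤ n) (ho : n % 2 = 1) : ∃ S, P (0, 0) (0, 1) n S := by
  rcases (by omega : n % 4 = 1 ∨ n % 4 = 3) with h | h
  · obtain ⟨S, hS⟩ := tA (n / 4)
    exact ⟨S, hS.cast rfl (by omega)⟩
  · obtain ⟨S, hS⟩ := tB (n / 4) (by omega)
    exact ⟨S, hS.cast rfl (by omega)⟩

/-- target `(2, 0)`: every even length `≥ 4` -/
lemma ex20 (n : ℕ) (hn : 4 ≤ n) (ho : n % 2 = 0) : ∃ S, P (0, 0) (2, 0) n S := by
  have h4 : P (2, 0) (2, 0) 0 R4 := (P_nil (2, 0)).mono (by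
    rintro p rfl
    exact Or.inl ⟨rfl, rfl⟩)
  have h3 : P (2, 0) (2, 0) 0 R3 := (P_nil (2, 0)).mono (by
    rintro p rfl
    exact Or.inl ⟨rfl, rfl⟩)
  rcases (by omega : n % 4 = 2 ∨ n % 4 = 0) with h | h
  · obtain ⟨S, hS⟩ := det_A h4 ((n - 6) / 4)
    exact ⟨S, hS.cast rfl (by omega)⟩
  · obtain ⟨S, hS⟩ := det_B h3 ((n - 4) / 4)
    exact ⟨S, hS.cast rfl (by omega)⟩

/-- target `(2, 1)`: every odd length `≥ 7` -/
lemma ex21 (n : ℕ) (hn : 7 ≤ n) (ho : n % 2 = 1) : ∃ S, P (0, 0) (2, 1) n S := by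
  rcases (by omega : n % 4 = 3 ∨ n % 4 = 1) with h | h
  · have hG : P (2, 0) (2, 1) 1 R4 := ((P_up 2 0 (by norm_num)).cast (by norm_num) rfl).mono (by
      rintro ⟨a, b⟩ ⟨p1, p2⟩
      simp only [R4] at p1 p2 ⊢
      omega)
    obtain ⟨S, hS⟩ := det_A hG ((n - 7) / 4)
    exact ⟨S, hS.cast rfl (by omega)⟩
  · obtain ⟨S, hS⟩ := tC (n / 4) (by omega)
    exact ⟨S, hS.cast rfl (by omega)⟩

/-- the self-avoiding walk of a path in the brick wall -/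
lemma key2 {a b c : Fin 3} (h : Dif a b c) {A B C : ℤ} {n : ℕ} (hs : A + B + C = (n : ℤ) % 2)
    (hP : ∃ S, P (0, 0) (A - B, C) n S) :
    ∃ s ∈ saw n, pos s n = (A : ℂ) * ee a + (B : ℂ) * ee b + (C : ℂ) * ee c := by
  obtain ⟨S, f, f0, fn, fA, -, fI⟩ := hP
  obtain ⟨s, hsw⟩ := word_of_path h f f0 fA
  refine ⟨s, ?_, ?_⟩
  · rw [saw, Finset.mem_filter]
    refine ⟨Finset.mem_univ _, ?_⟩
    intro j k hj hk he
    rw [hsw j hj, hsw k hk] at he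
    exact fI j hj k hk (J_inj h (by omega) (by omega) (by omega) (by omega) he)
  · rw [hsw n le_rfl, fn]
    exact J_word h hs

/-- **Existence of self-avoiding walks, all points**: for `n ≥ 8` every point different from the start which is reached
by a walk with `n` steps is reached by a self-avoiding walk with `n` steps. -/
theorem exists_saw8 (n : ℕ) (hn : 8 ≤ n) (z : ℂ) (hz : z ≠ 0) (h : ∃ s : Fin n → Fin 3, pos s n = z) :
    ∃ s ∈ saw n, pos s n = z := by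
  by_cases hz2 : 2 < ‖z‖
  · exact exists_saw n z hz2 h
  rw [not_lt] at hz2
  obtain ⟨s, rfl⟩ := h
  obtain ⟨u, v, w, h1, h2, -⟩ := letters s n le_rfl
  rw [h1] at hz hz2 ⊢
  have h4 : (u : ℝ) ^ 2 + (v : ℝ) ^ 2 + (w : ℝ) ^ 2 - u * v - v * w - u * w ≤ 4 := by
    rw [← nsq_letters]
    nlinarith [norm_nonneg ((u : ℂ) * ee 0 + (v : ℂ) * ee 1 + (w : ℂ) * ee 2)]
  have h5 : u ^ 2 + v ^ 2 + w ^ 2 - u * v - v * w - u * w ≤ (4 : ℤ) := by exact_mod_cast h4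
  have d012 : Dif 0 1 2 := by unfold Dif; decide
  have d021 : Dif 0 2 1 := by unfold Dif; decide
  have d102 : Dif 1 0 2 := by unfold Dif; decide
  have d120 : Dif 1 2 0 := by unfold Dif; decide
  have d201 : Dif 2 0 1 := by unfold Dif; decide
  have d210 : Dif 2 1 0 := by unfold Dif; decide
  have b1 : |u - v| ≤ 2 := by
    rw [abs_le]
    constructor <;> nlinarith [sq_nonneg (u - v), sq_nonneg (v - w), sq_nonneg (u - w), sq_nonneg (u + v - 2 * w)]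
  have b2 : |v - w| ≤ 2 := by
    rw [abs_le]
    constructor <;> nlinarith [sq_nonneg (u - v), sq_nonneg (v - w), sq_nonneg (u - w), sq_nonneg (v + w - 2 * u)]
  have b3 : |u - w| ≤ 2 := by
    rw [abs_le]
    constructor <;> nlinarith [sq_nonneg (u - v), sq_nonneg (v - w), sq_nonneg (u - w), sq_nonneg (u + w - 2 * v)]
  rw [abs_le] at b1 b2 b3
  rcases (by omega : n % 2 = 1 ∨ n % 2 = 0) with ho | ho
  · have hs : u + v + w = 1 := by omega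
    have hn' : (n : ℤ) % 2 = 1 := by omega
    have e01 := ex01 n (by omega) ho
    have e21 := ex21 n (by omega) ho
    have k1 : ∀ {a b c : Fin 3}, Dif a b c → ∃ s ∈ saw n, pos s n = ((0 : ℤ) : ℂ) * ee a + ((0 : ℤ) : ℂ) * ee b + ((1 : ℤ) : ℂ) * ee c :=
      fun hd => key2 hd (by omega) e01
    have k2 : ∀ {a b c : Fin 3}, Dif a b c → ∃ s ∈ saw n, pos s n = ((1 : ℤ) : ℂ) * ee a + ((-1 : ℤ) : ℂ) * ee b + ((1 : ℤ) : ℂ) * ee c :=
      fun hd => key2 hd (by omega) e21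
    have cases : (u = 0 ∧ v = 0 ∧ w = 1) ∨ (u = 0 ∧ v = 1 ∧ w = 0) ∨ (u = 1 ∧ v = 0 ∧ w = 0) ∨
        (u = 1 ∧ v = -1 ∧ w = 1) ∨ (u = 1 ∧ v = 1 ∧ w = -1) ∨ (u = -1 ∧ v = 1 ∧ w = 1) := by
      have u1 : -1 ≤ u := by omega
      have u2 : u ≤ 1 := by omega
      have v1 : -1 ≤ v := by omega
      have v2 : v ≤ 1 := by omega
      have w1 : w = 1 - u - v := by omega
      subst w1
      interval_cases u <;> interval_cases v <;> omega
    rcases cases with ⟨rfl, rfl, rfl⟩ | ⟨rfl, rfl, rfl⟩ | ⟨rfl, rfl, rfl⟩ | ⟨rfl, rfl, rfl⟩ | ⟨rfl, rfl, rfl⟩ | ⟨rfl, rfl, rfl⟩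
    · obtain ⟨s, hs, he⟩ := k1 d012
      exact ⟨s, hs, he.trans (by push_cast; ring)⟩
    · obtain ⟨s, hs, he⟩ := k1 d021
      exact ⟨s, hs, he.trans (by push_cast; ring)⟩
    · obtain ⟨s, hs, he⟩ := k1 d120
      exact ⟨s, hs, he.trans (by push_cast; ring)⟩
    · obtain ⟨s, hs, he⟩ := k2 d012
      exact ⟨s, hs, he.trans (by push_cast; ring)⟩
    · obtain ⟨s, hs, he⟩ := k2 d021
      exact ⟨s, hs, he.trans (by push_cast; ring)⟩
    · obtain ⟨s, hs, he⟩ := k2 d102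
      exact ⟨s, hs, he.trans (by push_cast; ring)⟩
  · have hs : u + v + w = 0 := by omega
    have hn' : (n : ℤ) % 2 = 0 := by omega
    have e20 := ex20 n (by omega) ho
    have k1 : ∀ {a b c : Fin 3}, Dif a b c → ∃ s ∈ saw n, pos s n = ((1 : ℤ) : ℂ) * ee a + ((-1 : ℤ) : ℂ) * ee b + ((0 : ℤ) : ℂ) * ee c :=
      fun hd => key2 hd (by omega) e20
    have cases : (u = 0 ∧ v = 0 ∧ w = 0) ∨ (u = 1 ∧ v = -1 ∧ w = 0) ∨ (u = -1 ∧ v = 1 ∧ w = 0) ∨ (u = 1 ∧ v = 0 ∧ w = -1) ∨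
        (u = -1 ∧ v = 0 ∧ w = 1) ∨ (u = 0 ∧ v = 1 ∧ w = -1) ∨ (u = 0 ∧ v = -1 ∧ w = 1) := by
      have u1 : -1 ≤ u := by omega
      have u2 : u ≤ 1 := by omega
      have v1 : -1 ≤ v := by omega
      have v2 : v ≤ 1 := by omega
      have w1 : w = 0 - u - v := by omega
      subst w1
      interval_cases u <;> interval_cases v <;> omega
    rcases cases with ⟨rfl, rfl, rfl⟩ | ⟨rfl, rfl, rfl⟩ | ⟨rfl, rfl, rfl⟩ | ⟨rfl, rfl, rfl⟩ | ⟨rfl, rfl, rfl⟩ | ⟨rfl, rfl, rfl⟩ |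
      ⟨rfl, rfl, rfl⟩
    · exfalso
      exact hz (by simp)
    · obtain ⟨s, hs, he⟩ := k1 d012
      exact ⟨s, hs, he.trans (by push_cast; ring)⟩
    · obtain ⟨s, hs, he⟩ := k1 d102
      exact ⟨s, hs, he.trans (by push_cast; ring)⟩
    · obtain ⟨s, hs, he⟩ := k1 d021
      exact ⟨s, hs, he.trans (by push_cast; ring)⟩
    · obtain ⟨s, hs, he⟩ := k1 d201
      exact ⟨s, hs, he.trans (by push_cast; ring)⟩
    · obtain ⟨s, hs, he⟩ := k1 d120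
      exact ⟨s, hs, he.trans (by push_cast; ring)⟩
    · obtain ⟨s, hs, he⟩ := k1 d210
      exact ⟨s, hs, he.trans (by push_cast; ring)⟩

end NTSZ.ExS
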