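import Pool.Agent.POL.ArcW
import Pool.Agent.NTA.TbM

/-!
JNT, LOC2: the arcs of POL (row ARC, helper51) with an upper bound for the place of the window (copy of POL.arcs with one
more line).
-/

set_option autoImplicit false

namespace HexObs

namespace POL

open Finset TS SDN NTA NTA.C1 NTW

open scoped ENNReal

/-- **arcs with a foot in a window, the window at most K1 scales away** -/
theorem arcsU {m : ℕ → ℝ} (hm : MLow m) (hu : MUp m) (hB : TB m) (hQ : LongQ m) : ∃ (η L C K1 : ℝ), 0 < η ∧ 0 < L ∧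
    0 < C ∧ 0 < K1 ∧
    (∀ (δ : ℝ) (i d : ℕ), 5 ≤ i → gf (AT m i d δ L) ≤ ENNReal.ofReal (C * (2 : ℝ) ^ (-((i : ℝ) / 4)))) ∧
    ∀ δ : ℝ, 0 < δ → δ ≤ 1 → ∃ (c : ℝ) (i0 : ℕ), 0 < c ∧ ∀ i : ℕ, i0 ≤ i → ∃ d : ℕ, η * 2 ^ i ≤ d ∧
      (d : ℝ) ≤ K1 * 2 ^ i ∧ ENNReal.ofReal (c * (2 : ℝ) ^ (-((i : ℝ) / 4))) ≤ gf (AT m i d δ L) := by
  classical
  have hx := xc_pos
  obtain ⟨η, c, K, T0, hη, hc, hK, hT0, hw⟩ := NTW.Wide.wide
  obtain ⟨Ka, hKa, hmass⟩ := arc_mass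
  obtain ⟨R, hR, htail⟩ := arc_tail hm hu hB hQ
  obtain ⟨lam, hlam⟩ : ∃ lam : ℝ, lam = 1 + 12 * R / (xc * c) := ⟨_, rfl⟩
  have hlam1 : 1 ≤ lam := by
    rw [hlam]
    have : 0 ≤ 12 * R / (xc * c) := by positivity
    linarith
  have hlam2 : 1 / xc * (R * 3 / lam ^ 2 + R * 3 / lam ^ 2) ≤ c / 2 := by
    have h1 : 12 * R / (xc * c) ≤ lam ^ 2 := by
      have : 12 * R / (xc * c) ≤ lam := by rw [hlam]; linarith
      nlinarith
    rw [div_le_iff₀ (by positivity)] at h1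
    have h2 : 1 / xc * (R * 3 / lam ^ 2 + R * 3 / lam ^ 2) = 6 * R / (xc * lam ^ 2) := by
      field_simp
      ring
    rw [h2, div_le_iff₀ (by positivity)]
    nlinarith
  -- the arcs of a scale are pairs of leaves
  have hcls : ∀ (i a : ℕ) (t : List Bool), t ∈ NTW.Wide.AW (2 ^ (i + 5)) (2 * 2 ^ (i + 5)) a → t ∈ Ark (2 ^ (i + 6)) ∧
      ∃ j, 1 ≤ j ∧ j ≤ t.length ∧ 3 * ((2 ^ (i + 5) : ℕ) : ℤ) + 2 ≤ lev t j := by
    intro i a t ht
    have e : 2 * 2 ^ (i + 5) = 2 ^ (i + 6) := by ring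
    rw [e] at ht
    exact ark_high ht
  have hmono : ∀ i : ℕ, m i ≤ m (i + 5) := by
    intro i
    have h1 := hm.low i 5
    have h2 : (1 : ℝ) ≤ (2 : ℝ) ^ (5 / 4 * ((5 : ℕ) : ℝ)) := Real.one_le_rpow (by norm_num) (by norm_num)
    have h3 := hm.pos i
    nlinarith
  refine ⟨η, 2 * lam, 3 * Ka / xc, η + 2 * K + 4, hη, by positivity, by positivity, by positivity, ?_,
    fun δ hδ hδ1 => ?_⟩
  · intro δ i d hi
    obtain ⟨i, rfl⟩ : ∃ i', i = i' + 5 := ⟨i - 5, by omega⟩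
    refine (arc_gf (i := i) (A := AT m (i + 5) d δ (2 * lam)) ?_).trans ?_
    · rintro t ⟨a, -, -, h, -⟩
      exact hcls i a t h
    · refine (mul_le_mul_right (hmass i) _).trans ?_
      rw [← ENNReal.ofReal_mul (by positivity)]
      apply ENNReal.ofReal_le_ofReal
      have h1 := q5 i
      calc 1 / xc * (Ka * (2 : ℝ) ^ (-((i : ℝ) / 4))) ≤ 1 / xc * (Ka * (3 * (2 : ℝ) ^ (-(((i + 5 : ℕ) : ℝ) / 4)))) := by
            gcongr
        _ = _ := by ring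
  -- the windows
  obtain ⟨nw, hnw⟩ : ∃ nw : ℕ, nw = ⌈2 * K / δ⌉₊ + 1 := ⟨_, rfl⟩
  have hnw0 : (0 : ℝ) < nw := by rw [hnw]; positivity
  obtain ⟨t1, ht1⟩ := exists_nat_ge (2 / δ)
  refine ⟨c / (4 * nw), max (max T0 t1) 5, by positivity, fun i hi => ?_⟩
  have hiT : T0 ≤ i := (le_max_left _ _).trans ((le_max_left _ _).trans hi)
  have hit : t1 ≤ i := (le_max_right _ _).trans ((le_max_left _ _).trans hi)
  have hi5 : 5 ≤ i := (le_max_right _ _).trans hi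
  have hi2 : i < 2 ^ i := Nat.lt_two_pow_self
  have hTT : T0 ≤ 2 ^ i := by omega
  obtain ⟨T, hT⟩ : ∃ T : ℕ, T = 2 ^ i := ⟨_, rfl⟩
  have hTr : (T : ℝ) = 2 ^ i := by rw [hT]; push_cast; rfl
  have hT1 : (0 : ℝ) < T := by rw [hTr]; positivity
  have hδT : 2 ≤ δ * T := by
    have h1 : (t1 : ℝ) ≤ T := by
      have : t1 ≤ T := by rw [hT]; omega
      exact_mod_cast this
    have h2 := ht1.trans h1
    rw [div_le_iff₀ hδ] at h2
    linarith
  obtain ⟨q, hq⟩ : ∃ q : ℕ, q = ⌊δ * T⌋₊ := ⟨_, rfl⟩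
  have hq1 : (q : ℝ) ≤ δ * T := by rw [hq]; exact Nat.floor_le (by positivity)
  have hq2 : δ * T / 2 ≤ q := by
    have h2 := Nat.lt_floor_add_one (δ * T)
    rw [← hq] at h2
    linarith
  have hq0 : 1 ≤ q := by
    by_contra h
    have : q = 0 := by omega
    rw [this] at hq2
    push_cast at hq2
    linarith
  obtain ⟨d0, hd0⟩ : ∃ d0 : ℕ, d0 = ⌈η * T⌉₊ := ⟨_, rfl⟩
  have hd1 : η * T ≤ d0 := by rw [hd0]; exact Nat.le_ceil _
  obtain ⟨I, hI⟩ : ∃ I : Finset ℕ, I = (range (K * T)).filter (fun k : ℕ => η * T ≤ (k : ℝ) + 1) := ⟨_, rfl⟩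
  have hwide := hw T (by rw [hT]; exact hTT)
  rw [← hI, hT, pow_quarter, ← hT] at hwide
  obtain ⟨p, hp⟩ : ∃ p : ℝ, p = (2 : ℝ) ^ (-((i : ℝ) / 4)) := ⟨_, rfl⟩
  have hp0 : 0 < p := by rw [hp]; positivity
  rw [← hp] at hwide ⊢
  -- long arcs
  obtain ⟨Lo, hLo⟩ : ∃ Lo : ℕ → Set (List Bool), Lo = fun k =>
    {t | t ∈ NTW.Wide.AW T (2 * T) (k + 1) ∧ 2 * lam * m i < (t.length : ℝ)} := ⟨_, rfl⟩
  obtain ⟨Sh, hSh⟩ : ∃ Sh : ℕ → Set (List Bool), Sh = fun k =>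
    {t | t ∈ NTW.Wide.AW T (2 * T) (k + 1) ∧ (t.length : ℝ) ≤ 2 * lam * m i} := ⟨_, rfl⟩
  have hsplit : ∑ k ∈ I, gf (NTW.Wide.AW T (2 * T) (k + 1)) ≤ ∑ k ∈ I, gf (Sh k) + ∑ k ∈ I, gf (Lo k) := by
    rw [← Finset.sum_add_distrib]
    refine Finset.sum_le_sum fun k _ => (gf_mono ?_).trans (gf_union_le _ _)
    intro t ht
    rw [hSh, hLo]
    rcases le_or_gt (t.length : ℝ) (2 * lam * m i) with h | h
    · exact Or.inl ⟨ht, h⟩
    · exact Or.inr ⟨ht, h⟩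
  have hdisj : ∀ k l t, t ∈ NTW.Wide.AW T (2 * T) (k + 1) → t ∈ NTW.Wide.AW T (2 * T) (l + 1) → k = l := by
    intro k l t h1 h2
    have e1 := h1.1.2
    have e2 := h2.1.2
    have e3 := foot_inj (a := k + 1) (b := l + 1) (e1.symm.trans e2)
    omega
  have hlong : ∑ k ∈ I, gf (Lo k) ≤ ENNReal.ofReal (c / 2 * p) := by
    obtain ⟨i', rfl⟩ : ∃ i', i = i' + 5 := ⟨i - 5, by omega⟩
    refine (BAR.gf_bi_eq I Lo fun k l t h1 h2 => ?_).trans ?_
    · rw [hLo] at h1 h2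
      exact hdisj k l t h1.1 h2.1
    · refine (arc_long (i := i') (y := lam * m i') ?_ ?_).trans ?_
      · intro t ht
        rw [Set.mem_iUnion₂] at ht
        obtain ⟨k, -, hk⟩ := ht
        rw [hLo] at hk
        have h1 := hk.1
        rw [hT] at h1
        exact hcls i' _ t h1
      · intro t ht
        rw [Set.mem_iUnion₂] at ht
        obtain ⟨k, -, hk⟩ := ht
        rw [hLo] at hk
        have h1 := hk.2
        have h2 := hmono i'
        nlinarith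
      · obtain ⟨r1, r2⟩ := htail i' lam hlam1
        refine (mul_le_mul_right (add_le_add r1 r2) _).trans ?_
        rw [← ENNReal.ofReal_add (by positivity) (by positivity), ← ENNReal.ofReal_mul (by positivity)]
        apply ENNReal.ofReal_le_ofReal
        have h1 := q5 i'
        rw [← hp] at h1
        calc 1 / xc * (R * (2 : ℝ) ^ (-((i' : ℝ) / 4)) / lam ^ 2 + R * (2 : ℝ) ^ (-((i' : ℝ) / 4)) / lam ^ 2)
            ≤ 1 / xc * (R * (3 * p) / lam ^ 2 + R * (3 * p) / lam ^ 2) := by gcongr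
          _ = 1 / xc * (R * 3 / lam ^ 2 + R * 3 / lam ^ 2) * p := by ring
          _ ≤ _ := mul_le_mul_of_nonneg_right hlam2 hp0.le
  have hshort : ENNReal.ofReal (c / 2 * p) ≤ ∑ k ∈ I, gf (Sh k) := by
    have h1 := hwide.trans (hsplit.trans (add_le_add le_rfl hlong))
    have e1 : c * p = c / 2 * p + c / 2 * p := by ring
    rw [e1, ENNReal.ofReal_add (by positivity) (by positivity)] at h1
    exact (ENNReal.add_le_add_iff_right ENNReal.ofReal_ne_top).1 h1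
  -- the windows
  have hwin : ∑ k ∈ I, gf (Sh k) ≤ ∑ r ∈ range nw, gf (AT m i (d0 + r * q) δ (2 * lam)) := by
    refine (BAR.gf_bi_eq I Sh fun k l t h1 h2 => ?_).trans ((gf_mono ?_).trans (BAR.gf_bi_le _ _))
    · rw [hSh] at h1 h2
      exact hdisj k l t h1.1 h2.1
    · intro t ht
      rw [Set.mem_iUnion₂] at ht ⊢
      obtain ⟨k, hk, hkt⟩ := ht
      rw [hI, Finset.mem_filter, Finset.mem_range] at hk
      rw [hSh] at hkt
      have hk1 : d0 ≤ k + 1 := by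
        rw [hd0]
        exact Nat.ceil_le.2 (by push_cast; exact hk.2)
      obtain ⟨r, hr⟩ : ∃ r, r = (k + 1 - d0) / q := ⟨_, rfl⟩
      have hr1 : r * q ≤ k + 1 - d0 := by rw [hr]; exact Nat.div_mul_le_self _ _
      have hr2 : k + 1 - d0 < r * q + q := by
        rw [hr]
        exact Nat.lt_div_mul_add hq0
      have hrn : r < nw := by
        have h1 : (r : ℝ) * q ≤ K * T := by
          have : r * q ≤ K * T := by omega
          exact_mod_cast this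
        have h2 : (r : ℝ) * (δ * T / 2) ≤ K * T := (mul_le_mul_of_nonneg_left hq2 (Nat.cast_nonneg r)).trans h1
        have h3 : (r : ℝ) ≤ 2 * K / δ := by
          rw [le_div_iff₀ hδ]
          have h4 : (r : ℝ) * δ * T ≤ 2 * K * T := by nlinarith
          exact le_of_mul_le_mul_right h4 hT1
        have h4 : (r : ℝ) ≤ (⌈2 * K / δ⌉₊ : ℝ) := h3.trans (Nat.le_ceil _)
        have h5 : r ≤ ⌈2 * K / δ⌉₊ := by exact_mod_cast h4
        omega
      refine ⟨r, Finset.mem_range.2 hrn, k + 1, by omega, ?_, ?_, hkt.2⟩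
      · have h1 : k + 1 ≤ d0 + r * q + q := by omega
        have h2 : ((k + 1 : ℕ) : ℝ) ≤ ((d0 + r * q : ℕ) : ℝ) + q := by exact_mod_cast h1
        rw [← hTr]
        linarith
      · have h1 := hkt.1
        rw [hT] at h1
        exact h1
  by_contra hcon
  push Not at hcon
  have h1 : ∀ r ∈ range nw, gf (AT m i (d0 + r * q) δ (2 * lam)) ≤ ENNReal.ofReal (c / (4 * nw) * p) := by
    intro r hr'
    refine (hcon (d0 + r * q) ?_ ?_).le
    · rw [← hTr]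
      push_cast
      have : (0 : ℝ) ≤ (r : ℝ) * q := by positivity
      linarith
    · rw [← hTr]
      push_cast
      have g1 : (d0 : ℝ) ≤ η * T + 1 := by
        rw [hd0]
        exact (Nat.ceil_lt_add_one (by positivity)).le
      have g2 : (r : ℝ) ≤ 2 * K / δ + 1 := by
        have g3 : r ≤ ⌈2 * (K : ℝ) / δ⌉₊ := by
          have := Finset.mem_range.1 hr'
          omega
        have g4 : (r : ℝ) ≤ (⌈2 * (K : ℝ) / δ⌉₊ : ℝ) := by exact_mod_cast g3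
        exact g4.trans (Nat.ceil_lt_add_one (by positivity)).le
      have g5 : (r : ℝ) * q ≤ (2 * K / δ + 1) * (δ * T) := by gcongr
      have g6 : (2 * K / δ + 1) * (δ * T) = 2 * K * T + δ * T := by
        field_simp
      have g7 : δ * T ≤ T := by nlinarith
      have g8 : (1 : ℝ) ≤ T := by
        have : 1 ≤ T := by rw [hT]; exact Nat.one_le_two_pow
        exact_mod_cast this
      nlinarith
  have h2 := hshort.trans (hwin.trans (Finset.sum_le_sum h1))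
  rw [Finset.sum_const, Finset.card_range, nsmul_eq_mul, ← ENNReal.ofReal_natCast, ← ENNReal.ofReal_mul (by positivity),
    ENNReal.ofReal_le_ofReal_iff (by positivity)] at h2
  have h3 : (nw : ℝ) * (c / (4 * nw) * p) = c / 4 * p := by field_simp
  rw [h3] at h2
  have : 0 < c * p := by positivity
  linarith

/-- **no hypothesis** -/
theorem arcsU_M : ∃ (η L C K1 : ℝ), 0 < η ∧ 0 < L ∧ 0 < C ∧ 0 < K1 ∧
    (∀ (δ : ℝ) (i d : ℕ), 5 ≤ i →
      gf (AT (fun k => PW.mZ (2 ^ k)) i d δ L) ≤ ENNReal.ofReal (C * (2 : ℝ) ^ (-((i : ℝ) / 4)))) ∧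
    ∀ δ : ℝ, 0 < δ → δ ≤ 1 → ∃ (c : ℝ) (i0 : ℕ), 0 < c ∧ ∀ i : ℕ, i0 ≤ i → ∃ d : ℕ, η * 2 ^ i ≤ d ∧
      (d : ℝ) ≤ K1 * 2 ^ i ∧ ENNReal.ofReal (c * (2 : ℝ) ^ (-((i : ℝ) / 4))) ≤
        gf (AT (fun k => PW.mZ (2 ^ k)) i d δ L) :=
  arcsU mlow_M mup_M tb_M (longQ mlow_M mup_M tb_M)

end POL

end HexObs
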