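import Pool.Agent.JNT.LocLow
import Pool.Agent.JNT.Low2Defs
import Pool.Agent.NTA.Quan
import Pool.Agent.NTA.XDbl
import Pool.Agent.NTA.HalfT

/-!
JNT, lower side, row X3 (helper14): the pointwise lower bound for every point at a distance of the order of the scale: the
last half plane word carries the letters (NcH), the bridge is at a smaller scale (LowC).
-/

set_option autoImplicit false

namespace HexObs

namespace JNT

open Finset TS SDN NTW NTA PtC RP

open scoped ENNReal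

open LL

/-- **row X3: the pointwise lower bound, words, close points** -/
theorem locE_of {m : ℕ → ℝ} (hm : MLow m) (hup : MUp m) (hL : LowC m) (hN : NcP m) (hH : NcH m) (hJ : JCnt) : LocE m := by
  classical
  intro e K he heK
  obtain ⟨C, hC, hpow⟩ := hup.pow
  obtain ⟨CX, hCX, hXp⟩ := xDbl.pow
  obtain ⟨c1, D, k1, hc1, hN⟩ := hN (1 / 8) (by norm_num)
  obtain ⟨Hc, cc, Cc, a0, hHc, hcc, hCc, hL⟩ := hL 4 (1 / 2) 2 (by norm_num) (by norm_num) (by norm_num)
  obtain ⟨H, hH0⟩ : ∃ H : ℕ, H = 3 * (8 * 2 ^ D * Hc) + 2 * 2 ^ D + 2 := ⟨_, rfl⟩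
  have hH1 : 1 ≤ H := by omega
  -- the scales
  obtain ⟨j, hj1, hjH⟩ : ∃ j : ℕ, 1 ≤ j ∧ (H : ℝ) ≤ e * 2 ^ j := by
    obtain ⟨j, hj⟩ := pow_unbounded_of_one_lt ((H : ℝ) / e) (show (1 : ℝ) < 2 by norm_num)
    refine ⟨j + 1, by omega, ?_⟩
    rw [div_lt_iff₀ he] at hj
    rw [pow_succ]
    nlinarith [show (0 : ℝ) < 2 ^ j by positivity]
  obtain ⟨i, hi⟩ : ∃ i : ℕ, K * 2 ^ j ≤ 2 ^ i := by
    obtain ⟨i, hi⟩ := pow_unbounded_of_one_lt (K * 2 ^ j) (show (1 : ℝ) < 2 by norm_num)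
    exact ⟨i, hi.le⟩
  obtain ⟨e', he'⟩ : ∃ e' : ℝ, e' = 1 / (4 * (2 * C) ^ j) := ⟨_, rfl⟩
  have he0 : 0 < e' := by rw [he']; positivity
  have he1 : e' * C ^ j ≤ 1 / 4 := by
    rw [he', mul_pow, div_mul_eq_mul_div, one_mul, div_le_iff₀ (by positivity)]
    have h2 : (1 : ℝ) ≤ 2 ^ j := one_le_pow₀ (by norm_num)
    have h3 : (0 : ℝ) < C ^ j := by positivity
    nlinarith
  have he2 : e' * 2 ^ j ≤ 1 := by
    rw [he', mul_pow, div_mul_eq_mul_div, one_mul, div_le_iff₀ (by positivity)]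
    have h2 : (1 : ℝ) ≤ C ^ j := one_le_pow₀ hC
    have h3 : (0 : ℝ) < 2 ^ j := by positivity
    nlinarith
  obtain ⟨c2, k2, hc2, hH⟩ := hH e' (C + 1) he0 (by linarith)
  obtain ⟨k3, hk3⟩ := pow_unbounded_of_one_lt (2 / m 0) (show (1 : ℝ) < 2 by norm_num)
  obtain ⟨g0, hg0⟩ : ∃ g0 : ℝ, g0 = cc * Real.exp (-(Cc * 16 ^ (i + (D + 3)))) := ⟨_, rfl⟩
  have hg00 : 0 < g0 := by rw [hg0]; positivity
  refine ⟨c1 * c2 * g0 / (12 * 2 ^ j * CX ^ j), j + (3 * (i + (D + 3)) + a0) + k1 + k2 + k3, by positivity, ?_⟩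
  intro k0 n x hk hn1 hn2 hx1 hx2 hx3 hpar
  obtain ⟨k, rfl⟩ : ∃ k : ℕ, k0 = k + j := ⟨k0 - j, by omega⟩
  -- numbers
  have hmk : 0 < m k := hm.pos k
  have hm1 : m (k + j) ≤ C ^ j * m k := hpow k j
  have hm2 : 2 * m k ≤ m (k + j) := by
    have h1 := hm.two k j
    have h2 : (2 : ℝ) ≤ 2 ^ j := by
      calc (2 : ℝ) = 2 ^ 1 := (pow_one _).symm
        _ ≤ 2 ^ j := pow_le_pow_right₀ (by norm_num) hj1
    nlinarith
  have hm3 : 2 ≤ m k := by
    have h1 := hm.two 0 k
    rw [zero_add] at h1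
    have h2 : (2 : ℝ) ^ k3 ≤ 2 ^ k := pow_le_pow_right₀ (by norm_num) (by omega)
    have h3 := hm.pos 0
    rw [div_lt_iff₀ h3] at hk3
    nlinarith
  have hm4 : m (k + j + 1) ≤ C * m (k + j) := by
    have := hpow (k + j) 1
    rwa [pow_one] at this
  have hmj : 0 < m (k + j) := hm.pos _
  have he3 : e' * m (k + j) ≤ 1 / 4 * m k := by
    calc e' * m (k + j) ≤ e' * (C ^ j * m k) := by gcongr
      _ = e' * C ^ j * m k := by ring
      _ ≤ _ := by gcongr
  have hc0 := Nat.le_ceil (m k)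
  have hc3 := Nat.ceil_lt_add_one hmk.le
  obtain ⟨w, hw⟩ : ∃ w : ℕ, w = ⌈m k⌉₊ := ⟨_, rfl⟩
  rw [← hw] at hc0 hc3
  have hwn : w ≤ n + 1 := by
    have : (w : ℝ) ≤ ((n + 1 : ℕ) : ℝ) := by
      push_cast
      linarith
    exact_mod_cast this
  obtain ⟨b0, hb0⟩ : ∃ b0 : ℕ, b0 + w = n + 1 := ⟨n + 1 - w, by omega⟩
  have hb0R : (b0 : ℝ) + w = n + 1 := by exact_mod_cast hb0
  obtain ⟨P, hP⟩ : ∃ P : Set (List Bool), P = {A : List Bool | A ∈ BAR.HiN A.length ∧ A.length % 2 = 1 ∧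
    (A.length : ℝ) ≤ 1 / 8 * m k ∧ ∀ dir : Bool, |lvl dir (en A)| ≤ 2 ^ (k + D)} := ⟨_, rfl⟩
  obtain ⟨Q, hQ⟩ : ∃ Q : Set (List Bool), Q = {F : List Bool | F ∈ BAR.HiN F.length ∧ F.length % 2 = n % 2 ∧
    b0 ≤ F.length ∧ (F.length : ℝ) ≤ b0 + e' * m (k + j) ∧
      ∀ dir : Bool, ((|lvl dir (en F)| : ℤ) : ℝ) ≤ e' * 2 ^ (k + j)} := ⟨_, rfl⟩
  have hPm : ENNReal.ofReal c1 * Xb k ≤ gf P := by
    rw [hP]
    exact hN k 1 (by omega) (by norm_num)
  have hQm : ENNReal.ofReal c2 * Xb (k + j) ≤ gf Q := by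
    rw [hQ]
    refine hH (k + j) b0 (n % 2) (by omega) (Nat.mod_lt _ (by norm_num)) ?_ ?_
    · linarith
    · nlinarith
  have hJ := hJ n x P Q (by rw [hP]; exact fun A hA => ⟨hA.1, hA.2.1⟩) (by rw [hQ]; exact fun A hA => hA.1)
  obtain ⟨g, hg⟩ : ∃ g : ℝ≥0∞, g = ENNReal.ofReal (g0 * (Ub k / (4 ^ k * m k))) := ⟨_, rfl⟩
  have key : gf P * gf Q * g ≤ 12 * gf {t | t ∈ SawN n ∧ (vx oo up t n = x ∨ vx oo up t n = r3 x ∨
      vx oo up t n = r3 (r3 x))} := by
    refine le_trans ?_ hJ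
    refine le_trans (sum_low (Φ := fun A Z B => Z ∈ BU ∧ A.length + Z.length + B.length = n + 1 ∧
      en A - up + en Z + en B = x) (g := g) ?_) ?_
    · intro A hA B hB
      rw [hP] at hA
      rw [hQ] at hB
      obtain ⟨-, hA2, hA3, hA4⟩ := hA
      obtain ⟨-, hB2, hB3, hB3', hB4⟩ := hB
      -- levels
      have la := lev_mod A A.length
      have lb := lev_mod B B.length
      have ea : lev A A.length = (en A).1 + 2 * (en A).2 := ip_up (en A)
      have eb : lev B B.length = (en B).1 + 2 * (en B).2 := ip_up (en B)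
      rw [ea, if_neg (by rw [Nat.even_iff]; omega)] at la
      rw [eb] at lb
      rw [ip_up] at hx1 hx2 hpar hx3
      have hxc : cross up x = -x.1 := by
        unfold cross up
        ring
      rw [hxc, abs_neg] at hx3
      obtain ⟨z, hz⟩ : ∃ z : Pt, z = (x.1 - (en A).1 - (en B).1, x.2 - (en A).2 + 1 - (en B).2) := ⟨_, rfl⟩
      have z1 : z.1 = x.1 - (en A).1 - (en B).1 := by rw [hz]
      have z2 : z.2 = x.2 - (en A).2 + 1 - (en B).2 := by rw [hz]
      have hd : (3 : ℤ) ∣ z.1 + 2 * z.2 := by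
        rcases Nat.mod_two_eq_zero_or_one n with hn | hn
        · rw [if_pos hn] at hpar
          rw [if_pos (by rw [Nat.even_iff]; omega)] at lb
          omega
        · rw [if_neg (by omega)] at hpar
          rw [if_neg (by rw [Nat.even_iff]; omega)] at lb
          omega
      obtain ⟨h, hh⟩ := hd
      have hpkR : (0 : ℝ) < 2 ^ k := by positivity
      have hxl : ((H : ℤ) * 2 ^ k) ≤ x.1 + 2 * x.2 := by
        have : (((H : ℤ) * 2 ^ k : ℤ) : ℝ) ≤ ((x.1 + 2 * x.2 : ℤ) : ℝ) := by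
          refine le_trans ?_ hx1
          push_cast
          rw [pow_add]
          nlinarith
        exact_mod_cast this
      have hxu : x.1 + 2 * x.2 ≤ (H : ℤ) * 2 ^ (k + i) := by
        have : ((x.1 + 2 * x.2 : ℤ) : ℝ) ≤ (((H : ℤ) * 2 ^ (k + i) : ℤ) : ℝ) := by
          refine le_trans hx2 ?_
          push_cast
          have hH2 : (1 : ℝ) ≤ H := by exact_mod_cast hH1
          calc K * 2 ^ (k + j) = K * 2 ^ j * 2 ^ k := by rw [pow_add]; ring
            _ ≤ 2 ^ i * 2 ^ k := by gcongr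
            _ = 1 * 2 ^ (k + i) := by rw [pow_add]; ring
            _ ≤ _ := by gcongr
        exact_mod_cast this
      have hD : (2 : ℤ) ^ (k + D) = 2 ^ k * 2 ^ D := pow_add _ _ _
      have hpk : (1 : ℤ) ≤ 2 ^ k := one_le_pow₀ (by norm_num)
      have hpD : (1 : ℤ) ≤ 2 ^ D := one_le_pow₀ (by norm_num)
      have hBd : ∀ dir : Bool, |lvl dir (en B)| ≤ 2 ^ k * 2 ^ D := by
        intro dir
        have h1 := hB4 dir
        have h2 : e' * (2 : ℝ) ^ (k + j) ≤ 2 ^ k := by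
          calc e' * (2 : ℝ) ^ (k + j) = e' * 2 ^ j * 2 ^ k := by rw [pow_add]; ring
            _ ≤ 1 * 2 ^ k := by gcongr
            _ = _ := one_mul _
        have h3 : (|lvl dir (en B)| : ℤ) ≤ 2 ^ k := by
          have : ((|lvl dir (en B)| : ℤ) : ℝ) ≤ ((2 ^ k : ℤ) : ℝ) := by
            push_cast
            have := h1.trans h2
            rwa [Int.cast_abs] at this
          exact_mod_cast this
        nlinarith
      have a1 := hA4 false
      have a2 := hA4 true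
      have b1 := hBd false
      have b2 := hBd true
      rw [lvl_f, hD] at a1
      rw [lvl_f] at b1
      rw [lvl_t, abs_neg, hD] at a2
      rw [lvl_t, abs_neg] at b2
      have hgeo := geo (G := 2 ^ D) (P2 := 2 ^ k) (Pi := 2 ^ (k + i)) (Hc := Hc) (H' := 8 * 2 ^ D * Hc) (H := H)
        (a := en A) (b := en B) (x := x) (h := h) (z := z) (one_le_pow₀ (by norm_num)) (one_le_pow₀ (by norm_num))
        (pow_le_pow_right₀ (by norm_num) (by omega)) (by exact_mod_cast hHc) rfl (by rw [hH0]; push_cast; ring) a1 a2 b1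
        b2 hxl hxu hx3 hz hh
      obtain ⟨q1, q2, q3⟩ := hgeo
      have hHc' : (1 : ℤ) ≤ Hc := by exact_mod_cast hHc
      have q0 : (Hc : ℤ) * 2 ^ k ≤ 8 * 2 ^ D * Hc * 2 ^ k := by
        have : (0 : ℤ) ≤ (8 * 2 ^ D - 1) * (Hc * 2 ^ k) := mul_nonneg (by linarith) (by positivity)
        linarith
      have hh0 : 0 ≤ h := by
        have : (0 : ℤ) ≤ Hc * 2 ^ k := by positivity
        linarith
      obtain ⟨hn, rfl⟩ := Int.eq_ofNat_of_zero_le hh0
      -- the number of letters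
      have hB3R : (b0 : ℝ) ≤ B.length := by exact_mod_cast hB3
      have hA1 : (1 : ℝ) ≤ A.length := by
        have : 1 ≤ A.length := by omega
        exact_mod_cast this
      have hle : A.length + B.length ≤ n := by
        have : ((A.length + B.length : ℕ) : ℝ) ≤ n := by
          push_cast
          linarith
        exact_mod_cast this
      obtain ⟨b, hb⟩ : ∃ b : ℕ, A.length + b + B.length = n + 1 := ⟨n + 1 - A.length - B.length, by omega⟩
      have hbR : (A.length : ℝ) + b + B.length = n + 1 := by exact_mod_cast hb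
      refine ⟨{Z | Z ∈ EndB hn z.1 ∧ Z.length = b}, ?_, ?_⟩
      · rintro Z ⟨⟨hZ1, hZ2⟩, hZ3⟩
        refine ⟨⟨hn, hZ1⟩, by rw [hZ3]; exact hb, ?_⟩
        have e1 : (en Z).1 + 2 * (en Z).2 = 3 * hn := by
          rw [← ip_up]
          exact (mem_Brd.1 hZ1).2.2.2
        have e2 : (en Z).1 = z.1 := by
          have : latE Z = (en Z).1 := by
            show -(cross up (en Z)) = _
            unfold cross up
            ring
          rw [← this]
          exact hZ2
        have e3 : (en Z).2 = z.2 := by linarith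
        refine Prod.ext ?_ ?_
        · show (en A).1 - 0 + (en Z).1 + (en B).1 = x.1
          rw [e2, z1]
          ring
        · show (en A).2 - 1 + (en Z).2 + (en B).2 = x.2
          rw [e3, z2]
          ring
      · rw [hg, hg0]
        refine hL k (i + (D + 3)) hn b z.1 (by omega) ?_ ?_ ?_ ?_ ?_ ?_ ?_
        · have : (Hc : ℤ) * 2 ^ k ≤ (hn : ℤ) := q0.trans q1
          exact_mod_cast this
        · have e : (Hc * 2 ^ (k + (i + (D + 3)) + 1) : ℕ) = (8 * 2 ^ D * Hc) * (2 * 2 ^ (k + i)) := by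
            rw [show k + (i + (D + 3)) + 1 = (k + i) + D + 4 by ring, pow_add, pow_add _ (k + i) D]
            ring
          rw [e]
          exact_mod_cast q2
        · have : z.1 = 3 * (hn : ℤ) - 2 * z.2 := by linarith
          rw [this]
          exact ⟨hn - z.2, by ring⟩
        · have : ((|z.1| : ℤ) : ℝ) ≤ 4 * hn := by exact_mod_cast q3
          rwa [Int.cast_abs] at this
        · rw [Nat.even_iff]
          omega
        · linarith
        · linarith
    · refine ENNReal.tsum_le_tsum fun A => ENNReal.tsum_le_tsum fun Z => ENNReal.tsum_le_tsum fun B => ?_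
      by_cases h : A ∈ P ∧ B ∈ Q ∧ Z ∈ BU ∧ A.length + Z.length + B.length = n + 1 ∧ en A - up + en Z + en B = x
      · obtain ⟨h1, h2, h3, h4, h5⟩ := h
        rw [if_pos ⟨h1, h2, h3, h4, h5⟩, if_pos ⟨h1, h3, h2, h4, h5⟩]
      · rw [if_neg h]
        exact zero_le
  -- the constants
  have hUk := Ub_add k j
  have hU0 := Ub_pos (k + j)
  have hX0 : Xb (k + j) ≤ ENNReal.ofReal (CX ^ j) * Xb k := hXp k j
  have hbr : Ub (k + j) / m (k + j) / 4 ^ (k + j) ≤ 2 ^ j * (Ub k / (4 ^ k * m k)) := by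
    have h4 : (4 : ℝ) ^ k ≤ 4 ^ (k + j) := pow_le_pow_right₀ (by norm_num) (by omega)
    have hmm : m k ≤ m (k + j) := by linarith
    calc Ub (k + j) / m (k + j) / 4 ^ (k + j) = Ub (k + j) / (4 ^ (k + j) * m (k + j)) := by
          rw [div_div, mul_comm (m (k + j))]
      _ ≤ (2 ^ j * Ub k) / (4 ^ k * m k) := by
          have hUk0 := Ub_pos k
          gcongr
      _ = _ := by ring
  have fin : 12 * (ENNReal.ofReal (c1 * c2 * g0 / (12 * 2 ^ j * CX ^ j) / 4 ^ (k + j)) * nuX m (k + j)) ≤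
      gf P * gf Q * g := by
    have e12 : (12 : ℝ≥0∞) = ENNReal.ofReal 12 := by norm_num
    have hCXj : (0 : ℝ) < CX ^ j := by positivity
    calc 12 * (ENNReal.ofReal (c1 * c2 * g0 / (12 * 2 ^ j * CX ^ j) / 4 ^ (k + j)) * nuX m (k + j))
        = ENNReal.ofReal (c1 * c2 * g0 / (2 ^ j * CX ^ j) * (Ub (k + j) / m (k + j) / 4 ^ (k + j))) *
            (Xb (k + j) * Xb (k + j)) := by
          rw [nuX, e12, ← mul_assoc, ← mul_assoc, ← ENNReal.ofReal_mul (by norm_num), ← ENNReal.ofReal_mul (by positivity),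
            pow_two]
          congr 2
          field_simp
      _ ≤ ENNReal.ofReal (c1 * c2 * g0 / (2 ^ j * CX ^ j) * (2 ^ j * (Ub k / (4 ^ k * m k)))) *
            ((ENNReal.ofReal (CX ^ j) * Xb k) * Xb (k + j)) := by
          gcongr
      _ = (ENNReal.ofReal (c1 * c2 * g0 / (2 ^ j * CX ^ j) * (2 ^ j * (Ub k / (4 ^ k * m k)))) *
            ENNReal.ofReal (CX ^ j)) * (Xb k * Xb (k + j)) := by ring
      _ = (ENNReal.ofReal c1 * ENNReal.ofReal c2 * ENNReal.ofReal (g0 * (Ub k / (4 ^ k * m k)))) *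
            (Xb k * Xb (k + j)) := by
          have hUk0 := Ub_pos k
          rw [← ENNReal.ofReal_mul (by positivity), ← ENNReal.ofReal_mul hc1.le, ← ENNReal.ofReal_mul (by positivity)]
          congr 2
          field_simp
      _ = (ENNReal.ofReal c1 * Xb k) * (ENNReal.ofReal c2 * Xb (k + j)) * g := by
          rw [hg]
          ring
      _ ≤ _ := by gcongr
  exact (ENNReal.mul_le_mul_iff_right (by norm_num) (by norm_num)).1 (fin.trans key)

end JNT

end HexObs
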