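import Pool.Agent.JNT.JCnt
import Pool.Agent.TPF.NaMass
import Pool.Agent.NTA.QuanH
import Pool.Agent.EN.FactsM
import Pool.Agent.EN.SpTail

/-!
JNT, lower side, row N: half plane words without a cut, with few letters, a given parity of the number of letters and the
end in a box (helper5).

* `tri_cnt` : reversed word without a cut, bridge, word without a cut: the weight of the joined words;
* `half_shortb` : the short words without a cut with a given parity;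
* `ncP_of`, `ncP_M` : the row N.
-/

set_option autoImplicit false

namespace HexObs

namespace JNT

open Finset TS SDN NTW NTA PtC RP BAR EN

open scoped ENNReal

variable {m : ℕ → ℝ}

/-! ### 1. The weight of the joined words -/

theorem tri_cnt {P Z Q T : Set (List Bool)} (hP : ∀ A ∈ P, A ∈ HiN A.length ∧ 1 ≤ A.length) (hZ : Z ⊆ BU)
    (hQ : ∀ B ∈ Q, B ∈ HiN B.length) (hT : ∀ A ∈ P, ∀ X ∈ Z, ∀ B ∈ Q, rev A.dropLast ++ (X ++ B) ∈ T) :
    gf P * (gf Z * gf Q) ≤ 12 * gf T := by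
  classical
  set F : P × Z × Q → Bool × dirs × T := fun p => (p.1.1.getLastD true, ⟨jd p.1.1.dropLast, jd_dirs _⟩,
    ⟨rev p.1.1.dropLast ++ (p.2.1.1 ++ p.2.2.1), hT _ p.1.2 _ p.2.1.2 _ p.2.2.2⟩) with hF
  have hinj : Function.Injective F := by
    rintro ⟨⟨A, h1⟩, ⟨X, h2⟩, ⟨B, h3⟩⟩ ⟨⟨A', h1'⟩, ⟨X', h2'⟩, ⟨B', h3'⟩⟩ h
    rw [hF] at h
    simp only [Prod.mk.injEq, Subtype.mk.injEq] at h
    obtain ⟨g1, g2, g3⟩ := h
    obtain ⟨hA, hodd⟩ := hP A h1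
    obtain ⟨hA', hodd'⟩ := hP A' h1'
    obtain ⟨e2, e3⟩ := triple_inj hA hA' hodd hodd' (snd_HpN (hZ h2) (hQ B h3)) (snd_HpN (hZ h2') (hQ B' h3'))
      g1 g2 g3
    obtain ⟨e4, e5⟩ := split_inj (hZ h2) (hZ h2') (hQ B h3) (hQ B' h3') e3
    subst e2
    subst e4
    subst e5
    rfl
  have hw : ∀ p : P × Z × Q, wE p.1.1 * (wE p.2.1.1 * wE p.2.2.1) ≤ wE (F p).2.2.1 := by
    rintro ⟨⟨A, h1⟩, ⟨X, h2⟩, ⟨B, h3⟩⟩
    rw [hF]
    simp only
    rw [← wE_append, ← wE_append]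
    unfold wE
    apply ENNReal.ofReal_le_ofReal
    apply pow_le_pow_of_le_one xc_pos.le (by linarith [xc_le])
    simp only [List.length_append, rev_length, List.length_dropLast]
    omega
  have h1 : gf P * (gf Z * gf Q) = ∑' p : P × Z × Q, wE p.1.1 * (wE p.2.1.1 * wE p.2.2.1) := by
    rw [ENNReal.tsum_prod (f := fun (a : P) (q : Z × Q) => wE a.1 * (wE q.1.1 * wE q.2.1))]
    unfold gf
    rw [← ENNReal.tsum_mul_right]
    refine tsum_congr fun a => ?_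
    rw [ENNReal.tsum_mul_left]
    congr 1
    rw [ENNReal.tsum_prod (f := fun (z : Z) (q : Q) => wE z.1 * wE q.1), ← ENNReal.tsum_mul_right]
    exact tsum_congr fun z => (ENNReal.tsum_mul_left).symm
  rw [h1]
  calc ∑' p : P × Z × Q, wE p.1.1 * (wE p.2.1.1 * wE p.2.2.1) ≤
        ∑' p : P × Z × Q, (fun q : Bool × dirs × T => wE q.2.2.1) (F p) := ENNReal.tsum_le_tsum hw
    _ ≤ ∑' q : Bool × dirs × T, wE q.2.2.1 := ENNReal.tsum_comp_le_tsum_of_injective hinj _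
    _ = 12 * gf T := by
        rw [ENNReal.tsum_prod (f := fun (_ : Bool) (q : dirs × T) => wE q.2.1)]
        have h1 : ∑' q : dirs × T, wE q.2.1 = 6 * gf T := by
          rw [ENNReal.tsum_prod (f := fun (_ : dirs) (t : T) => wE t.1)]
          rw [tsum_fintype, Finset.sum_const, Finset.card_univ, Fintype.card_coe, show dirs.card = 6 by decide,
            nsmul_eq_mul]
          rfl
        rw [h1, tsum_fintype, Finset.sum_const, Finset.card_univ, Fintype.card_bool, nsmul_eq_mul, ← mul_assoc]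
        norm_num

/-! ### 2. A given parity -/

/-- the last cut of a half plane word of a smaller height, with parity and few letters -/
lemma SSb_le_NAb {i k : ℕ} (hik : i ≤ k) (b : Bool) (x : ℝ) :
    gf {W | W ∈ TPF.SSb b (2 ^ i) ∧ (W.length : ℝ) ≤ x} ≤
      ENNReal.ofReal (Ub i) * gf {W | W ∈ TPF.NAb b (2 ^ k) ∧ (W.length : ℝ) ≤ x} := by
  have h1 : {W | W ∈ TPF.SSb b (2 ^ i) ∧ (W.length : ℝ) ≤ x} ⊆
      ⋃ r ∈ range (2 ^ i + 1), {w | ∃ c ∈ Brd r, ∃ s ∈ {W | W ∈ TPF.NAb b (2 ^ k) ∧ (W.length : ℝ) ≤ x}, w = c ++ s} := by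
    rintro W ⟨⟨hW, hb⟩, hl⟩
    obtain ⟨r, hr, c, hc, s, hs, rfl⟩ := last_cut hW (2 ^ i)
    rw [Set.mem_iUnion₂]
    refine ⟨r, mem_range.2 (by omega), c, hc, s,
      ⟨⟨⟨SSt_mono (Nat.pow_le_pow_right (by norm_num) hik) hs.1, fun j hj hcut => ?_⟩, ?_⟩, ?_⟩, rfl⟩
    · by_cases h : j ≤ 2 ^ i - r
      · exact hs.2 j hj h hcut
      · obtain ⟨c', s', hc', hs', rfl⟩ := hcut
        have h2 := Brd_height_le (Brd_append hc hc') (s := s') (by rwa [List.append_assoc])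
        omega
    · have h2 := TPF.Brd_even hc
      rw [List.length_append, Nat.bodd_add, h2] at hb
      simpa using hb
    · have h3 : (s.length : ℝ) ≤ ((c ++ s).length : ℝ) := by
        rw [List.length_append]
        push_cast
        have : (0 : ℝ) ≤ c.length := Nat.cast_nonneg _
        linarith
      exact h3.trans hl
  refine (gf_mono h1).trans ((gf_bi_le _ _).trans ?_)
  show _ ≤ ENNReal.ofReal (UU (2 ^ i)) * _
  rw [← sum_BT, sum_mul]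
  refine sum_le_sum fun r _ => ?_
  rw [← gf_Brd]
  refine gf_le_mul fun t ht => ?_
  obtain ⟨c, hc, s, hs, h⟩ := ht
  exact ⟨c, hc, s, hs, h⟩

/-- **the short words without a cut with a given parity** -/
theorem half_shortb (hm : MLow m) (hH : NTA.HT m) : ∃ lam : ℝ, 1 ≤ lam ∧ ∀ (k : ℕ) (b : Bool),
    ENNReal.ofReal (1 / 16) * Xb k ≤ gf {W | W ∈ TPF.NAb b (2 ^ k) ∧ (W.length : ℝ) ≤ lam * m k} := by
  obtain ⟨A, hA, h⟩ := hH 1
  obtain ⟨lam, hlam⟩ : ∃ lam : ℝ, lam = max 1 (16 * A) := ⟨_, rfl⟩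
  have hl1 : 1 ≤ lam := by rw [hlam]; exact le_max_left _ _
  have hl2 : 16 * A ≤ lam := by rw [hlam]; exact le_max_right _ _
  have hl0 : 0 < lam := by linarith
  refine ⟨lam, hl1, fun k b => ?_⟩
  obtain ⟨i, hik, hi⟩ := Xb_reach k
  have hU := Ub_pos i
  obtain ⟨G, hG⟩ : ∃ G, G = gf {W | W ∈ TPF.NAb b (2 ^ k) ∧ (W.length : ℝ) ≤ lam * m k} := ⟨_, rfl⟩
  have h1 : gf {W | W ∈ TPF.SSb b (2 ^ i) ∧ (W.length : ℝ) ≤ lam * m k} ≤ ENNReal.ofReal (Ub i) * G := by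
    rw [hG]
    exact SSb_le_NAb hik b _
  have h2 : gf {W | W ∈ SSt (2 ^ i) ∧ lam * m k ≤ (W.length : ℝ)} ≤
      ENNReal.ofReal (Ub i) * (ENNReal.ofReal (1 / 16) * Xb k) := by
    calc gf {W | W ∈ SSt (2 ^ i) ∧ lam * m k ≤ (W.length : ℝ)}
        ≤ gf {W | W ∈ SSt (2 ^ i) ∧ lam * m i ≤ (W.length : ℝ)} := by
          refine gf_mono ?_
          rintro W ⟨hW, hl⟩
          exact ⟨hW, (mul_le_mul_of_nonneg_left (hm.mono hik) hl0.le).trans hl⟩
      _ ≤ ENNReal.ofReal (A / lam ^ 1 * Ub i) * Xb i := h i lam hl1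
      _ ≤ ENNReal.ofReal (Ub i * (1 / 16)) * Xb k := by
          refine mul_le_mul' (ENNReal.ofReal_le_ofReal ?_) (NTA.Xb_mono hik)
          rw [pow_one, mul_comm (Ub i)]
          refine mul_le_mul_of_nonneg_right ?_ hU.le
          rw [div_le_iff₀ hl0]
          linarith
      _ = _ := by rw [ENNReal.ofReal_mul hU.le, mul_assoc]
  have h3 : ENNReal.ofReal (Ub i) * (ENNReal.ofReal (1 / 8) * Xb k) ≤
      ENNReal.ofReal (Ub i) * (G + ENNReal.ofReal (1 / 16) * Xb k) := by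
    have h4 : gf (TPF.SSb b (2 ^ i)) ≤ ENNReal.ofReal (Ub i) * (G + ENNReal.ofReal (1 / 16) * Xb k) := by
      rw [mul_add]
      refine ((gf_mono ?_).trans (gf_union_le _ _)).trans (add_le_add h1 h2)
      intro W hW
      rcases le_total (W.length : ℝ) (lam * m k) with h | h
      · exact Or.inl ⟨hW, h⟩
      · exact Or.inr ⟨hW.1, h⟩
    have h5 : BAR.HH (2 ^ i) ≤ 8 * gf (TPF.SSb b (2 ^ i)) := TPF.HH_le_SSb Nat.one_le_two_pow b
    have h6 : ENNReal.ofReal (Ub i) * Xb k ≤ 8 * gf (TPF.SSb b (2 ^ i)) := by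
      rw [hi]
      exact h5
    have h7 : ENNReal.ofReal (1 / 8) * (8 * gf (TPF.SSb b (2 ^ i))) = gf (TPF.SSb b (2 ^ i)) := by
      have e : (8 : ℝ≥0∞) = ENNReal.ofReal 8 := by simp
      rw [← mul_assoc, e, ← ENNReal.ofReal_mul (by norm_num)]
      norm_num
    calc ENNReal.ofReal (Ub i) * (ENNReal.ofReal (1 / 8) * Xb k) = ENNReal.ofReal (1 / 8) * (ENNReal.ofReal (Ub i) * Xb k) := by
          ring
      _ ≤ ENNReal.ofReal (1 / 8) * (8 * gf (TPF.SSb b (2 ^ i))) := mul_le_mul' le_rfl h6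
      _ = gf (TPF.SSb b (2 ^ i)) := h7
      _ ≤ _ := h4
  have h4 := (ENNReal.mul_le_mul_iff_right (by simpa using hU) ENNReal.ofReal_ne_top).1 h3
  have h5 : ENNReal.ofReal (1 / 8) * Xb k = ENNReal.ofReal (1 / 16) * Xb k + ENNReal.ofReal (1 / 16) * Xb k := by
    rw [← add_mul, ← ENNReal.ofReal_add (by norm_num) (by norm_num)]
    norm_num
  rw [h5] at h4
  rw [← hG]
  exact (ENNReal.add_le_add_iff_right (ENNReal.mul_ne_top ENNReal.ofReal_ne_top (Xb_ne_top k))).1 h4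

/-! ### 3. Far words -/

lemma norm_mulE {R : Pt} (hR : nrm R = 1) (v : Pt) : ‖NTF.JJ (mulE R v)‖ = ‖NTF.JJ v‖ := by
  have h1 : ‖NTF.JJ (mulE R v)‖ ^ 2 = ‖NTF.JJ v‖ ^ 2 := by
    rw [NTF.JJ_norm, NTF.JJ_norm, nrm_mulE, hR, one_mul]
  exact (pow_left_inj₀ (norm_nonneg _) (norm_nonneg _) two_ne_zero).1 h1

lemma hd_dirs (dir : Bool) : hd dir ∈ dirs := by
  cases dir <;> decide

lemma lvl_le_norm (dir : Bool) (v : Pt) : |((lvl dir v : ℤ) : ℝ)| ≤ 2 * ‖NTF.JJ v‖ := by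
  have h1 := ip_sq_le v (hd dir)
  rw [mem_dirs.1 (hd_dirs dir), mul_one] at h1
  have h2 : ((lvl dir v : ℤ) : ℝ) ^ 2 ≤ 4 * ((nrm v : ℤ) : ℝ) := by exact_mod_cast h1
  rw [← NTF.JJ_norm] at h2
  have h3 : |((lvl dir v : ℤ) : ℝ)| ^ 2 ≤ (2 * ‖NTF.JJ v‖) ^ 2 := by
    rw [sq_abs]
    linarith
  exact (pow_le_pow_iff_left₀ (abs_nonneg _) (by positivity) two_ne_zero).1 h3

/-- a part of a word that leaves a large box around its own start -/
lemma out_box {K j : ℕ} (hK : 1 ≤ K) {t W : List Bool} {R : Pt} (hR : nrm R = 1)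
    (h : ∀ n, vx oo up t (j + n) = vx oo up t j + mulE R (vx oo up W n)) (hl : j + W.length ≤ t.length) (hW : W ∈ SA)
    (hout : W ∉ WL (K + 3)) : t ∉ WL K := by
  intro ht
  have hw' : ∃ n, n ≤ W.length ∧ ∃ dir, 2 ^ (K + 3) < |row dir (vx oo up W n)| := by
    by_contra hc
    push Not at hc
    exact hout ⟨hW, hc⟩
  obtain ⟨n, hn, dir, hd⟩ := hw'
  have hlv : 24 * (2 : ℤ) ^ K ≤ |lvl dir (vx oo up W n)| := by
    rw [pow_add] at hd
    unfold row at hd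
    rcases lt_abs.1 hd with h | h
    · have : 24 * (2 : ℤ) ^ K ≤ lvl dir (vx oo up W n) := by omega
      exact this.trans (le_abs_self _)
    · have : 24 * (2 : ℤ) ^ K ≤ -lvl dir (vx oo up W n) := by omega
      exact this.trans (neg_le_abs _)
  have hlv' : 24 * (2 : ℝ) ^ K ≤ |((lvl dir (vx oo up W n) : ℤ) : ℝ)| := by
    have c1 : ((24 * (2 : ℤ) ^ K : ℤ) : ℝ) ≤ ((|lvl dir (vx oo up W n)| : ℤ) : ℝ) := by exact_mod_cast hlv
    rw [Int.cast_abs] at c1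
    push_cast at c1
    exact c1
  have key : ∀ i, i ≤ t.length → ‖NTF.JJ (vx oo up t i)‖ < 3 * 2 ^ K + 3 := by
    intro i hi
    by_contra hc
    push Not at hc
    obtain ⟨dir', h1⟩ := NTF.exists_dir (by positivity) hc
    have h2 := ht.2 i hi dir'
    have h3 : |lvl dir' (vx oo up t i)| < 3 * 2 ^ K + 3 := by
      unfold row at h2
      rw [abs_le] at h2
      rw [abs_lt]
      constructor <;> omega
    have h4 : |((lvl dir' (vx oo up t i) : ℤ) : ℝ)| < 3 * 2 ^ K + 3 := by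
      have c1 : ((|lvl dir' (vx oo up t i)| : ℤ) : ℝ) < ((3 * 2 ^ K + 3 : ℤ) : ℝ) := by exact_mod_cast h3
      rw [Int.cast_abs] at c1
      push_cast at c1
      exact c1
    linarith
  have h1 := key (j + n) (by omega)
  have h2 := key j (by omega)
  have h3 : NTF.JJ (mulE R (vx oo up W n)) = NTF.JJ (vx oo up t (j + n)) - NTF.JJ (vx oo up t j) := by
    rw [h n, NTF.JJ_add]
    ring
  have h4 : ‖NTF.JJ (vx oo up W n)‖ ≤ ‖NTF.JJ (vx oo up t (j + n))‖ + ‖NTF.JJ (vx oo up t j)‖ := by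
    rw [← norm_mulE hR, h3]
    exact norm_sub_le _ _
  have h5 := lvl_le_norm dir (vx oo up W n)
  have h6 : (2 : ℝ) ≤ 2 ^ K := by
    calc (2 : ℝ) = 2 ^ 1 := by norm_num
      _ ≤ 2 ^ K := pow_le_pow_right₀ (by norm_num) hK
  linarith

/-- **the far words without a cut** -/
theorem na_far (hm : MLow m) (hB : TB m) (hH : NTA.HT m) (hA : ASm m) {lam ε : ℝ} (hl : 1 ≤ lam) (hε : 0 < ε)
    (hlam : ∀ (k : ℕ) (b : Bool), ENNReal.ofReal (1 / 16) * Xb k ≤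
      gf {W | W ∈ TPF.NAb b (2 ^ k) ∧ (W.length : ℝ) ≤ lam * m k}) :
    ∃ D : ℕ, ∀ (k : ℕ) (b : Bool), gf {W | W ∈ TPF.NAb b (2 ^ k) ∧ (W.length : ℝ) ≤ lam * m k ∧ W ∉ WL (k + D)} ≤
      ENNReal.ofReal ε * Xb k := by
  obtain ⟨lamB, hlB, hshort⟩ := half_short hB
  obtain ⟨CX, hCX, hXd⟩ := XDbl.pow xDbl
  obtain ⟨A, hA1, hsp⟩ := sp_tail hA 1
  have hm0 := hm.pos 0
  obtain ⟨j, hj⟩ := pow_unbounded_of_one_lt (2 * lam + lamB + 1 / m 0) (one_lt_two (α := ℝ))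
  have hCX0 : 0 < CX := by linarith
  have hA0 : 0 < A := by linarith
  obtain ⟨Cc, hCc⟩ : ∃ Cc : ℝ, Cc = 384 * A * 2 ^ j * CX ^ (2 * j) := ⟨_, rfl⟩
  have hCc0 : 0 < Cc := by rw [hCc]; positivity
  obtain ⟨i, hi⟩ := exists_pow_lt_of_lt_one (show 0 < ε / Cc by positivity) (show (1 / 2 : ℝ) < 1 by norm_num)
  refine ⟨j + (i + 1) + 3, fun k b => ?_⟩
  have hmk := hm.pos k
  have hU := Ub_pos k
  obtain ⟨K, hK⟩ : ∃ K, K = k + j + (i + 1) := ⟨_, rfl⟩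
  obtain ⟨P, hP⟩ : ∃ P, P = {W | W ∈ TPF.NAb true (2 ^ k) ∧ (W.length : ℝ) ≤ lam * m k} := ⟨_, rfl⟩
  obtain ⟨N, hN⟩ : ∃ N, N = ⌈lamB * m k⌉₊ := ⟨_, rfl⟩
  have hN1 : lamB * m k ≤ N := by rw [hN]; exact Nat.le_ceil _
  have hN2 : (N : ℝ) ≤ lamB * m k + 1 := by
    rw [hN]
    exact (Nat.ceil_lt_add_one (by positivity)).le
  obtain ⟨Z, hZ⟩ : ∃ Z, Z = {X | (∃ n, n ≤ 2 ^ k ∧ X ∈ Brd n) ∧ X.length ≤ N} := ⟨_, rfl⟩
  obtain ⟨Q, hQ⟩ : ∃ Q, Q = {W | W ∈ TPF.NAb b (2 ^ k) ∧ (W.length : ℝ) ≤ lam * m k ∧ W ∉ WL (K + 3)} := ⟨_, rfl⟩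
  obtain ⟨L, hL⟩ : ∃ L, L = ⌊2 * lam * m k + (lamB * m k + 1)⌋₊ := ⟨_, rfl⟩
  have hL1 : (L : ℝ) ≤ m (k + j + 1) := by
    have h1 : (L : ℝ) ≤ 2 * lam * m k + (lamB * m k + 1) := by
      rw [hL]
      exact Nat.floor_le (by positivity)
    have h2 := m_two hm k (j + 1)
    have h3 : m 0 ≤ m k := hm.mono (Nat.zero_le _)
    have h4 : 1 ≤ 1 / m 0 * m k := by
      rw [div_mul_eq_mul_div, one_mul, le_div_iff₀ hm0, one_mul]
      exact h3
    have h5 : (2 * lam + lamB + 1 / m 0) * m k ≤ 2 ^ j * m k := by gcongr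
    have h6 : (2 : ℝ) ^ j * m k ≤ 2 ^ (j + 1) * m k := by
      apply mul_le_mul_of_nonneg_right _ hmk.le
      exact pow_le_pow_right₀ (by norm_num) (by omega)
    rw [show k + j + 1 = k + (j + 1) by ring]
    linarith
  have hPm : ∀ A ∈ P, A ∈ HiN A.length ∧ 1 ≤ A.length := by
    intro A hA
    rw [hP] at hA
    obtain ⟨⟨h1, h2⟩, h3⟩ := hA
    have h4 := mem_SSt.1 h1.1
    refine ⟨⟨HpN_iff.2 ⟨rfl, pos_SSt h1.1, h4.2⟩, NA_cuts h1⟩, ?_⟩
    rcases Nat.eq_zero_or_pos A.length with h5 | h5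
    · rw [h5] at h2
      simp at h2
    · exact h5
  have hQm : ∀ B ∈ Q, B ∈ HiN B.length := by
    intro B hB
    rw [hQ] at hB
    obtain ⟨⟨h1, -⟩, -⟩ := hB
    have h4 := mem_SSt.1 h1.1
    exact ⟨HpN_iff.2 ⟨rfl, pos_SSt h1.1, h4.2⟩, NA_cuts h1⟩
  have hZm : Z ⊆ BU := by
    rw [hZ]
    rintro X ⟨⟨n, -, h1⟩, -⟩
    exact ⟨n, h1⟩
  have hT : ∀ A ∈ P, ∀ X ∈ Z, ∀ B ∈ Q, rev A.dropLast ++ (X ++ B) ∈ {t | t ∈ SAL L ∧ t ∉ WL K} := by
    intro A hA X hX B hB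
    obtain ⟨hA2, hA3⟩ := hPm A hA
    have hB2 := hQm B hB
    have hX2 := hZm hX
    obtain ⟨k', hk'⟩ : ∃ k', A.length = k' + 1 := ⟨A.length - 1, by omega⟩
    have hf := last_form hk'
    have hsl : A.dropLast.length = k' := by rw [List.length_dropLast, hk']; omega
    have hv := snd_HpN hX2 hB2
    have h6 := glue_mem (s := A.dropLast) (x := A.getLastD true) (v := X ++ B) (k := k')
      (l := X.length + B.length) (by rw [← hf, ← hk']; exact hA2.1) hv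
    have h7 : rev A.dropLast ++ (X ++ B) ∈ SA := ⟨fun _ _ _ => Set.mem_univ _, h6.2.inj⟩
    have e1 : (rev A.dropLast ++ (X ++ B)).length = k' + (X.length + B.length) := h6.1
    refine ⟨⟨h7, ?_⟩, ?_⟩
    · rw [e1, hL]
      apply Nat.le_floor
      rw [hP] at hA
      rw [hZ] at hX
      rw [hQ] at hB
      have a1 : ((A.length : ℕ) : ℝ) ≤ lam * m k := hA.2
      have a2 : ((X.length : ℕ) : ℝ) ≤ N := by exact_mod_cast hX.2
      have a3 : ((B.length : ℕ) : ℝ) ≤ lam * m k := hB.2.1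
      rw [hk'] at a1
      push_cast at a1 ⊢
      linarith
    · obtain ⟨r, hr⟩ := hX2
      obtain ⟨R, hR, g1, g2⟩ := jvx_snd A.dropLast (X ++ B)
      have hup := (mem_Brd.1 hr).2.2.1
      refine out_box (j := k' + X.length) (W := B) (R := R) (by omega) hR ?_ ?_ ?_ ?_
      · intro n
        have g3 := g2 (X.length + n)
        have g4 := g2 X.length
        rw [hsl] at g3 g4
        have g5 : vx oo up (X ++ B) X.length = vx oo up X X.length := vx_append (by omega)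
        rw [add_assoc, g3, g4, vx_cat hup, g5, mulE_add, add_assoc]
      · rw [e1]
        omega
      · exact ⟨fun _ _ _ => Set.mem_univ _, hB2.1.2.inj⟩
      · rw [hQ] at hB
        exact hB.2.2
  have hc := tri_cnt hPm hZm hQm hT
  have h1 := hlam k true
  rw [← hP] at h1
  have h2 := hshort k N hN1
  rw [← hZ] at h2
  have h3 := hsp (k + j) (i + 1) L hL1 (by omega)
  rw [← hK, one_mul] at h3
  have hUj : Ub (k + j) ≤ 2 ^ j * Ub k := Sc.Ub_shift _ _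
  have hXj := hXd k j
  have h4 : gf {t | t ∈ SAL L ∧ t ∉ WL K} ≤
      ENNReal.ofReal (A * (1 / 2) ^ (i + 1) * (2 ^ j * Ub k) * CX ^ (2 * j)) * Xb k ^ 2 := by
    have q1 : Xb (k + j) ^ 2 ≤ ENNReal.ofReal (CX ^ (2 * j)) * Xb k ^ 2 := by
      refine (pow_le_pow_left' hXj 2).trans (le_of_eq ?_)
      rw [mul_pow, ← ENNReal.ofReal_pow (by positivity), ← pow_mul, mul_comm j 2]
    have q2 : ENNReal.ofReal (A * (1 / 2) ^ (i + 1) * Ub (k + j)) ≤
        ENNReal.ofReal (A * (1 / 2) ^ (i + 1) * (2 ^ j * Ub k)) := ENNReal.ofReal_le_ofReal (by gcongr)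
    refine h3.trans ((mul_le_mul' q2 q1).trans (le_of_eq ?_))
    rw [← mul_assoc, ← ENNReal.ofReal_mul (by positivity)]
  have h5 : ENNReal.ofReal (1 / 2 * Ub k) ≤ gf Z := by
    have e : (2 : ℝ≥0∞) = ENNReal.ofReal 2 := by simp
    calc ENNReal.ofReal (1 / 2 * Ub k) = ENNReal.ofReal (1 / 2) * ENNReal.ofReal (Ub k) :=
          ENNReal.ofReal_mul (by norm_num)
      _ ≤ ENNReal.ofReal (1 / 2) * (2 * gf Z) := mul_le_mul' le_rfl h2
      _ = gf Z := by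
          rw [← mul_assoc, e, ← ENNReal.ofReal_mul (by norm_num)]
          norm_num
  have h6 : (ENNReal.ofReal (1 / 32 * Ub k) * Xb k) * gf Q ≤
      (ENNReal.ofReal (1 / 32 * Ub k) * Xb k) * (ENNReal.ofReal ε * Xb k) := by
    calc (ENNReal.ofReal (1 / 32 * Ub k) * Xb k) * gf Q =
          (ENNReal.ofReal (1 / 16) * Xb k) * (ENNReal.ofReal (1 / 2 * Ub k) * gf Q) := by
          rw [show (1 : ℝ) / 32 * Ub k = 1 / 16 * (1 / 2 * Ub k) by ring, ENNReal.ofReal_mul (by norm_num)]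
          ring
      _ ≤ gf P * (gf Z * gf Q) := mul_le_mul' h1 (mul_le_mul' h5 le_rfl)
      _ ≤ 12 * gf {t | t ∈ SAL L ∧ t ∉ WL K} := hc
      _ ≤ 12 * (ENNReal.ofReal (A * (1 / 2) ^ (i + 1) * (2 ^ j * Ub k) * CX ^ (2 * j)) * Xb k ^ 2) :=
          mul_le_mul' le_rfl h4
      _ = ENNReal.ofReal (12 * (A * (1 / 2) ^ (i + 1) * (2 ^ j * Ub k) * CX ^ (2 * j))) * Xb k ^ 2 := by
          have e : (12 : ℝ≥0∞) = ENNReal.ofReal 12 := by simp
          rw [← mul_assoc, e, ← ENNReal.ofReal_mul (by norm_num)]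
      _ ≤ ENNReal.ofReal (1 / 32 * Ub k * ε) * Xb k ^ 2 := by
          refine mul_le_mul' (ENNReal.ofReal_le_ofReal ?_) le_rfl
          have e1 : (1 / 2 : ℝ) ^ (i + 1) * Cc ≤ ε := by
            rw [lt_div_iff₀ hCc0] at hi
            have : (1 / 2 : ℝ) ^ (i + 1) ≤ (1 / 2) ^ i := pow_le_pow_of_le_one (by norm_num) (by norm_num) (by omega)
            have h7 : (1 / 2 : ℝ) ^ (i + 1) * Cc ≤ (1 / 2) ^ i * Cc := by gcongr
            linarith
          calc 12 * (A * (1 / 2) ^ (i + 1) * (2 ^ j * Ub k) * CX ^ (2 * j)) = 1 / 32 * Ub k * ((1 / 2) ^ (i + 1) * Cc) := by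
                rw [hCc]
                ring
            _ ≤ 1 / 32 * Ub k * ε := by gcongr
      _ = _ := by
          rw [ENNReal.ofReal_mul (by positivity)]
          ring
  rw [show k + (j + (i + 1) + 3) = K + 3 by rw [hK]; ring, ← hQ]
  refine (ENNReal.mul_le_mul_iff_right ?_ ?_).1 h6
  · exact mul_ne_zero (by simpa using hU) (NTA.Xb_ne_zero k)
  · exact ENNReal.mul_ne_top ENNReal.ofReal_ne_top (NTA.Xb_ne_top k)

/-! ### 4. The row N -/

theorem ncP_of (hm : MLow m) (hB : TB m) (hH : NTA.HT m) (hA : ASm m) : NcP m := by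
  obtain ⟨lam, hl1, hlam⟩ := half_shortb hm hH
  obtain ⟨D, hD⟩ := na_far hm hB hH hA hl1 (show (0 : ℝ) < 1 / 32 by norm_num) hlam
  obtain ⟨CX, hCX, hXd⟩ := XDbl.pow xDbl
  have hCX0 : 0 < CX := by linarith
  intro e he
  obtain ⟨i, hi⟩ := pow_unbounded_of_one_lt (lam / e) (one_lt_two (α := ℝ))
  refine ⟨1 / (32 * CX ^ i), D + 3, i, by positivity, fun k p hk hp => ?_⟩
  obtain ⟨k', rfl⟩ : ∃ k', k = k' + i := ⟨k - i, by omega⟩
  obtain ⟨b, hb⟩ : ∃ b : Bool, ∀ n : ℕ, n.bodd = b → n % 2 = p := by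
    rcases (show p = 0 ∨ p = 1 by omega) with rfl | rfl
    · refine ⟨false, fun n hn => ?_⟩
      rw [Nat.mod_two_of_bodd, hn]
      rfl
    · refine ⟨true, fun n hn => ?_⟩
      rw [Nat.mod_two_of_bodd, hn]
      rfl
  obtain ⟨G, hG⟩ : ∃ G, G = gf {W | W ∈ TPF.NAb b (2 ^ k') ∧ (W.length : ℝ) ≤ lam * m k' ∧ W ∈ WL (k' + D)} := ⟨_, rfl⟩
  have h1 : ENNReal.ofReal (1 / 16) * Xb k' ≤ G + ENNReal.ofReal (1 / 32) * Xb k' := by
    have h2 : {W | W ∈ TPF.NAb b (2 ^ k') ∧ (W.length : ℝ) ≤ lam * m k'} ⊆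
        {W | W ∈ TPF.NAb b (2 ^ k') ∧ (W.length : ℝ) ≤ lam * m k' ∧ W ∈ WL (k' + D)} ∪
        {W | W ∈ TPF.NAb b (2 ^ k') ∧ (W.length : ℝ) ≤ lam * m k' ∧ W ∉ WL (k' + D)} := by
      rintro W ⟨h1, h2⟩
      by_cases h : W ∈ WL (k' + D)
      · exact Or.inl ⟨h1, h2, h⟩
      · exact Or.inr ⟨h1, h2, h⟩
    rw [hG]
    exact (hlam k' b).trans (((gf_mono h2).trans (gf_union_le _ _)).trans (add_le_add le_rfl (hD k' b)))
  have h2 : ENNReal.ofReal (1 / 32) * Xb k' ≤ G := by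
    have e1 : ENNReal.ofReal (1 / 16) * Xb k' = ENNReal.ofReal (1 / 32) * Xb k' + ENNReal.ofReal (1 / 32) * Xb k' := by
      rw [← add_mul, ← ENNReal.ofReal_add (by norm_num) (by norm_num)]
      norm_num
    rw [e1] at h1
    exact (ENNReal.add_le_add_iff_right (ENNReal.mul_ne_top ENNReal.ofReal_ne_top (NTA.Xb_ne_top k'))).1 h1
  have h3 : ENNReal.ofReal (1 / (32 * CX ^ i)) * Xb (k' + i) ≤ G := by
    refine le_trans (mul_le_mul' le_rfl (hXd k' i)) (le_trans (le_of_eq ?_) h2)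
    rw [← mul_assoc, ← ENNReal.ofReal_mul (by positivity)]
    congr 2
    field_simp
  refine h3.trans ?_
  rw [hG]
  refine gf_mono ?_
  rintro W ⟨⟨h4, h5⟩, h6, h7⟩
  have h8 := mem_SSt.1 h4.1
  refine ⟨⟨HpN_iff.2 ⟨rfl, pos_SSt h4.1, h8.2⟩, NA_cuts h4⟩, hb _ h5, ?_, fun dir => ?_⟩
  · have h9 := m_two hm k' i
    have hmk := hm.pos k'
    have h10 : lam ≤ e * 2 ^ i := by
      rw [div_lt_iff₀ he] at hi
      linarith
    calc (W.length : ℝ) ≤ lam * m k' := h6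
      _ ≤ e * 2 ^ i * m k' := by gcongr
      _ = e * (2 ^ i * m k') := by ring
      _ ≤ e * m (k' + i) := by gcongr
  · have h9 := h7.2 W.length le_rfl dir
    have h10 : (2 : ℤ) ^ (k' + i + (D + 3)) = 8 * (2 ^ (k' + D) * 2 ^ i) := by
      rw [← pow_add]
      rw [show k' + i + (D + 3) = k' + D + i + 3 by ring, pow_add]
      ring
    have h11 : (1 : ℤ) ≤ 2 ^ i := one_le_pow₀ (by norm_num)
    have h12 : (1 : ℤ) ≤ 2 ^ (k' + D) := one_le_pow₀ (by norm_num)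
    have h13 : (2 : ℤ) ^ (k' + D) ≤ 2 ^ (k' + D) * 2 ^ i := le_mul_of_one_le_right (by positivity) h11
    unfold row at h9
    show |lvl dir (vx oo up W W.length)| ≤ _
    rw [h10]
    rw [abs_le] at h9 ⊢
    constructor <;> omega

/-- **the row N for the mean length of the bridges** -/
theorem ncP_M : NcP (fun k => PW.mZ (2 ^ k)) := ncP_of NTA.mlow_M NTA.tb_M EN.ht_M EN.asm_M

end JNT

end HexObs
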