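import Pool.Agent.JNT.LocLow
import Pool.Agent.JNT.LowM
import Pool.Agent.JNT.LowN
import Pool.Agent.JNT.JCnt

/-!
JNT, lower side: the local lower bound for the words, no hypothesis.
-/

set_option autoImplicit false

namespace HexObs

namespace JNT

/-- **the local lower bound for the words**, no hypothesis -/
theorem locLow_M : LocLow (fun k => PW.mZ (2 ^ k)) := loc_low NTA.mup_M lowC_M ncP_M jCnt

end JNT

end HexObs
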