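import Pool.Agent.JNT.LocFin
import Pool.Agent.JNT.Low2Defs

/-!
JNT, lower side close to the starting point, row X4 (helper5): from the words (`LocLow`, `LocE`) to the self-avoiding walks:
the pointwise lower bound at every point at a distance of at least `ε n ^ (3 / 4)`, every `ε > 0`.
-/

set_option autoImplicit false

namespace NTSZ

namespace Loc

open Finset MeasureTheory Filter Topology

open HexObs hiding pos curve

open HexObs.TS HexObs.SDN HexObs.NTW HexObs.JNT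

open Pool.Agent.NTS.Res

open NTSF

open scoped ENNReal Classical

/-- **the pointwise lower bound for the walks, every distance of the order `n ^ (3 / 4)`** -/
theorem loc_lowE_of {m : ℕ → ℝ} (hlo : ∃ c : ℝ, 0 < c ∧ ∀ k : ℕ, c * (2 : ℝ) ^ (4 / 3 * (k : ℝ)) ≤ m k)
    (hup : ∃ C : ℝ, ∀ k : ℕ, m k ≤ C * (2 : ℝ) ^ (4 / 3 * (k : ℝ)))
    (hA : ∃ (C : ℝ) (k0 : ℕ), 0 < C ∧ ∀ k n : ℕ, k0 ≤ k → m k ≤ n → n < m (k + 1) →
      gf (SawN n) ≤ ENNReal.ofReal C * nuX m k) (hL : HexObs.JNT.LocE m)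
    (hlow : ∃ c C K : ℝ, 0 < c ∧ 0 < C ∧ 0 < K ∧ ∀ n : ℕ, 1 ≤ n → ∀ z : ℂ,
      (∃ s : Fin n → Fin 3, Pool.Agent.NTS.Res.pos s n = z) → K * (n : ℝ) ^ (3 / 4 : ℝ) ≤ ‖z‖ →
      c * (n : ℝ) ^ (-(3 / 2) : ℝ) * Real.exp (-(C * (‖z‖ / (n : ℝ) ^ (3 / 4 : ℝ)) ^ 4)) * ((saw n).card : ℝ) ≤
        (((saw n).filter fun s => Pool.Agent.NTS.Res.pos s n = z).card : ℝ)) :
    ∃ C : ℝ, 0 < C ∧ ∀ ε : ℝ, 0 < ε → ∃ c : ℝ, 0 < c ∧ ∀ n : ℕ, 1 ≤ n → ∀ z : ℂ,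
      (∃ s ∈ saw n, Pool.Agent.NTS.Res.pos s n = z) → ε * (n : ℝ) ^ (3 / 4 : ℝ) ≤ ‖z‖ →
      c * (n : ℝ) ^ (-(3 / 2) : ℝ) * Real.exp (-(C * (‖z‖ / (n : ℝ) ^ (3 / 4 : ℝ)) ^ 4)) * ((saw n).card : ℝ) ≤
        (((saw n).filter fun s => Pool.Agent.NTS.Res.pos s n = z).card : ℝ) := by
  obtain ⟨R, κ, hS⟩ := scaleX_exists hlo hup
  obtain ⟨Ca, ka, hCa, hall⟩ := hA
  obtain ⟨cK, C, K, hcK, hC, hK, hbig⟩ := hlow
  refine ⟨C, hC, fun ε hε => ?_⟩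
  obtain ⟨c0, C0, n3, hc0, hC0, hord⟩ := hS.ord
  obtain ⟨e, he⟩ : ∃ e : ℝ, e = ε / C0 := ⟨_, rfl⟩
  have he0 : 0 < e := by rw [he]; positivity
  obtain ⟨K', hK'⟩ : ∃ K' : ℝ, K' = 2 * K / c0 + e := ⟨_, rfl⟩
  have hKe : e ≤ K' := by
    rw [hK']
    have : 0 ≤ 2 * K / c0 := by positivity
    linarith
  obtain ⟨c1, k1, hc1, hE⟩ := hL e K' he0 hKe
  obtain ⟨n1, hn1⟩ := hS.sc
  obtain ⟨n2, hn2⟩ := hS.top (max ka k1)
  obtain ⟨n0, hn0⟩ : ∃ n0, n0 = max (max n1 n2) n3 := ⟨_, rfl⟩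
  obtain ⟨c, hc⟩ : ∃ c : ℝ, c = min (min cK (1 / 3 ^ n0)) (c1 / (3 * Ca * C0 ^ 2)) := ⟨_, rfl⟩
  have hcp : 0 < c := by rw [hc]; exact lt_min (lt_min hcK (by positivity)) (by positivity)
  have hcA : c ≤ 1 / 3 ^ n0 := by rw [hc]; exact (min_le_left _ _).trans (min_le_right _ _)
  have hcB : c ≤ c1 / (3 * Ca * C0 ^ 2) := by rw [hc]; exact min_le_right _ _
  have hcC : c ≤ cK := by rw [hc]; exact (min_le_left _ _).trans (min_le_left _ _)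
  refine ⟨c, hcp, fun n hn z hz hzε => ?_⟩
  have hn' : (0 : ℝ) < n := by exact_mod_cast hn
  have hn1R : (1 : ℝ) ≤ n := by exact_mod_cast hn
  have hp0 : 0 < (n : ℝ) ^ (3 / 4 : ℝ) := by positivity
  have hcard := saw_card_pos n
  obtain ⟨L, hLd⟩ : ∃ L : ℝ, L = ‖z‖ / (n : ℝ) ^ (3 / 4 : ℝ) := ⟨_, rfl⟩
  have hL0 : 0 ≤ L := by rw [hLd]; positivity
  rw [← hLd]
  obtain ⟨W, hW⟩ : ∃ W : ℝ, W = (n : ℝ) ^ (-(3 / 2) : ℝ) := ⟨_, rfl⟩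
  have hW0 : 0 < W := by rw [hW]; positivity
  have hW1 : W ≤ 1 := by
    rw [hW]
    exact Real.rpow_le_one_of_one_le_of_nonpos hn1R (by norm_num)
  rw [← hW]
  have hex0 := Real.exp_pos (-(C * L ^ 4))
  have hex1 : Real.exp (-(C * L ^ 4)) ≤ 1 := by
    apply Real.exp_le_one_iff.2
    have : 0 ≤ C * L ^ 4 := by positivity
    linarith
  obtain ⟨s1, hs1, hz1⟩ := hz
  -- far points
  rcases le_or_gt (K * (n : ℝ) ^ (3 / 4 : ℝ)) ‖z‖ with hfar | hmid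
  · refine le_trans ?_ (hbig n hn z ⟨s1, hz1⟩ hfar)
    rw [← hLd, ← hW]
    gcongr
  have hone : (1 : ℝ) ≤ (((saw n).filter fun s => Pool.Agent.NTS.Res.pos s n = z).card : ℝ) := by
    have h1 : 0 < ((saw n).filter fun s => Pool.Agent.NTS.Res.pos s n = z).card :=
      Finset.card_pos.2 ⟨s1, Finset.mem_filter.2 ⟨hs1, hz1⟩⟩
    exact_mod_cast h1
  have hc3 := saw_card_le n
  -- small n
  rcases Nat.lt_or_ge n n0 with hns | hns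
  · refine le_trans ?_ hone
    have e2 : ((saw n).card : ℝ) ≤ 3 ^ n0 := hc3.trans (pow_le_pow_right₀ (by norm_num) hns.le)
    have e3 : c * W * Real.exp (-(C * L ^ 4)) ≤ 1 / 3 ^ n0 * 1 * 1 :=
      mul_le_mul (mul_le_mul hcA hW1 hW0.le (by positivity)) hex1 hex0.le (by positivity)
    have e4 : (0 : ℝ) < 3 ^ n0 := by positivity
    calc c * W * Real.exp (-(C * L ^ 4)) * ((saw n).card : ℝ) ≤ 1 / 3 ^ n0 * 1 * 1 * 3 ^ n0 :=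
          mul_le_mul e3 e2 hcard.le (by positivity)
      _ = 1 := by rw [mul_one, mul_one, one_div, inv_mul_cancel₀ e4.ne']
  -- the scales
  have b1 : n1 ≤ n := ((le_max_left n1 n2).trans (le_max_left _ _)).trans (hn0 ▸ hns)
  have b2 : n2 ≤ n := ((le_max_right n1 n2).trans (le_max_left _ _)).trans (hn0 ▸ hns)
  have b3 : n3 ≤ n := (le_max_right _ _).trans (hn0 ▸ hns)
  obtain ⟨a1, a2⟩ := hn1 n b1
  obtain ⟨o1, o2⟩ := hord n b3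
  rw [hS.R2] at o1 o2
  have hk := hn2 n b2
  -- the point
  obtain ⟨x, hx1, hx2⟩ := reach_pt s1 n le_rfl
  rw [hz1] at hx1
  obtain ⟨y, hy1, hy2, hy3⟩ := sector x
  obtain ⟨y4, y5⟩ := sector_norm hy3
  rw [hx1] at hy1
  rw [orb_norm hy1] at y4 y5
  have g1 : e * 2 ^ κ n ≤ ((ip y up : ℤ) : ℝ) := by
    calc e * 2 ^ κ n ≤ e * (C0 * (n : ℝ) ^ (3 / 4 : ℝ)) := by gcongr
      _ = ε * (n : ℝ) ^ (3 / 4 : ℝ) := by
          rw [he]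
          field_simp
      _ ≤ ‖z‖ := hzε
      _ ≤ _ := y4
  have g2 : ((ip y up : ℤ) : ℝ) ≤ K' * 2 ^ κ n := by
    calc ((ip y up : ℤ) : ℝ) ≤ 2 * ‖z‖ := y5
      _ ≤ 2 * (K * (n : ℝ) ^ (3 / 4 : ℝ)) := by linarith
      _ = 2 * K / c0 * (c0 * (n : ℝ) ^ (3 / 4 : ℝ)) := by field_simp
      _ ≤ 2 * K / c0 * 2 ^ κ n := by gcongr
      _ ≤ K' * 2 ^ κ n := by
          rw [hK']
          have : 0 ≤ e * 2 ^ κ n := by positivity
          linarith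
  have h1 := hE (κ n) n y ((le_max_right _ _).trans hk) a1 a2 g1 g2 hy3 (by
    rw [hy2, hx2]
    split_ifs <;> rfl)
  have h2 := hall (κ n) n ((le_max_left _ _).trans hk) a1 a2
  obtain ⟨q, hq⟩ : ∃ q : ℝ, q = c1 / 4 ^ κ n / Ca := ⟨_, rfl⟩
  have hq1 : 0 ≤ q := by
    rw [hq]
    positivity
  have h3 : ENNReal.ofReal q * gf (SawN n) ≤
      gf {t | t ∈ SawN n ∧ (vx oo up t n = y ∨ vx oo up t n = r3 y ∨ vx oo up t n = r3 (r3 y))} := by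
    calc ENNReal.ofReal q * gf (SawN n) ≤ ENNReal.ofReal q * (ENNReal.ofReal Ca * nuX m (κ n)) := mul_le_mul_right h2 _
      _ = ENNReal.ofReal (c1 / 4 ^ κ n) * nuX m (κ n) := by
          rw [← mul_assoc, ← ENNReal.ofReal_mul hq1, hq, div_mul_cancel₀ _ hCa.ne']
      _ ≤ _ := h1
  have h4 := prop_ge hn (fun s => Orb z (Pool.Agent.NTS.Res.pos s n)) (fun s => by rw [pos_rot]; exact orb_mul) hq1
    (B := {t | t ∈ SawN n ∧ (vx oo up t n = y ∨ vx oo up t n = r3 y ∨ vx oo up t n = r3 (r3 y))}) (by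
      rintro t ⟨ht, h⟩
      refine ⟨ht, ?_⟩
      rw [pos_sw n t n le_rfl]
      rcases h with h | h | h
      · rw [h]
        exact hy1
      · rw [h, JJ_r3]
        exact hy1.mul
      · rw [h, JJ_r3, JJ_r3]
        exact hy1.mul.mul) h3
  have h5 := card_orb (n := n) z
  -- numbers
  have e5 : W / C0 ^ 2 ≤ 1 / (4 : ℝ) ^ κ n := by
    have f1 : (4 : ℝ) ^ κ n = (2 ^ κ n) ^ 2 := by
      rw [← pow_mul, mul_comm, pow_mul]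
      norm_num
    have f2 : (4 : ℝ) ^ κ n ≤ (C0 * (n : ℝ) ^ (3 / 4 : ℝ)) ^ 2 := by
      rw [f1]
      exact pow_le_pow_left₀ (by positivity) o2 2
    have f3 : ((n : ℝ) ^ (3 / 4 : ℝ)) ^ 2 * W = 1 := by
      rw [hW, ← Real.rpow_natCast, ← Real.rpow_mul hn'.le, ← Real.rpow_add hn']
      norm_num
    rw [div_le_div_iff₀ (by positivity) (by positivity), one_mul]
    calc W * 4 ^ κ n ≤ W * (C0 * (n : ℝ) ^ (3 / 4 : ℝ)) ^ 2 := mul_le_mul_of_nonneg_left f2 hW0.le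
      _ = C0 ^ 2 * (((n : ℝ) ^ (3 / 4 : ℝ)) ^ 2 * W) := by ring
      _ = C0 ^ 2 := by rw [f3, mul_one]
  have e6 : c * W * Real.exp (-(C * L ^ 4)) ≤ q / 3 := by
    calc c * W * Real.exp (-(C * L ^ 4)) ≤ c1 / (3 * Ca * C0 ^ 2) * W * 1 := by gcongr
      _ = c1 / (3 * Ca) * (W / C0 ^ 2) := by field_simp
      _ ≤ c1 / (3 * Ca) * (1 / 4 ^ κ n) := by gcongr
      _ = q / 3 := by
          rw [hq]
          field_simp
  have e7 : c * W * Real.exp (-(C * L ^ 4)) * ((saw n).card : ℝ) ≤ q / 3 * ((saw n).card : ℝ) :=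
    mul_le_mul_of_nonneg_right e6 hcard.le
  linarith

/-- **the pointwise lower bound**, for the mean length of the bridges, from the words; `z` is the end of a self-avoiding
walk -/
theorem loc_lowE_M (hE : HexObs.JNT.LocE (fun k => PW.mZ (2 ^ k))) :
    ∃ C : ℝ, 0 < C ∧ ∀ ε : ℝ, 0 < ε → ∃ c : ℝ, 0 < c ∧ ∀ n : ℕ, 1 ≤ n → ∀ z : ℂ,
      (∃ s ∈ saw n, Pool.Agent.NTS.Res.pos s n = z) → ε * (n : ℝ) ^ (3 / 4 : ℝ) ≤ ‖z‖ →
      c * (n : ℝ) ^ (-(3 / 2) : ℝ) * Real.exp (-(C * (‖z‖ / (n : ℝ) ^ (3 / 4 : ℝ)) ^ 4)) * ((saw n).card : ℝ) ≤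
        (((saw n).filter fun s => Pool.Agent.NTS.Res.pos s n = z).card : ℝ) :=
  loc_lowE_of mLow_M mUp_M HexObs.EN.allX_M hE (loc_low_M HexObs.JNT.locLow_M)

/-- the upper and the lower side in terms of probabilities; the lower side at every distance of at least
`ε n ^ (3 / 4)` -/
theorem loc_twoE_of (hE : HexObs.JNT.LocE (fun k => PW.mZ (2 ^ k))) : ∃ c C : ℝ, 0 < c ∧ 0 < C ∧
    (∀ n : ℕ, 1 ≤ n → ∀ z : ℂ, ∀ L : ℝ, 0 ≤ L → prb n (fun s => Pool.Agent.NTS.Res.pos s n = z ∧ ∃ j, j ≤ n ∧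
        L * (n : ℝ) ^ (3 / 4 : ℝ) ≤ ‖Pool.Agent.NTS.Res.pos s j‖) ≤
        C * (n : ℝ) ^ (-(3 / 2) : ℝ) * Real.exp (-(c * L ^ 4))) ∧
    ∀ ε : ℝ, 0 < ε → ∃ a : ℝ, 0 < a ∧ ∀ n : ℕ, 1 ≤ n → ∀ z : ℂ,
      (∃ s ∈ saw n, Pool.Agent.NTS.Res.pos s n = z) → ε * (n : ℝ) ^ (3 / 4 : ℝ) ≤ ‖z‖ →
        a * (n : ℝ) ^ (-(3 / 2) : ℝ) * Real.exp (-(C * (‖z‖ / (n : ℝ) ^ (3 / 4 : ℝ)) ^ 4)) ≤
          prb n (fun s => Pool.Agent.NTS.Res.pos s n = z) := by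
  obtain ⟨c1, C1, hc1, hC1, h1⟩ := up_prb
  obtain ⟨C2, hC2, h2⟩ := loc_lowE_M hE
  refine ⟨c1, max C1 C2, hc1, lt_max_of_lt_left hC1, fun n hn z L hL => ?_, fun ε hε => ?_⟩
  · refine (h1 n hn z L hL).trans ?_
    gcongr
    exact le_max_left _ _
  · obtain ⟨a, ha, h3⟩ := h2 ε hε
    refine ⟨a, ha, fun n hn z hz hzε => ?_⟩
    have hn' : (0 : ℝ) < n := by exact_mod_cast hn
    have hcard := saw_card_pos n
    refine le_prb _ (le_trans (mul_le_mul_of_nonneg_right ?_ hcard.le) (h3 n hn z hz hzε))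
    have hX : 0 ≤ (‖z‖ / (n : ℝ) ^ (3 / 4 : ℝ)) ^ 4 := by positivity
    refine mul_le_mul_of_nonneg_left (Real.exp_le_exp.2 ?_) (by positivity)
    have := mul_le_mul_of_nonneg_right (le_max_right C1 C2) hX
    linarith

end Loc

end NTSZ
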