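import Pool.Agent.JNT.HookM

/-!
JNT, LOC2 (doc JNT/LOC2_70), row X2: half plane words without a cut, with a given (large) number of letters up to a window,
with the end in a small box.
-/

set_option autoImplicit false

namespace HexObs

namespace JNT

open Finset TS SDN NTW NTA PtC RP BAR POL

open scoped ENNReal

namespace Hk

lemma lt_fst (p : Pt) : lt' p = p.1 := by
  unfold lt' cross up
  ring

lemma lvl_ip (p : Pt) : lvl false p = ip p up := rfl

lemma lvl_two (p : Pt) : 2 * lvl true p = -(3 * lt' p + ip p up) := by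
  rw [lt_fst]
  show 2 * ip p ((-1, 0) : Pt) = _
  unfold ip up
  ring

/-- the lateral coordinate from the two levels -/
lemma lat_le {p : Pt} {B : ℝ} (h : ∀ dir : Bool, ((|lvl dir p| : ℤ) : ℝ) ≤ B) : |(lt' p : ℝ)| ≤ B ∧ |(ip p up : ℝ)| ≤ B := by
  have h1 := h false
  have h2 := h true
  rw [lvl_ip] at h1
  have h3 := lvl_two p
  have h4 : (2 : ℝ) * (lvl true p : ℝ) = -(3 * (lt' p : ℝ) + (ip p up : ℝ)) := by exact_mod_cast h3
  rw [Int.cast_abs] at h1 h2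
  refine ⟨?_, h1⟩
  rw [abs_le] at h1 h2 ⊢
  constructor <;> linarith

/-- the numbers of the masses -/
lemma num {c2 cU s p U V C2 κ : ℝ} (hs : 1 ≤ s) (hp : p = 1 / s) (hU : cU * s ^ 3 ≤ U) (hV : V ≤ 2 * C2 * s ^ 2)
    (hC2 : 0 < C2) (hκ : 0 ≤ κ) (hc2 : c2 = κ * cU / (2 * (1 + 4 * C2))) (hcU : 0 < cU) :
    2 * (1 + 2 * V) * U * c2 ≤ κ * U ^ 2 * p := by
  have hs0 : 0 < s := by linarith
  have hU0 : 0 < U := lt_of_lt_of_le (by positivity) hU
  have hs2 : 1 ≤ s ^ 2 := one_le_pow₀ hs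
  have h1 : 1 + 2 * V ≤ (1 + 4 * C2) * s ^ 2 := by nlinarith
  have hc20 : 0 ≤ c2 := by rw [hc2]; positivity
  calc 2 * (1 + 2 * V) * U * c2 ≤ 2 * ((1 + 4 * C2) * s ^ 2) * U * c2 := by gcongr
    _ = κ * U * (cU * s ^ 3) * p := by
        rw [hc2, hp]
        field_simp
    _ ≤ κ * U * U * p := by
        have : 0 ≤ p := by rw [hp]; positivity
        gcongr
    _ = _ := by ring

/-- **row X2** -/
theorem ncH_of {m : ℕ → ℝ} (hm : MLow m) (hT : TDW m) (hN : LowNar m) {η L C K1 : ℝ} (hη : 0 < η) (hL : 0 < L)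
    (hK1 : 0 < K1)
    (hup : ∀ (δ : ℝ) (i d : ℕ), 5 ≤ i → gf (POL.AT m i d δ L) ≤ ENNReal.ofReal (C * (2 : ℝ) ^ (-((i : ℝ) / 4))))
    (harc : ∀ δ : ℝ, 0 < δ → δ ≤ 1 → ∃ (c : ℝ) (i0 : ℕ), 0 < c ∧ ∀ i : ℕ, i0 ≤ i → ∃ d : ℕ, η * 2 ^ i ≤ d ∧
      (d : ℝ) ≤ K1 * 2 ^ i ∧ ENNReal.ofReal (c * (2 : ℝ) ^ (-((i : ℝ) / 4))) ≤ gf (POL.AT m i d δ L))
    (hB : NcB m) : NcH m := by
  classical
  intro e0 A he0 hA
  obtain ⟨e, he⟩ : ∃ e : ℝ, e = min e0 1 := ⟨_, rfl⟩
  have hee : e ≤ e0 := by rw [he]; exact min_le_left _ _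
  have he1 : e ≤ 1 := by rw [he]; exact min_le_right _ _
  have hepos : 0 < e := by rw [he]; exact lt_min he0 one_pos
  -- the scale of the arcs
  obtain ⟨j, hj⟩ := pow_unbounded_of_one_lt (16 * (K1 + 1) / e + 8 * L / e) (one_lt_two (α := ℝ))
  have hj1 : 16 * (K1 + 1) ≤ e * 2 ^ j := by
    have h1 : 16 * (K1 + 1) / e ≤ 2 ^ j := by
      have : 0 ≤ 8 * L / e := by positivity
      linarith
    rw [div_le_iff₀ hepos] at h1
    linarith
  have hj2 : 8 * L ≤ e * 2 ^ j := by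
    have h1 : 8 * L / e ≤ 2 ^ j := by
      have : 0 ≤ 16 * (K1 + 1) / e := by positivity
      linarith
    rw [div_le_iff₀ hepos] at h1
    linarith
  have hpj : (0 : ℝ) < 2 ^ j := by positivity
  obtain ⟨θ, hθ⟩ : ∃ θ : ℝ, θ = η / 2 ^ j := ⟨_, rfl⟩
  have hθ0 : 0 < θ := by rw [hθ]; positivity
  obtain ⟨v, hv⟩ : ∃ v : ℝ, v = min (θ / 8) (e / 32) := ⟨_, rfl⟩
  have hv0 : 0 < v := by rw [hv]; exact lt_min (by positivity) (by positivity)
  have hvθ : v ≤ θ / 8 := by rw [hv]; exact min_le_left _ _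
  have hve : v ≤ e / 32 := by rw [hv]; exact min_le_right _ _
  have hv1 : v ≤ 1 / 32 := by linarith
  obtain ⟨c5, k5, hc5, hB⟩ := hB v hv0
  obtain ⟨H0, hH⟩ := sd_mass (A := A) hm hN (w := v / 20) (v := v) (ρ := v) (by positivity) hv0 (by linarith) hv0 hA
  obtain ⟨H, hHd⟩ : ∃ H : ℕ, H = H0 + 1 := ⟨_, rfl⟩
  obtain ⟨c3, k3, hc3, h3⟩ := hH H (by omega) (by omega)
  obtain ⟨c1, k1, hc1, h1⟩ := hT (H + 1) v v hv0 hv0
  obtain ⟨ca, i0, hca, h2⟩ := harc 1 one_pos le_rfl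
  obtain ⟨cU, hcU, hUU⟩ := GLow.UU_low
  obtain ⟨C2, hC2, hU2⟩ := U2_le
  obtain ⟨kt, hkt⟩ := pow_unbounded_of_one_lt (40 / e + 1 / v) (one_lt_two (α := ℝ))
  obtain ⟨κ, hκ⟩ : ∃ κ : ℝ, κ = c1 * ca * c3 * c5 := ⟨_, rfl⟩
  obtain ⟨c, hc⟩ : ∃ c : ℝ, c = κ * cU / (2 * (1 + 4 * C2)) := ⟨_, rfl⟩
  have hκ0 : 0 < κ := by rw [hκ]; positivity
  have hc0 : 0 < c := by rw [hc]; positivity
  refine ⟨c, k1 + k3 + k5 + kt + (i0 + j + 5), hc0, fun k b p hk hp hb1 hb2 => ?_⟩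
  obtain ⟨i, hi⟩ : ∃ i, i = k - j := ⟨_, rfl⟩
  have hki : k = i + j := by omega
  obtain ⟨d, hd1, hd2, hd3⟩ := h2 i (by omega)
  have hmk := hm.pos k
  have hUk := Ub_pos k
  have hpk : (0 : ℝ) < 2 ^ k := by positivity
  have hpi : (0 : ℝ) < 2 ^ i := by positivity
  have hpkt : (2 : ℝ) ^ kt ≤ 2 ^ k := pow_le_pow_right₀ (by norm_num) (by omega)
  have hke : 40 ≤ e * 2 ^ k := by
    have h4 : 40 / e ≤ 2 ^ k := by
      have : 0 ≤ 1 / v := by positivity
      linarith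
    rw [div_le_iff₀ hepos] at h4
    linarith
  have hkv : 1 ≤ v * 2 ^ k := by
    have h4 : 1 / v ≤ 2 ^ k := by
      have : 0 ≤ 40 / e := by positivity
      linarith
    rw [div_le_iff₀ hv0] at h4
    linarith
  have hθi : θ * 2 ^ k = η * 2 ^ i := by
    rw [hθ, hki, pow_add]
    field_simp
  have hKi : 16 * ((K1 + 1) * 2 ^ i) ≤ e * 2 ^ k := by
    have : 16 * (K1 + 1) * 2 ^ i ≤ e * 2 ^ j * 2 ^ i := mul_le_mul_of_nonneg_right hj1 hpi.le
    have h4 : e * 2 ^ k = e * 2 ^ j * 2 ^ i := by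
      rw [hki, pow_add]
      ring
    linarith
  have hLm : 8 * (L * m i) ≤ e * m k := by
    have h4 := hm.low i j
    rw [← hki] at h4
    have h5 : (2 : ℝ) ^ j ≤ (2 : ℝ) ^ (5 / 4 * (j : ℝ)) := by
      rw [← Real.rpow_natCast]
      refine Real.rpow_le_rpow_of_exponent_le (by norm_num) ?_
      have : (0 : ℝ) ≤ j := Nat.cast_nonneg j
      linarith
    have hmi := hm.pos i
    have h6 : (2 : ℝ) ^ j * m i ≤ m k := (mul_le_mul_of_nonneg_right h5 hmi.le).trans h4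
    calc 8 * (L * m i) = 8 * L * m i := by ring
      _ ≤ e * 2 ^ j * m i := mul_le_mul_of_nonneg_right hj2 hmi.le
      _ = e * (2 ^ j * m i) := by ring
      _ ≤ e * m k := mul_le_mul_of_nonneg_left h6 hepos.le
  obtain ⟨g, hg⟩ : ∃ g : ℕ, g = ⌈2 * v * 2 ^ k⌉₊ := ⟨_, rfl⟩
  have hg1 : 2 * (v * 2 ^ k) ≤ g := by
    rw [hg, ← mul_assoc]
    exact Nat.le_ceil _
  have hg2 : (g : ℝ) ≤ 2 * (v * 2 ^ k) + 1 := by
    rw [hg, ← mul_assoc]
    exact (Nat.ceil_lt_add_one (by positivity)).le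
  have hHk : (2 : ℝ) ^ k ≤ ((H * 2 ^ k : ℕ) : ℝ) := by
    push_cast
    have : (1 : ℝ) ≤ H := by
      have : 1 ≤ H := by omega
      exact_mod_cast this
    nlinarith
  -- the classes
  obtain ⟨AA, hAA⟩ : ∃ AA, AA = POL.AT m i d 1 L := ⟨_, rfl⟩
  obtain ⟨S1, hS1⟩ : ∃ S1, S1 = TD m k (H * 2 ^ k + g) v v := ⟨_, rfl⟩
  obtain ⟨S3, hS3⟩ : ∃ S3, S3 = SD m k (H * 2 ^ k) b v (20 * (v / 20)) v := ⟨_, rfl⟩
  obtain ⟨SE, hSE⟩ : ∃ SE : Set (List Bool), SE = {A | A ∈ BAR.HiN A.length ∧ A.length % 2 = (p + 1) % 2 ∧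
    (A.length : ℝ) ≤ v * m k ∧ ∀ i, i ≤ A.length → ∀ dir : Bool, ((|lvl dir (vx oo up A i)| : ℤ) : ℝ) ≤ v * 2 ^ k} := ⟨_, rfl⟩
  have m1 : ENNReal.ofReal (c1 * Ub k) ≤ gf S1 := by
    rw [hS1]
    refine h1 k _ (by omega) ?_
    have e1 : ((H * 2 ^ k + g : ℕ) : ℝ) ≤ (((H + 1) * 2 ^ k : ℕ) : ℝ) := by
      push_cast
      have : v * 2 ^ k ≤ 1 / 32 * 2 ^ k := mul_le_mul_of_nonneg_right hv1 hpk.le
      have : e * 2 ^ k ≤ 1 * 2 ^ k := mul_le_mul_of_nonneg_right he1 hpk.le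
      linarith
    exact_mod_cast e1
  have m3 : ENNReal.ofReal (c3 * Ub k) ≤ gf S3 := by
    rw [hS3]
    exact h3 k b (by omega) hb1 hb2
  have m5 : ENNReal.ofReal c5 * Xb k ≤ gf SE := by
    rw [hSE]
    exact hB k ((p + 1) % 2) (by omega) (Nat.mod_lt _ (by norm_num))
  rw [← hAA] at hd3
  -- the target
  obtain ⟨Goal, hGoal⟩ : ∃ Goal : Set (List Bool), Goal = {F | F ∈ BAR.HiN F.length ∧ F.length % 2 = p ∧
    b ≤ F.length ∧ (F.length : ℝ) ≤ b + e0 * m k ∧ ∀ dir : Bool, ((|lvl dir (en F)| : ℤ) : ℝ) ≤ e0 * 2 ^ k} := ⟨_, rfl⟩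
  rw [← hGoal]
  obtain ⟨LB, hLB⟩ : ∃ LB : Set (List Bool), LB = {B | ∃ h, h ≤ 2 ^ k ∧ B ∈ Brd h} := ⟨_, rfl⟩
  have hLBm : gf LB ≤ ENNReal.ofReal (Ub k) := by
    rw [hLB]
    exact NTm.low_mass (2 ^ k)
  have hsub : {F | ∃ Z X D E : List Bool, (Z ∈ S1 ∧ X ∈ AA ∧ D ∈ S3 ∧ E ∈ SE) ∧ F = Z ++ (X ++ (D ++ E))} ⊆ Ex.cat LB Goal := by
    rintro F ⟨Z, X, D, E, ⟨hZ, hX, hD, hE⟩, rfl⟩
    rw [hS1] at hZ
    rw [hAA] at hX
    rw [hS3] at hD
    rw [hSE] at hE
    obtain ⟨z1, z2, z3, z4, z5⟩ := hZ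
    obtain ⟨d1, d2, d3, d4, d5, d6⟩ := hD
    obtain ⟨e1, e2, e3, e4⟩ := hE
    have hXa := at_ark hX
    obtain ⟨a0, x1, x2, x3, x4⟩ := hX
    have bZ := BU_hgt z1
    have bD := BU_hgt d1
    have hfoot := foot_lat x3.1
    have hv20 : 20 * (v / 20) = v := by ring
    rw [hv20] at d4
    -- sizes
    have f1 : η * 2 ^ i ≤ a0 := by
      have : (d : ℝ) ≤ a0 := by exact_mod_cast x1
      linarith
    have f2 : (a0 : ℝ) ≤ (K1 + 1) * 2 ^ i := by linarith
    have hlX : (latE X : ℝ) = 2 * a0 := by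
      rw [hfoot]
      push_cast
      ring
    have z2' : ((H * 2 ^ k : ℕ) : ℝ) + g ≤ hgt Z := by exact_mod_cast z2
    have z3' : (hgt Z : ℝ) ≤ ((H * 2 ^ k : ℕ) : ℝ) + g + v * 2 ^ k := by
      have := z3
      push_cast at this ⊢
      linarith
    have d2' : ((H * 2 ^ k : ℕ) : ℝ) ≤ hgt D := by exact_mod_cast d2
    have hvk : 8 * (v * 2 ^ k) ≤ η * 2 ^ i := by
      rw [← hθi]
      have : v * 2 ^ k ≤ θ / 8 * 2 ^ k := mul_le_mul_of_nonneg_right hvθ hpk.le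
      linarith
    have hvk2 : 32 * (v * 2 ^ k) ≤ e * 2 ^ k := by
      have : v * 2 ^ k ≤ e / 32 * 2 ^ k := mul_le_mul_of_nonneg_right hve hpk.le
      linarith
    have hEb : ∀ i, i ≤ E.length → |(lat E i : ℝ)| ≤ v * 2 ^ k ∧ |(lev E i : ℝ)| ≤ v * 2 ^ k := fun i hi =>
      lat_le (p := vx oo up E i) (e4 i hi)
    have hF := hook_HpN (v := v * 2 ^ k) (W := v * 2 ^ k) (B := v * 2 ^ k) bZ hXa bD e1.1 z4 d4
      (fun i hi => (hEb i hi).1) (fun i hi => (abs_le.1 (hEb i hi).2).2) (by linarith) (by rw [hlX]; linarith)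
    have hen := hook_en (E := E) bZ hXa bD
    have hLv := lv4 bZ hXa bD e1.1
    obtain ⟨F, hFd⟩ : ∃ F, F = Z ++ (X ++ (D ++ E)) := ⟨_, rfl⟩
    rw [← hFd] at hF hen hLv ⊢
    have hlen : F.length = Z.length + (X.length + (D.length + E.length)) := by
      rw [hFd, List.length_append, List.length_append, List.length_append]
    obtain ⟨B, G, hBG, hBB, hG⟩ := last_cut hF
    have bB := BU_hgt hBB
    obtain ⟨r, hr⟩ : ∃ r, r = hgt B := ⟨_, rfl⟩
    rw [← hr] at bB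
    have hB3 := (mem_Brd.1 bB).2.2.1
    have henG : en F = en B + en G := by
      have := vx_cat hB3 (t := G) G.length
      rw [← hBG] at this
      show vx oo up F F.length = _
      rw [show F.length = B.length + G.length by rw [hBG, List.length_append], this]
      rfl
    have hlenG : F.length = B.length + G.length := by rw [hBG, List.length_append]
    have i1 : ip (en Z) up = 3 * (hgt Z : ℤ) := (mem_Brd.1 bZ).2.2.2
    have i2 : ip (en X) up = 2 := hXa.2.2.1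
    have i3 : ip (en D) up = 3 * (hgt D : ℤ) := (mem_Brd.1 bD).2.2.2
    have i4 : ip (en B) up = 3 * (r : ℤ) := (mem_Brd.1 bB).2.2.2
    have hGp : 0 ≤ ip (en G) up := by
      rcases Nat.eq_zero_or_pos G.length with h0 | h0
      · have : ip (en G) up = lev G 0 := by
          show lev G G.length = _
          rw [h0]
        rw [this, lev_zero]
      · exact le_of_lt ((HpN_iff.1 hG.1).2.1 G.length h0 le_rfl)
    have hipF : ip (en F) up = 3 * (hgt Z : ℤ) + (2 - (3 * (hgt D : ℤ) + ip (en E) up)) := by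
      rw [hen, ip_add', ip_sub', ip_add', i1, i2, i3]
    have hipF2 : ip (en F) up = 3 * (r : ℤ) + ip (en G) up := by
      rw [henG, ip_add', i4]
    obtain ⟨g1, g2⟩ := lat_le (p := en E) (e4 E.length le_rfl)
    have hipR : (ip (en F) up : ℝ) = 3 * hgt Z + (2 - (3 * hgt D + (ip (en E) up : ℝ))) := by
      rw [hipF]
      push_cast
      ring
    have hipR2 : (ip (en F) up : ℝ) = 3 * r + (ip (en G) up : ℝ) := by
      rw [hipF2]
      push_cast
      ring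
    have hGpR : (0 : ℝ) ≤ (ip (en G) up : ℝ) := by exact_mod_cast hGp
    have g2' := (abs_le.1 g2).1
    have hFu : (ip (en F) up : ℝ) ≤ e / 2 * 2 ^ k := by
      rw [hipR]
      linarith
    have hr3 : (3 : ℝ) * r ≤ e / 2 * 2 ^ k := by linarith
    have hek : e * 2 ^ k ≤ 2 ^ k := by
      have := mul_le_mul_of_nonneg_right he1 hpk.le
      linarith
    have hrk : (r : ℝ) < hgt Z := by linarith
    have hrk' : r < hgt Z := by exact_mod_cast hrk
    have hBZ : B.length ≤ Z.length := by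
      by_contra hcon
      push Not at hcon
      have hZ0 : 1 ≤ Z.length := by
        rcases Nat.eq_zero_or_pos Z.length with h0 | h0
        · exfalso
          have h5 := hLv.l1e
          rw [h0, lev_zero] at h5
          omega
        · exact h0
      have h5 := ((mem_Brd.1 bB).1 Z.length hZ0 hcon.le).2
      have h6 : lev F Z.length = lev B Z.length := by
        rw [← ip_vx, ← ip_vx, hBG, vx_append (by omega)]
      rw [← h6, hLv.l1e] at h5
      omega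
    have hlB : |(lt' (en B) : ℝ)| ≤ v * 2 ^ k := by
      have h5 : en B = vx oo up Z B.length := by
        have e1 : vx oo up F B.length = vx oo up B B.length := by rw [hBG, vx_append (by omega)]
        have e2 : vx oo up F B.length = vx oo up Z B.length := by rw [hFd, vx_append (by omega)]
        show vx oo up B B.length = _
        rw [← e1, e2]
      rw [h5, lt_vx]
      exact z4 _ hBZ
    refine ⟨B, G, ?_, ?_, hBG⟩
    · rw [hLB]
      refine ⟨r, ?_, bB⟩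
      have : (r : ℝ) ≤ ((2 ^ k : ℕ) : ℝ) := by
        push_cast
        linarith
      exact_mod_cast this
    · rw [hGoal]
      have o1 := ev_len bZ
      have o2 := od_len hXa
      have o3 := ev_len bD
      have o4 := ev_len bB
      have hGl : (G.length : ℝ) ≤ F.length := by
        have : G.length ≤ F.length := by omega
        exact_mod_cast this
      have hFl : (F.length : ℝ) = Z.length + (X.length + (D.length + E.length)) := by exact_mod_cast hlen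
      refine ⟨hG, by omega, by omega, ?_, ?_⟩
      · have q1 : e * m k ≤ e0 * m k := mul_le_mul_of_nonneg_right hee hmk.le
        have q2 : v * m k ≤ e / 32 * m k := mul_le_mul_of_nonneg_right hve hmk.le
        have q3 : 0 ≤ e * m k := by positivity
        linarith
      · have q1 : e * 2 ^ k ≤ e0 * 2 ^ k := mul_le_mul_of_nonneg_right hee hpk.le
        have q0 : 0 < e * 2 ^ k := by positivity
        have hlt : (lt' (en G) : ℝ) = (lt' (en Z) : ℝ) + ((latE X : ℝ) - ((lt' (en D) : ℝ) + (lt' (en E) : ℝ))) -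
            (lt' (en B) : ℝ) := by
          have h5 : lt' (en F) = lt' (en B) + lt' (en G) := by rw [henG, lt_add]
          have h6 : lt' (en F) = lt' (en Z) + (lt' (en X) - (lt' (en D) + lt' (en E))) := by
            rw [hen, lt_add, lt_sub, lt_add]
          have h7 : lt' (en X) = latE X := rfl
          have h8 : lt' (en G) = lt' (en Z) + (latE X - (lt' (en D) + lt' (en E))) - lt' (en B) := by omega
          rw [h8]
          push_cast
          ring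
        have hzl := z4 Z.length le_rfl
        have hdl := d4 D.length le_rfl
        have hzl' : |(lt' (en Z) : ℝ)| ≤ v * 2 ^ k := hzl
        have hdl' : |(lt' (en D) : ℝ)| ≤ v * 2 ^ k := hdl
        have hgl : |(lt' (en G) : ℝ)| ≤ e / 4 * 2 ^ k := by
          rw [hlt, hlX]
          rw [abs_le] at hzl' hdl' g1 hlB ⊢
          have q3 : (0 : ℝ) ≤ a0 := Nat.cast_nonneg _
          constructor
          · linarith
          · linarith
        have hgi : |(ip (en G) up : ℝ)| ≤ e / 2 * 2 ^ k := by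
          rw [abs_of_nonneg hGpR]
          have : (0 : ℝ) ≤ 3 * r := by positivity
          linarith
        intro dir
        rw [Int.cast_abs]
        cases dir
        · rw [lvl_ip]
          linarith
        · have h5 := lvl_two (en G)
          have h6 : (2 : ℝ) * (lvl true (en G) : ℝ) = -(3 * (lt' (en G) : ℝ) + (ip (en G) up : ℝ)) := by exact_mod_cast h5
          rw [abs_le] at hgl hgi ⊢
          constructor <;> linarith
  -- the masses
  have hkey := hook_mass (AA := AA) (S1 := S1) (S3 := S3) (SE := SE) (k := i + 1) (S := 2 * 2 ^ i)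
    (fun X hX => by rw [hAA] at hX; exact at_ark hX) (by rw [pow_succ, mul_comm])
    (by rw [hAA]; exact ne_top_of_le_ne_top ENNReal.ofReal_ne_top (hup 1 i d (by omega)))
    (fun Z hZ => by rw [hS1] at hZ; exact hZ.1) (fun D hD => by rw [hS3] at hD; exact hD.1)
    (fun E hE => by rw [hSE] at hE; exact hE.1)
    (fun Z hZ Z' hZ' D hD => by
      rw [hS1] at hZ hZ'
      rw [hS3] at hD
      have q1 : ((H * 2 ^ k + g : ℕ) : ℝ) ≤ hgt Z := by exact_mod_cast hZ.2.1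
      have q2 := hZ'.2.2.1
      have q3 : ((H * 2 ^ k : ℕ) : ℝ) ≤ hgt D := by exact_mod_cast hD.2.1
      have q4 : v * 2 ^ k ≤ 1 / 32 * 2 ^ k := mul_le_mul_of_nonneg_right hv1 hpk.le
      have q5 : (hgt Z' : ℝ) < ((hgt Z + hgt D : ℕ) : ℝ) := by
        push_cast at q1 q2 q3 hHk ⊢
        linarith
      exact_mod_cast q5)
  have hkey2 : ENNReal.ofReal (c1 * Ub k) * (ENNReal.ofReal (ca * (2 : ℝ) ^ (-((i : ℝ) / 4))) *
      (ENNReal.ofReal (c3 * Ub k) * (ENNReal.ofReal c5 * Xb k))) ≤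
      ENNReal.ofReal (2 * (1 + 2 * U2 (2 ^ (i + 1)))) * (ENNReal.ofReal (Ub k) * gf Goal) := by
    refine (mul_le_mul' m1 (mul_le_mul' hd3 (mul_le_mul' m3 m5))).trans (hkey.trans (mul_le_mul' le_rfl ?_))
    exact (gf_mono hsub).trans ((Ex.gf_cat_le _ _).trans (mul_le_mul' hLBm le_rfl))
  obtain ⟨s, hs⟩ : ∃ s : ℝ, s = (2 : ℝ) ^ ((i : ℝ) / 4) := ⟨_, rfl⟩
  have hs1 : 1 ≤ s := by rw [hs]; exact Real.one_le_rpow (by norm_num) (by positivity)
  have hp' : (2 : ℝ) ^ (-((i : ℝ) / 4)) = 1 / s := by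
    rw [hs, Real.rpow_neg (by norm_num), one_div]
  have hs4 : s ^ 4 = 2 ^ i := by
    rw [hs, ← Real.rpow_natCast, ← Real.rpow_mul (by norm_num), ← Real.rpow_natCast]
    congr 1
    push_cast
    ring
  have hU2' : U2 (2 ^ (i + 1)) ≤ 2 * C2 * s ^ 2 := by
    have q1 := hU2 (2 ^ (i + 1)) Nat.one_le_two_pow
    have q2 : Real.sqrt ((2 ^ (i + 1) : ℕ) : ℝ) ≤ 2 * s ^ 2 := by
      rw [Real.sqrt_le_left (by positivity)]
      push_cast
      have q3 : (2 * s ^ 2) ^ 2 = 4 * 2 ^ i := by rw [← hs4]; ring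
      rw [q3, pow_succ]
      linarith
    calc U2 (2 ^ (i + 1)) ≤ C2 * Real.sqrt ((2 ^ (i + 1) : ℕ) : ℝ) := q1
      _ ≤ C2 * (2 * s ^ 2) := mul_le_mul_of_nonneg_left q2 hC2.le
      _ = _ := by ring
  have hUk' : cU * s ^ 3 ≤ Ub k := by
    have q1 := hUU (2 ^ k) Nat.one_le_two_pow
    have q2 : s ^ 3 ≤ ((2 ^ k : ℕ) : ℝ) ^ (3 / 4 : ℝ) := by
      push_cast
      have q3 : s ^ 3 = ((2 : ℝ) ^ i) ^ (3 / 4 : ℝ) := by
        rw [hs, ← Real.rpow_natCast, ← Real.rpow_natCast, ← Real.rpow_mul (by norm_num), ← Real.rpow_mul (by norm_num)]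
        congr 1
        push_cast
        ring
      rw [q3]
      exact Real.rpow_le_rpow (by positivity) (pow_le_pow_right₀ (by norm_num) (by omega)) (by norm_num)
    exact (mul_le_mul_of_nonneg_left q2 hcU.le).trans q1
  have hnum := num (κ := κ) hs1 hp' hUk' hU2' hC2 hκ0.le hc hcU
  have hV := U2_pos (2 ^ (i + 1))
  obtain ⟨Q, hQ⟩ : ∃ Q : ℝ, Q = 2 * (1 + 2 * U2 (2 ^ (i + 1))) * Ub k := ⟨_, rfl⟩
  have hQ0 : 0 < Q := by rw [hQ]; positivity
  rw [← hQ] at hnum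
  have hQ1 : ENNReal.ofReal Q ≠ 0 := by
    rw [Ne, ENNReal.ofReal_eq_zero, not_le]
    exact hQ0
  rw [← ENNReal.mul_le_mul_iff_right hQ1 ENNReal.ofReal_ne_top]
  calc ENNReal.ofReal Q * (ENNReal.ofReal c * Xb k) = ENNReal.ofReal (Q * c) * Xb k := by
        rw [← mul_assoc, ← ENNReal.ofReal_mul hQ0.le]
    _ ≤ ENNReal.ofReal (κ * Ub k ^ 2 * (2 : ℝ) ^ (-((i : ℝ) / 4))) * Xb k := by gcongr
    _ = ENNReal.ofReal (c1 * Ub k) * (ENNReal.ofReal (ca * (2 : ℝ) ^ (-((i : ℝ) / 4))) *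
        (ENNReal.ofReal (c3 * Ub k) * (ENNReal.ofReal c5 * Xb k))) := by
        have hp0 : 0 < (2 : ℝ) ^ (-((i : ℝ) / 4)) := by positivity
        rw [← mul_assoc (ENNReal.ofReal (c3 * Ub k)), ← ENNReal.ofReal_mul (by positivity), ← mul_assoc (ENNReal.ofReal (ca * _)),
          ← ENNReal.ofReal_mul (by positivity), ← mul_assoc (ENNReal.ofReal (c1 * Ub k)), ← ENNReal.ofReal_mul (by positivity)]
        congr 2
        rw [hκ]
        ring
    _ ≤ _ := hkey2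
    _ = ENNReal.ofReal Q * gf Goal := by
        rw [hQ, ENNReal.ofReal_mul (p := 2 * (1 + 2 * U2 (2 ^ (i + 1)))) (by positivity), mul_assoc]

end Hk

end JNT

end HexObs
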