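import Pool.Agent.JNT.NcB
import Pool.Agent.JNT.NcHOf
import Pool.Agent.JNT.LocE
import Pool.Agent.JNT.LocLowE
import Pool.Agent.JNT.ArcU
import Pool.Agent.JNT.NarM
import Pool.Agent.JNT.LocF
import Pool.Agent.POL.MassM

/-!
JNT, LOC2 (doc JNT/LOC2_70), no hypothesis: the pointwise lower bound at every distance of at least ε n ^ (3 / 4), and the
public form with both sides.
-/

set_option autoImplicit false

namespace HexObs

namespace JNT

/-- **row X2**, no hypothesis -/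
theorem ncH_M : NcH (fun k => PW.mZ (2 ^ k)) := by
  obtain ⟨η, L, C, K1, hη, hL, _, hK1, hup, harc⟩ := POL.arcsU_M
  exact Hk.ncH_of NTA.mlow_M POL.tdW_M lowNar_M hη hL hK1 hup harc ncB_M

/-- **row X3**, no hypothesis -/
theorem locE_M : LocE (fun k => PW.mZ (2 ^ k)) := locE_of NTA.mlow_M NTA.mup_M lowC_M ncP_M ncH_M jCnt

end JNT

end HexObs

namespace NTSZ

namespace Loc

open HexObs hiding pos curve

open Pool.Agent.NTS.Res

open scoped Classical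

/-- **both sides**, no hypothesis: the upper bound at every point, the lower bound at every end point of a self-avoiding
walk at a distance of at least ε n ^ (3 / 4), ε > 0 being arbitrary -/
theorem loc_twoE : ∃ c C : ℝ, 0 < c ∧ 0 < C ∧
    (∀ n : ℕ, 1 ≤ n → ∀ z : ℂ, ∀ L : ℝ, 0 ≤ L → prb n (fun s => Pool.Agent.NTS.Res.pos s n = z ∧ ∃ j, j ≤ n ∧
        L * (n : ℝ) ^ (3 / 4 : ℝ) ≤ ‖Pool.Agent.NTS.Res.pos s j‖) ≤
        C * (n : ℝ) ^ (-(3 / 2) : ℝ) * Real.exp (-(c * L ^ 4))) ∧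
    ∀ ε : ℝ, 0 < ε → ∃ a : ℝ, 0 < a ∧ ∀ n : ℕ, 1 ≤ n → ∀ z : ℂ,
      (∃ s ∈ saw n, Pool.Agent.NTS.Res.pos s n = z) → ε * (n : ℝ) ^ (3 / 4 : ℝ) ≤ ‖z‖ →
        a * (n : ℝ) ^ (-(3 / 2) : ℝ) * Real.exp (-(C * (‖z‖ / (n : ℝ) ^ (3 / 4 : ℝ)) ^ 4)) ≤
          prb n (fun s => Pool.Agent.NTS.Res.pos s n = z) :=
  loc_twoE_of HexObs.JNT.locE_M

end Loc

end NTSZ
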