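import Pool.Agent.JNT.HookC
import Pool.Agent.HexSPR.Code

/-!
JNT, LOC2 (doc JNT/LOC2_70): the mass of the down strands with the number of letters in a window, the last cut, and
the row X2 (NcH) from the hooks.
-/

set_option autoImplicit false

namespace HexObs

namespace JNT

open Finset TS SDN NTW NTA PtC RP BAR POL

open scoped ENNReal

namespace Hk

/-! ### 1. Down strands with the number of letters in a window -/

/-- bridges of height h up to h + v 2 ^ k in a tube, the number of letters in a window -/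
def SD (m : ℕ → ℝ) (k h b : ℕ) (v W ρ : ℝ) : Set (List Bool) :=
  {D | D ∈ BU ∧ h ≤ hgt D ∧ (hgt D : ℝ) ≤ h + v * 2 ^ k ∧ (∀ i, i ≤ D.length → |(lat D i : ℝ)| ≤ W * 2 ^ k) ∧
    b ≤ D.length ∧ (D.length : ℝ) ≤ b + ρ * m k}

theorem sd_mass {m : ℕ → ℝ} (hm : MLow m) (hN : LowNar m) {w v ρ A : ℝ} (hw : 0 < w) (hv : 0 < v) (hv1 : v ≤ 1)
    (hρ : 0 < ρ) (hA : 1 / 2 ≤ A) : ∃ H0 : ℕ, ∀ H : ℕ, H0 ≤ H → 1 ≤ H → ∃ (c : ℝ) (k0 : ℕ), 0 < c ∧ ∀ k b : ℕ, k0 ≤ k →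
      1 / 2 * m k ≤ b → (b : ℝ) ≤ A * m k → ENNReal.ofReal (c * Ub k) ≤ gf (SD m k (H * 2 ^ k) b v (20 * w) ρ) := by
  obtain ⟨H0, hH⟩ := hN w (1 / 2) (A + ρ) hw (by norm_num) (by linarith)
  refine ⟨H0, fun H h0 h1 => ?_⟩
  obtain ⟨c, k0, hc, hL⟩ := hH H h0
  obtain ⟨k1, hk1⟩ := pow_unbounded_of_one_lt (4 / w + 4 / (ρ * m 0)) (one_lt_two (α := ℝ))
  have hm0 := hm.pos 0
  refine ⟨c * v * w * ρ / 16, max k0 k1, by positivity, fun k b hk hb1 hb2 => ?_⟩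
  have hk0 : k0 ≤ k := (le_max_left _ _).trans hk
  have hk1' : k1 ≤ k := (le_max_right _ _).trans hk
  have hmk := hm.pos k
  have hUk := Ub_pos k
  have hpk : (0 : ℝ) < 2 ^ k := by positivity
  have hp1 : (2 : ℝ) ^ k1 ≤ 2 ^ k := pow_le_pow_right₀ (by norm_num) hk1'
  have hq0 : 0 < 4 / w := by positivity
  have hq1 : 0 < 4 / (ρ * m 0) := by positivity
  have hwk : 4 ≤ w * 2 ^ k := by
    have h2 : 4 / w ≤ 2 ^ k := by linarith
    rw [div_le_iff₀ hw] at h2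
    linarith
  have hmk0 : 2 ^ k * m 0 ≤ m k := by
    have h2 := hm.low 0 k
    rw [zero_add] at h2
    have h3 : (2 : ℝ) ^ k ≤ (2 : ℝ) ^ (5 / 4 * (k : ℝ)) := by
      rw [← Real.rpow_natCast]
      refine Real.rpow_le_rpow_of_exponent_le (by norm_num) ?_
      have : (0 : ℝ) ≤ k := Nat.cast_nonneg k
      linarith
    exact (mul_le_mul_of_nonneg_right h3 hm0.le).trans h2
  have hρk : 4 ≤ ρ * m k := by
    have h2 : 4 / (ρ * m 0) ≤ 2 ^ k := by linarith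
    rw [div_le_iff₀ (by positivity)] at h2
    have h3 : 2 ^ k * (ρ * m 0) = ρ * (2 ^ k * m 0) := by ring
    have h4 : ρ * (2 ^ k * m 0) ≤ ρ * m k := mul_le_mul_of_nonneg_left hmk0 hρ.le
    linarith
  -- the numbers
  obtain ⟨n1, hn1⟩ : ∃ n1 : ℕ, n1 = ⌊v * 2 ^ k⌋₊ := ⟨_, rfl⟩
  obtain ⟨n2, hn2⟩ : ∃ n2 : ℕ, n2 = ⌊w * 2 ^ k / 2⌋₊ := ⟨_, rfl⟩
  obtain ⟨n3, hn3⟩ : ∃ n3 : ℕ, n3 = ⌊ρ * m k / 2⌋₊ := ⟨_, rfl⟩
  have a1 : (n1 : ℝ) ≤ v * 2 ^ k := by rw [hn1]; exact Nat.floor_le (by positivity)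
  have a2 : (n2 : ℝ) ≤ w * 2 ^ k / 2 := by rw [hn2]; exact Nat.floor_le (by positivity)
  have a3 : (n3 : ℝ) ≤ ρ * m k / 2 := by rw [hn3]; exact Nat.floor_le (by positivity)
  have b1 : v * 2 ^ k ≤ ((n1 + 1 : ℕ) : ℝ) := by
    rw [hn1]
    push_cast
    exact (Nat.lt_floor_add_one _).le
  have b2 : w * 2 ^ k / 4 ≤ (n2 : ℝ) := by
    have := Nat.lt_floor_add_one (w * 2 ^ k / 2)
    rw [← hn2] at this
    linarith
  have b3 : ρ * m k / 4 ≤ (n3 : ℝ) := by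
    have := Nat.lt_floor_add_one (ρ * m k / 2)
    rw [← hn3] at this
    linarith
  obtain ⟨b', hb'⟩ : ∃ b' : ℕ, b' = (b + 1) / 2 := ⟨_, rfl⟩
  obtain ⟨S, hS⟩ : ∃ S : ℕ × ℕ × ℕ → Set (List Bool), S = fun q =>
    {Z | Z ∈ EndB (H * 2 ^ k + q.1) (((H * 2 ^ k + q.1) % 2 : ℕ) + 2 * (q.2.1 : ℤ)) ∧ Z.length = 2 * b' + 2 * q.2.2 ∧
      ∀ i, i ≤ Z.length → |(lat Z i : ℝ)| ≤ 20 * w * 2 ^ k} := ⟨_, rfl⟩
  obtain ⟨I, hI⟩ : ∃ I : Finset (ℕ × ℕ × ℕ), I = (range (n1 + 1)) ×ˢ ((range n2) ×ˢ (range n3)) := ⟨_, rfl⟩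
  have hlow : ∀ q ∈ I, ENNReal.ofReal (c * (Ub k / (4 ^ k * m k))) ≤ gf (S q) := by
    intro q hq
    rw [hI, Finset.mem_product, Finset.mem_product, Finset.mem_range, Finset.mem_range, Finset.mem_range] at hq
    obtain ⟨q1, q2, q3⟩ := hq
    rw [hS]
    have c1 : (q.1 : ℝ) ≤ n1 := by
      have : q.1 ≤ n1 := by omega
      exact_mod_cast this
    have c2 : ((q.2.1 : ℕ) : ℝ) + 1 ≤ n2 := by exact_mod_cast q2
    have c3 : ((q.2.2 : ℕ) : ℝ) + 1 ≤ n3 := by exact_mod_cast q3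
    have c4 : ((b' : ℕ) : ℝ) * 2 ≤ b + 1 := by
      have : b' * 2 ≤ b + 1 := by omega
      exact_mod_cast this
    have c5 : (b : ℝ) ≤ 2 * b' := by
      have : b ≤ 2 * b' := by omega
      exact_mod_cast this
    refine hL k (H * 2 ^ k + q.1) (2 * b' + 2 * q.2.2) (((H * 2 ^ k + q.1) % 2 : ℕ) + 2 * (q.2.1 : ℤ)) hk0 (by omega) ?_ ?_
      ?_ ?_ ?_ ?_
    · have e1 : (q.1 : ℝ) ≤ 1 * 2 ^ k := c1.trans (a1.trans (mul_le_mul_of_nonneg_right hv1 hpk.le))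
      have e2 : (1 : ℝ) * 2 ^ k ≤ ((H * 2 ^ k : ℕ) : ℝ) := by
        push_cast
        have : (1 : ℝ) ≤ H := by exact_mod_cast h1
        exact mul_le_mul_of_nonneg_right this hpk.le
      have e3 : q.1 ≤ H * 2 ^ k := by exact_mod_cast e1.trans e2
      omega
    · rw [Int.even_iff]
      omega
    · have e1 : (H * 2 ^ k + q.1) % 2 ≤ 1 := by omega
      generalize (H * 2 ^ k + q.1) % 2 = ε at e1 ⊢
      have e1' : (ε : ℝ) ≤ 1 := by exact_mod_cast e1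
      have e2 : (0 : ℝ) ≤ (ε : ℝ) := Nat.cast_nonneg _
      have e3 : (0 : ℝ) ≤ ((q.2.1 : ℕ) : ℝ) := Nat.cast_nonneg _
      push_cast
      rw [abs_of_nonneg (by linarith)]
      linarith
    · exact ⟨b' + q.2.2, by ring⟩
    · push_cast
      have e3 : (0 : ℝ) ≤ ((q.2.2 : ℕ) : ℝ) := Nat.cast_nonneg _
      linarith
    · push_cast
      linarith
  have hsum : (I.card : ℝ≥0∞) * ENNReal.ofReal (c * (Ub k / (4 ^ k * m k))) ≤ gf (⋃ q ∈ I, S q) := by
    refine le_trans ?_ (BAR.gf_bi_eq I S ?_)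
    · rw [← nsmul_eq_mul, ← Finset.sum_const]
      exact Finset.sum_le_sum hlow
    · intro q q' Z hq hq'
      rw [hS] at hq hq'
      obtain ⟨⟨e1, e2⟩, e3, -⟩ := hq
      obtain ⟨⟨g1, g2⟩, g3, -⟩ := hq'
      have h2 := hgt_eq e1
      have h3 := hgt_eq g1
      have f1 : q.1 = q'.1 := by omega
      have f2 : q.2.1 = q'.2.1 := by
        rw [e2, f1] at g2
        omega
      have f3 : q.2.2 = q'.2.2 := by omega
      exact Prod.ext f1 (Prod.ext f2 f3)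
  refine le_trans ?_ (hsum.trans (gf_mono ?_))
  · rw [← ENNReal.ofReal_natCast, ← ENNReal.ofReal_mul (Nat.cast_nonneg _)]
    apply ENNReal.ofReal_le_ofReal
    rw [hI, Finset.card_product, Finset.card_product, Finset.card_range, Finset.card_range, Finset.card_range]
    push_cast
    push_cast at b1
    have e4 : (4 : ℝ) ^ k = 2 ^ k * 2 ^ k := by
      rw [← mul_pow]
      norm_num
    have hY : 0 ≤ c * (Ub k / (4 ^ k * m k)) := by positivity
    have e5 : v * 2 ^ k * (w * 2 ^ k / 4 * (ρ * m k / 4)) ≤ ((n1 : ℝ) + 1) * (n2 * n3) := by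
      have g1 : w * 2 ^ k / 4 * (ρ * m k / 4) ≤ (n2 : ℝ) * n3 := mul_le_mul b2 b3 (by positivity) (Nat.cast_nonneg _)
      exact mul_le_mul b1 g1 (by positivity) (by positivity)
    refine le_trans (le_of_eq ?_) (mul_le_mul_of_nonneg_right e5 hY)
    rw [e4]
    field_simp
    ring
  · intro Z hZ
    rw [Set.mem_iUnion₂] at hZ
    obtain ⟨q, hq, hZ⟩ := hZ
    rw [hI, Finset.mem_product, Finset.mem_product, Finset.mem_range, Finset.mem_range, Finset.mem_range] at hq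
    obtain ⟨q1, q2, q3⟩ := hq
    rw [hS] at hZ
    obtain ⟨⟨e1, e2⟩, e3, e4⟩ := hZ
    have h2 := hgt_eq e1
    refine ⟨⟨_, e1⟩, by omega, ?_, e4, by omega, ?_⟩
    · rw [h2]
      push_cast
      have : (q.1 : ℝ) ≤ n1 := by
        have : q.1 ≤ n1 := by omega
        exact_mod_cast this
      linarith
    · rw [e3]
      push_cast
      have c3 : ((q.2.2 : ℕ) : ℝ) + 1 ≤ n3 := by exact_mod_cast q3
      have c4 : ((b' : ℕ) : ℝ) * 2 ≤ b + 1 := by
        have : b' * 2 ≤ b + 1 := by omega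
        exact_mod_cast this
      linarith

/-! ### 2. The last cut -/

lemma sst_of {F : List Bool} (hF : F ∈ HpN F.length) : ∃ M : ℕ, F ∈ SSt M := by
  obtain ⟨-, h1, h2⟩ := HpN_iff.1 hF
  refine ⟨(range (F.length + 1)).sup fun i => (lev F i).toNat, ?_⟩
  rw [BAR.mem_SSt]
  refine ⟨fun i i1 i2 => ⟨h1 i i1 i2, ?_⟩, h2⟩
  have h3 : (lev F i).toNat ≤ (range (F.length + 1)).sup fun i => (lev F i).toNat :=
    Finset.le_sup (f := fun i => (lev F i).toNat) (Finset.mem_range.2 (by omega))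
  have h4 : 0 < lev F i := h1 i i1 i2
  omega

/-- a half plane word is a bridge followed by a half plane word without a cut -/
theorem last_cut {F : List Bool} (hF : F ∈ HpN F.length) : ∃ B G : List Bool, F = B ++ G ∧ B ∈ BU ∧ G ∈ HiN G.length := by
  obtain ⟨M, hM⟩ := sst_of hF
  by_cases hc : cuts F = ∅
  · exact ⟨[], F, rfl, ⟨0, by rw [Brd_zero]; rfl⟩, hF, hc⟩
  obtain ⟨i, hi⟩ : ∃ i, i = (cuts F).max' (Finset.nonempty_iff_ne_empty.2 hc) := ⟨_, rfl⟩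
  have hmem : CutP F i := mem_cuts.1 (hi ▸ Finset.max'_mem _ _)
  obtain ⟨r, -, -, -, hr⟩ := CutP_take hM hmem
  have hd := CutP_drop hM hmem
  refine ⟨F.take i, F.drop i, (List.take_append_drop _ _).symm, ⟨r, hr⟩, ?_, ?_⟩
  · rw [HpN_iff]
    exact ⟨rfl, pos_SSt hd, hd.inj⟩
  · rw [Finset.eq_empty_iff_forall_notMem]
    intro j hj
    have h1 : CutP (F.drop i) j := mem_cuts.1 hj
    have h2 : CutP F (i + j) := by
      obtain ⟨h1, h2, h3, h4, h5⟩ := h1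
      obtain ⟨g1, g2, g3, g4, g5⟩ := hmem
      rw [List.length_drop] at h2 h5
      refine ⟨by omega, by omega, ?_, fun l hl => ?_, fun l hl1 hl2 => ?_⟩
      · rw [BAR.dx_drop g3]
        exact h3
      · have e1 := BAR.lev_drop g3 j
        have e2 := h4 0 (Nat.zero_le _)
        rw [lev_zero] at e2
        rcases Nat.le_total l i with c | c
        · have := g4 l c
          omega
        · obtain ⟨l', rfl⟩ := Nat.exists_eq_add_of_le c
          have e3 := BAR.lev_drop g3 l'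
          have e4 := h4 l' (by omega)
          omega
      · obtain ⟨l', rfl⟩ := Nat.exists_eq_add_of_le (show i ≤ l by omega)
        have e1 := BAR.lev_drop g3 j
        have e3 := BAR.lev_drop g3 l'
        have e4 := h5 l' (by omega) (by omega)
        omega
    have h3 : i + j ≤ i := by
      have := Finset.le_max' (cuts F) (i + j) (mem_cuts.2 h2)
      rwa [← hi] at this
    have h4 := h1.1
    omega

end Hk

end JNT

end HexObs
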