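import Pool.Agent.JNT.LowN
import Pool.Agent.JNT.Low2Defs

/-!
JNT, lower side close to the starting point, row X1 (helper5): half plane words without a cut, with few letters, a given
parity of the number of letters and ALL vertices in a small box.
-/

set_option autoImplicit false

namespace HexObs

namespace JNT

open Finset TS SDN NTW NTA PtC RP BAR EN

open scoped ENNReal

variable {m : ℕ → ℝ}

theorem ncB_of (hm : MLow m) (hB : TB m) (hH : NTA.HT m) (hA : ASm m) : NcB m := by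
  obtain ⟨lam, hl1, hlam⟩ := half_shortb hm hH
  obtain ⟨D, hD⟩ := na_far hm hB hH hA hl1 (show (0 : ℝ) < 1 / 32 by norm_num) hlam
  obtain ⟨CX, hCX, hXd⟩ := XDbl.pow xDbl
  have hCX0 : 0 < CX := by linarith
  intro e he
  obtain ⟨i, hi0⟩ := pow_unbounded_of_one_lt (max (lam / e) (6 * 2 ^ D / e)) (one_lt_two (α := ℝ))
  have hi : lam / e < 2 ^ i := lt_of_le_of_lt (le_max_left _ _) hi0
  have hi' : 6 * 2 ^ D / e < 2 ^ i := lt_of_le_of_lt (le_max_right _ _) hi0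
  refine ⟨1 / (32 * CX ^ i), i, by positivity, fun k p hk hp => ?_⟩
  obtain ⟨k', rfl⟩ : ∃ k', k = k' + i := ⟨k - i, by omega⟩
  obtain ⟨b, hb⟩ : ∃ b : Bool, ∀ n : ℕ, n.bodd = b → n % 2 = p := by
    rcases (show p = 0 ∨ p = 1 by omega) with rfl | rfl
    · refine ⟨false, fun n hn => ?_⟩
      rw [Nat.mod_two_of_bodd, hn]
      rfl
    · refine ⟨true, fun n hn => ?_⟩
      rw [Nat.mod_two_of_bodd, hn]
      rfl
  obtain ⟨G, hG⟩ : ∃ G, G = gf {W | W ∈ TPF.NAb b (2 ^ k') ∧ (W.length : ℝ) ≤ lam * m k' ∧ W ∈ WL (k' + D)} := ⟨_, rfl⟩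
  have h1 : ENNReal.ofReal (1 / 16) * Xb k' ≤ G + ENNReal.ofReal (1 / 32) * Xb k' := by
    have h2 : {W | W ∈ TPF.NAb b (2 ^ k') ∧ (W.length : ℝ) ≤ lam * m k'} ⊆
        {W | W ∈ TPF.NAb b (2 ^ k') ∧ (W.length : ℝ) ≤ lam * m k' ∧ W ∈ WL (k' + D)} ∪
        {W | W ∈ TPF.NAb b (2 ^ k') ∧ (W.length : ℝ) ≤ lam * m k' ∧ W ∉ WL (k' + D)} := by
      rintro W ⟨h1, h2⟩
      by_cases h : W ∈ WL (k' + D)
      · exact Or.inl ⟨h1, h2, h⟩
      · exact Or.inr ⟨h1, h2, h⟩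
    rw [hG]
    exact (hlam k' b).trans (((gf_mono h2).trans (gf_union_le _ _)).trans (add_le_add le_rfl (hD k' b)))
  have h2 : ENNReal.ofReal (1 / 32) * Xb k' ≤ G := by
    have e1 : ENNReal.ofReal (1 / 16) * Xb k' = ENNReal.ofReal (1 / 32) * Xb k' + ENNReal.ofReal (1 / 32) * Xb k' := by
      rw [← add_mul, ← ENNReal.ofReal_add (by norm_num) (by norm_num)]
      norm_num
    rw [e1] at h1
    exact (ENNReal.add_le_add_iff_right (ENNReal.mul_ne_top ENNReal.ofReal_ne_top (NTA.Xb_ne_top k'))).1 h1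
  have h3 : ENNReal.ofReal (1 / (32 * CX ^ i)) * Xb (k' + i) ≤ G := by
    refine le_trans (mul_le_mul' le_rfl (hXd k' i)) (le_trans (le_of_eq ?_) h2)
    rw [← mul_assoc, ← ENNReal.ofReal_mul (by positivity)]
    congr 2
    field_simp
  refine h3.trans ?_
  rw [hG]
  refine gf_mono ?_
  rintro W ⟨⟨h4, h5⟩, h6, h7⟩
  have h8 := mem_SSt.1 h4.1
  refine ⟨⟨HpN_iff.2 ⟨rfl, pos_SSt h4.1, h8.2⟩, NA_cuts h4⟩, hb _ h5, ?_, fun n hn dir => ?_⟩
  · have h9 := m_two hm k' i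
    have hmk := hm.pos k'
    have h10 : lam ≤ e * 2 ^ i := by
      rw [div_lt_iff₀ he] at hi
      linarith
    calc (W.length : ℝ) ≤ lam * m k' := h6
      _ ≤ e * 2 ^ i * m k' := by gcongr
      _ = e * (2 ^ i * m k') := by ring
      _ ≤ e * m (k' + i) := by gcongr
  · have h9 := h7.2 n hn dir
    have h12 : (1 : ℤ) ≤ 2 ^ (k' + D) := one_le_pow₀ (by norm_num)
    have h13 : |lvl dir (vx oo up W n)| ≤ 6 * 2 ^ (k' + D) := by
      unfold row at h9
      rw [abs_le] at h9 ⊢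
      constructor <;> omega
    have h14 : ((|lvl dir (vx oo up W n)| : ℤ) : ℝ) ≤ 6 * 2 ^ (k' + D) := by exact_mod_cast h13
    have h15 : 6 * 2 ^ D ≤ e * 2 ^ i := by
      rw [div_lt_iff₀ he] at hi'
      linarith
    calc ((|lvl dir (vx oo up W n)| : ℤ) : ℝ) ≤ 6 * 2 ^ (k' + D) := h14
      _ = 6 * 2 ^ D * 2 ^ k' := by rw [pow_add]; ring
      _ ≤ e * 2 ^ i * 2 ^ k' := by gcongr
      _ = e * 2 ^ (k' + i) := by rw [pow_add]; ring

/-- **row X1 for the mean length of the bridges** -/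
theorem ncB_M : NcB (fun k => PW.mZ (2 ^ k)) := ncB_of NTA.mlow_M NTA.tb_M EN.ht_M EN.asm_M

end JNT

end HexObs
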