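import Pool.Agent.JNT.LowDefs
import Pool.Agent.EN.TailP

/-!
JNT, lower side, row P (helper5): from the words with n letters and a given end (three rotations) to the self-avoiding walks
with n steps and a given end.

* `reach_pt` : the end of a walk is a point of the lattice of the right class;
* `sector` : one of the three rotations of a point is in the sector of 120 degrees around the first step;
* `card_orb` : the number of the walks with a given end against the number of the walks with the end in the orbit;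
* **`loc_low`** : the pointwise lower bound.
-/

set_option autoImplicit false

namespace NTSZ

namespace Loc

open Finset MeasureTheory Filter Topology

open HexObs hiding pos curve

open HexObs.TS HexObs.SDN HexObs.NTW HexObs.JNT

open Pool.Agent.NTS.Res

open NTSF

open scoped ENNReal Classical

/-! ### 1. Points -/

/-- the end of a walk is a point of the lattice -/
lemma reach_pt {n : ℕ} (s : Fin n → Fin 3) (k : ℕ) (hk : k ≤ n) :
    ∃ x : Pt, NTF.JJ x = Pool.Agent.NTS.Res.pos s k ∧ ip x up % 3 = if k % 2 = 0 then 0 else 2 := by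
  induction k with
  | zero =>
    refine ⟨(0, 0), ?_, by decide⟩
    rw [pos_zero]
    apply Complex.ext
    · rw [NTF.JJ_re]
      simp
    · rw [NTF.JJ_im]
      simp
  | succ k ih =>
    obtain ⟨x, h1, h2⟩ := ih (by omega)
    refine ⟨x + NTF.de k (s ⟨k, by omega⟩), ?_, ?_⟩
    · rw [NTF.JJ_add, h1, NTF.JJ_de, pos_succ s k (by omega)]
      rfl
    · have h3 : ∀ a : Fin 3, ip (NTF.Ed a) up % 3 = 2 := by decide
      have h4 := h3 (s ⟨k, by omega⟩)
      rw [ip_add_left]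
      unfold NTF.de
      rcases Nat.mod_two_eq_zero_or_one k with he | he
      · rw [if_pos he] at h2
        rw [if_pos (Nat.even_iff.2 he), if_neg (by omega)]
        omega
      · rw [if_neg (by omega)] at h2
        have h5 : ∀ p : Pt, ip (-p) up = -ip p up := by
          intro p
          unfold ip
          simp only [Prod.fst_neg, Prod.snd_neg]
          ring
        rw [if_neg (by rw [Nat.even_iff]; omega), if_pos (by omega), h5]
        omega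

lemma om_re_im : om = ⟨-(1 / 2), Real.sqrt 3 / 2⟩ := by
  unfold om
  rw [show 2 * (Real.pi : ℂ) * Complex.I / 3 = ((2 * (Real.pi / 3) : ℝ) : ℂ) * Complex.I by
    push_cast
    ring, Complex.exp_mul_I]
  apply Complex.ext
  · simp only [Complex.add_re, Complex.mul_re, Complex.I_re, Complex.I_im]
    rw [← Complex.ofReal_cos, ← Complex.ofReal_sin, Complex.ofReal_re, Complex.ofReal_im, Complex.ofReal_re,
      Real.cos_two_mul, Real.cos_pi_div_three]
    norm_num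
  · simp only [Complex.add_im, Complex.mul_im, Complex.I_re, Complex.I_im]
    rw [← Complex.ofReal_cos, ← Complex.ofReal_sin, Complex.ofReal_re, Complex.ofReal_im, Complex.ofReal_im,
      Real.sin_two_mul, Real.cos_pi_div_three, Real.sin_pi_div_three]
    ring

lemma r3_eq (x : Pt) : r3 x = (-x.1 - x.2, x.1) := by
  unfold r3 mulE
  ext <;> simp

lemma JJ_r3 (x : Pt) : NTF.JJ (r3 x) = om * NTF.JJ x := by
  have h3 : Real.sqrt 3 * Real.sqrt 3 = 3 := Real.mul_self_sqrt (by norm_num)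
  rw [om_re_im, r3_eq]
  apply Complex.ext
  · rw [NTF.JJ_re, Complex.mul_re, NTF.JJ_re, NTF.JJ_im]
    push_cast
    linear_combination (-(x.1 : ℝ) / 4) * h3
  · rw [NTF.JJ_im, Complex.mul_im, NTF.JJ_re, NTF.JJ_im]
    push_cast
    ring

/-- w is in the orbit of z -/
def Orb (z w : ℂ) : Prop := w = z ∨ w = om * z ∨ w = om * (om * z)

lemma om3 (z : ℂ) : om * (om * (om * z)) = z := by
  have h := om_cube
  calc om * (om * (om * z)) = om * (om * om) * z := by ring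
    _ = z := by rw [h, one_mul]

lemma Orb.mul {z w : ℂ} (h : Orb z w) : Orb z (om * w) := by
  rcases h with h | h | h
  · exact Or.inr (Or.inl (by rw [h]))
  · exact Or.inr (Or.inr (by rw [h]))
  · exact Or.inl (by rw [h, om3])

lemma orb_mul {z w : ℂ} : Orb z (om * w) ↔ Orb z w := by
  refine ⟨fun h => ?_, Orb.mul⟩
  have := h.mul.mul
  rwa [om3] at this

lemma orb_norm {z w : ℂ} (h : Orb z w) : ‖w‖ = ‖z‖ := by
  rcases h with h | h | h
  · rw [h]
  · rw [h, norm_mul, om_norm, one_mul]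
  · rw [h, norm_mul, norm_mul, om_norm, one_mul, one_mul]

/-- **one of the three rotations is in the sector** -/
lemma sector (x : Pt) : ∃ y : Pt, Orb (NTF.JJ x) (NTF.JJ y) ∧ ip y up % 3 = ip x up % 3 ∧ |cross up y| ≤ ip y up := by
  obtain ⟨a, b⟩ := x
  have e1 : r3 (a, b) = (-a - b, a) := r3_eq _
  have e2 : r3 (r3 (a, b)) = (b, -a - b) := by
    rw [e1, r3_eq]
    ext <;> simp
  have c : (|cross up (a, b)| ≤ ip (a, b) up) ∨ (|cross up (-a - b, a)| ≤ ip (-a - b, a) up) ∨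
      (|cross up (b, -a - b)| ≤ ip (b, -a - b) up) := by
    unfold cross ip up
    simp only
    rcases abs_cases (0 * b - 1 * a) with h1 | h1 <;> rcases abs_cases (0 * a - 1 * (-a - b)) with h2 | h2 <;>
      rcases abs_cases (0 * (-a - b) - 1 * b) with h3 | h3 <;> omega
  rcases c with c | c | c
  · exact ⟨(a, b), Or.inl rfl, rfl, c⟩
  · refine ⟨(-a - b, a), Or.inr (Or.inl ?_), ?_, c⟩
    · rw [← e1, JJ_r3]
    · unfold ip up
      simp only
      omega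
  · refine ⟨(b, -a - b), Or.inr (Or.inr ?_), ?_, c⟩
    · rw [← e2, JJ_r3, JJ_r3]
    · unfold ip up
      simp only
      omega

/-- the level and the norm in the sector -/
lemma sector_norm {y : Pt} (h : |cross up y| ≤ ip y up) :
    ‖NTF.JJ y‖ ≤ ((ip y up : ℤ) : ℝ) ∧ ((ip y up : ℤ) : ℝ) ≤ 2 * ‖NTF.JJ y‖ := by
  have h0 : 0 ≤ ip y up := (abs_nonneg _).trans h
  have h0' : (0 : ℝ) ≤ ((ip y up : ℤ) : ℝ) := by exact_mod_cast h0
  have h1 : cross up y ^ 2 ≤ (ip y up) ^ 2 := sq_le_sq' (by linarith [neg_abs_le (cross up y)]) ((le_abs_self _).trans h)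
  have h2 : 4 * nrm y = (ip y up) ^ 2 + 3 * cross up y ^ 2 := by
    unfold nrm ip cross up
    simp only
    ring
  have h3 := NTF.JJ_norm y
  have h4 : (4 : ℝ) * ((nrm y : ℤ) : ℝ) = ((ip y up : ℤ) : ℝ) ^ 2 + 3 * ((cross up y : ℤ) : ℝ) ^ 2 := by exact_mod_cast h2
  have h5 : ((cross up y : ℤ) : ℝ) ^ 2 ≤ ((ip y up : ℤ) : ℝ) ^ 2 := by exact_mod_cast h1
  constructor
  · apply le_of_sq_le_sq _ h0'
    rw [h3]
    linarith
  · apply le_of_sq_le_sq _ (by positivity)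
    rw [mul_pow, h3]
    nlinarith [sq_nonneg ((cross up y : ℤ) : ℝ)]

/-! ### 2. The orbit -/

lemma rot3 {n : ℕ} (s : Fin n → Fin 3) : rot (rot (rot s)) = s := by
  funext i
  show s i + 1 + 1 + 1 = s i
  generalize s i = a
  revert a
  decide

lemma rot_inj {n : ℕ} {s s' : Fin n → Fin 3} (h : rot s = rot s') : s = s' := by
  rw [← rot3 s, h, rot3]

/-- **the walks with the end in the orbit** -/
lemma card_orb {n : ℕ} (z : ℂ) : (((saw n).filter fun s => Orb z (Pool.Agent.NTS.Res.pos s n)).card : ℝ) ≤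
    3 * (((saw n).filter fun s => Pool.Agent.NTS.Res.pos s n = z).card : ℝ) := by
  obtain ⟨A, hA⟩ : ∃ A : ℂ → Finset (Fin n → Fin 3), A = fun w => (saw n).filter fun s => Pool.Agent.NTS.Res.pos s n = w :=
    ⟨_, rfl⟩
  have key : ∀ w : ℂ, (A w).card ≤ (A (om * w)).card := by
    intro w
    apply Finset.card_le_card_of_injOn (fun s => rot s)
    · intro s hs
      rw [hA, Finset.mem_coe, Finset.mem_filter] at hs
      rw [hA, Finset.mem_coe, Finset.mem_filter]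
      exact ⟨rot_mem.2 hs.1, by rw [pos_rot, hs.2]⟩
    · intro s _ s' _ h
      exact rot_inj h
  have h1 : ((saw n).filter fun s => Orb z (Pool.Agent.NTS.Res.pos s n)) ⊆ A z ∪ (A (om * z) ∪ A (om * (om * z))) := by
    intro s hs
    rw [Finset.mem_filter] at hs
    rw [Finset.mem_union, Finset.mem_union, hA]
    simp only [Finset.mem_filter]
    rcases hs.2 with h | h | h
    · exact Or.inl ⟨hs.1, h⟩
    · exact Or.inr (Or.inl ⟨hs.1, h⟩)
    · exact Or.inr (Or.inr ⟨hs.1, h⟩)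
  have h2 := (Finset.card_le_card h1).trans ((Finset.card_union_le _ _).trans
    (Nat.add_le_add_left (Finset.card_union_le _ _) _))
  have h3 := key (om * (om * z))
  rw [om3] at h3
  have h4 := key (om * z)
  have h5 : ((saw n).filter fun s => Orb z (Pool.Agent.NTS.Res.pos s n)).card ≤ 3 * (A z).card := by omega
  have h6 : A z = (saw n).filter fun s => Pool.Agent.NTS.Res.pos s n = z := by rw [hA]
  rw [h6] at h5
  exact_mod_cast h5

lemma saw_card_le (n : ℕ) : ((saw n).card : ℝ) ≤ 3 ^ n := by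
  have h1 : (saw n).card ≤ 3 ^ n := by
    refine (Finset.card_le_univ _).trans ?_
    rw [Fintype.card_fun, Fintype.card_fin, Fintype.card_fin]
  exact_mod_cast h1

/-! ### 3. The theorem -/

/-- **the pointwise lower bound for the walks** -/
theorem loc_low {m : ℕ → ℝ} (hlo : ∃ c : ℝ, 0 < c ∧ ∀ k : ℕ, c * (2 : ℝ) ^ (4 / 3 * (k : ℝ)) ≤ m k)
    (hup : ∃ C : ℝ, ∀ k : ℕ, m k ≤ C * (2 : ℝ) ^ (4 / 3 * (k : ℝ)))
    (hA : ∃ (C : ℝ) (k0 : ℕ), 0 < C ∧ ∀ k n : ℕ, k0 ≤ k → m k ≤ n → n < m (k + 1) →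
      gf (SawN n) ≤ ENNReal.ofReal C * nuX m k) (hL : HexObs.JNT.LocLow m)
    (hE : ∀ (n : ℕ) (z : ℂ), 2 < ‖z‖ → (∃ s : Fin n → Fin 3, Pool.Agent.NTS.Res.pos s n = z) →
      ∃ s ∈ saw n, Pool.Agent.NTS.Res.pos s n = z) :
    ∃ c C K : ℝ, 0 < c ∧ 0 < C ∧ 0 < K ∧ ∀ n : ℕ, 1 ≤ n → ∀ z : ℂ,
      (∃ s : Fin n → Fin 3, Pool.Agent.NTS.Res.pos s n = z) → K * (n : ℝ) ^ (3 / 4 : ℝ) ≤ ‖z‖ →
      c * (n : ℝ) ^ (-(3 / 2) : ℝ) * Real.exp (-(C * (‖z‖ / (n : ℝ) ^ (3 / 4 : ℝ)) ^ 4)) * ((saw n).card : ℝ) ≤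
        (((saw n).filter fun s => Pool.Agent.NTS.Res.pos s n = z).card : ℝ) := by
  obtain ⟨R, κ, hS⟩ := scaleX_exists hlo hup
  obtain ⟨Ca, ka, hCa, hall⟩ := hA
  obtain ⟨H, c1, C1, a, hH1, hc1, hC1, hlow⟩ := hL
  obtain ⟨n1, hn1⟩ := hS.sc
  obtain ⟨n2, hn2⟩ := hS.top ka
  obtain ⟨c0, C0, n3, hc0, hC0, hord⟩ := hS.ord
  obtain ⟨n0, hn0⟩ : ∃ n0, n0 = max (max n1 n2) n3 := ⟨_, rfl⟩
  have hH : (1 : ℝ) ≤ H := by exact_mod_cast hH1
  have hH0 : (0 : ℝ) < H := by linarith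
  obtain ⟨D, hD⟩ : ∃ D : ℝ, D = 4 / (H * c0) + 2 := ⟨_, rfl⟩
  have hD0 : 0 < D := by rw [hD]; positivity
  obtain ⟨ε, hε⟩ : ∃ ε : ℝ, ε = min 1 (c0 / (D ^ 3 * 2 ^ a)) := ⟨_, rfl⟩
  have hε0 : 0 < ε := by rw [hε]; exact lt_min one_pos (by positivity)
  have hε1 : ε ≤ 1 := by rw [hε]; exact min_le_left _ _
  have hε2 : ε ≤ c0 / (D ^ 3 * 2 ^ a) := by rw [hε]; exact min_le_right _ _
  obtain ⟨C, hC⟩ : ∃ C : ℝ, C = C1 * D ^ 4 + Real.log 3 / ε ^ 4 := ⟨_, rfl⟩
  have hlog : 0 < Real.log 3 := Real.log_pos (by norm_num)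
  have hCA : C1 * D ^ 4 ≤ C := by
    rw [hC]
    have : 0 ≤ Real.log 3 / ε ^ 4 := by positivity
    linarith
  have hCB : Real.log 3 / ε ^ 4 ≤ C := by
    rw [hC]
    have : 0 ≤ C1 * D ^ 4 := by positivity
    linarith
  have hC0' : 0 < C := by rw [hC]; positivity
  obtain ⟨c, hc⟩ : ∃ c : ℝ, c = min (1 / 3 ^ n0) (c1 / (3 * Ca * C0 ^ 2)) := ⟨_, rfl⟩
  have hcp : 0 < c := by rw [hc]; exact lt_min (by positivity) (by positivity)
  have hcA : c ≤ 1 / 3 ^ n0 := by rw [hc]; exact min_le_left _ _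
  have hcB : c ≤ c1 / (3 * Ca * C0 ^ 2) := by rw [hc]; exact min_le_right _ _
  have hcle1 : c ≤ 1 := by
    refine hcA.trans ?_
    rw [div_le_one (by positivity)]
    exact one_le_pow₀ (by norm_num)
  obtain ⟨K, hK⟩ : ∃ K : ℝ, K = 3 + H * C0 := ⟨_, rfl⟩
  have hK3 : 3 ≤ K := by rw [hK]; have : 0 ≤ H * C0 := by positivity
                         linarith
  have hKH : H * C0 ≤ K := by rw [hK]; linarith
  refine ⟨c, C, K, hcp, hC0', by linarith, fun n hn z hz hzK => ?_⟩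
  obtain ⟨q3, q4, q1⟩ := quart n
  have hn' : (0 : ℝ) < n := by exact_mod_cast hn
  have hn1R : (1 : ℝ) ≤ n := by exact_mod_cast hn
  have hq0 : 0 < (n : ℝ) ^ (1 / 4 : ℝ) := by positivity
  have hp0 : 0 < (n : ℝ) ^ (3 / 4 : ℝ) := by positivity
  have hp1 : 1 ≤ (n : ℝ) ^ (3 / 4 : ℝ) := Real.one_le_rpow hn1R (by norm_num)
  have hcard := saw_card_pos n
  obtain ⟨L, hLd⟩ : ∃ L : ℝ, L = ‖z‖ / (n : ℝ) ^ (3 / 4 : ℝ) := ⟨_, rfl⟩
  have hzL : ‖z‖ = L * (n : ℝ) ^ (3 / 4 : ℝ) := by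
    rw [hLd]
    field_simp
  have hLK : K ≤ L := by
    rw [hLd, le_div_iff₀ hp0]
    exact hzK
  have hL1 : 1 ≤ L := by linarith
  rw [← hLd]
  obtain ⟨W, hW⟩ : ∃ W : ℝ, W = (n : ℝ) ^ (-(3 / 2) : ℝ) := ⟨_, rfl⟩
  have hW0 : 0 < W := by rw [hW]; positivity
  have hW1 : W ≤ 1 := by
    rw [hW]
    exact Real.rpow_le_one_of_one_le_of_nonpos hn1R (by norm_num)
  rw [← hW]
  have hex0 := Real.exp_pos (-(C * L ^ 4))
  -- one walk
  have hone : (1 : ℝ) ≤ (((saw n).filter fun s => Pool.Agent.NTS.Res.pos s n = z).card : ℝ) := by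
    obtain ⟨s, hs, he⟩ := hE n z (by nlinarith) hz
    have h1 : 0 < ((saw n).filter fun s => Pool.Agent.NTS.Res.pos s n = z).card :=
      Finset.card_pos.2 ⟨s, Finset.mem_filter.2 ⟨hs, he⟩⟩
    exact_mod_cast h1
  have hc3 := saw_card_le n
  -- small n
  rcases Nat.lt_or_ge n n0 with hns | hns
  · refine le_trans ?_ hone
    have e1 : Real.exp (-(C * L ^ 4)) ≤ 1 := by
      apply Real.exp_le_one_iff.2
      have : 0 ≤ C * L ^ 4 := by positivity
      linarith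
    have e2 : ((saw n).card : ℝ) ≤ 3 ^ n0 := hc3.trans (pow_le_pow_right₀ (by norm_num) hns.le)
    have e3 : c * W * Real.exp (-(C * L ^ 4)) ≤ 1 / 3 ^ n0 * 1 * 1 :=
      mul_le_mul (mul_le_mul hcA hW1 hW0.le (by positivity)) e1 hex0.le (by positivity)
    have e4 : (0 : ℝ) < 3 ^ n0 := by positivity
    calc c * W * Real.exp (-(C * L ^ 4)) * ((saw n).card : ℝ) ≤ 1 / 3 ^ n0 * 1 * 1 * 3 ^ n0 :=
          mul_le_mul e3 e2 hcard.le (by positivity)
      _ = 1 := by rw [mul_one, mul_one, one_div, inv_mul_cancel₀ e4.ne']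
  -- far ends
  rcases lt_or_ge (ε * (n : ℝ) ^ (1 / 4 : ℝ)) L with hfar | hnear
  · refine le_trans ?_ hone
    have e1 : ε ^ 4 * n ≤ L ^ 4 := by
      calc ε ^ 4 * (n : ℝ) = (ε * (n : ℝ) ^ (1 / 4 : ℝ)) ^ 4 := by rw [mul_pow, q4]
        _ ≤ L ^ 4 := pow_le_pow_left₀ (by positivity) hfar.le 4
    have e2 : Real.log 3 * n ≤ C * L ^ 4 := by
      calc Real.log 3 * n = Real.log 3 / ε ^ 4 * (ε ^ 4 * n) := by field_simp
        _ ≤ C * L ^ 4 := mul_le_mul hCB e1 (by positivity) hC0'.le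
    have e3 : Real.exp (-(C * L ^ 4)) ≤ 1 / 3 ^ n := by
      have h3 : (3 : ℝ) ^ n = Real.exp (Real.log 3 * n) := by
        rw [← Real.rpow_natCast, Real.rpow_def_of_pos (by norm_num)]
      rw [h3, one_div, ← Real.exp_neg]
      exact Real.exp_le_exp.2 (by linarith)
    have e4 : c * W * Real.exp (-(C * L ^ 4)) ≤ 1 * 1 * (1 / 3 ^ n) :=
      mul_le_mul (mul_le_mul hcle1 hW1 hW0.le zero_le_one) e3 hex0.le (by norm_num)
    have e5 : (0 : ℝ) < 3 ^ n := by positivity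
    calc c * W * Real.exp (-(C * L ^ 4)) * ((saw n).card : ℝ) ≤ 1 * 1 * (1 / 3 ^ n) * 3 ^ n :=
          mul_le_mul e4 hc3 hcard.le (by positivity)
      _ = 1 := by rw [one_mul, one_mul, one_div, inv_mul_cancel₀ e5.ne']
  -- the scales
  have b1 : n1 ≤ n := ((le_max_left n1 n2).trans (le_max_left _ _)).trans (hn0 ▸ hns)
  have b2 : n2 ≤ n := ((le_max_right n1 n2).trans (le_max_left _ _)).trans (hn0 ▸ hns)
  have b3 : n3 ≤ n := (le_max_right _ _).trans (hn0 ▸ hns)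
  obtain ⟨a1, a2⟩ := hn1 n b1
  obtain ⟨o1, o2⟩ := hord n b3
  rw [hS.R2] at o1 o2
  obtain ⟨i, hi1, hi2⟩ := dy_above (x := 2 / (H * c0) * L + 1) (by
    have : 0 ≤ 2 / (H * c0) * L := by positivity
    linarith)
  have hi3 : (2 : ℝ) ^ i ≤ D * L := by
    rw [hD]
    have : 2 * (2 / (H * c0) * L + 1) = 4 / (H * c0) * L + 2 := by ring
    nlinarith
  have hi4 : 3 * i + a ≤ κ n := by
    have h1 : (2 : ℝ) ^ (3 * i + a) ≤ 2 ^ κ n := by
      calc (2 : ℝ) ^ (3 * i + a) = (2 ^ i) ^ 3 * 2 ^ a := by rw [pow_add, pow8]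
        _ ≤ (D * (ε * (n : ℝ) ^ (1 / 4 : ℝ))) ^ 3 * 2 ^ a := by
            gcongr
            exact hi3.trans (mul_le_mul_of_nonneg_left hnear hD0.le)
        _ = D ^ 3 * 2 ^ a * ε ^ 3 * (n : ℝ) ^ (3 / 4 : ℝ) := by
            rw [← q3]
            ring
        _ ≤ D ^ 3 * 2 ^ a * ε * (n : ℝ) ^ (3 / 4 : ℝ) := by
            have : ε ^ 3 ≤ ε := by
              calc ε ^ 3 ≤ ε ^ 1 := pow_le_pow_of_le_one hε0.le hε1 (by norm_num)
                _ = ε := pow_one ε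
            gcongr
        _ ≤ c0 * (n : ℝ) ^ (3 / 4 : ℝ) := by
            refine mul_le_mul_of_nonneg_right ?_ (by positivity)
            rw [le_div_iff₀ (by positivity)] at hε2
            linarith
        _ ≤ _ := o1
    exact (pow_le_pow_iff_right₀ (one_lt_two (α := ℝ))).1 h1
  -- the point
  obtain ⟨s0, hs0⟩ := hz
  obtain ⟨x, hx1, hx2⟩ := reach_pt s0 n le_rfl
  rw [hs0] at hx1
  obtain ⟨y, hy1, hy2, hy3⟩ := sector x
  obtain ⟨y4, y5⟩ := sector_norm hy3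
  rw [hx1] at hy1
  rw [orb_norm hy1, hzL] at y4 y5
  have g1 : ((H : ℝ) * 2 ^ κ n) ≤ ((ip y up : ℤ) : ℝ) := by
    calc (H : ℝ) * 2 ^ κ n ≤ H * (C0 * (n : ℝ) ^ (3 / 4 : ℝ)) := by gcongr
      _ = H * C0 * (n : ℝ) ^ (3 / 4 : ℝ) := by ring
      _ ≤ L * (n : ℝ) ^ (3 / 4 : ℝ) := mul_le_mul_of_nonneg_right (hKH.trans hLK) hp0.le
      _ ≤ _ := y4
  have g2 : ((ip y up : ℤ) : ℝ) ≤ H * 2 ^ (κ n + i) := by
    calc ((ip y up : ℤ) : ℝ) ≤ 2 * (L * (n : ℝ) ^ (3 / 4 : ℝ)) := y5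
      _ = H * ((2 / (H * c0) * L) * (c0 * (n : ℝ) ^ (3 / 4 : ℝ))) := by field_simp
      _ ≤ H * (2 ^ i * 2 ^ κ n) := by
          refine mul_le_mul_of_nonneg_left (mul_le_mul (by linarith) o1 (by positivity) (by positivity)) hH0.le
      _ = H * 2 ^ (κ n + i) := by rw [pow_add, mul_comm ((2 : ℝ) ^ i)]
  have h1 := hlow (κ n) i n y hi4 a1 a2 g1 g2 hy3 (by
    rw [hy2, hx2]
    split_ifs <;> rfl)
  have h2 := hall (κ n) n (hn2 n b2) a1 a2
  obtain ⟨q, hq⟩ : ∃ q : ℝ, q = c1 * Real.exp (-(C1 * 16 ^ i)) / 4 ^ κ n / Ca := ⟨_, rfl⟩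
  have hq1 : 0 ≤ q := by
    rw [hq]
    have := Real.exp_pos (-(C1 * 16 ^ i))
    positivity
  have h3 : ENNReal.ofReal q * gf (SawN n) ≤
      gf {t | t ∈ SawN n ∧ (vx oo up t n = y ∨ vx oo up t n = r3 y ∨ vx oo up t n = r3 (r3 y))} := by
    calc ENNReal.ofReal q * gf (SawN n) ≤ ENNReal.ofReal q * (ENNReal.ofReal Ca * nuX m (κ n)) := mul_le_mul_right h2 _
      _ = ENNReal.ofReal (c1 * Real.exp (-(C1 * 16 ^ i)) / 4 ^ κ n) * nuX m (κ n) := by
          rw [← mul_assoc, ← ENNReal.ofReal_mul hq1, hq, div_mul_cancel₀ _ hCa.ne']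
      _ ≤ _ := h1
  have h4 := prop_ge hn (fun s => Orb z (Pool.Agent.NTS.Res.pos s n)) (fun s => by rw [pos_rot]; exact orb_mul) hq1
    (B := {t | t ∈ SawN n ∧ (vx oo up t n = y ∨ vx oo up t n = r3 y ∨ vx oo up t n = r3 (r3 y))}) (by
      rintro t ⟨ht, h⟩
      refine ⟨ht, ?_⟩
      rw [pos_sw n t n le_rfl]
      rcases h with h | h | h
      · rw [h]
        exact hy1
      · rw [h, JJ_r3]
        exact hy1.mul
      · rw [h, JJ_r3, JJ_r3]
        exact hy1.mul.mul) h3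
  have h5 := card_orb (n := n) z
  -- numbers
  have e1 : Real.exp (-(C * L ^ 4)) ≤ Real.exp (-(C1 * 16 ^ i)) := by
    apply Real.exp_le_exp.2
    have e2 : (16 : ℝ) ^ i ≤ D ^ 4 * L ^ 4 := by
      rw [pow16, ← mul_pow]
      exact pow_le_pow_left₀ (by positivity) hi3 4
    have e3 : C1 * 16 ^ i ≤ C1 * (D ^ 4 * L ^ 4) := mul_le_mul_of_nonneg_left e2 hC1.le
    have e4 : C1 * D ^ 4 * L ^ 4 ≤ C * L ^ 4 := mul_le_mul_of_nonneg_right hCA (by positivity)
    linarith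
  have e5 : W / C0 ^ 2 ≤ 1 / (4 : ℝ) ^ κ n := by
    have f1 : (4 : ℝ) ^ κ n = (2 ^ κ n) ^ 2 := by
      rw [← pow_mul, mul_comm, pow_mul]
      norm_num
    have f2 : (4 : ℝ) ^ κ n ≤ (C0 * (n : ℝ) ^ (3 / 4 : ℝ)) ^ 2 := by
      rw [f1]
      exact pow_le_pow_left₀ (by positivity) o2 2
    have f3 : ((n : ℝ) ^ (3 / 4 : ℝ)) ^ 2 * W = 1 := by
      rw [hW, ← Real.rpow_natCast, ← Real.rpow_mul hn'.le, ← Real.rpow_add hn']
      norm_num
    rw [div_le_div_iff₀ (by positivity) (by positivity), one_mul]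
    calc W * 4 ^ κ n ≤ W * (C0 * (n : ℝ) ^ (3 / 4 : ℝ)) ^ 2 := mul_le_mul_of_nonneg_left f2 hW0.le
      _ = C0 ^ 2 * (((n : ℝ) ^ (3 / 4 : ℝ)) ^ 2 * W) := by ring
      _ = C0 ^ 2 := by rw [f3, mul_one]
  have e6 : c * W * Real.exp (-(C * L ^ 4)) ≤ q / 3 := by
    calc c * W * Real.exp (-(C * L ^ 4)) ≤ c1 / (3 * Ca * C0 ^ 2) * W * Real.exp (-(C1 * 16 ^ i)) := by gcongr
      _ = c1 * Real.exp (-(C1 * 16 ^ i)) / (3 * Ca) * (W / C0 ^ 2) := by field_simp
      _ ≤ c1 * Real.exp (-(C1 * 16 ^ i)) / (3 * Ca) * (1 / 4 ^ κ n) := by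
          have := Real.exp_pos (-(C1 * 16 ^ i))
          gcongr
      _ = q / 3 := by
          rw [hq]
          field_simp
  have e7 : c * W * Real.exp (-(C * L ^ 4)) * ((saw n).card : ℝ) ≤ q / 3 * ((saw n).card : ℝ) :=
    mul_le_mul_of_nonneg_right e6 hcard.le
  linarith

end Loc

end NTSZ
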