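import Pool.Agent.JNT.FarUp
import Pool.Agent.EN.TailP

/-!
JNT (pointwise tail): from the words with n letters and a given end to the self-avoiding walks with n steps, upper side.
-/

set_option autoImplicit false

namespace NTSZ

namespace Loc

open Finset MeasureTheory Filter Topology

open HexObs hiding pos curve

open HexObs.TS HexObs.SDN HexObs.NTW HexObs.JNT

open Pool.Agent.NTS.Res

open NTSF NTSF.Mod

open NTF (open_le cont_eval norm_comb)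

open scoped ENNReal Classical

lemma gf_empty' : gf (∅ : Set (List Bool)) = 0 := by
  unfold gf
  simp

lemma rot_end {n : ℕ} (s : Fin n → Fin 3) (z : ℂ) : Pool.Agent.NTS.Res.pos (rot s) n = z ↔
    Pool.Agent.NTS.Res.pos s n = om⁻¹ * z := by
  rw [pos_rot]
  constructor
  · intro h
    rw [← h, ← mul_assoc, inv_mul_cancel₀ om_ne, one_mul]
  · intro h
    rw [h, om_inv_mul]

/-- **the walks with a given end, from the words** -/
theorem end_saw {n : ℕ} (hn : 0 < n) {c : ℝ} (hc : 0 ≤ c) (Q : (Fin n → Fin 3) → Prop) (hQ : ∀ s, Q (rot s) ↔ Q s)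
    (h : ∀ x : Pt, gf {t | (t ∈ SawN n ∧ vx oo up t n = x) ∧ Q (NTF.sw n t)} ≤ ENNReal.ofReal c * gf (SawN n)) (z : ℂ) :
    (((saw n).filter fun s => Pool.Agent.NTS.Res.pos s n = z ∧ Q s).card : ℝ) ≤ 3 * c * ((saw n).card : ℝ) := by
  have key : ∀ w : ℂ, ∃ B : Set (List Bool), gf B ≤ ENNReal.ofReal c * gf (SawN n) ∧
      ∀ t ∈ SawN n, Pool.Agent.NTS.Res.pos (NTF.sw n t) n = w ∧ Q (NTF.sw n t) → t ∈ B := by
    intro w
    by_cases hx : ∃ x : Pt, NTF.JJ x = w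
    · obtain ⟨x, hx⟩ := hx
      refine ⟨_, h x, fun t ht h1 => ⟨⟨ht, ?_⟩, h1.2⟩⟩
      have h2 := h1.1
      rw [pos_sw n t n le_rfl, ← hx] at h2
      exact NTF.JJ_inj h2
    · refine ⟨∅, by rw [gf_empty']; exact zero_le, fun t ht h1 => absurd ⟨vx oo up t n, ?_⟩ hx⟩
      rw [← pos_sw n t n le_rfl]
      exact h1.1
  obtain ⟨B0, g0, f0⟩ := key z
  obtain ⟨B1, g1, f1⟩ := key (om⁻¹ * z)
  obtain ⟨B2, g2, f2⟩ := key (om⁻¹ * (om⁻¹ * z))
  exact prop_le3 hn (fun s => Pool.Agent.NTS.Res.pos s n = z ∧ Q s) hc f0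
    (fun t ht h1 => f1 t ht ⟨(rot_end _ _).1 h1.1, (hQ _).1 h1.2⟩)
    (fun t ht h1 => f2 t ht ⟨(rot_end _ _).1 ((rot_end _ _).1 h1.1), (hQ _).1 ((hQ _).1 h1.2)⟩) g0 g1 g2

/-- **the pointwise bound with the tail, upper side, for the walks** -/
theorem loc_up {m : ℕ → ℝ} (hlo : ∃ c : ℝ, 0 < c ∧ ∀ k : ℕ, c * (2 : ℝ) ^ (4 / 3 * (k : ℝ)) ≤ m k)
    (hup : ∃ C : ℝ, ∀ k : ℕ, m k ≤ C * (2 : ℝ) ^ (4 / 3 * (k : ℝ))) (hF : FactsX m) (hE : EndX m) (hU : FarUpX m) :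
    ∃ c C : ℝ, 0 < c ∧ 0 < C ∧ ∀ n : ℕ, 1 ≤ n → ∀ (z : ℂ) (L : ℝ), 0 ≤ L →
      (((saw n).filter fun s => Pool.Agent.NTS.Res.pos s n = z ∧ ∃ j, j ≤ n ∧
        L * (n : ℝ) ^ (3 / 4 : ℝ) ≤ ‖Pool.Agent.NTS.Res.pos s j‖).card : ℝ) ≤
        C * (n : ℝ) ^ (-(3 / 2) : ℝ) * Real.exp (-(c * L ^ 4)) * ((saw n).card : ℝ) := by
  obtain ⟨R, κ, hS⟩ := scaleX_exists hlo hup
  obtain ⟨cn, nn, hcn, hnu⟩ := nuX_le hS hF
  obtain ⟨C1, c1, a, hC1, hc1, hfar⟩ := hU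
  obtain ⟨CE, kE, hCE, hend⟩ := hE
  obtain ⟨n1, hn1⟩ := hS.sc
  obtain ⟨n2, hn2⟩ := hS.top (a + kE)
  obtain ⟨c0, C0, n3, hc0, hC0, hord⟩ := hS.ord
  obtain ⟨n0, hn0⟩ : ∃ n0, n0 = max (max n1 n2) (max n3 nn) := ⟨_, rfl⟩
  -- constants
  obtain ⟨c4, hc4⟩ : ∃ c4 : ℝ, c4 = min 1 (c0 / (8 * 2 ^ a)) := ⟨_, rfl⟩
  have hc40 : 0 < c4 := by rw [hc4]; exact lt_min one_pos (by positivity)
  have hc41 : c4 ≤ 1 := by rw [hc4]; exact min_le_left _ _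
  have hc42 : c4 ≤ c0 / (8 * 2 ^ a) := by rw [hc4]; exact min_le_right _ _
  obtain ⟨c, hc⟩ : ∃ c : ℝ, c = min (c1 / (2 * C0) ^ 4) (c1 * c4 ^ 2) := ⟨_, rfl⟩
  have hcpos : 0 < c := by rw [hc]; exact lt_min (by positivity) (by positivity)
  have hcA : c ≤ c1 / (2 * C0) ^ 4 := by rw [hc]; exact min_le_left _ _
  have hcB : c ≤ c1 * c4 ^ 2 := by rw [hc]; exact min_le_right _ _
  obtain ⟨CA, hCA⟩ : ∃ CA : ℝ, CA = 3 * (CE * cn / c0 ^ 2) * Real.exp (c * C0 ^ 4) := ⟨_, rfl⟩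
  obtain ⟨CB, hCB⟩ : ∃ CB : ℝ, CB = 3 * (C1 * cn / c0 ^ 2) := ⟨_, rfl⟩
  obtain ⟨CC, hCC⟩ : ∃ CC : ℝ, CC = ((n0 : ℝ) + 1) ^ (3 / 2 : ℝ) * Real.exp (c * n0) := ⟨_, rfl⟩
  have hCA0 : 0 < CA := by rw [hCA]; positivity
  have hCB0 : 0 < CB := by rw [hCB]; positivity
  have hCC0 : 0 < CC := by rw [hCC]; positivity
  refine ⟨c, CA + CB + CC, hcpos, by positivity, fun n hn z L hL0 => ?_⟩
  obtain ⟨q3, q4, q1⟩ := quart n
  have hn' : (0 : ℝ) < n := by exact_mod_cast hn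
  have hq0 : 0 < (n : ℝ) ^ (1 / 4 : ℝ) := by positivity
  have hp0 : 0 < (n : ℝ) ^ (3 / 4 : ℝ) := by positivity
  have hcard := saw_card_pos n
  obtain ⟨W, hW⟩ : ∃ W : ℝ, W = (n : ℝ) ^ (-(3 / 2) : ℝ) := ⟨_, rfl⟩
  have hW0 : 0 < W := by rw [hW]; positivity
  rw [← hW]
  obtain ⟨F, hFd⟩ : ∃ F, F = (saw n).filter fun s => Pool.Agent.NTS.Res.pos s n = z ∧ ∃ j, j ≤ n ∧
    L * (n : ℝ) ^ (3 / 4 : ℝ) ≤ ‖Pool.Agent.NTS.Res.pos s j‖ := ⟨_, rfl⟩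
  rw [← hFd]
  have htriv : ((F.card : ℕ) : ℝ) ≤ ((saw n).card : ℝ) := by
    rw [hFd]
    exact_mod_cast Finset.card_le_card (Finset.filter_subset _ _)
  have hex0 := Real.exp_pos (-(c * L ^ 4))
  -- a bound with one of the three constants is enough
  have hfin : ∀ K : ℝ, K ≤ CA + CB + CC → ((F.card : ℕ) : ℝ) ≤ K * W * Real.exp (-(c * L ^ 4)) * ((saw n).card : ℝ) →
      ((F.card : ℕ) : ℝ) ≤ (CA + CB + CC) * W * Real.exp (-(c * L ^ 4)) * ((saw n).card : ℝ) := by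
    intro K hK h
    refine h.trans ?_
    gcongr
  -- the event is empty for L > n ^ (1 / 4)
  rcases lt_or_ge ((n : ℝ) ^ (1 / 4 : ℝ)) L with hbig | hbig
  · have hFe : F = ∅ := by
      rw [hFd, Finset.filter_eq_empty_iff]
      rintro s - ⟨-, j, hj, h1⟩
      have h2 := pos_le s hj
      have h3 : (j : ℝ) ≤ n := by exact_mod_cast hj
      have h4 : (n : ℝ) < L * (n : ℝ) ^ (3 / 4 : ℝ) := by
        calc (n : ℝ) = (n : ℝ) ^ (1 / 4 : ℝ) * (n : ℝ) ^ (3 / 4 : ℝ) := q1.symm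
          _ < _ := mul_lt_mul_of_pos_right hbig hp0
      linarith
    rw [hFe, Finset.card_empty, Nat.cast_zero]
    positivity
  have hL4 : L ^ 4 ≤ n := by
    calc L ^ 4 ≤ ((n : ℝ) ^ (1 / 4 : ℝ)) ^ 4 := pow_le_pow_left₀ hL0 hbig 4
      _ = n := q4
  -- small n
  rcases Nat.lt_or_ge n n0 with hns | hns
  · refine hfin CC (by linarith) (htriv.trans ?_)
    have h1 : 1 ≤ CC * W * Real.exp (-(c * L ^ 4)) := by
      have e1 : (n : ℝ) ≤ n0 := by exact_mod_cast hns.le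
      have e2 : 1 ≤ ((n0 : ℝ) + 1) ^ (3 / 2 : ℝ) * W := by
        have e3 : (n : ℝ) ^ (3 / 2 : ℝ) * W = 1 := by
          rw [hW, ← Real.rpow_add hn']
          norm_num
        rw [← e3]
        refine mul_le_mul_of_nonneg_right ?_ hW0.le
        exact Real.rpow_le_rpow hn'.le (by linarith) (by norm_num)
      have e4 : 1 ≤ Real.exp (c * n0) * Real.exp (-(c * L ^ 4)) := by
        rw [← Real.exp_add]
        apply Real.one_le_exp
        nlinarith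
      calc (1 : ℝ) = 1 * 1 := (one_mul 1).symm
        _ ≤ (((n0 : ℝ) + 1) ^ (3 / 2 : ℝ) * W) * (Real.exp (c * n0) * Real.exp (-(c * L ^ 4))) :=
          mul_le_mul e2 e4 zero_le_one (by positivity)
        _ = _ := by rw [hCC]; ring
    nlinarith
  have b1 : n1 ≤ n := ((le_max_left n1 n2).trans (le_max_left _ _)).trans (hn0 ▸ hns)
  have b2 : n2 ≤ n := ((le_max_right n1 n2).trans (le_max_left _ _)).trans (hn0 ▸ hns)
  have b3 : n3 ≤ n := ((le_max_left n3 nn).trans (le_max_right _ _)).trans (hn0 ▸ hns)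
  have b4 : nn ≤ n := ((le_max_right n3 nn).trans (le_max_right _ _)).trans (hn0 ▸ hns)
  obtain ⟨a1, a2⟩ := hn1 n b1
  obtain ⟨o1, o2⟩ := hord n b3
  rw [hS.R2] at o1 o2
  have hak := hn2 n b2
  -- the local factor
  have h4k : 1 / (4 : ℝ) ^ κ n ≤ W / c0 ^ 2 := by
    have e1 : (4 : ℝ) ^ κ n = (2 ^ κ n) ^ 2 := by
      rw [← pow_mul, mul_comm, pow_mul]
      norm_num
    have e2 : (c0 * (n : ℝ) ^ (3 / 4 : ℝ)) ^ 2 ≤ (4 : ℝ) ^ κ n := by
      rw [e1]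
      exact pow_le_pow_left₀ (by positivity) o1 2
    have e3 : ((n : ℝ) ^ (3 / 4 : ℝ)) ^ 2 * W = 1 := by
      rw [hW, ← Real.rpow_natCast, ← Real.rpow_mul hn'.le, ← Real.rpow_add hn']
      norm_num
    rw [div_le_div_iff₀ (by positivity) (by positivity), one_mul]
    calc c0 ^ 2 = c0 ^ 2 * (((n : ℝ) ^ (3 / 4 : ℝ)) ^ 2 * W) := by rw [e3, mul_one]
      _ = W * (c0 * (n : ℝ) ^ (3 / 4 : ℝ)) ^ 2 := by ring
      _ ≤ W * 4 ^ κ n := mul_le_mul_of_nonneg_left e2 hW0.le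
  have hnorm : ∀ D : ℝ, 0 ≤ D → ENNReal.ofReal (D / 4 ^ κ n) * nuX m (κ n) ≤
      ENNReal.ofReal (D * cn / c0 ^ 2 * W) * gf (SawN n) := by
    intro D hD
    refine (mul_le_mul_right (hnu n b4) _).trans ?_
    rw [← mul_assoc, ← ENNReal.ofReal_mul (by positivity)]
    refine mul_le_mul_left (ENNReal.ofReal_le_ofReal ?_) _
    calc D / 4 ^ κ n * cn = D * cn * (1 / 4 ^ κ n) := by ring
      _ ≤ D * cn * (W / c0 ^ 2) := by gcongr
      _ = _ := by ring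
  -- small L
  rcases lt_or_ge L C0 with hLs | hLs
  · refine hfin CA (by linarith) ?_
    have h1 := end_saw hn (c := CE * cn / c0 ^ 2 * W) (by positivity) (fun s => ∃ j, j ≤ n ∧
      L * (n : ℝ) ^ (3 / 4 : ℝ) ≤ ‖Pool.Agent.NTS.Res.pos s j‖) (fun s => by simp only [norm_rot'])
      (fun x => (gf_mono fun t ht => ht.1).trans ((hend (κ n) n (by omega) a1 a2 x).trans (hnorm CE hCE.le))) z
    have h2 : ((F.card : ℕ) : ℝ) ≤ 3 * (CE * cn / c0 ^ 2 * W) * ((saw n).card : ℝ) := by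
      rw [hFd]
      convert h1
    refine h2.trans (mul_le_mul_of_nonneg_right ?_ hcard.le)
    have e1 : 1 ≤ Real.exp (c * C0 ^ 4) * Real.exp (-(c * L ^ 4)) := by
      rw [← Real.exp_add]
      apply Real.one_le_exp
      have : L ^ 4 ≤ C0 ^ 4 := pow_le_pow_left₀ hL0 hLs.le 4
      nlinarith
    calc 3 * (CE * cn / c0 ^ 2 * W) = 3 * (CE * cn / c0 ^ 2) * W * 1 := by ring
      _ ≤ 3 * (CE * cn / c0 ^ 2) * W * (Real.exp (c * C0 ^ 4) * Real.exp (-(c * L ^ 4))) := by gcongr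
      _ = CA * W * Real.exp (-(c * L ^ 4)) := by
          rw [hCA]
          ring
  -- a scale i
  obtain ⟨i, hi1, hi2, hi3⟩ : ∃ i : ℕ, 3 * i + a ≤ κ n ∧ (2 : ℝ) ^ i * C0 ≤ L ∧ c * L ^ 4 ≤ c1 * 16 ^ i := by
    obtain ⟨i, h1, h2⟩ := dy_below (x := L / C0) (by rw [le_div_iff₀ hC0]; linarith)
    have h1' : (2 : ℝ) ^ i * C0 ≤ L := by rwa [le_div_iff₀ hC0] at h1
    rcases Nat.lt_or_ge (κ n) (3 * i + a) with h3 | h3
    · obtain ⟨i', hi'⟩ : ∃ i', i' = (κ n - a) / 3 := ⟨_, rfl⟩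
      have hi'1 : 3 * i' + a ≤ κ n := by omega
      have hi'2 : κ n < 3 * i' + 3 + a := by omega
      have hi'3 : i' ≤ i := by omega
      refine ⟨i', hi'1, le_trans ?_ h1', ?_⟩
      · exact mul_le_mul_of_nonneg_right (pow_le_pow_right₀ (by norm_num) hi'3) hC0.le
      · have h4 : c4 * (n : ℝ) ^ (3 / 4 : ℝ) ≤ (2 ^ i') ^ 3 := by
          have h5 : (2 : ℝ) ^ κ n ≤ 2 ^ (3 * i' + 3 + a) := pow_le_pow_right₀ (by norm_num) hi'2.le
          rw [pow_add, pow_add, pow8, show (2 : ℝ) ^ 3 = 8 by norm_num] at h5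
          calc c4 * (n : ℝ) ^ (3 / 4 : ℝ) ≤ c0 / (8 * 2 ^ a) * (n : ℝ) ^ (3 / 4 : ℝ) :=
                mul_le_mul_of_nonneg_right hc42 hp0.le
            _ = c0 * (n : ℝ) ^ (3 / 4 : ℝ) / (8 * 2 ^ a) := by ring
            _ ≤ (2 ^ i') ^ 3 := by
                rw [div_le_iff₀ (by positivity)]
                linarith
        have h5 : c4 ^ 2 * n ≤ 16 ^ i' := by
          have h6 : (c4 ^ 2 * n) ^ 3 ≤ ((16 : ℝ) ^ i') ^ 3 := by
            calc (c4 ^ 2 * (n : ℝ)) ^ 3 = c4 ^ 6 * (n : ℝ) ^ 3 := by ring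
              _ ≤ c4 ^ 4 * (n : ℝ) ^ 3 := by
                  refine mul_le_mul_of_nonneg_right ?_ (by positivity)
                  exact pow_le_pow_of_le_one hc40.le hc41 (by norm_num)
              _ = (c4 * (n : ℝ) ^ (3 / 4 : ℝ)) ^ 4 := by
                  rw [← q3, mul_pow, ← pow_mul, show 3 * 4 = 4 * 3 by norm_num, pow_mul, q4]
              _ ≤ ((2 ^ i') ^ 3) ^ 4 := pow_le_pow_left₀ (by positivity) h4 4
              _ = ((16 : ℝ) ^ i') ^ 3 := by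
                  rw [pow16]
                  ring
          exact le_of_pow_le_pow_left₀ (by norm_num) (by positivity) h6
        calc c * L ^ 4 ≤ c1 * c4 ^ 2 * n := mul_le_mul hcB hL4 (by positivity) (by positivity)
          _ = c1 * (c4 ^ 2 * n) := by ring
          _ ≤ _ := mul_le_mul_of_nonneg_left h5 hc1.le
    · refine ⟨i, h3, h1', ?_⟩
      have h4 : L ≤ 2 * C0 * 2 ^ i := by
        rw [div_le_iff₀ hC0] at h2
        linarith
      calc c * L ^ 4 ≤ c1 / (2 * C0) ^ 4 * (2 * C0 * 2 ^ i) ^ 4 :=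
            mul_le_mul hcA (pow_le_pow_left₀ hL0 h4 4) (by positivity) (by positivity)
        _ = c1 * 16 ^ i := by
            rw [pow16]
            field_simp
  refine hfin CB (by linarith) ?_
  have h1 := end_saw hn (c := C1 * Real.exp (-(c1 * 16 ^ i)) * cn / c0 ^ 2 * W) (by positivity) (fun s => ∃ j, j ≤ n ∧
      L * (n : ℝ) ^ (3 / 4 : ℝ) ≤ ‖Pool.Agent.NTS.Res.pos s j‖) (fun s => by simp only [norm_rot'])
      (fun x => (gf_mono ?_).trans ((hfar (κ n) n i hi1 a1 a2 x).trans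
        (hnorm (C1 * Real.exp (-(c1 * 16 ^ i))) (by positivity)))) z
  · have h2 : ((F.card : ℕ) : ℝ) ≤ 3 * (C1 * Real.exp (-(c1 * 16 ^ i)) * cn / c0 ^ 2 * W) * ((saw n).card : ℝ) := by
      rw [hFd]
      convert h1
    refine h2.trans (mul_le_mul_of_nonneg_right ?_ hcard.le)
    have e1 : Real.exp (-(c1 * 16 ^ i)) ≤ Real.exp (-(c * L ^ 4)) := Real.exp_le_exp.2 (by linarith)
    calc 3 * (C1 * Real.exp (-(c1 * 16 ^ i)) * cn / c0 ^ 2 * W) =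
          3 * (C1 * cn / c0 ^ 2) * W * Real.exp (-(c1 * 16 ^ i)) := by ring
      _ ≤ 3 * (C1 * cn / c0 ^ 2) * W * Real.exp (-(c * L ^ 4)) := by gcongr
      _ = CB * W * Real.exp (-(c * L ^ 4)) := by rw [hCB]
  · rintro t ⟨⟨ht, hx⟩, j, hj, h4⟩
    rw [pos_sw n t j hj] at h4
    obtain ⟨dir, h5⟩ := NTF.exists_dir (by positivity) h4
    refine ⟨⟨ht, hx⟩, dir, j, hj, le_trans ?_ h5⟩
    calc (2 : ℝ) ^ (κ n + i) = 2 ^ κ n * 2 ^ i := pow_add _ _ _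
      _ ≤ C0 * (n : ℝ) ^ (3 / 4 : ℝ) * 2 ^ i := mul_le_mul_of_nonneg_right o2 (by positivity)
      _ = 2 ^ i * C0 * (n : ℝ) ^ (3 / 4 : ℝ) := by ring
      _ ≤ _ := mul_le_mul_of_nonneg_right hi2 hp0.le

end Loc

end NTSZ
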