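import Pool.Agent.NTS.Base

/-!
LOC (the end of the self-avoiding walk), row E: every vertex at distance more than two from the start which is reached
by a walk with `n` steps is reached by a self-avoiding walk with `n` steps (`exists_saw`).  (The only exceptions are the
start itself, the neighbours with `n = 3, 7`, and the opposite corner of a hexagon with `n = 5`.)

The vertices are the points `(x, y)` of the brick wall; the edge from `(x, y)` to `(x, y + 1)` exists for `x + y` even.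
-/

set_option autoImplicit false

open scoped Classical

namespace NTSZ.ExS

open Pool.Agent.NTS.Res

/-! ### Paths in the brick wall -/

/-- neighbours in the brick wall -/
def Adj (u v : ℤ × ℤ) : Prop :=
  (v.2 = u.2 ∧ (v.1 = u.1 + 1 ∨ v.1 = u.1 - 1)) ∨
    (v.1 = u.1 ∧ ((v.2 = u.2 + 1 ∧ (u.1 + u.2) % 2 = 0) ∨ (v.2 = u.2 - 1 ∧ (u.1 + u.2) % 2 = 1)))

/-- there is a self-avoiding path from `u` to `v` with `n` steps in `S` -/
def P (u v : ℤ × ℤ) (n : ℕ) (S : ℤ × ℤ → Prop) : Prop :=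
  ∃ f : ℕ → ℤ × ℤ, f 0 = u ∧ f n = v ∧ (∀ i < n, Adj (f i) (f (i + 1))) ∧ (∀ i ≤ n, S (f i)) ∧
    ∀ i ≤ n, ∀ j ≤ n, f i = f j → i = j

lemma P.mono {u v : ℤ × ℤ} {n : ℕ} {S T : ℤ × ℤ → Prop} (h : P u v n S) (hST : ∀ p, S p → T p) : P u v n T := by
  obtain ⟨f, h0, hn, hA, hS, hI⟩ := h
  exact ⟨f, h0, hn, hA, fun i hi => hST _ (hS i hi), hI⟩

lemma P.app {u v w : ℤ × ℤ} {n m : ℕ} {S T : ℤ × ℤ → Prop} (h : P u v n S) (h' : P v w m T)
    (hST : ∀ p, S p → T p → p = v) : P u w (n + m) (fun p => S p ∨ T p) := by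
  obtain ⟨f, f0, fn, fA, fS, fI⟩ := h
  obtain ⟨g, g0, gm, gA, gT, gI⟩ := h'
  have e1 : ∀ i, i ≤ n → (if i ≤ n then f i else g (i - n)) = f i := fun i hi => if_pos hi
  have e2 : ∀ i, n ≤ i → (if i ≤ n then f i else g (i - n)) = g (i - n) := by
    intro i hi
    rcases Nat.lt_or_ge n i with h1 | h1
    · exact if_neg (by omega)
    · have : i = n := le_antisymm h1 hi
      subst this
      rw [if_pos le_rfl, Nat.sub_self, fn, g0]
  have mix : ∀ i j, i ≤ n → n ≤ j → j ≤ n + m → f i = g (j - n) → i = j := by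
    intro i j hi hj hj' he
    have h1 := hST (f i) (fS i hi) (he ▸ gT (j - n) (by omega))
    have h2 : i = n := fI i hi n le_rfl (h1.trans fn.symm)
    have h3 : j - n = 0 := gI (j - n) (by omega) 0 (by omega) ((he.symm.trans h1).trans g0.symm)
    omega
  refine ⟨fun i => if i ≤ n then f i else g (i - n), ?_, ?_, ?_, ?_, ?_⟩
  · show (if 0 ≤ n then f 0 else g (0 - n)) = u
    rw [e1 0 (Nat.zero_le _), f0]
  · show (if n + m ≤ n then f (n + m) else g (n + m - n)) = w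
    rw [e2 (n + m) (by omega), Nat.add_sub_cancel_left, gm]
  · intro i hi
    show Adj (if i ≤ n then f i else g (i - n)) (if i + 1 ≤ n then f (i + 1) else g (i + 1 - n))
    rcases Nat.lt_or_ge i n with h1 | h1
    · rw [e1 i h1.le, e1 (i + 1) h1]
      exact fA i h1
    · rw [e2 i h1, e2 (i + 1) (by omega), show i + 1 - n = (i - n) + 1 by omega]
      exact gA (i - n) (by omega)
  · intro i hi
    show S (if i ≤ n then f i else g (i - n)) ∨ T (if i ≤ n then f i else g (i - n))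
    rcases Nat.lt_or_ge i n with h1 | h1
    · rw [e1 i h1.le]
      exact Or.inl (fS i h1.le)
    · rw [e2 i h1]
      exact Or.inr (gT (i - n) (by omega))
  · intro i hi j hj
    show (if i ≤ n then f i else g (i - n)) = (if j ≤ n then f j else g (j - n)) → i = j
    intro he
    rcases Nat.le_total i n with h1 | h1 <;> rcases Nat.le_total j n with h2 | h2
    · rw [e1 i h1, e1 j h2] at he
      exact fI i h1 j h2 he
    · rw [e1 i h1, e2 j h2] at he
      exact mix i j h1 h2 hj he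
    · rw [e2 i h1, e1 j h2] at he
      exact (mix j i h2 h1 hi he.symm).symm
    · rw [e2 i h1, e2 j h2] at he
      have := gI (i - n) (by omega) (j - n) (by omega) he
      omega

lemma P_right (x y : ℤ) (k : ℕ) : P (x, y) (x + k, y) k (fun p => p.2 = y ∧ x ≤ p.1 ∧ p.1 ≤ x + k) := by
  refine ⟨fun i => (x + i, y), ?_, rfl, ?_, ?_, ?_⟩
  · simp
  · intro i _
    left
    constructor
    · rfl
    · left
      push_cast
      ring
  · intro i hi
    refine ⟨rfl, ?_, ?_⟩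
    · show x ≤ x + i
      omega
    · show x + i ≤ x + k
      omega
  · intro i _ j _ he
    have := congrArg Prod.fst he
    simp only at this
    omega

lemma P_left (x y : ℤ) (k : ℕ) : P (x, y) (x - k, y) k (fun p => p.2 = y ∧ x - k ≤ p.1 ∧ p.1 ≤ x) := by
  refine ⟨fun i => (x - i, y), ?_, rfl, ?_, ?_, ?_⟩
  · simp
  · intro i _
    left
    constructor
    · rfl
    · right
      push_cast
      ring
  · intro i hi
    refine ⟨rfl, ?_, ?_⟩
    · show x - k ≤ x - i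
      omega
    · show x - i ≤ x
      omega
  · intro i _ j _ he
    have := congrArg Prod.fst he
    simp only at this
    omega

lemma P_one {u v : ℤ × ℤ} (hA : Adj u v) (hne : u ≠ v) : P u v 1 (fun p => p = u ∨ p = v) := by
  refine ⟨fun i => if i = 0 then u else v, by simp, by simp, ?_, ?_, ?_⟩
  · intro i hi
    have : i = 0 := by omega
    subst this
    simpa using hA
  · intro i _
    by_cases h : i = 0
    · left
      simp [h]
    · right
      simp [h]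
  · intro i hi j hj he
    by_cases h : i = 0 <;> by_cases h' : j = 0
    · omega
    · simp only [h, h', if_true, if_false] at he
      exact absurd he hne
    · simp only [h, h', if_true, if_false] at he
      exact absurd he.symm hne
    · omega

lemma P_up (x y : ℤ) (h : (x + y) % 2 = 0) :
    P (x, y) (x, y + 1) 1 (fun p => p.1 = x ∧ (p.2 = y ∨ p.2 = y + 1)) :=
  (P_one (u := (x, y)) (v := (x, y + 1)) (Or.inr ⟨rfl, Or.inl ⟨rfl, h⟩⟩) (by
    intro he
    have := congrArg Prod.snd he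
    simp only at this
    omega)).mono (by
      rintro p (rfl | rfl)
      · exact ⟨rfl, Or.inl rfl⟩
      · exact ⟨rfl, Or.inr rfl⟩)

lemma P_down (x y : ℤ) (h : (x + y) % 2 = 1) :
    P (x, y) (x, y - 1) 1 (fun p => p.1 = x ∧ (p.2 = y ∨ p.2 = y - 1)) :=
  (P_one (u := (x, y)) (v := (x, y - 1)) (Or.inr ⟨rfl, Or.inr ⟨rfl, h⟩⟩) (by
    intro he
    have := congrArg Prod.snd he
    simp only at this
    omega)).mono (by
      rintro p (rfl | rfl)
      · exact ⟨rfl, Or.inl rfl⟩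
      · exact ⟨rfl, Or.inr rfl⟩)

lemma P_nil (u : ℤ × ℤ) : P u u 0 (fun p => p = u) :=
  ⟨fun _ => u, rfl, rfl, fun i hi => absurd hi (Nat.not_lt_zero _), fun _ _ => rfl, fun i hi j hj _ => by omega⟩

lemma P.cast {u v v' : ℤ × ℤ} {n n' : ℕ} {S : ℤ × ℤ → Prop} (h : P u v n S) (hv : v = v') (hn : n = n') : P u v' n' S := by
  subst hv hn
  exact h

/-- the staircase up -/
lemma stair_up (x y : ℤ) (h : (x + y) % 2 = 0) (k : ℕ) :
    P (x, y) (x + k, y + k) (2 * k) (fun p => x ≤ p.1 ∧ p.1 ≤ x + k ∧ y ≤ p.2 ∧ p.2 ≤ y + k) := by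
  induction k with
  | zero =>
    refine ((P_nil (x, y)).cast (by simp) (by simp)).mono ?_
    rintro p rfl
    refine ⟨le_rfl, ?_, le_rfl, ?_⟩ <;> simp
  | succ k ih =>
    have h1 := P_up (x + k) (y + k) (by omega)
    have h2 := P_right (x + k) (y + k + 1) 1
    refine (((ih.app h1 ?_).app h2 ?_).cast ?_ ?_).mono ?_
    · rintro ⟨a, b⟩ ⟨p1, p2, p3, p4⟩ ⟨q1, q2⟩
      simp only at p1 p2 p3 p4 q1 q2
      ext <;> simp only <;> omega
    · rintro ⟨a, b⟩ (⟨p1, p2, p3, p4⟩ | ⟨p1, p2⟩) ⟨q1, q2, q3⟩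
      · simp only at p1 p2 p3 p4 q1 q2 q3
        exfalso
        omega
      · simp only at p1 p2 q1 q2 q3
        ext <;> simp only <;> omega
    · ext
      · simp only
        push_cast
        ring
      · simp only
        push_cast
        ring
    · ring
    · rintro ⟨a, b⟩ ((⟨p1, p2, p3, p4⟩ | ⟨p1, p2⟩) | ⟨p1, p2, p3⟩)
      · simp only at p1 p2 p3 p4 ⊢
        push_cast
        refine ⟨?_, ?_, ?_, ?_⟩ <;> omega
      · simp only at p1 p2 ⊢
        push_cast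
        refine ⟨?_, ?_, ?_, ?_⟩ <;> omega
      · simp only at p1 p2 p3 ⊢
        push_cast at p3 ⊢
        refine ⟨?_, ?_, ?_, ?_⟩ <;> omega

/-- the staircase down -/
lemma stair_down (x y : ℤ) (h : (x + y) % 2 = 1) (k : ℕ) :
    P (x, y) (x + k, y - k) (2 * k) (fun p => x ≤ p.1 ∧ p.1 ≤ x + k ∧ y - k ≤ p.2 ∧ p.2 ≤ y) := by
  induction k with
  | zero =>
    refine ((P_nil (x, y)).cast (by simp) (by simp)).mono ?_
    rintro p rfl
    refine ⟨le_rfl, ?_, ?_, le_rfl⟩ <;> simp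
  | succ k ih =>
    have h1 := P_down (x + k) (y - k) (by omega)
    have h2 := P_right (x + k) (y - k - 1) 1
    refine (((ih.app h1 ?_).app h2 ?_).cast ?_ ?_).mono ?_
    · rintro ⟨a, b⟩ ⟨p1, p2, p3, p4⟩ ⟨q1, q2⟩
      simp only at p1 p2 p3 p4 q1 q2
      ext <;> simp only <;> omega
    · rintro ⟨a, b⟩ (⟨p1, p2, p3, p4⟩ | ⟨p1, p2⟩) ⟨q1, q2, q3⟩
      · simp only at p1 p2 p3 p4 q1 q2 q3
        exfalso
        omega
      · simp only at p1 p2 q1 q2 q3
        ext <;> simp only <;> omega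
    · ext
      · simp only
        push_cast
        ring
      · simp only
        push_cast
        ring
    · ring
    · rintro ⟨a, b⟩ ((⟨p1, p2, p3, p4⟩ | ⟨p1, p2⟩) | ⟨p1, p2, p3⟩)
      · simp only at p1 p2 p3 p4 ⊢
        push_cast
        refine ⟨?_, ?_, ?_, ?_⟩ <;> omega
      · simp only at p1 p2 ⊢
        push_cast
        refine ⟨?_, ?_, ?_, ?_⟩ <;> omega
      · simp only at p1 p2 p3 ⊢
        push_cast at p3 ⊢
        refine ⟨?_, ?_, ?_, ?_⟩ <;> omega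

/-! ### The geodesics from `(2, 0)` -/

/-- the region of the geodesics -/
def R3 (p : ℤ × ℤ) : Prop := (p.1 = 2 ∧ p.2 = 0) ∨ 3 ≤ p.1

lemma geo_flat (X : ℕ) (hX : 3 ≤ X) : P (2, 0) ((X : ℤ), 0) (X - 2) R3 := by
  refine ((P_right 2 0 (X - 2)).cast ?_ rfl).mono ?_
  · ext
    · simp only
      push_cast [Nat.cast_sub (show 2 ≤ X by omega)]
      ring
    · rfl
  · rintro ⟨a, b⟩ ⟨p1, p2, p3⟩
    simp only [R3] at p1 p2 p3 ⊢
    omega

lemma geo_down (X k : ℕ) (hX : k + 3 ≤ X) : P (2, 0) ((X : ℤ), -((k : ℤ) + 1)) (X + (k + 1) - 2) R3 := by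
  have h1 := P_right 2 0 1
  have h2 := stair_down 3 0 (by norm_num) k
  have h3 := P_down (3 + k) (0 - k) (by omega)
  have h4 := P_right (3 + k) (0 - k - 1) (X - (k + 3))
  have h1' : P (2, 0) (3, 0) 1 (fun p => p.2 = 0 ∧ 2 ≤ p.1 ∧ p.1 ≤ 3) :=
    (h1.cast (by norm_num) rfl).mono (by
      rintro ⟨a, b⟩ ⟨p1, p2, p3⟩
      simp only at p1 p2 p3 ⊢
      push_cast at p3
      omega)
  refine ((((h1'.app h2 ?_).app h3 ?_).app h4 ?_).cast ?_ ?_).mono ?_
  · rintro ⟨a, b⟩ ⟨p1, p2, p3⟩ ⟨q1, q2, q3, q4⟩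
    simp only at p1 p2 p3 q1 q2 q3 q4
    ext <;> simp only <;> omega
  · rintro ⟨a, b⟩ (⟨p1, p2, p3⟩ | ⟨p1, p2, p3, p4⟩) ⟨q1, q2⟩
    · simp only at p1 p2 p3 q1 q2
      ext <;> simp only <;> omega
    · simp only at p1 p2 p3 p4 q1 q2
      ext <;> simp only <;> omega
  · rintro ⟨a, b⟩ ((⟨p1, p2, p3⟩ | ⟨p1, p2, p3, p4⟩) | ⟨p1, p2⟩) ⟨q1, q2, q3⟩
    · simp only at p1 p2 p3 q1 q2 q3
      ext <;> simp only <;> omega
    · simp only at p1 p2 p3 p4 q1 q2 q3
      ext <;> simp only <;> omega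
    · simp only at p1 p2 q1 q2 q3
      ext <;> simp only <;> omega
  · ext
    · simp only
      push_cast [Nat.cast_sub hX]
      ring
    · simp only
      ring
  · omega
  · rintro ⟨a, b⟩ (((⟨p1, p2, p3⟩ | ⟨p1, p2, p3, p4⟩) | ⟨p1, p2⟩) | ⟨q1, q2, q3⟩)
    · simp only [R3] at p1 p2 p3 ⊢
      omega
    · simp only [R3] at p1 p2 p3 p4 ⊢
      omega
    · simp only [R3] at p1 p2 ⊢
      omega
    · simp only [R3] at q1 q2 q3 ⊢
      omega

lemma geo_up (X k : ℕ) (hX : k + 4 ≤ X) : P (2, 0) ((X : ℤ), (k : ℤ) + 1) (X + (k + 1) - 2) R3 := by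
  have h1 := P_right 2 0 2
  have h2 := stair_up 4 0 (by norm_num) k
  have h3 := P_up (4 + k) (0 + k) (by omega)
  have h4 := P_right (4 + k) (0 + k + 1) (X - (k + 4))
  have h1' : P (2, 0) (4, 0) 2 (fun p => p.2 = 0 ∧ 2 ≤ p.1 ∧ p.1 ≤ 4) :=
    (h1.cast (by norm_num) rfl).mono (by
      rintro ⟨a, b⟩ ⟨p1, p2, p3⟩
      simp only at p1 p2 p3 ⊢
      push_cast at p3
      omega)
  refine ((((h1'.app h2 ?_).app h3 ?_).app h4 ?_).cast ?_ ?_).mono ?_
  · rintro ⟨a, b⟩ ⟨p1, p2, p3⟩ ⟨q1, q2, q3, q4⟩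
    simp only at p1 p2 p3 q1 q2 q3 q4
    ext <;> simp only <;> omega
  · rintro ⟨a, b⟩ (⟨p1, p2, p3⟩ | ⟨p1, p2, p3, p4⟩) ⟨q1, q2⟩
    · simp only at p1 p2 p3 q1 q2
      ext <;> simp only <;> omega
    · simp only at p1 p2 p3 p4 q1 q2
      ext <;> simp only <;> omega
  · rintro ⟨a, b⟩ ((⟨p1, p2, p3⟩ | ⟨p1, p2, p3, p4⟩) | ⟨p1, p2⟩) ⟨q1, q2, q3⟩
    · simp only at p1 p2 p3 q1 q2 q3
      ext <;> simp only <;> omega
    · simp only at p1 p2 p3 p4 q1 q2 q3
      ext <;> simp only <;> omega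
    · simp only at p1 p2 q1 q2 q3
      ext <;> simp only <;> omega
  · ext
    · simp only
      push_cast [Nat.cast_sub hX]
      ring
    · simp only
      ring
  · omega
  · rintro ⟨a, b⟩ (((⟨p1, p2, p3⟩ | ⟨p1, p2, p3, p4⟩) | ⟨p1, p2⟩) | ⟨q1, q2, q3⟩)
    · simp only [R3] at p1 p2 p3 ⊢
      omega
    · simp only [R3] at p1 p2 p3 p4 ⊢
      omega
    · simp only [R3] at p1 p2 ⊢
      omega
    · simp only [R3] at q1 q2 q3 ⊢
      omega

/-! ### The detours from `(0, 0)` to `(2, 0)` -/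

/-- the region which the detours of length `0` modulo four avoid -/
def R4 (p : ℤ × ℤ) : Prop := (p.1 = 2 ∧ p.2 = 0) ∨ 3 ≤ p.1 ∨ (2 ≤ p.1 ∧ 1 ≤ p.2)

lemma det_zero {v : ℤ × ℤ} {m : ℕ} (hG : P (2, 0) v m R4) : ∃ S, P (0, 0) v (2 + m) S := by
  refine ⟨_, ((P_right 0 0 2).cast (by norm_num) rfl).app hG ?_⟩
  rintro ⟨a, b⟩ ⟨p1, p2, p3⟩ q
  simp only [R4] at p1 p2 p3 q
  push_cast at p3
  ext <;> simp only <;> omega

/-- left `p`, down, right, up at `x = 1` (`p` odd) -/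
lemma det_A {v : ℤ × ℤ} {m : ℕ} (hG : P (2, 0) v m R4) (j : ℕ) : ∃ S, P (0, 0) v (2 + m + 4 * (j + 1)) S := by
  have h1 := P_left 0 0 (2 * j + 1)
  have h2 := P_down (0 - ((2 * j + 1 : ℕ) : ℤ)) 0 (by push_cast; omega)
  have h3 := P_right (0 - ((2 * j + 1 : ℕ) : ℤ)) (0 - 1) (2 * j + 2)
  have h4 := P_up 1 (-1) (by norm_num)
  have h5 := P_right 1 0 1
  have h3' : P (0 - ((2 * j + 1 : ℕ) : ℤ), 0 - 1) (1, -1) (2 * j + 2)
      (fun p => p.2 = -1 ∧ -(2 * (j : ℤ) + 1) ≤ p.1 ∧ p.1 ≤ 1) :=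
    (h3.cast (by
      ext
      · simp only
        push_cast
        ring
      · simp only
        norm_num) rfl).mono (by
      rintro ⟨a, b⟩ ⟨p1, p2, p3⟩
      simp only at p1 p2 p3 ⊢
      push_cast at p2 p3
      omega)
  have h4' : P (1, -1) (1, 0) 1 (fun p => p.1 = 1 ∧ (p.2 = -1 ∨ p.2 = 0)) :=
    (h4.cast (by norm_num) rfl).mono (by
      rintro ⟨a, b⟩ ⟨p1, p2⟩
      simp only at p1 p2 ⊢
      omega)
  have h5' : P (1, 0) (2, 0) 1 (fun p => p.2 = 0 ∧ 1 ≤ p.1 ∧ p.1 ≤ 2) :=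
    (h5.cast (by norm_num) rfl).mono (by
      rintro ⟨a, b⟩ ⟨p1, p2, p3⟩
      simp only at p1 p2 p3 ⊢
      push_cast at p3
      omega)
  refine ⟨_, (((((h1.app h2 ?_).app h3' ?_).app h4' ?_).app h5' ?_).app hG ?_).cast rfl ?_⟩
  · rintro ⟨a, b⟩ ⟨p1, p2, p3⟩ ⟨q1, q2⟩
    simp only at p1 p2 p3 q1 q2
    ext <;> simp only <;> omega
  · rintro ⟨a, b⟩ (⟨p1, p2, p3⟩ | ⟨p1, p2⟩) ⟨q1, q2, q3⟩
    · simp only at p1 p2 p3 q1 q2 q3
      ext <;> simp only <;> omega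
    · simp only at p1 p2 q1 q2 q3
      ext <;> simp only <;> omega
  · rintro ⟨a, b⟩ ((⟨p1, p2, p3⟩ | ⟨p1, p2⟩) | ⟨p1, p2, p3⟩) ⟨q1, q2⟩
    · simp only at p1 p2 p3 q1 q2
      ext <;> simp only <;> omega
    · simp only at p1 p2 q1 q2
      push_cast at p1
      ext <;> simp only <;> omega
    · simp only at p1 p2 p3 q1 q2
      ext <;> simp only <;> omega
  · rintro ⟨a, b⟩ (((⟨p1, p2, p3⟩ | ⟨p1, p2⟩) | ⟨p1, p2, p3⟩) | ⟨p1, p2⟩) ⟨q1, q2, q3⟩
    · simp only at p1 p2 p3 q1 q2 q3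
      ext <;> simp only <;> omega
    · simp only at p1 p2 q1 q2 q3
      push_cast at p1
      ext <;> simp only <;> omega
    · simp only at p1 p2 p3 q1 q2 q3
      ext <;> simp only <;> omega
    · simp only at p1 p2 q1 q2 q3
      ext <;> simp only <;> omega
  · rintro ⟨a, b⟩ ((((⟨p1, p2, p3⟩ | ⟨p1, p2⟩) | ⟨p1, p2, p3⟩) | ⟨p1, p2⟩) | ⟨p1, p2, p3⟩) q
    · simp only [R4] at p1 p2 p3 q
      ext <;> simp only <;> omega
    · simp only [R4] at p1 p2 q
      push_cast at p1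
      ext <;> simp only <;> omega
    · simp only [R4] at p1 p2 p3 q
      ext <;> simp only <;> omega
    · simp only [R4] at p1 p2 q
      ext <;> simp only <;> omega
    · simp only [R4] at p1 p2 p3 q
      ext <;> simp only <;> omega
  · ring

/-- left `p`, up, right, down at `x = 2` (`p` even) -/
lemma det_B {v : ℤ × ℤ} {m : ℕ} (hG : P (2, 0) v m R3) (j : ℕ) : ∃ S, P (0, 0) v (2 + m + (4 * j + 2)) S := by
  have h1 := P_left 0 0 (2 * j)
  have h2 := P_up (0 - ((2 * j : ℕ) : ℤ)) 0 (by push_cast; omega)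
  have h3 := P_right (0 - ((2 * j : ℕ) : ℤ)) (0 + 1) (2 * j + 2)
  have h4 := P_down 2 1 (by norm_num)
  have h3' : P (0 - ((2 * j : ℕ) : ℤ), 0 + 1) (2, 1) (2 * j + 2)
      (fun p => p.2 = 1 ∧ -(2 * (j : ℤ)) ≤ p.1 ∧ p.1 ≤ 2) :=
    (h3.cast (by
      ext
      · simp only
        push_cast
        ring
      · simp only
        norm_num) rfl).mono (by
      rintro ⟨a, b⟩ ⟨p1, p2, p3⟩
      simp only at p1 p2 p3 ⊢
      push_cast at p2 p3
      omega)
  have h4' : P (2, 1) (2, 0) 1 (fun p => p.1 = 2 ∧ (p.2 = 1 ∨ p.2 = 0)) :=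
    (h4.cast (by norm_num) rfl).mono (by
      rintro ⟨a, b⟩ ⟨p1, p2⟩
      simp only at p1 p2 ⊢
      omega)
  refine ⟨_, ((((h1.app h2 ?_).app h3' ?_).app h4' ?_).app hG ?_).cast rfl ?_⟩
  · rintro ⟨a, b⟩ ⟨p1, p2, p3⟩ ⟨q1, q2⟩
    simp only at p1 p2 p3 q1 q2
    ext <;> simp only <;> omega
  · rintro ⟨a, b⟩ (⟨p1, p2, p3⟩ | ⟨p1, p2⟩) ⟨q1, q2, q3⟩
    · simp only at p1 p2 p3 q1 q2 q3
      ext <;> simp only <;> omega
    · simp only at p1 p2 q1 q2 q3
      ext <;> simp only <;> omega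
  · rintro ⟨a, b⟩ ((⟨p1, p2, p3⟩ | ⟨p1, p2⟩) | ⟨p1, p2, p3⟩) ⟨q1, q2⟩
    · simp only at p1 p2 p3 q1 q2
      ext <;> simp only <;> omega
    · simp only at p1 p2 q1 q2
      push_cast at p1
      ext <;> simp only <;> omega
    · simp only at p1 p2 p3 q1 q2
      ext <;> simp only <;> omega
  · rintro ⟨a, b⟩ (((⟨p1, p2, p3⟩ | ⟨p1, p2⟩) | ⟨p1, p2, p3⟩) | ⟨p1, p2⟩) q
    · simp only [R3] at p1 p2 p3 q
      ext <;> simp only <;> omega
    · simp only [R3] at p1 p2 q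
      push_cast at p1
      ext <;> simp only <;> omega
    · simp only [R3] at p1 p2 p3 q
      ext <;> simp only <;> omega
    · simp only [R3] at p1 p2 q
      ext <;> simp only <;> omega
  · ring

/-- the target `(3, 1)`, extra length `2` modulo four: right to `x = 2 j + 4`, up, left to `x = 3` -/
lemma det_D (j : ℕ) : ∃ S, P (0, 0) (3, 1) (4 + (4 * j + 2)) S := by
  have h1 := P_right 0 0 (2 * j + 4)
  have h2 := P_up (0 + ((2 * j + 4 : ℕ) : ℤ)) 0 (by push_cast; omega)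
  have h3 := P_left (0 + ((2 * j + 4 : ℕ) : ℤ)) (0 + 1) (2 * j + 1)
  refine ⟨_, ((h1.app h2 ?_).app h3 ?_).cast ?_ ?_⟩
  · rintro ⟨a, b⟩ ⟨p1, p2, p3⟩ ⟨q1, q2⟩
    simp only at p1 p2 p3 q1 q2
    ext <;> simp only <;> omega
  · rintro ⟨a, b⟩ (⟨p1, p2, p3⟩ | ⟨p1, p2⟩) ⟨q1, q2, q3⟩
    · simp only at p1 p2 p3 q1 q2 q3
      ext <;> simp only <;> omega
    · simp only at p1 p2 q1 q2 q3
      ext <;> simp only <;> omega
  · ext
    · simp only
      push_cast
      ring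
    · simp only
      norm_num
  · ring

lemma R3_R4 (p : ℤ × ℤ) (h : R3 p) : R4 p := by
  rcases h with h | h
  · exact Or.inl h
  · exact Or.inr (Or.inl h)

/-- the paths of all lengths to the vertices in the sector -/
theorem exP (X Y : ℤ) (n : ℕ) (hd : X + |Y| ≤ n) (hp : (X + Y) % 2 = (n : ℤ) % 2)
    (hX : 3 ≤ X) (hc : (Y = 0) ∨ (Y < 0 ∧ |Y| + 2 ≤ X) ∨ (0 < Y ∧ Y + 3 ≤ X) ∨ (X = 3 ∧ Y = 1)) :
    ∃ S, P (0, 0) (X, Y) n S := by
  have main : ∀ m : ℕ, (m : ℤ) + 2 = X + |Y| → P (2, 0) (X, Y) m R3 → ∃ S, P (0, 0) (X, Y) n S := by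
    intro m hm hG
    have hG4 := hG.mono R3_R4
    have hpar : ∃ q : ℕ, n = 2 + m + 2 * q := by
      refine ⟨(n - (2 + m)) / 2, ?_⟩
      rcases abs_cases Y with ⟨e, _⟩ | ⟨e, _⟩ <;> omega
    obtain ⟨q, hq⟩ := hpar
    rcases Nat.even_or_odd' q with ⟨j, hj | hj⟩
    · rcases Nat.eq_zero_or_pos j with h0 | h0
      · obtain ⟨S, hS⟩ := det_zero hG4
        exact ⟨S, hS.cast rfl (by omega)⟩
      · obtain ⟨S, hS⟩ := det_A hG4 (j - 1)
        exact ⟨S, hS.cast rfl (by omega)⟩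
    · obtain ⟨S, hS⟩ := det_B hG j
      exact ⟨S, hS.cast rfl (by omega)⟩
  obtain ⟨X, rfl⟩ := Int.eq_ofNat_of_zero_le (show 0 ≤ X by omega)
  rcases hc with h | ⟨h, h2⟩ | ⟨h, h2⟩ | ⟨h, h2⟩
  · subst h
    exact main (X - 2) (by simp; omega) (geo_flat X (by omega))
  · obtain ⟨k, hk⟩ := Int.eq_ofNat_of_zero_le (show 0 ≤ -Y - 1 by omega)
    have hY : Y = -((k : ℤ) + 1) := by omega
    subst hY
    have e : |(-((k : ℤ) + 1))| = (k : ℤ) + 1 := by
      rw [abs_neg, abs_of_nonneg (by omega)]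
    rw [e] at h2
    exact main (X + (k + 1) - 2) (by rw [e]; omega) (geo_down X k (by omega))
  · obtain ⟨k, hk⟩ := Int.eq_ofNat_of_zero_le (show 0 ≤ Y - 1 by omega)
    have hY : Y = (k : ℤ) + 1 := by omega
    subst hY
    have e : |((k : ℤ) + 1)| = (k : ℤ) + 1 := abs_of_nonneg (by omega)
    exact main (X + (k + 1) - 2) (by rw [e]; omega) (geo_up X k (by omega))
  · subst h2
    have hX3 : X = 3 := by omega
    subst hX3
    have hG : P (2, 0) (((3 : ℕ) : ℤ), 1) 2 R4 := by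
      have h1 : P (2, 0) (2, 1) 1 (fun p => p.1 = 2 ∧ (p.2 = 0 ∨ p.2 = 1)) :=
        ((P_up 2 0 (by norm_num)).cast (by norm_num) rfl).mono (by
          rintro ⟨a, b⟩ ⟨p1, p2⟩
          simp only at p1 p2 ⊢
          omega)
      have h2 : P (2, 1) (3, 1) 1 (fun p => p.2 = 1 ∧ 2 ≤ p.1 ∧ p.1 ≤ 3) :=
        ((P_right 2 1 1).cast (by norm_num) rfl).mono (by
          rintro ⟨a, b⟩ ⟨p1, p2, p3⟩
          simp only at p1 p2 p3 ⊢
          push_cast at p3
          omega)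
      refine ((h1.app h2 ?_).cast (by norm_num) rfl).mono ?_
      · rintro ⟨a, b⟩ ⟨p1, p2⟩ ⟨q1, q2, q3⟩
        simp only at p1 p2 q1 q2 q3
        ext <;> simp only <;> omega
      · rintro ⟨a, b⟩ (⟨p1, p2⟩ | ⟨p1, p2, p3⟩)
        · simp only [R4] at p1 p2 ⊢
          omega
        · simp only [R4] at p1 p2 p3 ⊢
          omega
    have hn : ∃ q : ℕ, n = 4 + 2 * q := ⟨(n - 4) / 2, by
      simp at hd
      omega⟩
    obtain ⟨q, hq⟩ := hn
    rcases Nat.even_or_odd' q with ⟨j, hj | hj⟩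
    · rcases Nat.eq_zero_or_pos j with h0 | h0
      · obtain ⟨S, hS⟩ := det_zero hG
        exact ⟨S, hS.cast rfl (by omega)⟩
      · obtain ⟨S, hS⟩ := det_A hG (j - 1)
        exact ⟨S, hS.cast rfl (by omega)⟩
    · obtain ⟨S, hS⟩ := det_D j
      exact ⟨S, hS.cast (by norm_num) (by omega)⟩

/-! ### The directions -/

/-- the three directions -/
noncomputable def ee (a : Fin 3) : ℂ := Complex.exp (2 * (Real.pi : ℂ) * Complex.I * ((a : ℕ) : ℂ) / 3)

lemma step_ee (i : ℕ) (a : Fin 3) : step i a = (-1 : ℂ) ^ i * ee a := rfl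

lemma ee0 : ee 0 = ⟨1, 0⟩ := by
  unfold ee
  rw [show 2 * (Real.pi : ℂ) * Complex.I * (((0 : Fin 3) : ℕ) : ℂ) / 3 = 0 by simp, Complex.exp_zero]
  rfl

lemma ee1 : ee 1 = ⟨-(1 / 2), Real.sqrt 3 / 2⟩ := by
  unfold ee
  rw [show 2 * (Real.pi : ℂ) * Complex.I * (((1 : Fin 3) : ℕ) : ℂ) / 3 = ((2 * (Real.pi / 3) : ℝ) : ℂ) * Complex.I by
    push_cast
    simp
    ring]
  rw [Complex.exp_mul_I]
  apply Complex.ext
  · simp only [Complex.add_re, Complex.mul_re, Complex.I_re, Complex.I_im]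
    rw [← Complex.ofReal_cos, ← Complex.ofReal_sin, Complex.ofReal_re, Complex.ofReal_im, Complex.ofReal_re,
      Real.cos_two_mul, Real.cos_pi_div_three]
    norm_num
  · simp only [Complex.add_im, Complex.mul_im, Complex.I_re, Complex.I_im]
    rw [← Complex.ofReal_cos, ← Complex.ofReal_sin, Complex.ofReal_re, Complex.ofReal_im, Complex.ofReal_im,
      Real.sin_two_mul, Real.cos_pi_div_three, Real.sin_pi_div_three]
    ring

lemma ee2 : ee 2 = ⟨-(1 / 2), -(Real.sqrt 3 / 2)⟩ := by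
  have h : ee 2 = ee 1 * ee 1 := by
    unfold ee
    rw [← Complex.exp_add]
    congr 1
    simp
    ring
  rw [h, ee1]
  have h3 : Real.sqrt 3 * Real.sqrt 3 = 3 := Real.mul_self_sqrt (by norm_num)
  apply Complex.ext
  · simp only [Complex.mul_re]
    nlinarith
  · simp only [Complex.mul_im]
    ring

/-- three different directions -/
def Dif (a b c : Fin 3) : Prop := a ≠ b ∧ b ≠ c ∧ a ≠ c

lemma ee_sum {a b c : Fin 3} (h : Dif a b c) : ee a + ee b + ee c = 0 := by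
  obtain ⟨h1, h2, h3⟩ := h
  have e : ∀ x y : ℂ, x.re = y.re → x.im = y.im → x = y := fun x y => Complex.ext
  fin_cases a <;> fin_cases b <;> fin_cases c <;> simp_all [ee0, ee1, ee2] <;> apply Complex.ext <;> simp <;> ring

lemma ee_r : ∃ r : ℝ, ee 1 = ⟨-(1 / 2), r / 2⟩ ∧ ee 2 = ⟨-(1 / 2), -(r / 2)⟩ ∧ r * r = 3 :=
  ⟨Real.sqrt 3, ee1, ee2, Real.mul_self_sqrt (by norm_num)⟩

lemma ee_nsq {a b c : Fin 3} (h : Dif a b c) (x w : ℝ) :
    ‖(x : ℂ) * (ee a - ee b) + (w : ℂ) * ee c‖ ^ 2 = 3 * x ^ 2 + w ^ 2 := by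
  obtain ⟨h1, h2, h3⟩ := h
  obtain ⟨r, r1, r2, hr⟩ := ee_r
  rw [← Complex.normSq_eq_norm_sq]
  fin_cases a <;> fin_cases b <;> fin_cases c <;> simp_all [ee0, Complex.normSq_apply] <;>
    first
    | linear_combination ((x + w) ^ 2 / 4) * hr
    | linear_combination ((x - w) ^ 2 / 4) * hr
    | linear_combination (x ^ 2) * hr

/-- the position of the vertex `(x, y)` in the frame `a`, `b`, `c` -/
noncomputable def J (a b c : Fin 3) (p : ℤ × ℤ) (σ : ℤ) : ℂ :=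
  (((p.1 : ℝ) / 2 : ℝ) : ℂ) * (ee a - ee b) + (((3 * (p.2 : ℝ) - (σ : ℝ)) / 2 : ℝ) : ℂ) * ee c

lemma J_inj {a b c : Fin 3} (h : Dif a b c) {p p' : ℤ × ℤ} {σ σ' : ℤ} (h0 : 0 ≤ σ) (h1 : σ ≤ 1) (h0' : 0 ≤ σ')
    (h1' : σ' ≤ 1) (he : J a b c p σ = J a b c p' σ') : p = p' := by
  have h2 : (((((p.1 : ℝ) - p'.1) / 2 : ℝ) : ℂ)) * (ee a - ee b) +
      ((((3 * (p.2 : ℝ) - σ) - (3 * (p'.2 : ℝ) - σ')) / 2 : ℝ) : ℂ) * ee c = 0 := by
    have h3 : J a b c p σ - J a b c p' σ' = 0 := sub_eq_zero.2 he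
    rw [← h3]
    unfold J
    push_cast
    ring
  have h4 := ee_nsq h (((p.1 : ℝ) - p'.1) / 2) (((3 * (p.2 : ℝ) - σ) - (3 * (p'.2 : ℝ) - σ')) / 2)
  rw [h2, norm_zero] at h4
  have g1 := sq_nonneg ((p.1 : ℝ) - p'.1)
  have g2 := sq_nonneg ((3 * (p.2 : ℝ) - σ) - (3 * (p'.2 : ℝ) - σ'))
  have h5 : (p.1 : ℝ) - p'.1 = 0 := by nlinarith
  have h6 : (3 * (p.2 : ℝ) - σ) - (3 * (p'.2 : ℝ) - σ') = 0 := by nlinarith
  have h7 : p.1 - p'.1 = 0 := by exact_mod_cast h5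
  have h8 : (3 * p.2 - σ) - (3 * p'.2 - σ') = 0 := by exact_mod_cast h6
  ext <;> omega

lemma J_word {a b c : Fin 3} (h : Dif a b c) {A B C σ : ℤ} (hs : A + B + C = σ) :
    J a b c (A - B, C) σ = (A : ℂ) * ee a + (B : ℂ) * ee b + (C : ℂ) * ee c := by
  have h1 : ee c = -(ee a + ee b) := by
    have := ee_sum h
    linear_combination this
  subst hs
  unfold J
  rw [h1]
  push_cast
  ring

/-- the letters of a path in the brick wall -/
theorem word_of_path {a b c : Fin 3} (h : Dif a b c) {n : ℕ} (f : ℕ → ℤ × ℤ) (f0 : f 0 = (0, 0))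
    (hA : ∀ i < n, Adj (f i) (f (i + 1))) :
    ∃ s : Fin n → Fin 3, ∀ k ≤ n, pos s k = J a b c (f k) ((k : ℤ) % 2) := by
  have hc : ee c = -(ee a + ee b) := by
    have := ee_sum h
    linear_combination this
  have hpar : ∀ i, i ≤ n → ((f i).1 + (f i).2) % 2 = (i : ℤ) % 2 := by
    intro i
    induction i with
    | zero =>
      intro _
      rw [f0]
      rfl
    | succ i ih =>
      intro hi
      have h1 := ih (by omega)
      have h2 := hA i (by omega)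
      unfold Adj at h2
      push_cast
      omega
  refine ⟨fun i => if (f (i + 1)).2 ≠ (f i).2 then c else
    if ((f (i + 1)).1 = (f i).1 + 1 ↔ (i : ℕ) % 2 = 0) then a else b, ?_⟩
  intro k
  induction k with
  | zero =>
    intro _
    have : pos (fun i : Fin n => if (f (i + 1)).2 ≠ (f i).2 then c else
        if ((f (i + 1)).1 = (f i).1 + 1 ↔ (i : ℕ) % 2 = 0) then a else b) 0 = 0 := by
      unfold pos
      apply Finset.sum_eq_zero
      intro i hi
      rw [Finset.mem_filter] at hi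
      exact absurd hi.2 (Nat.not_lt_zero _)
    rw [this, f0]
    unfold J
    simp
  | succ k ih =>
    intro hk
    rw [NTSF.pos_succ _ k (by omega), ih (by omega), step_ee]
    have hp := hpar k (by omega)
    have hA' := hA k (by omega)
    unfold Adj at hA'
    simp only
    rcases Nat.even_or_odd' k with ⟨m, hm | hm⟩
    · have e1 : (k : ℤ) % 2 = 0 := by omega
      have e2 : ((k + 1 : ℕ) : ℤ) % 2 = 1 := by omega
      have e3 : k % 2 = 0 := by omega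
      have e4 : (-1 : ℂ) ^ k = 1 := by
        rw [hm, pow_mul]
        norm_num
      rw [e1, e2, e4]
      rcases hA' with ⟨y1, x1 | x1⟩ | ⟨x1, ⟨y1, _⟩ | ⟨y1, y2⟩⟩
      · rw [if_neg (by rw [y1]; simp), if_pos (by simp [x1, e3])]
        unfold J
        rw [x1, y1, hc]
        push_cast
        ring
      · rw [if_neg (by rw [y1]; simp), if_neg (by
          intro h'
          have := h'.2 e3
          omega)]
        unfold J
        rw [x1, y1, hc]
        push_cast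
        ring
      · rw [if_pos (by omega)]
        unfold J
        rw [x1, y1, hc]
        push_cast
        ring
      · exfalso
        omega
    · have e1 : (k : ℤ) % 2 = 1 := by omega
      have e2 : ((k + 1 : ℕ) : ℤ) % 2 = 0 := by omega
      have e3 : ¬ k % 2 = 0 := by omega
      have e4 : (-1 : ℂ) ^ k = -1 := by
        rw [hm, pow_succ, pow_mul]
        norm_num
      rw [e1, e2, e4]
      rcases hA' with ⟨y1, x1 | x1⟩ | ⟨x1, ⟨y1, y2⟩ | ⟨y1, _⟩⟩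
      · rw [if_neg (by rw [y1]; simp), if_neg (by
          intro h'
          exact e3 (h'.1 x1))]
        unfold J
        rw [x1, y1, hc]
        push_cast
        ring
      · rw [if_neg (by rw [y1]; simp), if_pos (by
          constructor
          · intro h'
            omega
          · intro h'
            exact absurd h' e3)]
        unfold J
        rw [x1, y1, hc]
        push_cast
        ring
      · exfalso
        omega
      · rw [if_pos (by omega)]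
        unfold J
        rw [x1, y1, hc]
        push_cast
        ring

/-- the numbers of letters of a walk -/
lemma letters {n : ℕ} (s : Fin n → Fin 3) (k : ℕ) (hk : k ≤ n) :
    ∃ u v w : ℤ, pos s k = (u : ℂ) * ee 0 + (v : ℂ) * ee 1 + (w : ℂ) * ee 2 ∧ u + v + w = (k : ℤ) % 2 ∧
      |u| + |v| + |w| ≤ k := by
  induction k with
  | zero =>
    refine ⟨0, 0, 0, ?_, rfl, by simp⟩
    have : pos s 0 = 0 := by
      unfold pos
      apply Finset.sum_eq_zero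
      intro i hi
      rw [Finset.mem_filter] at hi
      exact absurd hi.2 (Nat.not_lt_zero _)
    rw [this]
    simp
  | succ k ih =>
    obtain ⟨u, v, w, h1, h2, h3⟩ := ih (by omega)
    rw [NTSF.pos_succ s k (by omega), h1, step_ee]
    have e4 : ∃ ε : ℤ, (-1 : ℂ) ^ k = (ε : ℂ) ∧ ε + (k : ℤ) % 2 = ((k + 1 : ℕ) : ℤ) % 2 ∧ |ε| ≤ 1 := by
      rcases Nat.even_or_odd' k with ⟨m, hm | hm⟩
      · refine ⟨1, ?_, by omega, by norm_num⟩
        rw [hm, pow_mul]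
        norm_num
      · refine ⟨-1, ?_, by omega, by norm_num⟩
        rw [hm, pow_succ, pow_mul]
        norm_num
    obtain ⟨ε, e1, e2, e3⟩ := e4
    rw [e1]
    have hab : ∀ x : ℤ, |x + ε| ≤ |x| + 1 := fun x => (abs_add_le x ε).trans (by linarith)
    generalize s ⟨k, by omega⟩ = t
    fin_cases t
    · refine ⟨u + ε, v, w, ?_, by omega, ?_⟩
      · simp only
        push_cast
        show _ + _ * ee 0 = _
        ring
      · have := hab u
        push_cast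
        linarith
    · refine ⟨u, v + ε, w, ?_, by omega, ?_⟩
      · simp only
        push_cast
        show _ + _ * ee 1 = _
        ring
      · have := hab v
        push_cast
        linarith
    · refine ⟨u, v, w + ε, ?_, by omega, ?_⟩
      · simp only
        push_cast
        show _ + _ * ee 2 = _
        ring
      · have := hab w
        push_cast
        linarith

/-- the self-avoiding walk in the frame `a`, `b`, `c` -/
lemma key {a b c : Fin 3} (h : Dif a b c) {A B C : ℤ} {n : ℕ} (hs : A + B + C = (n : ℤ) % 2)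
    (hd : |A| + |B| + |C| ≤ n)
    (hc : (1 ≤ A ∧ B ≤ -1 ∧ C ≤ 0 ∧ 3 ≤ A - B) ∨ (2 ≤ A ∧ B ≤ -1 ∧ 1 ≤ C) ∨ (A = 1 ∧ C = 1 ∧ B = -2)) :
    ∃ s ∈ saw n, pos s n = (A : ℂ) * ee a + (B : ℂ) * ee b + (C : ℂ) * ee c := by
  have hσ : 0 ≤ (n : ℤ) % 2 ∧ (n : ℤ) % 2 ≤ 1 := by omega
  have hA : |A| = A := abs_of_nonneg (by omega)
  have hB : |B| = -B := abs_of_nonpos (by omega)
  rw [hA, hB] at hd
  obtain ⟨S, f, f0, fn, fA, -, fI⟩ := exP (A - B) C n (by linarith) (by omega) (by omega) (by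
    rcases abs_cases C with ⟨e, _⟩ | ⟨e, _⟩ <;> rw [e] <;> omega)
  obtain ⟨s, hsw⟩ := word_of_path h f f0 fA
  refine ⟨s, ?_, ?_⟩
  · rw [saw, Finset.mem_filter]
    refine ⟨Finset.mem_univ _, ?_⟩
    intro j k hj hk he
    rw [hsw j hj, hsw k hk] at he
    exact fI j hj k hk (J_inj h (by omega) (by omega) (by omega) (by omega) he)
  · rw [hsw n le_rfl, fn]
    exact J_word h hs

/-- the norm of a point with given letters -/
lemma nsq_letters (u v w : ℤ) :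
    ‖(u : ℂ) * ee 0 + (v : ℂ) * ee 1 + (w : ℂ) * ee 2‖ ^ 2 =
      (u : ℝ) ^ 2 + (v : ℝ) ^ 2 + (w : ℝ) ^ 2 - u * v - v * w - u * w := by
  have h3 : Real.sqrt 3 * Real.sqrt 3 = 3 := Real.mul_self_sqrt (by norm_num)
  rw [← Complex.normSq_eq_norm_sq, ee0, ee1, ee2, Complex.normSq_apply]
  simp
  nlinarith

/-- **Existence of self-avoiding walks**: every point at distance more than two which is reached by a walk with `n`
steps is reached by a self-avoiding walk with `n` steps. -/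
theorem exists_saw (n : ℕ) (z : ℂ) (hz : 2 < ‖z‖) (h : ∃ s : Fin n → Fin 3, pos s n = z) :
    ∃ s ∈ saw n, pos s n = z := by
  obtain ⟨s, rfl⟩ := h
  obtain ⟨u, v, w, h1, h2, h3⟩ := letters s n le_rfl
  rw [h1] at hz ⊢
  have h4 : (4 : ℝ) < (u : ℝ) ^ 2 + (v : ℝ) ^ 2 + (w : ℝ) ^ 2 - u * v - v * w - u * w := by
    rw [← nsq_letters]
    nlinarith
  have h5 : (4 : ℤ) < u ^ 2 + v ^ 2 + w ^ 2 - u * v - v * w - u * w := by exact_mod_cast h4
  have hσ : 0 ≤ (n : ℤ) % 2 ∧ (n : ℤ) % 2 ≤ 1 := by omega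
  have d012 : Dif 0 1 2 := by unfold Dif; decide
  have d021 : Dif 0 2 1 := by unfold Dif; decide
  have d102 : Dif 1 0 2 := by unfold Dif; decide
  have d120 : Dif 1 2 0 := by unfold Dif; decide
  have d201 : Dif 2 0 1 := by unfold Dif; decide
  have d210 : Dif 2 1 0 := by unfold Dif; decide
  by_cases c1 : (1 ≤ u ∧ v ≤ -1 ∧ w ≤ 0 ∧ 3 ≤ u - v) ∨ (2 ≤ u ∧ v ≤ -1 ∧ 1 ≤ w) ∨ (u = 1 ∧ w = 1 ∧ v = -2)
  · obtain ⟨s, hs, he⟩ := key (n := n) d012 (by omega) (by omega) c1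
    exact ⟨s, hs, he.trans (by ring)⟩
  by_cases c2 : (1 ≤ u ∧ w ≤ -1 ∧ v ≤ 0 ∧ 3 ≤ u - w) ∨ (2 ≤ u ∧ w ≤ -1 ∧ 1 ≤ v) ∨ (u = 1 ∧ v = 1 ∧ w = -2)
  · obtain ⟨s, hs, he⟩ := key (n := n) d021 (by omega) (by omega) c2
    exact ⟨s, hs, he.trans (by ring)⟩
  by_cases c3 : (1 ≤ v ∧ u ≤ -1 ∧ w ≤ 0 ∧ 3 ≤ v - u) ∨ (2 ≤ v ∧ u ≤ -1 ∧ 1 ≤ w) ∨ (v = 1 ∧ w = 1 ∧ u = -2)
  · obtain ⟨s, hs, he⟩ := key (n := n) d102 (by omega) (by omega) c3
    exact ⟨s, hs, he.trans (by ring)⟩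
  by_cases c4 : (1 ≤ v ∧ w ≤ -1 ∧ u ≤ 0 ∧ 3 ≤ v - w) ∨ (2 ≤ v ∧ w ≤ -1 ∧ 1 ≤ u) ∨ (v = 1 ∧ u = 1 ∧ w = -2)
  · obtain ⟨s, hs, he⟩ := key (n := n) d120 (by omega) (by omega) c4
    exact ⟨s, hs, he.trans (by ring)⟩
  by_cases c5 : (1 ≤ w ∧ u ≤ -1 ∧ v ≤ 0 ∧ 3 ≤ w - u) ∨ (2 ≤ w ∧ u ≤ -1 ∧ 1 ≤ v) ∨ (w = 1 ∧ v = 1 ∧ u = -2)
  · obtain ⟨s, hs, he⟩ := key (n := n) d201 (by omega) (by omega) c5
    exact ⟨s, hs, he.trans (by ring)⟩
  by_cases c6 : (1 ≤ w ∧ v ≤ -1 ∧ u ≤ 0 ∧ 3 ≤ w - v) ∨ (2 ≤ w ∧ v ≤ -1 ∧ 1 ≤ u) ∨ (w = 1 ∧ u = 1 ∧ v = -2)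
  · obtain ⟨s, hs, he⟩ := key (n := n) d210 (by omega) (by omega) c6
    exact ⟨s, hs, he.trans (by ring)⟩
  exfalso
  have u2 : u ≤ 1 := by
    clear c3 c4 c5 c6 h5
    omega
  have v2 : v ≤ 1 := by
    clear c1 c2 c5 c6 h5
    omega
  have w2 : w ≤ 1 := by
    clear c1 c2 c3 c4 h5
    omega
  have u1 : -1 ≤ u := by
    clear c1 c2 c4 c5 c6 h5
    omega
  have v1 : -1 ≤ v := by
    clear c2 c3 c4 c5 c6 h5
    omega
  have w1 : -1 ≤ w := by
    clear c1 c3 c4 c5 c6 h5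
    omega
  clear c1 c2 c3 c4 c5 c6
  interval_cases u <;> interval_cases v <;> interval_cases w <;> omega

/-- in the form in which the lower bound of the end uses it -/
theorem exists_saw34 (n : ℕ) (z : ℂ) (hz : (n : ℝ) ^ (3 / 4 : ℝ) ≤ ‖z‖) (h : ∃ s : Fin n → Fin 3, pos s n = z) :
    ∃ s ∈ saw n, pos s n = z := by
  rcases Nat.lt_or_ge n 3 with hn | hn
  · obtain ⟨s, rfl⟩ := h
    refine ⟨s, ?_, rfl⟩
    rw [saw, Finset.mem_filter]
    refine ⟨Finset.mem_univ _, ?_⟩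
    have n0 : pos s 0 = 0 := by
      unfold pos
      apply Finset.sum_eq_zero
      intro i hi
      rw [Finset.mem_filter] at hi
      exact absurd hi.2 (Nat.not_lt_zero _)
    have hne : ∀ j (hj : j < n), pos s j ≠ pos s (j + 1) := by
      intro j hj he
      rw [NTSF.pos_succ s j hj, step_ee] at he
      have h1 : (-1 : ℂ) ^ j * ee (s ⟨j, hj⟩) = 0 := by
        have := he
        linear_combination -this
      rcases mul_eq_zero.1 h1 with h2 | h2
      · exact absurd h2 (pow_ne_zero _ (by norm_num))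
      · exact absurd h2 (Complex.exp_ne_zero _)
    have h02 : n = 2 → pos s 0 ≠ pos s 2 := by
      intro hn2 he
      have h1 : (0 : ℝ) < (n : ℝ) ^ (3 / 4 : ℝ) := Real.rpow_pos_of_pos (by rw [hn2]; norm_num) _
      have h2 : pos s n = 0 := by
        subst hn2
        rw [← he, n0]
      rw [h2, norm_zero] at hz
      linarith
    intro j k hj hk he
    by_contra hjk
    have h3 : n = 0 ∨ n = 1 ∨ n = 2 := by omega
    rcases h3 with h3 | h3 | h3
    · omega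
    · have : (j = 0 ∧ k = 1) ∨ (j = 1 ∧ k = 0) := by omega
      rcases this with ⟨rfl, rfl⟩ | ⟨rfl, rfl⟩
      · exact hne 0 (by omega) he
      · exact hne 0 (by omega) he.symm
    · have : (j = 0 ∧ k = 1) ∨ (j = 1 ∧ k = 0) ∨ (j = 1 ∧ k = 2) ∨ (j = 2 ∧ k = 1) ∨ (j = 0 ∧ k = 2) ∨ (j = 2 ∧ k = 0) := by
        omega
      rcases this with ⟨rfl, rfl⟩ | ⟨rfl, rfl⟩ | ⟨rfl, rfl⟩ | ⟨rfl, rfl⟩ | ⟨rfl, rfl⟩ | ⟨rfl, rfl⟩
      · exact hne 0 (by omega) he
      · exact hne 0 (by omega) he.symm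
      · exact hne 1 (by omega) he
      · exact hne 1 (by omega) he.symm
      · exact h02 h3 he
      · exact h02 h3 he.symm
  · apply exists_saw n z _ h
    refine lt_of_lt_of_le ?_ hz
    have h3 : (3 : ℝ) ^ (3 / 4 : ℝ) ≤ (n : ℝ) ^ (3 / 4 : ℝ) :=
      Real.rpow_le_rpow (by norm_num) (by exact_mod_cast hn) (by norm_num)
    refine lt_of_lt_of_le ?_ h3
    by_contra h4
    rw [not_lt] at h4
    have h5 : ((3 : ℝ) ^ (3 / 4 : ℝ)) ^ 4 ≤ 2 ^ 4 := pow_le_pow_left₀ (by positivity) h4 4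
    rw [← Real.rpow_natCast, ← Real.rpow_mul (by norm_num)] at h5
    norm_num at h5

end NTSZ.ExS
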