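import Pool.Agent.JNT.ChainD
import Pool.Agent.EN.OutFun

/-!
JNT: monotone chains with a marked run in relation form, the outer piece in a class: definitions (relation form of EN/OutSum).
-/

set_option autoImplicit false

namespace HexObs

namespace JNT

open Finset TS SDN SDN.CN NTm NTW NTA EN

open scoped ENNReal

variable {ι ι' : Type}

/-- a run in R beginning with g, a right part with the property P -/
def MidPL (R : Set (List (List Bool))) (P : List (List Bool) → List Bool → (ι' → ℝ≥0∞) → Prop)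
    (g : List Bool) (gs : List (List Bool)) (e : ι' → ℝ≥0∞) : Prop :=
  ∃ ms rs, gs = ms ++ rs ∧ (g :: ms) ∈ R ∧ P rs ((g :: ms).getLastD []) e

/-- windows number < i in decreasing order, a run in R, a right part with the property P -/
def DecPL (W : ℕ → Set (List Bool)) (R : Set (List (List Bool)))
    (P : List (List Bool) → List Bool → (ι' → ℝ≥0∞) → Prop) : List (List Bool) → ℕ → (ι' → ℝ≥0∞) → Prop
  | [], _, _ => False
  | g :: gs, i, e => MidPL R P g gs e ∨ ∃ i', i' < i ∧ g ∈ W i' ∧ DecPL W R P gs (i' + 1) e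

/-- the whole chain, the run is at its beginning -/
def TotAL (R : Set (List (List Bool))) (P : List (List Bool) → List Bool → (ι' → ℝ≥0∞) → Prop)
    (Ψ : ι → List Bool → ℝ≥0∞) : List (List Bool) → (ι → ℝ≥0∞) → (ι' → ℝ≥0∞) → Prop
  | [], _, _ => False
  | g :: gs, a, e => (∀ c, a c ≤ Ψ c (rev g)) ∧ MidPL R P g gs e

/-- the whole chain, the run is not at its beginning -/
def TotBL (W : ℕ → Set (List Bool)) (n : ℕ) (R : Set (List (List Bool)))
    (P : List (List Bool) → List Bool → (ι' → ℝ≥0∞) → Prop) (A : Set (List Bool)) (Ψ : ℕ → ι → List Bool → ℝ≥0∞) :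
    List (List Bool) → (ι → ℝ≥0∞) → (ι' → ℝ≥0∞) → Prop
  | [], _, _ => False
  | g :: gs, a, e => ∃ i, i < n ∧ g ∈ W i ∧ g ∈ A ∧ (∀ c, a c ≤ Ψ i c (rev g)) ∧ DecPL W R P gs (i + 1) e

/-- F bounds the right parts with the property P behind a leaf of height at least D -/
def RBL (D : ℕ) (P : List (List Bool) → List Bool → (ι' → ℝ≥0∞) → Prop)
    (F : List (List Bool) × ι' → List Bool → ℝ≥0∞) : Prop :=
  ∀ (g : List Bool) (rs : List (List Bool)) (e : ι' → ℝ≥0∞) (b : ι'), g ∈ HB D → (g :: rs).IsChain LFold →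
    P rs g e → SDN.wl rs * e b ≤ F (rs, b) g

/-- at most M pieces, any ends -/
def PIL (W : ℕ → Set (List Bool)) (n M : ℕ) (Φ : ℕ → ι' → List Bool → ℝ≥0∞) (rs : List (List Bool)) (g : List Bool)
    (e : ι' → ℝ≥0∞) : Prop := rs.length ≤ M ∧ IncL W n Φ rs 0 g e

/-- at least one piece, the last one in A -/
def PSL (W : ℕ → Set (List Bool)) (n M : ℕ) (A : Set (List Bool)) (Φ : ℕ → ι' → List Bool → ℝ≥0∞)
    (rs : List (List Bool)) (g : List Bool) (e : ι' → ℝ≥0∞) : Prop :=
  rs ≠ [] ∧ rs.getLastD [] ∈ A ∧ rs.length ≤ M ∧ IncL W n Φ rs 0 g e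

open Classical in
/-- the functional restricted to A -/
noncomputable def rsL (A : Set (List Bool)) (Φ : ℕ → ι' → List Bool → ℝ≥0∞) (i : ℕ) (c : ι') (g : List Bool) : ℝ≥0∞ :=
  if g ∈ A then Φ i c g else 0

/-- the right continuations by at least one piece as a function of one index -/
noncomputable def Rp2 (W : ℕ → Set (List Bool)) (kp : ℕ → ℕ) (n : ℕ) (Φ : ℕ → ι' → List Bool → ℝ≥0∞) (M i : ℕ)
    (p : List (List Bool) × ι') (t : List Bool) : ℝ≥0∞ := Rl W kp n Φ M i p.1 p.2 t

end JNT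

end HexObs
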