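import Pool.Agent.JNT.ChainF
import Pool.Agent.JNT.OutD
import Pool.Agent.EN.OutFun

/-!
JNT: the norms of the functionals of the monotone chains with a marked run, the outer piece in a small class, relation form.
-/

set_option autoImplicit false

namespace HexObs

namespace JNT

open Finset TS SDN SDN.CN NTm NTW NTA EN EN.OU

open scoped ENNReal

lemma vA_rsL {ι' : Type} {D : ℕ} {W A : Set (List Bool)} (Φ : ℕ → ι' → List Bool → ℝ≥0∞) (i : ℕ) :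
    vA D W (fun t => ∑' b, rsL A Φ i b t) = vA D (W ∩ A) (fun t => ∑' b, Φ i b t) := by
  classical
  funext t
  unfold vA
  rw [Rec8.sw_ind, Rec8.sw_ind]
  refine tsum_congr fun g => ?_
  by_cases h : g ∈ A
  · have h1 : (∑' b, rsL A Φ i b g) = ∑' b, Φ i b g := by
      unfold rsL
      simp only [if_pos h]
    rw [h1]
    by_cases h2 : g ∈ W ∧ RT D LFold t g
    · rw [if_pos (show g ∈ {g | g ∈ W ∧ RT D LFold t g} from h2),
        if_pos (show g ∈ {g | g ∈ W ∩ A ∧ RT D LFold t g} from ⟨⟨h2.1, h⟩, h2.2⟩)]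
    · rw [if_neg (show g ∉ {g | g ∈ W ∧ RT D LFold t g} from h2),
        if_neg (show g ∉ {g | g ∈ W ∩ A ∧ RT D LFold t g} from fun h3 => h2 ⟨h3.1.1, h3.2⟩)]
  · have h1 : (∑' b, rsL A Φ i b g) = 0 := by
      unfold rsL
      simp only [if_neg h, tsum_zero]
    rw [h1, mul_zero, if_neg (show g ∉ {g | g ∈ W ∩ A ∧ RT D LFold t g} from fun h3 => h h3.1.2)]
    split_ifs <;> rfl

lemma herD_Gs (kc : ℕ) (R : Set (List (List Bool))) {ι ι' : Type} (F : ι' → List Bool → ℝ≥0∞)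
    (C : ι → ι' → List (List Bool) → Prop) : HerD (2 ^ (kc + 4)) (Gs kc R F C) :=
  herD_iSup fun _ => NTm.herD_vA Nat.one_le_two_pow _ _

lemma herD_Rp2 {ι' : Type} {kc J n : ℕ} {W : ℕ → Set (List Bool)} {kp : ℕ → ℕ} (hW : Wnd kc J n W kp)
    (Φ : ℕ → ι' → List Bool → ℝ≥0∞) (M : ℕ) (p : List (List Bool) × ι') : HerD (2 ^ (kc + 4)) (Rp2 W kp n Φ M 0 p) := by
  have := herD_Rl W kp n Φ M 0 p.1 p.2
  rwa [hW.zero] at this

open QF in
/-- **the norms, the last piece in S / the first piece in S** -/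
theorem fun_boundOL {Λ : Type} (lab : List Bool → Λ) {Dm : ℕ → ℝ≥0∞ → (List Bool → ℝ≥0∞) → Prop} (hDm : DmP Dm) (hA : SsA) (h3 : Ss3) (hD : SsD) :
    ∃ Q : ℝ, 1 ≤ Q ∧ ∀ {ι ι' : Type} (kc J n : ℕ) (W : ℕ → Set (List Bool)) (kp : ℕ → ℕ) (R : Set (List (List Bool)))
      (S : Set (List Bool)) (δ ε x : ℝ) (x0 : ℝ≥0∞) (P : ℕ → ι → List Bool → ℝ≥0∞) (Φ : ℕ → ι' → List Bool → ℝ≥0∞)
      (T : ι → ι' → List (List Bool) → Prop), RigR lab T → Wnd kc J n W kp → 1 ≤ n → 0 ≤ δ →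
      0 ≤ ε → 0 ≤ x → SmRL lab Dm kc R δ → (∀ i, i < n → Dom (kp i) (ENNReal.ofReal x) (fun t => ∑' a, P i a t)) →
      (∀ i, i < n → Dom (kp i) (ENNReal.ofReal x) (fun t => ∑' b, Φ i b t)) →
      x0 ≤ ENNReal.ofReal x → Dm kc x0 (fun t => ∑' a, P 0 a t) → Dm kc x0 (fun t => ∑' b, Φ 0 b t) →
      (∀ a, Flp (2 ^ (kc + 4)) (P 0 a)) → (∀ a, HerD (2 ^ (kc + 4)) (P 0 a)) → (∀ b, HerD (2 ^ (kc + 4)) (Φ 0 b)) →
      (∀ i i', i ≤ i' → i' < n → xT (2 ^ (kp i + 4)) (kp i) (vA (2 ^ (kp i + 4)) (W i' ∩ S) (fun t => ∑' b, Φ i' b t)) ≤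
        ENNReal.ofReal (ε * x * (Ub (kc + J) / Ub (kp i)))) →
      (∀ i' i, i' ≤ i → i < n → ∀ F : List Bool → ℝ≥0∞, HerD (2 ^ (kp i' + 4)) F →
        Rec8.sw (W i ∩ S) (fun z => (∑' a, P i a (rev z)) * F z) ≤
          ENNReal.ofReal (ε * x * Ub (kc + J)) * xT (2 ^ (kp i' + 4)) (kp i') F) → ∀ M : ℕ,
    (Rec8.sw (HB (2 ^ (kc + 4))) (fun g => ∑' a, P 0 a (rev g) * runL R (Rp2 W kp n (rsL S Φ) M 0) (C0 T) a g) +
      ∑ i ∈ range n, Rec8.sw (W i ∩ Set.univ) (fun g => (∑' a, P i a (rev g)) *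
        FL W kp (Gs kc R (Rp2 W kp n (rsL S Φ) M 0) (C1 T)) M i g) ≤
      ENNReal.ofReal (Q ^ (n + J + 1) * (δ * ε) * Ub (kc + J) * x ^ 2)) ∧
    ∑ i ∈ range n, Rec8.sw (W i ∩ S) (fun g => (∑' a, P i a (rev g)) *
        FL W kp (Gs kc R (Gl W kp n Φ M 0) (C1 T)) M i g) ≤
      ENNReal.ofReal (Q ^ (n + J + 1) * (δ * ε) * Ub (kc + J) * x ^ 2) := by
  obtain ⟨C, δ0, hInp⟩ := inp_exists
  obtain ⟨K, hK1, hK⟩ := two_scale
  obtain ⟨K2, hK2, hN⟩ := nextD_of hInp hA h3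
  obtain ⟨K3, hK3, hT⟩ := two2_of hA hD
  obtain ⟨K4, hK4, hX⟩ := Dom_xT hInp
  obtain ⟨q, hq⟩ : ∃ q : ℝ, q = 128 * K + 1 := ⟨_, rfl⟩
  have hq1 : 1 ≤ q := by linarith
  have hq2 : 2 ≤ q := by linarith
  have hq0 : 0 ≤ q := by linarith
  obtain ⟨A, hAdef⟩ : ∃ A : ℝ, A = 65 * (K2 * (K3 * K4)) * 2 := ⟨_, rfl⟩
  have hKKK : 1 ≤ K2 * (K3 * K4) := one_le_mul_of_one_le_of_one_le hK2 (one_le_mul_of_one_le_of_one_le hK3 hK4)
  have hA1 : 1 ≤ A := by linarith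
  refine ⟨A * q ^ 3, one_le_mul_of_one_le_of_one_le hA1 (one_le_pow₀ hq1), ?_⟩
  intro ι ι' kc J n W kp R S δ ε x x0 P Φ T hT' hW hn hδ hε hx hS hP hΦ hx0 hP0 hΦ0 hflp hPh hΦh hRS hLS M
  have hK20 : 0 ≤ K2 := by linarith
  have hK30 : 0 ≤ K3 := by linarith
  have hK40 : 0 ≤ K4 := by linarith
  have hU := Ub_pos kc
  have hUL := Ub_pos (kc + J)
  have hUJ : Ub (kc + J) ≤ 2 ^ J * Ub kc := UU_ratio_up kc J
  have hn0 : (0 : ℝ) ≤ n := Nat.cast_nonneg n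
  have hn1 : (1 : ℝ) ≤ n := by exact_mod_cast hn
  obtain ⟨r, hr⟩ : ∃ r, r = Ub (kc + J) / Ub kc := ⟨_, rfl⟩
  have hr1 : 1 ≤ r := by
    rw [hr, le_div_iff₀ hU, one_mul]
    exact Ub_mono (by omega)
  have hr0 : 0 ≤ r := by linarith
  have hrJ : r ≤ 2 ^ J := by
    rw [hr, div_le_iff₀ hU]
    exact hUJ
  have hqn : 1 ≤ q ^ n := one_le_pow₀ hq1
  have hqn2 : 1 ≤ q ^ (n + 2) := one_le_pow₀ hq1
  -- the numbers
  have h6 : (n : ℝ) ≤ q ^ n := by
    have a1 : n < 2 ^ n := Nat.lt_two_pow_self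
    have a2 : (n : ℝ) ≤ 2 ^ n := by exact_mod_cast a1.le
    exact a2.trans (pow_le_pow_left₀ (by norm_num) hq2 n)
  have h7 : r ≤ q ^ J := hrJ.trans (pow_le_pow_left₀ (by norm_num) hq2 J)
  have h8 : (n : ℝ) * r * q ^ n * q ^ (n + 2) ≤ (q ^ 3) ^ (n + J + 1) := by
    calc (n : ℝ) * r * q ^ n * q ^ (n + 2) ≤ q ^ n * q ^ J * q ^ n * q ^ (n + 2) := by gcongr
      _ = q ^ (n + J + n + (n + 2)) := by ring
      _ ≤ q ^ (3 * (n + J + 1)) := pow_le_pow_right₀ hq1 (by omega)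
      _ = _ := by rw [pow_mul]
  have h9 : A ≤ A ^ (n + J + 1) := by
    calc A = A ^ 1 := (pow_one _).symm
      _ ≤ _ := pow_le_pow_right₀ hA1 (by omega)
  have hfin : A * (n * r * q ^ n * q ^ (n + 2)) * (δ * ε * Ub (kc + J) * x ^ 2) ≤
      (A * q ^ 3) ^ (n + J + 1) * (δ * ε) * Ub (kc + J) * x ^ 2 := by
    calc A * (n * r * q ^ n * q ^ (n + 2)) * (δ * ε * Ub (kc + J) * x ^ 2)
        ≤ A ^ (n + J + 1) * (q ^ 3) ^ (n + J + 1) * (δ * ε * Ub (kc + J) * x ^ 2) := by gcongr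
      _ = (A * q ^ 3) ^ (n + J + 1) * (δ * ε) * Ub (kc + J) * x ^ 2 := by
          rw [← mul_pow]
          ring
  have hUU : Ub kc ≤ Ub (kc + J) := Ub_mono (by omega)
  have hK34 : 1 ≤ K3 * K4 := one_le_mul_of_one_le_of_one_le hK3 hK4
  have hnrq : 1 ≤ (n : ℝ) * r * q ^ n :=
    one_le_mul_of_one_le_of_one_le (one_le_mul_of_one_le_of_one_le hn1 hr1) hqn
  constructor
  · -- the last piece in S
    obtain ⟨B, hB⟩ : ∃ B : ℝ, B = 2 * n * (ε * x) * r * q ^ n := ⟨_, rfl⟩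
    have hB0 : 0 ≤ B := by rw [hB]; positivity
    have htR : (fun t => ∑' p, Rp2 W kp n (rsL S Φ) M 0 p t) = Rx W kp n (fun i t => ∑' b, rsL S Φ i b t) M 0 := by
      funext t
      exact tot_Rl W kp n (rsL S Φ) M 0 t
    have hRx : xT (2 ^ (kc + 4)) kc (fun t => ∑' p, Rp2 W kp n (rsL S Φ) M 0 p t) ≤ ENNReal.ofReal B := by
      rw [htR]
      have h1 := rightO (Q := q) (Φ := fun i t => ∑' b, rsL S Φ i b t) hK1 (by linarith) hK hW
        (show 0 ≤ ε * x by positivity) (fun i i' h1 h2 => by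
          rw [vA_rsL]
          exact hRS i i' h1 h2) M 0 (by rw [hW.zero]; omega)
      rw [hW.zero, Nat.sub_zero, ← hr, ← hB] at h1
      exact h1
    have hRg : ∀ p, HerD (2 ^ (kc + 4)) (Rp2 W kp n (rsL S Φ) M 0 p) := herD_Rp2 hW (rsL S Φ) M
    have hRD : Dm kc (xT (2 ^ (kc + 4)) kc (fun t => ∑' p, Rp2 W kp n (rsL S Φ) M 0 p t))
        (fun t => ∑' p, Rp2 W kp n (rsL S Φ) M 0 p t) := hDm.dm kc _ (herD_ts hRg)
    obtain ⟨g, hg⟩ : ∃ g : ℝ, g = δ * B := ⟨_, rfl⟩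
    have hg0 : 0 ≤ g := by
      rw [hg]
      positivity
    have hG : xT (2 ^ (kc + 4)) kc (Gs kc R (Rp2 W kp n (rsL S Φ) M 0) (C1 T)) ≤ ENNReal.ofReal g := by
      refine ((hS.near _ _ _ (rig_C1 hT') hRg hRD).trans (mul_le_mul_right hRx _)).trans (le_of_eq ?_)
      rw [← ENNReal.ofReal_mul hδ, hg]
    have h1 : Rec8.sw (HB (2 ^ (kc + 4))) (fun g => ∑' a, P 0 a (rev g) *
        runL R (Rp2 W kp n (rsL S Φ) M 0) (C0 T) a g) ≤ ENNReal.ofReal (Ub kc * x * g) := by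
      refine ((hS.free _ _ _ _ _ (rig_C0 hT') hPh hflp hRg hP0 hRD).trans
        (mul_le_mul_right (mul_le_mul' hx0 hRx) _)).trans (le_of_eq ?_)
      rw [← ENNReal.ofReal_mul hx, ← ENNReal.ofReal_mul (by positivity), hg]
      congr 1
      ring
    have hpair : ∀ i' i, i' ≤ i → i < n → ∀ F : List Bool → ℝ≥0∞, HerD (2 ^ (kp i' + 4)) F →
        Rec8.sw (W i ∩ Set.univ) (fun z => (∑' a, P i a (rev z)) * F z) ≤
          ENNReal.ofReal (32 * (K3 * K4) * x * Ub (kc + J)) * xT (2 ^ (kp i' + 4)) (kp i') F := by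
      intro i' i hi' hi F hF
      have hk1 : kp i' ≤ kp i := hW.mono i' i hi'
      have e0 : 2 ^ (kp i' + 4) ≤ 2 ^ (kp i + 4) := Nat.pow_le_pow_right (by norm_num) (by omega)
      have e2 : 2 ^ (kp i + 4) ≤ 2 ^ (kp i + 5) := Nat.pow_le_pow_right (by norm_num) (by omega)
      refine (Rec8.sw_mono (Set.inter_subset_left.trans (hW.sub i hi)) fun _ _ => le_rfl).trans
        ((hT (kp i) (kp i') _ _ _ _ (fun t => ∑' a, P i a t) F (hP i hi)
        (hX (2 ^ (kp i' + 4)) (kp i') (kp i') F hF.her le_rfl le_rfl) le_rfl e0 e2).trans ?_)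
      have hUp := Num2Aux.UU_pos (2 ^ (kp i + 5))
      calc ENNReal.ofReal (K3 * UU (2 ^ (kp i + 5))) * (ENNReal.ofReal x *
            (ENNReal.ofReal K4 * xT (2 ^ (kp i' + 4)) (kp i') F)) =
            ENNReal.ofReal (K3 * UU (2 ^ (kp i + 5)) * x * K4) * xT (2 ^ (kp i' + 4)) (kp i') F := by
            have e5 : ENNReal.ofReal (K3 * UU (2 ^ (kp i + 5)) * x * K4) = ENNReal.ofReal (K3 * UU (2 ^ (kp i + 5))) *
                (ENNReal.ofReal x * ENNReal.ofReal K4) := by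
              rw [← ENNReal.ofReal_mul hx, ← ENNReal.ofReal_mul (by positivity)]
              congr 1
              ring
            rw [e5]
            ring
        _ ≤ _ := by
            refine mul_le_mul_left (ENNReal.ofReal_le_ofReal ?_) _
            have h3 : UU (2 ^ (kp i + 5)) ≤ 2 ^ 5 * Ub (kp i) := UU_ratio_up (kp i) 5
            have h4 : Ub (kp i) ≤ Ub (kc + J) := Ub_mono (hW.top i hi)
            calc K3 * UU (2 ^ (kp i + 5)) * x * K4 ≤ K3 * (2 ^ 5 * Ub (kc + J)) * x * K4 := by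
                  gcongr
                  linarith
              _ = _ := by ring
    have h2 := leftO (Ψ := fun i t => ∑' a, P i a t) hK1 (le_of_eq hq.symm) hq2 hg0
      (show 0 ≤ 32 * (K3 * K4) * x by positivity) hK hW
      (herD_Gs kc R (Rp2 W kp n (rsL S Φ) M 0) (C1 T)) hG hpair M
    refine (add_le_add h1 h2).trans ?_
    rw [← ENNReal.ofReal_add (by positivity) (by positivity)]
    apply ENNReal.ofReal_le_ofReal
    refine le_trans ?_ hfin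
    have hg2 : g = 2 * (n * r * q ^ n) * (δ * ε * x) := by
      rw [hg, hB]
      ring
    have a1 : Ub kc * x * g ≤ (K3 * K4) * Ub (kc + J) * x * g * q ^ (n + 2) := by
      have b1 : Ub kc ≤ (K3 * K4) * Ub (kc + J) * q ^ (n + 2) := by
        calc Ub kc ≤ Ub (kc + J) := hUU
          _ = 1 * Ub (kc + J) * 1 := by ring
          _ ≤ (K3 * K4) * Ub (kc + J) * q ^ (n + 2) := by gcongr
      calc Ub kc * x * g ≤ ((K3 * K4) * Ub (kc + J) * q ^ (n + 2)) * x * g := by gcongr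
        _ = _ := by ring
    calc Ub kc * x * g + 32 * (K3 * K4) * x * Ub (kc + J) * g * q ^ (n + 2)
        ≤ (K3 * K4) * Ub (kc + J) * x * g * q ^ (n + 2) + 32 * (K3 * K4) * x * Ub (kc + J) * g * q ^ (n + 2) := by
          linarith
      _ = 33 * (1 * (K3 * K4)) * Ub (kc + J) * x * g * q ^ (n + 2) := by ring
      _ ≤ 65 * (K2 * (K3 * K4)) * Ub (kc + J) * x * g * q ^ (n + 2) := by gcongr; norm_num
      _ = A * (n * r * q ^ n * q ^ (n + 2)) * (δ * ε * Ub (kc + J) * x ^ 2) := by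
          rw [hg2, hAdef]
          ring
  · -- the first piece in S
    obtain ⟨B, hB⟩ : ∃ B : ℝ, B = 64 * K2 * n * x * r * q ^ n := ⟨_, rfl⟩
    have hB0 : 0 ≤ B := by rw [hB]; positivity
    obtain ⟨F1, hF1⟩ : ∃ F1 : List (List Bool) × ι' → List Bool → ℝ≥0∞, F1 = fun p t => nilW p.1 (Φ 0 p.2 t) := ⟨_, rfl⟩
    have hGl : Gl W kp n Φ M 0 = fun p t => F1 p t + Rp2 W kp n Φ M 0 p t := by
      rw [hF1]
      rfl
    have ht1 : (fun t => ∑' p, F1 p t) = fun t => ∑' b, Φ 0 b t := by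
      funext t
      rw [hF1, ENNReal.tsum_prod', ENNReal.tsum_comm]
      exact tsum_congr fun b => tsum_nilW (α := List Bool) (Φ 0 b t)
    have ht2 : (fun t => ∑' p, Rp2 W kp n Φ M 0 p t) = Rx W kp n (fun i t => ∑' b, Φ i b t) M 0 := by
      funext t
      exact tot_Rl W kp n Φ M 0 t
    have hRx : xT (2 ^ (kc + 4)) kc (fun t => ∑' p, Rp2 W kp n Φ M 0 p t) ≤ ENNReal.ofReal B := by
      rw [ht2]
      have h1 := rightX (Q := q) hK1 (by linarith) hK hK2 hN hW hx hΦ M 0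
        (by rw [hW.zero]; omega)
      rw [hW.zero, Nat.sub_zero, ← hr, ← hB] at h1
      exact h1
    have hR1 : ∀ p, HerD (2 ^ (kc + 4)) (F1 p) := by
      intro p
      rw [hF1]
      exact herD_nilW (hΦh p.2) p.1
    have hR2 : ∀ p, HerD (2 ^ (kc + 4)) (Rp2 W kp n Φ M 0 p) := herD_Rp2 hW Φ M
    have hD1 : Dm kc x0 (fun t => ∑' p, F1 p t) := by
      rw [ht1]
      exact hΦ0
    have hRD : Dm kc (xT (2 ^ (kc + 4)) kc (fun t => ∑' p, Rp2 W kp n Φ M 0 p t)) (fun t => ∑' p, Rp2 W kp n Φ M 0 p t) :=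
      hDm.dm kc _ (herD_ts hR2)
    obtain ⟨g, hg⟩ : ∃ g : ℝ, g = δ * (x + B) := ⟨_, rfl⟩
    have hg0 : 0 ≤ g := by
      rw [hg]
      positivity
    have hG : xT (2 ^ (kc + 4)) kc (Gs kc R (Gl W kp n Φ M 0) (C1 T)) ≤ ENNReal.ofReal g := by
      rw [hGl]
      refine (xT_mono fun t => Gs_add kc R F1 (Rp2 W kp n Φ M 0) (C1 T) t).trans ((Ch.xT_add _ _ _ _).trans ((add_le_add
        ((hS.near _ _ _ (rig_C1 hT') hR1 hD1).trans (mul_le_mul_right hx0 _))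
        ((hS.near _ _ _ (rig_C1 hT') hR2 hRD).trans (mul_le_mul_right hRx _))).trans (le_of_eq ?_)))
      rw [← ENNReal.ofReal_mul hδ, ← ENNReal.ofReal_mul hδ, ← ENNReal.ofReal_add (by positivity) (by positivity), hg]
      congr 1
      ring
    have h2 := leftO (Ψ := fun i t => ∑' a, P i a t) hK1 (le_of_eq hq.symm) hq2 hg0 (show 0 ≤ ε * x by positivity) hK hW
      (herD_Gs kc R (Gl W kp n Φ M 0) (C1 T)) hG hLS M
    refine h2.trans (ENNReal.ofReal_le_ofReal ?_)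
    refine le_trans ?_ hfin
    have h5 : g ≤ 65 * K2 * (δ * x) * (n * r * q ^ n) := by
      have a2 : δ * x ≤ K2 * (δ * x) * (n * r * q ^ n) := by
        have b1 : 1 ≤ K2 * (n * r * q ^ n) := one_le_mul_of_one_le_of_one_le hK2 hnrq
        calc δ * x = (δ * x) * 1 := (mul_one _).symm
          _ ≤ (δ * x) * (K2 * (n * r * q ^ n)) := mul_le_mul_of_nonneg_left b1 (by positivity)
          _ = _ := by ring
      rw [hg, hB]
      calc δ * (x + 64 * K2 * n * x * r * q ^ n) = δ * x + 64 * (K2 * (δ * x) * (n * r * q ^ n)) := by ring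
        _ ≤ K2 * (δ * x) * (n * r * q ^ n) + 64 * (K2 * (δ * x) * (n * r * q ^ n)) := by linarith
        _ = _ := by ring
    calc ε * x * Ub (kc + J) * g * q ^ (n + 2)
        ≤ ε * x * Ub (kc + J) * (65 * K2 * (δ * x) * (n * r * q ^ n)) * q ^ (n + 2) := by gcongr
      _ = 65 * (K2 * 1) * 1 * (n * r * q ^ n * q ^ (n + 2)) * (δ * ε * Ub (kc + J) * x ^ 2) := by ring
      _ ≤ 65 * (K2 * (K3 * K4)) * 2 * (n * r * q ^ n * q ^ (n + 2)) * (δ * ε * Ub (kc + J) * x ^ 2) := by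
          gcongr
          norm_num
      _ = A * (n * r * q ^ n * q ^ (n + 2)) * (δ * ε * Ub (kc + J) * x ^ 2) := by rw [hAdef]

end JNT

end HexObs
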