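import Pool.Agent.JNT.ChainD

/-!
JNT: the sum over the monotone chains with a marked run, in relation form.
-/

set_option autoImplicit false

namespace HexObs

namespace JNT

open Finset TS SDN SDN.CN NTm NTW NTA EN

open scoped ENNReal

variable {ι ι' : Type}

section pieces

variable {kc J n : ℕ} {W : ℕ → Set (List Bool)} {kp : ℕ → ℕ} {Φ : ℕ → ι' → List Bool → ℝ≥0∞} {R : Set (List (List Bool))}

/-- right chains behind the leaf g: one term -/
lemma TR_leL (hW : Wnd kc J n W kp) (M : ℕ) : ∀ (i : ℕ) (g : List Bool) (rs : List (List Bool)) (e : ι' → ℝ≥0∞) (b : ι'),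
    g ∈ HB (2 ^ (kp i + 4)) → rs.length ≤ M → (g :: rs).IsChain LFold → IncL W n Φ rs i g e →
    SDN.wl rs * e b ≤ Gl W kp n Φ M i (rs, b) g := by
  induction M with
  | zero =>
    intro i g rs e b _ h1 _ h3
    cases rs with
    | nil =>
      rw [NTm.wl_nil, one_mul]
      exact (h3 b).trans le_self_add
    | cons x xs =>
      rw [List.length_cons] at h1
      omega
  | succ M ih =>
    intro i g rs e b hg h1 h2 h3
    cases rs with
    | nil =>
      rw [NTm.wl_nil, one_mul]
      exact (h3 b).trans le_self_add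
    | cons x xs =>
      obtain ⟨i', h4, h5, h6, h7⟩ := h3
      rw [List.isChain_cons_cons] at h2
      rw [List.length_cons] at h1
      obtain ⟨h, a1, a2, a3⟩ := hW.sub i' h5 h6
      have h8 := ih i' x xs e b ⟨h, a1, a3⟩ (by omega) h2.2 h7
      have h9 : hp (2 ^ (kp i + 4)) (W i') x g = wE x := by
        unfold hp
        exact if_pos ⟨h6, RT_of hg h2.1⟩
      refine le_trans ?_ (le_add_self (a := Rl W kp n Φ (M + 1) i (x :: xs) b g))
      show SDN.wl (x :: xs) * e b ≤ ∑ i' ∈ Ico i n, hp (2 ^ (kp i + 4)) (W i') x g *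
        (nilW xs (Φ i' b x) + Rl W kp n Φ M i' xs b x)
      refine le_trans ?_ (Finset.single_le_sum (f := fun i' => hp (2 ^ (kp i + 4)) (W i') x g *
        (nilW xs (Φ i' b x) + Rl W kp n Φ M i' xs b x)) (fun _ _ => zero_le) (Finset.mem_Ico.2 ⟨h4, h5⟩))
      show SDN.wl (x :: xs) * e b ≤ hp (2 ^ (kp i + 4)) (W i') x g * (nilW xs (Φ i' b x) + Rl W kp n Φ M i' xs b x)
      rw [h9, NTm.wl_cons, mul_assoc]
      exact mul_le_mul_right h8 _

open Classical in
/-- the runs and right parts behind g -/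
lemma mid_leL (hW : Wnd kc J n W kp) (hR : ∀ gs ∈ R, ∀ g ∈ gs, g ∈ HB (2 ^ (kc + 4))) (M : ℕ)
    (T : ι → ι' → List (List Bool) → Prop) (a : ι) (ls : List (List Bool)) (g : List Bool)
    (e : List (List Bool) → ι' → ℝ≥0∞) :
    (∑' gs : List (List Bool), if (g :: gs).IsChain LFold ∧ MidL W n M R Φ g gs (e gs) then
      SDN.wl gs * (∑' b, if T a b (ls ++ g :: gs) then e gs b else 0) else 0) ≤
      runL R (Gl W kp n Φ M 0) (C1 T) (a, ls) g := by
  refine (RF.tsum_app (H := fun ms rs => if ((g :: ms) ∈ R ∧ (g :: ms).IsChain LFold) ∧ (rs.length ≤ M ∧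
    ((g :: ms).getLastD [] :: rs).IsChain LFold ∧ IncL W n Φ rs 0 ((g :: ms).getLastD []) (e (ms ++ rs))) then
    SDN.wl ms * (SDN.wl rs * (∑' b, if T a b (ls ++ g :: (ms ++ rs)) then e (ms ++ rs) b else 0)) else 0) ?_).trans ?_
  · intro gs
    by_cases h : (g :: gs).IsChain LFold ∧ MidL W n M R Φ g gs (e gs)
    · right
      obtain ⟨h1, ms, rs, rfl, h2, h3, h4⟩ := h
      obtain ⟨c1, c2⟩ := RF.chain_split h1
      refine ⟨ms, rs, rfl, ?_⟩
      rw [if_pos ⟨h1, ms, rs, rfl, h2, h3, h4⟩, if_pos ⟨⟨h2, c1⟩, h3, c2, h4⟩, RF.wl_append, mul_assoc]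
    · left
      rw [if_neg h]
  · unfold runL
    refine ENNReal.tsum_le_tsum fun ms => ?_
    by_cases h : (g :: ms) ∈ R ∧ (g :: ms).IsChain LFold
    · rw [if_pos h]
      have hlast : (g :: ms).getLastD [] ∈ HB (2 ^ (kc + 4)) := by
        refine hR _ h.1 _ ?_
        rw [List.getLastD_eq_getLast?, List.getLast?_eq_getLast_of_ne_nil (List.cons_ne_nil _ _), Option.getD_some]
        exact List.getLast_mem _
      rw [ENNReal.tsum_prod', ← ENNReal.tsum_mul_left]
      refine ENNReal.tsum_le_tsum fun rs => ?_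
      by_cases h2 : rs.length ≤ M ∧ ((g :: ms).getLastD [] :: rs).IsChain LFold ∧
          IncL W n Φ rs 0 ((g :: ms).getLastD []) (e (ms ++ rs))
      · rw [if_pos ⟨h, h2⟩, ← ENNReal.tsum_mul_left]
        refine mul_le_mul_right (ENNReal.tsum_le_tsum fun b => ?_) _
        have h3 : C1 T (a, ls) (rs, b) (g :: ms) ↔ T a b (ls ++ g :: (ms ++ rs)) := by
          unfold C1
          rw [List.cons_append]
        by_cases h4 : T a b (ls ++ g :: (ms ++ rs))
        · rw [if_pos h4, if_pos (h3.2 h4)]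
          exact TR_leL (Φ := Φ) hW M 0 ((g :: ms).getLastD []) rs (e (ms ++ rs)) b (by
            rw [hW.zero]
            exact hlast) h2.1 h2.2.1 h2.2.2
        · rw [if_neg h4, mul_zero]
          exact zero_le
      · rw [if_neg fun h3 => h2 h3.2]
        exact zero_le
    · rw [if_neg h]
      apply le_of_eq
      rw [ENNReal.tsum_eq_zero]
      intro rs
      rw [if_neg fun h3 => h h3.1]

lemma mid_HBL (hR : ∀ gs ∈ R, ∀ g ∈ gs, g ∈ HB (2 ^ (kc + 4))) {M : ℕ} {g : List Bool} {gs : List (List Bool)}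
    {e : ι' → ℝ≥0∞} (h : MidL W n M R Φ g gs e) : g ∈ HB (2 ^ (kc + 4)) := by
  obtain ⟨ms, rs, -, h2, -⟩ := h
  exact hR _ h2 g List.mem_cons_self

lemma sw_le_Gs (R : Set (List (List Bool))) (F : ι' → List Bool → ℝ≥0∞) (C : ι → ι' → List (List Bool) → Prop) (a : ι)
    (g : List Bool) :
    Rec8.sw {g' | g' ∈ HB (2 ^ (kc + 4)) ∧ RT (2 ^ (kc + 4)) LFold g g'} (runL R F C a) ≤ Gs kc R F C g :=
  le_iSup (fun a => vA (2 ^ (kc + 4)) (HB (2 ^ (kc + 4))) (runL R F C a) g) a

open Classical in
/-- left chains, a run in R and right chains behind the leaf g; ls = the pieces up to g -/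
lemma TL_leL (hW : Wnd kc J n W kp) (hR : ∀ gs ∈ R, ∀ g ∈ gs, g ∈ HB (2 ^ (kc + 4))) (M : ℕ)
    (T : ι → ι' → List (List Bool) → Prop) (a : ι) (M' : ℕ) :
    ∀ (i : ℕ) (g : List Bool) (ls : List (List Bool)) (e : List (List Bool) → ι' → ℝ≥0∞), i < n →
      g ∈ HB (2 ^ (kp i + 4)) →
    (∑' gs : List (List Bool), if gs.length ≤ M' + 1 ∧ (g :: gs).IsChain LFold ∧ DecL W n M R Φ gs (i + 1) (e gs) then
      SDN.wl gs * (∑' b, if T a b (ls ++ gs) then e gs b else 0) else 0) ≤
      FL W kp (Gs kc R (Gl W kp n Φ M 0) (C1 T)) M' i g := by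
  have hmono : ∀ (i i' : ℕ) (g : List Bool), i' ≤ i → g ∈ HB (2 ^ (kp i + 4)) → g ∈ HB (2 ^ (kp i' + 4)) := by
    rintro i i' g hi ⟨h, a1, a2⟩
    exact ⟨h, (Nat.pow_le_pow_right (by norm_num) (Nat.add_le_add_right (hW.mono i' i hi) 4)).trans a1, a2⟩
  have hmid : ∀ (g' : List Bool) (ls : List (List Bool)) (e : List (List Bool) → ι' → ℝ≥0∞),
      (∑' gs : List (List Bool), if (g' :: gs).IsChain LFold ∧ MidL W n M R Φ g' gs (e (g' :: gs)) then
        SDN.wl gs * (∑' b, if T a b (ls ++ g' :: gs) then e (g' :: gs) b else 0) else 0) ≤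
        runL R (Gl W kp n Φ M 0) (C1 T) (a, ls) g' := fun g' ls e => mid_leL (Φ := Φ) hW hR M T a ls g' (fun gs => e (g' :: gs))
  induction M' with
  | zero =>
    intro i g ls e hi hg
    have hg0 : g ∈ HB (2 ^ (kc + 4)) := by
      have := hmono i 0 g (Nat.zero_le i) hg
      rwa [hW.zero] at this
    refine (CCh.tsum_list _ ?_).trans ?_
    · rw [if_neg]
      rintro ⟨-, -, h⟩
      exact h
    · refine (QF.sum_consW (range 1) (fun _ => {g' | g' ∈ HB (2 ^ (kc + 4)) ∧ RT (2 ^ (kc + 4)) LFold g g'})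
        (fun _ => runL R (Gl W kp n Φ M 0) (C1 T) (a, ls)) (fun gs => ∑' b, if T a b (ls ++ gs) then e gs b else 0)
        (fun gs => gs.length ≤ 0 + 1 ∧ (g :: gs).IsChain LFold ∧ DecL W n M R Φ gs (i + 1) (e gs))
        (fun _ g' gs => (g' :: gs).IsChain LFold ∧ MidL W n M R Φ g' gs (e (g' :: gs))) ?_ ?_).trans ?_
      · rintro g' gs ⟨h1, h2, h3⟩
        rw [List.isChain_cons_cons] at h2
        rw [List.length_cons] at h1
        have h0 : gs = [] := List.length_eq_zero_iff.1 (by omega)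
        rcases h3 with h4 | ⟨i', h4, h5, h6⟩
        · exact ⟨0, Finset.mem_range.2 (by omega), ⟨mid_HBL hR h4, RT_of hg0 h2.1⟩, h2.2, h4⟩
        · rw [h0] at h6
          exact h6.elim
      · rintro _ _ g' -
        exact hmid g' ls e
      · rw [Finset.sum_range_one]
        exact sw_le_Gs R _ _ _ g
  | succ M' ih =>
    intro i g ls e hi hg
    have hg0 : g ∈ HB (2 ^ (kc + 4)) := by
      have := hmono i 0 g (Nat.zero_le i) hg
      rwa [hW.zero] at this
    refine (CCh.tsum_list _ ?_).trans ?_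
    · rw [if_neg]
      rintro ⟨-, -, h⟩
      exact h
    · refine (QF.sum_consW (range (i + 1 + 1)) (fun j => if j = 0 then
          {g' | g' ∈ HB (2 ^ (kc + 4)) ∧ RT (2 ^ (kc + 4)) LFold g g'} else
          {g' | g' ∈ W (j - 1) ∧ RT (2 ^ (kp (j - 1) + 4)) LFold g g'})
        (fun j => if j = 0 then runL R (Gl W kp n Φ M 0) (C1 T) (a, ls) else
          FL W kp (Gs kc R (Gl W kp n Φ M 0) (C1 T)) M' (j - 1)) (fun gs => ∑' b, if T a b (ls ++ gs) then e gs b else 0)
        (fun gs => gs.length ≤ M' + 1 + 1 ∧ (g :: gs).IsChain LFold ∧ DecL W n M R Φ gs (i + 1) (e gs))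
        (fun j g' gs => if j = 0 then (g' :: gs).IsChain LFold ∧ MidL W n M R Φ g' gs (e (g' :: gs)) else
          gs.length ≤ M' + 1 ∧ (g' :: gs).IsChain LFold ∧ DecL W n M R Φ gs (j - 1 + 1) (e (g' :: gs))) ?_ ?_).trans ?_
      · rintro g' gs ⟨h1, h2, h3⟩
        rw [List.isChain_cons_cons] at h2
        rw [List.length_cons] at h1
        rcases h3 with h4 | ⟨i', h4, h5, h6⟩
        · refine ⟨0, Finset.mem_range.2 (by omega), ?_, ?_⟩
          · rw [if_pos rfl]
            exact ⟨mid_HBL hR h4, RT_of hg0 h2.1⟩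
          · rw [if_pos rfl]
            exact ⟨h2.2, h4⟩
        · refine ⟨i' + 1, Finset.mem_range.2 (by omega), ?_, ?_⟩
          · rw [if_neg (by omega), Nat.add_sub_cancel]
            exact ⟨h5, RT_of (hmono i i' g (by omega) hg) h2.1⟩
          · rw [if_neg (by omega), Nat.add_sub_cancel]
            exact ⟨by omega, h2.2, h6⟩
      · rintro j hj g' h5
        rcases Nat.eq_zero_or_pos j with h0 | h0
        · rw [if_pos h0] at h5 ⊢
          simp only [if_pos h0]
          exact hmid g' ls e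
        · rw [if_neg (by omega)] at h5 ⊢
          simp only [if_neg (show j ≠ 0 by omega)]
          have hjn : j - 1 < n := by
            have := Finset.mem_range.1 hj
            omega
          obtain ⟨h, a1, a2, a3⟩ := hW.sub (j - 1) hjn h5.1
          have h6 := ih (j - 1) g' (ls ++ [g']) (fun gs => e (g' :: gs)) hjn ⟨h, a1, a3⟩
          simp only [List.append_assoc, List.singleton_append] at h6
          exact h6
      · rw [Finset.sum_range_succ', if_pos rfl, if_pos rfl, add_comm]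
        refine add_le_add (sw_le_Gs R _ _ _ g) (le_of_eq (Finset.sum_congr rfl fun j _ => ?_))
        rw [if_neg (Nat.succ_ne_zero j), if_neg (Nat.succ_ne_zero j), Nat.add_sub_cancel]
        rfl

end pieces

open Classical in
/-- **the sum over the chains, relation form** -/
theorem chain_massL {kc J n : ℕ} {W : ℕ → Set (List Bool)} {kp : ℕ → ℕ} {P : ℕ → ι → List Bool → ℝ≥0∞}
    {Φ : ℕ → ι' → List Bool → ℝ≥0∞} (hW : Wnd kc J n W kp) {R : Set (List (List Bool))}
    (hR : ∀ gs ∈ R, ∀ g ∈ gs, g ∈ HB (2 ^ (kc + 4))) (M : ℕ) (T : ι → ι' → List (List Bool) → Prop)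
    (w0 : List (List Bool) → ι → ℝ≥0∞) (w1 : List (List Bool) → ι' → ℝ≥0∞) (h0 : ∀ g gs, w0 (g :: gs) = w0 [g]) :
    (∑' gs : List (List Bool), if gs.length ≤ M ∧ gs.IsChain LFold ∧ TotL W n M R P Φ gs (w0 gs) (w1 gs) then
      SDN.wl gs * (∑' a, ∑' b, if T a b gs then w0 gs a * w1 gs b else 0) else 0) ≤
      Rec8.sw (HB (2 ^ (kc + 4))) (fun g => ∑' a, P 0 a (rev g) * runL R (Gl W kp n Φ M 0) (C0 T) a g) +
        ∑ i ∈ range n, Rec8.sw (W i) (fun g => (∑' a, P i a (rev g)) *
          FL W kp (Gs kc R (Gl W kp n Φ M 0) (C1 T)) M i g) := by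
  refine (CCh.tsum_list _ ?_).trans ?_
  · rw [if_neg]
    rintro ⟨-, -, h⟩
    exact h
  · refine (QF.sum_consW (range (n + 1)) (fun j => if j = 0 then HB (2 ^ (kc + 4)) else W (j - 1))
      (fun j => if j = 0 then (fun g => ∑' a, P 0 a (rev g) * runL R (Gl W kp n Φ M 0) (C0 T) a g) else
        (fun g => (∑' a, P (j - 1) a (rev g)) * FL W kp (Gs kc R (Gl W kp n Φ M 0) (C1 T)) M (j - 1) g))
      (fun gs => ∑' a, ∑' b, if T a b gs then w0 gs a * w1 gs b else 0)
      (fun gs => gs.length ≤ M ∧ gs.IsChain LFold ∧ TotL W n M R P Φ gs (w0 gs) (w1 gs))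
      (fun j g' gs => if j = 0 then (∀ a, w0 [g'] a ≤ P 0 a (rev g')) ∧ (g' :: gs).IsChain LFold ∧
          MidL W n M R Φ g' gs (w1 (g' :: gs)) else
        (∀ a, w0 [g'] a ≤ P (j - 1) a (rev g')) ∧ gs.length ≤ M + 1 ∧ (g' :: gs).IsChain LFold ∧
          DecL W n M R Φ gs (j - 1 + 1) (w1 (g' :: gs))) ?_ ?_).trans ?_
    · rintro g' gs ⟨h1, h2, h3⟩
      rw [List.length_cons] at h1
      rcases h3 with ⟨h7, h4⟩ | ⟨i', h4, h5, h7, h6⟩
      · refine ⟨0, Finset.mem_range.2 (by omega), ?_, ?_⟩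
        · rw [if_pos rfl]
          exact mid_HBL hR h4
        · rw [if_pos rfl]
          rw [h0] at h7
          exact ⟨h7, h2, h4⟩
      · refine ⟨i' + 1, Finset.mem_range.2 (by omega), ?_, ?_⟩
        · rw [if_neg (by omega), Nat.add_sub_cancel]
          exact h5
        · rw [if_neg (by omega), Nat.add_sub_cancel]
          rw [h0] at h7
          exact ⟨h7, by omega, h2, h6⟩
    · rintro j hj g' h5
      -- the sum over the index of the left end comes out
      have hout : ∀ (c : List (List Bool) → Prop) [DecidablePred c] (gs : List (List Bool)),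
          (if c gs then SDN.wl gs * (∑' a, ∑' b, if T a b (g' :: gs) then w0 (g' :: gs) a * w1 (g' :: gs) b else 0)
            else 0) = ∑' a, w0 [g'] a * (if c gs then SDN.wl gs * (∑' b, if T a b (g' :: gs) then w1 (g' :: gs) b else 0)
            else 0) := by
        intro c _ gs
        by_cases hc : c gs
        · rw [if_pos hc, h0, ← ENNReal.tsum_mul_left]
          refine tsum_congr fun a => ?_
          rw [if_pos hc]
          have h1 : ∑' b, (if T a b (g' :: gs) then w0 [g'] a * w1 (g' :: gs) b else 0) =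
              w0 [g'] a * ∑' b, (if T a b (g' :: gs) then w1 (g' :: gs) b else 0) := by
            rw [← ENNReal.tsum_mul_left]
            refine tsum_congr fun b => ?_
            by_cases hT : T a b (g' :: gs)
            · rw [if_pos hT, if_pos hT]
            · rw [if_neg hT, if_neg hT, mul_zero]
          rw [h1]
          ring
        · rw [if_neg hc]
          symm
          rw [ENNReal.tsum_eq_zero]
          intro a
          rw [if_neg hc, mul_zero]
      rcases Nat.eq_zero_or_pos j with hj0 | hj0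
      · rw [if_pos hj0] at h5 ⊢
        simp only [if_pos hj0]
        by_cases hw : ∀ a, w0 [g'] a ≤ P 0 a (rev g')
        · have h1 : ∀ gs : List (List Bool), (if (∀ a, w0 [g'] a ≤ P 0 a (rev g')) ∧ (g' :: gs).IsChain LFold ∧
              MidL W n M R Φ g' gs (w1 (g' :: gs)) then SDN.wl gs *
              (∑' a, ∑' b, if T a b (g' :: gs) then w0 (g' :: gs) a * w1 (g' :: gs) b else 0) else 0) =
              ∑' a, w0 [g'] a * (if (g' :: gs).IsChain LFold ∧ MidL W n M R Φ g' gs (w1 (g' :: gs)) then SDN.wl gs *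
                (∑' b, if T a b (g' :: gs) then w1 (g' :: gs) b else 0) else 0) := by
            intro gs
            refine Eq.trans ?_ (hout (fun gs => (g' :: gs).IsChain LFold ∧ MidL W n M R Φ g' gs (w1 (g' :: gs))) gs)
            by_cases hc : (g' :: gs).IsChain LFold ∧ MidL W n M R Φ g' gs (w1 (g' :: gs))
            · rw [if_pos ⟨hw, hc⟩, if_pos hc]
            · rw [if_neg fun h => hc h.2, if_neg hc]
          simp only [h1]
          rw [ENNReal.tsum_comm]
          refine ENNReal.tsum_le_tsum fun a => ?_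
          rw [ENNReal.tsum_mul_left]
          exact mul_le_mul' (hw a) (mid_leL (Φ := Φ) hW hR M T a [] g' (fun gs => w1 (g' :: gs)))
        · refine le_trans (le_of_eq ?_) zero_le
          rw [ENNReal.tsum_eq_zero]
          intro gs
          rw [if_neg fun h => hw h.1]
      · rw [if_neg (by omega)] at h5 ⊢
        simp only [if_neg (show j ≠ 0 by omega)]
        have hjn : j - 1 < n := by
          have := Finset.mem_range.1 hj
          omega
        obtain ⟨h, a1, a2, a3⟩ := hW.sub (j - 1) hjn h5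
        by_cases hw : ∀ a, w0 [g'] a ≤ P (j - 1) a (rev g')
        · have h1 : ∀ gs : List (List Bool), (if (∀ a, w0 [g'] a ≤ P (j - 1) a (rev g')) ∧ gs.length ≤ M + 1 ∧
              (g' :: gs).IsChain LFold ∧ DecL W n M R Φ gs (j - 1 + 1) (w1 (g' :: gs)) then SDN.wl gs *
              (∑' a, ∑' b, if T a b (g' :: gs) then w0 (g' :: gs) a * w1 (g' :: gs) b else 0) else 0) =
              ∑' a, w0 [g'] a * (if gs.length ≤ M + 1 ∧ (g' :: gs).IsChain LFold ∧
                DecL W n M R Φ gs (j - 1 + 1) (w1 (g' :: gs)) then SDN.wl gs *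
                (∑' b, if T a b (g' :: gs) then w1 (g' :: gs) b else 0) else 0) := by
            intro gs
            refine Eq.trans ?_ (hout (fun gs => gs.length ≤ M + 1 ∧ (g' :: gs).IsChain LFold ∧
              DecL W n M R Φ gs (j - 1 + 1) (w1 (g' :: gs))) gs)
            by_cases hc : gs.length ≤ M + 1 ∧ (g' :: gs).IsChain LFold ∧
                DecL W n M R Φ gs (j - 1 + 1) (w1 (g' :: gs))
            · rw [if_pos ⟨hw, hc⟩, if_pos hc]
            · rw [if_neg fun h => hc h.2, if_neg hc]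
          simp only [h1]
          rw [ENNReal.tsum_comm, ← ENNReal.tsum_mul_right]
          refine ENNReal.tsum_le_tsum fun a => ?_
          rw [ENNReal.tsum_mul_left]
          exact mul_le_mul' (hw a) (TL_leL (Φ := Φ) hW hR M T a M (j - 1) g' [g'] (fun gs => w1 (g' :: gs)) hjn
            ⟨h, a1, a3⟩)
        · refine le_trans (le_of_eq ?_) zero_le
          rw [ENNReal.tsum_eq_zero]
          intro gs
          rw [if_neg fun h => hw h.1]
    · rw [Finset.sum_range_succ', if_pos rfl, if_pos rfl, add_comm]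
      refine add_le_add le_rfl (le_of_eq (Finset.sum_congr rfl fun j _ => ?_))
      rw [if_neg (Nat.succ_ne_zero j), if_neg (Nat.succ_ne_zero j), Nat.add_sub_cancel]

end JNT

end HexObs
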