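import Pool.Agent.JNT.OutD
import Pool.Agent.JNT.ChainS

/-!
JNT: the sum over the monotone chains with a marked run, general ends, in relation form (relation form of EN/OutSum).
-/

set_option autoImplicit false

namespace HexObs

namespace JNT

open Finset TS SDN SDN.CN NTm NTW NTA EN

open scoped ENNReal

variable {ι ι' : Type} {kc J n : ℕ} {W : ℕ → Set (List Bool)} {kp : ℕ → ℕ} {R : Set (List (List Bool))}
  {P : List (List Bool) → List Bool → (ι' → ℝ≥0∞) → Prop} {F : List (List Bool) × ι' → List Bool → ℝ≥0∞}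

open Classical in
/-- the runs and right parts behind g -/
lemma mid_leP (hP : RBL (2 ^ (kc + 4)) P F) (hR : ∀ gs ∈ R, ∀ g ∈ gs, g ∈ HB (2 ^ (kc + 4)))
    (T : ι → ι' → List (List Bool) → Prop) (a : ι) (ls : List (List Bool)) (g : List Bool)
    (e : List (List Bool) → ι' → ℝ≥0∞) :
    (∑' gs : List (List Bool), if (g :: gs).IsChain LFold ∧ MidPL R P g gs (e gs) then
      SDN.wl gs * (∑' b, if T a b (ls ++ g :: gs) then e gs b else 0) else 0) ≤
      runL R F (C1 T) (a, ls) g := by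
  refine (RF.tsum_app (H := fun ms rs => if ((g :: ms) ∈ R ∧ (g :: ms).IsChain LFold) ∧
    (((g :: ms).getLastD [] :: rs).IsChain LFold ∧ P rs ((g :: ms).getLastD []) (e (ms ++ rs))) then
    SDN.wl ms * (SDN.wl rs * (∑' b, if T a b (ls ++ g :: (ms ++ rs)) then e (ms ++ rs) b else 0)) else 0) ?_).trans ?_
  · intro gs
    by_cases h : (g :: gs).IsChain LFold ∧ MidPL R P g gs (e gs)
    · right
      obtain ⟨h1, ms, rs, rfl, h2, h4⟩ := h
      obtain ⟨c1, c2⟩ := RF.chain_split h1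
      refine ⟨ms, rs, rfl, ?_⟩
      rw [if_pos ⟨h1, ms, rs, rfl, h2, h4⟩, if_pos ⟨⟨h2, c1⟩, c2, h4⟩, RF.wl_append, mul_assoc]
    · left
      rw [if_neg h]
  · unfold runL
    refine ENNReal.tsum_le_tsum fun ms => ?_
    by_cases h : (g :: ms) ∈ R ∧ (g :: ms).IsChain LFold
    · rw [if_pos h]
      have hlast : (g :: ms).getLastD [] ∈ HB (2 ^ (kc + 4)) := by
        refine hR _ h.1 _ ?_
        rw [List.getLastD_eq_getLast?, List.getLast?_eq_getLast_of_ne_nil (List.cons_ne_nil _ _), Option.getD_some]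
        exact List.getLast_mem _
      rw [ENNReal.tsum_prod', ← ENNReal.tsum_mul_left]
      refine ENNReal.tsum_le_tsum fun rs => ?_
      by_cases h2 : ((g :: ms).getLastD [] :: rs).IsChain LFold ∧ P rs ((g :: ms).getLastD []) (e (ms ++ rs))
      · rw [if_pos ⟨h, h2⟩, ← ENNReal.tsum_mul_left]
        refine mul_le_mul_right (ENNReal.tsum_le_tsum fun b => ?_) _
        have h3 : C1 T (a, ls) (rs, b) (g :: ms) ↔ T a b (ls ++ g :: (ms ++ rs)) := by
          unfold C1
          rw [List.cons_append]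
        by_cases h4 : T a b (ls ++ g :: (ms ++ rs))
        · rw [if_pos h4, if_pos (h3.2 h4)]
          exact hP ((g :: ms).getLastD []) rs (e (ms ++ rs)) b hlast h2.1 h2.2
        · rw [if_neg h4, mul_zero]
          exact zero_le
      · rw [if_neg fun h3 => h2 h3.2]
        exact zero_le
    · rw [if_neg h]
      apply le_of_eq
      rw [ENNReal.tsum_eq_zero]
      intro rs
      rw [if_neg fun h3 => h h3.1]

lemma mid_HBPL (hR : ∀ gs ∈ R, ∀ g ∈ gs, g ∈ HB (2 ^ (kc + 4))) {g : List Bool} {gs : List (List Bool)}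
    {e : ι' → ℝ≥0∞} (h : MidPL R P g gs e) : g ∈ HB (2 ^ (kc + 4)) := by
  obtain ⟨ms, rs, -, h2, -⟩ := h
  exact hR _ h2 g List.mem_cons_self

open Classical in
/-- left chains, a run in R and right chains behind the leaf g; ls = the pieces up to g -/
lemma TL_leP (hW : Wnd kc J n W kp) (hP : RBL (2 ^ (kc + 4)) P F) (hR : ∀ gs ∈ R, ∀ g ∈ gs, g ∈ HB (2 ^ (kc + 4)))
    (T : ι → ι' → List (List Bool) → Prop) (a : ι) (M' : ℕ) :
    ∀ (i : ℕ) (g : List Bool) (ls : List (List Bool)) (e : List (List Bool) → ι' → ℝ≥0∞), i < n →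
      g ∈ HB (2 ^ (kp i + 4)) →
    (∑' gs : List (List Bool), if gs.length ≤ M' + 1 ∧ (g :: gs).IsChain LFold ∧ DecPL W R P gs (i + 1) (e gs) then
      SDN.wl gs * (∑' b, if T a b (ls ++ gs) then e gs b else 0) else 0) ≤
      FL W kp (Gs kc R F (C1 T)) M' i g := by
  have hmono : ∀ (i i' : ℕ) (g : List Bool), i' ≤ i → g ∈ HB (2 ^ (kp i + 4)) → g ∈ HB (2 ^ (kp i' + 4)) := by
    rintro i i' g hi ⟨h, a1, a2⟩
    exact ⟨h, (Nat.pow_le_pow_right (by norm_num) (Nat.add_le_add_right (hW.mono i' i hi) 4)).trans a1, a2⟩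
  have hmid : ∀ (g' : List Bool) (ls : List (List Bool)) (e : List (List Bool) → ι' → ℝ≥0∞),
      (∑' gs : List (List Bool), if (g' :: gs).IsChain LFold ∧ MidPL R P g' gs (e (g' :: gs)) then
        SDN.wl gs * (∑' b, if T a b (ls ++ g' :: gs) then e (g' :: gs) b else 0) else 0) ≤
        runL R F (C1 T) (a, ls) g' := fun g' ls e => mid_leP hP hR T a ls g' (fun gs => e (g' :: gs))
  induction M' with
  | zero =>
    intro i g ls e hi hg
    have hg0 : g ∈ HB (2 ^ (kc + 4)) := by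
      have := hmono i 0 g (Nat.zero_le i) hg
      rwa [hW.zero] at this
    refine (CCh.tsum_list _ ?_).trans ?_
    · rw [if_neg]
      rintro ⟨-, -, h⟩
      exact h
    · refine (QF.sum_consW (range 1) (fun _ => {g' | g' ∈ HB (2 ^ (kc + 4)) ∧ RT (2 ^ (kc + 4)) LFold g g'})
        (fun _ => runL R F (C1 T) (a, ls)) (fun gs => ∑' b, if T a b (ls ++ gs) then e gs b else 0)
        (fun gs => gs.length ≤ 0 + 1 ∧ (g :: gs).IsChain LFold ∧ DecPL W R P gs (i + 1) (e gs))
        (fun _ g' gs => (g' :: gs).IsChain LFold ∧ MidPL R P g' gs (e (g' :: gs))) ?_ ?_).trans ?_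
      · rintro g' gs ⟨h1, h2, h3⟩
        rw [List.isChain_cons_cons] at h2
        rw [List.length_cons] at h1
        have h0 : gs = [] := List.length_eq_zero_iff.1 (by omega)
        rcases h3 with h4 | ⟨i', h4, h5, h6⟩
        · exact ⟨0, Finset.mem_range.2 (by omega), ⟨mid_HBPL hR h4, RT_of hg0 h2.1⟩, h2.2, h4⟩
        · rw [h0] at h6
          exact h6.elim
      · rintro _ _ g' -
        exact hmid g' ls e
      · rw [Finset.sum_range_one]
        exact sw_le_Gs R _ _ _ g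
  | succ M' ih =>
    intro i g ls e hi hg
    have hg0 : g ∈ HB (2 ^ (kc + 4)) := by
      have := hmono i 0 g (Nat.zero_le i) hg
      rwa [hW.zero] at this
    refine (CCh.tsum_list _ ?_).trans ?_
    · rw [if_neg]
      rintro ⟨-, -, h⟩
      exact h
    · refine (QF.sum_consW (range (i + 1 + 1)) (fun j => if j = 0 then
          {g' | g' ∈ HB (2 ^ (kc + 4)) ∧ RT (2 ^ (kc + 4)) LFold g g'} else
          {g' | g' ∈ W (j - 1) ∧ RT (2 ^ (kp (j - 1) + 4)) LFold g g'})
        (fun j => if j = 0 then runL R F (C1 T) (a, ls) else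
          FL W kp (Gs kc R F (C1 T)) M' (j - 1)) (fun gs => ∑' b, if T a b (ls ++ gs) then e gs b else 0)
        (fun gs => gs.length ≤ M' + 1 + 1 ∧ (g :: gs).IsChain LFold ∧ DecPL W R P gs (i + 1) (e gs))
        (fun j g' gs => if j = 0 then (g' :: gs).IsChain LFold ∧ MidPL R P g' gs (e (g' :: gs)) else
          gs.length ≤ M' + 1 ∧ (g' :: gs).IsChain LFold ∧ DecPL W R P gs (j - 1 + 1) (e (g' :: gs))) ?_ ?_).trans ?_
      · rintro g' gs ⟨h1, h2, h3⟩
        rw [List.isChain_cons_cons] at h2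
        rw [List.length_cons] at h1
        rcases h3 with h4 | ⟨i', h4, h5, h6⟩
        · refine ⟨0, Finset.mem_range.2 (by omega), ?_, ?_⟩
          · rw [if_pos rfl]
            exact ⟨mid_HBPL hR h4, RT_of hg0 h2.1⟩
          · rw [if_pos rfl]
            exact ⟨h2.2, h4⟩
        · refine ⟨i' + 1, Finset.mem_range.2 (by omega), ?_, ?_⟩
          · rw [if_neg (by omega), Nat.add_sub_cancel]
            exact ⟨h5, RT_of (hmono i i' g (by omega) hg) h2.1⟩
          · rw [if_neg (by omega), Nat.add_sub_cancel]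
            exact ⟨by omega, h2.2, h6⟩
      · rintro j hj g' h5
        rcases Nat.eq_zero_or_pos j with h0 | h0
        · rw [if_pos h0] at h5 ⊢
          simp only [if_pos h0]
          exact hmid g' ls e
        · rw [if_neg (by omega)] at h5 ⊢
          simp only [if_neg (show j ≠ 0 by omega)]
          have hjn : j - 1 < n := by
            have := Finset.mem_range.1 hj
            omega
          obtain ⟨h, a1, a2, a3⟩ := hW.sub (j - 1) hjn h5.1
          have h6 := ih (j - 1) g' (ls ++ [g']) (fun gs => e (g' :: gs)) hjn ⟨h, a1, a3⟩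
          simp only [List.append_assoc, List.singleton_append] at h6
          exact h6
      · rw [Finset.sum_range_succ', if_pos rfl, if_pos rfl, add_comm]
        refine add_le_add (sw_le_Gs R _ _ _ g) (le_of_eq (Finset.sum_congr rfl fun j _ => ?_))
        rw [if_neg (Nat.succ_ne_zero j), if_neg (Nat.succ_ne_zero j), Nat.add_sub_cancel]
        rfl

open Classical in
/-- the sum over the index of the left end comes out -/
lemma out_end (T : ι → ι' → List (List Bool) → Prop) (w0 : List (List Bool) → ι → ℝ≥0∞)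
    (w1 : List (List Bool) → ι' → ℝ≥0∞) (h0 : ∀ g gs, w0 (g :: gs) = w0 [g]) (g' : List Bool) (c : List (List Bool) → Prop)
    [DecidablePred c] (gs : List (List Bool)) :
    (if c gs then SDN.wl gs * (∑' a, ∑' b, if T a b (g' :: gs) then w0 (g' :: gs) a * w1 (g' :: gs) b else 0)
      else 0) = ∑' a, w0 [g'] a * (if c gs then SDN.wl gs * (∑' b, if T a b (g' :: gs) then w1 (g' :: gs) b else 0)
      else 0) := by
  by_cases hc : c gs
  · rw [if_pos hc, h0, ← ENNReal.tsum_mul_left]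
    refine tsum_congr fun a => ?_
    rw [if_pos hc]
    have h1 : ∑' b, (if T a b (g' :: gs) then w0 [g'] a * w1 (g' :: gs) b else 0) =
        w0 [g'] a * ∑' b, (if T a b (g' :: gs) then w1 (g' :: gs) b else 0) := by
      rw [← ENNReal.tsum_mul_left]
      refine tsum_congr fun b => ?_
      by_cases hT : T a b (g' :: gs)
      · rw [if_pos hT, if_pos hT]
      · rw [if_neg hT, if_neg hT, mul_zero]
    rw [h1]
    ring
  · rw [if_neg hc]
    symm
    rw [ENNReal.tsum_eq_zero]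
    intro a
    rw [if_neg hc, mul_zero]

open Classical in
/-- **the sum over the chains that begin with the run** -/
theorem massAL (hP : RBL (2 ^ (kc + 4)) P F) (hR : ∀ gs ∈ R, ∀ g ∈ gs, g ∈ HB (2 ^ (kc + 4)))
    (T : ι → ι' → List (List Bool) → Prop) (Ψ : ι → List Bool → ℝ≥0∞) (M : ℕ) (w0 : List (List Bool) → ι → ℝ≥0∞)
    (w1 : List (List Bool) → ι' → ℝ≥0∞) (h0 : ∀ g gs, w0 (g :: gs) = w0 [g]) :
    (∑' gs : List (List Bool), if gs.length ≤ M ∧ gs.IsChain LFold ∧ TotAL R P Ψ gs (w0 gs) (w1 gs) then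
      SDN.wl gs * (∑' a, ∑' b, if T a b gs then w0 gs a * w1 gs b else 0) else 0) ≤
      Rec8.sw (HB (2 ^ (kc + 4))) (fun g => ∑' a, Ψ a (rev g) * runL R F (C0 T) a g) := by
  refine (CCh.tsum_list _ ?_).trans ?_
  · rw [if_neg]
    rintro ⟨-, -, h⟩
    exact h
  · refine (QF.sum_consW (range 1) (fun _ => HB (2 ^ (kc + 4)))
      (fun _ => fun g => ∑' a, Ψ a (rev g) * runL R F (C0 T) a g)
      (fun gs => ∑' a, ∑' b, if T a b gs then w0 gs a * w1 gs b else 0)
      (fun gs => gs.length ≤ M ∧ gs.IsChain LFold ∧ TotAL R P Ψ gs (w0 gs) (w1 gs))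
      (fun _ g' gs => (∀ c, w0 [g'] c ≤ Ψ c (rev g')) ∧ (g' :: gs).IsChain LFold ∧
          MidPL R P g' gs (w1 (g' :: gs))) ?_ ?_).trans ?_
    · rintro g' gs ⟨-, h2, h7, h4⟩
      rw [h0] at h7
      exact ⟨0, Finset.mem_range.2 (by omega), mid_HBPL hR h4, h7, h2, h4⟩
    · rintro _ - g' -
      by_cases hw : ∀ c, w0 [g'] c ≤ Ψ c (rev g')
      · have h1 : ∀ gs : List (List Bool), (if (∀ c, w0 [g'] c ≤ Ψ c (rev g')) ∧ (g' :: gs).IsChain LFold ∧
            MidPL R P g' gs (w1 (g' :: gs)) then SDN.wl gs *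
            (∑' a, ∑' b, if T a b (g' :: gs) then w0 (g' :: gs) a * w1 (g' :: gs) b else 0) else 0) =
            ∑' a, w0 [g'] a * (if (g' :: gs).IsChain LFold ∧ MidPL R P g' gs (w1 (g' :: gs)) then SDN.wl gs *
              (∑' b, if T a b (g' :: gs) then w1 (g' :: gs) b else 0) else 0) := by
          intro gs
          refine Eq.trans ?_ (out_end T w0 w1 h0 g' (fun gs => (g' :: gs).IsChain LFold ∧
            MidPL R P g' gs (w1 (g' :: gs))) gs)
          by_cases hc : (g' :: gs).IsChain LFold ∧ MidPL R P g' gs (w1 (g' :: gs))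
          · rw [if_pos ⟨hw, hc⟩, if_pos hc]
          · rw [if_neg fun h => hc h.2, if_neg hc]
        simp only [h1]
        rw [ENNReal.tsum_comm]
        refine ENNReal.tsum_le_tsum fun a => ?_
        rw [ENNReal.tsum_mul_left]
        exact mul_le_mul' (hw a) (mid_leP hP hR T a [] g' (fun gs => w1 (g' :: gs)))
      · refine le_trans (le_of_eq ?_) zero_le
        rw [ENNReal.tsum_eq_zero]
        intro gs
        rw [if_neg fun h => hw h.1]
    · rw [Finset.sum_range_one]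

open Classical in
/-- **the sum over the chains that do not begin with the run** -/
theorem massBL (hW : Wnd kc J n W kp) (hP : RBL (2 ^ (kc + 4)) P F) (hR : ∀ gs ∈ R, ∀ g ∈ gs, g ∈ HB (2 ^ (kc + 4)))
    (A : Set (List Bool)) (T : ι → ι' → List (List Bool) → Prop) (Ψ : ℕ → ι → List Bool → ℝ≥0∞) (M : ℕ)
    (w0 : List (List Bool) → ι → ℝ≥0∞) (w1 : List (List Bool) → ι' → ℝ≥0∞) (h0 : ∀ g gs, w0 (g :: gs) = w0 [g]) :
    (∑' gs : List (List Bool), if gs.length ≤ M ∧ gs.IsChain LFold ∧ TotBL W n R P A Ψ gs (w0 gs) (w1 gs) then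
      SDN.wl gs * (∑' a, ∑' b, if T a b gs then w0 gs a * w1 gs b else 0) else 0) ≤
      ∑ i ∈ range n, Rec8.sw (W i ∩ A) (fun g => (∑' a, Ψ i a (rev g)) * FL W kp (Gs kc R F (C1 T)) M i g) := by
  refine (CCh.tsum_list _ ?_).trans ?_
  · rw [if_neg]
    rintro ⟨-, -, h⟩
    exact h
  · refine QF.sum_consW (range n) (fun j => W j ∩ A)
      (fun j => fun g => (∑' a, Ψ j a (rev g)) * FL W kp (Gs kc R F (C1 T)) M j g)
      (fun gs => ∑' a, ∑' b, if T a b gs then w0 gs a * w1 gs b else 0)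
      (fun gs => gs.length ≤ M ∧ gs.IsChain LFold ∧ TotBL W n R P A Ψ gs (w0 gs) (w1 gs))
      (fun j g' gs => (∀ c, w0 [g'] c ≤ Ψ j c (rev g')) ∧ gs.length ≤ M + 1 ∧ (g' :: gs).IsChain LFold ∧
          DecPL W R P gs (j + 1) (w1 (g' :: gs))) ?_ ?_
    · rintro g' gs ⟨h1, h2, i', h4, h5, h8, h7, h6⟩
      rw [List.length_cons] at h1
      rw [h0] at h7
      exact ⟨i', Finset.mem_range.2 h4, ⟨h5, h8⟩, h7, by omega, h2, h6⟩
    · rintro j hj g' ⟨h5, -⟩
      have hjn : j < n := Finset.mem_range.1 hj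
      obtain ⟨h, a1, a2, a3⟩ := hW.sub j hjn h5
      by_cases hw : ∀ c, w0 [g'] c ≤ Ψ j c (rev g')
      · have h1 : ∀ gs : List (List Bool), (if (∀ c, w0 [g'] c ≤ Ψ j c (rev g')) ∧ gs.length ≤ M + 1 ∧
            (g' :: gs).IsChain LFold ∧ DecPL W R P gs (j + 1) (w1 (g' :: gs)) then SDN.wl gs *
            (∑' a, ∑' b, if T a b (g' :: gs) then w0 (g' :: gs) a * w1 (g' :: gs) b else 0) else 0) =
            ∑' a, w0 [g'] a * (if gs.length ≤ M + 1 ∧ (g' :: gs).IsChain LFold ∧
              DecPL W R P gs (j + 1) (w1 (g' :: gs)) then SDN.wl gs *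
              (∑' b, if T a b (g' :: gs) then w1 (g' :: gs) b else 0) else 0) := by
          intro gs
          refine Eq.trans ?_ (out_end T w0 w1 h0 g' (fun gs => gs.length ≤ M + 1 ∧ (g' :: gs).IsChain LFold ∧
            DecPL W R P gs (j + 1) (w1 (g' :: gs))) gs)
          by_cases hc : gs.length ≤ M + 1 ∧ (g' :: gs).IsChain LFold ∧ DecPL W R P gs (j + 1) (w1 (g' :: gs))
          · rw [if_pos ⟨hw, hc⟩, if_pos hc]
          · rw [if_neg fun h => hc h.2, if_neg hc]
        simp only [h1]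
        rw [ENNReal.tsum_comm, ← ENNReal.tsum_mul_right]
        refine ENNReal.tsum_le_tsum fun a => ?_
        rw [ENNReal.tsum_mul_left]
        exact mul_le_mul' (hw a) (TL_leP hW hP hR T a M j g' [g'] (fun gs => w1 (g' :: gs)) hjn ⟨h, a1, a3⟩)
      · refine le_trans (le_of_eq ?_) zero_le
        rw [ENNReal.tsum_eq_zero]
        intro gs
        rw [if_neg fun h => hw h.1]

/-! ### right parts -/

lemma rb_PIL (hW : Wnd kc J n W kp) (M : ℕ) (Φ : ℕ → ι' → List Bool → ℝ≥0∞) :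
    RBL (2 ^ (kc + 4)) (PIL W n M Φ) (Gl W kp n Φ M 0) := by
  intro g rs e b hg h1 h2
  exact TR_leL (Φ := Φ) hW M 0 g rs e b (by rw [hW.zero]; exact hg) h2.1 h1 h2.2

/-- the last piece of a right part is in A -/
lemma inc_lastL {Φ : ℕ → ι' → List Bool → ℝ≥0∞} {A : Set (List Bool)} {e : ι' → ℝ≥0∞} :
    ∀ (rs : List (List Bool)) (i : ℕ) (g : List Bool), rs ≠ [] → rs.getLastD [] ∈ A → IncL W n Φ rs i g e →
      IncL W n (rsL A Φ) rs i g e := by
  intro rs
  induction rs with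
  | nil => intro i g h _ _; exact absurd rfl h
  | cons x rs ih =>
    rintro i g - h2 ⟨i', h3, h4, h5, h6⟩
    refine ⟨i', h3, h4, h5, ?_⟩
    rcases rs with _ | ⟨y, rs⟩
    · have h7 : x ∈ A := h2
      intro c
      refine (h6 c).trans (le_of_eq ?_)
      unfold rsL
      rw [if_pos h7]
    · exact ih i' x (List.cons_ne_nil _ _) h2 h6

lemma TR_nilL {Φ : ℕ → ι' → List Bool → ℝ≥0∞} (hW : Wnd kc J n W kp) (M i : ℕ) (g : List Bool)
    (rs : List (List Bool)) (e : ι' → ℝ≥0∞) (b : ι') (hg : g ∈ HB (2 ^ (kp i + 4))) (h0 : rs ≠ [])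
    (h1 : rs.length ≤ M) (h2 : (g :: rs).IsChain LFold) (h3 : IncL W n Φ rs i g e) :
    SDN.wl rs * e b ≤ Rp2 W kp n Φ M i (rs, b) g := by
  cases rs with
  | nil => exact absurd rfl h0
  | cons x xs =>
    refine (TR_leL (Φ := Φ) hW M i g (x :: xs) e b hg h1 h2 h3).trans (le_of_eq ?_)
    unfold Gl Rp2
    rw [nilW_cons, zero_add]

lemma rb_PSL (hW : Wnd kc J n W kp) (M : ℕ) (A : Set (List Bool)) (Φ : ℕ → ι' → List Bool → ℝ≥0∞) :
    RBL (2 ^ (kc + 4)) (PSL W n M A Φ) (Rp2 W kp n (rsL A Φ) M 0) := by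
  intro g rs e b hg h1 h2
  exact TR_nilL (Φ := rsL A Φ) hW M 0 g rs e b (by rw [hW.zero]; exact hg) h2.1 h2.2.2.1 h1
    (inc_lastL rs 0 g h2.1 h2.2.1 h2.2.2.2)

end JNT

end HexObs
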