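import Pool.Agent.JNT.OutEvent
import Pool.Agent.JNT.OutSum
import Pool.Agent.JNT.OutFun
import Pool.Agent.EN.ExDir

/-!
JNT: the outer mark with a given label, no hypothesis.
-/

set_option autoImplicit false

namespace HexObs

namespace JNT

open Finset TS SDN SDN.CN NTm NTW NTA EN

open scoped ENNReal

/-- the sums over the chains with the outer mark -/
theorem outChainL {Λ : Type} (lab : List Bool → Λ) : OutChainL lab := by
  classical
  obtain ⟨Ci, δi, hI⟩ := inp_exists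
  obtain ⟨Q, hQ, h⟩ := fun_boundOL lab dmP (ssA hI) ss3P ssDP
  refine ⟨Q, hQ, ?_⟩
  intro ι kc J n W kp R S δ ε x x0 Φ C w0 w1 hW hn hδ hε hx hS hC hR hDom hx0 hD0 hflp hher hRS hLS h0 M
  obtain ⟨g1, g2⟩ := h kc J n W kp R S δ ε x x0 Φ Φ C hC hW hn hδ hε hx hS hDom hDom hx0 hD0 hD0 hflp hher hher hRS hLS M
  have m1 := massAL (rb_PSL hW M S Φ) hR C (Φ 0) M w0 w1 h0
  have m2 := massBL hW (rb_PSL hW M S Φ) hR Set.univ C Φ M w0 w1 h0
  have m3 := massBL hW (rb_PIL hW M Φ) hR S C Φ M w0 w1 h0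
  refine le_trans ?_ (add_le_add ((add_le_add m1 m2).trans g1) (m3.trans g2))
  rw [← ENNReal.tsum_add, ← ENNReal.tsum_add]
  refine ENNReal.tsum_le_tsum fun gs => ?_
  by_cases hc : gs.length ≤ M ∧ gs.IsChain LFold ∧ (TotAL R (PSL W n M S Φ) (Φ 0) gs (w0 gs) (w1 gs) ∨
      TotBL W n R (PSL W n M S Φ) Set.univ Φ gs (w0 gs) (w1 gs) ∨ TotBL W n R (PIL W n M Φ) S Φ gs (w0 gs) (w1 gs))
  · rw [if_pos hc]
    rcases hc.2.2 with h7 | h7 | h7
    · refine le_trans (le_of_eq ?_) (le_self_add.trans le_self_add)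
      rw [if_pos ⟨hc.1, hc.2.1, h7⟩]
      rfl
    · refine le_trans (le_of_eq ?_) (le_add_self.trans le_self_add)
      rw [if_pos ⟨hc.1, hc.2.1, h7⟩]
      rfl
    · refine le_trans (le_of_eq ?_) le_add_self
      rw [if_pos ⟨hc.1, hc.2.1, h7⟩]
      rfl
  · rw [if_neg hc]
    exact zero_le

/-- **the outer mark, a given label, no hypothesis** -/
theorem eventSL_M {Λ : Type} {lab : List Bool → Λ} (hLA : LabA lab) : ∃ (C : ℝ) (k0 : ℕ), 1 ≤ C ∧
    ∀ (kc J : ℕ) (la : Λ) (R : Set (List (List Bool))) (S : Set (List Bool)) (δ ε : ℝ), k0 ≤ kc → 6 ≤ J → 0 < δ →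
      0 < ε → SmRL lab DmJ kc R δ →
      (∀ k1, kc ≤ k1 → k1 ≤ kc + J → SmD DmJ k1 (S ∩ BrR (2 ^ (k1 + 4)) (2 ^ (kc + J + 2))) ε) →
      gf {t | lab t = la ∧ t ∈ ERS kc J R S} ≤
        ENNReal.ofReal (C ^ J * (δ * ε) * Ub (kc + J)) * Xb (kc + J) ^ 2 := eventSL hLA (outChainL lab)

end JNT

end HexObs
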