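import Pool.Agent.JNT.GBL
import Pool.Agent.EN.EspB

/-!
JNT: the literal statements for the pointwise tail (a given label and a large range).
-/

set_option autoImplicit false

namespace HexObs

namespace JNT

open Finset TS SDN NTW NTA EN

open scoped ENNReal

section

variable {Λ : Type} (lab : List Bool → Λ)

/-- the event theorem with an outer mark, three directions, with the label -/
def ExsL : Prop := ∃ (C : ℝ) (k0 : ℕ), 1 ≤ C ∧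
  ∀ (d : Fin 3) (kc J n H m1 : ℕ) (a : Λ) (R : Set (List (List Bool))) (δ δ' ε : ℝ),
  k0 ≤ kc → 6 ≤ J → 0 < δ → 0 < δ' → 0 < ε → (∀ ms ∈ R, ms.length ≤ m1) → SmRL lab DmJ kc R δ →
  SmRL lab DmJ kc {ms | ms ∈ R ∧ ∃ g ∈ ms, 2 ^ H ≤ hgt g ∧ g.length ≤ n} δ' →
  (∀ k1, kc ≤ k1 → k1 ≤ kc + J + 8 →
    SmD DmJ k1 {g | g ∈ BrR (2 ^ (k1 + 4)) (2 ^ (kc + J + 10)) ∧ 2 ^ H ≤ hgt g ∧ g.length ≤ n} ε) →
  gf {t | lab t = a ∧ t.length ≤ n ∧ t ∈ WL (kc + J) ∧ HR d kc R t ∧ ∃ i j, i ≤ t.length ∧ j ≤ t.length ∧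
    6 * ((m1 : ℤ) + 3) * 2 ^ H ≤ lv3 d (vx oo up t i) - lv3 d (vx oo up t j)} ≤
    ENNReal.ofReal (C ^ J * (δ * ε + δ') * Ub (kc + J)) * Xb (kc + J) ^ 2

/-- the weight of the words with the label a, exactly n letters, out of the box 2 ^ (k + i); w k = m k * 4 ^ k -/
def OutL (m w : ℕ → ℝ) : Prop := ∃ (A : ℝ) (c9 i0 : ℕ), 1 ≤ A ∧ ∀ (k i n : ℕ) (a : Λ), i0 ≤ i → 3 * i + i0 ≤ k →
  m k ≤ n → (n : ℝ) < m (k + 1) →
  gf {t | lab t = a ∧ t ∈ SawN n ∧ t ∉ WL (k + i)} ≤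
    ENNReal.ofReal (A * (1 / 2) ^ (2 ^ (4 * i - c9)) * (Ub k / w k)) * Xb k ^ 2

end

end JNT

end HexObs
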