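import Pool.Agent.JNT.Dir
import Pool.Agent.JNT.LocDefs
import Pool.Agent.EN.OutX

/-!
JNT (pointwise tail, row X3): runs of small labelled norm and a large range, a given label, three directions (helper69).
-/

set_option autoImplicit false

namespace HexObs

namespace JNT

open Finset TS SDN NTW NTA EN NTW.DirA

open scoped ENNReal

/-- the outer mark, a given label (output of the row X2) -/
def EvSL {Λ : Type} (lab : List Bool → Λ) : Prop := ∃ (C : ℝ) (k0 : ℕ), 1 ≤ C ∧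
    ∀ (kc J : ℕ) (a : Λ) (R : Set (List (List Bool))) (S : Set (List Bool)) (δ ε : ℝ), k0 ≤ kc → 6 ≤ J → 0 < δ →
      0 < ε → SmRL lab DmJ kc R δ →
      (∀ k1, kc ≤ k1 → k1 ≤ kc + J → SmD DmJ k1 (S ∩ BrR (2 ^ (k1 + 4)) (2 ^ (kc + J + 2))) ε) →
      gf {t | lab t = a ∧ t ∈ ERS kc J R S} ≤
        ENNReal.ofReal (C ^ J * (δ * ε) * Ub (kc + J)) * Xb (kc + J) ^ 2

variable {Λ : Type} {lab : List Bool → Λ}

lemma WL_up {K K' : ℕ} (hK : K ≤ K') {t : List Bool} (ht : t ∈ WL K) : t ∈ WL K' :=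
  ⟨ht.1, fun i hi dir => (ht.2 i hi dir).trans (pow_le_pow_right₀ (by norm_num) hK)⟩

/-- the event theorem for runs in the form ERM, a given label -/
theorem runLm (hE : EventRL lab DmJ) : ∃ (C : ℝ) (k0 : ℕ), 1 ≤ C ∧
    ∀ (kc J : ℕ) (a : Λ) (R : Set (List (List Bool))) (δ : ℝ), k0 ≤ kc → 6 ≤ J → 0 < δ → SmRL lab DmJ kc R δ →
    gf {t | lab t = a ∧ t ∈ ERM kc (kc + J) R} ≤ ENNReal.ofReal (C ^ J * δ * Ub (kc + J)) * Xb (kc + J) ^ 2 := by
  obtain ⟨C0, k0, hC0, h0⟩ := hE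
  obtain ⟨D, hD, hDX⟩ := Xb_pow
  have hC0' : 0 ≤ C0 := by linarith
  have hD0 : 0 ≤ D := by linarith
  refine ⟨C0 * D ^ 16, k0, ?_, fun kc J a R δ hk hJ hδ hS => ?_⟩
  · have : 1 ≤ D ^ 16 := one_le_pow₀ hD
    nlinarith
  · have hUp := Ub_pos (kc + J)
    obtain ⟨lam', hQ⟩ := QL_exists (kc + J + 8)
    have h1 : gf {t | lab t = a ∧ t ∈ ERM kc (kc + J) R} ≤
        ENNReal.ofReal (C0 ^ J * δ * Ub (kc + J)) * (Xb (kc + J + 8)) ^ 2 := by
      refine gf_le_of_mono_union (fun lam => {t | lab t = a ∧ t ∈ SAL lam ∧ t ∈ ERM kc (kc + J) R}) ?_ ?_ fun lam =>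
        ((gf_mono fun t ht => ?_).trans (h0 kc J lam lam' a R δ hk hJ hδ hQ hS)).trans ?_
      · intro lam lam2 hl t ht
        exact ⟨ht.1, ⟨ht.2.1.1, ht.2.1.2.trans hl⟩, ht.2.2⟩
      · intro t ht
        rw [Set.mem_iUnion]
        exact ⟨t.length, ht.1, ⟨ht.2.1.1, le_rfl⟩, ht.2⟩
      · exact ⟨ht.1, ht.2.1, RD.erm_sub ht.2.2⟩
      · exact mul_le_mul_right (pow_le_pow_left' (bl_le_Xb _ _) 2) _
    refine h1.trans ?_
    calc ENNReal.ofReal (C0 ^ J * δ * Ub (kc + J)) * (Xb (kc + J + 8)) ^ 2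
        ≤ ENNReal.ofReal (C0 ^ J * δ * Ub (kc + J)) * (ENNReal.ofReal (D ^ 8) * Xb (kc + J)) ^ 2 := by
          exact mul_le_mul_right (pow_le_pow_left' (hDX (kc + J) 8) 2) _
      _ = ENNReal.ofReal (C0 ^ J * D ^ 16 * δ * Ub (kc + J)) * Xb (kc + J) ^ 2 := by
          rw [mul_pow, ← ENNReal.ofReal_pow (by positivity), ← mul_assoc, ← ENNReal.ofReal_mul (by positivity)]
          congr 2
          ring
      _ ≤ _ := by
          refine mul_le_mul_left (ENNReal.ofReal_le_ofReal ?_) _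
          have e1 : D ^ 16 ≤ (D ^ 16) ^ J := by
            calc D ^ 16 = (D ^ 16) ^ 1 := by rw [pow_one]
              _ ≤ (D ^ 16) ^ J := pow_le_pow_right₀ (one_le_pow₀ hD) (by omega)
          rw [mul_pow]
          gcongr

open EN.OS in
/-- **runs of small labelled norm and a large range, three directions, a given label** -/
theorem exsL_of (hR : LabR lab) (hW : LabW lab) (hE : EventRL lab DmJ) (hES : EvSL lab) : ExsL lab := by
  have hG : OutGeoP := out_geoP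
  obtain ⟨C1, k1, hC1, h1⟩ := runLm hE
  obtain ⟨C2, k2, hC2, h2⟩ := hES
  obtain ⟨D, hD, hDX⟩ := Xb_pow
  have hCD := DirA.CD_ge
  obtain ⟨C0, hC0⟩ : ∃ C0, C0 = max C1 C2 := ⟨_, rfl⟩
  have hC01 : 1 ≤ C0 := by rw [hC0]; exact hC1.trans (le_max_left _ _)
  have hC0p : 0 ≤ C0 := by linarith
  have hC1p : 0 ≤ C1 := by linarith
  have hC2p : 0 ≤ C2 := by linarith
  have hD0 : 0 ≤ D := by linarith
  obtain ⟨A, hA⟩ : ∃ A, A = 2 * DirA.CD * (C0 ^ 8 * 256 * D ^ 16) := ⟨_, rfl⟩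
  have hA1 : 1 ≤ A := by
    rw [hA]
    have e1 : 1 ≤ C0 ^ 8 := one_le_pow₀ hC01
    have e2 : 1 ≤ D ^ 16 := one_le_pow₀ hD
    have e3 : 1 ≤ C0 ^ 8 * 256 * D ^ 16 := by nlinarith
    nlinarith
  refine ⟨C0 * A, max k1 k2, by nlinarith, ?_⟩
  intro d kc J n H m1 a R δ δ' ε hk hJ hδ hδ' hε hm hS hS' hSS
  have hk1 : k1 ≤ kc := (le_max_left _ _).trans hk
  have hk2 : k2 ≤ kc := (le_max_right _ _).trans hk
  have hU := Ub_pos (kc + J)
  have hU5 := Ub_pos (kc + (J + 8))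
  obtain ⟨c, hc⟩ : ∃ c, c = ENNReal.ofReal (C0 ^ (J + 8) * (δ * ε + δ') * Ub (kc + (J + 8))) * Xb (kc + (J + 8)) ^ 2 :=
    ⟨_, rfl⟩
  have hmain := dir3L hR hW d a c
    {t | t ∈ WL (kc + J) ∧ HR d kc R t ∧ t.length ≤ n ∧
      ∃ i j, i ≤ t.length ∧ j ≤ t.length ∧ 6 * ((m1 : ℤ) + 3) * 2 ^ H ≤ lv3 d (vx oo up t i) - lv3 d (vx oo up t j)}
    {s | s.length ≤ n ∧ s ∈ ERM kc (kc + (J + 8)) R ∧ ∃ i j, i ≤ s.length ∧ j ≤ s.length ∧
      6 * ((m1 : ℤ) + 2) * 2 ^ H ≤ lev s i - lev s j} ?_ ?_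
  · have hsub : {t | lab t = a ∧ t.length ≤ n ∧ t ∈ WL (kc + J) ∧ HR d kc R t ∧ ∃ i j, i ≤ t.length ∧ j ≤ t.length ∧ 6 * ((m1 : ℤ) + 3) * 2 ^ H ≤ lv3 d (vx oo up t i) - lv3 d (vx oo up t j)} ⊆
        {t | t ∈ SA ∧ lab t = a ∧ t ∈ {t | t ∈ WL (kc + J) ∧ HR d kc R t ∧ t.length ≤ n ∧
          ∃ i j, i ≤ t.length ∧ j ≤ t.length ∧ 6 * ((m1 : ℤ) + 3) * 2 ^ H ≤ lv3 d (vx oo up t i) - lv3 d (vx oo up t j)}} :=
      fun t ht => ⟨ht.2.2.1.1, ht.1, ht.2.2.1, ht.2.2.2.1, ht.2.1, ht.2.2.2.2⟩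
    refine (gf_mono hsub).trans (hmain.trans ?_)
    rw [hc]
    have hUb : Ub (kc + (J + 8)) ≤ 256 * Ub (kc + J) := by
      have := Sc.Ub_shift (kc + J) 8
      rw [show kc + (J + 8) = kc + J + 8 by ring]
      have h4 : ((2 : ℝ) ^ 8) = 256 := by norm_num
      rwa [h4] at this
    calc ENNReal.ofReal (2 * DirA.CD) * (ENNReal.ofReal (C0 ^ (J + 8) * (δ * ε + δ') * Ub (kc + (J + 8))) *
          Xb (kc + (J + 8)) ^ 2)
        ≤ ENNReal.ofReal (2 * DirA.CD) * (ENNReal.ofReal (C0 ^ (J + 8) * (δ * ε + δ') * (256 * Ub (kc + J))) *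
          (ENNReal.ofReal (D ^ 8) * Xb (kc + J)) ^ 2) := by
          refine mul_le_mul_right (mul_le_mul' (ENNReal.ofReal_le_ofReal ?_) (pow_le_pow_left' ?_ 2)) _
          · exact mul_le_mul_of_nonneg_left hUb (by positivity)
          · have := hDX (kc + J) 8
            rwa [show kc + J + 8 = kc + (J + 8) by ring] at this
      _ = ENNReal.ofReal (C0 ^ J * A * (δ * ε + δ') * Ub (kc + J)) * Xb (kc + J) ^ 2 := by
          rw [mul_pow, ← ENNReal.ofReal_pow (by positivity), ← mul_assoc, ← mul_assoc, ← ENNReal.ofReal_mul (by positivity),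
            ← ENNReal.ofReal_mul (by positivity), hA]
          congr 2
          ring
      _ ≤ _ := by
          refine mul_le_mul_left (ENNReal.ofReal_le_ofReal ?_) _
          have e1 : A ≤ A ^ J := by
            calc A = A ^ 1 := by rw [pow_one]
              _ ≤ A ^ J := pow_le_pow_right₀ hA1 (by omega)
          rw [mul_pow]
          gcongr
  · intro a'
    have hset : ∀ k1, kc ≤ k1 → k1 ≤ kc + (J + 8) →
        SmD DmJ k1 ({g | 2 ^ H ≤ hgt g ∧ g.length ≤ n} ∩ BrR (2 ^ (k1 + 4)) (2 ^ (kc + (J + 8) + 2))) ε := by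
      intro k1 hk1 hk1'
      have h3 := hSS k1 hk1 (by omega)
      have e1 : {g | 2 ^ H ≤ hgt g ∧ g.length ≤ n} ∩ BrR (2 ^ (k1 + 4)) (2 ^ (kc + (J + 8) + 2)) =
          {g | g ∈ BrR (2 ^ (k1 + 4)) (2 ^ (kc + J + 10)) ∧ 2 ^ H ≤ hgt g ∧ g.length ≤ n} := by
        rw [show kc + (J + 8) + 2 = kc + J + 10 by ring]
        ext g
        exact ⟨fun h => ⟨h.2, h.1⟩, fun h => ⟨h.2, h.1⟩⟩
      rw [e1]
      exact h3
    have hsub : {s | s ∈ SA ∧ lab s = a' ∧ s ∈ {s | s.length ≤ n ∧ s ∈ ERM kc (kc + (J + 8)) R ∧ ∃ i j, i ≤ s.length ∧ j ≤ s.length ∧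
        6 * ((m1 : ℤ) + 2) * 2 ^ H ≤ lev s i - lev s j}} ⊆
        {t | lab t = a' ∧ t ∈ ERM kc (kc + (J + 8)) {ms | ms ∈ R ∧ ∃ g ∈ ms, 2 ^ H ≤ hgt g ∧ g.length ≤ n}} ∪
        {t | lab t = a' ∧ t ∈ ERS kc (J + 8) R {g | 2 ^ H ≤ hgt g ∧ g.length ≤ n}} := by
      rintro s ⟨-, s2, s5, s3, s4⟩
      rcases hG kc (J + 8) n H m1 R s hm s5 s3 s4 with h3 | h3
      · exact Or.inl ⟨s2, h3⟩
      · exact Or.inr ⟨s2, h3⟩
    refine (gf_mono hsub).trans ((gf_union_le _ _).trans ((add_le_add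
      (h1 kc (J + 8) a' _ δ' hk1 (by omega) hδ' hS')
      (h2 kc (J + 8) a' R _ δ ε hk2 (by omega) hδ hε hS hset)).trans ?_))
    rw [hc, ← add_mul, ← ENNReal.ofReal_add (by positivity) (by positivity)]
    refine mul_le_mul_left (ENNReal.ofReal_le_ofReal ?_) _
    have e1 : C1 ^ (J + 8) ≤ C0 ^ (J + 8) := pow_le_pow_left₀ hC1p (by rw [hC0]; exact le_max_left _ _) _
    have e2 : C2 ^ (J + 8) ≤ C0 ^ (J + 8) := pow_le_pow_left₀ hC2p (by rw [hC0]; exact le_max_right _ _) _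
    calc C1 ^ (J + 8) * δ' * Ub (kc + (J + 8)) + C2 ^ (J + 8) * (δ * ε) * Ub (kc + (J + 8))
        ≤ C0 ^ (J + 8) * δ' * Ub (kc + (J + 8)) + C0 ^ (J + 8) * (δ * ε) * Ub (kc + (J + 8)) := by gcongr
      _ = _ := by ring
  · rintro q t sg ht hq hsg g1 g2 g3 ⟨hW, hH, hn, i, j, hi, hj, hij⟩
    have hW' := WL_up (by omega) (g3 (kc + J) hW) (K' := kc + (J + 8))
    have hlen : ((wd d t).drop q).length = t.length - q := by rw [List.length_drop, wd_length]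
    refine ⟨by rw [hlen]; omega, run_tail hH hq hsg g1 g2 hW', ?_⟩
    have hp : ∀ x, x ≤ t.length → ∃ y, y ≤ t.length - q ∧
        |lv3 d (vx oo up t x) - (lv3 d (vx oo up t q) + sg * lev ((wd d t).drop q) y)| ≤ 2 := by
      intro x hx
      rcases le_total x q with hc | hc
      · refine ⟨0, Nat.zero_le _, ?_⟩
        have e0 : lev ((wd d t).drop q) 0 = 0 := by
          show lvl false oo = 0
          decide
        rw [e0, mul_zero, add_zero]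
        exact g1 x hc
      · refine ⟨x - q, by omega, ?_⟩
        have e1 := g2 (x - q) (by omega)
        rw [show q + (x - q) = x by omega] at e1
        have e2 : lvl false (vx oo up ((wd d t).drop q) (x - q)) = lev ((wd d t).drop q) (x - q) := rfl
        rw [e2] at e1
        rw [← e1, show lv3 d (vx oo up t x) - (lv3 d (vx oo up t q) + (lv3 d (vx oo up t x) - lv3 d (vx oo up t q))) = 0 by
          ring]
        norm_num
    obtain ⟨i', hi', hi2⟩ := hp i hi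
    obtain ⟨j', hj', hj2⟩ := hp j hj
    have hpw : (1 : ℤ) ≤ 2 ^ H := one_le_pow₀ (by norm_num)
    rw [abs_le] at hi2 hj2
    have h6 : 6 * ((m1 : ℤ) + 3) * 2 ^ H = 6 * ((m1 : ℤ) + 2) * 2 ^ H + 6 * 2 ^ H := by ring
    rcases hsg with rfl | rfl
    · refine ⟨i', j', by rw [hlen]; exact hi', by rw [hlen]; exact hj', ?_⟩
      linarith [hi2.1, hi2.2, hj2.1, hj2.2]
    · refine ⟨j', i', by rw [hlen]; exact hj', by rw [hlen]; exact hi', ?_⟩
      linarith [hi2.1, hi2.2, hj2.1, hj2.2]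

end JNT

end HexObs
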