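import Pool.Agent.JNT.EndM
import Pool.Agent.JNT.JoBM
import Pool.Agent.JNT.OutExS
import Pool.Agent.JNT.OutEventM

/-!
JNT: the pointwise bound of the law of the end point of the walks with n letters, every n, no hypothesis.
-/

set_option autoImplicit false

namespace HexObs

namespace JNT

open Finset TS SDN NTW NTA EN

open scoped ENNReal

/-- **the labelled norm of one leaf of a run, number of letters and displacement, no hypothesis** -/
theorem gbmL_Z : ∃ J0 : ℕ, GBmL labN (w4 mM) J0 := gbmL_M joB_M

/-- **the tail of the infixes with a given number of letters and a given end point, no hypothesis** -/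
theorem extL_Z : EXTL labN mM (w4 mM) := extL_N joB_M

/-- **the event theorem with an outer mark and a given number of letters and a given end point** -/
theorem exsL_Z : ExsL labN := exsL_of labR_N labW_N eventRL_N (eventSL_M labA_N)

/-- the same, a given displacement -/
theorem exsL_E : ExsL labE := exsL_of labR_E labW_E eventRL_E (eventSL_M labA_E)

/-- **the pointwise bound of the law of the end point, every n, no hypothesis** -/
theorem endX_Z : ∃ (C : ℝ) (k0 : ℕ), 0 < C ∧ ∀ k n : ℕ, k0 ≤ k → mM k ≤ n →
    (n : ℝ) < mM (k + 1) → ∀ x : Pt, gf {t | t ∈ SawN n ∧ vx oo up t n = x} ≤ ENNReal.ofReal (C / 4 ^ k) * nuX mM k :=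
  endX_N joB_M exsL_Z

end JNT

end HexObs
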