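import Pool.Agent.EN.ExStep

/-!
JNT: the tall leaves of an upper scale kc' seen from the scale kc: change of the base scale for the clean leaves and for all tall
leaves.
-/

set_option autoImplicit false

namespace HexObs

namespace JNT

open Finset TS SDN NTW NTA EN NTm

open scoped ENNReal

lemma flp_up {D D' : ℕ} (h : D ≤ D') {Ψ : List Bool → ℝ≥0∞} (hf : Flp D Ψ) : Flp D' Ψ :=
  fun s t c h1 h2 => hf s t c (HB_anti h h1) (HB_anti h h2)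

/-- the structure DX at an upper scale -/
theorem base_dx : ∃ K : ℝ, 1 ≤ K ∧ ∀ (kc kc' : ℕ), kc ≤ kc' → ∀ (x : ℝ≥0∞) (Φ : List Bool → ℝ≥0∞), DmJ kc x Φ →
    DX K K (2 ^ (kc' + 4)) Φ x := by
  obtain ⟨C, δ, h⟩ := inp_exists
  obtain ⟨K1, hK1, h1⟩ := totD_of (ssA h)
  obtain ⟨K2, hK2, h2⟩ := nextD_of h (ssA h) (ssThree h)
  refine ⟨K1 + K2, by linarith, fun kc kc' hk x Φ hΦ => ?_⟩
  have h3 : 2 ^ (kc + 4) ≤ 2 ^ (kc' + 4) := Nat.pow_le_pow_right (by norm_num) (by omega)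
  have h4 : DX K1 K2 (2 ^ (kc' + 4)) Φ x := by
    refine ⟨herD_up h3 hΦ.1, fun N => h1 (2 ^ (kc' + 4)) N kc x Φ hΦ.dom (Nat.pow_le_pow_right (by norm_num) (by omega)),
      fun i E N a1 a2 a3 => ?_⟩
    exact h2 (2 ^ (i + 4)) i kc E N x Φ hΦ.dom le_rfl (a1.trans a2) (h3.trans a2) a3
  exact h4.le (by linarith) (by linarith)

/-- the structure QX at an upper scale -/
theorem base_qx : ∃ K : ℝ, 1 ≤ K ∧ ∀ (kc kc' : ℕ), kc ≤ kc' → ∀ (y : ℝ≥0∞) (Ψ : List Bool → ℝ≥0∞), DmJ kc y Ψ →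
    Flp (2 ^ (kc + 4)) Ψ → GX.QX K (2 ^ (kc' + 4)) (fun g => Ψ (rev g)) y := by
  obtain ⟨C, δ, h⟩ := inp_exists
  obtain ⟨K, hK, h1⟩ := qx_of h (ssA h) (ssBoth h)
  refine ⟨K, hK, fun kc kc' hk y Ψ hΨ hf => ?_⟩
  have h3 : 2 ^ (kc + 4) ≤ 2 ^ (kc' + 4) := Nat.pow_le_pow_right (by norm_num) (by omega)
  exact h1 kc (2 ^ (kc' + 4)) y Ψ hΨ.dom (flp_up h3 hf) h3

/-- **the clean leaves of an upper scale**: as a class at the scale kc, and behind a leaf of a lower scale i -/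
theorem gu_base : ∃ (K : ℝ) (s : ℕ), 1 ≤ K ∧ ∀ (kc kc' J b n : ℕ), kc ≤ kc' → b + 5 ≤ kc' → b + s ≤ kc' →
    n * 2 ^ (b + s) ≤ 2 ^ kc' → 2 ≤ J → SmD DmJ kc (GU b kc' (2 ^ (kc' + J))) (K * 8 ^ J / 4 ^ n * (Ub kc' / Ub kc)) ∧
    ∀ i ≤ kc, ∀ (x : ℝ≥0∞) (Φ : List Bool → ℝ≥0∞), DmJ kc x Φ →
      xT (2 ^ (i + 4)) i (vA (2 ^ (i + 4)) (GU b kc' (2 ^ (kc' + J))) Φ) ≤
        ENNReal.ofReal (K * 8 ^ J / 4 ^ n * (Ub kc' / Ub i)) * x := by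
  obtain ⟨Kg, hKg, hg⟩ := GU_low
  obtain ⟨Kn, hKn, hn⟩ := GX.norm_GU
  obtain ⟨Kx, hKx, hx⟩ := base_dx
  obtain ⟨Kq, hKq, hq⟩ := base_qx
  obtain ⟨K, hK⟩ : ∃ K, K = Kg + Kn + Kx + Kq := ⟨_, rfl⟩
  obtain ⟨s1, hs1, hg⟩ := hg K (by linarith)
  obtain ⟨s2, hs2, hn⟩ := hn K (by linarith)
  refine ⟨K + K, s1 + s2, by linarith, fun kc kc' J b n hk hb hbs hnn hJ => ?_⟩
  have hU := Ub_pos kc
  have hn1 : n * 2 ^ (b + s1) ≤ 2 ^ kc' := le_trans (Nat.mul_le_mul_left _ (Nat.pow_le_pow_right (by norm_num) (by omega))) hnn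
  have hn2 : n * 2 ^ (b + s2) ≤ 2 ^ kc' := le_trans (Nat.mul_le_mul_left _ (Nat.pow_le_pow_right (by norm_num) (by omega))) hnn
  have hnear : ∀ i ≤ kc, ∀ (x : ℝ≥0∞) (Φ : List Bool → ℝ≥0∞), DmJ kc x Φ →
      xT (2 ^ (i + 4)) i (vA (2 ^ (i + 4)) (GU b kc' (2 ^ (kc' + J))) Φ) ≤
        ENNReal.ofReal ((K + K) * 8 ^ J / 4 ^ n * (Ub kc' / Ub i)) * x := by
    intro i hi x Φ hΦ
    exact hg i kc' J n b Φ x ((hx kc kc' hk x Φ hΦ).le (by linarith) (by linarith)) (hi.trans hk) hb hn1 (by omega) hJ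
  refine ⟨⟨fun x Φ hΦ => hnear kc le_rfl x Φ hΦ, fun y x Ψ Φ hΨ hf hΦ => ?_⟩, hnear⟩
  have h1 := (hn kc' J n b Φ (fun g => Ψ (rev g)) x y ((hx kc kc' hk x Φ hΦ).le (by linarith) (by linarith))
    (QX_le (hq kc kc' hk y Ψ hΨ hf) (by linarith)) hb hn2 (by omega) hJ).2
  refine h1.trans (le_of_eq ?_)
  congr 2
  rw [mul_assoc ((K + K) * 8 ^ J / 4 ^ n), div_mul_cancel₀ _ hU.ne']

/-- **all tall leaves of an upper scale** -/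
theorem ak_base : ∃ K : ℝ, 1 ≤ K ∧ ∀ (kc kc' : ℕ), kc ≤ kc' → SmD DmJ kc (Ak kc') (K * 2 ^ (kc' - kc)) ∧
    ∀ i ≤ kc, ∀ (x : ℝ≥0∞) (Φ : List Bool → ℝ≥0∞), DmJ kc x Φ →
      xT (2 ^ (i + 4)) i (vA (2 ^ (i + 4)) (Ak kc') Φ) ≤ ENNReal.ofReal (K * 2 ^ (kc' - i)) * x := by
  obtain ⟨C, δ, h⟩ := inp_exists
  obtain ⟨K1, hK1, h1⟩ := base_dx
  obtain ⟨K2, hK2, h2⟩ := DmJ_pair (ssA h) (ssBoth h)
  refine ⟨256 * (K1 + K2), by linarith, fun kc kc' hk => ?_⟩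
  have hU := Ub_pos kc
  have hrat : ∀ i ≤ kc', ∀ K0 : ℝ, 0 ≤ K0 → K0 ≤ K1 + K2 → K0 * (UU (2 ^ (kc' + 8)) / Ub i) ≤
      256 * (K1 + K2) * 2 ^ (kc' - i) := by
    intro i hi K0 h0 h00
    have hUi := Ub_pos i
    have h3 : UU (2 ^ (kc' + 8)) ≤ 256 * (2 ^ (kc' - i) * Ub i) :=
      (LQ.UU8 kc').trans (mul_le_mul_of_nonneg_left (Fl.Ub_ratio hi) (by norm_num))
    have h4 : UU (2 ^ (kc' + 8)) / Ub i ≤ 256 * 2 ^ (kc' - i) := by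
      rw [div_le_iff₀ hUi]
      linarith
    calc K0 * (UU (2 ^ (kc' + 8)) / Ub i) ≤ (K1 + K2) * (256 * 2 ^ (kc' - i)) :=
          mul_le_mul h00 h4 (div_nonneg (Num2Aux.UU_pos _).le hUi.le) (by linarith)
      _ = _ := by ring
  have hnear : ∀ i ≤ kc, ∀ (x : ℝ≥0∞) (Φ : List Bool → ℝ≥0∞), DmJ kc x Φ →
      xT (2 ^ (i + 4)) i (vA (2 ^ (i + 4)) (Ak kc') Φ) ≤ ENNReal.ofReal (256 * (K1 + K2) * 2 ^ (kc' - i)) * x := by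
    intro i hi x Φ hΦ
    refine ((h1 kc kc' hk x Φ hΦ).two i (2 ^ (kc' + 4)) (2 ^ (kc' + 8)) (Nat.pow_le_pow_right (by norm_num) (by omega)) le_rfl
      (Nat.pow_le_pow_right (by norm_num) (by omega))).trans (mul_le_mul_left (ENNReal.ofReal_le_ofReal ?_) _)
    exact hrat i (hi.trans hk) K1 (by linarith) (by linarith)
  refine ⟨⟨fun x Φ hΦ => hnear kc le_rfl x Φ hΦ, fun y x Ψ Φ hΨ hf hΦ => ?_⟩, hnear⟩
  have hsub : Ak kc' ⊆ BrR (2 ^ (kc + 4)) (2 ^ (kc' + 8)) := by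
    rintro g ⟨u, u1, u2, u3⟩
    have : 2 ^ (kc + 4) ≤ 2 ^ (kc' + 4) := Nat.pow_le_pow_right (by norm_num) (by omega)
    exact ⟨u, by omega, u2, u3⟩
  refine (Rec8.sw_mono hsub fun _ _ => le_rfl).trans ((h2 kc x y Ψ Φ hΨ hΦ (2 ^ (kc' + 8))).trans
    (mul_le_mul_left (ENNReal.ofReal_le_ofReal ?_) _))
  have h5 := hrat kc hk K2 (by linarith) (by linarith)
  calc K2 * UU (2 ^ (kc' + 8)) = K2 * (UU (2 ^ (kc' + 8)) / Ub kc) * Ub kc := by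
        rw [mul_assoc, div_mul_cancel₀ _ hU.ne']
    _ ≤ _ := mul_le_mul_of_nonneg_right h5 hU.le

/-- the fold of a zig-zag without backtracks of the scale b is lower than 2 ^ b -/
lemma zig_low {b u d : ℕ} {s l r : List Bool} (hs : s ∈ Brd u) (hu : 1 ≤ u) (hl : l ∈ Brd d) (hd : 1 ≤ d)
    (h : unf [s, l, r] ∈ CL b) : d < 2 ^ b := by
  obtain ⟨l1, l2⟩ := unf_step_lev (r := unf [l, r]) hs hu
  obtain ⟨e1, e2, e3⟩ := unf_step (r := unf [l, r]) hs hu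
  obtain ⟨m1, m2⟩ := unf_step_lev (r := unf [r]) hl hd
  obtain ⟨f1, f2, f3⟩ := unf_step (r := unf [r]) hl hd
  have hunf : unf [s, l, r] = s.dropLast ++ (!lst s) :: (!lst s) :: unf [l, r] := rfl
  have hunf2 : unf [l, r] = l.dropLast ++ (!lst l) :: (!lst l) :: unf [r] := rfl
  have h0 := h (s.length + 1 + 0) (s.length + 1 + l.length) (by omega) (by rw [hunf, e1, hunf2, f1]; omega)
  rw [hunf, (l2 0).1, (l2 l.length).1, lev_zero, hunf2, (m1 _ le_rfl).1, (mem_Brd.1 hl).2.2.2] at h0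
  unfold RR at h0
  have h1 : (d : ℤ) < ((2 ^ b : ℕ) : ℤ) := by
    push_cast
    linarith
  exact_mod_cast h1

end JNT

end HexObs
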