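import Pool.Agent.JNT.Rel
import Pool.Agent.EN.ExFun

/-!
JNT: right and left continuations of runs in relation form: the index of a continuation on the right is the list of its pieces
together with the index of the end, the index on the left is the index of the end together with the list of the pieces.
-/

set_option autoImplicit false

namespace HexObs

namespace JNT

open Finset TS SDN SDN.CN NTm NTW NTA EN

open scoped ENNReal

/-- the weight c for the empty list -/
def nilW {α : Type} (xs : List α) (c : ℝ≥0∞) : ℝ≥0∞ :=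
  match xs with
  | [] => c
  | _ :: _ => 0

lemma nilW_nil {α : Type} (c : ℝ≥0∞) : nilW ([] : List α) c = c := rfl

lemma nilW_cons {α : Type} (x : α) (xs : List α) (c : ℝ≥0∞) : nilW (x :: xs) c = 0 := rfl

lemma tsum_nilW {α : Type} (c : ℝ≥0∞) : ∑' xs : List α, nilW xs c = c := by
  rw [tsum_eq_single []]
  · rfl
  · intro xs hxs
    cases xs with
    | nil => exact absurd rfl hxs
    | cons x xs => rfl

open Classical in
/-- the weight of the piece x of W behind t -/
noncomputable def hp (D : ℕ) (W : Set (List Bool)) (x t : List Bool) : ℝ≥0∞ := if x ∈ W ∧ RT D LFold t x then wE x else 0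

/-- the right continuations by at least one piece; xs = the pieces, b = the index of the end -/
noncomputable def Rl {ι' : Type} (W : ℕ → Set (List Bool)) (kp : ℕ → ℕ) (n : ℕ) (Φ : ℕ → ι' → List Bool → ℝ≥0∞) :
    ℕ → ℕ → List (List Bool) → ι' → List Bool → ℝ≥0∞
  | 0, _, _, _ => fun _ => 0
  | _ + 1, _, [], _ => fun _ => 0
  | M + 1, i, x :: xs, b => fun t => ∑ i' ∈ Ico i n, hp (2 ^ (kp i + 4)) (W i') x t *
      (nilW xs (Φ i' b x) + Rl W kp n Φ M i' xs b x)

/-- the right continuations by at most M pieces -/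
noncomputable def Gl {ι' : Type} (W : ℕ → Set (List Bool)) (kp : ℕ → ℕ) (n : ℕ) (Φ : ℕ → ι' → List Bool → ℝ≥0∞) (M i : ℕ)
    (p : List (List Bool) × ι') (t : List Bool) : ℝ≥0∞ := nilW p.1 (Φ i p.2 t) + Rl W kp n Φ M i p.1 p.2 t

/-- right parts behind the piece g of the window number i; e = the weights of the ends behind the last piece -/
def IncL {ι' : Type} (W : ℕ → Set (List Bool)) (n : ℕ) (Φ : ℕ → ι' → List Bool → ℝ≥0∞) :
    List (List Bool) → ℕ → List Bool → (ι' → ℝ≥0∞) → Prop
  | [], i, g, e => ∀ b, e b ≤ Φ i b g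
  | x :: xs, i, _, e => ∃ i', i ≤ i' ∧ i' < n ∧ x ∈ W i' ∧ IncL W n Φ xs i' x e

/-- a run in R beginning with g, a right part with at most M pieces -/
def MidL {ι' : Type} (W : ℕ → Set (List Bool)) (n M : ℕ) (R : Set (List (List Bool))) (Φ : ℕ → ι' → List Bool → ℝ≥0∞)
    (g : List Bool) (gs : List (List Bool)) (e : ι' → ℝ≥0∞) : Prop :=
  ∃ ms rs, gs = ms ++ rs ∧ (g :: ms) ∈ R ∧ rs.length ≤ M ∧ IncL W n Φ rs 0 ((g :: ms).getLastD []) e

/-- windows number < i in decreasing order, a run in R, a right part with at most M pieces -/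
def DecL {ι' : Type} (W : ℕ → Set (List Bool)) (n M : ℕ) (R : Set (List (List Bool))) (Φ : ℕ → ι' → List Bool → ℝ≥0∞) :
    List (List Bool) → ℕ → (ι' → ℝ≥0∞) → Prop
  | [], _, _ => False
  | g :: gs, i, e => MidL W n M R Φ g gs e ∨ ∃ i', i' < i ∧ g ∈ W i' ∧ DecL W n M R Φ gs (i' + 1) e

/-- the whole chain; w0 = the weights of the ends before the first piece, w1 = of the ends behind the last piece -/
def TotL {ι ι' : Type} (W : ℕ → Set (List Bool)) (n M : ℕ) (R : Set (List (List Bool))) (P : ℕ → ι → List Bool → ℝ≥0∞)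
    (Φ : ℕ → ι' → List Bool → ℝ≥0∞) : List (List Bool) → (ι → ℝ≥0∞) → (ι' → ℝ≥0∞) → Prop
  | [], _, _ => False
  | g :: gs, w0, w1 => ((∀ a, w0 a ≤ P 0 a (rev g)) ∧ MidL W n M R Φ g gs w1) ∨
      ∃ i, i < n ∧ g ∈ W i ∧ (∀ a, w0 a ≤ P i a (rev g)) ∧ DecL W n M R Φ gs (i + 1) w1

/-- the relation of the run: nothing on its left but the end -/
def C0 {ι ι' : Type} (T : ι → ι' → List (List Bool) → Prop) (a : ι) (p : List (List Bool) × ι') (ms : List (List Bool)) : Prop :=
  T a p.2 (ms ++ p.1)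

/-- the relation of the run: the pieces a.2 on its left -/
def C1 {ι ι' : Type} (T : ι → ι' → List (List Bool) → Prop) (a : ι × List (List Bool)) (p : List (List Bool) × ι')
    (ms : List (List Bool)) : Prop := T a.1 p.2 (a.2 ++ (ms ++ p.1))

/-- the left functional of the run, maximum over the index on the left -/
noncomputable def Gs {ι ι' : Type} (kc : ℕ) (R : Set (List (List Bool))) (F : ι' → List Bool → ℝ≥0∞)
    (C : ι → ι' → List (List Bool) → Prop) (t : List Bool) : ℝ≥0∞ :=
  ⨆ a, vA (2 ^ (kc + 4)) (HB (2 ^ (kc + 4))) (runL R F C a) t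

variable {ι ι' : Type}

lemma rig_C0 {Λ : Type} {lab : List Bool → Λ} {T : ι → ι' → List (List Bool) → Prop} (hT : RigR lab T) : RigR lab (C0 T) := by
  intro a p ls rs g g' h h' hs
  unfold C0 at h h'
  rw [List.append_assoc, List.cons_append] at h h'
  exact hT _ _ _ _ _ _ h h' hs

lemma rig_C1 {Λ : Type} {lab : List Bool → Λ} {T : ι → ι' → List (List Bool) → Prop} (hT : RigR lab T) : RigR lab (C1 T) := by
  intro a p ls rs g g' h h' hs
  unfold C1 at h h'
  rw [List.append_assoc, List.cons_append, ← List.append_assoc] at h h'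
  exact hT _ _ _ _ _ _ h h' hs

/-- the sum over the options -/
lemma tsum_optE {α : Type} (F : Option α → ℝ≥0∞) : ∑' o, F o = F none + ∑' x : α, F (some x) := by
  classical
  rw [ENNReal.tsum_eq_add_tsum_ite (none : Option α)]
  congr 1
  obtain ⟨G, hG⟩ : ∃ G : Option α → ℝ≥0∞, G = fun o => if o = none then 0 else F o := ⟨_, rfl⟩
  have h0 : G none = 0 := by rw [hG]; exact if_pos rfl
  have h1 : ∀ x, G (some x) = F (some x) := fun x => by rw [hG]; exact if_neg (Option.some_ne_none x)
  have h2 : ∑' o, G o = ∑' x : α, G (some x) := by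
    refine ((Option.some_injective α).tsum_eq (f := G) ?_).symm
    intro o ho
    cases o with
    | none => exact absurd h0 ho
    | some x => exact ⟨x, rfl⟩
  simp only [h1] at h2
  rw [hG] at h2
  refine Eq.trans ?_ h2
  refine tsum_congr fun o => ?_
  congr 1

/-- the sum over the lists -/
lemma tsum_listE {α : Type} (f : List α → ℝ≥0∞) : ∑' gs : List α, f gs = f [] + ∑' x : α, ∑' xs : List α, f (x :: xs) := by
  let e : Option (α × List α) ≃ List α :=
    { toFun := fun o => match o with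
        | none => []
        | some p => p.1 :: p.2
      invFun := fun l => match l with
        | [] => none
        | x :: xs => some (x, xs)
      left_inv := by
        rintro (_ | ⟨x, xs⟩) <;> rfl
      right_inv := by
        rintro (_ | ⟨x, xs⟩) <;> rfl }
  rw [← e.tsum_eq, tsum_optE, ← ENNReal.tsum_prod]
  rfl

lemma hp_eq (D : ℕ) (W : Set (List Bool)) (x t : List Bool) : hp D W x t = vA D {g | g ∈ W ∧ g = x} (fun _ => 1) t := by
  classical
  unfold vA
  rw [Rec8.sw_ind, tsum_eq_single x]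
  · unfold hp
    by_cases h : x ∈ W ∧ RT D LFold t x
    · rw [if_pos h, if_pos (show x ∈ {g' | g' ∈ {g | g ∈ W ∧ g = x} ∧ RT D LFold t g'} from ⟨⟨h.1, rfl⟩, h.2⟩), mul_one]
    · rw [if_neg h, if_neg (show x ∉ {g' | g' ∈ {g | g ∈ W ∧ g = x} ∧ RT D LFold t g'} from fun h' => h ⟨h'.1.1, h'.2⟩)]
  · intro y hy
    rw [if_neg]
    exact fun h => hy h.1.2

lemma herD_hp {D : ℕ} (hD : 1 ≤ D) (W : Set (List Bool)) (x : List Bool) : HerD D (hp D W x) := by
  have h : hp D W x = vA D {g | g ∈ W ∧ g = x} (fun _ => 1) := funext fun t => hp_eq D W x t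
  rw [h]
  exact herD_vA hD _ _

/-- the sum over the piece -/
lemma tsum_hp (D : ℕ) (W : Set (List Bool)) (F : List Bool → ℝ≥0∞) (t : List Bool) :
    ∑' x, hp D W x t * F x = vA D W F t := by
  classical
  unfold vA
  rw [Rec8.sw_ind]
  refine tsum_congr fun x => ?_
  unfold hp
  by_cases h : x ∈ W ∧ RT D LFold t x
  · rw [if_pos h, if_pos (show x ∈ {g' | g' ∈ W ∧ RT D LFold t g'} from h)]
  · rw [if_neg h, if_neg (show x ∉ {g' | g' ∈ W ∧ RT D LFold t g'} from h), zero_mul]

variable (W : ℕ → Set (List Bool)) (kp : ℕ → ℕ) (n : ℕ)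

/-- the sum over the index -/
lemma tot_Rl (Φ : ℕ → ι' → List Bool → ℝ≥0∞) (M : ℕ) : ∀ (i : ℕ) (t : List Bool),
    ∑' p : List (List Bool) × ι', Rl W kp n Φ M i p.1 p.2 t = Rx W kp n (fun i t => ∑' b, Φ i b t) M i t := by
  induction M with
  | zero =>
    intro i t
    exact tsum_zero
  | succ M ih =>
    intro i t
    rw [ENNReal.tsum_prod', tsum_listE]
    have h0 : ∑' b : ι', Rl W kp n Φ (M + 1) i [] b t = 0 := tsum_zero
    rw [h0, zero_add]
    have h1 : ∀ x xs, ∑' b : ι', Rl W kp n Φ (M + 1) i (x :: xs) b t =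
        ∑ i' ∈ Ico i n, hp (2 ^ (kp i + 4)) (W i') x t * ∑' b : ι', (nilW xs (Φ i' b x) + Rl W kp n Φ M i' xs b x) := by
      intro x xs
      have h2 : ∀ b : ι', Rl W kp n Φ (M + 1) i (x :: xs) b t = ∑ i' ∈ Ico i n, hp (2 ^ (kp i + 4)) (W i') x t *
        (nilW xs (Φ i' b x) + Rl W kp n Φ M i' xs b x) := fun b => rfl
      simp only [h2]
      rw [Summable.tsum_finsetSum (fun _ _ => ENNReal.summable)]
      exact Finset.sum_congr rfl fun i' _ => ENNReal.tsum_mul_left
    have h3 : ∀ x, ∑' xs, ∑' b : ι', Rl W kp n Φ (M + 1) i (x :: xs) b t =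
        ∑ i' ∈ Ico i n, hp (2 ^ (kp i + 4)) (W i') x t * (∑' b, Φ i' b x + Rx W kp n (fun i t => ∑' b, Φ i b t) M i' x) := by
      intro x
      simp only [h1]
      rw [Summable.tsum_finsetSum (fun _ _ => ENNReal.summable)]
      refine Finset.sum_congr rfl fun i' _ => ?_
      rw [ENNReal.tsum_mul_left]
      congr 1
      rw [← ih i' x, ENNReal.tsum_prod', ENNReal.tsum_comm, ENNReal.tsum_comm (f := fun xs b => Rl W kp n Φ M i' xs b x),
        ← ENNReal.tsum_add]
      refine tsum_congr fun b => ?_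
      rw [ENNReal.tsum_add, tsum_nilW]
    simp only [h3]
    rw [Summable.tsum_finsetSum (fun _ _ => ENNReal.summable)]
    show _ = ∑ i' ∈ Ico i n, vA (2 ^ (kp i + 4)) (W i') (fun s => (fun i t => ∑' b, Φ i b t) i' s +
      Rx W kp n (fun i t => ∑' b, Φ i b t) M i' s) t
    exact Finset.sum_congr rfl fun i' _ => tsum_hp _ _ _ _

lemma herD_Rl (Φ : ℕ → ι' → List Bool → ℝ≥0∞) (M i : ℕ) (xs : List (List Bool)) (b : ι') :
    HerD (2 ^ (kp i + 4)) (Rl W kp n Φ M i xs b) := by
  cases M with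
  | zero =>
    exact ⟨fun _ _ _ => le_rfl, fun _ _ _ _ => le_rfl⟩
  | succ M =>
    cases xs with
    | nil => exact ⟨fun _ _ _ => le_rfl, fun _ _ _ _ => le_rfl⟩
    | cons x xs =>
      exact ⟨fun s hs t => Finset.sum_le_sum fun i' _ => mul_le_mul_left ((herD_hp Nat.one_le_two_pow (W i') x).her s hs t) _,
        fun s t h1 h2 => Finset.sum_le_sum fun i' _ =>
          mul_le_mul_left ((herD_hp Nat.one_le_two_pow (W i') x).suf s t h1 h2) _⟩

open Classical in
lemma runL_add (R : Set (List (List Bool))) (F G : ι' → List Bool → ℝ≥0∞) (C : ι → ι' → List (List Bool) → Prop) (a : ι)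
    (g : List Bool) : runL R (fun b t => F b t + G b t) C a g = runL R F C a g + runL R G C a g := by
  unfold runL
  rw [← ENNReal.tsum_add]
  refine tsum_congr fun ms => ?_
  by_cases h : (g :: ms) ∈ R ∧ (g :: ms).IsChain LFold
  · rw [if_pos h, if_pos h, if_pos h, ← mul_add, ← ENNReal.tsum_add]
    congr 1
    refine tsum_congr fun b => ?_
    by_cases h2 : C a b (g :: ms)
    · rw [if_pos h2, if_pos h2, if_pos h2]
    · rw [if_neg h2, if_neg h2, if_neg h2, add_zero]
  · rw [if_neg h, if_neg h, if_neg h, add_zero]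

lemma Gs_add (kc : ℕ) (R : Set (List (List Bool))) (F G : ι' → List Bool → ℝ≥0∞) (C : ι → ι' → List (List Bool) → Prop)
    (t : List Bool) : Gs kc R (fun b t => F b t + G b t) C t ≤ Gs kc R F C t + Gs kc R G C t := by
  unfold Gs
  refine iSup_le fun a => ?_
  have h : vA (2 ^ (kc + 4)) (HB (2 ^ (kc + 4))) (runL R (fun b t => F b t + G b t) C a) t =
      vA (2 ^ (kc + 4)) (HB (2 ^ (kc + 4))) (runL R F C a) t + vA (2 ^ (kc + 4)) (HB (2 ^ (kc + 4))) (runL R G C a) t := by
    unfold vA
    rw [← Rec8.sw_add]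
    exact Rec8.sw_congr fun g _ => runL_add R F G C a g
  rw [h]
  exact add_le_add (le_iSup (fun a => vA (2 ^ (kc + 4)) (HB (2 ^ (kc + 4))) (runL R F C a) t) a)
    (le_iSup (fun a => vA (2 ^ (kc + 4)) (HB (2 ^ (kc + 4))) (runL R G C a) t) a)

lemma hered_Gs (kc : ℕ) (R : Set (List (List Bool))) (F : ι' → List Bool → ℝ≥0∞) (C : ι → ι' → List (List Bool) → Prop) :
    Hered (Gs kc R F C) := fun s hs t => iSup_mono fun a => hered_vA _ _ _ s hs t

end JNT

end HexObs
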