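import Pool.Agent.JNT.Two

/-!
JNT, row N: the words with a given end.
-/

set_option autoImplicit false

namespace HexObs

namespace JNT

open Finset TS

open scoped ENNReal

/-- total sum with phase -/
noncomputable def Ft (θ : ℝ) (A : Set (List Bool)) : ℂ := ∑' t : A, wp θ t.1

lemma summ1 {θ : ℝ} {A : Set (List Bool)} (h : gf A ≠ ⊤) : Summable fun t : A => wp θ t.1 := by
  refine Summable.of_norm_bounded (sum_wE h) fun t => ?_
  rw [norm_wp]

lemma Ft_le {θ : ℝ} {A : Set (List Bool)} (h : gf A ≠ ⊤) : ‖Ft θ A‖ ≤ (gf A).toReal :=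
  tsum_of_norm_bounded (hasSum_wE h) fun t => by rw [norm_wp]

lemma Ft_union {θ : ℝ} {A B : Set (List Bool)} (hA : gf A ≠ ⊤) (hB : gf B ≠ ⊤) (hAB : Disjoint A B) :
    Ft θ (A ∪ B) = Ft θ A + Ft θ B :=
  Summable.tsum_union_disjoint (f := fun t => wp θ t) hAB (summ1 hA) (summ1 hB)

lemma Ft_small {θ a : ℝ} {S : Set (List Bool)} (h : gf S ≠ ⊤) (hS : ∀ t ∈ S, |θ| * t.length ≤ a) :
    ‖Ft θ S - ((gf S).toReal : ℂ)‖ ≤ a * (gf S).toReal := by
  have h1 : HasSum (fun t : S => (((wE t.1).toReal : ℝ) : ℂ)) (((gf S).toReal : ℝ) : ℂ) :=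
    Complex.hasSum_ofReal.2 (hasSum_wE h)
  have h2 := (summ1 (θ := θ) h).hasSum.sub h1
  have h3 : Ft θ S - ((gf S).toReal : ℂ) = ∑' t : S, (wp θ t.1 - (((wE t.1).toReal : ℝ) : ℂ)) := h2.tsum_eq.symm
  rw [h3, mul_comm]
  refine tsum_of_norm_bounded ((hasSum_wE h).mul_right a) fun t => ?_
  have h4 : wp θ t.1 - (((wE t.1).toReal : ℝ) : ℂ) = (((wE t.1).toReal : ℝ) : ℂ) *
      (Complex.exp (((θ * t.1.length : ℝ) : ℂ) * Complex.I) - 1) := by
    unfold wp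
    ring
  rw [h4, norm_mul, Complex.norm_real, Real.norm_of_nonneg ENNReal.toReal_nonneg]
  refine mul_le_mul_of_nonneg_left ?_ ENNReal.toReal_nonneg
  have h5 : ‖Complex.exp (((θ * t.1.length : ℝ) : ℂ) * Complex.I) - 1‖ ≤ |θ * t.1.length| := by
    have h6 := Real.norm_exp_I_mul_ofReal_sub_one_le (x := θ * t.1.length)
    rw [mul_comm (Complex.I)] at h6
    exact h6
  refine h5.trans ?_
  rw [abs_mul, Nat.abs_cast]
  exact hS t.1 t.2

lemma sin_half {x : ℝ} (h0 : 0 ≤ x) (h1 : x ≤ 1) : x / 2 ≤ Real.sin x := by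
  have h2 : x ≤ Real.pi / 2 := by linarith [Real.pi_gt_three]
  have h3 := Real.mul_le_sin h0 h2
  refine le_trans ?_ h3
  have h4 : (1 : ℝ) / 2 ≤ 2 / Real.pi := by
    rw [div_le_div_iff₀ (by norm_num) Real.pi_pos]
    linarith [Real.pi_lt_four]
  calc x / 2 = 1 / 2 * x := by ring
    _ ≤ 2 / Real.pi * x := mul_le_mul_of_nonneg_right h4 h0

lemma Ft_im {θ α : ℝ} {L : Set (List Bool)} (h : gf L ≠ ⊤) (hL : ∀ t ∈ L, 2 * α ≤ |θ| * t.length ∧ |θ| * t.length ≤ 1) :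
    α * (gf L).toReal ≤ |(Ft θ L).im| := by
  have hsum : (Ft θ L).im = ∑' t : L, (wp θ t.1).im := Complex.im_tsum (summ1 h)
  have hs : Summable fun t : L => (wp θ t.1).im := (Complex.hasSum_im (summ1 (θ := θ) h).hasSum).summable
  have him : ∀ t : L, (wp θ t.1).im = (wE t.1).toReal * Real.sin (θ * t.1.length) := by
    intro t
    unfold wp
    rw [Complex.im_ofReal_mul, Complex.exp_ofReal_mul_I_im]
  have hw := hasSum_wE h
  rcases le_total 0 θ with hθ | hθ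
  · refine le_trans ?_ (le_abs_self _)
    rw [hsum, mul_comm, ← (hw.mul_right α).tsum_eq]
    refine (hw.mul_right α).summable.tsum_le_tsum (fun t => ?_) hs
    rw [him]
    refine mul_le_mul_of_nonneg_left ?_ ENNReal.toReal_nonneg
    obtain ⟨h1, h2⟩ := hL t.1 t.2
    rw [abs_of_nonneg hθ] at h1 h2
    refine le_trans ?_ (sin_half (by positivity) h2)
    linarith
  · rw [← abs_neg]
    refine le_trans ?_ (le_abs_self _)
    rw [hsum, ← tsum_neg, mul_comm, ← (hw.mul_right α).tsum_eq]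
    refine (hw.mul_right α).summable.tsum_le_tsum (fun t => ?_) hs.neg
    rw [him]
    obtain ⟨h1, h2⟩ := hL t.1 t.2
    rw [abs_of_nonpos hθ] at h1 h2
    have h3 : -((wE t.1).toReal * Real.sin (θ * t.1.length)) = (wE t.1).toReal * Real.sin (-θ * t.1.length) := by
      rw [neg_mul, Real.sin_neg]
      ring
    rw [h3]
    refine mul_le_mul_of_nonneg_left ?_ ENNReal.toReal_nonneg
    have h4 : 0 ≤ -θ * t.1.length := mul_nonneg (by linarith) (Nat.cast_nonneg _)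
    refine le_trans ?_ (sin_half h4 h2)
    linarith

/-- the words of a column: the two masses interfere -/
theorem col {θ a α : ℝ} {D S L : Set (List Bool)} {φ : Pt → ℂ} (hD : gf D ≠ ⊤) (hS : S ⊆ D) (hL : L ⊆ D)
    (hSL : Disjoint S L) (hz : ∀ s ∈ D, ∀ t ∈ D, en s = en t) (hφ : ∀ z, ‖φ z‖ ≤ 1)
    (hSa : ∀ t ∈ S, |θ| * t.length ≤ a) (hLa : ∀ t ∈ L, 2 * α ≤ |θ| * t.length ∧ |θ| * t.length ≤ 1)
    (hα : 0 ≤ α) (hα1 : α ≤ 1) (ha : a ≤ α ^ 2 / 8) :
    ‖Fo θ D φ‖ ≤ (gf D).toReal - α ^ 2 / 8 * min (gf S).toReal (gf L).toReal := by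
  have hS' : gf S ≠ ⊤ := ne_top_of_le_ne_top hD (gf_mono hS)
  have hL' : gf L ≠ ⊤ := ne_top_of_le_ne_top hD (gf_mono hL)
  obtain ⟨R, hR⟩ : ∃ R : Set (List Bool), R = D \ (S ∪ L) := ⟨_, rfl⟩
  have hRD : R ⊆ D := by rw [hR]; exact Set.sdiff_subset
  have hR' : gf R ≠ ⊤ := ne_top_of_le_ne_top hD (gf_mono hRD)
  have hSL' : gf (S ∪ L) ≠ ⊤ := ne_top_of_le_ne_top hD (gf_mono (Set.union_subset hS hL))
  have hd : Disjoint (S ∪ L) R := by rw [hR]; exact Set.disjoint_sdiff_right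
  have hu : D = (S ∪ L) ∪ R := by rw [hR]; exact (Set.union_sdiff_cancel (Set.union_subset hS hL)).symm
  have hm : (gf D).toReal = (gf S).toReal + (gf L).toReal + (gf R).toReal := by
    rw [hu, gf_union hd, gf_union hSL, ENNReal.toReal_add (ENNReal.add_ne_top.2 ⟨hS', hL'⟩) hR',
      ENNReal.toReal_add hS' hL']
  have hF : Ft θ D = Ft θ S + Ft θ L + Ft θ R := by
    rw [hu, Ft_union hSL' hR' hd, Ft_union hS' hL' hSL]
  have h1 := two_mass (u := Ft θ S) (v := Ft θ L) (s := (gf S).toReal) (l := (gf L).toReal) ENNReal.toReal_nonneg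
    ENNReal.toReal_nonneg (Ft_le hS') (Ft_small hS' hSa) (Ft_le hL') hα hα1 (Ft_im hL' hLa) ha
  have h2 : ‖Ft θ D‖ ≤ (gf D).toReal - α ^ 2 / 8 * min (gf S).toReal (gf L).toReal := by
    rw [hF, hm]
    refine (norm_add_le _ _).trans ?_
    have h3 := Ft_le (θ := θ) hR'
    linarith
  rcases Set.eq_empty_or_nonempty D with h0 | ⟨t0, ht0⟩
  · have h3 : Fo θ D φ = 0 := by
      unfold Fo
      rw [h0]
      exact tsum_empty
    rw [h3, norm_zero]
    exact (norm_nonneg _).trans h2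
  · have h3 : Fo θ D φ = Ft θ D * φ (en t0) := by
      unfold Fo Ft
      rw [← tsum_mul_right]
      exact tsum_congr fun t => by rw [hz t.1 t.2 t0 ht0]
    rw [h3, norm_mul]
    calc ‖Ft θ D‖ * ‖φ (en t0)‖ ≤ ‖Ft θ D‖ * 1 := mul_le_mul_of_nonneg_left (hφ _) (norm_nonneg _)
      _ ≤ _ := by rw [mul_one]; exact h2

end JNT

end HexObs
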