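import Pool.Agent.JNT.Rel
import Pool.Agent.EN.ZgNorm

/-!
JNT: algebra and composition of the labelled norms.
-/

set_option autoImplicit false

namespace HexObs

namespace JNT

open Finset TS SDN NTW NTA EN

open scoped ENNReal

/-! ### families -/

lemma herD_tsum {ι : Type} {D : ℕ} {F : ι → List Bool → ℝ≥0∞} (h : ∀ b, HerD D (F b)) : HerD D (fun t => ∑' b, F b t) :=
  ⟨fun s hs t => ENNReal.tsum_le_tsum fun i => (h i).her s hs t,
    fun s t h1 h2 => ENNReal.tsum_le_tsum fun i => (h i).suf s t h1 h2⟩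

lemma flp_tsum {ι : Type} {D : ℕ} {P : ι → List Bool → ℝ≥0∞} (h : ∀ a, Flp D (P a)) : Flp D (fun t => ∑' a, P a t) :=
  fun s t c h1 h2 => ENNReal.tsum_le_tsum fun i => h i s t c h1 h2

section

variable {ι ι' : Type} {F : ι' → List Bool → ℝ≥0∞} {C : ι → ι' → List Bool → Prop}
  {Cr : ι → ι' → List (List Bool) → Prop} {R R1 R2 G : Set (List (List Bool))}

lemma one_le (a : ι) (g : List Bool) : one F C a g ≤ ∑' b, F b g := by
  classical
  refine ENNReal.tsum_le_tsum fun b => ?_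
  split_ifs
  · exact le_rfl
  · exact zero_le

lemma runL_le (a : ι) (g : List Bool) : runL R F Cr a g ≤ runF R (fun t => ∑' b, F b t) g := by
  classical
  unfold runL runF
  refine ENNReal.tsum_le_tsum fun ms => ?_
  split_ifs
  · refine mul_le_mul_right (ENNReal.tsum_le_tsum fun b => ?_) _
    split_ifs
    · exact le_rfl
    · exact zero_le
  · exact le_rfl

lemma runL_mono (h : R1 ⊆ R) (a : ι) (g : List Bool) : runL R1 F Cr a g ≤ runL R F Cr a g := by
  classical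
  unfold runL
  refine ENNReal.tsum_le_tsum fun ms => ?_
  by_cases h1 : (g :: ms) ∈ R1 ∧ (g :: ms).IsChain LFold
  · rw [if_pos h1, if_pos ⟨h h1.1, h1.2⟩]
  · rw [if_neg h1]
    exact zero_le

lemma runL_union (a : ι) (g : List Bool) : runL (R1 ∪ R2) F Cr a g ≤ runL R1 F Cr a g + runL R2 F Cr a g := by
  classical
  unfold runL
  rw [← ENNReal.tsum_add]
  refine ENNReal.tsum_le_tsum fun ms => ?_
  by_cases h : (g :: ms) ∈ R1 ∪ R2 ∧ (g :: ms).IsChain LFold
  · rw [if_pos h]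
    rcases h.1 with h1 | h1
    · rw [if_pos (⟨h1, h.2⟩ : (g :: ms) ∈ R1 ∧ _)]
      exact le_self_add
    · rw [if_pos (⟨h1, h.2⟩ : (g :: ms) ∈ R2 ∧ _)]
      exact le_add_self
  · rw [if_neg h]
    exact zero_le

end

/-! ### algebra of the leaf classes -/

section

variable {Λ : Type} {lab : List Bool → Λ} {Dm : ℕ → ℝ≥0∞ → (List Bool → ℝ≥0∞) → Prop} {kc : ℕ} {S S' : Set (List Bool)} {δ δ' : ℝ}

lemma smDL_up (h : δ ≤ δ') (hS : SmDL lab Dm kc S δ) : SmDL lab Dm kc S δ' := by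
  refine ⟨fun x F C h0 h1 h2 => (hS.near x F C h0 h1 h2).trans ?_, fun y x P F C h1 h2 h3 h4 h5 h6 =>
    (hS.free y x P F C h1 h2 h3 h4 h5 h6).trans ?_⟩
  · exact mul_le_mul_left (ENNReal.ofReal_le_ofReal h) _
  · refine mul_le_mul_left (ENNReal.ofReal_le_ofReal ?_) _
    exact mul_le_mul_of_nonneg_right h (Ub_pos kc).le

lemma smDL_le (h : δ ≤ δ') (hS : SmDL lab Dm kc S δ) : SmDL lab Dm kc S δ' := smDL_up h hS

lemma smDL_mono (h : S' ⊆ S) (hS : SmDL lab Dm kc S δ) : SmDL lab Dm kc S' δ := by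
  refine ⟨fun x F C h0 h1 h2 => le_trans (xT_mono fun t => iSup_mono fun a => ?_) (hS.near x F C h0 h1 h2),
    fun y x P F C h1 h2 h3 h4 h5 h6 => le_trans ?_ (hS.free y x P F C h1 h2 h3 h4 h5 h6)⟩
  · unfold vA
    exact Rec8.sw_mono (fun g hg => ⟨h hg.1, hg.2⟩) fun _ _ => le_rfl
  · exact Rec8.sw_mono h fun _ _ => le_rfl

lemma vA_union (D : ℕ) (Φ : List Bool → ℝ≥0∞) (t : List Bool) : vA D (S ∪ S') Φ t ≤ vA D S Φ t + vA D S' Φ t := by
  refine TN5b_sw_union ?_ _
  rintro g ⟨h1 | h1, h2⟩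
  · exact Or.inl ⟨h1, h2⟩
  · exact Or.inr ⟨h1, h2⟩

lemma smDL_union (h0 : 0 ≤ δ) (h0' : 0 ≤ δ') (h : SmDL lab Dm kc S δ) (h' : SmDL lab Dm kc S' δ') :
    SmDL lab Dm kc (S ∪ S') (δ + δ') := by
  refine ⟨fun {ι ι'} x F C g0 h1 h2 => ?_, fun y x P F C g0 h1 h2 h3 h4 h5 => ?_⟩
  · have h6 : ∀ t, (⨆ a, vA (2 ^ (kc + 4)) (S ∪ S') (one F C a) t) ≤
        (⨆ a, vA (2 ^ (kc + 4)) S (one F C a) t) + ⨆ a, vA (2 ^ (kc + 4)) S' (one F C a) t := by
      intro t
      refine iSup_le fun a => (vA_union _ _ t).trans (add_le_add ?_ ?_)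
      · exact le_iSup (fun a => vA (2 ^ (kc + 4)) S (one F C a) t) a
      · exact le_iSup (fun a => vA (2 ^ (kc + 4)) S' (one F C a) t) a
    refine (xT_mono h6).trans ((Ch.xT_add _ _ _ _).trans ?_)
    rw [ENNReal.ofReal_add h0 h0', add_mul]
    exact add_le_add (h.near x F C g0 h1 h2) (h'.near x F C g0 h1 h2)
  · refine (TN5b_sw_union (B := S) (C := S') (fun g hg => hg) _).trans ?_
    have hU := (Ub_pos kc).le
    rw [add_mul, ENNReal.ofReal_add (by positivity) (by positivity), add_mul]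
    exact add_le_add (h.free y x P F C g0 h1 h2 h3 h4 h5) (h'.free y x P F C g0 h1 h2 h3 h4 h5)

/-- a class of small norm is a class of small labelled norm -/
lemma smDL_of_smD (hS : SmD Dm kc S δ) : SmDL lab Dm kc S δ := by
  refine ⟨fun x F C _ h1 h2 => ?_, fun y x P F C _ h1 h2 h3 h4 h5 => ?_⟩
  · refine le_trans (xT_mono fun t => iSup_le fun a => ?_) (hS.near x _ h2)
    exact vA_monoF (fun g => one_le a g) t
  · refine le_trans (Rec8.sw_mono' fun s _ => ?_) (hS.free y x (fun t => ∑' a, P a t) (fun t => ∑' b, F b t) h4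
      (flp_tsum h2) h5)
    rw [← ENNReal.tsum_mul_right]
    exact ENNReal.tsum_le_tsum fun a => mul_le_mul_right (one_le a s) _

lemma smDL_sum (n : ℕ) (C : ℕ → Set (List Bool)) (d : ℕ → ℝ) (hd : ∀ i < n, 0 ≤ d i)
    (h : ∀ i < n, SmDL lab Dm kc (C i) (d i)) : SmDL lab Dm kc {g | ∃ i < n, g ∈ C i} (∑ i ∈ range n, d i) := by
  induction n with
  | zero =>
    have : {g : List Bool | ∃ i < 0, g ∈ C i} = ∅ := by
      ext g
      constructor
      · rintro ⟨i, hi, -⟩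
        omega
      · exact fun h => absurd h (Set.notMem_empty g)
    rw [this]
    exact smDL_of_smD LQ.SmD_empty
  | succ n ih =>
    rw [Finset.sum_range_succ]
    refine smDL_mono ?_ (smDL_union (Finset.sum_nonneg fun i hi => hd i (by rw [Finset.mem_range] at hi; omega))
      (hd n (by omega)) (ih (fun i hi => hd i (by omega)) fun i hi => h i (by omega)) (h n (by omega)))
    rintro g ⟨i, hi, hg⟩
    rcases Nat.lt_or_ge i n with h1 | h1
    · exact Or.inl ⟨i, h1, hg⟩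
    · have : i = n := by omega
      exact Or.inr (this ▸ hg)

end

/-! ### algebra of the classes of runs -/

section

variable {Λ : Type} {lab : List Bool → Λ} {Dm : ℕ → ℝ≥0∞ → (List Bool → ℝ≥0∞) → Prop} {kc : ℕ} {R R1 R2 G : Set (List (List Bool))} {δ d1 d2 : ℝ}

lemma SmRL.anti (hS : SmRL lab Dm kc R δ) (h : R1 ⊆ R) : SmRL lab Dm kc R1 δ :=
  ⟨fun x F C h0 hF hx => (xT_mono fun t => iSup_mono fun a => vA_monoF (fun g => runL_mono h a g) t).trans
      (hS.near x F C h0 hF hx),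
    fun y x P F C h0 hP hf hF hy hx => (Rec8.sw_mono' fun g _ => ENNReal.tsum_le_tsum fun a =>
      mul_le_mul_right (runL_mono h a g) _).trans (hS.free y x P F C h0 hP hf hF hy hx)⟩

lemma SmRL.le (hS : SmRL lab Dm kc R δ) {δ' : ℝ} (h : δ ≤ δ') : SmRL lab Dm kc R δ' := by
  have hU := (Ub_pos kc).le
  exact ⟨fun x F C h0 hF hx => (hS.near x F C h0 hF hx).trans (mul_le_mul_left (ENNReal.ofReal_le_ofReal h) _),
    fun y x P F C h0 hP hf hF hy hx => (hS.free y x P F C h0 hP hf hF hy hx).trans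
      (mul_le_mul_left (ENNReal.ofReal_le_ofReal (mul_le_mul_of_nonneg_right h hU)) _)⟩

/-- an ordinary class is a labelled class -/
theorem smRL_of_smR (h : SmR Dm kc R δ) : SmRL lab Dm kc R δ := by
  refine ⟨fun x F C _ hF hx => (xT_mono fun t => iSup_le fun a => ?_).trans (h.near x _ hx),
    fun y x P F C _ hP hf hF hy hx => le_trans (Rec8.sw_mono' fun g _ => ?_) (h.free y x _ _ hy (flp_tsum hf) hx)⟩
  · exact vA_monoF (fun g => runL_le a g) t
  · rw [← ENNReal.tsum_mul_right]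
    exact ENNReal.tsum_le_tsum fun a => mul_le_mul_right (runL_le a g) _

lemma runL_one {ι ι' : Type} {F : ι' → List Bool → ℝ≥0∞} {C : ι → ι' → List (List Bool) → Prop} {S : Set (List Bool)}
    (a : ι) (g : List Bool) :
    runL (One S) F C a g = S.indicator (one F (fun a b g => C a b [g]) a) g := by
  classical
  unfold runL
  rw [tsum_eq_single []]
  · by_cases hg : g ∈ S
    · rw [if_pos ⟨⟨g, hg, rfl⟩, List.isChain_singleton g⟩, Set.indicator_of_mem hg, NTm.wl_nil, one_mul]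
      rfl
    · rw [Set.indicator_of_notMem hg, if_neg]
      rintro ⟨⟨g', hg', h⟩, -⟩
      rw [List.cons.injEq] at h
      exact hg (h.1 ▸ hg')
  · intro ms hms
    rw [if_neg]
    rintro ⟨⟨g', hg', h⟩, -⟩
    rw [List.cons.injEq] at h
    exact hms h.2

/-- **from a leaf class to the runs with one leaf, labelled** -/
theorem smRL_one {S : Set (List Bool)} (hS : SmDL lab Dm kc S δ) : SmRL lab Dm kc (One S) δ := by
  have hr : ∀ {ι ι' : Type} {C : ι → ι' → List (List Bool) → Prop}, RigR lab C → RigD lab (fun a b g => C a b [g]) :=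
    fun hC a b g g' h1 h2 h3 => hC a b [] [] g g' h1 h2 h3
  refine ⟨fun x F C h0 hF hx => (xT_mono fun t => iSup_mono fun a => ?_).trans (hS.near x F _ (hr h0) hF hx),
    fun y x P F C h0 hP hf hF hy hx => ?_⟩
  · have e : runL (One S) F C a = S.indicator (one F (fun a b g => C a b [g]) a) := funext fun g => runL_one a g
    rw [e]
    exact vA_indic t
  · refine le_trans ?_ (hS.free y x P F _ (hr h0) hP hf hF hy hx)
    have e : (fun g => ∑' a, P a (rev g) * runL (One S) F C a g) =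
        S.indicator (fun g => ∑' a, P a (rev g) * one F (fun a b g => C a b [g]) a g) := by
      funext g
      by_cases hg : g ∈ S
      · rw [Set.indicator_of_mem hg]
        refine tsum_congr fun a => ?_
        rw [runL_one, Set.indicator_of_mem hg]
      · rw [Set.indicator_of_notMem hg, ENNReal.tsum_eq_zero]
        intro a
        rw [runL_one, Set.indicator_of_notMem hg, mul_zero]
    rw [e]
    exact sw_indic.trans (Rec8.sw_mono (fun g hg => hg.1) fun _ _ => le_rfl)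

theorem smRL_union (hd1 : 0 ≤ d1) (hd2 : 0 ≤ d2) (h1 : SmRL lab Dm kc R1 d1) (h2 : SmRL lab Dm kc R2 d2) :
    SmRL lab Dm kc (R1 ∪ R2) (d1 + d2) := by
  have hU := (Ub_pos kc).le
  refine ⟨fun {ι ι'} x F C h0 hF hx => ?_, fun {ι ι'} y x P F C h0 hP hf hF hy hx => ?_⟩
  · refine (xT_mono (Ψ := fun t => (⨆ a, vA (2 ^ (kc + 4)) (HB (2 ^ (kc + 4))) (runL R1 F C a) t) +
      ⨆ a, vA (2 ^ (kc + 4)) (HB (2 ^ (kc + 4))) (runL R2 F C a) t) fun t => iSup_le fun a => ?_).trans ?_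
    · refine (vA_monoF (Ψ := fun g => runL R1 F C a g + runL R2 F C a g) (fun g => runL_union a g) t).trans ?_
      have e : vA (2 ^ (kc + 4)) (HB (2 ^ (kc + 4))) (fun g => runL R1 F C a g + runL R2 F C a g) t =
          vA (2 ^ (kc + 4)) (HB (2 ^ (kc + 4))) (runL R1 F C a) t +
          vA (2 ^ (kc + 4)) (HB (2 ^ (kc + 4))) (runL R2 F C a) t := by
        unfold vA
        rw [Rec8.sw_add]
      rw [e]
      exact add_le_add (le_iSup (fun a => vA (2 ^ (kc + 4)) (HB (2 ^ (kc + 4))) (runL R1 F C a) t) a)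
        (le_iSup (fun a => vA (2 ^ (kc + 4)) (HB (2 ^ (kc + 4))) (runL R2 F C a) t) a)
    · refine (Ch.xT_add _ _ _ _).trans ((add_le_add (h1.near x F C h0 hF hx) (h2.near x F C h0 hF hx)).trans
        (le_of_eq ?_))
      rw [← add_mul, ← ENNReal.ofReal_add hd1 hd2]
  · refine (Rec8.sw_mono' (Ψ := fun g => (∑' a, P a (rev g) * runL R1 F C a g) +
      ∑' a, P a (rev g) * runL R2 F C a g) fun g _ => ?_).trans ?_
    · rw [← ENNReal.tsum_add]
      refine ENNReal.tsum_le_tsum fun a => ?_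
      rw [← mul_add]
      exact mul_le_mul_right (runL_union a g) _
    · rw [Rec8.sw_add]
      refine (add_le_add (h1.free y x P F C h0 hP hf hF hy hx) (h2.free y x P F C h0 hP hf hF hy hx)).trans
        (le_of_eq ?_)
      rw [← add_mul, ← ENNReal.ofReal_add (mul_nonneg hd1 hU) (mul_nonneg hd2 hU), ← add_mul]

/-! ### composition -/

open Classical in
/-- the continuation by the run rs of the class R2 -/
noncomputable def fam {ι' : Type} (D : ℕ) (R2 : Set (List (List Bool))) (F : ι' → List Bool → ℝ≥0∞) :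
    List (List Bool) × ι' → List Bool → ℝ≥0∞
  | ([], _), _ => 0
  | (h :: rs, b), u => vA D {g | g = h ∧ g ∈ HB D ∧ (h :: rs) ∈ R2 ∧ (h :: rs).IsChain LFold}
      (fun _ => SDN.wl rs * F b ((h :: rs).getLastD [])) u

lemma herD_fam {ι' : Type} {D : ℕ} (hD : 1 ≤ D) (R2 : Set (List (List Bool))) (F : ι' → List Bool → ℝ≥0∞)
    (p : List (List Bool) × ι') : HerD D (fam D R2 F p) := by
  obtain ⟨rs, b⟩ := p
  cases rs with
  | nil => exact ⟨fun _ _ _ => le_rfl, fun _ _ _ _ => le_rfl⟩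
  | cons h rs => exact NTm.herD_vA hD _ _

open Classical in
lemma vA_single {D : ℕ} {h : List Bool} {p : Prop} {c : ℝ≥0∞} {u : List Bool} (hp : p) (hH : h ∈ HB D)
    (hR : RT D LFold u h) : vA D {g | g = h ∧ g ∈ HB D ∧ p} (fun _ => c) u = wE h * c := by
  unfold vA
  rw [Rec8.sw_ind, tsum_eq_single h]
  · rw [if_pos]
    exact ⟨⟨rfl, hH, hp⟩, hR⟩
  · intro g hg
    rw [if_neg]
    rintro ⟨⟨h1, -⟩, -⟩
    exact hg h1

lemma vA_none {D : ℕ} {h : List Bool} {p : Prop} {c : ℝ≥0∞} {u : List Bool} (hn : ¬ ((h ∈ HB D ∧ RT D LFold u h) ∧ p)) :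
    vA D {g | g = h ∧ g ∈ HB D ∧ p} (fun _ => c) u = 0 := by
  classical
  unfold vA
  rw [Rec8.sw_ind, ENNReal.tsum_eq_zero]
  intro g
  rw [if_neg]
  rintro ⟨⟨rfl, a1, a2⟩, a3⟩
  exact hn ⟨⟨a1, a3⟩, a2⟩

open Classical in
/-- the sum over the continuations by runs of the class R2 -/
lemma sum_fam {ι' : Type} {D : ℕ} (R2 : Set (List (List Bool))) (F : ι' → List Bool → ℝ≥0∞) (u : List Bool) :
    ∑' p, fam D R2 F p u ≤ vA D (HB D) (runF R2 (fun t => ∑' b, F b t)) u := by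
  rw [ENNReal.tsum_prod']
  refine (CCh.tsum_list _ ?_).trans ?_
  · exact ENNReal.tsum_eq_zero.2 fun b => rfl
  unfold vA
  rw [Rec8.sw_ind]
  refine ENNReal.tsum_le_tsum fun h => ?_
  have h1 : ∀ (rs : List (List Bool)) (b : ι'), fam D R2 F (h :: rs, b) u ≤
      if h ∈ {g' | g' ∈ HB D ∧ RT D LFold u g'} ∧ ((h :: rs) ∈ R2 ∧ (h :: rs).IsChain LFold) then
        wE h * (SDN.wl rs * F b ((h :: rs).getLastD [])) else 0 := by
    intro rs b
    by_cases h2 : h ∈ {g' | g' ∈ HB D ∧ RT D LFold u g'} ∧ ((h :: rs) ∈ R2 ∧ (h :: rs).IsChain LFold)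
    · rw [if_pos h2]
      exact le_of_eq (vA_single h2.2 h2.1.1 h2.1.2)
    · rw [if_neg h2]
      exact le_of_eq (vA_none h2)
  refine (ENNReal.tsum_le_tsum fun rs => ENNReal.tsum_le_tsum fun b => h1 rs b).trans ?_
  by_cases hh : h ∈ {g' | g' ∈ HB D ∧ RT D LFold u g'}
  · rw [if_pos hh]
    unfold runF
    rw [← ENNReal.tsum_mul_left]
    refine ENNReal.tsum_le_tsum fun rs => ?_
    by_cases h2 : (h :: rs) ∈ R2 ∧ (h :: rs).IsChain LFold
    · rw [if_pos h2, ← ENNReal.tsum_mul_left, ← ENNReal.tsum_mul_left]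
      refine ENNReal.tsum_le_tsum fun b => ?_
      rw [if_pos ⟨hh, h2⟩]
    · refine le_trans (le_of_eq (ENNReal.tsum_eq_zero.2 fun b => ?_)) zero_le
      exact if_neg fun h3 => h2 h3.2
  · refine le_trans (le_of_eq (ENNReal.tsum_eq_zero.2 fun rs => ENNReal.tsum_eq_zero.2 fun b => ?_)) zero_le
    exact if_neg fun h3 => hh h3.1

open Classical in
/-- **the sum over the runs a ++ b, the label in the first part** -/
theorem runL_right {ι ι' : Type} {D : ℕ} (h1 : InH D G) (h2 : InH D R2) (F : ι' → List Bool → ℝ≥0∞)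
    (C : ι → ι' → List (List Bool) → Prop) (a : ι) (g : List Bool) :
    runL (AppR G R2) F C a g ≤ runL G (fam D R2 F) (fun a p ms => C a p.2 (ms ++ p.1)) a g := by
  unfold runL
  refine (NTA.RF.tsum_app (H := fun ms rs => if ((g :: ms) ∈ G ∧ (g :: ms).IsChain LFold) ∧
    (rs ∈ R2 ∧ rs ≠ [] ∧ ((g :: ms).getLastD [] :: rs).IsChain LFold) then
    SDN.wl ms * (SDN.wl rs * ∑' b, (if C a b ((g :: ms) ++ rs) then F b (rs.getLastD []) else 0)) else 0) ?_).trans ?_
  · intro gs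
    by_cases h : (g :: gs) ∈ AppR G R2 ∧ (g :: gs).IsChain LFold
    · right
      obtain ⟨⟨x, hx, y, hy, hx0, hy0, hxy⟩, hc⟩ := h
      obtain ⟨z, a', rfl⟩ := List.exists_cons_of_ne_nil hx0
      obtain ⟨w, b', rfl⟩ := List.exists_cons_of_ne_nil hy0
      rw [List.cons_append, List.cons.injEq] at hxy
      obtain ⟨rfl, rfl⟩ := hxy
      obtain ⟨c1, c2⟩ := NTA.RF.chain_split hc
      refine ⟨a', w :: b', rfl, ?_⟩
      have hcond : (g :: (a' ++ w :: b')) ∈ AppR G R2 :=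
        ⟨g :: a', hx, w :: b', hy, List.cons_ne_nil _ _, List.cons_ne_nil _ _, rfl⟩
      rw [if_pos ⟨hcond, hc⟩, if_pos ⟨⟨hx, c1⟩, hy, List.cons_ne_nil _ _, c2⟩, NTA.RF.wl_append, mul_assoc, last_app']
      exact le_rfl
    · left
      rw [if_neg h]
  · refine ENNReal.tsum_le_tsum fun ms => ?_
    by_cases h : (g :: ms) ∈ G ∧ (g :: ms).IsChain LFold
    · rw [if_pos h, ← ENNReal.tsum_mul_left, ENNReal.tsum_prod']
      refine ENNReal.tsum_le_tsum fun rs => ?_
      have hl := last_mem h1 h.1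
      by_cases h3 : rs ∈ R2 ∧ rs ≠ [] ∧ ((g :: ms).getLastD [] :: rs).IsChain LFold
      · rw [if_pos ⟨h, h3⟩]
        obtain ⟨h4, h5, h6⟩ := h3
        obtain ⟨w, rs', rfl⟩ := List.exists_cons_of_ne_nil h5
        rw [List.isChain_cons_cons] at h6
        have hw : w ∈ HB D := h2 _ h4 w List.mem_cons_self
        rw [ENNReal.tsum_mul_left]
        refine mul_le_mul_right ?_ _
        rw [← ENNReal.tsum_mul_left]
        refine ENNReal.tsum_le_tsum fun b => ?_
        by_cases h7 : C a b ((g :: ms) ++ w :: rs')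
        · rw [if_pos h7, if_pos h7]
          show _ ≤ vA D _ _ _
          rw [vA_single ⟨h4, h6.2⟩ hw (RT_of hl h6.1), NTm.wl_cons, mul_assoc]
        · rw [if_neg h7, mul_zero]
          exact zero_le
      · rw [if_neg fun h4 => h3 h4.2]
        exact zero_le
    · rw [if_neg h]
      refine le_of_eq (ENNReal.tsum_eq_zero.2 fun rs => ?_)
      rw [if_neg fun h3 => h h3.1]

open Classical in
lemma sum_second {D : ℕ} (h2 : InH D G) {u : List Bool} (hl : u ∈ HB D) (Q : List (List Bool) → ℝ≥0∞) :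
    (∑' rs : List (List Bool), if rs ∈ G ∧ rs ≠ [] ∧ (u :: rs).IsChain LFold then SDN.wl rs * Q rs else 0) ≤
      vA D (HB D) (fun w => ∑' rs : List (List Bool), if (w :: rs) ∈ G ∧ (w :: rs).IsChain LFold then
        SDN.wl rs * Q (w :: rs) else 0) u := by
  refine (CCh.tsum_list _ ?_).trans ?_
  · rw [if_neg]
    rintro ⟨-, h, -⟩
    exact h rfl
  unfold vA
  rw [Rec8.sw_ind]
  refine ENNReal.tsum_le_tsum fun w => ?_
  by_cases hw : w ∈ {g' | g' ∈ HB D ∧ RT D LFold u g'}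
  · rw [if_pos hw, ← ENNReal.tsum_mul_left]
    refine ENNReal.tsum_le_tsum fun rs => ?_
    by_cases h3 : (w :: rs) ∈ G ∧ (w :: rs) ≠ [] ∧ (u :: w :: rs).IsChain LFold
    · rw [if_pos h3, if_pos ⟨h3.1, (List.isChain_cons_cons.1 h3.2.2).2⟩, NTm.wl_cons, mul_assoc]
    · rw [if_neg h3]
      exact zero_le
  · rw [if_neg hw]
    refine le_of_eq (ENNReal.tsum_eq_zero.2 fun rs => ?_)
    rw [if_neg]
    rintro ⟨a1, -, a3⟩
    exact hw ⟨h2 _ a1 w List.mem_cons_self, RT_of hl (List.isChain_cons_cons.1 a3).1⟩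

open Classical in
/-- **the sum over the runs a ++ b, the label in the second part** -/
theorem runL_left {ι ι' : Type} {D : ℕ} (h1 : InH D R1) (h2 : InH D G) (F : ι' → List Bool → ℝ≥0∞)
    (C : ι → ι' → List (List Bool) → Prop) (a : ι) (g : List Bool) :
    runL (AppR R1 G) F C a g ≤ runF R1 (fun t => ⨆ q : ι × List (List Bool),
      vA D (HB D) (runL G F (fun q b ms => C q.1 b (q.2 ++ ms)) q) t) g := by
  unfold runF
  conv_lhs => unfold runL
  refine (NTA.RF.tsum_app (H := fun ms rs => if ((g :: ms) ∈ R1 ∧ (g :: ms).IsChain LFold) ∧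
    (rs ∈ G ∧ rs ≠ [] ∧ ((g :: ms).getLastD [] :: rs).IsChain LFold) then
    SDN.wl ms * (SDN.wl rs * ∑' b, (if C a b ((g :: ms) ++ rs) then F b (rs.getLastD []) else 0)) else 0) ?_).trans ?_
  · intro gs
    by_cases h : (g :: gs) ∈ AppR R1 G ∧ (g :: gs).IsChain LFold
    · right
      obtain ⟨⟨x, hx, y, hy, hx0, hy0, hxy⟩, hc⟩ := h
      obtain ⟨z, a', rfl⟩ := List.exists_cons_of_ne_nil hx0
      obtain ⟨w, b', rfl⟩ := List.exists_cons_of_ne_nil hy0
      rw [List.cons_append, List.cons.injEq] at hxy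
      obtain ⟨rfl, rfl⟩ := hxy
      obtain ⟨c1, c2⟩ := NTA.RF.chain_split hc
      refine ⟨a', w :: b', rfl, ?_⟩
      have hcond : (g :: (a' ++ w :: b')) ∈ AppR R1 G :=
        ⟨g :: a', hx, w :: b', hy, List.cons_ne_nil _ _, List.cons_ne_nil _ _, rfl⟩
      rw [if_pos ⟨hcond, hc⟩, if_pos ⟨⟨hx, c1⟩, hy, List.cons_ne_nil _ _, c2⟩, NTA.RF.wl_append, mul_assoc, last_app']
      exact le_rfl
    · left
      rw [if_neg h]
  · refine ENNReal.tsum_le_tsum fun ms => ?_
    by_cases h : (g :: ms) ∈ R1 ∧ (g :: ms).IsChain LFold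
    · rw [if_pos h]
      have hl := last_mem h1 h.1
      obtain ⟨u, hu⟩ : ∃ u, u = (g :: ms).getLastD [] := ⟨_, rfl⟩
      rw [← hu] at hl ⊢
      have e1 : (∑' rs : List (List Bool), (if ((g :: ms) ∈ R1 ∧ (g :: ms).IsChain LFold) ∧
          (rs ∈ G ∧ rs ≠ [] ∧ (u :: rs).IsChain LFold) then SDN.wl ms * (SDN.wl rs * ∑' b, (if C a b ((g :: ms) ++ rs)
            then F b (rs.getLastD []) else 0)) else 0)) = SDN.wl ms * ∑' rs : List (List Bool),
          (if rs ∈ G ∧ rs ≠ [] ∧ (u :: rs).IsChain LFold then SDN.wl rs * ∑' b, (if C a b ((g :: ms) ++ rs)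
            then F b (rs.getLastD []) else 0) else 0) := by
        rw [← ENNReal.tsum_mul_left]
        refine tsum_congr fun rs => ?_
        by_cases h3 : rs ∈ G ∧ rs ≠ [] ∧ (u :: rs).IsChain LFold
        · rw [if_pos ⟨h, h3⟩, if_pos h3]
        · rw [if_neg fun h4 => h3 h4.2, if_neg h3, mul_zero]
      have e2 : (∑' rs : List (List Bool), (if rs ∈ G ∧ rs ≠ [] ∧ (u :: rs).IsChain LFold then SDN.wl rs *
          ∑' b, (if C a b ((g :: ms) ++ rs) then F b (rs.getLastD []) else 0) else 0)) ≤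
          ⨆ q : ι × List (List Bool), vA D (HB D) (runL G F (fun q b ms => C q.1 b (q.2 ++ ms)) q) u := by
        refine (sum_second h2 hl _).trans ?_
        exact le_iSup (fun q : ι × List (List Bool) => vA D (HB D) (runL G F (fun q b ms => C q.1 b (q.2 ++ ms)) q) u)
          (a, g :: ms)
      exact (le_of_eq e1).trans (mul_le_mul_right e2 _)
    · rw [if_neg h]
      refine le_of_eq (ENNReal.tsum_eq_zero.2 fun rs => ?_)
      rw [if_neg fun h3 => h h3.1]

/-- **labelled left part, ordinary right part** -/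
theorem smRL_right (hDm : DmP Dm) (h1 : InH (2 ^ (kc + 4)) G) (h2 : InH (2 ^ (kc + 4)) R2) (hd1 : 0 ≤ d1) (hd2 : 0 ≤ d2)
    (hG : SmRL lab Dm kc G d1) (hR : SmR Dm kc R2 d2) : SmRL lab Dm kc (AppR G R2) (d1 * d2) := by
  have hU := (Ub_pos kc).le
  have hD : 1 ≤ 2 ^ (kc + 4) := Nat.one_le_two_pow
  have hrig : ∀ {ι ι' : Type} {C : ι → ι' → List (List Bool) → Prop}, RigR lab C →
      RigR lab (fun (a : ι) (p : List (List Bool) × ι') ms => C a p.2 (ms ++ p.1)) := by
    intro ι ι' C hC a p ls rs g g' h3 h4 h5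
    simp only [List.append_assoc, List.cons_append] at h3 h4
    exact hC a p.2 ls (rs ++ p.1) g g' h3 h4 h5
  have key : ∀ {ι' : Type} (x : ℝ≥0∞) (F : ι' → List Bool → ℝ≥0∞), Dm kc x (fun t => ∑' b, F b t) →
      ∃ x2 : ℝ≥0∞, x2 ≤ ENNReal.ofReal d2 * x ∧ Dm kc x2 (fun t => ∑' p, fam (2 ^ (kc + 4)) R2 F p t) := by
    intro ι' x F hx
    refine ⟨_, (xT_mono fun t => sum_fam R2 F t).trans (hR.near x _ hx), hDm.dm kc _ (herD_tsum fun p => herD_fam hD R2 F p)⟩
  refine ⟨fun {ι ι'} x F C h0 hF hx => ?_, fun {ι ι'} y x P F C h0 hP hf hF hy hx => ?_⟩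
  · obtain ⟨x2, hx2, hd⟩ := key x F hx
    refine (xT_mono fun t => iSup_mono fun a => vA_monoF (fun g => runL_right h1 h2 F C a g) t).trans ?_
    refine (hG.near x2 _ _ (hrig h0) (fun p => herD_fam hD R2 F p) hd).trans ((mul_le_mul_right hx2 _).trans (le_of_eq ?_))
    rw [← mul_assoc, ← ENNReal.ofReal_mul hd1]
  · obtain ⟨x2, hx2, hd⟩ := key x F hx
    refine (Rec8.sw_mono' fun g _ => ENNReal.tsum_le_tsum fun a => mul_le_mul_right (runL_right h1 h2 F C a g) _).trans ?_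
    refine (hG.free y x2 P _ _ (hrig h0) hP hf (fun p => herD_fam hD R2 F p) hy hd).trans
      ((mul_le_mul_right (mul_le_mul_right hx2 _) _).trans (le_of_eq ?_))
    rw [mul_left_comm y, ← mul_assoc, ← ENNReal.ofReal_mul (mul_nonneg hd1 hU)]
    congr 2
    ring

/-- **ordinary left part, labelled right part** -/
theorem smRL_left (hDm : DmP Dm) (h1 : InH (2 ^ (kc + 4)) R1) (h2 : InH (2 ^ (kc + 4)) G) (hd1 : 0 ≤ d1) (hd2 : 0 ≤ d2)
    (hR : SmR Dm kc R1 d1) (hG : SmRL lab Dm kc G d2) : SmRL lab Dm kc (AppR R1 G) (d1 * d2) := by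
  have hU := (Ub_pos kc).le
  have hD : 1 ≤ 2 ^ (kc + 4) := Nat.one_le_two_pow
  have hrig : ∀ {ι ι' : Type} {C : ι → ι' → List (List Bool) → Prop}, RigR lab C →
      RigR lab (fun (q : ι × List (List Bool)) (b : ι') ms => C q.1 b (q.2 ++ ms)) := by
    intro ι ι' C hC q b ls rs g g' h3 h4 h5
    simp only [← List.append_assoc] at h3 h4
    exact hC q.1 b (q.2 ++ ls) rs g g' h3 h4 h5
  have key : ∀ {ι ι' : Type} (x : ℝ≥0∞) (F : ι' → List Bool → ℝ≥0∞) (C : ι → ι' → List (List Bool) → Prop), RigR lab C →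
      (∀ b, HerD (2 ^ (kc + 4)) (F b)) → Dm kc x (fun t => ∑' b, F b t) →
      ∃ (x1 : ℝ≥0∞) (F1 : List Bool → ℝ≥0∞), x1 ≤ ENNReal.ofReal d2 * x ∧ Dm kc x1 F1 ∧
        ∀ a g, runL (AppR R1 G) F C a g ≤ runF R1 F1 g := by
    intro ι ι' x F C hC hF hx
    exact ⟨_, _, hG.near x F _ (hrig hC) hF hx, hDm.dm kc _ (herD_iSup fun q => NTm.herD_vA hD _ _),
      fun a g => runL_left h1 h2 F C a g⟩
  refine ⟨fun {ι ι'} x F C h0 hF hx => ?_, fun {ι ι'} y x P F C h0 hP hf hF hy hx => ?_⟩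
  · obtain ⟨x1, F1, hx1, hd, hle⟩ := key x F C h0 hF hx
    refine (xT_mono fun t => iSup_le fun a => vA_monoF (fun g => hle a g) t).trans ((hR.near x1 F1 hd).trans
      ((mul_le_mul_right hx1 _).trans (le_of_eq ?_)))
    rw [← mul_assoc, ← ENNReal.ofReal_mul hd1]
  · obtain ⟨x1, F1, hx1, hd, hle⟩ := key x F C h0 hF hx
    have h3 : Rec8.sw (HB (2 ^ (kc + 4))) (fun g => ∑' a, P a (rev g) * runL (AppR R1 G) F C a g) ≤
        Rec8.sw (HB (2 ^ (kc + 4))) (fun g => (∑' a, P a (rev g)) * runF R1 F1 g) := by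
      refine Rec8.sw_mono' fun g _ => ?_
      rw [← ENNReal.tsum_mul_right]
      exact ENNReal.tsum_le_tsum fun a => mul_le_mul_right (hle a g) _
    refine h3.trans ((hR.free y x1 _ _ hy (flp_tsum hf) hd).trans
      ((mul_le_mul_right (mul_le_mul_right hx1 _) _).trans (le_of_eq ?_)))
    rw [mul_left_comm y, ← mul_assoc, ← ENNReal.ofReal_mul (mul_nonneg hd1 hU)]
    congr 2
    ring

end

end JNT

end HexObs
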