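import Pool.Agent.JNT.Defs
import Pool.Agent.RSWP.DefsL
import Pool.Agent.NTA.PtFC
import Pool.Agent.NTS.ExDefs

/-!
JNT, lower side: the literal statements of the rows (joint lower bound for the displacement and the number of letters).
-/

set_option autoImplicit false

namespace HexObs

namespace JNT

open Finset TS SDN NTW NTA PtC RP

open scoped ENNReal

/-- the displacement with h rows and the lateral coordinate x (Even (x - h)) -/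
def pt (h : ℕ) (x : ℤ) : Pt := (x, (3 * (h : ℤ) - x) / 2)

/-- weight of the bridges with a given displacement and a given number of letters -/
noncomputable def gz (z : Pt) (b : ℕ) : ℝ := (gf {Z | Z ∈ BU ∧ en Z = z ∧ Z.length = b}).toReal

/-- row V: continuity in the number of letters, total variation over the displacements, bridges of height at least 2 ^ k -/
def TVX (m : ℕ → ℝ) : Prop := ∃ (C : ℝ) (k0 : ℕ), 0 < C ∧ ∀ (k b b' : ℕ) (D : Finset Pt), k0 ≤ k → Even b → Even b' →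
  (∀ z ∈ D, 3 * 2 ^ k ≤ ip z up) → ∑ z ∈ D, |gz z b - gz z b'| ≤ C * (Ub k / m k) * (|(b : ℝ) - b'| / m k) ^ (1 / 16 : ℝ)

/-- row V: continuity of the number of pairs in the number of letters -/
def PairC (m : ℕ → ℝ) : Prop := ∃ (C : ℝ) (k0 : ℕ), 0 < C ∧ ∀ (k : ℕ) (v : Pt) (b b' : ℕ), k0 ≤ k → Even b → Even b' →
  |(pairs (2 ^ k) v b).toReal - (pairs (2 ^ k) v b').toReal| ≤
    C * (Ub k ^ 2 / (4 ^ k * m k)) * (|(b : ℝ) - b'| / m k) ^ (1 / 16 : ℝ)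

/-- row E: bridges with exactly b letters and the end in a box, b from a m k to A m k -/
def ExLen (m : ℕ → ℝ) : Prop := ∀ a A : ℝ, 0 < a → a ≤ A → ∃ (c : ℝ) (i j k0 : ℕ), 0 < c ∧ ∀ k b : ℕ, k0 ≤ k → i ≤ k →
  Even b → a * m k ≤ b → (b : ℝ) ≤ A * m k → ENNReal.ofReal (c * (Ub k / m k)) ≤
    gf {Z | Z ∈ BU ∧ 2 ^ (k - i) ≤ hgt Z ∧ hgt Z ≤ 2 ^ (k + j) ∧ |latE Z| ≤ (hgt Z : ℤ) ∧ Z.length = b}

/-- row Q: an interval of numbers of letters for every end in a cone -/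
def QI (β lam R : ℝ) : Prop := ∃ (κ : ℝ) (t0 : ℕ), 0 < κ ∧ ∀ (h : ℕ) (x : ℤ), t0 ≤ h → Even (x - h) → |(x : ℝ)| ≤ R * h →
  ∃ s : ℝ, 0 ≤ s ∧ s + lam * (h : ℝ) ^ (4 / 3 : ℝ) ≤ β * (h : ℝ) ^ (4 / 3 : ℝ) ∧ ∀ b : ℕ, Even b → s ≤ b →
    (b : ℝ) ≤ s + lam * (h : ℝ) ^ (4 / 3 : ℝ) →
      ENNReal.ofReal (κ * (uu h / (h * (h : ℝ) ^ (4 / 3 : ℝ)))) ≤ gf {Z | Z ∈ EndB h x ∧ Z.length = b}

/-- row W: the joint local lower bound, high bridges with few letters -/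
def LowJ (m : ℕ → ℝ) : Prop := ∀ R a A : ℝ, 0 < R → 0 < a → a ≤ A → ∃ (H : ℕ) (c : ℝ) (k0 : ℕ), 1 ≤ H ∧ 0 < c ∧
  ∀ (k h b : ℕ) (x : ℤ), k0 ≤ k → H * 2 ^ k ≤ h → h ≤ 2 * (H * 2 ^ k) → Even (x - h) → |(x : ℝ)| ≤ R * h → Even b →
    a * m k ≤ b → (b : ℝ) ≤ A * m k →
      ENNReal.ofReal (c * (Ub k / (4 ^ k * m k))) ≤ gf {Z | Z ∈ EndB h x ∧ Z.length = b}

/-- row C: the first cut at or above s is steep to the right, low and short with a positive probability -/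
def StepC : Prop := ∀ R : ℝ, 1 ≤ R → ∃ (c A : ℝ) (s0 : ℕ), 0 < c ∧ 0 < A ∧ 1 ≤ s0 ∧ ∀ s : ℕ, s0 ≤ s →
  ENNReal.ofReal c ≤ gf {a | a ∈ FPs s ∧ hgt a ≤ 2 * s ∧ R * (hgt a : ℝ) ≤ (latE a : ℝ) ∧ (latE a : ℝ) ≤ 8 * R * s ∧
    (a.length : ℝ) ≤ A * (s : ℝ) ^ (4 / 3 : ℝ)}

/-- row G: the joint local lower bound for all heights up to 2 ^ (k + i), 3 i + a0 at most k -/
def LowC (m : ℕ → ℝ) : Prop := ∀ R a A : ℝ, 1 ≤ R → 0 < a → a ≤ A → ∃ (H : ℕ) (c C : ℝ) (a0 : ℕ), 1 ≤ H ∧ 0 < c ∧ 0 < C ∧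
  ∀ (k i h b : ℕ) (x : ℤ), 3 * i + a0 ≤ k → H * 2 ^ k ≤ h → h ≤ H * 2 ^ (k + i + 1) → Even (x - h) → |(x : ℝ)| ≤ R * h →
    Even b → a * m k ≤ b → (b : ℝ) ≤ A * m k →
      ENNReal.ofReal (c * Real.exp (-(C * 16 ^ i)) * (Ub k / (4 ^ k * m k))) ≤ gf {Z | Z ∈ EndB h x ∧ Z.length = b}

/-- row N: half plane words without a cut, few letters, the parity of the number of letters given, the end in a box -/
def NcP (m : ℕ → ℝ) : Prop := ∀ e : ℝ, 0 < e → ∃ (c : ℝ) (D k0 : ℕ), 0 < c ∧ ∀ k p : ℕ, k0 ≤ k → p < 2 →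
  ENNReal.ofReal c * Xb k ≤ gf {A | A ∈ BAR.HiN A.length ∧ A.length % 2 = p ∧ (A.length : ℝ) ≤ e * m k ∧
    ∀ dir : Bool, |lvl dir (en A)| ≤ 2 ^ (k + D)}

/-- rotation by 120 degrees -/
def r3 (p : Pt) : Pt := mulE (-1, 1) p

open Classical in
/-- row I: word without a cut (reversed), bridge, word without a cut, with the displacement x in the frame of the joint -/
def JCnt : Prop := ∀ (n : ℕ) (x : Pt) (P Q : Set (List Bool)),
  (∀ A ∈ P, A ∈ BAR.HiN A.length ∧ A.length % 2 = 1) → (∀ A ∈ Q, A ∈ BAR.HiN A.length) →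
    ∑' A : List Bool, ∑' Z : List Bool, ∑' B : List Bool, (if A ∈ P ∧ Z ∈ BU ∧ B ∈ Q ∧
      A.length + Z.length + B.length = n + 1 ∧ en A - up + en Z + en B = x then wE A * (wE Z * wE B) else 0) ≤
        12 * gf {t | t ∈ SawN n ∧ (vx oo up t n = x ∨ vx oo up t n = r3 x ∨ vx oo up t n = r3 (r3 x))}

/-- row F: the pointwise lower bound, words: x in the 120 degree sector around the first step -/
def LocLow (m : ℕ → ℝ) : Prop := ∃ (H : ℕ) (c C : ℝ) (a0 : ℕ), 1 ≤ H ∧ 0 < c ∧ 0 < C ∧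
  ∀ (k i n : ℕ) (x : Pt), 3 * i + a0 ≤ k → m k ≤ n → n < m (k + 1) →
    (H * 2 ^ k : ℝ) ≤ ((ip x up : ℤ) : ℝ) → ((ip x up : ℤ) : ℝ) ≤ H * 2 ^ (k + i) → |cross up x| ≤ ip x up →
    (if n % 2 = 0 then ip x up % 3 = 0 else ip x up % 3 = 2) →
      ENNReal.ofReal (c * Real.exp (-(C * 16 ^ i)) / 4 ^ k) * nuX m k ≤
        gf {t | t ∈ SawN n ∧ (vx oo up t n = x ∨ vx oo up t n = r3 x ∨ vx oo up t n = r3 (r3 x))}

end JNT

end HexObs
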