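import Pool.Agent.JNT.JoB
import Pool.Agent.JNT.LowDefs

/-!
JNT, row V: continuity in the number of letters (TVX, PairC), from the sizes of the characteristic functions.
-/

set_option autoImplicit false

namespace HexObs

namespace JNT

open Finset TS SDN NTW NTA MeasureTheory

open scoped ENNReal

/-- the exact order of the scales -/
def Sh43 (m : ℕ → ℝ) : Prop := ∃ c C : ℝ, 0 < c ∧ 0 < C ∧ ∀ k : ℕ,
  c * (2 : ℝ) ^ (4 / 3 * (k : ℝ)) ≤ m k ∧ m k ≤ C * (2 : ℝ) ^ (4 / 3 * (k : ℝ))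

namespace CoT

lemma pow_split (x : ℝ) (k j : ℕ) : (2 : ℝ) ^ (x * ((k + j : ℕ) : ℝ)) = (2 : ℝ) ^ (x * (k : ℝ)) * (2 : ℝ) ^ (x * (j : ℝ)) := by
  rw [← Real.rpow_add (by norm_num)]
  congr 1
  push_cast
  ring

/-- two-sided power bounds: the two comparisons -/
lemma two_sided {f : ℕ → ℝ} {x c C : ℝ} (hc : 0 < c) (hC : 0 < C) (h : ∀ k : ℕ,
    c * (2 : ℝ) ^ (x * (k : ℝ)) ≤ f k ∧ f k ≤ C * (2 : ℝ) ^ (x * (k : ℝ))) :
    (∀ k j : ℕ, f (k + j) ≤ C / c * (2 : ℝ) ^ (x * (j : ℝ)) * f k) ∧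
      ∀ k j : ℕ, f k * (2 : ℝ) ^ (x * (j : ℝ)) ≤ C / c * f (k + j) := by
  constructor
  · intro k j
    have h1 := (h (k + j)).2
    have h2 := (h k).1
    rw [pow_split] at h1
    calc f (k + j) ≤ C * ((2 : ℝ) ^ (x * (k : ℝ)) * (2 : ℝ) ^ (x * (j : ℝ))) := h1
      _ = C / c * (2 : ℝ) ^ (x * (j : ℝ)) * (c * (2 : ℝ) ^ (x * (k : ℝ))) := by field_simp
      _ ≤ _ := mul_le_mul_of_nonneg_left h2 (by positivity)
  · intro k j
    have h1 := (h (k + j)).1
    have h2 := (h k).2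
    rw [pow_split] at h1
    calc f k * (2 : ℝ) ^ (x * (j : ℝ)) ≤ C * (2 : ℝ) ^ (x * (k : ℝ)) * (2 : ℝ) ^ (x * (j : ℝ)) :=
          mul_le_mul_of_nonneg_right h2 (by positivity)
      _ = C / c * (c * ((2 : ℝ) ^ (x * (k : ℝ)) * (2 : ℝ) ^ (x * (j : ℝ)))) := by field_simp
      _ ≤ _ := mul_le_mul_of_nonneg_left h1 (by positivity)

lemma rpow_le_self {S : ℝ} (h : 1 ≤ S) : S ^ (1 / 16 : ℝ) ≤ S := by
  nth_rewrite 2 [← Real.rpow_one S]
  exact Real.rpow_le_rpow_of_exponent_le h (by norm_num)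

/-- one scale of the phase, with the factor of the continuity -/
theorem termS {m : ℕ → ℝ} (hm : ∀ k, 0 < m k) (hs : Sh43 m) : ∃ C lam : ℝ, 0 < C ∧ 0 < lam ∧ lam < 1 ∧ ∀ k r : ℕ,
    Ub r * min 1 (Ub r / Ub k) / m r * (m k / m r) ^ (1 / 16 : ℝ) ≤ C * (Ub k / m k) * lam ^ ((k - r) + (r - k)) := by
  obtain ⟨c, C, hc, hC, hs⟩ := hs
  obtain ⟨cU, CU, hcU, hCU, hU⟩ := JoT.Ub_two
  obtain ⟨R, hR⟩ : ∃ R, R = CU / cU := ⟨_, rfl⟩
  have hR0 : 0 < R := by rw [hR]; positivity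
  obtain ⟨S, hS⟩ : ∃ S, S = max 1 (C / c) := ⟨_, rfl⟩
  have hS1 : 1 ≤ S := by rw [hS]; exact le_max_left _ _
  have hSC : C / c ≤ S := by rw [hS]; exact le_max_right _ _
  have hS0 : 0 < S := by linarith
  obtain ⟨g1, g2⟩ := two_sided hcU hCU hU
  obtain ⟨q1, q2⟩ := two_sided hc hC hs
  rw [← hR] at g1 g2
  obtain ⟨lam, hlam⟩ : ∃ lam : ℝ, lam = (2 : ℝ) ^ (-(1 / 12) : ℝ) := ⟨_, rfl⟩
  have hl0 : 0 < lam := by rw [hlam]; positivity
  have hl1 : lam < 1 := by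
    rw [hlam]
    exact Real.rpow_lt_one_of_one_lt_of_neg (by norm_num) (by norm_num)
  have hlj : ∀ j : ℕ, lam ^ j = (2 : ℝ) ^ (-(1 / 12) * (j : ℝ)) := by
    intro j
    rw [hlam, ← Real.rpow_natCast, ← Real.rpow_mul (by norm_num)]
  refine ⟨(R + R ^ 2) * S ^ 2, lam, by positivity, hl0, hl1, fun k r => ?_⟩
  have hUk := Ub_pos k
  have hUr := Ub_pos r
  have hmk := hm k
  have hmr := hm r
  rcases le_total k r with h | h
  · obtain ⟨j, rfl⟩ := Nat.exists_eq_add_of_le h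
    rw [show (k - (k + j)) + (k + j - k) = j by omega, hlj]
    have hj0 : (0 : ℝ) ≤ j := Nat.cast_nonneg j
    have a1 : Ub (k + j) * min 1 (Ub (k + j) / Ub k) ≤ R * (2 : ℝ) ^ (3 / 4 * (j : ℝ)) * Ub k := by
      calc Ub (k + j) * min 1 (Ub (k + j) / Ub k) ≤ Ub (k + j) * 1 :=
            mul_le_mul_of_nonneg_left (min_le_left _ _) hUr.le
        _ ≤ _ := by rw [mul_one]; exact g1 k j
    have a2 : 1 / m (k + j) ≤ S * (2 : ℝ) ^ (-(4 / 3) * (j : ℝ)) / m k := by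
      rw [div_le_div_iff₀ hmr hmk, one_mul]
      have h1 := q2 k j
      have h2 : (2 : ℝ) ^ (-(4 / 3) * (j : ℝ)) * (2 : ℝ) ^ (4 / 3 * (j : ℝ)) = 1 := by
        rw [← Real.rpow_add (by norm_num), show -(4 / 3) * (j : ℝ) + 4 / 3 * (j : ℝ) = 0 by ring, Real.rpow_zero]
      calc m k = m k * (2 : ℝ) ^ (4 / 3 * (j : ℝ)) * (2 : ℝ) ^ (-(4 / 3) * (j : ℝ)) := by
            rw [mul_assoc, mul_comm ((2 : ℝ) ^ (4 / 3 * (j : ℝ))), h2, mul_one]
        _ ≤ C / c * m (k + j) * (2 : ℝ) ^ (-(4 / 3) * (j : ℝ)) := by gcongr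
        _ ≤ S * m (k + j) * (2 : ℝ) ^ (-(4 / 3) * (j : ℝ)) := by gcongr
        _ = _ := by ring
    have a3 : (m k / m (k + j)) ^ (1 / 16 : ℝ) ≤ S := by
      have h1 : m k / m (k + j) ≤ S := by
        rw [div_le_iff₀ hmr]
        have h2 := q2 k j
        have h3 : (1 : ℝ) ≤ (2 : ℝ) ^ (4 / 3 * (j : ℝ)) := Real.one_le_rpow (by norm_num) (by positivity)
        calc m k = m k * 1 := (mul_one _).symm
          _ ≤ m k * (2 : ℝ) ^ (4 / 3 * (j : ℝ)) := by gcongr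
          _ ≤ C / c * m (k + j) := h2
          _ ≤ _ := by gcongr
      exact (Real.rpow_le_rpow (by positivity) h1 (by norm_num)).trans (rpow_le_self hS1)
    have e1 : (2 : ℝ) ^ (3 / 4 * (j : ℝ)) * (2 : ℝ) ^ (-(4 / 3) * (j : ℝ)) ≤ (2 : ℝ) ^ (-(1 / 12) * (j : ℝ)) := by
      rw [← Real.rpow_add (by norm_num)]
      exact Real.rpow_le_rpow_of_exponent_le (by norm_num) (by nlinarith)
    calc Ub (k + j) * min 1 (Ub (k + j) / Ub k) / m (k + j) * (m k / m (k + j)) ^ (1 / 16 : ℝ)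
        = Ub (k + j) * min 1 (Ub (k + j) / Ub k) * (1 / m (k + j)) * (m k / m (k + j)) ^ (1 / 16 : ℝ) := by ring
      _ ≤ R * (2 : ℝ) ^ (3 / 4 * (j : ℝ)) * Ub k * (S * (2 : ℝ) ^ (-(4 / 3) * (j : ℝ)) / m k) * S := by
          refine mul_le_mul (mul_le_mul a1 a2 (by positivity) (by positivity)) a3 (by positivity) (by positivity)
      _ = R * S ^ 2 * (Ub k / m k) * ((2 : ℝ) ^ (3 / 4 * (j : ℝ)) * (2 : ℝ) ^ (-(4 / 3) * (j : ℝ))) := by ring
      _ ≤ R * S ^ 2 * (Ub k / m k) * (2 : ℝ) ^ (-(1 / 12) * (j : ℝ)) := by gcongr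
      _ ≤ (R + R ^ 2) * S ^ 2 * (Ub k / m k) * (2 : ℝ) ^ (-(1 / 12) * (j : ℝ)) := by
          have : 0 ≤ R ^ 2 := by positivity
          gcongr
          linarith
  · obtain ⟨j, rfl⟩ := Nat.exists_eq_add_of_le h
    rw [show (r + j - r) + (r - (r + j)) = j by omega, hlj]
    have hj0 : (0 : ℝ) ≤ j := Nat.cast_nonneg j
    obtain ⟨w, hw⟩ : ∃ w : ℝ, w = (2 : ℝ) ^ (3 / 4 * (j : ℝ)) := ⟨_, rfl⟩
    have hw0 : 0 < w := by rw [hw]; positivity
    have h1 := g2 r j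
    rw [← hw] at h1
    have a1 : Ub r * min 1 (Ub r / Ub (r + j)) ≤ R ^ 2 / w ^ 2 * Ub (r + j) := by
      have h4 : (Ub r * w) ^ 2 ≤ (R * Ub (r + j)) ^ 2 := pow_le_pow_left₀ (by positivity) h1 2
      calc Ub r * min 1 (Ub r / Ub (r + j)) ≤ Ub r * (Ub r / Ub (r + j)) :=
            mul_le_mul_of_nonneg_left (min_le_right _ _) hUr.le
        _ = (Ub r * w) ^ 2 / (w ^ 2 * Ub (r + j)) := by field_simp
        _ ≤ (R * Ub (r + j)) ^ 2 / (w ^ 2 * Ub (r + j)) := by gcongr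
        _ = _ := by field_simp
    have a2 : 1 / m r ≤ S * (2 : ℝ) ^ (4 / 3 * (j : ℝ)) / m (r + j) := by
      rw [div_le_div_iff₀ hmr hmk, one_mul]
      calc m (r + j) ≤ C / c * (2 : ℝ) ^ (4 / 3 * (j : ℝ)) * m r := q1 r j
        _ ≤ _ := by gcongr
    have a3 : (m (r + j) / m r) ^ (1 / 16 : ℝ) ≤ S * (2 : ℝ) ^ (1 / 12 * (j : ℝ)) := by
      have h2 : m (r + j) / m r ≤ S * (2 : ℝ) ^ (4 / 3 * (j : ℝ)) := by
        rw [div_le_iff₀ hmr]
        calc m (r + j) ≤ C / c * (2 : ℝ) ^ (4 / 3 * (j : ℝ)) * m r := q1 r j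
          _ ≤ _ := by gcongr
      refine (Real.rpow_le_rpow (by positivity) h2 (by norm_num)).trans ?_
      rw [Real.mul_rpow hS0.le (by positivity), ← Real.rpow_mul (by norm_num)]
      have e2 : 4 / 3 * (j : ℝ) * (1 / 16) = 1 / 12 * (j : ℝ) := by ring
      rw [e2]
      gcongr
      exact rpow_le_self hS1
    have e1 : 1 / w ^ 2 * (2 : ℝ) ^ (4 / 3 * (j : ℝ)) * (2 : ℝ) ^ (1 / 12 * (j : ℝ)) = (2 : ℝ) ^ (-(1 / 12) * (j : ℝ)) := by
      have e3 : 1 / w ^ 2 = (2 : ℝ) ^ (-(3 / 2) * (j : ℝ)) := by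
        rw [hw, ← Real.rpow_natCast, ← Real.rpow_mul (by norm_num), one_div, ← Real.rpow_neg (by norm_num)]
        congr 1
        push_cast
        ring
      rw [e3, ← Real.rpow_add (by norm_num), ← Real.rpow_add (by norm_num)]
      congr 1
      ring
    calc Ub r * min 1 (Ub r / Ub (r + j)) / m r * (m (r + j) / m r) ^ (1 / 16 : ℝ)
        = Ub r * min 1 (Ub r / Ub (r + j)) * (1 / m r) * (m (r + j) / m r) ^ (1 / 16 : ℝ) := by ring
      _ ≤ R ^ 2 / w ^ 2 * Ub (r + j) * (S * (2 : ℝ) ^ (4 / 3 * (j : ℝ)) / m (r + j)) *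
          (S * (2 : ℝ) ^ (1 / 12 * (j : ℝ))) := by
          refine mul_le_mul (mul_le_mul a1 a2 (by positivity) (by positivity)) a3 (by positivity) (by positivity)
      _ = R ^ 2 * S ^ 2 * (Ub (r + j) / m (r + j)) *
          (1 / w ^ 2 * (2 : ℝ) ^ (4 / 3 * (j : ℝ)) * (2 : ℝ) ^ (1 / 12 * (j : ℝ))) := by ring
      _ = R ^ 2 * S ^ 2 * (Ub (r + j) / m (r + j)) * (2 : ℝ) ^ (-(1 / 12) * (j : ℝ)) := by rw [e1]
      _ ≤ (R + R ^ 2) * S ^ 2 * (Ub (r + j) / m (r + j)) * (2 : ℝ) ^ (-(1 / 12) * (j : ℝ)) := by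
          gcongr
          linarith

/-- the weight of the continuity -/
noncomputable def Gd (d : ℝ) (θ : ℝ) : ℝ≥0∞ := ENNReal.ofReal (min 2 (|θ| * d))

lemma int_Gd {m : ℕ → ℝ} (hm : MLow m) (hu : MUp m) : ∃ C : ℝ, 0 < C ∧ ∀ (r : ℕ) (d : ℝ), 0 ≤ d →
    ∫⁻ θ in Er m r, Gd d θ ≤ ENNReal.ofReal (C / m r * min 1 (d / m r)) := by
  obtain ⟨Ce, hCe, hE⟩ := JoT.vol_Er hm hu
  obtain ⟨Cm, hCm, hu⟩ := hu
  have hm0 := hm.pos 0
  obtain ⟨K, hK⟩ : ∃ K : ℝ, K = 2 + Cm + 2 * m 0 := ⟨_, rfl⟩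
  have hK0 : 0 < K := by rw [hK]; linarith
  refine ⟨K * Ce, by positivity, fun r d hd => ?_⟩
  have hmr := hm.pos r
  have hmin : 0 ≤ min 1 (d / m r) := le_min one_pos.le (by positivity)
  have h1 : ∀ θ ∈ Er m r, Gd d θ ≤ ENNReal.ofReal (K * min 1 (d / m r)) := by
    intro θ hθ
    refine ENNReal.ofReal_le_ofReal ?_
    have h2 : |θ| * d ≤ K * (d / m r) := by
      have h3 : |θ| * m r ≤ K := by
        rcases r with _ | r
        · have h4 := hθ.1
          have h5 := Real.pi_le_four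
          calc |θ| * m 0 ≤ 2 * m 0 := by
                refine mul_le_mul_of_nonneg_right ?_ hm0.le
                linarith
            _ ≤ K := by rw [hK]; linarith
        · have h4 := hθ.2.2 r (by omega)
          have h5 := hu r
          have h6 := abs_nonneg θ
          calc |θ| * m (r + 1) ≤ |θ| * (Cm * m r) := mul_le_mul_of_nonneg_left h5 h6
            _ = Cm * (|θ| * m r) := by ring
            _ ≤ Cm * 1 := by gcongr
            _ ≤ K := by rw [hK]; linarith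
      calc |θ| * d = (|θ| * m r) * (d / m r) := by field_simp
        _ ≤ K * (d / m r) := mul_le_mul_of_nonneg_right h3 (by positivity)
    rcases le_total 1 (d / m r) with h3 | h3
    · rw [min_eq_left h3, mul_one]
      refine (min_le_left _ _).trans ?_
      rw [hK]
      linarith
    · rw [min_eq_right h3]
      exact (min_le_right _ _).trans h2
  refine (setLIntegral_mono' (meas_Er m r) h1).trans ?_
  rw [setLIntegral_const]
  refine (mul_le_mul' le_rfl (hE r)).trans (le_of_eq ?_)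
  rw [← ENNReal.ofReal_mul (by positivity)]
  congr 1
  ring

lemma min_le_rpow {x : ℝ} (hx : 0 ≤ x) : min 1 x ≤ x ^ (1 / 16 : ℝ) := by
  rcases le_total 1 x with h | h
  · rw [min_eq_left h]
    exact Real.one_le_rpow h (by norm_num)
  · rw [min_eq_right h]
    rcases hx.eq_or_lt with h0 | h0
    · rw [← h0]
      positivity
    · nth_rewrite 1 [← Real.rpow_one x]
      exact Real.rpow_le_rpow_of_exponent_ge h0 h (by norm_num)

/-- **the sum over the scales of the phase** -/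
theorem sum_scales {m : ℕ → ℝ} (hm : MLow m) (hu : MUp m) (hs : Sh43 m) : ∃ C : ℝ, 0 < C ∧ ∀ (k : ℕ) (d B : ℝ), 0 ≤ d →
    0 ≤ B → ∑' r : ℕ, ENNReal.ofReal (B * (Ub r * min 1 (Ub r / Ub k))) * ∫⁻ θ in Er m r, Gd d θ ≤
      ENNReal.ofReal (C * B * (Ub k / m k) * (d / m k) ^ (1 / 16 : ℝ)) := by
  obtain ⟨Ct, lam, hCt, h0, h1, hT⟩ := termS hm.pos hs
  obtain ⟨Cg, hCg, hI⟩ := int_Gd hm hu
  have h1l : 0 < 1 - lam := by linarith
  refine ⟨Ct * Cg * (2 / (1 - lam)), by positivity, fun k d B hd hB => ?_⟩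
  have hUk := Ub_pos k
  have hmk := hm.pos k
  have h6 : ∀ r, ENNReal.ofReal (B * (Ub r * min 1 (Ub r / Ub k))) * ∫⁻ θ in Er m r, Gd d θ ≤
      ENNReal.ofReal (Ct * Cg * B * (Ub k / m k) * (d / m k) ^ (1 / 16 : ℝ)) *
        ENNReal.ofReal (lam ^ ((k - r) + (r - k))) := by
    intro r
    have hUr := Ub_pos r
    have hmr := hm.pos r
    have h8 : 0 ≤ min 1 (Ub r / Ub k) := le_min one_pos.le (by positivity)
    refine (mul_le_mul' le_rfl (hI r d hd)).trans ?_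
    rw [← ENNReal.ofReal_mul (by positivity), ← ENNReal.ofReal_mul (by positivity)]
    refine ENNReal.ofReal_le_ofReal ?_
    have h9 : min 1 (d / m r) ≤ (d / m k) ^ (1 / 16 : ℝ) * (m k / m r) ^ (1 / 16 : ℝ) := by
      refine (min_le_rpow (by positivity)).trans (le_of_eq ?_)
      rw [← Real.mul_rpow (by positivity) (by positivity)]
      congr 1
      field_simp
    calc B * (Ub r * min 1 (Ub r / Ub k)) * (Cg / m r * min 1 (d / m r))
        ≤ B * (Ub r * min 1 (Ub r / Ub k)) * (Cg / m r * ((d / m k) ^ (1 / 16 : ℝ) * (m k / m r) ^ (1 / 16 : ℝ))) := by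
          gcongr
      _ = B * Cg * (d / m k) ^ (1 / 16 : ℝ) * (Ub r * min 1 (Ub r / Ub k) / m r * (m k / m r) ^ (1 / 16 : ℝ)) := by ring
      _ ≤ B * Cg * (d / m k) ^ (1 / 16 : ℝ) * (Ct * (Ub k / m k) * lam ^ ((k - r) + (r - k))) := by
          have := hT k r
          gcongr
      _ = _ := by ring
  refine (ENNReal.tsum_le_tsum h6).trans ?_
  rw [ENNReal.tsum_mul_left]
  refine (mul_le_mul' le_rfl (JoT.geo h0 h1 k)).trans (le_of_eq ?_)
  rw [← ENNReal.ofReal_mul (by positivity)]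
  congr 1
  ring

/-- the shells, any function -/
theorem shellsF {m : ℕ → ℝ} (hm : MLow m) {k : ℕ} {B : ℝ} {F : ℝ → ℂ} (hF : ∀ (r : ℕ) (θ : ℝ), |θ| ≤ Real.pi / 2 →
    1 ≤ |θ| * m r → ‖F θ‖ ≤ B * (Ub r * min 1 (Ub r / Ub k))) (G : ℝ → ℝ≥0∞) :
    ∫⁻ θ in Set.Icc (-(Real.pi / 2)) (Real.pi / 2), ‖F θ‖ₑ * G θ ≤
      ∑' r : ℕ, ENNReal.ofReal (B * (Ub r * min 1 (Ub r / Ub k))) * ∫⁻ θ in Er m r, G θ := by
  classical
  have h1 : Set.Icc (-(Real.pi / 2)) (Real.pi / 2) ⊆ {0} ∪ ⋃ r, Er m r := by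
    intro θ hθ
    by_cases h0 : θ = 0
    · exact Or.inl h0
    · right
      have hex : ∃ r, 1 ≤ |θ| * m r := by
        have hm0 := hm.pos 0
        have hθ0 : 0 < |θ| := abs_pos.2 h0
        obtain ⟨r, hr⟩ := exists_nat_gt (1 / (|θ| * m 0))
        refine ⟨r, ?_⟩
        have h2 := hm.low 0 r
        rw [Nat.zero_add] at h2
        have h3 : (r : ℝ) ≤ (2 : ℝ) ^ (5 / 4 * (r : ℝ)) := by
          have h4 : (r : ℝ) ≤ (2 : ℝ) ^ (r : ℝ) := by
            rw [Real.rpow_natCast]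
            exact_mod_cast Nat.lt_two_pow_self.le
          refine h4.trans (Real.rpow_le_rpow_of_exponent_le (by norm_num) ?_)
          have : (0 : ℝ) ≤ r := Nat.cast_nonneg r
          linarith
        rw [div_lt_iff₀ (by positivity)] at hr
        calc (1 : ℝ) ≤ r * (|θ| * m 0) := hr.le
          _ = |θ| * (r * m 0) := by ring
          _ ≤ |θ| * ((2 : ℝ) ^ (5 / 4 * (r : ℝ)) * m 0) := by gcongr
          _ ≤ _ := by gcongr
      rw [Set.mem_iUnion]
      exact ⟨Nat.find hex, abs_le.2 hθ, Nat.find_spec hex, fun s hs => not_le.1 (Nat.find_min hex hs)⟩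
  refine (lintegral_mono_set h1).trans ((lintegral_union_le _ _ _).trans ?_)
  have h2 : ∫⁻ θ in ({0} : Set ℝ), ‖F θ‖ₑ * G θ = 0 := by
    rw [Measure.restrict_singleton]
    simp
  rw [h2, zero_add]
  refine (lintegral_iUnion_le _ _).trans (ENNReal.tsum_le_tsum fun r => ?_)
  rw [← lintegral_const_mul' _ _ ENNReal.ofReal_ne_top]
  refine setLIntegral_mono' (meas_Er m r) fun θ hθ => mul_le_mul' ?_ le_rfl
  rw [← ofReal_norm]
  exact ENNReal.ofReal_le_ofReal (hF r θ hθ.1 hθ.2.1)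

lemma exp_diff (θ : ℝ) (b b' : ℕ) : ‖Complex.exp (-(((θ * b : ℝ) : ℂ) * Complex.I)) -
    Complex.exp (-(((θ * b' : ℝ) : ℂ) * Complex.I))‖ ≤ min 2 (|θ| * |(b : ℝ) - b'|) := by
  have e : ∀ c : ℕ, Complex.exp (-(((θ * c : ℝ) : ℂ) * Complex.I)) = Complex.exp (((-(θ * c) : ℝ) : ℂ) * Complex.I) := by
    intro c
    push_cast
    rw [neg_mul]
  have n : ∀ c : ℕ, ‖Complex.exp (-(((θ * c : ℝ) : ℂ) * Complex.I))‖ = 1 := by
    intro c
    rw [e, Complex.norm_exp_ofReal_mul_I]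
  refine le_min ?_ ?_
  · refine (norm_sub_le _ _).trans ?_
    rw [n, n]
    norm_num
  · have h1 : Complex.exp (-(((θ * b : ℝ) : ℂ) * Complex.I)) - Complex.exp (-(((θ * b' : ℝ) : ℂ) * Complex.I)) =
        Complex.exp (-(((θ * b' : ℝ) : ℂ) * Complex.I)) * (Complex.exp (Complex.I * ((θ * (b' - b) : ℝ) : ℂ)) - 1) := by
      rw [mul_sub, mul_one, ← Complex.exp_add]
      congr 2
      push_cast
      ring
    rw [h1, norm_mul, n, one_mul]
    refine (Real.norm_exp_I_mul_ofReal_sub_one_le).trans (le_of_eq ?_)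
    rw [Real.norm_eq_abs, abs_mul, abs_sub_comm]

/-- the difference of two coefficients -/
lemma diff_int {F : ℝ → ℂ} (hF : Continuous F) {P P' : ℝ} {b b' : ℕ}
    (h : ∫ θ in (-(Real.pi / 2))..(Real.pi / 2), F θ * Complex.exp (-(((θ * b : ℝ) : ℂ) * Complex.I)) = Real.pi * (P : ℂ))
    (h' : ∫ θ in (-(Real.pi / 2))..(Real.pi / 2), F θ * Complex.exp (-(((θ * b' : ℝ) : ℂ) * Complex.I)) =
      Real.pi * (P' : ℂ)) :
    ENNReal.ofReal |P - P'| ≤ ∫⁻ θ in Set.Icc (-(Real.pi / 2)) (Real.pi / 2), ‖F θ‖ₑ * Gd |(b : ℝ) - b'| θ := by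
  have hpi := Real.pi_gt_three
  have hc : ∀ c : ℕ, Continuous fun θ : ℝ => F θ * Complex.exp (-(((θ * c : ℝ) : ℂ) * Complex.I)) := fun c => by
    fun_prop
  have h1 : ∫ θ in (-(Real.pi / 2))..(Real.pi / 2), F θ * (Complex.exp (-(((θ * b : ℝ) : ℂ) * Complex.I)) -
      Complex.exp (-(((θ * b' : ℝ) : ℂ) * Complex.I))) = Real.pi * ((P - P' : ℝ) : ℂ) := by
    have h2 : ∀ θ : ℝ, F θ * (Complex.exp (-(((θ * b : ℝ) : ℂ) * Complex.I)) -
        Complex.exp (-(((θ * b' : ℝ) : ℂ) * Complex.I))) = F θ * Complex.exp (-(((θ * b : ℝ) : ℂ) * Complex.I)) -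
          F θ * Complex.exp (-(((θ * b' : ℝ) : ℂ) * Complex.I)) := fun θ => mul_sub _ _ _
    simp only [h2]
    rw [intervalIntegral.integral_sub ((hc b).intervalIntegrable _ _) ((hc b').intervalIntegrable _ _), h, h']
    push_cast
    ring
  rw [intervalIntegral.integral_of_le (by linarith)] at h1
  have h2 := enorm_integral_le_lintegral_enorm (μ := volume.restrict (Set.Ioc (-(Real.pi / 2)) (Real.pi / 2)))
    (fun θ : ℝ => F θ * (Complex.exp (-(((θ * b : ℝ) : ℂ) * Complex.I)) -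
      Complex.exp (-(((θ * b' : ℝ) : ℂ) * Complex.I))))
  rw [h1] at h2
  have h3 : ENNReal.ofReal |P - P'| ≤ ‖(Real.pi : ℂ) * ((P - P' : ℝ) : ℂ)‖ₑ := by
    rw [← ofReal_norm, norm_mul, Complex.norm_real, Complex.norm_real, Real.norm_of_nonneg Real.pi_pos.le,
      Real.norm_eq_abs]
    refine ENNReal.ofReal_le_ofReal ?_
    have h4 := abs_nonneg (P - P')
    nlinarith
  refine h3.trans (h2.trans ((lintegral_mono fun θ => ?_).trans (lintegral_mono_set Set.Ioc_subset_Icc_self)))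
  rw [← ofReal_norm, norm_mul, ENNReal.ofReal_mul (norm_nonneg _), ofReal_norm]
  exact mul_le_mul' le_rfl (ENNReal.ofReal_le_ofReal (exp_diff θ b b'))

lemma cont_Fo {A : Set (List Bool)} (hA : gf A ≠ ⊤) {φ : Pt → ℂ} {M : ℝ} (hφ : ∀ z, ‖φ z‖ ≤ M) :
    Continuous fun θ => Fo θ A φ := by
  unfold Fo
  refine continuous_tsum (fun t => ?_) ((sum_wE hA).mul_right M) fun t θ => ?_
  · unfold wp
    fun_prop
  · rw [norm_mul, norm_wp]
    exact mul_le_mul_of_nonneg_left (hφ _) ENNReal.toReal_nonneg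

/-- inversion for a set of words -/
lemma invA {A : Set (List Bool)} (hA : gf A ≠ ⊤) (hev : ∀ t ∈ A, Even t.length) {b : ℕ} (hb : Even b) :
    ∫ θ in (-(Real.pi / 2))..(Real.pi / 2), Fo θ A (fun _ => 1) * Complex.exp (-(((θ * b : ℝ) : ℂ) * Complex.I)) =
      Real.pi * ((gf {t | t ∈ A ∧ t.length = b}).toReal : ℂ) := by
  classical
  have h1 := intervalIntegral.hasSum_integral_of_dominated_convergence (μ := volume)
    (a := -(Real.pi / 2)) (b := Real.pi / 2)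
    (F := fun (t : A) (θ : ℝ) => wp θ t.1 * 1 * Complex.exp (-(((θ * b : ℝ) : ℂ) * Complex.I)))
    (f := fun θ => Fo θ A (fun _ => 1) * Complex.exp (-(((θ * b : ℝ) : ℂ) * Complex.I)))
    (fun t _ => (wE t.1).toReal) ?_ ?_ ?_ ?_ ?_
  · rw [← h1.tsum_eq]
    have hne : ∀ t : A, wE t.1 ≠ ⊤ := fun t => ENNReal.ne_top_of_tsum_ne_top hA t
    have h2 : (gf {t | t ∈ A ∧ t.length = b}).toReal = ∑' t : A, (if t.1.length = b then (wE t.1).toReal else 0) := by
      have h3 : gf {t | t ∈ A ∧ t.length = b} = ∑' t : A, (if t.1.length = b then wE t.1 else 0) := by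
        unfold gf
        rw [_root_.tsum_subtype {t | t ∈ A ∧ t.length = b} (fun t => wE t),
          _root_.tsum_subtype A (fun t => if t.length = b then wE t else 0)]
        refine tsum_congr fun t => ?_
        rw [Set.indicator_apply, Set.indicator_apply]
        by_cases h4 : t ∈ A
        · by_cases h5 : t.length = b
          · have h6 : t ∈ {t | t ∈ A ∧ t.length = b} := ⟨h4, h5⟩
            rw [if_pos h6, if_pos h4, if_pos h5]
          · have h6 : t ∉ {t | t ∈ A ∧ t.length = b} := fun h7 => h5 h7.2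
            rw [if_neg h6, if_pos h4, if_neg h5]
        · have h6 : t ∉ {t | t ∈ A ∧ t.length = b} := fun h7 => h4 h7.1
          rw [if_neg h6, if_neg h4]
      rw [h3, ENNReal.tsum_toReal_eq]
      · refine tsum_congr fun t => ?_
        split_ifs <;> simp
      · intro t
        split_ifs
        · exact hne t
        · simp
    rw [h2, Complex.ofReal_tsum, ← tsum_mul_left]
    refine tsum_congr fun t => ?_
    have h3 : ∀ θ : ℝ, wp θ t.1 * 1 * Complex.exp (-(((θ * b : ℝ) : ℂ) * Complex.I)) =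
        (((wE t.1).toReal : ℝ) : ℂ) * Complex.exp (((((t.1.length : ℕ) : ℤ) - (b : ℤ) : ℤ) : ℂ) * Complex.I * (θ : ℂ)) := by
      intro θ
      unfold wp
      rw [mul_one, mul_assoc, ← Complex.exp_add]
      congr 2
      push_cast
      ring
    simp only [h3]
    rw [intervalIntegral.integral_const_mul, IvT.int_exp]
    · by_cases h4 : t.1.length = b
      · rw [if_pos h4, h4, if_pos (by simp)]
        ring
      · rw [if_neg h4, if_neg (by
          intro h5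
          apply h4
          have : ((t.1.length : ℕ) : ℤ) = b := by linarith
          exact_mod_cast this)]
        simp
    · have h4 : Even ((t.1.length : ℕ) : ℤ) := by exact_mod_cast hev t.1 t.2
      have h6 : Even (b : ℤ) := by exact_mod_cast hb
      exact h4.sub h6
  · intro t
    unfold wp
    fun_prop
  · intro t
    refine Filter.Eventually.of_forall fun θ _ => ?_
    rw [norm_mul, mul_one, norm_wp, ← neg_mul, ← Complex.ofReal_neg, Complex.norm_exp_ofReal_mul_I, mul_one]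
  · exact Filter.Eventually.of_forall fun θ _ => sum_wE hA
  · exact intervalIntegrable_const
  · exact Filter.Eventually.of_forall fun θ _ => (summ (φ := fun _ => 1) (M := 1) hA fun _ => by simp).hasSum.mul_right _

end CoT

open CoT

/-- **row V: the pairs** -/
theorem pairC_of {m : ℕ → ℝ} (hm : MLow m) (hu : MUp m) (hs : Sh43 m) (hF : FvB m) : PairC m := by
  obtain ⟨C, hC, hF⟩ := hF
  obtain ⟨C1, hC1, hS⟩ := sum_scales hm hu hs
  refine ⟨C1 * C, 0, by positivity, fun k v b b' _ hb hb' => ?_⟩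
  have hn : 1 ≤ 2 ^ k := Nat.one_le_two_pow
  have hUk := Ub_pos k
  have hmk := hm.pos k
  have h1 := diff_int (cont_Fv hn v) (inv hn v hb) (inv hn v hb')
  have h2 := shellsF hm (k := k) (B := C * (Ub k / 4 ^ k)) (F := Fv (2 ^ k) v) (fun r θ h3 h4 => hF k r v θ h3 h4)
    (Gd |(b : ℝ) - b'|)
  have h3 := hS k |(b : ℝ) - b'| (C * (Ub k / 4 ^ k)) (abs_nonneg _) (by positivity)
  have h4 := (h1.trans (h2.trans h3))
  rw [ENNReal.ofReal_le_ofReal_iff (by positivity)] at h4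
  refine h4.trans (le_of_eq ?_)
  field_simp

/-- **row V: the total variation over the displacements** -/
theorem tvx_of {m : ℕ → ℝ} (hm : MLow m) (hu : MUp m) (hs : Sh43 m) (hF : ScB m) : TVX m := by
  classical
  obtain ⟨C, hC, hF⟩ := hF
  obtain ⟨C1, hC1, hS⟩ := sum_scales hm hu hs
  refine ⟨C1 * C, 0, by positivity, fun k b b' D _ hb hb' hD => ?_⟩
  have hn : 1 ≤ 2 ^ k := Nat.one_le_two_pow
  have hUk := Ub_pos k
  have hmk := hm.pos k
  obtain ⟨s, hs'⟩ : ∃ s : Pt → ℝ, s = fun z => if 0 ≤ gz z b - gz z b' then 1 else -1 := ⟨_, rfl⟩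
  have hsa : ∀ z, s z * (gz z b - gz z b') = |gz z b - gz z b'| := by
    intro z
    rw [hs']
    show (if 0 ≤ gz z b - gz z b' then (1 : ℝ) else -1) * (gz z b - gz z b') = _
    split_ifs with h
    · rw [one_mul, abs_of_nonneg h]
    · rw [abs_of_neg (not_le.1 h)]
      ring
  have hs1 : ∀ z, ‖((s z : ℝ) : ℂ)‖ ≤ 1 := by
    intro z
    rw [Complex.norm_real, Real.norm_eq_abs, hs']
    show |(if 0 ≤ gz z b - gz z b' then (1 : ℝ) else -1)| ≤ 1
    split_ifs <;> simp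
  obtain ⟨φ, hφ⟩ : ∃ φ : Pt → ℂ, φ = fun z => if z ∈ D then ((s z : ℝ) : ℂ) else 0 := ⟨_, rfl⟩
  have hφ1 : ∀ z, ‖φ z‖ ≤ 1 := by
    intro z
    rw [hφ]
    show ‖(if z ∈ D then ((s z : ℝ) : ℂ) else 0)‖ ≤ 1
    split_ifs
    · exact hs1 z
    · simp
  obtain ⟨S, hSd⟩ : ∃ S : Finset ℕ, S = D.image RcT.hz := ⟨_, rfl⟩
  have hSk : ∀ h ∈ S, 2 ^ k ≤ h := by
    intro h hh
    rw [hSd] at hh
    obtain ⟨z, hz, rfl⟩ := Finset.mem_image.1 hh
    have h1 := hD z hz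
    unfold RcT.hz
    have h2 : ((2 ^ k : ℕ) : ℤ) ≤ ip z up / 3 := by
      rw [Int.le_ediv_iff_mul_le (by norm_num)]
      push_cast
      linarith
    omega
  obtain ⟨A, hA⟩ : ∃ A : Pt → Set (List Bool), A = fun z => {Z | Z ∈ BU ∧ en Z = z} := ⟨_, rfl⟩
  have hAm : ∀ z t, t ∈ A z ↔ t ∈ BU ∧ en t = z := fun z t => by
    rw [hA]
    exact Iff.rfl
  have hAB : ∀ z, A z ⊆ Brd (RcT.hz z) := by
    intro z Z hZ
    rw [hA] at hZ
    obtain ⟨⟨h, h1⟩, h2⟩ := hZ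
    rw [← h2, RcT.hz_en, hgt_eq h1]
    exact h1
  have hAn : ∀ z, gf (A z) ≠ ⊤ := fun z => ne_top_of_le_ne_top (RcT.gf_Brd_ne _) (gf_mono (hAB z))
  have hdec : ∀ θ : ℝ, ∑ h ∈ S, Fo θ (Brd h) φ = ∑ z ∈ D, ((s z : ℝ) : ℂ) * Fo θ (A z) (fun _ => 1) := by
    intro θ
    have hBn : gf (⋃ h ∈ S, Brd h) ≠ ⊤ := by
      refine ne_top_of_le_ne_top ?_ (JumpVaux.gf_biUnion_le _ _)
      exact ENNReal.sum_ne_top.2 fun h _ => RcT.gf_Brd_ne h
    have h1 : Fo θ (⋃ h ∈ S, Brd h) φ = ∑ h ∈ S, Fo θ (Brd h) φ := by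
      refine Fo_biUnion _ (fun h _ => RcT.gf_Brd_ne h) (fun i _ j _ hij => ?_) hφ1
      rw [Set.disjoint_left]
      intro t hi hj
      exact hij (Brd_height hi hj)
    have h2 : Fo θ (⋃ z ∈ D, A z) φ = ∑ z ∈ D, Fo θ (A z) φ := by
      refine Fo_biUnion _ (fun z _ => hAn z) (fun i _ j _ hij => ?_) hφ1
      rw [Set.disjoint_left]
      intro t hi hj
      rw [hA] at hi hj
      exact hij (hi.2.symm.trans hj.2)
    have h3 : Fo θ (⋃ h ∈ S, Brd h) φ = Fo θ (⋃ z ∈ D, A z) φ := by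
      refine RcT.Fo_sub ?_ hBn hφ1 fun t ht hn' => ?_
      · intro t ht
        simp only [Set.mem_iUnion, exists_prop] at ht ⊢
        obtain ⟨z, hz, hzt⟩ := ht
        refine ⟨RcT.hz z, ?_, hAB z hzt⟩
        rw [hSd]
        exact Finset.mem_image_of_mem _ hz
      · rw [hφ]
        show (if en t ∈ D then _ else _) = (0 : ℂ)
        rw [if_neg]
        intro h4
        apply hn'
        simp only [Set.mem_iUnion, exists_prop] at ht ⊢
        obtain ⟨h, hh, hht⟩ := ht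
        refine ⟨en t, h4, ?_⟩
        rw [hA]
        exact ⟨⟨h, hht⟩, rfl⟩
    rw [← h1, h3, h2]
    refine Finset.sum_congr rfl fun z hz => ?_
    unfold Fo
    rw [← tsum_mul_left]
    refine tsum_congr fun t => ?_
    have h4 : en t.1 = z := ((hAm z t.1).1 t.2).2
    have h5 : φ (en t.1) = ((s z : ℝ) : ℂ) := by
      rw [hφ]
      show (if en t.1 ∈ D then ((s (en t.1) : ℝ) : ℂ) else 0) = _
      rw [h4, if_pos hz]
    rw [h5]
    ring
  have hcF : Continuous fun θ => ∑ h ∈ S, Fo θ (Brd h) φ :=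
    continuous_finsetSum _ fun h _ => cont_Fo (RcT.gf_Brd_ne h) hφ1
  have hinv : ∀ c : ℕ, Even c → ∫ θ in (-(Real.pi / 2))..(Real.pi / 2), (∑ h ∈ S, Fo θ (Brd h) φ) *
      Complex.exp (-(((θ * c : ℝ) : ℂ) * Complex.I)) = Real.pi * ((∑ z ∈ D, s z * gz z c : ℝ) : ℂ) := by
    intro c hc
    have h1 : ∀ θ : ℝ, (∑ h ∈ S, Fo θ (Brd h) φ) * Complex.exp (-(((θ * c : ℝ) : ℂ) * Complex.I)) =
        ∑ z ∈ D, ((s z : ℝ) : ℂ) * (Fo θ (A z) (fun _ => 1) * Complex.exp (-(((θ * c : ℝ) : ℂ) * Complex.I))) := by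
      intro θ
      rw [hdec, Finset.sum_mul]
      exact Finset.sum_congr rfl fun z _ => by ring
    simp only [h1]
    rw [intervalIntegral.integral_finsetSum]
    · rw [Complex.ofReal_sum, Finset.mul_sum]
      refine Finset.sum_congr rfl fun z _ => ?_
      rw [intervalIntegral.integral_const_mul, invA (hAn z) (fun t ht => BrL.even_length (hAB z ht)) hc]
      have h2 : (gf {t | t ∈ A z ∧ t.length = c}).toReal = gz z c := by
        unfold gz
        rw [hA]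
        congr 2
        ext t
        exact and_assoc
      rw [h2, Complex.ofReal_mul]
      ring
    · intro z _
      refine Continuous.intervalIntegrable ?_ _ _
      have := cont_Fo (hAn z) (φ := fun _ => 1) (M := 1) fun _ => by simp
      fun_prop
  have h1 := diff_int hcF (hinv b hb) (hinv b' hb')
  have h2 := shellsF hm (k := k) (B := C) (F := fun θ => ∑ h ∈ S, Fo θ (Brd h) φ)
    (fun r θ h3 h4 => hF r θ h3 h4 (2 ^ k) hn S hSk φ hφ1) (Gd |(b : ℝ) - b'|)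
  have h3 := hS k |(b : ℝ) - b'| C (abs_nonneg _) hC.le
  have h4 := (h1.trans (h2.trans h3))
  rw [ENNReal.ofReal_le_ofReal_iff (by positivity)] at h4
  have h5 : ∑ z ∈ D, s z * gz z b - ∑ z ∈ D, s z * gz z b' = ∑ z ∈ D, |gz z b - gz z b'| := by
    rw [← Finset.sum_sub_distrib]
    exact Finset.sum_congr rfl fun z _ => by rw [← mul_sub, hsa]
  rw [h5] at h4
  exact (le_abs_self _).trans h4

end JNT

end HexObs
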