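import Pool.Agent.JNT.Nd
import Pool.Agent.BAR13.Low

/-!
JNT, row K: the blocks contract.
-/

set_option autoImplicit false

namespace HexObs

namespace JNT

open Finset TS EN.LB

open scoped ENNReal

lemma irr_unique {y y' r r' : ℕ} {X X' P P' : List Bool} (hX : X ∈ Brd y) (hX' : X' ∈ Brd y') (hP : P ∈ Irr r)
    (hP' : P' ∈ Irr r') (h : X ++ P = X' ++ P') : X = X' := by
  have key : ∀ {y y' r r' : ℕ} {X X' P P' : List Bool}, X ∈ Brd y → X' ∈ Brd y' → P ∈ Irr r → P' ∈ Irr r' →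
      X ++ P = X' ++ P' → y ≤ y' → X = X' := by
    intro y y' r r' X X' P P' hX hX' hP hP' h hy
    obtain ⟨v, hv, h1, h2⟩ := FCaux.nested hX hX' hP.1 hP'.1 hy h
    rcases hP.2.2 _ _ _ _ hv hP'.1 h2 with h3 | h3
    · rw [h1, h3, List.append_nil]
    · exact absurd h3 hP'.2.1
  rcases Nat.le_total y y' with hy | hy
  · exact key hX hX' hP hP' h hy
  · exact (key hX' hX hP' hP h.symm hy).symm

lemma Tp_irr {q : ℕ} {P : List Bool} (h : P ∈ Tp q) : ∃ r, P ∈ Irr r := by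
  obtain ⟨r, -, h⟩ := h
  exact ⟨r, h⟩

/-- **row K** -/
theorem conB_of {m : ℕ → ℝ} (hN : NdB m) : ConB m := by
  obtain ⟨C, k0, c, hc, hN⟩ := hN
  obtain ⟨c0, hc0, hK⟩ := BAR13.KK_UU
  refine ⟨C, k0, 1 - c * (c0 / 4), by nlinarith [mul_pos hc hc0], fun k θ hk h1 h2 φ hφ => ?_⟩
  have hN := hN k θ hk h1 h2
  obtain ⟨N, hNd⟩ : ∃ N, N = 2 ^ (k + 2) := ⟨_, rfl⟩
  have hNk : N = 4 * 2 ^ k := by rw [hNd, pow_add]; ring
  have hk1 : 1 ≤ 2 ^ k := Nat.one_le_two_pow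
  rw [← hNd]
  obtain ⟨I, hI⟩ : ∃ I : Finset ℕ, I = Ico (2 ^ k) (2 ^ (k + 1)) := ⟨_, rfl⟩
  have hIm : ∀ y ∈ I, 1 ≤ y ∧ y ≤ N := by
    intro y hy
    rw [hI, Finset.mem_Ico, pow_succ] at hy
    omega
  obtain ⟨A, hA⟩ : ∃ A : Set (List Bool), A = ⋃ y ∈ I, Brd y := ⟨_, rfl⟩
  have hAm : ∀ t, t ∈ A ↔ ∃ y ∈ I, t ∈ Brd y := fun t => by
    rw [hA]
    simp only [Set.mem_iUnion, exists_prop]
  have hAU : A ⊆ BU := by
    intro t ht
    obtain ⟨y, -, h3⟩ := (hAm t).1 ht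
    exact ⟨y, h3⟩
  have hdis : ∀ i ∈ I, ∀ j ∈ I, i ≠ j → Disjoint (Brd i) (Brd j) := by
    intro i _ j _ hij
    rw [Set.disjoint_left]
    intro t h3 h4
    exact hij (Brd_height h3 h4)
  have hAg : gf A = ∑ y ∈ I, gf (Brd y) := by rw [hA]; exact gf_biUnion I _ hdis
  have hAne : gf A ≠ ⊤ := by
    rw [hAg]
    exact ENNReal.sum_ne_top.2 fun y _ => gf_Brd_ne y
  have hTg : gf (Tp N) = ENNReal.ofReal (KK' N) := gf_Tp N
  have hTne : gf (Tp N) ≠ ⊤ := by rw [hTg]; exact ENNReal.ofReal_ne_top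
  obtain ⟨T, hT⟩ : ∃ T : Set (List Bool), T = {t | ∃ a ∈ A, ∃ b ∈ Tp N, t = a ++ b} := ⟨_, rfl⟩
  have hTm : ∀ t, t ∈ T ↔ ∃ a ∈ A, ∃ b ∈ Tp N, t = a ++ b := fun t => by rw [hT]; exact Iff.rfl
  have hinj : ∀ a ∈ A, ∀ b ∈ Tp N, ∀ a' ∈ A, ∀ b' ∈ Tp N, a ++ b = a' ++ b' → a = a' := by
    intro a ha b hb a' ha' b' hb' h
    obtain ⟨y, -, h3⟩ := (hAm a).1 ha
    obtain ⟨y', -, h4⟩ := (hAm a').1 ha'
    obtain ⟨r, h5⟩ := Tp_irr hb
    obtain ⟨r', h6⟩ := Tp_irr hb'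
    exact irr_unique h3 h4 h5 h6 h
  have hTB : T ⊆ EN.LB.Bk N := by
    intro t ht
    obtain ⟨a, ha, b, ⟨r, hr, hb⟩, h⟩ := (hTm t).1 ht
    obtain ⟨y, hy, h3⟩ := (hAm a).1 ha
    obtain ⟨h4, h5⟩ := hIm y hy
    exact ⟨y, r, a, b, h3, hb, h5, by omega, h⟩
  have hBle := gf_Bk N
  have hBne : gf (EN.LB.Bk N) ≠ ⊤ := ne_top_of_le_ne_top ENNReal.one_ne_top hBle
  have hTne' : gf T ≠ ⊤ := ne_top_of_le_ne_top hBne (gf_mono hTB)
  have hRne : gf (EN.LB.Bk N \ T) ≠ ⊤ := ne_top_of_le_ne_top hBne (gf_mono Set.sdiff_subset)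
  have hmT : gf A * gf (Tp N) ≤ gf T :=
    mul_le_gf (fun a ha b hb => (hTm _).2 ⟨a, ha, b, hb, rfl⟩) fun a ha b hb a' ha' b' hb' hab =>
      hinj a ha b hb a' ha' b' hb' hab
  have hKn := KK_nonneg N
  -- the masses
  have hsu : (gf A).toReal = ∑ y ∈ I, uu y := by
    rw [hAg, ENNReal.toReal_sum fun y _ => gf_Brd_ne y]
    exact Finset.sum_congr rfl fun y _ => uu_gf y
  have hmT' : (∑ y ∈ I, uu y) * KK' N ≤ (gf T).toReal := by
    have h3 := (ENNReal.toReal_le_toReal (ENNReal.mul_ne_top hAne hTne) hTne').2 hmT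
    rwa [ENNReal.toReal_mul, hsu, hTg, ENNReal.toReal_ofReal hKn] at h3
  have hmB : (gf T).toReal + (gf (EN.LB.Bk N \ T)).toReal ≤ 1 := by
    rw [← ENNReal.toReal_add hTne' hRne, ← gf_union Set.disjoint_sdiff_right, Set.union_sdiff_cancel hTB]
    exact ENNReal.toReal_le_of_le_ofReal one_pos.le (by rwa [ENNReal.ofReal_one])
  -- the first family
  obtain ⟨M, hM⟩ : ∃ M : ℝ, M = ∑ y ∈ I, uu y - c * Ub k := ⟨_, rfl⟩
  have hin : ∀ b : Tp N, ‖Fo θ A (fun z => φ (z + en b.1))‖ ≤ M := by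
    intro b
    have h3 := hN (fun _ z => φ (z + en b.1)) fun _ z => hφ _
    rw [hA, Fo_biUnion I (fun y _ => gf_Brd_ne y) hdis (fun z => hφ (z + en b.1)), hM, hI]
    exact (norm_sum_le_of_le _ fun y _ => le_rfl).trans h3
  have hF1 : ‖Fo θ T φ‖ ≤ KK' N * M := by
    rw [Fo_mul_right hAU hAne hTne hTm hinj hφ]
    refine (norm_sum_le hTne hin).trans (le_of_eq ?_)
    rw [hTg, ENNReal.toReal_ofReal hKn]
  have hF : Fo θ (EN.LB.Bk N) φ = Fo θ T φ + Fo θ (EN.LB.Bk N \ T) φ := by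
    conv_lhs => rw [← Set.union_sdiff_cancel hTB]
    exact Fo_union hTne' hRne Set.disjoint_sdiff_right hφ
  -- the lower bound of the mass of the tall pieces
  have hlow : c0 / 4 ≤ KK' N * Ub k := by
    have h3 := hK (N - 1) (by omega)
    have h4 : N - 1 + 1 = N := by omega
    rw [h4] at h3
    have h5 : UU (N - 1) ≤ 4 * Ub k := by
      have h6 : UU (N - 1) ≤ UU N := Num2Aux.UU_mono (by omega)
      have h7 : UU N ≤ 2 * UU (2 * 2 ^ k) := by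
        have : N = 2 * (2 * 2 ^ k) := by omega
        rw [this]
        exact UU_double _
      have h8 : UU (2 * 2 ^ k) ≤ 2 * UU (2 ^ k) := UU_double _
      have h9 : Ub k = UU (2 ^ k) := rfl
      linarith
    have h10 := mul_le_mul_of_nonneg_left h5 hKn
    linarith
  rw [hF]
  refine (norm_add_le _ _).trans ((add_le_add hF1 (NB_gf hRne φ hφ)).trans ?_)
  have h3 : KK' N * M = (∑ y ∈ I, uu y) * KK' N - c * (KK' N * Ub k) := by rw [hM]; ring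
  have h4 := mul_le_mul_of_nonneg_left hlow hc.le
  linarith

end JNT

end HexObs
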