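import Pool.Agent.JNT.DensPts
import Pool.Agent.JNT.LocLowP

/-!
JNT: the end point of the weak limits has a density between two Gaussian-like functions with the exponent 4 (helper83).
-/

set_option autoImplicit false

namespace NTSZ

namespace Loc

open Finset MeasureTheory Filter Topology

open HexObs hiding pos curve

open Pool.Agent.NTS.Res

open NTSF

open scoped ENNReal Classical

/-- the disc condition for the walks -/
noncomputable def inD (n : ℕ) (z : ℂ) (r : ℝ) : Finset (Fin n → Fin 3) :=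
  (saw n).filter fun s => ‖Pool.Agent.NTS.Res.pos s n / size n - z‖ ≤ r

lemma disc_iff {n : ℕ} (hn : 1 ≤ n) (w z : ℂ) (r : ℝ) : ‖w / size n - z‖ ≤ r ↔ ‖w - z * size n‖ ≤ r * size n := by
  have hs := size_pos hn
  have hs' : (size n : ℂ) ≠ 0 := by exact_mod_cast hs.ne'
  have e : w / size n - z = (w - z * size n) / size n := by field_simp
  rw [e, norm_div, Complex.norm_of_nonneg hs.le, div_le_iff₀ hs]

/-- upper bound for the number of the walks that end in a disc -/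
lemma card_up {c C cs Cs : ℝ} (hc : 0 < c) (hC : 0 < C) (hcs : 0 < cs)
    (hsz : ∀ n : ℕ, 1 ≤ n → cs * (n : ℝ) ^ (3 / 4 : ℝ) ≤ size n ∧ size n ≤ Cs * (n : ℝ) ^ (3 / 4 : ℝ))
    (hU : ∀ n : ℕ, 1 ≤ n → ∀ z : ℂ, (((saw n).filter fun s => Pool.Agent.NTS.Res.pos s n = z).card : ℝ) ≤
      C * (n : ℝ) ^ (-(3 / 2) : ℝ) * Real.exp (-(c * (‖z‖ / (n : ℝ) ^ (3 / 4 : ℝ)) ^ 4)) * ((saw n).card : ℝ))
    {n : ℕ} (hn : 1 ≤ n) {z : ℂ} {r : ℝ} (hr : 0 < r) (hr2 : r ≤ 2) (h1 : 1 ≤ r * size n) :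
    ((inD n z r).card : ℝ) ≤ 25 * C * Cs ^ 2 * Real.exp (256 * (c * cs ^ 4 / 16)) * r ^ 2 *
      Real.exp (-((c * cs ^ 4 / 16) * ‖z‖ ^ 4)) * ((saw n).card : ℝ) := by
  obtain ⟨S, hS1, hS2⟩ := pts_up (z * size n) h1
  have hs := size_pos hn
  have hn0 : (0 : ℝ) < n := by exact_mod_cast hn
  obtain ⟨ν, hν⟩ : ∃ ν : ℝ, ν = (n : ℝ) ^ (3 / 4 : ℝ) := ⟨_, rfl⟩
  have hν0 : 0 < ν := hν ▸ Real.rpow_pos_of_pos hn0 _
  have hν2 : (n : ℝ) ^ (-(3 / 2) : ℝ) = (ν ^ 2)⁻¹ := by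
    rw [hν, ← Real.rpow_natCast, ← Real.rpow_mul hn0.le, Real.rpow_neg hn0.le]
    norm_num
  have hsz' := hsz n hn
  rw [← hν] at hsz'
  obtain ⟨g, hg⟩ : ∃ g : ℝ, g = c * cs ^ 4 / 16 := ⟨_, rfl⟩
  have hg0 : 0 < g := by rw [hg]; positivity
  -- every point
  have hpt : ∀ x ∈ S, (((inD n z r).filter fun s => Pool.Agent.NTS.Res.pos s n = NTF.JJ x).card : ℝ) ≤
      C * (ν ^ 2)⁻¹ * (Real.exp (256 * g) * Real.exp (-(g * ‖z‖ ^ 4))) * ((saw n).card : ℝ) := by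
    intro x _
    by_cases hd : ‖NTF.JJ x - z * size n‖ ≤ r * size n
    · have h2 : (inD n z r).filter (fun s => Pool.Agent.NTS.Res.pos s n = NTF.JJ x) ⊆
          (saw n).filter fun s => Pool.Agent.NTS.Res.pos s n = NTF.JJ x := by
        intro s hs'
        rw [Finset.mem_filter, inD, Finset.mem_filter] at hs'
        rw [Finset.mem_filter]
        exact ⟨hs'.1.1, hs'.2⟩
      have h3 : (((inD n z r).filter fun s => Pool.Agent.NTS.Res.pos s n = NTF.JJ x).card : ℝ) ≤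
          (((saw n).filter fun s => Pool.Agent.NTS.Res.pos s n = NTF.JJ x).card : ℝ) := by
        exact_mod_cast Finset.card_le_card h2
      refine h3.trans ((hU n hn (NTF.JJ x)).trans ?_)
      rw [hν2, ← hν]
      have h4 : Real.exp (-(c * (‖NTF.JJ x‖ / ν) ^ 4)) ≤ Real.exp (256 * g) * Real.exp (-(g * ‖z‖ ^ 4)) := by
        rw [← Real.exp_add]
        apply Real.exp_le_exp.2
        have hz0 := norm_nonneg z
        rcases le_or_gt ‖z‖ 4 with h5 | h5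
        · have h6 : ‖z‖ ^ 4 ≤ 4 ^ 4 := pow_le_pow_left₀ hz0 h5 4
          have h7 : 0 ≤ c * (‖NTF.JJ x‖ / ν) ^ 4 := by positivity
          nlinarith
        · have h6 : ‖z‖ / 2 * size n ≤ ‖NTF.JJ x‖ := by
            have a1 : ‖z * size n‖ ≤ ‖NTF.JJ x‖ + ‖NTF.JJ x - z * size n‖ := by
              have := norm_sub_le (NTF.JJ x) (NTF.JJ x - z * size n)
              rwa [sub_sub_cancel] at this
            rw [norm_mul, Complex.norm_of_nonneg hs.le] at a1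
            nlinarith
          have h7 : ‖z‖ / 2 * cs ≤ ‖NTF.JJ x‖ / ν := by
            rw [le_div_iff₀ hν0]
            calc ‖z‖ / 2 * cs * ν = ‖z‖ / 2 * (cs * ν) := by ring
              _ ≤ ‖z‖ / 2 * size n := mul_le_mul_of_nonneg_left hsz'.1 (by positivity)
              _ ≤ _ := h6
          have h8 : (‖z‖ / 2 * cs) ^ 4 ≤ (‖NTF.JJ x‖ / ν) ^ 4 := pow_le_pow_left₀ (by positivity) h7 4
          have h9 : c * (‖z‖ / 2 * cs) ^ 4 = g * ‖z‖ ^ 4 := by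
            rw [hg]
            ring
          have h10 : c * (‖z‖ / 2 * cs) ^ 4 ≤ c * (‖NTF.JJ x‖ / ν) ^ 4 := mul_le_mul_of_nonneg_left h8 hc.le
          rw [h9] at h10
          linarith
      gcongr
    · have h2 : (inD n z r).filter (fun s => Pool.Agent.NTS.Res.pos s n = NTF.JJ x) = ∅ := by
        apply Finset.filter_false_of_mem
        intro s hs' he
        rw [inD, Finset.mem_filter, disc_iff hn, he] at hs'
        exact hd hs'.2
      rw [h2, card_empty, Nat.cast_zero]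
      positivity
  have hcov : (inD n z r) ⊆ S.biUnion fun x => (inD n z r).filter fun s => Pool.Agent.NTS.Res.pos s n = NTF.JJ x := by
    intro s hs'
    rw [Finset.mem_biUnion]
    obtain ⟨x, hx, -⟩ := reach_pt s n le_rfl
    refine ⟨x, hS2 x ?_, ?_⟩
    · rw [hx]
      rw [inD, Finset.mem_filter, disc_iff hn] at hs'
      exact hs'.2
    · rw [Finset.mem_filter]
      exact ⟨hs', hx.symm⟩
  have h2 : ((inD n z r).card : ℝ) ≤ ∑ x ∈ S, (((inD n z r).filter fun s => Pool.Agent.NTS.Res.pos s n = NTF.JJ x).card : ℝ) := by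
    exact_mod_cast (Finset.card_le_card hcov).trans card_biUnion_le
  refine h2.trans ((sum_le_sum hpt).trans ?_)
  rw [sum_const, nsmul_eq_mul, ← hg]
  have h3 : (S.card : ℝ) * (ν ^ 2)⁻¹ ≤ 25 * Cs ^ 2 * r ^ 2 := by
    rw [← div_eq_mul_inv, div_le_iff₀ (by positivity)]
    have h4 : r * size n ≤ r * (Cs * ν) := mul_le_mul_of_nonneg_left hsz'.2 hr.le
    have h5 : (r * size n) ^ 2 ≤ (r * (Cs * ν)) ^ 2 := pow_le_pow_left₀ (by positivity) h4 2
    calc (S.card : ℝ) ≤ 25 * (r * size n) ^ 2 := hS1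
      _ ≤ 25 * (r * (Cs * ν)) ^ 2 := by linarith
      _ = _ := by ring
  calc (S.card : ℝ) * (C * (ν ^ 2)⁻¹ * (Real.exp (256 * g) * Real.exp (-(g * ‖z‖ ^ 4))) * ((saw n).card : ℝ)) =
      (S.card : ℝ) * (ν ^ 2)⁻¹ * (C * (Real.exp (256 * g) * Real.exp (-(g * ‖z‖ ^ 4))) * ((saw n).card : ℝ)) := by ring
    _ ≤ 25 * Cs ^ 2 * r ^ 2 * (C * (Real.exp (256 * g) * Real.exp (-(g * ‖z‖ ^ 4))) * ((saw n).card : ℝ)) :=
        mul_le_mul_of_nonneg_right h3 (by positivity)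
    _ = _ := by ring

/-- lower bound for the number of the walks that end in a disc -/
lemma card_low {c C K cs Cs : ℝ} (hc : 0 < c) (hC : 0 < C) (hcs : 0 < cs)
    (hsz : ∀ n : ℕ, 1 ≤ n → cs * (n : ℝ) ^ (3 / 4 : ℝ) ≤ size n ∧ size n ≤ Cs * (n : ℝ) ^ (3 / 4 : ℝ))
    (hL : ∀ n : ℕ, 1 ≤ n → ∀ z : ℂ, (∃ s : Fin n → Fin 3, Pool.Agent.NTS.Res.pos s n = z) →
      K * (n : ℝ) ^ (3 / 4 : ℝ) ≤ ‖z‖ →
      c * (n : ℝ) ^ (-(3 / 2) : ℝ) * Real.exp (-(C * (‖z‖ / (n : ℝ) ^ (3 / 4 : ℝ)) ^ 4)) * ((saw n).card : ℝ) ≤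
        (((saw n).filter fun s => Pool.Agent.NTS.Res.pos s n = z).card : ℝ))
    {n : ℕ} (hn : 1 ≤ n) {z : ℂ} {r : ℝ} (hr : 0 < r) (hr1 : r ≤ 1) (h1 : 8 ≤ r * size n)
    (hz : 1 + K / cs ≤ ‖z‖) (hK : 0 ≤ K) (h2 : 8 * (‖z‖ * size n) + 4 * (r * size n) + 20 ≤ n) :
    c * cs ^ 2 / 256 * r ^ 2 * Real.exp (-(16 * C * Cs ^ 4 * ‖z‖ ^ 4)) * ((saw n).card : ℝ) ≤ ((inD n z r).card : ℝ) := by
  have hs := size_pos hn
  have hn0 : (0 : ℝ) < n := by exact_mod_cast hn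
  obtain ⟨S, hS1, hS2⟩ := pts_low n (z * size n) h1 (by
    rw [norm_mul, Complex.norm_of_nonneg hs.le]
    exact h2)
  obtain ⟨ν, hν⟩ : ∃ ν : ℝ, ν = (n : ℝ) ^ (3 / 4 : ℝ) := ⟨_, rfl⟩
  have hν0 : 0 < ν := hν ▸ Real.rpow_pos_of_pos hn0 _
  have hν2 : (n : ℝ) ^ (-(3 / 2) : ℝ) = (ν ^ 2)⁻¹ := by
    rw [hν, ← Real.rpow_natCast, ← Real.rpow_mul hn0.le, Real.rpow_neg hn0.le]
    norm_num
  have hsz' := hsz n hn
  rw [← hν] at hsz'
  have hz0 := norm_nonneg z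
  have hKc : 0 ≤ K / cs := div_nonneg hK hcs.le
  have hz1 : 1 ≤ ‖z‖ := by linarith
  have hpt : ∀ w ∈ S, c * (ν ^ 2)⁻¹ * Real.exp (-(16 * C * Cs ^ 4 * ‖z‖ ^ 4)) * ((saw n).card : ℝ) ≤
      (((saw n).filter fun s => Pool.Agent.NTS.Res.pos s n = w).card : ℝ) := by
    intro w hw
    obtain ⟨h3, h4⟩ := hS2 w hw
    have h5 : ‖z * size n‖ = ‖z‖ * size n := by rw [norm_mul, Complex.norm_of_nonneg hs.le]
    have h6 : K * ν ≤ ‖w‖ := by
      have a1 : ‖z * size n‖ ≤ ‖w‖ + ‖w - z * size n‖ := by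
        have := norm_sub_le w (w - z * size n)
        rwa [sub_sub_cancel] at this
      rw [h5] at a1
      have a2 : K / cs * size n ≤ (‖z‖ - r) * size n := mul_le_mul_of_nonneg_right (by linarith) hs.le
      have a3 : K * ν ≤ K / cs * size n := by
        rw [div_mul_eq_mul_div, le_div_iff₀ hcs]
        calc K * ν * cs = K * (cs * ν) := by ring
          _ ≤ K * size n := mul_le_mul_of_nonneg_left hsz'.1 hK
      linarith
    have h7 := hL n hn w h4 (by rw [← hν]; exact h6)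
    refine le_trans ?_ h7
    rw [hν2, ← hν]
    have h8 : ‖w‖ ≤ 2 * (‖z‖ * (Cs * ν)) := by
      have a1 : ‖w‖ ≤ ‖w - z * size n‖ + ‖z * size n‖ := by
        have := norm_add_le (w - z * size n) (z * size n)
        rwa [sub_add_cancel] at this
      rw [h5] at a1
      have a2 : r * size n ≤ ‖z‖ * size n := mul_le_mul_of_nonneg_right (by linarith) hs.le
      have a3 : ‖z‖ * size n ≤ ‖z‖ * (Cs * ν) := mul_le_mul_of_nonneg_left hsz'.2 hz0
      linarith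
    have h9 : ‖w‖ / ν ≤ 2 * ‖z‖ * Cs := by
      rw [div_le_iff₀ hν0]
      linarith
    have h10 : C * (‖w‖ / ν) ^ 4 ≤ 16 * C * Cs ^ 4 * ‖z‖ ^ 4 := by
      have := pow_le_pow_left₀ (by positivity) h9 4
      calc C * (‖w‖ / ν) ^ 4 ≤ C * (2 * ‖z‖ * Cs) ^ 4 := mul_le_mul_of_nonneg_left this hC.le
        _ = _ := by ring
    have h11 : Real.exp (-(16 * C * Cs ^ 4 * ‖z‖ ^ 4)) ≤ Real.exp (-(C * (‖w‖ / ν) ^ 4)) :=
      Real.exp_le_exp.2 (neg_le_neg h10)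
    gcongr
  have hdis : ∑ w ∈ S, (((saw n).filter fun s => Pool.Agent.NTS.Res.pos s n = w).card : ℝ) ≤ ((inD n z r).card : ℝ) := by
    have h3 : (S.biUnion fun w => (saw n).filter fun s => Pool.Agent.NTS.Res.pos s n = w) ⊆ inD n z r := by
      intro s hs'
      rw [Finset.mem_biUnion] at hs'
      obtain ⟨w, hw, hs'⟩ := hs'
      rw [Finset.mem_filter] at hs'
      rw [inD, Finset.mem_filter, disc_iff hn, hs'.2]
      exact ⟨hs'.1, (hS2 w hw).1⟩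
    have h4 := Finset.card_le_card h3
    rw [card_biUnion] at h4
    · exact_mod_cast h4
    · intro w _ w' _ hne
      rw [Function.onFun, Finset.disjoint_left]
      intro s h5 h6
      rw [Finset.mem_filter] at h5 h6
      exact hne (h5.2.symm.trans h6.2)
  refine le_trans ?_ hdis
  refine le_trans ?_ (sum_le_sum hpt)
  rw [sum_const, nsmul_eq_mul]
  have h3 : cs ^ 2 / 256 * r ^ 2 ≤ (S.card : ℝ) * (ν ^ 2)⁻¹ := by
    rw [← div_eq_mul_inv, le_div_iff₀ (by positivity)]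
    have h4 : r * (cs * ν) ≤ r * size n := mul_le_mul_of_nonneg_left hsz'.1 hr.le
    have h5 : (r * (cs * ν)) ^ 2 ≤ (r * size n) ^ 2 := pow_le_pow_left₀ (by positivity) h4 2
    calc cs ^ 2 / 256 * r ^ 2 * ν ^ 2 = (r * (cs * ν)) ^ 2 / 256 := by ring
      _ ≤ (r * size n) ^ 2 / 256 := by linarith
      _ ≤ _ := hS1
  calc c * cs ^ 2 / 256 * r ^ 2 * Real.exp (-(16 * C * Cs ^ 4 * ‖z‖ ^ 4)) * ((saw n).card : ℝ) =
      cs ^ 2 / 256 * r ^ 2 * (c * Real.exp (-(16 * C * Cs ^ 4 * ‖z‖ ^ 4)) * ((saw n).card : ℝ)) := by ring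
    _ ≤ (S.card : ℝ) * (ν ^ 2)⁻¹ * (c * Real.exp (-(16 * C * Cs ^ 4 * ‖z‖ ^ 4)) * ((saw n).card : ℝ)) :=
        mul_le_mul_of_nonneg_right h3 (by positivity)
    _ = _ := by ring

/-- **the density of the end point of the weak limits** -/
theorem dens_lim
    (hsz : ∃ c C : ℝ, 0 < c ∧ ∀ n : ℕ, 1 ≤ n → c * (n : ℝ) ^ (3 / 4 : ℝ) ≤ size n ∧ size n ≤ C * (n : ℝ) ^ (3 / 4 : ℝ))
    (hU : ∃ c C : ℝ, 0 < c ∧ 0 < C ∧ ∀ n : ℕ, 1 ≤ n → ∀ z : ℂ,
      (((saw n).filter fun s => Pool.Agent.NTS.Res.pos s n = z).card : ℝ) ≤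
        C * (n : ℝ) ^ (-(3 / 2) : ℝ) * Real.exp (-(c * (‖z‖ / (n : ℝ) ^ (3 / 4 : ℝ)) ^ 4)) * ((saw n).card : ℝ))
    (hL : ∃ c C K : ℝ, 0 < c ∧ 0 < C ∧ 0 < K ∧ ∀ n : ℕ, 1 ≤ n → ∀ z : ℂ,
      (∃ s : Fin n → Fin 3, Pool.Agent.NTS.Res.pos s n = z) → K * (n : ℝ) ^ (3 / 4 : ℝ) ≤ ‖z‖ →
      c * (n : ℝ) ^ (-(3 / 2) : ℝ) * Real.exp (-(C * (‖z‖ / (n : ℝ) ^ (3 / 4 : ℝ)) ^ 4)) * ((saw n).card : ℝ) ≤
        (((saw n).filter fun s => Pool.Agent.NTS.Res.pos s n = z).card : ℝ)) :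
    ∃ c C K : ℝ, 0 < c ∧ 0 < C ∧ 0 < K ∧
    ∀ (φ : ℕ → ℕ) (ν : Measure C(unitInterval, ℂ)), Tendsto φ atTop atTop → IsProbabilityMeasure ν → LawTo φ ν →
      ∀ (z : ℂ) (r : ℝ), 0 < r → r ≤ 1 →
        ν {γ : C(unitInterval, ℂ) | ‖γ 1 - z‖ ≤ r} ≤ ENNReal.ofReal (C * r ^ 2 * Real.exp (-(c * ‖z‖ ^ 4))) ∧
        (K ≤ ‖z‖ → ENNReal.ofReal (c * r ^ 2 * Real.exp (-(C * ‖z‖ ^ 4))) ≤ ν {γ : C(unitInterval, ℂ) | ‖γ 1 - z‖ ≤ r}) := by
  obtain ⟨cs, Cs, hcs, hsz⟩ := hsz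
  obtain ⟨cu, Cu, hcu, hCu, hU⟩ := hU
  obtain ⟨cl, Cl, Kl, hcl, hCl, hKl, hL⟩ := hL
  have hCs : 0 < Cs := by
    have := hsz 1 le_rfl
    rw [Nat.cast_one, Real.one_rpow, mul_one, mul_one] at this
    linarith [this.1.trans this.2]
  -- the size tends to infinity, but it is small against n
  have hs1 : Tendsto (fun n : ℕ => size n) atTop atTop := by
    have h1 : Tendsto (fun n : ℕ => cs * (n : ℝ) ^ (3 / 4 : ℝ)) atTop atTop :=
      ((tendsto_rpow_atTop (by norm_num : (0 : ℝ) < 3 / 4)).comp tendsto_natCast_atTop_atTop).const_mul_atTop hcs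
    refine tendsto_atTop_mono' _ ?_ h1
    filter_upwards [eventually_ge_atTop 1] with n hn
    exact (hsz n hn).1
  have hs2 : ∀ A : ℝ, ∃ n0 : ℕ, ∀ n : ℕ, n0 ≤ n → A * size n + 20 ≤ n := by
    intro A
    have h1 : Tendsto (fun n : ℕ => (n : ℝ) ^ (1 / 4 : ℝ)) atTop atTop :=
      (tendsto_rpow_atTop (by norm_num : (0 : ℝ) < 1 / 4)).comp tendsto_natCast_atTop_atTop
    obtain ⟨n1, h2⟩ := eventually_atTop.1 (h1.eventually_ge_atTop (|A| * Cs + 20))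
    refine ⟨max n1 1, fun n hn => ?_⟩
    have h3 := h2 n (le_of_max_le_left hn)
    have hn1 : 1 ≤ n := le_of_max_le_right hn
    have hn0 : (0 : ℝ) < n := by exact_mod_cast hn1
    have h4 : (n : ℝ) ^ (3 / 4 : ℝ) * (n : ℝ) ^ (1 / 4 : ℝ) = n := by
      rw [← Real.rpow_add hn0]
      norm_num
    have h5 : 1 ≤ (n : ℝ) ^ (3 / 4 : ℝ) := Real.one_le_rpow (by exact_mod_cast hn1) (by norm_num)
    have h6 := (hsz n hn1).2
    have h7 : A * size n ≤ |A| * (Cs * (n : ℝ) ^ (3 / 4 : ℝ)) :=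
      (mul_le_mul_of_nonneg_right (le_abs_self A) (size_nonneg n)).trans (mul_le_mul_of_nonneg_left h6 (abs_nonneg A))
    calc A * size n + 20 ≤ |A| * (Cs * (n : ℝ) ^ (3 / 4 : ℝ)) + 20 * (n : ℝ) ^ (3 / 4 : ℝ) := by linarith
      _ = (n : ℝ) ^ (3 / 4 : ℝ) * (|A| * Cs + 20) := by ring
      _ ≤ (n : ℝ) ^ (3 / 4 : ℝ) * (n : ℝ) ^ (1 / 4 : ℝ) := mul_le_mul_of_nonneg_left h3 (by positivity)
      _ = n := h4
  obtain ⟨g1, hg1⟩ : ∃ g1 : ℝ, g1 = cu * cs ^ 4 / 16 := ⟨_, rfl⟩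
  obtain ⟨B1, hB1⟩ : ∃ B1 : ℝ, B1 = 25 * Cu * Cs ^ 2 * Real.exp (256 * g1) := ⟨_, rfl⟩
  obtain ⟨b2, hb2⟩ : ∃ b2 : ℝ, b2 = cl * cs ^ 2 / 256 := ⟨_, rfl⟩
  obtain ⟨g2, hg2⟩ : ∃ g2 : ℝ, g2 = 16 * Cl * Cs ^ 4 := ⟨_, rfl⟩
  have hg10 : 0 < g1 := by rw [hg1]; positivity
  have hB10 : 0 < B1 := by rw [hB1]; positivity
  have hb20 : 0 < b2 := by rw [hb2]; positivity
  have hg20 : 0 < g2 := by rw [hg2]; positivity
  refine ⟨min g1 b2, max (4 * B1) g2, 1 + Kl / cs, lt_min hg10 hb20, lt_max_of_lt_right hg20, by positivity,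
    fun φ ν hφ hν hlim z r hr hr1 => ?_⟩
  have hlim2 := (lawTo_iff ⟨ν, hν⟩).1 hlim
  have hge : ∀ n0 : ℕ, ∀ᶠ k in atTop, n0 ≤ φ k := fun n0 => hφ.eventually_ge_atTop n0
  have hev : Continuous fun γ : C(unitInterval, ℂ) => ‖γ 1 - z‖ := ((NTF.cont_eval 1).sub continuous_const).norm
  have hfil : ∀ (n : ℕ) (r : ℝ), (saw n).filter (fun s => curve s ∈ {γ : C(unitInterval, ℂ) | ‖γ 1 - z‖ ≤ r}) = inD n z r := by
    intro n r
    unfold inD
    refine Finset.filter_congr fun s _ => ?_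
    show ‖curve s 1 - z‖ ≤ r ↔ _
    rw [curve_one]
  constructor
  · have hU' : IsOpen {γ : C(unitInterval, ℂ) | ‖γ 1 - z‖ < 2 * r} := isOpen_lt hev continuous_const
    have h1 : ν {γ : C(unitInterval, ℂ) | ‖γ 1 - z‖ < 2 * r} ≤
        ENNReal.ofReal (B1 * (2 * r) ^ 2 * Real.exp (-(g1 * ‖z‖ ^ 4))) := by
      refine NTF.open_le hlim2 hU' ?_
      obtain ⟨n1, h2⟩ := eventually_atTop.1 (hs1.eventually_ge_atTop (1 / (2 * r)))
      filter_upwards [hge (max n1 1)] with k hk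
      have hk1 : 1 ≤ φ k := le_of_max_le_right hk
      have h3 := h2 (φ k) (le_of_max_le_left hk)
      refine law_le (by positivity) ?_
      have h4 : (((saw (φ k)).filter fun s => curve s ∈ {γ : C(unitInterval, ℂ) | ‖γ 1 - z‖ < 2 * r}).card : ℝ) ≤
          ((inD (φ k) z (2 * r)).card : ℝ) := by
        rw [← hfil]
        have h5 : (saw (φ k)).filter (fun s => curve s ∈ {γ : C(unitInterval, ℂ) | ‖γ 1 - z‖ < 2 * r}) ⊆
            (saw (φ k)).filter fun s => curve s ∈ {γ : C(unitInterval, ℂ) | ‖γ 1 - z‖ ≤ 2 * r} := by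
          intro s hs
          rw [Finset.mem_filter] at hs ⊢
          have h6 : ‖curve s 1 - z‖ < 2 * r := hs.2
          exact ⟨hs.1, h6.le⟩
        exact_mod_cast Finset.card_le_card h5
      refine h4.trans ((card_up hcu hCu hcs hsz hU hk1 (by positivity) (by linarith) ?_).trans (le_of_eq ?_))
      · rw [div_le_iff₀ (by positivity)] at h3
        linarith
      · rw [hB1, hg1]
    refine (measure_mono ?_).trans (h1.trans (ENNReal.ofReal_le_ofReal ?_))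
    · intro γ hγ
      have : ‖γ 1 - z‖ ≤ r := hγ
      show ‖γ 1 - z‖ < 2 * r
      linarith
    · have h5 : Real.exp (-(g1 * ‖z‖ ^ 4)) ≤ Real.exp (-(min g1 b2 * ‖z‖ ^ 4)) :=
        Real.exp_le_exp.2 (neg_le_neg (mul_le_mul_of_nonneg_right (min_le_left _ _) (by positivity)))
      have h6 : 4 * B1 ≤ max (4 * B1) g2 := le_max_left _ _
      calc B1 * (2 * r) ^ 2 * Real.exp (-(g1 * ‖z‖ ^ 4)) = (4 * B1) * r ^ 2 * Real.exp (-(g1 * ‖z‖ ^ 4)) := by ring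
        _ ≤ max (4 * B1) g2 * r ^ 2 * Real.exp (-(min g1 b2 * ‖z‖ ^ 4)) := by gcongr
  · intro hz
    obtain ⟨a, ha⟩ : ∃ a : ℝ, a = min g1 b2 * r ^ 2 * Real.exp (-(max (4 * B1) g2 * ‖z‖ ^ 4)) := ⟨_, rfl⟩
    have ha0 : 0 ≤ a := by
      rw [ha]
      have := (lt_min hg10 hb20).le
      positivity
    rw [← ha]
    obtain ⟨F, hF⟩ : ∃ F : Set C(unitInterval, ℂ), F = {γ : C(unitInterval, ℂ) | ‖γ 1 - z‖ ≤ r} := ⟨_, rfl⟩
    have hFc : IsClosed F := hF ▸ isClosed_le hev continuous_const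
    rw [← hF]
    have key : ∀ᶠ k in atTop, ENNReal.ofReal a ≤ law (φ k) F := by
      obtain ⟨n1, h2⟩ := eventually_atTop.1 (hs1.eventually_ge_atTop (8 / r))
      obtain ⟨n2, h3⟩ := hs2 (8 * ‖z‖ + 4 * r)
      filter_upwards [hge (max n1 (max n2 1))] with k hk
      have hk1 : 1 ≤ φ k := le_of_max_le_right (le_of_max_le_right hk)
      have h4 := h2 (φ k) (le_of_max_le_left hk)
      have h5 := h3 (φ k) (le_of_max_le_left (le_of_max_le_right hk))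
      have h6 : 8 ≤ r * size (φ k) := by
        rw [div_le_iff₀ hr] at h4
        linarith
      have h7 := card_low hcl hCl hcs hsz hL hk1 hr hr1 h6 hz hKl.le (by linarith)
      have h8 : a * ((saw (φ k)).card : ℝ) ≤ ((inD (φ k) z r).card : ℝ) := by
        refine le_trans ?_ h7
        rw [ha, ← hb2, ← hg2]
        have h9 : Real.exp (-(max (4 * B1) g2 * ‖z‖ ^ 4)) ≤ Real.exp (-(g2 * ‖z‖ ^ 4)) :=
          Real.exp_le_exp.2 (neg_le_neg (mul_le_mul_of_nonneg_right (le_max_right _ _) (by positivity)))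
        have h10 : min g1 b2 ≤ b2 := min_le_right _ _
        gcongr
      have hc0 : ((saw (φ k)).card : ℝ≥0∞) ≠ 0 := by
        have := (saw_nonempty (φ k)).card_pos
        exact_mod_cast this.ne'
      have ht : ((saw (φ k)).card : ℝ≥0∞) ≠ ⊤ := ENNReal.natCast_ne_top _
      rw [law_apply, hF, hfil]
      have h9 : ENNReal.ofReal a * ((saw (φ k)).card : ℝ≥0∞) ≤ ((inD (φ k) z r).card : ℝ≥0∞) := by
        rw [← ENNReal.ofReal_natCast, ← ENNReal.ofReal_natCast, ← ENNReal.ofReal_mul ha0]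
        exact ENNReal.ofReal_le_ofReal h8
      calc ENNReal.ofReal a = ((saw (φ k)).card : ℝ≥0∞)⁻¹ * (ENNReal.ofReal a * ((saw (φ k)).card : ℝ≥0∞)) := by
            rw [mul_comm (ENNReal.ofReal a), ← mul_assoc, ENNReal.inv_mul_cancel hc0 ht, one_mul]
        _ ≤ _ := by gcongr
    have h1 : ν Fᶜ ≤ 1 - ENNReal.ofReal a := by
      refine NTF.open_le hlim2 hFc.isOpen_compl ?_
      filter_upwards [key] with k hk
      have := law_prob (φ k)
      show law (φ k) Fᶜ ≤ _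
      rw [prob_compl_eq_one_sub hFc.measurableSet]
      exact tsub_le_tsub_left hk 1
    have h2 : ν F = 1 - ν Fᶜ := by
      rw [prob_compl_eq_one_sub hFc.measurableSet, ENNReal.sub_sub_cancel ENNReal.one_ne_top prob_le_one]
    rw [h2]
    have h3 : ENNReal.ofReal a ≤ 1 := by
      obtain ⟨k, hk⟩ := key.exists
      have := law_prob (φ k)
      exact hk.trans prob_le_one
    calc ENNReal.ofReal a = 1 - (1 - ENNReal.ofReal a) := (ENNReal.sub_sub_cancel ENNReal.one_ne_top h3).symm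
      _ ≤ 1 - ν Fᶜ := tsub_le_tsub_left h1 1

end Loc

end NTSZ
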