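import Pool.Agent.NTS.Law

/-!
JNT: points of the hexagonal lattice in a disc, reached by walks with n steps (helper83).
-/

set_option autoImplicit false

namespace NTSZ

namespace Loc

open Finset

open HexObs hiding pos

open Pool.Agent.NTS.Res

open NTSF

/-- upper bound of the number of the points in a disc -/
lemma pts_up (Z : ℂ) {ρ : ℝ} (hρ : 1 ≤ ρ) : ∃ S : Finset Pt, (S.card : ℝ) ≤ 25 * ρ ^ 2 ∧
    ∀ x : Pt, ‖NTF.JJ x - Z‖ ≤ ρ → x ∈ S := by
  obtain ⟨s3, hs3⟩ : ∃ s3 : ℝ, s3 = Real.sqrt 3 := ⟨_, rfl⟩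
  have h3 : s3 * s3 = 3 := by
    rw [hs3]
    exact Real.mul_self_sqrt (by norm_num)
  have h0 : 0 ≤ s3 := by
    rw [hs3]
    exact Real.sqrt_nonneg _
  have h1 : 1 ≤ s3 := by nlinarith
  obtain ⟨A0, hA0⟩ : ∃ A0 : ℝ, A0 = -2 * Z.im / s3 := ⟨_, rfl⟩
  obtain ⟨B0, hB0⟩ : ∃ B0 : ℝ, B0 = Z.re - A0 / 2 := ⟨_, rfl⟩
  have hAs : A0 * s3 = -2 * Z.im := by
    rw [hA0]
    field_simp
  have card : ∀ a : ℝ, ((Icc ⌈a - 2 * ρ⌉ ⌊a + 2 * ρ⌋).card : ℝ) ≤ 5 * ρ := by
    intro a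
    rw [Int.card_Icc]
    have e1 := Int.floor_le (a + 2 * ρ)
    have e2 := Int.le_ceil (a - 2 * ρ)
    rcases le_or_gt 0 (⌊a + 2 * ρ⌋ + 1 - ⌈a - 2 * ρ⌉) with h | h
    · have e3 : (((⌊a + 2 * ρ⌋ + 1 - ⌈a - 2 * ρ⌉).toNat : ℕ) : ℝ) = ((⌊a + 2 * ρ⌋ + 1 - ⌈a - 2 * ρ⌉ : ℤ) : ℝ) := by
        exact_mod_cast Int.toNat_of_nonneg h
      rw [e3]
      push_cast
      linarith
    · rw [Int.toNat_of_nonpos h.le, Nat.cast_zero]
      linarith
  refine ⟨(Icc ⌈A0 - 2 * ρ⌉ ⌊A0 + 2 * ρ⌋) ×ˢ (Icc ⌈B0 - 2 * ρ⌉ ⌊B0 + 2 * ρ⌋), ?_, ?_⟩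
  · rw [card_product]
    push_cast
    calc _ ≤ (5 * ρ) * (5 * ρ) := mul_le_mul (card A0) (card B0) (Nat.cast_nonneg _) (by linarith)
      _ = _ := by ring
  · intro x hx
    have i1 := (Complex.abs_im_le_norm (NTF.JJ x - Z)).trans hx
    have i2 := (Complex.abs_re_le_norm (NTF.JJ x - Z)).trans hx
    rw [Complex.sub_im, NTF.JJ_im, ← hs3] at i1
    rw [Complex.sub_re, NTF.JJ_re] at i2
    rw [abs_le] at i1 i2
    have k1 : (s3 / 2) * ((x.1 : ℝ) - A0) = s3 / 2 * x.1 + Z.im := by linarith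
    have k2 : (x.1 : ℝ) - A0 ≤ 2 * ρ := by
      by_contra h
      push Not at h
      nlinarith [i1.1]
    have k3 : -(2 * ρ) ≤ (x.1 : ℝ) - A0 := by
      by_contra h
      push Not at h
      nlinarith [i1.2]
    have k4 : |(s3 / 2) * ((x.1 : ℝ) - A0)| ≤ ρ := by
      rw [k1, abs_le]
      constructor <;> linarith [i1.1, i1.2]
    have k5 : |(x.1 : ℝ) - A0| ≤ 2 * ρ := abs_le.2 ⟨k3, k2⟩
    have k6 : |(x.2 : ℝ) - B0| ≤ 2 * ρ := by
      have e : (x.2 : ℝ) - B0 = ((x.1 : ℝ) / 2 + x.2 - Z.re) - ((x.1 : ℝ) - A0) / 2 := by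
        rw [hB0]
        ring
      rw [e, abs_le]
      constructor <;> linarith [i2.1, i2.2]
    rw [mem_product, mem_Icc, mem_Icc]
    rw [abs_le] at k5 k6
    refine ⟨⟨Int.ceil_le.2 (by linarith [k5.1]), Int.le_floor.2 (by linarith [k5.2])⟩,
      ⟨Int.ceil_le.2 (by linarith [k6.1]), Int.le_floor.2 (by linarith [k6.2])⟩⟩

/-! ### Walks with given end -/

/-- there is a walk with n steps (not necessarily self-avoiding) that ends in v -/
def Rch (n : ℕ) (v : Pt) : Prop := ∃ s : Fin n → Fin 3, Pool.Agent.NTS.Res.pos s n = NTF.JJ v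

lemma rch_succ {n : ℕ} {v : Pt} (h : Rch n v) (a : Fin 3) : Rch (n + 1) (v + NTF.de n a) := by
  obtain ⟨s, hs⟩ := h
  refine ⟨fun i => if h : (i : ℕ) < n then s ⟨i, h⟩ else a, ?_⟩
  have key : ∀ k, k ≤ n → Pool.Agent.NTS.Res.pos (fun i : Fin (n + 1) => if h : (i : ℕ) < n then s ⟨i, h⟩ else a) k =
      Pool.Agent.NTS.Res.pos s k := by
    intro k
    induction k with
    | zero =>
      intro _
      rw [pos_zero, pos_zero]
    | succ k ih =>
      intro hk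
      rw [pos_succ _ k (by omega), pos_succ s k hk, ih (by omega)]
      have e : (if h : ((⟨k, by omega⟩ : Fin (n + 1)) : ℕ) < n then s ⟨((⟨k, by omega⟩ : Fin (n + 1)) : ℕ), h⟩ else a) = s ⟨k, hk⟩ :=
        dif_pos (show k < n by omega)
      rw [e]
  rw [pos_succ _ n (Nat.lt_succ_self n), key n le_rfl, hs, NTF.JJ_add, NTF.JJ_de]
  have e : (if h : ((⟨n, Nat.lt_succ_self n⟩ : Fin (n + 1)) : ℕ) < n then s ⟨((⟨n, Nat.lt_succ_self n⟩ : Fin (n + 1)) : ℕ), h⟩ else a) = a :=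
    dif_neg (show ¬ n < n by omega)
  rw [e]
  rfl

lemma rch_two {n : ℕ} {v : Pt} (h : Rch n v) (a b : Fin 3) : Rch (n + 2) (v + (NTF.Ed a - NTF.Ed b)) := by
  rcases Nat.even_or_odd n with he | ho
  · have h1 := rch_succ (rch_succ h a) b
    have e : v + NTF.de n a + NTF.de (n + 1) b = v + (NTF.Ed a - NTF.Ed b) := by
      unfold NTF.de
      rw [if_pos he, if_neg (by rw [Nat.not_even_iff_odd]; exact he.add_one)]
      abel
    rw [e] at h1
    exact h1
  · have h1 := rch_succ (rch_succ h b) a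
    have e : v + NTF.de n b + NTF.de (n + 1) a = v + (NTF.Ed a - NTF.Ed b) := by
      unfold NTF.de
      rw [if_neg (by rw [Nat.not_even_iff_odd]; exact ho), if_pos ho.add_one]
      abel
    rw [e] at h1
    exact h1

/-- the point with the coordinates p, q -/
def pq (σ p q : ℤ) : Pt := (p - q, σ + p + 2 * q)

lemma rch_pq {n : ℕ} {σ : ℤ} {p q : ℤ} (h : Rch n (pq σ p q)) : Rch (n + 2) (pq σ p q) ∧ Rch (n + 2) (pq σ (p + 1) q) ∧
    Rch (n + 2) (pq σ (p - 1) q) ∧ Rch (n + 2) (pq σ p (q + 1)) ∧ Rch (n + 2) (pq σ p (q - 1)) := by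
  have e0 : NTF.Ed 0 = (0, 1) := by decide
  have e1 : NTF.Ed 1 = (-1, 0) := by decide
  have e2 : NTF.Ed 2 = (1, -1) := by decide
  refine ⟨?_, ?_, ?_, ?_, ?_⟩
  · have := rch_two h 0 0
    rwa [sub_self, add_zero] at this
  · have := rch_two h 0 1
    rw [e0, e1] at this
    convert this using 1
    unfold pq
    ext <;> simp <;> ring
  · have := rch_two h 1 0
    rw [e0, e1] at this
    convert this using 1
    unfold pq
    ext <;> simp <;> ring
  · have := rch_two h 0 2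
    rw [e0, e2] at this
    convert this using 1
    unfold pq
    ext <;> simp <;> ring
  · have := rch_two h 2 0
    rw [e0, e2] at this
    convert this using 1
    unfold pq
    ext <;> simp <;> ring

lemma rch_all {n : ℕ} {σ : ℤ} (h : Rch n (pq σ 0 0)) (k : ℕ) : ∀ p q : ℤ, |p| + |q| ≤ k → Rch (n + 2 * k) (pq σ p q) := by
  induction k with
  | zero =>
    intro p q hpq
    have h1 := abs_nonneg p
    have h2 := abs_nonneg q
    have h3 : |p| = 0 := by omega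
    have h4 : |q| = 0 := by omega
    rw [abs_eq_zero.1 h3, abs_eq_zero.1 h4]
    exact h
  | succ k ih =>
    intro p q hpq
    rw [show n + 2 * (k + 1) = n + 2 * k + 2 by ring]
    push_cast at hpq
    rcases lt_trichotomy p 0 with hp | hp | hp
    · have h1 := (rch_pq (ih (p + 1) q (by
        rw [abs_of_neg hp] at hpq
        rw [abs_of_nonpos (by omega : p + 1 ≤ 0)]
        omega))).2.2.1
      rwa [add_sub_cancel_right] at h1
    · rcases lt_trichotomy q 0 with hq | hq | hq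
      · have h1 := (rch_pq (ih p (q + 1) (by
          rw [abs_of_neg hq] at hpq
          rw [abs_of_nonpos (by omega : q + 1 ≤ 0)]
          omega))).2.2.2.2
        rwa [add_sub_cancel_right] at h1
      · exact (rch_pq (ih p q (by rw [hp, hq, abs_zero]; omega))).1
      · have h1 := (rch_pq (ih p (q - 1) (by
          rw [abs_of_pos hq] at hpq
          rw [abs_of_nonneg (by omega : 0 ≤ q - 1)]
          omega))).2.2.2.1
        rwa [sub_add_cancel] at h1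
    · have h1 := (rch_pq (ih (p - 1) q (by
        rw [abs_of_pos hp] at hpq
        rw [abs_of_nonneg (by omega : 0 ≤ p - 1)]
        omega))).2.1
      rwa [sub_add_cancel] at h1

/-- lower bound of the number of the points in a disc that are reached by a walk with n steps -/
lemma pts_low (n : ℕ) (Z : ℂ) {ρ : ℝ} (hρ : 8 ≤ ρ) (hn : 8 * ‖Z‖ + 4 * ρ + 20 ≤ n) : ∃ S : Finset ℂ,
    ρ ^ 2 / 256 ≤ S.card ∧ ∀ w ∈ S, ‖w - Z‖ ≤ ρ ∧ ∃ s : Fin n → Fin 3, Pool.Agent.NTS.Res.pos s n = w := by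
  obtain ⟨s3, hs3⟩ : ∃ s3 : ℝ, s3 = Real.sqrt 3 := ⟨_, rfl⟩
  have h3 : s3 * s3 = 3 := by
    rw [hs3]
    exact Real.mul_self_sqrt (by norm_num)
  have h0 : 0 ≤ s3 := by
    rw [hs3]
    exact Real.sqrt_nonneg _
  have h1 : 1 ≤ s3 := by nlinarith
  have h2 : s3 ≤ 2 := by nlinarith
  -- the class
  obtain ⟨σ, k, hσ0, hσ1, hnk, hR⟩ : ∃ (σ : ℤ) (k : ℕ), 0 ≤ σ ∧ σ ≤ 1 ∧ (n : ℤ) = σ + 2 * k ∧
      ∀ p q : ℤ, |p| + |q| ≤ k → Rch n (pq σ p q) := by
    have r0 : Rch 0 (pq 0 0 0) := by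
      refine ⟨fun i => i.elim0, ?_⟩
      rw [pos_zero]
      apply Complex.ext
      · rw [NTF.JJ_re]
        simp [pq]
      · rw [NTF.JJ_im]
        simp [pq]
    rcases Nat.even_or_odd' n with ⟨k, rfl | rfl⟩
    · refine ⟨0, k, le_rfl, by norm_num, by push_cast; ring, fun p q hpq => ?_⟩
      have := rch_all r0 k p q hpq
      rwa [zero_add] at this
    · refine ⟨1, k, by norm_num, le_rfl, by push_cast; ring, fun p q hpq => ?_⟩
      have r1 : Rch 1 (pq 1 0 0) := by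
        have h5 := rch_succ r0 0
        have e : pq 0 0 0 + NTF.de 0 0 = pq 1 0 0 := by decide
        rwa [e] at h5
      have := rch_all r1 k p q hpq
      rwa [add_comm 1] at this
  have hσr0 : (0 : ℝ) ≤ σ := by exact_mod_cast hσ0
  have hσr1 : (σ : ℝ) ≤ 1 := by exact_mod_cast hσ1
  -- the real coordinates
  obtain ⟨P0, hP0⟩ : ∃ P0 : ℝ, P0 = (Z.re - σ) / 3 - Z.im / s3 := ⟨_, rfl⟩
  obtain ⟨Q0, hQ0⟩ : ∃ Q0 : ℝ, Q0 = (Z.re - σ) / 3 + Z.im / s3 := ⟨_, rfl⟩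
  obtain ⟨M, hM⟩ : ∃ M : ℕ, M = ⌊ρ / 8⌋₊ := ⟨_, rfl⟩
  have hM1 : (M : ℝ) ≤ ρ / 8 := by
    rw [hM]
    exact Nat.floor_le (by linarith)
  have hM2 : ρ / 8 < M + 1 := by
    rw [hM]
    exact Nat.lt_floor_add_one _
  have hM3 : (1 : ℝ) ≤ M := by
    have : 1 ≤ M := by
      rw [hM]
      exact (Nat.le_floor_iff (by linarith)).2 (by push_cast; linarith)
    exact_mod_cast this
  obtain ⟨I, hI⟩ : ∃ I : ℝ → Finset ℤ, I = fun x => Ioc ⌊x⌋ (⌊x⌋ + M) := ⟨_, rfl⟩
  have memI : ∀ (x : ℝ) (p : ℤ), p ∈ I x → |(p : ℝ) - x| ≤ M := by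
    intro x p hp
    rw [hI, mem_Ioc] at hp
    have a1 : ((⌊x⌋ + 1 : ℤ) : ℝ) ≤ p := by exact_mod_cast hp.1
    have a2 : (p : ℝ) ≤ ((⌊x⌋ + M : ℤ) : ℝ) := by exact_mod_cast hp.2
    push_cast at a1 a2
    have a3 := Int.floor_le x
    have a4 := Int.lt_floor_add_one x
    rw [abs_le]
    constructor <;> linarith
  have cardI : ∀ x : ℝ, (I x).card = M := by
    intro x
    rw [hI, Int.card_Ioc]
    omega
  have hsZ : |Z.im / s3| ≤ ‖Z‖ := by
    rw [abs_div, abs_of_nonneg h0, div_le_iff₀ (by linarith)]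
    have a1 := Complex.abs_im_le_norm Z
    nlinarith [norm_nonneg Z]
  have hreZ := Complex.abs_re_le_norm Z
  have hZ0 := norm_nonneg Z
  have bP : |P0| ≤ 2 * ‖Z‖ + 1 ∧ |Q0| ≤ 2 * ‖Z‖ + 1 := by
    rw [abs_le] at hsZ hreZ
    rw [hP0, hQ0, abs_le, abs_le]
    constructor <;> constructor <;> linarith [hsZ.1, hsZ.2, hreZ.1, hreZ.2]
  refine ⟨((I P0) ×ˢ (I Q0)).image fun x => NTF.JJ (pq σ x.1 x.2), ?_, ?_⟩
  · rw [card_image_of_injective, card_product, cardI, cardI]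
    · push_cast
      nlinarith
    · rintro ⟨p, q⟩ ⟨p', q'⟩ h
      have h4 := NTF.JJ_inj h
      unfold pq at h4
      simp only [Prod.mk.injEq] at h4 ⊢
      constructor <;> omega
  · intro w hw
    rw [mem_image] at hw
    obtain ⟨⟨p, q⟩, hpq, rfl⟩ := hw
    rw [mem_product] at hpq
    have a1 := memI P0 p hpq.1
    have a2 := memI Q0 q hpq.2
    constructor
    · have e : NTF.JJ (pq σ p q) - Z = (((p : ℝ) - P0 : ℝ) : ℂ) * ⟨3 / 2, -(s3 / 2)⟩ + (((q : ℝ) - Q0 : ℝ) : ℂ) * ⟨3 / 2, s3 / 2⟩ := by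
        have hs : s3 ≠ 0 := by linarith
        apply Complex.ext
        · rw [Complex.sub_re, NTF.JJ_re, Complex.add_re, Complex.mul_re, Complex.mul_re, Complex.ofReal_re, Complex.ofReal_im,
            Complex.ofReal_re, Complex.ofReal_im, hP0, hQ0]
          unfold pq
          push_cast
          ring
        · rw [Complex.sub_im, NTF.JJ_im, Complex.add_im, Complex.mul_im, Complex.mul_im, Complex.ofReal_re, Complex.ofReal_im,
            Complex.ofReal_re, Complex.ofReal_im, hP0, hQ0, ← hs3]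
          unfold pq
          push_cast
          field_simp
          ring
      rw [e]
      have v1 : ‖(⟨3 / 2, -(s3 / 2)⟩ : ℂ)‖ ≤ 2 := by
        refine abs_le_of_sq_le_sq' ?_ (by norm_num) |>.2
        rw [← Complex.normSq_eq_norm_sq, Complex.normSq_mk]
        nlinarith
      have v2 : ‖(⟨3 / 2, s3 / 2⟩ : ℂ)‖ ≤ 2 := by
        refine abs_le_of_sq_le_sq' ?_ (by norm_num) |>.2
        rw [← Complex.normSq_eq_norm_sq, Complex.normSq_mk]
        nlinarith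
      refine (norm_add_le _ _).trans ?_
      rw [norm_mul, norm_mul, Complex.norm_real, Complex.norm_real, Real.norm_eq_abs, Real.norm_eq_abs]
      have b1 := mul_le_mul a1 v1 (norm_nonneg _) (by linarith)
      have b2 := mul_le_mul a2 v2 (norm_nonneg _) (by linarith)
      linarith
    · apply hR
      have c1 : |(p : ℝ)| ≤ 2 * ‖Z‖ + 1 + M := by
        have := abs_sub_abs_le_abs_sub (p : ℝ) P0
        linarith [bP.1]
      have c2 : |(q : ℝ)| ≤ 2 * ‖Z‖ + 1 + M := by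
        have := abs_sub_abs_le_abs_sub (q : ℝ) Q0
        linarith [bP.2]
      have c3 : (n : ℝ) = σ + 2 * k := by exact_mod_cast hnk
      have c4 : ((|p| + |q| : ℤ) : ℝ) ≤ (k : ℝ) := by
        push_cast
        linarith
      exact_mod_cast c4

end Loc

end NTSZ
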