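import Pool.Agent.JNT.Cover
import Pool.Agent.EN.ExEnd

/-!
JNT: the end functional indexed by the end itself.
-/

set_option autoImplicit false

namespace HexObs

namespace JNT

open Finset TS SDN SDN.CN NTm NTW NTA EN

open scoped ENNReal

open Classical in
/-- the free end o at words in relation to t -/
noncomputable def PoL (D N lam : ℕ) (o : Option (List Bool)) (t : List Bool) : ℝ≥0∞ :=
  if ∀ W ∈ o, W ∈ SSt N ∧ RT D LFold t W ∧ t.length + W.length ≤ lam then wO o else 0

lemma tot_PoL (D N lam : ℕ) (t : List Bool) : ∑' o, PoL D N lam o t = 1 + ENl D N lam t := by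
  classical
  rw [tsum_option]
  have h0 : PoL D N lam none t = 1 := by
    unfold PoL
    rw [if_pos]
    · rfl
    · intro W hW
      simp at hW
  rw [h0]
  congr 1
  · unfold ENl
    rw [← Rec8.sw_one, Rec8.sw_ind]
    refine tsum_congr fun W => ?_
    unfold PoL
    by_cases h : W ∈ SSt N ∧ RT D LFold t W ∧ t.length + W.length ≤ lam
    · rw [if_pos (show W ∈ {W | W ∈ SSt N ∧ RT D LFold t W ∧ t.length + W.length ≤ lam} from h), if_pos, mul_one]
      · rfl
      · intro W' hW'
        rw [Option.mem_def, Option.some.injEq] at hW'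
        rw [← hW']
        exact h
    · rw [if_neg (show W ∉ {W | W ∈ SSt N ∧ RT D LFold t W ∧ t.length + W.length ≤ lam} from h), if_neg]
      intro h1
      exact h (h1 W rfl)

lemma PoL_le {D N lam : ℕ} {o : Option (List Bool)} {s t : List Bool}
    (h : ∀ W ∈ o, W ∈ SSt N → RT D LFold s W → s.length + W.length ≤ lam → RT D LFold t W ∧ t.length + W.length ≤ lam) :
    PoL D N lam o s ≤ PoL D N lam o t := by
  unfold PoL
  by_cases h1 : ∀ W ∈ o, W ∈ SSt N ∧ RT D LFold s W ∧ s.length + W.length ≤ lam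
  · rw [if_pos h1, if_pos fun W hW => ⟨(h1 W hW).1, h W hW (h1 W hW).1 (h1 W hW).2.1 (h1 W hW).2.2⟩]
  · rw [if_neg h1]
    exact zero_le

theorem flp_PoL {D : ℕ} (hD : 1 ≤ D) (N lam : ℕ) (o : Option (List Bool)) : Flp D (PoL D N lam o) := by
  intro s t b hc _
  refine PoL_le fun W _ _ h2 h3 => ⟨?_, ?_⟩
  · obtain ⟨Z, h1, h2, h4⟩ := h2
    rw [← List.append_assoc] at h4
    exact RT_of hc (LFold_flip hc hD h4)
  · rw [List.length_append, List.length_cons] at h3
    rw [List.length_cons]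
    omega

theorem her_PoL {D : ℕ} (hD : 1 ≤ D) (N lam : ℕ) (o : Option (List Bool)) : HerD D (PoL D N lam o) := by
  refine ⟨fun s hs t => PoL_le fun W _ _ h2 h3 => ⟨RT_her hs h2, ?_⟩,
    fun s t ht _ => PoL_le fun W _ _ h2 h3 => ⟨?_, ?_⟩⟩
  · rw [List.length_append] at h3
    omega
  · obtain ⟨Z, h1, h2, h4⟩ := h2
    rw [← List.append_assoc] at h2 h4
    exact RT_of ht (LFold_suf ht h2 hD h4)
  · rw [List.length_append] at h3
    omega

lemma Eo_le {D N N' lam : ℕ} {g : List Bool} (hg : g ∈ HB D) (hN : N ≤ N') (o : Option (List Bool)) :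
    Eo N lam o g ≤ PoL D N' (lam + 20) o g := by
  unfold Eo PoL
  by_cases h1 : ∀ W ∈ o, W ∈ SSt N ∧ LFold g W ∧ g.length + W.length ≤ lam + 20
  · rw [if_pos h1, if_pos fun W hW => ⟨SSt_mo hN (h1 W hW).1, RT_of hg (h1 W hW).2.1, (h1 W hW).2.2⟩]
  · rw [if_neg h1]
    exact zero_le

end JNT

end HexObs
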