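import Pool.Agent.JNT.Rel
import Pool.Agent.EN.ExEnd
import Pool.Agent.NTA.RunEvent

/-!
JNT: the literal of the event theorem for runs with a given label (number of letters and end point) of the whole word.
-/

set_option autoImplicit false

namespace HexObs

namespace JNT

open Finset TS SDN SDN.CN NTm NTW NTA EN

open scoped ENNReal

/-- behind a given first part the label of the word determines the label of the rest -/
def LabR {Λ : Type} (lab : List Bool → Λ) : Prop := ∀ w s s' : List Bool, lab (w ++ s) = lab (w ++ s') → lab s = lab s'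

/-- the label of the mirror word is a function of the label -/
def LabW {Λ : Type} (lab : List Bool → Λ) : Prop := ∃ f : Λ → Λ, ∀ t : List Bool, lab (t.map not) = f (lab t)

/-- the event theorem for runs, a given label of the whole word -/
def EventRL {Λ : Type} (lab : List Bool → Λ) (Dm : ℕ → ℝ≥0∞ → (List Bool → ℝ≥0∞) → Prop) : Prop :=
  ∃ (C : ℝ) (k0 : ℕ), 1 ≤ C ∧
  ∀ (kc J lam lam' : ℕ) (a : Λ) (R : Set (List (List Bool))) (δ : ℝ), k0 ≤ kc → 6 ≤ J → 0 < δ →
    QL (kc + J + 8) lam' → SmRL lab Dm kc R δ →
    gf {t | lab t = a ∧ t ∈ SAL lam ∧ t ∈ ER kc J R} ≤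
      ENNReal.ofReal (C ^ J * δ * Ub (kc + J)) * (bl (lam + lam' + 40) (kc + J + 8)) ^ 2

end JNT

end HexObs
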