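import Pool.Agent.JNT.FewL
import Pool.Agent.JNT.ManyL
import Pool.Agent.FIS.Exact

/-!
JNT (pointwise tail): the shells at exactly n letters, with the label, as long as 16 ^ i is at most a multiple of k.
-/

set_option autoImplicit false

namespace HexObs

namespace JNT

namespace OB

open Finset TS SDN NTW NTA EN FIS

open scoped ENNReal

variable {Λ : Type} {lab : List Bool → Λ}

/-- a shell: few leaves in two directions, or many leaves in a direction of large range -/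
lemma shell_split {a : Λ} {k i n s N J : ℕ} (hki : 1 ≤ k + i) :
    {t | (lab t = a ∧ t.length = n) ∧ t ∈ WL (k + i) ∧ t ∉ WL (k + i - 1)} ⊆
    (⋃ x : Fin 3 × Fin 3, {t | x.1 ≠ x.2 ∧ (lab t = a ∧ t.length = n) ∧ t ∈ WL (k + i) ∧ ∀ d, d = x.1 ∨ d = x.2 →
      ¬ HR d s (RJ s N J) t}) ∪
    ⋃ d : Fin 3, {t | (lab t = a ∧ t.length = n) ∧ t ∈ WL (k + i) ∧ HR d s (RJ s N J) t ∧
      ∃ x y, x ≤ n ∧ y ≤ n ∧ (2 : ℤ) ^ (k + i) ≤ 2 * (lv3 d (vx oo up t x) - lv3 d (vx oo up t y))} := by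
  rintro t ⟨⟨hla, hlen⟩, ht, ho⟩
  obtain ⟨d, d', hdd, r1, r2⟩ := out_range ht.1 ho
  rw [show k + i - 1 + 1 = k + i by omega, hlen] at r1 r2
  by_cases g1 : HR d s (RJ s N J) t
  · exact Or.inr (Set.mem_iUnion.2 ⟨d, ⟨hla, hlen⟩, ht, g1, r1⟩)
  · by_cases g2 : HR d' s (RJ s N J) t
    · exact Or.inr (Set.mem_iUnion.2 ⟨d', ⟨hla, hlen⟩, ht, g2, r2⟩)
    · refine Or.inl (Set.mem_iUnion.2 ⟨(d, d'), Ne.symm hdd, ⟨hla, hlen⟩, ht, ?_⟩)
      rintro e (rfl | rfl)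
      · exact g1
      · exact g2

/-- **the shells at exactly n letters** -/
theorem exact_L {m w : ℕ → ℝ} (hlo : ∃ c : ℝ, 0 < c ∧ ∀ k : ℕ, c * (2 : ℝ) ^ (4 / 3 * (k : ℝ)) ≤ m k)
    (hup : ∃ C : ℝ, ∀ k : ℕ, m k ≤ C * (2 : ℝ) ^ (4 / 3 * (k : ℝ))) (hm : MLow m) (hwp : ∀ k, 0 < w k)
    (hwm : Monotone w) (hd : MUp w) (hA : ASm m) {J0 : ℕ} (hG : GBmL lab w J0) (hE : ExsL lab) (hX : EXTL lab m w)
    (r0 : ℕ) : ∃ (A : ℝ) (c8 i0 : ℕ), 1 ≤ A ∧ ∀ (k i n : ℕ) (a : Λ), i0 ≤ i →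
    2 ^ (4 * i - r0) ≤ k → 3 * i + i0 ≤ k → m k ≤ n → (n : ℝ) < m (k + 1) →
    gf {t | (lab t = a ∧ t.length = n) ∧ t ∈ WL (k + i) ∧ t ∉ WL (k + i - 1)} ≤
      ENNReal.ofReal (A * (1 / 2) ^ (2 ^ (4 * i - c8)) * (Ub k / w k)) * Xb k ^ 2 := by
  obtain ⟨J, cH, kk, W, F, hJ, hW, hF, hmany⟩ := many_L (lab := lab) hwp hd hG hE
  obtain ⟨j1, A2, hA2, hfew⟩ := few_L hm hwp hwm hX hJ
  obtain ⟨K, r, c2, hK, hr, hnorm⟩ := ts_norm hlo hup hA cH (r0 + 3)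
  obtain ⟨v, hv⟩ : ∃ v : ℕ, W * 8 < 2 ^ v := two_pow_ge _
  have hA20 : 0 < A2 := by linarith
  have hK0 : 0 < K := by linarith
  have hF0 : 0 < F := by linarith
  have hW0 : 0 < W := by linarith
  obtain ⟨c8, hc8⟩ : ∃ c8, c8 = r + v + 5 := ⟨_, rfl⟩
  refine ⟨9 * A2 + 3 * (F * K), c8, 10 + 2 * c2 + 2 * kk + c8 + r0 + 2 * j1, ?_, fun k i n a hi hk1 hk2 hn1 hn2 => ?_⟩
  · have : 1 ≤ F * K := one_le_mul_of_one_le_of_one_le hF hK
    linarith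
  have hmk := hwp k
  have hU := Ub_pos k
  obtain ⟨q, hq⟩ : ∃ q, q = 2 ^ (4 * i - c8) := ⟨_, rfl⟩
  have hq1 : 2 * j1 + 5 + 2 * i ≤ q := by
    rw [hq]
    exact lin_le (by omega) (by omega)
  have hk3 : 2 * (5 + c2 + kk) + 2 * i ≤ k := (lin_le (by omega) (by omega)).trans hk1
  have hq2 : 64 * q ≤ 2 ^ (4 * i - r0) := by
    rw [hq, show 64 = 2 ^ 6 by norm_num, ← pow_add]
    exact Nat.pow_le_pow_right (by norm_num) (by omega)
  have hq3 : 8 * 2 ^ (4 * i - (r0 + 3)) = 2 ^ (4 * i - r0) := by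
    rw [show 8 = 2 ^ 3 by norm_num, ← pow_add]
    congr 1
    omega
  obtain ⟨Y, hY⟩ : ∃ Y : ℝ, Y = (1 / 2) ^ q := ⟨_, rfl⟩
  have hY0 : 0 < Y := by rw [hY]; positivity
  rw [← hq, ← hY]
  -- the norm
  obtain ⟨ε, hε⟩ : ∃ ε : ℝ, ε = K * 8 ^ (4 * q + 5 + i) * (1 / 2) ^ (2 ^ (4 * i - r)) := ⟨_, rfl⟩
  have hε0 : 0 < ε := by rw [hε]; positivity
  have hSk : ∀ k1, k - (4 * q + 5) ≤ k1 → k1 ≤ k + i + 8 →
      SmD DmJ k1 {g | g ∈ BrR (2 ^ (k1 + 4)) (2 ^ (k + i + 10)) ∧ 2 ^ (k + i - cH) ≤ hgt g ∧ g.length ≤ n} ε := by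
    intro k1 h1 h2
    rw [hε]
    exact hnorm k i n k1 (4 * q + 5) (by omega) (by omega) (by omega) hn2 (by omega) h2
  have hWε : W ^ (4 * q + 5 + i) * ε ≤ K * Y := by
    have e1 : W ^ (4 * q + 5 + i) * 8 ^ (4 * q + 5 + i) ≤ 2 ^ (2 ^ (4 * i - (r + 1))) := by
      rw [← mul_pow]
      calc (W * 8) ^ (4 * q + 5 + i) ≤ (2 ^ v) ^ (4 * q + 5 + i) := pow_le_pow_left₀ (by positivity) hv.le _
        _ = 2 ^ (v * (4 * q + 5 + i)) := (pow_mul _ _ _).symm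
        _ ≤ 2 ^ (2 ^ (4 * i - (r + 1))) := by
            refine pow_le_pow_right₀ (by norm_num) ?_
            have e2 : v * (4 * q + 5 + i) ≤ 2 ^ v * (8 * q) := Nat.mul_le_mul Nat.lt_two_pow_self.le (by omega)
            refine e2.trans ?_
            rw [hq, show 8 = 2 ^ 3 by norm_num, ← pow_add, ← pow_add]
            exact Nat.pow_le_pow_right (by norm_num) (by omega)
    have e3 : (2 : ℝ) ^ (2 ^ (4 * i - (r + 1))) * (1 / 2) ^ (2 ^ (4 * i - r)) ≤ Y := by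
      have e4 : 2 ^ (4 * i - r) = 2 ^ (4 * i - (r + 1)) + 2 ^ (4 * i - (r + 1)) := by
        rw [← two_mul, ← pow_succ']
        congr 1
        omega
      rw [e4, pow_add, ← mul_assoc, ← mul_pow, show (2 : ℝ) * (1 / 2) = 1 by norm_num, one_pow, one_mul, hY, hq]
      exact pow_le_pow_of_le_one (by norm_num) (by norm_num) (Nat.pow_le_pow_right (by norm_num) (by omega))
    calc W ^ (4 * q + 5 + i) * ε = K * ((W ^ (4 * q + 5 + i) * 8 ^ (4 * q + 5 + i)) * (1 / 2) ^ (2 ^ (4 * i - r))) := by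
          rw [hε]
          ring
      _ ≤ K * ((2 : ℝ) ^ (2 ^ (4 * i - (r + 1))) * (1 / 2) ^ (2 ^ (4 * i - r))) := by gcongr
      _ ≤ K * Y := by gcongr
  refine (gf_mono (shell_split (a := a) (s := k - (4 * q + 5)) (N := 2 ^ (k + i + 3)) (J := J) (by omega))).trans
    ((gf_union_le _ _).trans ((add_le_add (Crw.gf_iUnion_le _) (Crw.gf_iUnion_le _)).trans ?_))
  rw [tsum_fintype, tsum_fintype]
  have u1 : ∑ x : Fin 3 × Fin 3, gf {t | x.1 ≠ x.2 ∧ (lab t = a ∧ t.length = n) ∧ t ∈ WL (k + i) ∧ ∀ d, d = x.1 ∨ d = x.2 →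
        ¬ HR d (k - (4 * q + 5)) (RJ (k - (4 * q + 5)) (2 ^ (k + i + 3)) J) t} ≤
      9 * (ENNReal.ofReal (A2 * Y * (Ub k / w k)) * Xb k ^ 2) := by
    refine (Finset.sum_le_card_nsmul _ _ (ENNReal.ofReal (A2 * Y * (Ub k / w k)) * Xb k ^ 2)
      fun x _ => ?_).trans (le_of_eq ?_)
    · by_cases hx : x.1 ≠ x.2
      · rw [hY]
        refine (gf_mono ?_).trans (hfew x.1 x.2 hx k i q n a (by omega) (by omega) hn1)
        rintro t ⟨-, h⟩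
        exact h
      · refine le_trans (gf_mono ?_) (le_trans (le_of_eq gf_empty) zero_le)
        rintro t ⟨h, -⟩
        exact absurd h hx
    · rw [Finset.card_univ, Fintype.card_prod, Fintype.card_fin, nsmul_eq_mul]
      norm_num
  have u2 : ∑ d : Fin 3, gf {t | (lab t = a ∧ t.length = n) ∧ t ∈ WL (k + i) ∧
        HR d (k - (4 * q + 5)) (RJ (k - (4 * q + 5)) (2 ^ (k + i + 3)) J) t ∧
        ∃ x y, x ≤ n ∧ y ≤ n ∧ (2 : ℤ) ^ (k + i) ≤ 2 * (lv3 d (vx oo up t x) - lv3 d (vx oo up t y))} ≤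
      3 * (ENNReal.ofReal (F * K * Y * (Ub k / w k)) * Xb k ^ 2) := by
    refine (Finset.sum_le_card_nsmul _ _ (ENNReal.ofReal (F * K * Y * (Ub k / w k)) * Xb k ^ 2)
      fun d _ => ?_).trans (le_of_eq ?_)
    · refine (hmany d k i n (4 * q + 5) a ε (by omega) (by omega) hε0 hSk).trans ?_
      refine mul_le_mul_left (ENNReal.ofReal_le_ofReal ?_) _
      calc F * W ^ (4 * q + 5 + i) * ε * (Ub k / w k) = F * (W ^ (4 * q + 5 + i) * ε) * (Ub k / w k) := by ring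
        _ ≤ F * (K * Y) * (Ub k / w k) := by gcongr
        _ = _ := by ring
    · rw [Finset.card_univ, Fintype.card_fin, nsmul_eq_mul]
      norm_num
  refine (add_le_add u1 u2).trans ?_
  rw [← mul_assoc, ← mul_assoc, ← add_mul]
  refine mul_le_mul_left ?_ _
  rw [show (9 : ℝ≥0∞) = ENNReal.ofReal 9 by norm_num, show (3 : ℝ≥0∞) = ENNReal.ofReal 3 by norm_num,
    ← ENNReal.ofReal_mul (by norm_num), ← ENNReal.ofReal_mul (by norm_num), ← ENNReal.ofReal_add (by positivity)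
    (by positivity)]
  refine ENNReal.ofReal_le_ofReal (le_of_eq ?_)
  ring

end OB

end JNT

end HexObs
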