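import Pool.Agent.JNT.LocDefs
import Pool.Agent.FIS.FishUp
import Pool.Agent.NTS.EndLaw

/-!
JNT (pointwise tail): the walks with n letters, a given end and a large range.
-/

set_option autoImplicit false

namespace HexObs

namespace JNT

open Finset TS SDN NTW NTA EN FIS

open scoped ENNReal

/-- upper side of the pointwise tail, words with exactly n letters -/
def FarUpX (m : ℕ → ℝ) : Prop := ∃ (C c : ℝ) (a : ℕ), 0 < C ∧ 0 < c ∧ ∀ k n i : ℕ, 3 * i + a ≤ k → m k ≤ n →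
  n < m (k + 1) → ∀ x : Pt, gf {t | (t ∈ SawN n ∧ vx oo up t n = x) ∧ ∃ (dir : Bool) (j : ℕ), j ≤ n ∧
    (2 : ℝ) ^ (k + i) ≤ |((lvl dir (vx oo up t j) : ℤ) : ℝ)|} ≤
      ENNReal.ofReal (C * Real.exp (-(c * 16 ^ i)) / 4 ^ k) * nuX m k

theorem farUpX_of {m : ℕ → ℝ} (hm : ∀ k, 0 < m k) (hO : OutL labN m (fun k => m k * 4 ^ k)) (hE : EndX m) :
    FarUpX m := by
  obtain ⟨A, c9, i0, hA1, hout⟩ := hO
  obtain ⟨CE, kE, hCE, hend⟩ := hE
  have hA0 : 0 < A := by linarith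
  have hlog := Real.log_pos (show (1 : ℝ) < 2 by norm_num)
  obtain ⟨i2, hi2⟩ : ∃ i2, i2 = i0 + c9 + 3 := ⟨_, rfl⟩
  obtain ⟨c, hc⟩ : ∃ c : ℝ, c = Real.log 2 / 2 ^ (12 + c9) := ⟨_, rfl⟩
  have hc0 : 0 < c := by
    rw [hc]
    positivity
  obtain ⟨K, hK⟩ : ∃ K : ℝ, K = CE * Real.exp (c * 16 ^ i2) + A := ⟨_, rfl⟩
  have hK0 : 0 < K := by rw [hK]; positivity
  refine ⟨K, c, i0 + kE, hK0, hc0, fun k n i hk hn1 hn2 x => ?_⟩
  have hmk := hm k
  have hU := Ub_pos k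
  rcases Nat.lt_or_ge i i2 with hi | hi
  · -- small i
    refine (gf_mono fun t ht => ht.1).trans ((hend k n (by omega) hn1 hn2 x).trans ?_)
    refine mul_le_mul_left (ENNReal.ofReal_le_ofReal ?_) _
    refine div_le_div_of_nonneg_right ?_ (by positivity)
    have e1 : (16 : ℝ) ^ i ≤ 16 ^ i2 := pow_le_pow_right₀ (by norm_num) hi.le
    have e2 : 1 ≤ Real.exp (c * 16 ^ i2) * Real.exp (-(c * 16 ^ i)) := by
      rw [← Real.exp_add]
      apply Real.one_le_exp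
      nlinarith
    calc CE = CE * 1 := (mul_one _).symm
      _ ≤ CE * (Real.exp (c * 16 ^ i2) * Real.exp (-(c * 16 ^ i))) := mul_le_mul_of_nonneg_left e2 hCE.le
      _ = (CE * Real.exp (c * 16 ^ i2)) * Real.exp (-(c * 16 ^ i)) := by ring
      _ ≤ K * Real.exp (-(c * 16 ^ i)) := by
          refine mul_le_mul_of_nonneg_right ?_ (Real.exp_pos _).le
          rw [hK]
          linarith
  · have hbox : {t | (t ∈ SawN n ∧ vx oo up t n = x) ∧ ∃ (dir : Bool) (j : ℕ), j ≤ n ∧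
        (2 : ℝ) ^ (k + i) ≤ |((lvl dir (vx oo up t j) : ℤ) : ℝ)|} ⊆
        {t | labN t = (n, x) ∧ t ∈ SawN n ∧ t ∉ WL (k + (i - 3))} := by
      rintro t ⟨⟨h1, h0⟩, dir, j, h2, h3⟩
      have h4 : (2 : ℝ) ^ i * 2 ^ k ≤ |((lvl dir (vx oo up t j) : ℤ) : ℝ)| := by
        rwa [← pow_add, add_comm i k]
      refine ⟨?_, h1, out_of_lvl (by omega) (by rw [h1.1]; exact h2) h4⟩
      unfold labN
      rw [h1.1, h0]
    refine (gf_mono hbox).trans ((hout k (i - 3) n (n, x) (by omega) (by omega) hn1 hn2).trans ?_)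
    unfold nuX
    rw [← mul_assoc, ← ENNReal.ofReal_mul (by positivity)]
    refine mul_le_mul_left (ENNReal.ofReal_le_ofReal ?_) _
    have e1 : (1 / 2 : ℝ) ^ (2 ^ (4 * (i - 3) - c9)) ≤ Real.exp (-(c * 16 ^ i)) := by
      have e2 : (1 / 2 : ℝ) ^ (2 ^ (4 * (i - 3) - c9)) =
          Real.exp (-(Real.log 2 * (2 ^ (4 * (i - 3) - c9) : ℕ))) := by
        rw [one_div, inv_pow, Real.exp_neg]
        congr 1
        rw [mul_comm (Real.log 2), Real.exp_nat_mul, Real.exp_log (by norm_num)]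
      rw [e2]
      refine Real.exp_le_exp.2 (neg_le_neg ?_)
      rw [hc, div_mul_eq_mul_div, mul_div_assoc]
      refine mul_le_mul_of_nonneg_left ?_ hlog.le
      rw [div_le_iff₀ (by positivity)]
      push_cast
      rw [← pow_add, show (16 : ℝ) = 2 ^ 4 by norm_num, ← pow_mul]
      exact pow_le_pow_right₀ (by norm_num) (by omega)
    have e3 : A ≤ K := by
      rw [hK]
      have : 0 < CE * Real.exp (c * 16 ^ i2) := by positivity
      linarith
    calc A * (1 / 2) ^ (2 ^ (4 * (i - 3) - c9)) * (Ub k / (m k * 4 ^ k))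
        ≤ K * Real.exp (-(c * 16 ^ i)) * (Ub k / (m k * 4 ^ k)) := by
          refine mul_le_mul_of_nonneg_right ?_ (by positivity)
          exact mul_le_mul e3 e1 (by positivity) hK0.le
      _ = K * Real.exp (-(c * 16 ^ i)) / 4 ^ k * (Ub k / m k) := by
          field_simp

end JNT

end HexObs
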