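import Pool.Agent.JNT.Good
import Pool.Agent.JNT.GBAll

/-!
JNT, row D for the displacement alone: the joint bound for the pairs of bridges with a given displacement, without
hypothesis (helper59).
-/

set_option autoImplicit false

namespace HexObs

namespace JNT

open Finset TS SDN NTW NTA EN

open scoped ENNReal

namespace GE

/-- the height from the displacement -/
lemma en_hgt {Z : List Bool} (hZ : Z ∈ BU) : ip (en Z) up = 3 * (hgt Z : ℤ) := by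
  have h1 := TS.lev_end (TS.BU_hgt hZ)
  exact h1

/-- bridges of a height of at least H / 2 with a given displacement -/
lemma end_bd : ∃ C : ℝ, 0 < C ∧ ∀ (H : ℕ) (v : Pt), 1 ≤ H →
    gf {Z | Z ∈ BU ∧ H ≤ 2 * hgt Z ∧ hgt Z ≤ H ∧ en Z = v} ≤ ENNReal.ofReal (C * (UU H / H ^ 2)) := by
  obtain ⟨C, hC, h⟩ := anti_end
  refine ⟨C * 4, by positivity, fun H v hH => ?_⟩
  have hH0 : (0 : ℝ) < H := by exact_mod_cast hH
  have hUH : 0 < UU H := Num2Aux.UU_pos H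
  by_cases hne : ∃ Z, Z ∈ BU ∧ H ≤ 2 * hgt Z ∧ hgt Z ≤ H ∧ en Z = v
  · obtain ⟨Z0, hZ0, h1, h2, h3⟩ := hne
    obtain ⟨h0, hh0⟩ : ∃ h0, h0 = hgt Z0 := ⟨_, rfl⟩
    have h01 : 1 ≤ h0 := by omega
    refine (gf_mono fun Z hZ => ?_).trans ((h h0 h01 (latE Z0)).trans (ENNReal.ofReal_le_ofReal ?_))
    · obtain ⟨hZB, -, -, h4⟩ := hZ
      have e1 := en_hgt hZB
      have e2 := en_hgt hZ0
      have e3 : hgt Z = h0 := by
        rw [h4, ← h3, e2] at e1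
        omega
      refine ⟨e3 ▸ TS.BU_hgt hZB, ?_⟩
      show -(cross up (en Z)) = -(cross up (en Z0))
      rw [h4, h3]
    · have hh : (0 : ℝ) < h0 := by exact_mod_cast h01
      have h4 := Num2Aux.mul_le_UU h0
      have h5 : UU h0 ≤ UU H := Num2Aux.UU_mono (by omega)
      have h6 : (H : ℝ) ≤ 2 * h0 := by exact_mod_cast (by omega : H ≤ 2 * h0)
      have h7 : uu h0 / h0 ≤ UU H / (h0 : ℝ) ^ 2 := by
        rw [div_le_div_iff₀ hh (by positivity)]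
        nlinarith
      have h8 : UU H / (h0 : ℝ) ^ 2 ≤ 4 * (UU H / H ^ 2) := by
        rw [← mul_div_assoc, div_le_div_iff₀ (by positivity) (by positivity)]
        have h9 : (H : ℝ) ^ 2 ≤ 4 * h0 ^ 2 := by nlinarith
        nlinarith
      calc C * (uu h0 / h0) ≤ C * (4 * (UU H / H ^ 2)) := mul_le_mul_of_nonneg_left (h7.trans h8) hC.le
        _ = _ := by ring
  · have e : {Z | Z ∈ BU ∧ H ≤ 2 * hgt Z ∧ hgt Z ≤ H ∧ en Z = v} = (∅ : Set (List Bool)) := by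
      rw [Set.eq_empty_iff_forall_notMem]
      intro Z hZ
      exact hne ⟨Z, hZ⟩
    rw [e]
    unfold gf
    rw [tsum_empty]
    exact zero_le

open scoped Classical in
/-- one of the two bridges is small -/
lemma pair_half {C : ℝ} (h : ∀ (H : ℕ) (v : Pt), 1 ≤ H →
      gf {Z | Z ∈ BU ∧ H ≤ 2 * hgt Z ∧ hgt Z ≤ H ∧ en Z = v} ≤ ENNReal.ofReal (C * (UU H / H ^ 2)))
    {H : ℕ} (hH : 1 ≤ H) (v : Pt) : ∑' Z' : List Bool, ∑' Z : List Bool,
      (if (Z' ∈ BU ∧ hgt Z' ≤ H) ∧ (Z ∈ BU ∧ H ≤ 2 * hgt Z ∧ hgt Z ≤ H ∧ en Z = v - en Z') then wE Z * wE Z' else 0) ≤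
      ENNReal.ofReal (UU H) * ENNReal.ofReal (C * (UU H / H ^ 2)) := by
  have h1 : ∀ Z' : List Bool, ∑' Z : List Bool,
      (if (Z' ∈ BU ∧ hgt Z' ≤ H) ∧ (Z ∈ BU ∧ H ≤ 2 * hgt Z ∧ hgt Z ≤ H ∧ en Z = v - en Z') then wE Z * wE Z' else 0) ≤
      (if Z' ∈ {Z | ∃ h, h ≤ H ∧ Z ∈ Brd h} then wE Z' else 0) * ENNReal.ofReal (C * (UU H / H ^ 2)) := by
    intro Z'
    by_cases hc : Z' ∈ BU ∧ hgt Z' ≤ H
    · have h2 := h H (v - en Z') hH
      rw [if_pos (show Z' ∈ {Z | ∃ h, h ≤ H ∧ Z ∈ Brd h} from ⟨hgt Z', hc.2, TS.BU_hgt hc.1⟩)]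
      refine le_trans (le_of_eq ?_) (mul_le_mul' le_rfl h2)
      unfold gf
      rw [_root_.tsum_subtype _ (fun t => wE t), ← ENNReal.tsum_mul_left]
      refine tsum_congr fun Z => ?_
      rw [Set.indicator_apply]
      by_cases hd : Z ∈ BU ∧ H ≤ 2 * hgt Z ∧ hgt Z ≤ H ∧ en Z = v - en Z'
      · rw [if_pos ⟨hc, hd⟩, if_pos (show Z ∈ {Z | Z ∈ BU ∧ H ≤ 2 * hgt Z ∧ hgt Z ≤ H ∧ en Z = v - en Z'} from hd), mul_comm]
      · rw [if_neg fun h3 => hd h3.2,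
          if_neg (show Z ∉ {Z | Z ∈ BU ∧ H ≤ 2 * hgt Z ∧ hgt Z ≤ H ∧ en Z = v - en Z'} from hd), mul_zero]
    · refine le_trans (le_of_eq (ENNReal.tsum_eq_zero.2 fun Z => if_neg fun h3 => hc h3.1)) zero_le
  refine (ENNReal.tsum_le_tsum h1).trans ?_
  rw [ENNReal.tsum_mul_right]
  refine mul_le_mul' (le_trans (le_of_eq ?_) (NTm.low_mass H)) le_rfl
  unfold gf
  rw [_root_.tsum_subtype _ (fun t => wE t)]
  exact tsum_congr fun t => by rw [Set.indicator_apply]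

/-- the growth of UU -/
lemma UU_lin {n H : ℕ} (hn : 1 ≤ n) (h : n ≤ H) : UU H ≤ 2 * (H / n) * UU n := by
  have h1 : H ≤ (H / n + 1) * n := by
    have h0 := Nat.lt_mul_div_succ H hn
    rw [mul_comm] at h0
    exact h0.le
  have h2 : UU H ≤ UU ((H / n + 1) * n) := Num2Aux.UU_mono h1
  have h3 := TS.UU_mul_le (H / n) n
  have hn0 : (0 : ℝ) < n := by exact_mod_cast hn
  have h4 : ((H / n : ℕ) : ℝ) ≤ (H : ℝ) / n := Nat.cast_div_le
  have h5 : (1 : ℝ) ≤ (H : ℝ) / n := by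
    rw [le_div_iff₀ hn0, one_mul]
    exact_mod_cast h
  have h6 : 0 < UU n := Num2Aux.UU_pos n
  calc UU H ≤ (((H / n : ℕ) : ℝ) + 1) * UU n := h2.trans h3
    _ ≤ _ := by
        apply mul_le_mul_of_nonneg_right _ h6.le
        linarith

end GE

open JNT.GE

/-- **the joint bound for the displacement, without hypothesis** -/
theorem joG_E : JoG labE (fun k => 4 ^ k) := by
  classical
  obtain ⟨C, hC, h⟩ := end_bd
  refine ⟨8 * C, by positivity, fun k P hP a => ?_⟩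
  have hPB : P ∈ BU := SIM.CS.IUB hP
  obtain ⟨v, hv⟩ : ∃ v : Pt, v = a - en P := ⟨_, rfl⟩
  have hn : 1 ≤ 2 ^ k := Nat.one_le_two_pow
  have hU := Ub_pos k
  have hHB : ∀ {Z : List Bool}, Z ∈ HB (2 ^ k) → Z ∈ BU ∧ 2 ^ k ≤ hgt Z := by
    rintro Z ⟨h0, h1, h2⟩
    exact ⟨⟨h0, h2⟩, by rw [TS.hgt_eq h2]; exact h1⟩
  have hen : ∀ {Z Z' : List Bool}, Z ∈ BU → labE (Z ++ (P ++ Z')) = a → en Z + en Z' = v := by
    intro Z Z' hZ ha
    have h2 : en (Z ++ (P ++ Z')) = a := ha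
    rw [en_app hZ, en_app hPB] at h2
    rw [hv, ← h2]
    abel
  by_cases hne : ∃ Z Z', Z ∈ HB (2 ^ k) ∧ Z' ∈ HB (2 ^ k) ∧ labE (Z ++ (P ++ Z')) = a
  swap
  · refine le_trans (le_of_eq ?_) zero_le
    unfold prs
    refine ENNReal.tsum_eq_zero.2 fun Z => ENNReal.tsum_eq_zero.2 fun Z' => if_neg fun h1 => hne ⟨Z, Z', h1⟩
  obtain ⟨Z0, Z0', g1, g2, g3⟩ := hne
  obtain ⟨H, hH⟩ : ∃ H, H = hgt Z0 + hgt Z0' := ⟨_, rfl⟩
  have hipv : ip v up = 3 * (H : ℤ) := by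
    rw [← hen (hHB g1).1 g3, ip_add_left, en_hgt (hHB g1).1, en_hgt (hHB g2).1, hH]
    push_cast
    ring
  have hsum : ∀ {Z Z' : List Bool}, Z ∈ BU → Z' ∈ BU → en Z + en Z' = v → hgt Z + hgt Z' = H := by
    intro Z Z' hZ hZ' he
    rw [← he, ip_add_left, en_hgt hZ, en_hgt hZ'] at hipv
    omega
  have hkH : 2 ^ k ≤ H := by
    have := (hHB g1).2
    omega
  have hH1 : 1 ≤ H := by omega
  have h1 := pair_half h hH1 v
  have h2 : prs labE (2 ^ k) P a ≤ 2 * (ENNReal.ofReal (UU H) * ENNReal.ofReal (C * (UU H / H ^ 2))) := by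
    refine le_trans ?_ ((add_le_add h1 h1).trans (le_of_eq (two_mul _).symm))
    have e1 : ∑' Z' : List Bool, ∑' Z : List Bool,
        (if (Z' ∈ BU ∧ hgt Z' ≤ H) ∧ (Z ∈ BU ∧ H ≤ 2 * hgt Z ∧ hgt Z ≤ H ∧ en Z = v - en Z') then wE Z * wE Z' else 0) =
        ∑' Z : List Bool, ∑' Z' : List Bool,
        (if (Z' ∈ BU ∧ hgt Z' ≤ H) ∧ (Z ∈ BU ∧ H ≤ 2 * hgt Z ∧ hgt Z ≤ H ∧ en Z = v - en Z') then wE Z * wE Z' else 0) :=
      ENNReal.tsum_comm
    nth_rewrite 1 [e1]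
    rw [← ENNReal.tsum_add]
    unfold prs
    refine ENNReal.tsum_le_tsum fun Z => ?_
    rw [← ENNReal.tsum_add]
    refine ENNReal.tsum_le_tsum fun Z' => ?_
    by_cases hd : Z ∈ HB (2 ^ k) ∧ Z' ∈ HB (2 ^ k) ∧ labE (Z ++ (P ++ Z')) = a
    · rw [if_pos hd]
      have hZ := (hHB hd.1).1
      have hZ' := (hHB hd.2.1).1
      have e2 := hen hZ hd.2.2
      have e3 := hsum hZ hZ' e2
      rcases le_total (hgt Z') (hgt Z) with h3 | h3
      · rw [if_pos ⟨⟨hZ', by omega⟩, hZ, by omega, by omega, by rw [← e2]; abel⟩]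
        exact le_self_add
      · refine le_trans ?_ le_add_self
        rw [if_pos ⟨⟨hZ, by omega⟩, hZ', by omega, by omega, by rw [← e2]; abel⟩, mul_comm]
    · rw [if_neg hd]
      exact zero_le
  refine h2.trans ?_
  have hUH : 0 < UU H := Num2Aux.UU_pos H
  have e2 : (2 : ℝ≥0∞) = ENNReal.ofReal 2 := by simp
  rw [e2, ← ENNReal.ofReal_mul hUH.le, ← ENNReal.ofReal_mul (by norm_num)]
  refine ENNReal.ofReal_le_ofReal ?_
  have h3 := UU_lin hn hkH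
  have hH0 : (0 : ℝ) < H := by exact_mod_cast hH1
  push_cast at h3
  have h4 : UU H / H ≤ 2 * (Ub k / 2 ^ k) := by
    rw [div_le_iff₀ hH0]
    calc UU H ≤ 2 * (H / 2 ^ k) * UU (2 ^ k) := h3
      _ = _ := by
          show 2 * ((H : ℝ) / 2 ^ k) * Ub k = _
          ring
  have h5 : (UU H / H) ^ 2 ≤ (2 * (Ub k / 2 ^ k)) ^ 2 := pow_le_pow_left₀ (by positivity) h4 2
  have e5 : (4 : ℝ) ^ k = (2 ^ k) ^ 2 := by
    rw [← pow_mul, mul_comm k 2, pow_mul]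
    norm_num
  calc 2 * (UU H * (C * (UU H / H ^ 2))) = 2 * C * (UU H / H) ^ 2 := by
        field_simp
    _ ≤ 2 * C * (2 * (Ub k / 2 ^ k)) ^ 2 := by gcongr
    _ = 8 * C * (Ub k ^ 2 / 4 ^ k) := by
        rw [e5]
        ring

/-- **the classes with one good level among bad ones, displacement** -/
theorem gbmL_E : ∃ J00 : ℕ, ∀ J0 : ℕ, J00 ≤ J0 → GBmL labE (fun k => 4 ^ k) J0 := by
  have hw : ∀ k : ℕ, (0 : ℝ) < 4 ^ k := fun k => by positivity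
  have hu : MUp (fun k => (4 : ℝ) ^ k) := ⟨4, by norm_num, fun k => le_of_eq (pow_succ' 4 k)⟩
  exact gbmL_of hw hu (gbl_of labM_E hw hu joG_E)

/-- the classes with one good level among bad ones, displacement and number of letters -/
theorem gbmL_N {m : ℕ → ℝ} (hm : ∀ k, 0 < m k) (hu : MUp m) (hJ : JoB m) :
    ∃ J00 : ℕ, ∀ J0 : ℕ, J00 ≤ J0 → GBmL labN (fun k => m k * 4 ^ k) J0 := by
  have hw : ∀ k : ℕ, (0 : ℝ) < m k * 4 ^ k := fun k => mul_pos (hm k) (by positivity)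
  exact gbmL_of hw (mUp_four hu) (gbl_of labM_N hw (mUp_four hu) (joG_N hJ))

end JNT

end HexObs
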