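import Pool.Agent.JNT.HookG

/-!
JNT, LOC2 (doc JNT/LOC2_70), hooks: the mass of the hooks from below (the number of the decompositions of a hook is the
number of nested arcs).
-/

set_option autoImplicit false

namespace HexObs

namespace JNT

open Finset TS SDN NTW NTA PtC RP BAR POL

open scoped ENNReal

namespace Hk

/-- the four parts -/
abbrev P4 : Type := List Bool × List Bool × List Bool × List Bool

/-- the word -/
def cat4 (p : P4) : List Bool := p.1 ++ (p.2.1 ++ (p.2.2.1 ++ p.2.2.2))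

lemma wE_cat4 (p : P4) : wE (cat4 p) = wE p.1 * (wE p.2.1 * (wE p.2.2.1 * wE p.2.2.2)) := by
  unfold cat4
  rw [wE_append, wE_append, wE_append]

open scoped Classical in
/-- a set with an injective label in a finite set -/
lemma one_le {ι : Type} (s : Set ι) (g : ι → ℕ) (hg : Set.InjOn g s) (T : Finset ℕ) (h : ∀ i ∈ s, g i ∈ T) :
    ∑' i, (if i ∈ s then (1 : ℝ≥0∞) else 0) ≤ T.card := by
  have hfin : s.Finite := by
    refine Set.Finite.of_finite_image (f := g) (T.finite_toSet.subset ?_) hg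
    rintro _ ⟨i, hi, rfl⟩
    exact h i hi
  rw [tsum_eq_sum (s := hfin.toFinset) (fun i hi => if_neg fun h' => hi (hfin.mem_toFinset.2 h'))]
  rw [Finset.sum_congr rfl fun i hi => if_pos (hfin.mem_toFinset.1 hi), Finset.sum_const, nsmul_eq_mul, mul_one]
  have h1 : hfin.toFinset.card ≤ T.card := by
    refine Finset.card_le_card_of_injOn g (fun i hi => ?_) ?_
    · exact h i (hfin.mem_toFinset.1 hi)
    · intro i hi j hj hij
      exact hg (hfin.mem_toFinset.1 hi) (hfin.mem_toFinset.1 hj) hij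
  exact_mod_cast h1

open scoped Classical in
/-- the mass of a class of arcs with few nested arcs -/
lemma few_nested {AA : Set (List Bool)} {k : ℕ} (hfin : gf AA ≠ ⊤) :
    gf AA ≤ 2 * gf {X | X ∈ AA ∧ (cnt X.length (NA AA k X) : ℝ) ≤ 2 * U2 (2 ^ k)} := by
  obtain ⟨G, hG⟩ : ∃ G : Set (List Bool), G = {X | X ∈ AA ∧ (cnt X.length (NA AA k X) : ℝ) ≤ 2 * U2 (2 ^ k)} := ⟨_, rfl⟩
  obtain ⟨Bd, hBd⟩ : ∃ Bd : Set (List Bool), Bd = {X | X ∈ AA ∧ 2 * U2 (2 ^ k) < (cnt X.length (NA AA k X) : ℝ)} := ⟨_, rfl⟩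
  rw [← hG]
  have hU := U2_pos (2 ^ k)
  have h1 : gf AA ≤ gf G + gf Bd := by
    refine (gf_mono ?_).trans (gf_union_le _ _)
    intro X hX
    rw [hG, hBd]
    rcases le_or_gt (cnt X.length (NA AA k X) : ℝ) (2 * U2 (2 ^ k)) with h | h
    · exact Or.inl ⟨hX, h⟩
    · exact Or.inr ⟨hX, h⟩
  have h2 : ENNReal.ofReal (2 * U2 (2 ^ k)) * gf Bd ≤ ENNReal.ofReal (U2 (2 ^ k)) * gf AA := by
    refine le_trans ?_ (Sm.na_sum (AT := AA) (k := k))
    rw [← Sm.iw_sum Bd, ← ENNReal.tsum_mul_left]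
    refine ENNReal.tsum_le_tsum fun X => ?_
    by_cases hX : X ∈ Bd
    · rw [Sm.iw_of hX]
      rw [hBd] at hX
      rw [Sm.iw_of hX.1, mul_comm]
      refine mul_le_mul' le_rfl ?_
      rw [← ENNReal.ofReal_natCast]
      exact ENNReal.ofReal_le_ofReal hX.2.le
    · rw [Sm.iw, if_neg hX, mul_zero]
      exact zero_le
  have h3 : 2 * gf Bd ≤ gf AA := by
    have hU0 : ENNReal.ofReal (U2 (2 ^ k)) ≠ 0 := by
      rw [Ne, ENNReal.ofReal_eq_zero, not_le]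
      exact hU
    rw [ENNReal.ofReal_mul (by norm_num), mul_comm (ENNReal.ofReal 2), mul_assoc, ENNReal.mul_le_mul_iff_right hU0
      ENNReal.ofReal_ne_top] at h2
    simpa using h2
  have h4 : gf AA + gf AA ≤ 2 * gf G + gf AA := by
    calc gf AA + gf AA = 2 * gf AA := (two_mul _).symm
      _ ≤ 2 * (gf G + gf Bd) := mul_le_mul' le_rfl h1
      _ = 2 * gf G + 2 * gf Bd := mul_add _ _ _
      _ ≤ _ := add_le_add le_rfl h3
  exact (ENNReal.add_le_add_iff_right hfin).1 h4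

open scoped Classical in
/-- the product of four masses -/
lemma four_prod (S1 S2 S3 S4 : Set (List Bool)) (R : Set P4)
    (hR : ∀ p : P4, p ∈ R ↔ p.1 ∈ S1 ∧ p.2.1 ∈ S2 ∧ p.2.2.1 ∈ S3 ∧ p.2.2.2 ∈ S4) : gf S1 * (gf S2 * (gf S3 * gf S4)) =
    ∑' p : P4, (if p ∈ R then wE (cat4 p) else 0) := by
  rw [ENNReal.tsum_prod', ← Sm.iw_sum S1, ← ENNReal.tsum_mul_right]
  refine tsum_congr fun Z => ?_
  rw [ENNReal.tsum_prod', ← Sm.iw_sum S2, ← ENNReal.tsum_mul_right, ← ENNReal.tsum_mul_left]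
  refine tsum_congr fun X => ?_
  rw [ENNReal.tsum_prod', ← Sm.iw_sum S3, ← ENNReal.tsum_mul_right, ← ENNReal.tsum_mul_left, ← ENNReal.tsum_mul_left]
  refine tsum_congr fun D => ?_
  rw [← Sm.iw_sum S4, ← ENNReal.tsum_mul_left, ← ENNReal.tsum_mul_left, ← ENNReal.tsum_mul_left]
  refine tsum_congr fun E => ?_
  have hR' := hR (Z, X, D, E)
  by_cases c : (Z, X, D, E) ∈ R
  · obtain ⟨c1, c2, c3, c4⟩ := hR'.1 c
    rw [if_pos c, Sm.iw_of c1, Sm.iw_of c2, Sm.iw_of c3, Sm.iw_of c4, wE_cat4]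
  · rw [if_neg c]
    unfold Sm.iw
    by_cases c1 : Z ∈ S1
    · by_cases c2 : X ∈ S2
      · by_cases c3 : D ∈ S3
        · by_cases c4 : E ∈ S4
          · exact absurd (hR'.2 ⟨c1, c2, c3, c4⟩) c
          · rw [if_neg c4, mul_zero, mul_zero, mul_zero]
        · rw [if_neg c3, zero_mul, mul_zero, mul_zero]
      · rw [if_neg c2, zero_mul, mul_zero]
    · rw [if_neg c1, zero_mul]

open scoped Classical in
/-- **the mass of the hooks** -/
theorem hook_mass {AA S1 S3 SE : Set (List Bool)} {k S : ℕ} (hA : ∀ X ∈ AA, X ∈ Ark S) (hS : S ≤ 2 ^ k)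
    (hfin : gf AA ≠ ⊤) (h1 : ∀ Z ∈ S1, Z ∈ BU) (h3 : ∀ D ∈ S3, D ∈ BU) (hE : ∀ E ∈ SE, E ∈ HiN E.length)
    (hs : ∀ Z ∈ S1, ∀ Z' ∈ S1, ∀ D ∈ S3, hgt Z' < hgt Z + hgt D) :
    gf S1 * (gf AA * (gf S3 * gf SE)) ≤ ENNReal.ofReal (2 * (1 + 2 * U2 (2 ^ k))) *
      gf {F | ∃ Z X D E : List Bool, (Z ∈ S1 ∧ X ∈ AA ∧ D ∈ S3 ∧ E ∈ SE) ∧ F = Z ++ (X ++ (D ++ E))} := by
  obtain ⟨G, hG⟩ : ∃ G : Set (List Bool), G = {X | X ∈ AA ∧ (cnt X.length (NA AA k X) : ℝ) ≤ 2 * U2 (2 ^ k)} := ⟨_, rfl⟩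
  obtain ⟨Tg, hTg⟩ : ∃ Tg : Set (List Bool), Tg = {F | ∃ Z X D E : List Bool, (Z ∈ S1 ∧ X ∈ AA ∧ D ∈ S3 ∧ E ∈ SE) ∧
    F = Z ++ (X ++ (D ++ E))} := ⟨_, rfl⟩
  rw [← hTg]
  have hU := U2_pos (2 ^ k)
  have hGA : gf AA ≤ 2 * gf G := by
    rw [hG]
    exact few_nested hfin
  obtain ⟨q, hq⟩ : ∃ q : P4 → Prop, q = fun p => p.1 ∈ S1 ∧ p.2.1 ∈ G ∧ p.2.2.1 ∈ S3 ∧ p.2.2.2 ∈ SE := ⟨_, rfl⟩
  have hGm : ∀ X ∈ G, X ∈ AA ∧ (cnt X.length (NA AA k X) : ℝ) ≤ 2 * U2 (2 ^ k) := fun X hX => by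
    rw [hG] at hX
    exact hX
  -- the number of the decompositions of one word
  have hcnt : ∀ b : List Bool, ∑' i : P4, (if cat4 i = b ∧ q i then (1 : ℝ≥0∞) else 0) ≤
      (if b ∈ Tg then ENNReal.ofReal (1 + 2 * U2 (2 ^ k)) else 0) := by
    intro b
    by_cases hne : ∃ i : P4, cat4 i = b ∧ q i
    swap
    · push Not at hne
      refine le_trans (le_of_eq ?_) zero_le
      rw [ENNReal.tsum_eq_zero]
      intro i
      exact if_neg fun h => hne i h.1 h.2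
    -- the lowest arc
    have hex : ∃ n : ℕ, ∃ i : P4, (cat4 i = b ∧ q i) ∧ i.1.length = n := by
      obtain ⟨i, hi⟩ := hne
      exact ⟨_, i, hi, rfl⟩
    obtain ⟨n0, hn0⟩ : ∃ n0, n0 = Nat.find hex := ⟨_, rfl⟩
    obtain ⟨i0, hi0, hil⟩ := Nat.find_spec hex
    rw [← hn0] at hil
    have hmin : ∀ i : P4, cat4 i = b ∧ q i → n0 ≤ i.1.length := fun i hi => by
      rw [hn0]
      exact Nat.find_min' hex ⟨i, hi, rfl⟩
    obtain ⟨hi0b, hi0q⟩ := hi0
    rw [hq] at hi0q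
    obtain ⟨a1, a2, a3, a4⟩ := hi0q
    have hbT : b ∈ Tg := by
      rw [hTg]
      exact ⟨_, _, _, _, ⟨a1, (hGm _ a2).1, a3, a4⟩, hi0b.symm⟩
    rw [if_pos hbT]
    obtain ⟨T, hT⟩ : ∃ T : Finset ℕ, T = insert n0 (((range (i0.2.1.length + 1)).filter (NA AA k i0.2.1)).image
      fun c => n0 + c) := ⟨_, rfl⟩
    have hTc : (T.card : ℝ) ≤ 1 + 2 * U2 (2 ^ k) := by
      have e1 : T.card ≤ cnt i0.2.1.length (NA AA k i0.2.1) + 1 := by
        rw [hT]
        refine (Finset.card_insert_le _ _).trans ?_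
        exact Nat.add_le_add_right Finset.card_image_le 1
      have e2 : (T.card : ℝ) ≤ cnt i0.2.1.length (NA AA k i0.2.1) + 1 := by exact_mod_cast e1
      have e3 := (hGm _ a2).2
      linarith
    obtain ⟨sb, hsb⟩ : ∃ sb : Set P4, sb = {i : P4 | cat4 i = b ∧ q i} := ⟨_, rfl⟩
    have hsb' : ∀ i : P4, i ∈ sb ↔ cat4 i = b ∧ q i := fun i => by
      rw [hsb]
      exact Iff.rfl
    have hone : ∑' i : P4, (if cat4 i = b ∧ q i then (1 : ℝ≥0∞) else 0) = ∑' i : P4, (if i ∈ sb then (1 : ℝ≥0∞) else 0) := by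
      refine tsum_congr fun i => ?_
      by_cases h : i ∈ sb
      · rw [if_pos h, if_pos ((hsb' i).1 h)]
      · rw [if_neg h, if_neg fun h' => h ((hsb' i).2 h')]
    rw [hone]
    refine le_trans (one_le sb (fun i => i.1.length) ?_ T ?_) ?_
    · intro i hi j hj hij
      obtain ⟨b1, b2⟩ := (hsb' i).1 hi
      obtain ⟨c1, c2⟩ := (hsb' j).1 hj
      rw [hq] at b2 c2
      obtain ⟨d1, d2, d3, d4⟩ := b2
      obtain ⟨e1, e2, e3, e4⟩ := c2
      obtain ⟨g1, g2, g3, g4⟩ := uniq (hA _ (hGm _ d2).1) (hA _ (hGm _ e2).1) (h3 _ d3) (h3 _ e3) (hE _ d4) (hE _ e4)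
        (b1.trans c1.symm) hij
      exact Prod.ext g1 (Prod.ext g2 (Prod.ext g3 g4))
    · intro i hi
      obtain ⟨b1, b2⟩ := (hsb' i).1 hi
      have hm := hmin i ⟨b1, b2⟩
      rw [hq] at b2
      obtain ⟨d1, d2, d3, d4⟩ := b2
      show i.1.length ∈ T
      rw [hT, Finset.mem_insert]
      rcases Nat.eq_or_lt_of_le hm with h0 | h0
      · exact Or.inl h0.symm
      · right
        have hn := nest (AA := AA) (k := k) (S := S) hA hS (h1 _ a1) (h1 _ d1) (hGm _ a2).1 (hGm _ d2).1 (h3 _ a3) (h3 _ d3)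
          (hE _ a4).1 (hE _ d4).1 (hs _ a1 _ d1 _ d3) (hi0b.trans b1.symm) (by rw [hil]; exact h0)
        rw [hil] at hn
        rw [Finset.mem_image]
        refine ⟨i.1.length - n0, Finset.mem_filter.2 ⟨?_, hn⟩, by omega⟩
        rw [Finset.mem_range]
        obtain ⟨P, T', Q, f1, f2, -⟩ := hn
        have := congrArg List.length f1
        rw [List.length_append] at this
        omega
    · rw [← ENNReal.ofReal_natCast]
      exact ENNReal.ofReal_le_ofReal hTc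
  have hsum : gf S1 * (gf G * (gf S3 * gf SE)) ≤ ENNReal.ofReal (1 + 2 * U2 (2 ^ k)) * gf Tg := by
    obtain ⟨R, hR⟩ : ∃ R : Set P4, R = {p | q p} := ⟨_, rfl⟩
    have hR' : ∀ p : P4, p ∈ R ↔ q p := fun p => by
      rw [hR]
      exact Iff.rfl
    rw [four_prod S1 G S3 SE R (fun p => by rw [hR', hq])]
    have e1 : ∑' b, wE b * ∑' i : P4, (if cat4 i = b ∧ q i then (1 : ℝ≥0∞) else 0) =
        ∑' i : P4, (if q i then wE (cat4 i) else 0) := by
      rw [← Sm.push (cat4) q wE]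
      refine tsum_congr fun b => ?_
      congr 1
      refine tsum_congr fun i => ?_
      by_cases h : cat4 i = b ∧ q i
      · rw [if_pos h, if_pos h]
      · rw [if_neg h, if_neg h]
    have e2 : ∑' p : P4, (if p ∈ R then wE (cat4 p) else 0) = ∑' i : P4, (if q i then wE (cat4 i) else 0) := by
      refine tsum_congr fun p => ?_
      by_cases h : q p
      · rw [if_pos h, if_pos ((hR' p).2 h)]
      · rw [if_neg h, if_neg fun h' => h ((hR' p).1 h')]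
    rw [e2, ← e1, ← Sm.iw_sum Tg, ← ENNReal.tsum_mul_left]
    refine ENNReal.tsum_le_tsum fun b => ?_
    refine (mul_le_mul' le_rfl (hcnt b)).trans ?_
    unfold Sm.iw
    by_cases hb : b ∈ Tg
    · rw [if_pos hb, if_pos hb, mul_comm]
    · rw [if_neg hb, if_neg hb, mul_zero, mul_zero]
  calc gf S1 * (gf AA * (gf S3 * gf SE)) ≤ gf S1 * (2 * gf G * (gf S3 * gf SE)) := by gcongr
    _ = 2 * (gf S1 * (gf G * (gf S3 * gf SE))) := by ring
    _ ≤ 2 * (ENNReal.ofReal (1 + 2 * U2 (2 ^ k)) * gf Tg) := mul_le_mul' le_rfl hsum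
    _ = _ := by
        rw [ENNReal.ofReal_mul (by norm_num), ← mul_assoc]
        congr 2
        norm_num

end Hk

end JNT

end HexObs
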