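import Pool.Agent.JNT.Low2Defs
import Pool.Agent.JNT.JCnt
import Pool.Agent.POL.L3Sum
import Pool.Agent.POL.L4

/-!
JNT, LOC2 (doc JNT/LOC2_70), hooks: words Z ++ (X ++ (D ++ E)), Z a bridge, X an arc, D a bridge (downwards), E a half plane
word without a cut (downwards). Geometry, uniqueness, nesting and the mass.
-/

set_option autoImplicit false

namespace HexObs

namespace JNT

open Finset TS SDN NTW NTA PtC RP BAR POL

open scoped ENNReal

namespace Hk

/-! ### 1. Positions and levels -/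

/-- the positions of the four parts -/
structure Pos4 (t Z X D E : List Bool) : Prop where
  p1 : ∀ j, j ≤ Z.length → vx oo up t j = vx oo up Z j
  p2 : ∀ j, j ≤ X.length → vx oo up t (Z.length + j) = en Z + vx oo up X j
  p3 : ∀ j, j ≤ D.length → vx oo up t (Z.length + (X.length + j)) = en Z + (en X - vx oo up D j)
  p4 : ∀ j, j ≤ E.length → vx oo up t (Z.length + (X.length + (D.length + j))) = en Z + (en X - (en D + vx oo up E j))

theorem pos4 {Z X D E : List Bool} (h1 : dx up Z Z.length = up) (h2 : dx up X X.length = -up)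
    (h3 : dx up D D.length = up) : Pos4 (Z ++ (X ++ (D ++ E))) Z X D E where
  p1 j hj := vx_append (by omega)
  p2 j hj := by
    rw [vx_cat h1, vx_append (by omega)]
    rfl
  p3 j hj := by
    rw [vx_cat h1, vx_dn h2, vx_append (by omega)]
    rfl
  p4 j hj := by
    rw [vx_cat h1, vx_dn h2, vx_cat h3]
    rfl

/-- the levels of the four parts -/
structure Lv4 (t Z X D E : List Bool) (a d : ℤ) : Prop where
  l1 : ∀ j, 1 ≤ j → j ≤ Z.length → 0 < lev t j ∧ lev t j ≤ 3 * a
  l1e : lev t Z.length = 3 * a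
  l2 : ∀ j, 1 ≤ j → j ≤ X.length → 3 * a + 2 ≤ lev t (Z.length + j)
  l2e : lev t (Z.length + X.length) = 3 * a + 2
  l3 : ∀ j, 1 ≤ j → j ≤ D.length → 3 * a + 2 - 3 * d ≤ lev t (Z.length + (X.length + j)) ∧
    lev t (Z.length + (X.length + j)) ≤ 3 * a
  l3e : lev t (Z.length + (X.length + D.length)) = 3 * a + 2 - 3 * d
  l4 : ∀ j, 1 ≤ j → j ≤ E.length → lev t (Z.length + (X.length + (D.length + j))) = 3 * a + 2 - 3 * d - lev E j ∧
    2 ≤ lev E j

theorem lv4 {Z X D E : List Bool} {a d S : ℕ} (hZ : Z ∈ Brd a) (hX : X ∈ Ark S) (hD : D ∈ Brd d)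
    (hE : E ∈ HpN E.length) : Lv4 (Z ++ (X ++ (D ++ E))) Z X D E a d := by
  obtain ⟨z1, z2, z3, z4⟩ := mem_Brd.1 hZ
  obtain ⟨x1, x2, x3, x4⟩ := hX
  obtain ⟨d1, d2, d3, d4⟩ := mem_Brd.1 hD
  obtain ⟨-, w1, w2⟩ := HpN_iff.1 hE
  have hP := pos4 (E := E) z3 x4 d3
  obtain ⟨t, ht⟩ : ∃ t, t = Z ++ (X ++ (D ++ E)) := ⟨_, rfl⟩
  rw [← ht] at hP ⊢
  have e1 : ip (en Z) up = 3 * a := z4
  have e2 : ip (en X) up = 2 := x3
  have e3 : ip (en D) up = 3 * d := d4
  have q1 : ∀ j, j ≤ Z.length → lev t j = lev Z j := by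
    intro j hj
    rw [← ip_vx, hP.p1 j hj, ip_vx]
  have q2 : ∀ j, j ≤ X.length → lev t (Z.length + j) = 3 * a + lev X j := by
    intro j hj
    rw [← ip_vx, hP.p2 j hj, ip_add', e1, ip_vx]
  have q3 : ∀ j, j ≤ D.length → lev t (Z.length + (X.length + j)) = 3 * a + 2 - lev D j := by
    intro j hj
    rw [← ip_vx, hP.p3 j hj, ip_add', ip_sub', e1, e2, ip_vx]
    ring
  have q4 : ∀ j, j ≤ E.length → lev t (Z.length + (X.length + (D.length + j))) = 3 * a + 2 - 3 * d - lev E j := by
    intro j hj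
    rw [← ip_vx, hP.p4 j hj, ip_add', ip_sub', ip_add', e1, e2, e3, ip_vx]
    ring
  refine ⟨fun j h1 h2 => ?_, ?_, fun j h1 h2 => ?_, ?_, fun j h1 h2 => ?_, ?_, fun j h1 h2 => ?_⟩
  · rw [q1 j h2]
    exact z1 j h1 h2
  · rw [q1 _ le_rfl]
    exact z4
  · rw [q2 j h2]
    have h3 := (x1 j h1 h2).1
    have h4 := m3 X j
    omega
  · rw [q2 _ le_rfl]
    omega
  · rw [q3 j h2]
    have h3 := d1 j h1 h2
    have h4 := m3 D j
    omega
  · rw [q3 _ le_rfl, d4]
  · refine ⟨q4 j h2, ?_⟩
    have h3 : 0 < lev E j := w1 j h1 h2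
    have h4 := m3 E j
    omega

/-! ### 2. A hook is a half plane word -/

theorem hook_HpN {Z X D E : List Bool} {a d S : ℕ} (hZ : Z ∈ Brd a) (hX : X ∈ Ark S) (hD : D ∈ Brd d)
    (hE : E ∈ HpN E.length) {v W B : ℝ} (t1 : ∀ i, i ≤ Z.length → |(lat Z i : ℝ)| ≤ v)
    (t3 : ∀ i, i ≤ D.length → |(lat D i : ℝ)| ≤ W) (t4 : ∀ i, i ≤ E.length → |(lat E i : ℝ)| ≤ B)
    (t5 : ∀ i, i ≤ E.length → (lev E i : ℝ) ≤ B) (h1 : B + 3 * d < 3 * a) (h2 : 2 * v + W + B < latE X) :
    Z ++ (X ++ (D ++ E)) ∈ HpN (Z ++ (X ++ (D ++ E))).length := by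
  have hL := lv4 hZ hX hD hE
  obtain ⟨z1, z2, z3, z4⟩ := mem_Brd.1 hZ
  have hP := pos4 (E := E) z3 hX.2.2.2 (mem_Brd.1 hD).2.2.1
  obtain ⟨x1, x2, x3, x4⟩ := hX
  obtain ⟨d1, d2, d3, d4⟩ := mem_Brd.1 hD
  obtain ⟨-, w1, w2⟩ := HpN_iff.1 hE
  obtain ⟨t, ht⟩ : ∃ t, t = Z ++ (X ++ (D ++ E)) := ⟨_, rfl⟩
  rw [← ht] at hL hP ⊢
  have hlen : t.length = Z.length + (X.length + (D.length + E.length)) := by
    rw [ht, List.length_append, List.length_append, List.length_append]
  have hB0 : 0 ≤ B := (abs_nonneg _).trans (t4 0 (Nat.zero_le _))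
  have had : (d : ℤ) < a := by
    have : (3 * d : ℝ) < 3 * a := by linarith
    have : (d : ℝ) < a := by linarith
    exact_mod_cast this
  have b1 := t1 Z.length le_rfl
  have b3 := t3 D.length le_rfl
  have f1 : lt' (en Z) = latE Z := rfl
  have f2 : lt' (en X) = latE X := rfl
  have f3 : lt' (en D) = latE D := rfl
  rw [abs_le] at b1 b3
  -- the classes
  have cls : ∀ n, 1 ≤ n → n ≤ t.length → (n ≤ Z.length) ∨ (∃ l, 1 ≤ l ∧ l ≤ X.length ∧ n = Z.length + l) ∨
      (∃ l, 1 ≤ l ∧ l ≤ D.length ∧ n = Z.length + (X.length + l)) ∨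
      ∃ l, 1 ≤ l ∧ l ≤ E.length ∧ n = Z.length + (X.length + (D.length + l)) := by
    intro n h1 h2
    rw [hlen] at h2
    by_cases c1 : n ≤ Z.length
    · exact Or.inl c1
    by_cases c2 : n ≤ Z.length + X.length
    · exact Or.inr (Or.inl ⟨n - Z.length, by omega, by omega, by omega⟩)
    by_cases c3 : n ≤ Z.length + X.length + D.length
    · exact Or.inr (Or.inr (Or.inl ⟨n - Z.length - X.length, by omega, by omega, by omega⟩))
    · exact Or.inr (Or.inr (Or.inr ⟨n - Z.length - X.length - D.length, by omega, by omega, by omega⟩))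
  have q4 : ∀ j, 1 ≤ j → j ≤ E.length → 0 < lev t (Z.length + (X.length + (D.length + j))) := by
    intro j j1 j2
    rw [(hL.l4 j j1 j2).1]
    have h3 := t5 j j2
    have h4 : ((lev E j : ℤ) : ℝ) < ((3 * a - 3 * d : ℤ) : ℝ) := by
      push_cast
      linarith
    have h5 : lev E j < 3 * a - 3 * d := by exact_mod_cast h4
    omega
  -- lateral coordinates
  have u1 : ∀ j, j ≤ Z.length → (lt' (vx oo up t j) : ℝ) ≤ v := by
    intro j hj
    rw [hP.p1 j hj, lt_vx]
    exact (abs_le.1 (t1 j hj)).2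
  have u3 : ∀ j, j ≤ D.length → v < (lt' (vx oo up t (Z.length + (X.length + j))) : ℝ) := by
    intro j hj
    rw [hP.p3 j hj, lt_add, lt_sub, f1, f2, lt_vx]
    have h3 := (abs_le.1 (t3 j hj)).2
    push_cast
    unfold latE at h2 ⊢
    linarith
  have u4 : ∀ j, j ≤ E.length → v < (lt' (vx oo up t (Z.length + (X.length + (D.length + j)))) : ℝ) := by
    intro j hj
    rw [hP.p4 j hj, lt_add, lt_sub, lt_add, f1, f2, f3, lt_vx]
    have h3 := (abs_le.1 (t4 j hj)).2
    push_cast
    unfold latE at h2 ⊢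
    linarith
  rw [HpN_iff]
  refine ⟨rfl, fun n n1 n2 => ?_, ?_⟩
  · show 0 < lev t n
    rcases cls n n1 n2 with i1 | ⟨l, l1, l2, rfl⟩ | ⟨l, l1, l2, rfl⟩ | ⟨l, l1, l2, rfl⟩
    · exact (hL.l1 n n1 i1).1
    · have := hL.l2 l l1 l2
      omega
    · have := (hL.l3 l l1 l2).1
      omega
    · exact q4 l l1 l2
  · -- injectivity
    have inj : ∀ i j, 1 ≤ i → i < j → j ≤ t.length → vx oo up t i ≠ vx oo up t j := by
      intro i j hi hij hj heq
      have hv1 : lev t i = lev t j := by rw [← ip_vx, ← ip_vx, heq]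
      have hv3 : (lt' (vx oo up t i) : ℝ) = lt' (vx oo up t j) := by rw [heq]
      rcases cls i hi (by omega) with i1 | ⟨l, l1, l2, rfl⟩ | ⟨l, l1, l2, rfl⟩ | ⟨l, l1, l2, rfl⟩
      · have A := hL.l1 i hi i1
        have A' := u1 i i1
        rcases cls j (by omega) hj with j1 | ⟨l', k1, k2, rfl⟩ | ⟨l', k1, k2, rfl⟩ | ⟨l', k1, k2, rfl⟩
        · rw [hP.p1 i i1, hP.p1 j j1] at heq
          exact z2 i j hij j1 heq
        · have B := hL.l2 l' k1 k2
          omega
        · have B := u3 l' k2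
          rw [hv3] at A'
          linarith
        · have B := u4 l' k2
          rw [hv3] at A'
          linarith
      · have A := hL.l2 l l1 l2
        rcases cls j (by omega) hj with j1 | ⟨l', k1, k2, rfl⟩ | ⟨l', k1, k2, rfl⟩ | ⟨l', k1, k2, rfl⟩
        · omega
        · rw [hP.p2 l l2, hP.p2 l' k2] at heq
          exact x2 l l' (by omega) k2 (add_left_cancel heq)
        · have B := hL.l3 l' k1 k2
          omega
        · have B := hL.l4 l' k1 k2
          omega
      · have A := hL.l3 l l1 l2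
        rcases cls j (by omega) hj with j1 | ⟨l', k1, k2, rfl⟩ | ⟨l', k1, k2, rfl⟩ | ⟨l', k1, k2, rfl⟩
        · omega
        · omega
        · rw [hP.p3 l l2, hP.p3 l' k2] at heq
          exact d2 l l' (by omega) k2 (sub_right_injective (add_left_cancel heq))
        · have B := hL.l4 l' k1 k2
          omega
      · have A := hL.l4 l l1 l2
        rcases cls j (by omega) hj with j1 | ⟨l', k1, k2, rfl⟩ | ⟨l', k1, k2, rfl⟩ | ⟨l', k1, k2, rfl⟩
        · omega
        · omega
        · omega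
        · rw [hP.p4 l l2, hP.p4 l' k2] at heq
          exact w2 l l' (by omega) k2 (add_left_cancel (sub_right_injective (add_left_cancel heq)))
    intro i j hij hj heq
    rcases Nat.eq_zero_or_pos i with h0 | h0
    · have h3 : 0 < lev t j := by
        rcases cls j (by omega) hj with i1 | ⟨l, l1, l2, rfl⟩ | ⟨l, l1, l2, rfl⟩ | ⟨l, l1, l2, rfl⟩
        · exact (hL.l1 j (by omega) i1).1
        · have := hL.l2 l l1 l2
          omega
        · have := (hL.l3 l l1 l2).1
          omega
        · exact q4 l l1 l2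
      have h4 : lev t i = lev t j := by rw [← ip_vx, ← ip_vx, heq]
      rw [h0, lev_zero] at h4
      omega
    · exact inj i j h0 hij hj heq

/-- the end of a hook -/
theorem hook_en {Z X D E : List Bool} {a d S : ℕ} (hZ : Z ∈ Brd a) (hX : X ∈ Ark S) (hD : D ∈ Brd d) :
    en (Z ++ (X ++ (D ++ E))) = en Z + (en X - (en D + en E)) := by
  have hP := pos4 (E := E) (mem_Brd.1 hZ).2.2.1 hX.2.2.2 (mem_Brd.1 hD).2.2.1
  have h := hP.p4 E.length le_rfl
  show vx oo up (Z ++ (X ++ (D ++ E))) (Z ++ (X ++ (D ++ E))).length = _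
  rw [List.length_append, List.length_append, List.length_append, h]
  rfl

/-! ### 3. Uniqueness and nesting -/

theorem uniq {S : ℕ} {Z X D E Z' X' D' E' : List Bool} (hX : X ∈ Ark S) (hX' : X' ∈ Ark S)
    (hD : D ∈ BU) (hD' : D' ∈ BU) (hE : E ∈ HiN E.length) (hE' : E' ∈ HiN E'.length)
    (h : Z ++ (X ++ (D ++ E)) = Z' ++ (X' ++ (D' ++ E'))) (hl : Z.length = Z'.length) :
    Z = Z' ∧ X = X' ∧ D = D' ∧ E = E' := by
  obtain ⟨h1, h2⟩ := List.append_inj h hl
  have key : ∀ X X' V V' : List Bool, X ∈ Ark S → X' ∈ Ark S → X ++ V = X' ++ V' → ¬ X.length < X'.length := by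
    intro X X' V V' hX hX' h3 hlt
    obtain ⟨T, hT⟩ : ∃ T, X' = X ++ T := by
      rcases List.append_eq_append_iff.1 h3 with ⟨T, h4, -⟩ | ⟨T, h4, -⟩
      · exact ⟨T, h4⟩
      · rw [h4, List.length_append] at hlt
        omega
    have h4 := (hX'.1 (X.length + 1) (by omega) (by omega)).1
    have h5 : lev X' (X.length + 1) = lev X (X.length + 1) := by
      rw [← ip_vx, ← ip_vx, hT, vx_append (by omega)]
    rw [h5, lev_succ, hX.2.2.2, hX.2.2.1, ip_up_neg] at h4
    omega
  have h3 : X.length = X'.length := by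
    rcases Nat.lt_trichotomy X.length X'.length with h4 | h4 | h4
    · exact absurd h4 (key _ _ _ _ hX hX' h2)
    · exact h4
    · exact absurd h4 (key _ _ _ _ hX' hX h2.symm)
  obtain ⟨h4, h5⟩ := List.append_inj h2 h3
  obtain ⟨h6, h7⟩ := split_inj hD hD' hE hE' h5
  exact ⟨h1, h4, h6, h7⟩

theorem nest {AA : Set (List Bool)} {k S : ℕ} (hA : ∀ X ∈ AA, X ∈ Ark S) (hS : S ≤ 2 ^ k)
    {Z X D E Z' X' D' E' : List Bool} (hZ : Z ∈ BU) (hZ' : Z' ∈ BU) (hX : X ∈ AA) (hX' : X' ∈ AA)
    (hD : D ∈ BU) (hD' : D' ∈ BU) (hE : E ∈ HpN E.length) (hE' : E' ∈ HpN E'.length)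
    (hs : hgt Z' < hgt Z + hgt D') (h : Z ++ (X ++ (D ++ E)) = Z' ++ (X' ++ (D' ++ E')))
    (hl : Z.length < Z'.length) : NA AA k X (Z'.length - Z.length) := by
  have bZ := BU_hgt hZ
  have bZ' := BU_hgt hZ'
  have bD := BU_hgt hD
  have bD' := BU_hgt hD'
  have aX := hA X hX
  have aX' := hA X' hX'
  have L := lv4 bZ aX bD hE
  have L' := lv4 bZ' aX' bD' hE'
  rw [← h] at L'
  obtain ⟨t, ht⟩ : ∃ t, t = Z ++ (X ++ (D ++ E)) := ⟨_, rfl⟩
  have hlen : t.length = Z.length + (X.length + (D.length + E.length)) := by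
    rw [ht, List.length_append, List.length_append, List.length_append]
  have hlen' : t.length = Z'.length + (X'.length + (D'.length + E'.length)) := by
    rw [ht, h, List.length_append, List.length_append, List.length_append]
  rw [← ht] at L L'
  have x1 : 1 ≤ X.length := (POL.arcW_of aX).one
  have x1' : 1 ≤ X'.length := (POL.arcW_of aX').one
  -- the first part
  have s1 : Z'.length ≤ Z.length + X.length := by
    by_contra hc
    push Not at hc
    have e1 := (L'.l1 (Z.length + X.length) (by omega) (by omega)).2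
    have e2 : lev t Z'.length ≤ 3 * (hgt Z : ℤ) := by
      by_cases c : Z'.length ≤ Z.length + X.length + D.length
      · have := (L.l3 (Z'.length - Z.length - X.length) (by omega) (by omega)).2
        rwa [show Z.length + (X.length + (Z'.length - Z.length - X.length)) = Z'.length by omega] at this
      · have := L.l4 (Z'.length - Z.length - X.length - D.length) (by omega) (by omega)
        rw [show Z.length + (X.length + (D.length + (Z'.length - Z.length - X.length - D.length))) = Z'.length by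
          omega] at this
        have h3 := (Int.natCast_nonneg (hgt D))
        omega
    rw [L'.l1e] at e2
    rw [L.l2e] at e1
    omega
  have s2 : (hgt Z : ℤ) < hgt Z' := by
    have e1 := L.l2 (Z'.length - Z.length) (by omega) (by omega)
    rw [show Z.length + (Z'.length - Z.length) = Z'.length by omega, L'.l1e] at e1
    omega
  have s3 : Z'.length + X'.length < Z.length + X.length := by
    by_contra hc
    push Not at hc
    rcases Nat.lt_or_ge Z'.length (Z.length + X.length) with c | c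
    · have e1 := L'.l2 (Z.length + X.length - Z'.length) (by omega) (by omega)
      rw [show Z'.length + (Z.length + X.length - Z'.length) = Z.length + X.length by omega, L.l2e] at e1
      omega
    · have e1 : Z'.length = Z.length + X.length := by omega
      have e2 := L'.l1e
      rw [e1, L.l2e] at e2
      omega
  have s4 : Z.length + X.length ≤ Z'.length + X'.length + D'.length := by
    by_contra hc
    push Not at hc
    have e1 := L.l2 (Z'.length + X'.length + D'.length - Z.length) (by omega) (by omega)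
    rw [show Z.length + (Z'.length + X'.length + D'.length - Z.length) = Z'.length + (X'.length + D'.length) by omega,
      L'.l3e] at e1
    omega
  -- the lists
  obtain ⟨P, hP⟩ : ∃ P, Z' = Z ++ P := by
    rcases List.append_eq_append_iff.1 h with ⟨T, h4, -⟩ | ⟨T, h4, -⟩
    · exact ⟨T, h4⟩
    · rw [h4, List.length_append] at hl
      omega
  have hPl : P.length = Z'.length - Z.length := by rw [hP, List.length_append]; omega
  have g1 : X ++ (D ++ E) = P ++ (X' ++ (D' ++ E')) := by
    rw [hP, List.append_assoc] at h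
    exact List.append_cancel_left h
  obtain ⟨Q, hQ⟩ : ∃ Q, X = (P ++ X') ++ Q := by
    have g1' : X ++ (D ++ E) = (P ++ X') ++ (D' ++ E') := by rw [g1, List.append_assoc]
    rcases List.append_eq_append_iff.1 g1' with ⟨T, h4, -⟩ | ⟨T, h4, -⟩
    · have := congrArg List.length h4
      rw [List.length_append, List.length_append] at this
      omega
    · exact ⟨T, h4⟩
  have hQl : Z'.length + X'.length + Q.length = Z.length + X.length := by
    have := congrArg List.length hQ
    rw [List.length_append, List.length_append] at this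
    omega
  have g2 : D' ++ E' = Q ++ (D ++ E) := by
    rw [hQ, List.append_assoc, List.append_assoc] at g1
    exact (List.append_cancel_left (List.append_cancel_left g1)).symm
  obtain ⟨D2, hD2⟩ : ∃ D2, D' = Q ++ D2 := by
    rcases List.append_eq_append_iff.1 g2 with ⟨T, h4, -⟩ | ⟨T, h4, -⟩
    · have := congrArg List.length h4
      rw [List.length_append] at this
      have h5 : T.length = 0 := by omega
      exact ⟨[], by rw [h4, List.eq_nil_of_length_eq_zero h5, List.append_nil, List.append_nil]⟩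
    · exact ⟨T, h4⟩
  -- the bridge P
  obtain ⟨z1, z2, z3, z4⟩ := mem_Brd.1 bZ
  obtain ⟨z1', z2', z3', z4'⟩ := mem_Brd.1 bZ'
  obtain ⟨d1', d2', d3', d4'⟩ := mem_Brd.1 bD'
  obtain ⟨y1, y2, y3, y4⟩ := aX
  obtain ⟨y1', y2', y3', y4'⟩ := aX'
  have v1 : ∀ j, vx oo up Z' (Z.length + j) = vx oo up Z Z.length + vx oo up P j := fun j => by
    rw [hP]
    exact vx_cat z3 j
  have v2 : ∀ j, lev Z' (Z.length + j) = 3 * hgt Z + lev P j := fun j => by
    rw [← ip_vx, v1, ip_add', ip_vx, ip_vx, z4]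
  have hlZ' : Z'.length = Z.length + P.length := by omega
  have v3 : ∀ j, j ≤ P.length → lev X j = lev P j := fun j hj => by
    rw [← ip_vx, ← ip_vx, hQ, List.append_assoc, vx_append (by omega)]
  obtain ⟨r, hr⟩ : ∃ r : ℕ, r = hgt Z' - hgt Z := ⟨_, rfl⟩
  have hr' : (r : ℤ) = hgt Z' - hgt Z := by omega
  have dP : dx up P P.length = up := by
    have h3 := dx_cat z3 (t := P) P.length
    rw [← hP, ← hlZ', z3'] at h3
    exact h3.symm
  have lP : lev P P.length = 3 * r := by
    have h3 := v2 P.length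
    rw [← hlZ', z4'] at h3
    omega
  have bP : P ∈ Brd r := by
    rw [mem_Brd]
    refine ⟨fun i h1 h2 => ⟨?_, ?_⟩, fun i j hij hj heq => ?_, dP, lP⟩
    · rw [← v3 i h2]
      exact (y1 i h1 (by omega)).1
    · have h3 := (z1' (Z.length + i) (by omega) (by omega)).2
      rw [v2] at h3
      omega
    · refine z2' (Z.length + i) (Z.length + j) (by omega) (by omega) ?_
      rw [v1, v1, heq]
  -- the bridge Q
  have dPX : dx up (P ++ X') (P ++ X').length = -up := by
    rw [List.length_append, dx_cat dP, y4']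
  have lPX : lev (P ++ X') (P ++ X').length = 3 * r + 2 := by
    rw [List.length_append, ← ip_vx, vx_cat dP, ip_add', ip_vx, ip_vx, lP, y3']
  have w1 : ∀ j, lev X ((P ++ X').length + j) = 3 * r + 2 - lev Q j := fun j => by
    rw [← ip_vx, hQ, vx_dn dPX, ip_sub', ip_vx, ip_vx, lPX]
  have w2 : ∀ j, j ≤ Q.length → vx oo up D' j = vx oo up Q j := fun j hj => by
    rw [hD2, vx_append (by omega)]
  have w3 : ∀ j, j ≤ Q.length → lev D' j = lev Q j := fun j hj => by
    rw [← ip_vx, ← ip_vx, w2 j hj]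
  have hQD : Q.length ≤ D'.length := by rw [hD2, List.length_append]; omega
  have hXl : X.length = (P ++ X').length + Q.length := by
    rw [← List.length_append, ← hQ]
  have hXPl : (P ++ X').length = P.length + X'.length := List.length_append
  have dQ : dx up Q Q.length = up := by
    have h3 := dx_dn (t := Q) dPX Q.length
    rw [← hQ, ← hXl, y4] at h3
    exact (neg_injective h3).symm
  have lQ : lev Q Q.length = 3 * r := by
    have h3 := w1 Q.length
    rw [← hXl, y3] at h3
    omega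
  have bQ : Q ∈ Brd r := by
    rw [mem_Brd]
    refine ⟨fun i h1 h2 => ⟨?_, ?_⟩, fun i j hij hj heq => ?_, dQ, lQ⟩
    · rw [← w3 i h2]
      exact (d1' i h1 (by omega)).1
    · have h3 := (y1 ((P ++ X').length + i) (by omega) (by omega)).1
      have h4 := m3 X ((P ++ X').length + i)
      rw [w1] at h3 h4
      omega
    · refine d2' i j hij (by omega) ?_
      rw [w2 i (by omega), w2 j hj, heq]
  refine ⟨P, X', Q, by rw [hQ, List.append_assoc], hPl, ⟨⟨r, bP⟩, ⟨r, bQ⟩⟩, ⟨by rw [hgt_eq bP, hgt_eq bQ], ?_⟩, hX'⟩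
  rw [hgt_eq bP]
  have h3 := (y1 P.length (by rcases Nat.eq_zero_or_pos P.length with h0 | h0 <;> omega) (by omega)).2
  rw [v3 _ le_rfl, lP] at h3
  omega

end Hk

end JNT

end HexObs
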