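import Pool.Agent.JNT.LocLowP
import Pool.Agent.JNT.ExSaw
import Pool.Agent.EN.TailZ

/-!
JNT, lower side, row P (helper5): the pointwise lower bound for the mean length of the bridges, from the words (LocLow).
-/

set_option autoImplicit false

namespace NTSZ

namespace Loc

open HexObs hiding pos curve

open Pool.Agent.NTS.Res

open scoped Classical

/-- **the pointwise lower bound for the walks**, from the words -/
theorem loc_low_M (hL : HexObs.JNT.LocLow (fun k => PW.mZ (2 ^ k))) :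
    ∃ c C K : ℝ, 0 < c ∧ 0 < C ∧ 0 < K ∧ ∀ n : ℕ, 1 ≤ n → ∀ z : ℂ,
      (∃ s : Fin n → Fin 3, Pool.Agent.NTS.Res.pos s n = z) → K * (n : ℝ) ^ (3 / 4 : ℝ) ≤ ‖z‖ →
      c * (n : ℝ) ^ (-(3 / 2) : ℝ) * Real.exp (-(C * (‖z‖ / (n : ℝ) ^ (3 / 4 : ℝ)) ^ 4)) * ((saw n).card : ℝ) ≤
        (((saw n).filter fun s => Pool.Agent.NTS.Res.pos s n = z).card : ℝ) :=
  loc_low mLow_M mUp_M HexObs.EN.allX_M hL ExS.exists_saw

end Loc

end NTSZ
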