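import Pool.Agent.JNT.Pub
import Pool.Agent.JNT.LocLowM
import Pool.Agent.JNT.LocF

/-!
JNT: the law of the end point of the n-step walks, pointwise, on both sides, no hypothesis.
-/

set_option autoImplicit false

namespace NTSZ

namespace Loc

open HexObs hiding pos curve

open Pool.Agent.NTS.Res

open scoped Classical

/-- **both sides**, every `n` and every point, no hypothesis -/
theorem loc_two : ∃ c C K : ℝ, 0 < c ∧ 0 < C ∧ 0 < K ∧ ∀ n : ℕ, 1 ≤ n → ∀ z : ℂ,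
      (∀ L : ℝ, 0 ≤ L → prb n (fun s => Pool.Agent.NTS.Res.pos s n = z ∧ ∃ j, j ≤ n ∧
        L * (n : ℝ) ^ (3 / 4 : ℝ) ≤ ‖Pool.Agent.NTS.Res.pos s j‖) ≤
        C * (n : ℝ) ^ (-(3 / 2) : ℝ) * Real.exp (-(c * L ^ 4))) ∧
      ((∃ s : Fin n → Fin 3, Pool.Agent.NTS.Res.pos s n = z) → K * (n : ℝ) ^ (3 / 4 : ℝ) ≤ ‖z‖ →
        c * (n : ℝ) ^ (-(3 / 2) : ℝ) * Real.exp (-(C * (‖z‖ / (n : ℝ) ^ (3 / 4 : ℝ)) ^ 4)) ≤
          prb n (fun s => Pool.Agent.NTS.Res.pos s n = z)) :=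
  loc_of (loc_low_M HexObs.JNT.locLow_M)

end Loc

end NTSZ
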