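import Pool.Agent.JNT.LowDefs

/-!
JNT, lower side, row F (helper14): the pointwise lower bound from the joint lower bound of the bridges (LowC), the half
plane words without a cut (NcP) and the joint (JCnt).
-/

set_option autoImplicit false

namespace HexObs

namespace JNT

open Finset TS SDN NTW NTA PtC RP

open scoped ENNReal

namespace LL

lemma ip_up (v : Pt) : ip v up = v.1 + 2 * v.2 := by
  unfold ip up
  ring

lemma lvl_f (v : Pt) : lvl false v = v.1 + 2 * v.2 := ip_up v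

lemma lvl_t (v : Pt) : lvl true v = -(2 * v.1 + v.2) := by
  show ip v ((-1, 0) : Pt) = _
  unfold ip
  ring

open Classical in
lemma gf_ite (S : Set (List Bool)) : gf S = ∑' t : List Bool, if t ∈ S then wE t else 0 := by
  unfold gf
  rw [tsum_subtype S wE]
  refine tsum_congr fun t => ?_
  by_cases h : t ∈ S
  · rw [Set.indicator_of_mem h, if_pos h]
  · rw [Set.indicator_of_notMem h, if_neg h]

open Classical in
/-- the sum over the middle word -/
lemma sum_low {Φ : List Bool → List Bool → List Bool → Prop} {P Q : Set (List Bool)} {g : ℝ≥0∞}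
    (h : ∀ A ∈ P, ∀ B ∈ Q, ∃ S : Set (List Bool), (∀ Z ∈ S, Φ A Z B) ∧ g ≤ gf S) :
    gf P * gf Q * g ≤ ∑' A : List Bool, ∑' Z : List Bool, ∑' B : List Bool,
      (if A ∈ P ∧ B ∈ Q ∧ Φ A Z B then wE A * (wE Z * wE B) else 0) := by
  calc gf P * gf Q * g = ∑' A : List Bool, ∑' B : List Bool,
        (if A ∈ P then wE A else 0) * ((if B ∈ Q then wE B else 0) * g) := by
        rw [gf_ite P, gf_ite Q, mul_assoc, ← ENNReal.tsum_mul_right]
        refine tsum_congr fun A => ?_
        rw [← ENNReal.tsum_mul_right, ENNReal.tsum_mul_left]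
    _ ≤ ∑' A : List Bool, ∑' B : List Bool, ∑' Z : List Bool,
        (if A ∈ P ∧ B ∈ Q ∧ Φ A Z B then wE A * (wE Z * wE B) else 0) := by
        refine ENNReal.tsum_le_tsum fun A => ENNReal.tsum_le_tsum fun B => ?_
        by_cases hA : A ∈ P
        · by_cases hB : B ∈ Q
          · obtain ⟨S, hS, hg⟩ := h A hA B hB
            rw [if_pos hA, if_pos hB]
            calc wE A * (wE B * g) ≤ wE A * (wE B * gf S) := by gcongr
              _ = ∑' Z : List Bool, wE A * ((if Z ∈ S then wE Z else 0) * wE B) := by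
                  rw [gf_ite S, ENNReal.tsum_mul_left, ENNReal.tsum_mul_right, mul_comm (wE B)]
              _ ≤ _ := by
                  refine ENNReal.tsum_le_tsum fun Z => ?_
                  by_cases hZ : Z ∈ S
                  · rw [if_pos hZ, if_pos ⟨hA, hB, hS Z hZ⟩]
                  · rw [if_neg hZ, zero_mul, mul_zero]
                    exact zero_le
          · rw [if_neg hB, zero_mul, mul_zero]
            exact zero_le
        · rw [if_neg hA, zero_mul]
          exact zero_le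
    _ = _ := tsum_congr fun A => ENNReal.tsum_comm

/-- the geometry: the displacement of the middle bridge -/
lemma geo {G P2 Pi Hc H' H : ℤ} {a b x : Pt} (hG : 1 ≤ G) (hP : 1 ≤ P2) (hPi : P2 ≤ Pi) (hHc : 1 ≤ Hc)
    (hH' : H' = 8 * G * Hc) (hH : H = 3 * H' + 2 * G + 2)
    (ha1 : |a.1 + 2 * a.2| ≤ P2 * G) (ha2 : |2 * a.1 + a.2| ≤ P2 * G) (hb1 : |b.1 + 2 * b.2| ≤ P2 * G)
    (hb2 : |2 * b.1 + b.2| ≤ P2 * G) (hx1 : H * P2 ≤ x.1 + 2 * x.2) (hx2 : x.1 + 2 * x.2 ≤ H * Pi)
    (hx : |x.1| ≤ x.1 + 2 * x.2) {h : ℤ} {z : Pt} (hz : z = (x.1 - a.1 - b.1, x.2 - a.2 + 1 - b.2))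
    (h3 : z.1 + 2 * z.2 = 3 * h) :
    H' * P2 ≤ h ∧ h ≤ H' * (2 * Pi) ∧ |z.1| ≤ 4 * h := by
  have e1 : z.1 = x.1 - a.1 - b.1 := by rw [hz]
  have e2 : z.2 = x.2 - a.2 + 1 - b.2 := by rw [hz]
  rw [abs_le] at ha1 ha2 hb1 hb2 hx
  obtain ⟨E, hE⟩ : ∃ E : ℤ, E = P2 * G := ⟨_, rfl⟩
  rw [← hE] at ha1 ha2 hb1 hb2
  have hE1 : 1 ≤ E := by rw [hE]; nlinarith
  have u1 : H * P2 = 3 * (H' * P2) + 2 * E + 2 * P2 := by rw [hH, hE]; ring
  have u2 : E ≤ Pi * G := by rw [hE]; nlinarith
  have u3 : H * Pi = 3 * (H' * Pi) + 2 * (Pi * G) + 2 * Pi := by rw [hH]; ring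
  have u4 : 8 * (Pi * G) ≤ H' * Pi := by
    rw [hH']
    nlinarith [mul_nonneg (show (0 : ℤ) ≤ Pi by linarith) (show (0 : ℤ) ≤ G by linarith),
      mul_nonneg (mul_nonneg (show (0 : ℤ) ≤ Pi by linarith) (show (0 : ℤ) ≤ G by linarith))
        (show (0 : ℤ) ≤ Hc - 1 by linarith)]
  have u5 : 8 * E ≤ H' * P2 := by
    rw [hH', hE]
    nlinarith [mul_nonneg (mul_nonneg (show (0 : ℤ) ≤ P2 by linarith) (show (0 : ℤ) ≤ G by linarith))
        (show (0 : ℤ) ≤ Hc - 1 by linarith)]
  have u6 : Pi ≤ Pi * G := by nlinarith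
  have g1 : H' * P2 ≤ h := by linarith
  refine ⟨g1, by linarith, abs_le.2 ⟨?_, ?_⟩⟩ <;> linarith

end LL

open LL

/-- **row F: the pointwise lower bound, words** -/
theorem loc_low {m : ℕ → ℝ} (hup : MUp m) (hL : LowC m) (hN : NcP m) (hJ : JCnt) : LocLow m := by
  classical
  obtain ⟨C0, hC0, hup⟩ := hup
  obtain ⟨c1, D, k0, hc1, hN⟩ := hN (1 / 8) (by norm_num)
  obtain ⟨Hc, cc, Cc, a0, hHc, hcc, hCc, hL⟩ := hL 4 (1 / 2) C0 (by norm_num) (by norm_num) (by linarith)
  obtain ⟨H, hH⟩ : ∃ H : ℕ, H = 3 * (8 * 2 ^ D * Hc) + 2 * 2 ^ D + 2 := ⟨_, rfl⟩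
  refine ⟨H, cc * c1 ^ 2 / 12, Cc * 16 ^ (D + 3), a0 + 3 * (D + 3) + k0, by omega, by positivity, by positivity, ?_⟩
  intro k i n x hk hn1 hn2 hx1 hx2 hx3 hpar
  obtain ⟨P, hP⟩ : ∃ P : Set (List Bool), P = {A : List Bool | A ∈ BAR.HiN A.length ∧ A.length % 2 = 1 ∧
    (A.length : ℝ) ≤ 1 / 8 * m k ∧ ∀ dir : Bool, |lvl dir (en A)| ≤ 2 ^ (k + D)} := ⟨_, rfl⟩
  obtain ⟨Q, hQ⟩ : ∃ Q : Set (List Bool), Q = {A : List Bool | A ∈ BAR.HiN A.length ∧ A.length % 2 = n % 2 ∧
    (A.length : ℝ) ≤ 1 / 8 * m k ∧ ∀ dir : Bool, |lvl dir (en A)| ≤ 2 ^ (k + D)} := ⟨_, rfl⟩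
  have hPm : ENNReal.ofReal c1 * Xb k ≤ gf P := by
    rw [hP]
    exact hN k 1 (by omega) (by norm_num)
  have hQm : ENNReal.ofReal c1 * Xb k ≤ gf Q := by
    rw [hQ]
    exact hN k (n % 2) (by omega) (Nat.mod_lt _ (by norm_num))
  have hJ := hJ n x P Q (by rw [hP]; exact fun A hA => ⟨hA.1, hA.2.1⟩) (by rw [hQ]; exact fun A hA => hA.1)
  obtain ⟨g, hg⟩ : ∃ g : ℝ≥0∞, g = ENNReal.ofReal (cc * Real.exp (-(Cc * 16 ^ (i + (D + 3)))) * (Ub k / (4 ^ k * m k))) :=
    ⟨_, rfl⟩
  have key : gf P * gf Q * g ≤ 12 * gf {t | t ∈ SawN n ∧ (vx oo up t n = x ∨ vx oo up t n = r3 x ∨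
      vx oo up t n = r3 (r3 x))} := by
    refine le_trans ?_ hJ
    refine le_trans (sum_low (Φ := fun A Z B => Z ∈ BU ∧ A.length + Z.length + B.length = n + 1 ∧
      en A - up + en Z + en B = x) (g := g) ?_) ?_
    · intro A hA B hB
      rw [hP] at hA
      rw [hQ] at hB
      obtain ⟨-, hA2, hA3, hA4⟩ := hA
      obtain ⟨-, hB2, hB3, hB4⟩ := hB
      -- levels
      have la := lev_mod A A.length
      have lb := lev_mod B B.length
      have ea : lev A A.length = (en A).1 + 2 * (en A).2 := ip_up (en A)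
      have eb : lev B B.length = (en B).1 + 2 * (en B).2 := ip_up (en B)
      rw [ea, if_neg (by rw [Nat.even_iff]; omega)] at la
      rw [eb] at lb
      rw [ip_up] at hx1 hx2 hpar hx3
      have hxc : cross up x = -x.1 := by
        unfold cross up
        ring
      rw [hxc, abs_neg] at hx3
      obtain ⟨z, hz⟩ : ∃ z : Pt, z = (x.1 - (en A).1 - (en B).1, x.2 - (en A).2 + 1 - (en B).2) := ⟨_, rfl⟩
      have z1 : z.1 = x.1 - (en A).1 - (en B).1 := by rw [hz]
      have z2 : z.2 = x.2 - (en A).2 + 1 - (en B).2 := by rw [hz]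
      have hd : (3 : ℤ) ∣ z.1 + 2 * z.2 := by
        rcases Nat.mod_two_eq_zero_or_one n with hn | hn
        · rw [if_pos hn] at hpar
          rw [if_pos (by rw [Nat.even_iff]; omega)] at lb
          omega
        · rw [if_neg (by omega)] at hpar
          rw [if_neg (by rw [Nat.even_iff]; omega)] at lb
          omega
      obtain ⟨h, hh⟩ := hd
      have hxl : ((H : ℤ) * 2 ^ k) ≤ x.1 + 2 * x.2 := by exact_mod_cast hx1
      have hxu : x.1 + 2 * x.2 ≤ (H : ℤ) * 2 ^ (k + i) := by exact_mod_cast hx2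
      have hD : (2 : ℤ) ^ (k + D) = 2 ^ k * 2 ^ D := pow_add _ _ _
      have a1 := hA4 false
      have a2 := hA4 true
      have b1 := hB4 false
      have b2 := hB4 true
      rw [lvl_f, hD] at a1 b1
      rw [lvl_t, abs_neg, hD] at a2 b2
      have hgeo := geo (G := 2 ^ D) (P2 := 2 ^ k) (Pi := 2 ^ (k + i)) (Hc := Hc) (H' := 8 * 2 ^ D * Hc) (H := H)
        (a := en A) (b := en B) (x := x) (h := h) (z := z) (one_le_pow₀ (by norm_num)) (one_le_pow₀ (by norm_num))
        (pow_le_pow_right₀ (by norm_num) (by omega)) (by exact_mod_cast hHc) rfl (by rw [hH]; push_cast; ring) a1 a2 b1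
        b2 hxl hxu hx3 hz hh
      obtain ⟨q1, q2, q3⟩ := hgeo
      have hpk : (1 : ℤ) ≤ 2 ^ k := one_le_pow₀ (by norm_num)
      have hpD : (1 : ℤ) ≤ 2 ^ D := one_le_pow₀ (by norm_num)
      have hHc' : (1 : ℤ) ≤ Hc := by exact_mod_cast hHc
      have q0 : (Hc : ℤ) * 2 ^ k ≤ 8 * 2 ^ D * Hc * 2 ^ k := by
        have : (0 : ℤ) ≤ (8 * 2 ^ D - 1) * (Hc * 2 ^ k) := mul_nonneg (by linarith) (by positivity)
        linarith
      have hh0 : 0 ≤ h := by
        have : (0 : ℤ) ≤ Hc * 2 ^ k := by positivity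
        linarith
      obtain ⟨hn, rfl⟩ := Int.eq_ofNat_of_zero_le hh0
      -- the number of letters
      have hmk : 0 < m k := by
        have h1 : (0 : ℝ) < A.length := by
          have : 0 < A.length := by omega
          exact_mod_cast this
        linarith
      have hsum : (A.length : ℝ) + B.length ≤ 1 / 4 * m k := by linarith
      have hle : A.length + B.length ≤ n := by
        have : ((A.length + B.length : ℕ) : ℝ) ≤ n := by
          push_cast
          linarith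
        exact_mod_cast this
      obtain ⟨b, hb⟩ : ∃ b : ℕ, A.length + b + B.length = n + 1 := ⟨n + 1 - A.length - B.length, by omega⟩
      have hbR : (A.length : ℝ) + b + B.length = n + 1 := by exact_mod_cast hb
      have hA1 : (1 : ℝ) ≤ A.length := by
        have : 1 ≤ A.length := by omega
        exact_mod_cast this
      have hB0 : (0 : ℝ) ≤ B.length := Nat.cast_nonneg _
      refine ⟨{Z | Z ∈ EndB hn z.1 ∧ Z.length = b}, ?_, ?_⟩
      · rintro Z ⟨⟨hZ1, hZ2⟩, hZ3⟩
        refine ⟨⟨hn, hZ1⟩, by rw [hZ3]; exact hb, ?_⟩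
        have e1 : (en Z).1 + 2 * (en Z).2 = 3 * hn := by
          rw [← ip_up]
          exact (mem_Brd.1 hZ1).2.2.2
        have e2 : (en Z).1 = z.1 := by
          have : latE Z = (en Z).1 := by
            show -(cross up (en Z)) = _
            unfold cross up
            ring
          rw [← this]
          exact hZ2
        have e3 : (en Z).2 = z.2 := by linarith
        refine Prod.ext ?_ ?_
        · show (en A).1 - 0 + (en Z).1 + (en B).1 = x.1
          rw [e2, z1]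
          ring
        · show (en A).2 - 1 + (en Z).2 + (en B).2 = x.2
          rw [e3, z2]
          ring
      · rw [hg]
        refine hL k (i + (D + 3)) hn b z.1 (by omega) ?_ ?_ ?_ ?_ ?_ ?_ ?_
        · have : (Hc : ℤ) * 2 ^ k ≤ (hn : ℤ) := q0.trans q1
          exact_mod_cast this
        · have e : (Hc * 2 ^ (k + (i + (D + 3)) + 1) : ℕ) = (8 * 2 ^ D * Hc) * (2 * 2 ^ (k + i)) := by
            rw [show k + (i + (D + 3)) + 1 = (k + i) + D + 4 by ring, pow_add, pow_add _ (k + i) D]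
            ring
          rw [e]
          exact_mod_cast q2
        · have : z.1 = 3 * (hn : ℤ) - 2 * z.2 := by linarith
          rw [this]
          exact ⟨hn - z.2, by ring⟩
        · have : ((|z.1| : ℤ) : ℝ) ≤ 4 * hn := by exact_mod_cast q3
          rwa [Int.cast_abs] at this
        · rw [Nat.even_iff]
          omega
        · linarith
        · have := hup k
          linarith
    · refine ENNReal.tsum_le_tsum fun A => ENNReal.tsum_le_tsum fun Z => ENNReal.tsum_le_tsum fun B => ?_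
      by_cases h : A ∈ P ∧ B ∈ Q ∧ Z ∈ BU ∧ A.length + Z.length + B.length = n + 1 ∧ en A - up + en Z + en B = x
      · obtain ⟨h1, h2, h3, h4, h5⟩ := h
        rw [if_pos ⟨h1, h2, h3, h4, h5⟩, if_pos ⟨h1, h3, h2, h4, h5⟩]
      · rw [if_neg h]
        exact zero_le
  have fin : 12 * (ENNReal.ofReal (cc * c1 ^ 2 / 12 * Real.exp (-(Cc * 16 ^ (D + 3) * 16 ^ i)) / 4 ^ k) * nuX m k) ≤
      gf P * gf Q * g := by
    have e12 : (12 : ℝ≥0∞) = ENNReal.ofReal 12 := by norm_num
    have e16 : Cc * (16 : ℝ) ^ (D + 3) * 16 ^ i = Cc * 16 ^ (i + (D + 3)) := by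
      rw [pow_add]
      ring
    calc 12 * (ENNReal.ofReal (cc * c1 ^ 2 / 12 * Real.exp (-(Cc * 16 ^ (D + 3) * 16 ^ i)) / 4 ^ k) * nuX m k)
        = (ENNReal.ofReal c1 * Xb k) * (ENNReal.ofReal c1 * Xb k) * g := by
          rw [hg, e16, nuX, e12]
          have a1 : ENNReal.ofReal (cc * Real.exp (-(Cc * 16 ^ (i + (D + 3)))) * (Ub k / (4 ^ k * m k))) =
              ENNReal.ofReal (cc * Real.exp (-(Cc * 16 ^ (i + (D + 3)))) / 4 ^ k) * ENNReal.ofReal (Ub k / m k) := by
            rw [← ENNReal.ofReal_mul (by positivity)]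
            congr 1
            ring
          have a2 : ENNReal.ofReal (cc * c1 ^ 2 / 12 * Real.exp (-(Cc * 16 ^ (i + (D + 3)))) / 4 ^ k) * ENNReal.ofReal 12 =
              ENNReal.ofReal c1 * ENNReal.ofReal c1 *
                ENNReal.ofReal (cc * Real.exp (-(Cc * 16 ^ (i + (D + 3)))) / 4 ^ k) := by
            rw [← ENNReal.ofReal_mul (by positivity), ← ENNReal.ofReal_mul hc1.le, ← ENNReal.ofReal_mul (by positivity)]
            congr 1
            ring
          rw [a1]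
          calc _ = ENNReal.ofReal (cc * c1 ^ 2 / 12 * Real.exp (-(Cc * 16 ^ (i + (D + 3)))) / 4 ^ k) * ENNReal.ofReal 12 *
                (ENNReal.ofReal (Ub k / m k) * Xb k ^ 2) := by ring
            _ = _ := by
                rw [a2]
                ring
      _ ≤ _ := by gcongr
  exact (ENNReal.mul_le_mul_iff_right (by norm_num) (by norm_num)).1 (fin.trans key)

end JNT

end HexObs
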