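import Pool.Agent.JNT.LowOne

/-!
JNT, lower side: counting and numbers.
-/

set_option autoImplicit false

namespace HexObs

namespace JNT

open Finset TS SDN NTW NTA PtC RP

open scoped ENNReal

namespace LoN

/-! ### 1. Counting integers of one parity in an interval -/

lemma cnt_int {u v : ℝ} (h : 4 ≤ v - u) (p : ℤ) : ∃ F : Finset ℤ, (∀ y ∈ F, Even (y - p) ∧ u ≤ y ∧ (y : ℝ) ≤ v) ∧
    (v - u) / 4 ≤ F.card := by
  classical
  obtain ⟨a, ha⟩ : ∃ a : ℤ, a = ⌈(u - p) / 2⌉ := ⟨_, rfl⟩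
  obtain ⟨b, hb⟩ : ∃ b : ℤ, b = ⌊(v - p) / 2⌋ := ⟨_, rfl⟩
  have a1 : (u - p) / 2 ≤ a := by rw [ha]; exact Int.le_ceil _
  have a2 : (a : ℝ) < (u - p) / 2 + 1 := by rw [ha]; exact Int.ceil_lt_add_one _
  have b1 : (b : ℝ) ≤ (v - p) / 2 := by rw [hb]; exact Int.floor_le _
  have b2 : (v - p) / 2 < (b : ℝ) + 1 := by rw [hb]; exact Int.lt_floor_add_one _
  refine ⟨(Finset.Icc a b).image fun i => 2 * i + p, ?_, ?_⟩
  · intro y hy
    obtain ⟨i, hi, rfl⟩ := Finset.mem_image.1 hy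
    rw [Finset.mem_Icc] at hi
    have h1 : (a : ℝ) ≤ i := by exact_mod_cast hi.1
    have h2 : (i : ℝ) ≤ b := by exact_mod_cast hi.2
    refine ⟨⟨i, by ring⟩, ?_, ?_⟩
    · push_cast
      linarith
    · push_cast
      linarith
  · rw [Finset.card_image_of_injective _ (fun i j h => by simpa using h), Int.card_Icc]
    have h1 : ((b + 1 - a : ℤ) : ℝ) ≤ ((b + 1 - a).toNat : ℝ) := by
      have : b + 1 - a ≤ ((b + 1 - a).toNat : ℤ) := Int.self_le_toNat _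
      exact_mod_cast this
    refine le_trans ?_ h1
    push_cast
    linarith

/-- even natural numbers in an interval -/
lemma cnt_nat {u v : ℝ} (hu : 0 ≤ u) (h : 4 ≤ v - u) : ∃ F : Finset ℕ, (∀ y ∈ F, Even y ∧ u ≤ y ∧ (y : ℝ) ≤ v) ∧
    (v - u) / 4 ≤ F.card := by
  classical
  obtain ⟨F, hF, hc⟩ := cnt_int h 0
  have h0 : ∀ y ∈ F, 0 ≤ y := fun y hy => by
    have h1 := (hF y hy).2.1
    have h2 : (0 : ℝ) ≤ y := hu.trans h1
    exact_mod_cast h2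
  refine ⟨F.image Int.toNat, ?_, ?_⟩
  · intro y hy
    obtain ⟨z, hz, rfl⟩ := Finset.mem_image.1 hy
    obtain ⟨h1, h2, h3⟩ := hF z hz
    have h4 := h0 z hz
    have h5 : ((z.toNat : ℕ) : ℤ) = z := Int.toNat_of_nonneg h4
    have h6 : ((z.toNat : ℕ) : ℝ) = z := by exact_mod_cast h5
    rw [h6]
    refine ⟨?_, h2, h3⟩
    rw [sub_zero, ← h5] at h1
    exact_mod_cast h1
  · rw [Finset.card_image_of_injOn]
    · exact hc
    · intro x hx y hy hxy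
      have h1 := h0 x hx
      have h2 := h0 y hy
      omega

/-! ### 2. The exponent 4/3 -/

lemma p43 {x : ℝ} (hx : 0 ≤ x) : (x ^ (4 / 3 : ℝ)) ^ 3 = x ^ 4 := by
  rw [← Real.rpow_natCast, ← Real.rpow_mul hx, ← Real.rpow_natCast]
  norm_num

lemma p43_le {x y : ℝ} (hx : 0 ≤ x) (hy : 0 ≤ y) (h : x ^ 4 ≤ y ^ 3) : x ^ (4 / 3 : ℝ) ≤ y := by
  refine le_of_pow_le_pow_left₀ (n := 3) (by norm_num) hy ?_
  rw [p43 hx]
  exact h

lemma le_p43 {x y : ℝ} (hx : 0 ≤ x) (h : y ^ 3 ≤ x ^ 4) : y ≤ x ^ (4 / 3 : ℝ) := by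
  refine le_of_pow_le_pow_left₀ (n := 3) (by norm_num) (by positivity) ?_
  rw [p43 hx]
  exact h

lemma conv43 : ConvexOn ℝ (Set.Ici 0) (fun x : ℝ => x ^ (4 / 3 : ℝ)) := convexOn_rpow (by norm_num)

/-- two halves, upper bound -/
lemma two_up {t : ℝ} (h1 : 9 / 20 ≤ t) (h2 : t ≤ 11 / 20) : t ^ (4 / 3 : ℝ) + (1 - t) ^ (4 / 3 : ℝ) ≤ 796 / 1000 := by
  have e1 : (9 / 20 : ℝ) ^ (4 / 3 : ℝ) ≤ 345 / 1000 := p43_le (by norm_num) (by norm_num) (by norm_num)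
  have e2 : (11 / 20 : ℝ) ^ (4 / 3 : ℝ) ≤ 451 / 1000 := p43_le (by norm_num) (by norm_num) (by norm_num)
  obtain ⟨s, hs⟩ : ∃ s : ℝ, s = 10 * t - 9 / 2 := ⟨_, rfl⟩
  have hs0 : 0 ≤ s := by linarith
  have hs1 : s ≤ 1 := by linarith
  have f1 := conv43.2 (show (9 / 20 : ℝ) ∈ Set.Ici 0 by norm_num) (show (11 / 20 : ℝ) ∈ Set.Ici 0 by norm_num)
    (show (0 : ℝ) ≤ 1 - s by linarith) hs0 (by ring)
  have f2 := conv43.2 (show (9 / 20 : ℝ) ∈ Set.Ici 0 by norm_num) (show (11 / 20 : ℝ) ∈ Set.Ici 0 by norm_num)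
    hs0 (show (0 : ℝ) ≤ 1 - s by linarith) (by ring)
  simp only [smul_eq_mul] at f1 f2
  rw [show (1 - s) * (9 / 20) + s * (11 / 20) = t by rw [hs]; ring] at f1
  rw [show s * (9 / 20) + (1 - s) * (11 / 20) = 1 - t by rw [hs]; ring] at f2
  nlinarith

/-- two halves, lower bound -/
lemma two_low {t : ℝ} (h1 : 0 ≤ t) (h2 : t ≤ 1) : 7937 / 10000 ≤ t ^ (4 / 3 : ℝ) + (1 - t) ^ (4 / 3 : ℝ) := by
  have e1 : (7937 / 20000 : ℝ) ≤ (1 / 2 : ℝ) ^ (4 / 3 : ℝ) := le_p43 (by norm_num) (by norm_num)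
  have f1 := conv43.2 (show t ∈ Set.Ici 0 from h1) (show 1 - t ∈ Set.Ici 0 by
    show (0 : ℝ) ≤ 1 - t
    linarith) (show (0 : ℝ) ≤ 1 / 2 by norm_num) (show (0 : ℝ) ≤ 1 / 2 by norm_num) (by norm_num)
  simp only [smul_eq_mul] at f1
  rw [show 1 / 2 * t + 1 / 2 * (1 - t) = 1 / 2 by ring] at f1
  linarith

/-- the pieces of a window -/
lemma win43 {h c : ℕ} (hh : 1 ≤ h) (h1 : 9 * h ≤ 20 * c) (h2 : 20 * c ≤ 11 * h) :
    (c : ℝ) ^ (4 / 3 : ℝ) + ((h - c : ℕ) : ℝ) ^ (4 / 3 : ℝ) ≤ 796 / 1000 * (h : ℝ) ^ (4 / 3 : ℝ) ∧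
    7937 / 10000 * (h : ℝ) ^ (4 / 3 : ℝ) ≤ (c : ℝ) ^ (4 / 3 : ℝ) + ((h - c : ℕ) : ℝ) ^ (4 / 3 : ℝ) ∧
    1 / 4 * (h : ℝ) ^ (4 / 3 : ℝ) ≤ (c : ℝ) ^ (4 / 3 : ℝ) ∧ 1 / 4 * (h : ℝ) ^ (4 / 3 : ℝ) ≤ ((h - c : ℕ) : ℝ) ^ (4 / 3 : ℝ) := by
  have hh0 : (0 : ℝ) < h := by exact_mod_cast hh
  obtain ⟨t, ht⟩ : ∃ t : ℝ, t = c / h := ⟨_, rfl⟩
  have h1' : 9 * (h : ℝ) ≤ 20 * c := by exact_mod_cast h1
  have h2' : 20 * (c : ℝ) ≤ 11 * h := by exact_mod_cast h2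
  have t1 : 9 / 20 ≤ t := by
    rw [ht, div_le_div_iff₀ (by norm_num) hh0]
    linarith
  have t2 : t ≤ 11 / 20 := by
    rw [ht, div_le_div_iff₀ hh0 (by norm_num)]
    linarith
  have e1 : (c : ℝ) = t * h := by
    rw [ht]
    field_simp
  have e2 : ((h - c : ℕ) : ℝ) = (1 - t) * h := by
    rw [Nat.cast_sub (by omega), ht]
    field_simp
  have hT : 0 < (h : ℝ) ^ (4 / 3 : ℝ) := by positivity
  rw [e1, e2, Real.mul_rpow (by linarith) hh0.le, Real.mul_rpow (by linarith) hh0.le, ← add_mul]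
  have f1 := two_up t1 t2
  have f2 := two_low (t := t) (by linarith) (by linarith)
  have f3 : (1 / 4 : ℝ) ≤ t ^ (4 / 3 : ℝ) := by
    refine (le_p43 (x := 9 / 20) (by norm_num) (by norm_num)).trans (Real.rpow_le_rpow (by norm_num) t1 (by norm_num))
  have f4 : (1 / 4 : ℝ) ≤ (1 - t) ^ (4 / 3 : ℝ) := by
    refine (le_p43 (x := 9 / 20) (by norm_num) (by norm_num)).trans (Real.rpow_le_rpow (by norm_num) (by linarith) (by norm_num))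
  exact ⟨mul_le_mul_of_nonneg_right f1 hT.le, mul_le_mul_of_nonneg_right f2 hT.le, mul_le_mul_of_nonneg_right f3 hT.le,
    mul_le_mul_of_nonneg_right f4 hT.le⟩

/-- the ratio of the doubling -/
lemma ratio : (796 / 1000 : ℝ) ^ (17 / 16 : ℝ) < 79 / 100 := by
  have h1 : ((796 / 1000 : ℝ) ^ (17 / 16 : ℝ)) ^ 16 = (796 / 1000) ^ 17 := by
    rw [← Real.rpow_natCast, ← Real.rpow_mul (by norm_num), ← Real.rpow_natCast]
    norm_num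
  refine lt_of_pow_lt_pow_left₀ 16 (by norm_num) ?_
  rw [h1]
  norm_num

/-! ### 3. Sums over a family of first parts -/

/-- **from the pairs with first displacement pt c y, number of letters l, to one bridge** -/
theorem combT {m : ℕ → ℝ} (hm : ∀ k, 0 < m k) (hJ : JoB m) : ∃ K : ℝ, 0 < K ∧ ∀ (q h n : ℕ) (x : ℤ)
    (W : Finset (ℕ × ℤ)) (L : ℕ × ℤ → Finset ℕ) (E : ℝ), 0 ≤ E → Even (x - h) →
      (∀ w ∈ W, 2 ^ q ≤ w.1 ∧ w.1 + 2 ^ q ≤ h ∧ Even (w.2 - w.1) ∧ ∀ l ∈ L w, l ≤ n) →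
      E ≤ ∑ w ∈ W, ∑ l ∈ L w, gz (pt w.1 w.2) l * gz (pt (h - w.1) (x - w.2)) (n - l) →
        E ^ 2 / (K * (UU h * (Ub q ^ 2 / (4 ^ q * m q)))) ≤ gz (pt h x) n := by
  classical
  obtain ⟨K, hK, hc⟩ := LO1.comb hm hJ
  refine ⟨K, hK, fun q h n x W L E hE hx hW hs => ?_⟩
  obtain ⟨D, hD⟩ : ∃ D : Finset (Pt × ℕ), D = W.biUnion fun w => (L w).image fun l => (pt w.1 w.2, l) := ⟨_, rfl⟩
  have hsum : ∑ p ∈ D, gz p.1 p.2 * gz (pt h x - p.1) (n - p.2) =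
      ∑ w ∈ W, ∑ l ∈ L w, gz (pt w.1 w.2) l * gz (pt (h - w.1) (x - w.2)) (n - l) := by
    rw [hD, Finset.sum_biUnion]
    · refine Finset.sum_congr rfl fun w hw => ?_
      obtain ⟨a1, a2, a3, a4⟩ := hW w hw
      rw [Finset.sum_image (fun l _ l' _ h => (Prod.mk.injEq _ _ _ _ ▸ h : _ ∧ _).2)]
      refine Finset.sum_congr rfl fun l _ => ?_
      rw [LO1.pt_sub (le_trans (Nat.le_add_right _ _) a2) hx a3]
    · intro w hw w' hw' hne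
      have a := (hW w hw).2.2.1
      have a' := (hW w' hw').2.2.1
      rw [Function.onFun, Finset.disjoint_left]
      intro p hp hp'
      obtain ⟨l, hl, rfl⟩ := Finset.mem_image.1 hp
      obtain ⟨l', hl', he⟩ := Finset.mem_image.1 hp'
      have e1 := congrArg Prod.fst he
      obtain ⟨e2, e3⟩ := LO1.pt_inj a' a e1
      exact hne (Prod.ext e2.symm e3.symm)
  refine hc q h n (pt h x) D E hE (fun p hp => ?_) (le_of_eq (LO1.ip_pt hx)) (hs.trans (le_of_eq hsum.symm))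
  rw [hD, Finset.mem_biUnion] at hp
  obtain ⟨w, hw, hp⟩ := hp
  obtain ⟨l, hl, rfl⟩ := Finset.mem_image.1 hp
  obtain ⟨a1, a2, a3, a4⟩ := hW w hw
  have a5 : ((2 ^ q : ℕ) : ℤ) = 2 ^ q := by push_cast; rfl
  refine ⟨?_, ?_, a4 l hl⟩
  · show 3 * 2 ^ q ≤ ip (pt w.1 w.2) up
    rw [LO1.ip_pt a3]
    omega
  · show 3 * 2 ^ q ≤ ip (pt h x - pt w.1 w.2) up
    rw [ip_sub_left, LO1.ip_pt a3, LO1.ip_pt hx]
    omega

end LoN

end JNT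

end HexObs
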