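import Pool.Agent.JNT.Ph
import Pool.Agent.HexLim.Touch

/-!
JNT, row T: from the contraction of the blocks to the norm of the bridges of height at least n.
-/

set_option autoImplicit false

namespace HexObs

namespace JNT

open Finset TS

open scoped ENNReal

namespace RcT

variable {θ ρ M : ℝ} {A : Set (List Bool)} {φ : Pt → ℂ} {N : ℕ}

/-- the number of rows of a displacement -/
def hz (z : Pt) : ℕ := (ip z up / 3).toNat

lemma hz_en (t : List Bool) : hz (en t) = hgt t := by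
  unfold hz hgt en lev
  rfl

lemma gf_Brd_ne (h : ℕ) : gf (Brd h) ≠ ⊤ := by
  rw [EN.LB.gf_Brd']
  exact ENNReal.ofReal_ne_top

lemma gf_Bk_ne (N : ℕ) : gf (EN.LB.Bk N) ≠ ⊤ := ne_top_of_le_ne_top ENNReal.one_ne_top (EN.LB.gf_Bk N)

lemma Fo_Brd (h : ℕ) (hφ : ∀ z, ‖φ z‖ ≤ M) : ‖Fo θ (Brd h) φ‖ ≤ uu h * M := by
  refine (Fo_le (gf_Brd_ne h) hφ).trans (le_of_eq ?_)
  rw [EN.LB.gf_Brd', ENNReal.toReal_ofReal (uu_pos h).le]

/-- the values outside of the displacements of A do not count -/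
lemma Fo_sub {B : Set (List Bool)} (hAB : B ⊆ A) (hA : gf A ≠ ⊤) (hφ : ∀ z, ‖φ z‖ ≤ M) (h0 : ∀ t ∈ A, t ∉ B → φ (en t) = 0) :
    Fo θ A φ = Fo θ B φ := by
  have h1 : A = B ∪ (A \ B) := (Set.union_sdiff_cancel hAB).symm
  have hB : gf B ≠ ⊤ := ne_top_of_le_ne_top hA (gf_mono hAB)
  have hD : gf (A \ B) ≠ ⊤ := ne_top_of_le_ne_top hA (gf_mono Set.sdiff_subset)
  have h2 : Fo θ (A \ B) φ = 0 := by
    unfold Fo
    refine (tsum_congr fun t => ?_).trans tsum_zero
    rw [h0 t.1 t.2.1 t.2.2, mul_zero]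
  conv_lhs => rw [h1]
  rw [Fo_union hB hD Set.disjoint_sdiff_right hφ, h2, add_zero]

/-- **the first block of the bridges of the height h** -/
lemma dec {h : ℕ} (hN : N < h) (hφ : ∀ z, ‖φ z‖ ≤ 1) : Fo θ (Brd h) φ =
    Fo θ (EN.LB.Bk N) (fun z => if hz z ≤ h then Fo θ (Brd (h - hz z)) (fun w => φ (z + w)) else 0) := by
  classical
  obtain ⟨Ψ, hΨ⟩ : ∃ Ψ : Pt → ℂ, Ψ = fun z => if hz z ≤ h then Fo θ (Brd (h - hz z)) (fun w => φ (z + w)) else 0 := ⟨_, rfl⟩
  have hΨ1 : ∀ z, ‖Ψ z‖ ≤ 1 := by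
    intro z
    rw [hΨ]
    show ‖(if hz z ≤ h then Fo θ (Brd (h - hz z)) (fun w => φ (z + w)) else 0)‖ ≤ 1
    split_ifs
    · refine (Fo_Brd _ fun w => hφ _).trans ?_
      rw [mul_one]
      exact uu_le_one _
    · simp
  obtain ⟨D, hD⟩ : ∃ D : ℕ → Set (List Bool), D = fun j => {a | a ∈ EN.LB.Bk N ∧ a ∈ Brd j} := ⟨_, rfl⟩
  obtain ⟨E, hE⟩ : ∃ E : ℕ → Set (List Bool), E = fun j => {t | ∃ a ∈ D j, ∃ b ∈ Brd (h - j), t = a ++ b} := ⟨_, rfl⟩
  have hmem : ∀ j x, x ∈ D j ↔ x ∈ EN.LB.Bk N ∧ x ∈ Brd j := fun j x => by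
    rw [hD]
    exact Iff.rfl
  have hDn : ∀ j, gf (D j) ≠ ⊤ := fun j => ne_top_of_le_ne_top (gf_Bk_ne N) (gf_mono fun a ha => by
    rw [hD] at ha
    exact ha.1)
  have hDU : ∀ j, D j ⊆ BU := fun j a ha => by
    rw [hD] at ha
    exact ⟨j, ha.2⟩
  -- the words of the height h
  have h1 : Brd h = ⋃ j ∈ range (h + 1), E j := by
    ext t
    simp only [Set.mem_iUnion, Finset.mem_range, exists_prop]
    constructor
    · intro ht
      obtain ⟨B, hB, X', ⟨x', hX'⟩, he⟩ := EN.LB.first_Bk h N t ht hN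
      obtain ⟨j, hj⟩ := EN.LB.Bk_BU hB
      have h2 : j + x' = h := by
        have := Brd_append hj hX'
        rw [← he] at this
        exact Brd_height this ht
      refine ⟨j, by omega, ?_⟩
      rw [hE]
      refine ⟨B, ?_, X', ?_, he⟩
      · rw [hD]
        exact ⟨hB, hj⟩
      · rwa [show h - j = x' by omega]
    · rintro ⟨j, hj, ht⟩
      rw [hE] at ht
      obtain ⟨a, ha, b, hb, rfl⟩ := ht
      rw [hD] at ha
      have := Brd_append ha.2 hb
      rwa [show j + (h - j) = h by omega] at this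
  have hinj : ∀ j, ∀ a ∈ D j, ∀ b ∈ Brd (h - j), ∀ a' ∈ D j, ∀ b' ∈ Brd (h - j), a ++ b = a' ++ b' → a = a' := by
    intro j a ha b hb a' ha' b' hb' he
    rw [hD] at ha ha'
    exact EN.LB.Bk_pf ha.1 ha'.1 ⟨_, hb⟩ ⟨_, hb'⟩ he
  have hEn : ∀ j, gf (E j) ≠ ⊤ := by
    intro j
    refine ne_top_of_le_ne_top (ENNReal.mul_ne_top (hDn j) (gf_Brd_ne (h - j))) (gf_le_mul fun t ht => ?_)
    rw [hE] at ht
    exact ht
  have hdis : ∀ i ∈ range (h + 1), ∀ j ∈ range (h + 1), i ≠ j → Disjoint (E i) (E j) := by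
    intro i _ j _ hij
    rw [Set.disjoint_left]
    intro t hi hj
    rw [hE] at hi hj
    obtain ⟨a, ha, b, hb, rfl⟩ := hi
    obtain ⟨a', ha', b', hb', he⟩ := hj
    rw [hD] at ha ha'
    have h3 := EN.LB.Bk_pf ha.1 ha'.1 ⟨_, hb⟩ ⟨_, hb'⟩ he
    rw [h3] at ha
    exact hij (Brd_height ha.2 ha'.2)
  have h2 : ∀ j ∈ range (h + 1), Fo θ (E j) φ = Fo θ (D j) Ψ := by
    intro j hj
    rw [mem_range] at hj
    rw [Fo_mul_left (hDU j) (hDn j) (gf_Brd_ne (h - j)) (fun t => by rw [hE]; exact Iff.rfl) (hinj j) hφ]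
    unfold Fo
    refine tsum_congr fun a => ?_
    have ha := ((hmem j a.1).1 a.2).2
    rw [hΨ]
    show _ = wp θ a.1 * (if hz (en a.1) ≤ h then Fo θ (Brd (h - hz (en a.1))) (fun w => φ (en a.1 + w)) else 0)
    rw [hz_en, hgt_eq ha, if_pos (by omega)]
    rfl
  have h3 : Fo θ (⋃ j ∈ range (h + 1), D j) Ψ = ∑ j ∈ range (h + 1), Fo θ (D j) Ψ := by
    refine Fo_biUnion _ (fun j _ => hDn j) (fun i _ j _ hij => ?_) hΨ1
    rw [Set.disjoint_left]
    intro t hi hj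
    rw [hD] at hi hj
    exact hij (Brd_height hi.2 hj.2)
  have h4 : Fo θ (EN.LB.Bk N) Ψ = Fo θ (⋃ j ∈ range (h + 1), D j) Ψ := by
    refine Fo_sub ?_ (gf_Bk_ne N) hΨ1 fun t ht hn => ?_
    · intro t ht
      simp only [Set.mem_iUnion, Finset.mem_range, exists_prop] at ht
      obtain ⟨j, -, h5⟩ := ht
      rw [hD] at h5
      exact h5.1
    · obtain ⟨j, hj⟩ := EN.LB.Bk_BU ht
      have h5 : ¬ j ≤ h := by
        intro h6
        apply hn
        simp only [Set.mem_iUnion, Finset.mem_range, exists_prop]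
        refine ⟨j, by omega, ?_⟩
        rw [hD]
        exact ⟨ht, hj⟩
      rw [hΨ]
      show (if hz (en t) ≤ h then _ else _) = (0 : ℂ)
      rw [hz_en, hgt_eq hj, if_neg h5]
  rw [← hΨ, h4, h3, ← Finset.sum_congr rfl h2]
  conv_lhs => rw [h1]
  exact Fo_biUnion _ (fun j _ => hEn j) hdis hφ

lemma Fo_sum {ι : Type*} (S : Finset ι) {Φ : ι → Pt → ℂ} (hA : gf A ≠ ⊤) (hφ : ∀ i ∈ S, ∀ z, ‖Φ i z‖ ≤ M) :
    Fo θ A (fun z => ∑ i ∈ S, Φ i z) = ∑ i ∈ S, Fo θ A (Φ i) := by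
  unfold Fo
  rw [← Summable.tsum_finsetSum fun i hi => summ hA (hφ i hi)]
  exact tsum_congr fun t => by rw [Finset.mul_sum]

lemma Fo_add {ψ : Pt → ℂ} {M' : ℝ} (hA : gf A ≠ ⊤) (hφ : ∀ z, ‖φ z‖ ≤ M) (hψ : ∀ z, ‖ψ z‖ ≤ M') :
    Fo θ A (fun z => φ z + ψ z) = Fo θ A φ + Fo θ A ψ := by
  unfold Fo
  rw [← (summ hA hφ).tsum_add (summ hA hψ)]
  exact tsum_congr fun t => by ring

lemma shiftS (S : Finset ℕ) (c : ℕ) (F : ℕ → ℂ) : ∑ h ∈ S, (if c ≤ h then F (h - c) else 0) =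
    ∑ h ∈ (S.filter (fun h => c ≤ h)).image (fun h => h - c), F h := by
  classical
  rw [← Finset.sum_filter, Finset.sum_image]
  intro a ha b hb h
  have h1 := (Finset.mem_filter.1 (Finset.mem_coe.1 ha)).2
  have h2 := (Finset.mem_filter.1 (Finset.mem_coe.1 hb)).2
  simp only at h
  omega

/-- the bridges of height at least n have the norm A -/
def PB (θ : ℝ) (n : ℕ) (A : ℝ) : Prop := ∀ S : Finset ℕ, (∀ h ∈ S, n ≤ h) → ∀ φ : Pt → ℂ, (∀ z, ‖φ z‖ ≤ 1) →
  ‖∑ h ∈ S, Fo θ (Brd h) φ‖ ≤ A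

/-- the functional behind the first block -/
noncomputable def Ps (θ : ℝ) (S : Finset ℕ) (φ : Pt → ℂ) (z : Pt) : ℂ :=
  ∑ h ∈ S, if hz z ≤ h then Fo θ (Brd (h - hz z)) (fun w => φ (z + w)) else 0

lemma dec_sum {S : Finset ℕ} (hS : ∀ h ∈ S, N < h) (hφ : ∀ z, ‖φ z‖ ≤ 1) :
    ∑ h ∈ S, Fo θ (Brd h) φ = Fo θ (EN.LB.Bk N) (Ps θ S φ) := by
  unfold Ps
  rw [Fo_sum (M := 1) S (gf_Bk_ne N)]
  · exact Finset.sum_congr rfl fun h hh => dec (hS h hh) hφ
  · intro h _ z
    split_ifs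
    · refine (Fo_Brd _ fun w => hφ _).trans ?_
      rw [mul_one]
      exact uu_le_one _
    · simp

lemma Ps_le {S : Finset ℕ} {n : ℕ} {B : ℝ} {z : Pt} (hB : PB θ n B) (hS : ∀ h ∈ S, n + hz z ≤ h) (hφ : ∀ z, ‖φ z‖ ≤ 1) :
    ‖Ps θ S φ z‖ ≤ B := by
  unfold Ps
  rw [shiftS S (hz z) (fun h => Fo θ (Brd h) (fun w => φ (z + w)))]
  refine hB _ (fun h hh => ?_) _ fun w => hφ _
  obtain ⟨h', h1, h2⟩ := Finset.mem_image.1 hh
  have := hS h' (Finset.mem_filter.1 h1).1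
  omega

/-- all bridges -/
lemma PB_zero (hB : NB θ (EN.LB.Bk N) ρ) (hρ : ρ < 1) : PB θ 0 (UU N / (1 - ρ)) := by
  classical
  obtain ⟨A0, hA0⟩ : ∃ A0, A0 = UU N / (1 - ρ) := ⟨_, rfl⟩
  have hU := Num2Aux.UU_pos N
  have h1ρ : 0 < 1 - ρ := by linarith
  have hA0p : 0 < A0 := by
    rw [hA0]
    positivity
  have hA0e : UU N + ρ * A0 = A0 := by
    rw [hA0]
    field_simp
    ring
  rw [← hA0]
  have key : ∀ H : ℕ, ∀ S : Finset ℕ, (∀ h ∈ S, h ≤ H) → ∀ φ : Pt → ℂ, (∀ z, ‖φ z‖ ≤ 1) →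
      ‖∑ h ∈ S, Fo θ (Brd h) φ‖ ≤ A0 := by
    intro H
    induction H using Nat.strong_induction_on with
    | _ H ih =>
      intro S hS φ hφ
      have hsp := Finset.sum_filter_add_sum_filter_not S (fun h => h ≤ N) (fun h => Fo θ (Brd h) φ)
      rw [← hsp]
      have e1 : ‖∑ h ∈ S.filter (fun h => h ≤ N), Fo θ (Brd h) φ‖ ≤ UU N := by
        refine (norm_sum_le_of_le (f := fun h => Fo θ (Brd h) φ) (n := fun h => uu h) _ fun h _ => ?_).trans ?_
        · have := Fo_Brd (θ := θ) h hφ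
          rwa [mul_one] at this
        · unfold UU
          refine Finset.sum_le_sum_of_subset_of_nonneg (fun h hh => ?_) fun h _ _ => (uu_pos h).le
          rw [Finset.mem_filter] at hh
          exact Finset.mem_range.2 (by omega)
      have e2 : ‖∑ h ∈ S.filter (fun h => ¬ h ≤ N), Fo θ (Brd h) φ‖ ≤ ρ * A0 := by
        rw [dec_sum (N := N) (fun h hh => by
          have := (Finset.mem_filter.1 hh).2
          omega) hφ]
        obtain ⟨T, hT⟩ : ∃ T, T = S.filter (fun h => ¬ h ≤ N) := ⟨_, rfl⟩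
        rw [← hT]
        have e3 : Fo θ (EN.LB.Bk N) (Ps θ T φ) = Fo θ (EN.LB.Bk N) (fun z => if 1 ≤ hz z then Ps θ T φ z else 0) := by
          refine Fo_congr fun t ht => ?_
          obtain ⟨y, r, X, P, hX, hP, h1, h2, rfl⟩ := ht
          rw [hz_en, hgt_eq (Brd_append hX hP.1), if_pos (by omega)]
        rw [e3]
        refine NB_mul hB hA0p.le fun z => ?_
        split_ifs with hz1
        · rcases Nat.eq_zero_or_pos H with hH | hH
          · have : T = ∅ := by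
              rw [hT]
              refine Finset.filter_eq_empty_iff.2 fun h hh => ?_
              have := hS h hh
              omega
            unfold Ps
            rw [this]
            simpa using hA0p.le
          · unfold Ps
            rw [shiftS T (hz z) (fun h => Fo θ (Brd h) (fun w => φ (z + w)))]
            refine ih (H - 1) (by omega) _ (fun h hh => ?_) _ fun w => hφ _
            obtain ⟨h', h1, h2⟩ := Finset.mem_image.1 hh
            have h3 := (Finset.mem_filter.1 h1).1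
            rw [hT] at h3
            have := hS h' (Finset.mem_filter.1 h3).1
            omega
        · simpa using hA0p.le
      calc _ ≤ UU N + ρ * A0 := (norm_add_le _ _).trans (add_le_add e1 e2)
        _ = A0 := hA0e
  intro S _ φ hφ
  exact key (S.sup id) S (fun h hh => Finset.le_sup (f := id) hh) φ hφ

/-- one step -/
lemma PB_step {n x : ℕ} {B A0 : ℝ} (hB : NB θ (EN.LB.Bk N) ρ) (hn : N < n) (hxn : x ≤ n) (hB0 : 0 ≤ B) (h1 : PB θ (n - x) B)
    (h0 : PB θ 0 A0) (hA0 : 0 ≤ A0) :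
    PB θ n (ρ * B + (gf {t | t ∈ EN.LB.Bk N ∧ x < hgt t}).toReal * A0) := by
  classical
  intro S hS φ hφ
  rw [dec_sum (N := N) (fun h hh => by
    have := hS h hh
    omega) hφ]
  have hP0 : ∀ z, ‖Ps θ S φ z‖ ≤ A0 ∨ ¬ (∀ h ∈ S, hz z ≤ h) := fun z => by
    by_cases h : ∀ h ∈ S, hz z ≤ h
    · exact Or.inl (Ps_le h0 (fun h' hh => by
        have := h h' hh
        omega) hφ)
    · exact Or.inr h
  have hPA : ∀ z, ‖Ps θ S φ z‖ ≤ A0 := by
    intro z
    unfold Ps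
    rw [shiftS S (hz z) (fun h => Fo θ (Brd h) (fun w => φ (z + w)))]
    exact h0 _ (fun h hh => Nat.zero_le _) _ fun w => hφ _
  obtain ⟨Φ1, hΦ1⟩ : ∃ Φ1 : Pt → ℂ, Φ1 = fun z => if hz z ≤ x then Ps θ S φ z else 0 := ⟨_, rfl⟩
  obtain ⟨Φ2, hΦ2⟩ : ∃ Φ2 : Pt → ℂ, Φ2 = fun z => if hz z ≤ x then 0 else Ps θ S φ z := ⟨_, rfl⟩
  have hsum : Ps θ S φ = fun z => Φ1 z + Φ2 z := by
    funext z
    rw [hΦ1, hΦ2]
    show _ = (if hz z ≤ x then Ps θ S φ z else 0) + (if hz z ≤ x then 0 else Ps θ S φ z)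
    split_ifs <;> simp
  have b1 : ∀ z, ‖Φ1 z‖ ≤ B := by
    intro z
    rw [hΦ1]
    show ‖(if hz z ≤ x then Ps θ S φ z else 0)‖ ≤ B
    split_ifs with h
    · exact Ps_le h1 (fun h' hh => by
        have := hS h' hh
        omega) hφ
    · simpa using hB0
  have b2 : ∀ z, ‖Φ2 z‖ ≤ A0 := by
    intro z
    rw [hΦ2]
    show ‖(if hz z ≤ x then 0 else Ps θ S φ z)‖ ≤ A0
    split_ifs with h
    · simpa using hA0
    · exact hPA z
  have hsub : {t | t ∈ EN.LB.Bk N ∧ x < hgt t} ⊆ EN.LB.Bk N := fun t ht => ht.1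
  have e2 : Fo θ (EN.LB.Bk N) Φ2 = Fo θ {t | t ∈ EN.LB.Bk N ∧ x < hgt t} Φ2 := by
    refine Fo_sub hsub (gf_Bk_ne N) b2 fun t ht hn => ?_
    have h3 : hgt t ≤ x := by
      by_contra hc
      exact hn ⟨ht, by omega⟩
    rw [hΦ2]
    show (if hz (en t) ≤ x then 0 else _) = (0 : ℂ)
    rw [hz_en, if_pos h3]
  rw [hsum, Fo_add (gf_Bk_ne N) b1 b2, e2]
  refine (norm_add_le _ _).trans (add_le_add (NB_mul hB hB0 b1) ?_)
  exact Fo_le (ne_top_of_le_ne_top (gf_Bk_ne N) (gf_mono hsub)) b2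

/-- the tall blocks -/
lemma tall {x : ℕ} (h : N ≤ x) : (gf {t | t ∈ EN.LB.Bk N ∧ x < hgt t}).toReal ≤ UU N / UU (x - N) := by
  have h1 : gf {t | t ∈ EN.LB.Bk N ∧ x < hgt t} ≤ ENNReal.ofReal (UU N / UU (x - N)) := by
    refine (gf_mono ?_).trans ((EN.LB.jump N x Brd).trans (EN.LB.jump_uu h))
    rintro t ⟨⟨y, r, X, P, hX, hP, a1, a2, a3⟩, hx⟩
    refine ⟨y, r, X, P, hX, hP, a1, ?_, a3⟩
    rw [a3, hgt_eq (Brd_append hX hP.1)] at hx
    omega
  have hU := Num2Aux.UU_pos N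
  have hU2 := Num2Aux.UU_pos (x - N)
  exact ENNReal.toReal_le_of_le_ofReal (by positivity) h1

lemma PB.mono {n n' : ℕ} {B B' : ℝ} (h : PB θ n B) (hn : n ≤ n') (hB : B ≤ B') : PB θ n' B' :=
  fun S hS φ hφ => (h S (fun h' hh => hn.trans (hS h' hh)) φ hφ).trans hB

/-- M steps -/
lemma PB_iter {n x M : ℕ} {B A0 : ℝ} (hB : NB θ (EN.LB.Bk N) ρ) (hρ1 : ρ < 1) (hn : N < n - M * x) (hxn : M * x ≤ n)
    (hB0 : 0 ≤ B) (h1 : PB θ (n - M * x) B) (h0 : PB θ 0 A0) (hA0 : 0 ≤ A0) :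
    PB θ n (ρ ^ M * B + (gf {t | t ∈ EN.LB.Bk N ∧ x < hgt t}).toReal * A0 / (1 - ρ)) := by
  have hρ0 := hB (fun _ => 0) fun z => by simp
  have hρ0' : 0 ≤ ρ := (norm_nonneg _).trans hρ0
  have h1ρ : 0 < 1 - ρ := by linarith
  obtain ⟨g, hg⟩ : ∃ g, g = (gf {t | t ∈ EN.LB.Bk N ∧ x < hgt t}).toReal * A0 := ⟨_, rfl⟩
  have hg0 : 0 ≤ g := by
    rw [hg]
    positivity
  rw [← hg]
  have key : ∀ j, j ≤ M → PB θ (n - (M - j) * x) (ρ ^ j * B + g / (1 - ρ)) := by
    intro j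
    induction j with
    | zero =>
      intro _
      refine h1.mono (by simp) ?_
      rw [pow_zero, one_mul]
      have : 0 ≤ g / (1 - ρ) := by positivity
      linarith
    | succ j ih =>
      intro hj
      have h2 := ih (by omega)
      have e1 : (M - j) * x = (M - (j + 1)) * x + x := by
        rw [show M - j = (M - (j + 1)) + 1 by omega, add_mul, one_mul]
      have e2 : (M - j) * x ≤ M * x := Nat.mul_le_mul_right _ (by omega)
      have h3 : PB θ ((n - (M - (j + 1)) * x) - x) (ρ ^ j * B + g / (1 - ρ)) := by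
        rwa [show (n - (M - (j + 1)) * x) - x = n - (M - j) * x by omega]
      have h4 := PB_step (x := x) hB (n := n - (M - (j + 1)) * x) (by omega) (by omega) (by positivity) h3 h0 hA0
      rw [← hg] at h4
      refine h4.mono le_rfl (le_of_eq ?_)
      rw [pow_succ]
      field_simp
      ring
  have h5 := key M le_rfl
  rwa [Nat.sub_self, zero_mul, Nat.sub_zero] at h5

end RcT

open RcT in
/-- **row T: the norm of the bridges of height at least n** -/
theorem recB : RecB := by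
  intro ρ hρ0 hρ1
  have h1ρ : 0 < 1 - ρ := by linarith
  obtain ⟨M, hM⟩ := exists_pow_lt_of_lt_one (show (0 : ℝ) < 1 / 4 by norm_num) hρ1
  obtain ⟨K, hK⟩ : ∃ K, K = M + 1 := ⟨_, rfl⟩
  have hK1 : 1 ≤ K := by omega
  have hρK : ρ ^ K ≤ 1 / 4 := by
    rw [hK, pow_succ]
    have : 0 ≤ ρ ^ M := by positivity
    nlinarith
  obtain ⟨C, hC⟩ : ∃ C : ℝ, C = 16 * K / (1 - ρ) + 16 * K / (1 - ρ) ^ 2 := ⟨_, rfl⟩
  have hKr : (1 : ℝ) ≤ K := by exact_mod_cast hK1
  have hC0 : 0 < C := by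
    rw [hC]
    positivity
  refine ⟨C, hC0, fun N θ hB => ?_⟩
  have hU := Num2Aux.UU_pos N
  have h0 := PB_zero hB hρ1
  have hA0 : 0 ≤ UU N / (1 - ρ) := by positivity
  have hU0 : UU 0 ≤ UU N := Num2Aux.UU_mono (Nat.zero_le _)
  have hU00 : UU 0 = 1 := by
    unfold UU
    simp [uu_zero]
  have key : ∀ n, 1 ≤ n → PB θ n (C * (UU N ^ 2 / UU n)) := by
    intro n
    induction n using Nat.strong_induction_on with
    | _ n ih =>
      intro hn
      have hUn := Num2Aux.UU_pos n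
      rcases Nat.lt_or_ge n (4 * K * (N + 1)) with hs | hs
      · -- small heights
        refine h0.mono (Nat.zero_le _) ?_
        have e1 : UU n ≤ 12 * K * UU N := by
          have a1 : UU n ≤ UU (4 * K * (N + 1)) := Num2Aux.UU_mono hs.le
          have a2 := Ex.UU_mul_le (N + 1) (4 * K) (by omega)
          have a3 := Ex.UU_add_le N 1
          have a4 : UU 1 ≤ 2 := by
            unfold UU
            rw [Finset.sum_range_succ, Finset.sum_range_succ, Finset.sum_range_zero, uu_zero]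
            have := uu_le_one 1
            linarith
          push_cast at a2
          have a5 : UU (N + 1) ≤ 3 * UU N := by linarith
          calc UU n ≤ 4 * K * UU (N + 1) := a1.trans a2
            _ ≤ 4 * K * (3 * UU N) := by gcongr
            _ = _ := by ring
        have e2 : 16 * K / (1 - ρ) ≤ C := by
          rw [hC]
          have : 0 ≤ 16 * (K : ℝ) / (1 - ρ) ^ 2 := by positivity
          linarith
        rw [← mul_div_assoc, le_div_iff₀ hUn]
        calc UU N / (1 - ρ) * UU n ≤ UU N / (1 - ρ) * (12 * K * UU N) := by gcongr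
          _ = 12 * K / (1 - ρ) * UU N ^ 2 := by ring
          _ ≤ 16 * K / (1 - ρ) * UU N ^ 2 := by gcongr; norm_num
          _ ≤ C * UU N ^ 2 := by gcongr
      · -- large heights
        obtain ⟨x, hx⟩ : ∃ x, x = n / (2 * K) := ⟨_, rfl⟩
        have hx1 : 2 * (N + 1) ≤ x := by
          rw [hx, Nat.le_div_iff_mul_le (by omega)]
          calc 2 * (N + 1) * (2 * K) = 4 * K * (N + 1) := by ring
            _ ≤ n := hs
        have hx2 : 2 * K * x ≤ n := by
          rw [hx]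
          exact Nat.mul_div_le n (2 * K)
        have hx3 : n < 2 * K * (x + 1) := by
          rw [hx]
          exact Nat.lt_mul_div_succ n (by omega)
        have hx4 : 2 * (K * x) ≤ n := by
          rw [← mul_assoc]
          exact hx2
        have hKx : x ≤ K * x := Nat.le_mul_of_pos_left x (by omega)
        have hn0 : 1 ≤ n - n / 2 := by omega
        have hlt : n - n / 2 < n := by omega
        have hIH := ih (n - n / 2) hlt hn0
        have hU0' := Num2Aux.UU_pos (n - n / 2)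
        have h2 : PB θ (n - K * x) (C * (UU N ^ 2 / UU (n - n / 2))) := hIH.mono (by omega) le_rfl
        have h3 := PB_iter (x := x) (M := K) hB hρ1 (by omega) (by omega) (by positivity) h2 h0 hA0
        refine h3.mono le_rfl ?_
        have hUx := Num2Aux.UU_pos (x - N)
        have g1 := tall (N := N) (x := x) (by omega)
        have e1 : UU n ≤ 2 * UU (n - n / 2) := by
          have a1 : UU n ≤ UU (2 * (n - n / 2)) := Num2Aux.UU_mono (by omega)
          have a2 := Ex.UU_mul_le (n - n / 2) 2 (by norm_num)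
          push_cast at a2
          linarith
        have e2 : UU n ≤ 4 * K * UU (x - N) := by
          have a1 : UU n ≤ UU (4 * K * (x - N)) := by
            refine Num2Aux.UU_mono (hx3.le.trans ?_)
            have : x + 1 ≤ 2 * (x - N) := by omega
            calc 2 * K * (x + 1) ≤ 2 * K * (2 * (x - N)) := Nat.mul_le_mul_left _ this
              _ = _ := by ring
          have a2 := Ex.UU_mul_le (x - N) (4 * K) (by omega)
          push_cast at a2
          exact a1.trans a2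
        have f1 : 1 / UU (n - n / 2) ≤ 2 / UU n := by
          rw [div_le_div_iff₀ hU0' hUn]
          linarith
        have f2 : 1 / UU (x - N) ≤ 4 * K / UU n := by
          rw [div_le_div_iff₀ hUx hUn]
          linarith
        have f3 : ρ ^ K * (C * (UU N ^ 2 / UU (n - n / 2))) ≤ C / 2 * (UU N ^ 2 / UU n) := by
          calc ρ ^ K * (C * (UU N ^ 2 / UU (n - n / 2))) = ρ ^ K * (C * (UU N ^ 2 * (1 / UU (n - n / 2)))) := by ring
            _ ≤ 1 / 4 * (C * (UU N ^ 2 * (2 / UU n))) := by gcongr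
            _ = _ := by ring
        have f4 : (gf {t | t ∈ EN.LB.Bk N ∧ x < hgt t}).toReal * (UU N / (1 - ρ)) / (1 - ρ) ≤
            4 * K / (1 - ρ) ^ 2 * (UU N ^ 2 / UU n) := by
          calc (gf {t | t ∈ EN.LB.Bk N ∧ x < hgt t}).toReal * (UU N / (1 - ρ)) / (1 - ρ)
              ≤ (UU N / UU (x - N)) * (UU N / (1 - ρ)) / (1 - ρ) := by gcongr
            _ = UU N ^ 2 / (1 - ρ) ^ 2 * (1 / UU (x - N)) := by
                field_simp
            _ ≤ UU N ^ 2 / (1 - ρ) ^ 2 * (4 * K / UU n) := by gcongr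
            _ = _ := by ring
        have f5 : 4 * K / (1 - ρ) ^ 2 ≤ C / 2 := by
          rw [hC]
          have b1 : 0 ≤ 16 * (K : ℝ) / (1 - ρ) := by positivity
          have b2 : 0 ≤ (K : ℝ) / (1 - ρ) ^ 2 := by positivity
          have b3 : 4 * (K : ℝ) / (1 - ρ) ^ 2 = 4 * (K / (1 - ρ) ^ 2) := by ring
          have b4 : 16 * (K : ℝ) / (1 - ρ) ^ 2 = 16 * (K / (1 - ρ) ^ 2) := by ring
          rw [b3, b4]
          linarith
        have f6 : 0 ≤ UU N ^ 2 / UU n := by positivity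
        calc _ ≤ C / 2 * (UU N ^ 2 / UU n) + 4 * K / (1 - ρ) ^ 2 * (UU N ^ 2 / UU n) := add_le_add f3 f4
          _ ≤ C / 2 * (UU N ^ 2 / UU n) + C / 2 * (UU N ^ 2 / UU n) := by gcongr
          _ = _ := by ring
  intro n hn S hS φ hφ
  exact key n hn S hS φ hφ

end JNT

end HexObs
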