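import Pool.Agent.JNT.LowDefs
import Pool.Agent.JNT.Rec
import Pool.Agent.RSWP.OneMark
import Pool.Agent.NT.MassD

/-!
JNT, lower side: the one-mark lemma for a relation between the two parts of a word.
-/

set_option autoImplicit false

namespace HexObs

namespace JNT

open Finset TS SDN NTW NTA PtC RP

open scoped ENNReal

namespace LO1

/-! ### 1. Sums over the splits of a word -/

/-- sum over the splits -/
noncomputable def spl (f : List Bool → List Bool → ℝ≥0∞) (w : List Bool) : ℝ≥0∞ :=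
  ∑ i ∈ range (w.length + 1), f (w.take i) (w.drop i)

lemma tsum_spl (f : List Bool → List Bool → ℝ≥0∞) : ∑' w : List Bool, spl f w = ∑' a : List Bool, ∑' b : List Bool, f a b := by
  have h1 : ∀ w : List Bool, spl f w = ∑' i : Fin (w.length + 1), f (w.take i) (w.drop i) := fun w => by
    unfold spl
    rw [tsum_fintype, Finset.sum_range]
  simp_rw [h1]
  rw [← ENNReal.tsum_sigma (fun (w : List Bool) (i : Fin (w.length + 1)) => f (w.take i) (w.drop i)), ← ENNReal.tsum_prod]
  obtain ⟨e, he⟩ : ∃ e : (List Bool × List Bool) ≃ (Σ w : List Bool, Fin (w.length + 1)),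
      ∀ p, e p = ⟨p.1 ++ p.2, ⟨p.1.length, by rw [List.length_append]; omega⟩⟩ := by
    refine ⟨Equiv.ofBijective (fun p => ⟨p.1 ++ p.2, ⟨p.1.length, by rw [List.length_append]; omega⟩⟩) ⟨?_, ?_⟩,
      fun p => rfl⟩
    · rintro ⟨a, b⟩ ⟨a', b'⟩ h
      rw [Sigma.mk.injEq] at h
      obtain ⟨h1, h2⟩ := h
      have h3 : a.length = a'.length := by
        have h4 : (a ++ b).length = (a' ++ b').length := by rw [h1]
        have h5 := (Fin.heq_ext_iff (by rw [h1])).1 h2
        exact h5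
      obtain ⟨h4, h5⟩ := List.append_inj h1 h3
      exact Prod.ext h4 h5
    · rintro ⟨w, ⟨i, hi⟩⟩
      refine ⟨(w.take i, w.drop i), ?_⟩
      rw [Sigma.mk.injEq]
      refine ⟨List.take_append_drop i w, ?_⟩
      rw [Fin.heq_ext_iff (by rw [List.take_append_drop])]
      show (w.take i).length = i
      rw [List.length_take]
      omega
  rw [← e.tsum_eq]
  refine tsum_congr fun p => ?_
  rw [he]
  show f ((p.1 ++ p.2).take p.1.length) ((p.1 ++ p.2).drop p.1.length) = f p.1 p.2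
  rw [List.take_left, List.drop_left]

/-! ### 2. The one-mark lemma -/

open Classical in
/-- weight of the pairs in the relation P -/
noncomputable def E1 (P : List Bool → List Bool → Prop) : ℝ≥0∞ :=
  ∑' a : List Bool, ∑' b : List Bool, if P a b then wE a * wE b else 0

open Classical in
/-- weight of the triples in the relation Q -/
noncomputable def E3 (Q : List Bool → List Bool → List Bool → Prop) : ℝ≥0∞ :=
  ∑' a : List Bool, ∑' m : List Bool, ∑' b : List Bool, if Q a m b then wE a * (wE m * wE b) else 0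

/-- **the one-mark lemma** -/
theorem om {P : List Bool → List Bool → Prop} {Q : List Bool → List Bool → List Bool → Prop} {S : Set (List Bool)}
    (hQ : ∀ a m b, P a (m ++ b) → P (a ++ m) b → Q a m b) (hS : ∀ a b, P a b → a ++ b ∈ S) {l : ℝ≥0∞} (hl : l ≠ 0)
    (hl' : l ≠ ⊤) : E1 P ≤ l * gf S + l⁻¹ * (2 * E3 Q) := by
  classical
  obtain ⟨χ, hχ⟩ : ∃ χ : List Bool → ℕ → ℝ≥0∞, χ = fun w i => if P (w.take i) (w.drop i) then 1 else 0 := ⟨_, rfl⟩
  have hχ' : ∀ w i, χ w i = if P (w.take i) (w.drop i) then 1 else 0 := fun w i => by rw [hχ]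
  have h1 : E1 P = ∑' w : List Bool, (∑ i ∈ range (w.length + 1), χ w i) * wE w := by
    unfold E1
    rw [← tsum_spl]
    refine tsum_congr fun w => ?_
    unfold spl
    rw [Finset.sum_mul]
    refine Finset.sum_congr rfl fun i _ => ?_
    show (if P (w.take i) (w.drop i) then wE (w.take i) * wE (w.drop i) else 0) = _
    rw [hχ', ite_mul, one_mul, zero_mul, ← wE_append, List.take_append_drop]
  have h2 : ∀ w : List Bool, (∑ i ∈ range (w.length + 1), χ w i) ≤ l * (if w ∈ S then 1 else 0) +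
      l⁻¹ * (2 * ∑ i ∈ range (w.length + 1), ∑ j ∈ (range (w.length + 1)).filter (fun j => i ≤ j), χ w i * χ w j) := by
    intro w
    refine OneMark.point (range (w.length + 1)) (χ w) (fun c => ?_) l (if w ∈ S then 1 else 0) hl hl' fun c _ h => ?_
    · rw [hχ']
      split_ifs
      · exact Or.inr rfl
      · exact Or.inl rfl
    · rw [hχ'] at h
      have hP : P (w.take c) (w.drop c) := by
        by_contra hP
        rw [if_neg hP] at h
        exact zero_ne_one h
      have := hS _ _ hP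
      rw [List.take_append_drop] at this
      exact if_pos this
  have h3 : ∑' w : List Bool, (∑ i ∈ range (w.length + 1), ∑ j ∈ (range (w.length + 1)).filter (fun j => i ≤ j),
      χ w i * χ w j) * wE w ≤ E3 Q := by
    obtain ⟨g, hg⟩ : ∃ g : List Bool → List Bool → List Bool → ℝ≥0∞, g = fun a m b =>
      if Q a m b then wE a * (wE m * wE b) else 0 := ⟨_, rfl⟩
    have e1 : E3 Q = ∑' w : List Bool, spl (fun u b => spl (fun a m => g a m b) u) w := by
      have e2 : ∑' w : List Bool, spl (fun u b => spl (fun a m => g a m b) u) w =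
          ∑' b : List Bool, ∑' a : List Bool, ∑' m : List Bool, g a m b := by
        rw [tsum_spl, ENNReal.tsum_comm]
        exact tsum_congr fun b => tsum_spl _
      rw [e2, ENNReal.tsum_comm]
      unfold E3
      rw [hg]
      exact tsum_congr fun a => ENNReal.tsum_comm
    rw [e1]
    refine ENNReal.tsum_le_tsum fun w => ?_
    have e3 : ∑ i ∈ range (w.length + 1), ∑ j ∈ (range (w.length + 1)).filter (fun j => i ≤ j), χ w i * χ w j =
        ∑ j ∈ range (w.length + 1), ∑ i ∈ range (j + 1), χ w i * χ w j := by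
      refine Finset.sum_comm' fun i j => ?_
      simp only [Finset.mem_filter, Finset.mem_range]
      omega
    rw [e3, Finset.sum_mul]
    unfold spl
    refine Finset.sum_le_sum fun j hj => ?_
    rw [Finset.mem_range] at hj
    have hjl : (w.take j).length = j := by
      rw [List.length_take]
      omega
    show _ ≤ ∑ i ∈ range ((w.take j).length + 1), g ((w.take j).take i) ((w.take j).drop i) (w.drop j)
    rw [hjl, Finset.sum_mul]
    refine Finset.sum_le_sum fun i hi => ?_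
    rw [Finset.mem_range] at hi
    rw [hχ', hχ', hg]
    show _ ≤ (if Q ((w.take j).take i) ((w.take j).drop i) (w.drop j) then
      wE ((w.take j).take i) * (wE ((w.take j).drop i) * wE (w.drop j)) else 0)
    by_cases h1 : P (w.take i) (w.drop i)
    · by_cases h2 : P (w.take j) (w.drop j)
      · have f1 : (w.take j).take i = w.take i := by
          rw [List.take_take, min_eq_left (by omega)]
        have f2 : w.drop i = (w.take j).drop i ++ w.drop j := by
          conv_lhs => rw [← List.take_append_drop j w]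
          rw [List.drop_append_of_le_length (by omega)]
        have f3 : w.take j = (w.take j).take i ++ (w.take j).drop i := (List.take_append_drop i (w.take j)).symm
        rw [if_pos h1, if_pos h2, one_mul, one_mul, if_pos]
        · rw [← wE_append, ← wE_append, ← f2, f1, List.take_append_drop]
        · refine hQ _ _ _ ?_ ?_
          · rw [f1, ← f2]
            exact h1
          · rw [← f3]
            exact h2
      · rw [if_neg h2, mul_zero, zero_mul]
        exact zero_le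
    · rw [if_neg h1, zero_mul, zero_mul]
      exact zero_le
  rw [h1]
  have h4 : ∀ w : List Bool, (∑ i ∈ range (w.length + 1), χ w i) * wE w ≤ l * (if w ∈ S then wE w else 0) +
      l⁻¹ * (2 * ((∑ i ∈ range (w.length + 1), ∑ j ∈ (range (w.length + 1)).filter (fun j => i ≤ j),
        χ w i * χ w j) * wE w)) := by
    intro w
    refine (mul_le_mul_left (h2 w) (wE w)).trans (le_of_eq ?_)
    rw [add_mul, mul_assoc, ite_mul, one_mul, zero_mul, mul_assoc, mul_assoc]
  refine (ENNReal.tsum_le_tsum h4).trans ?_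
  rw [ENNReal.tsum_add, ENNReal.tsum_mul_left, ENNReal.tsum_mul_left, ENNReal.tsum_mul_left, ← gf_ind]
  gcongr

/-- from the weights of the pairs and of the triples to the weight of the words -/
lemma om_num {P : List Bool → List Bool → Prop} {Q : List Bool → List Bool → List Bool → Prop} {S : Set (List Bool)}
    (hQ : ∀ a m b, P a (m ++ b) → P (a ++ m) b → Q a m b) (hS : ∀ a b, P a b → a ++ b ∈ S) (hSf : gf S ≠ ⊤) {E B : ℝ}
    (hB : 0 < B) (hE : 0 ≤ E) (h1 : ENNReal.ofReal E ≤ E1 P) (h3 : E3 Q ≤ ENNReal.ofReal B) :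
    E ^ 2 / (8 * B) ≤ (gf S).toReal := by
  rcases hE.eq_or_lt with h0 | h0
  · rw [← h0]
    simp
  obtain ⟨l, hl⟩ : ∃ l : ℝ, l = 4 * B / E := ⟨_, rfl⟩
  have hl0 : 0 < l := by
    rw [hl]
    positivity
  have h4 := om hQ hS (l := ENNReal.ofReal l) (by rw [Ne, ENNReal.ofReal_eq_zero]; linarith) ENNReal.ofReal_ne_top
  obtain ⟨g, hg⟩ : ∃ g, g = (gf S).toReal := ⟨_, rfl⟩
  have hg0 : 0 ≤ g := by
    rw [hg]
    exact ENNReal.toReal_nonneg
  have hge : gf S = ENNReal.ofReal g := by rw [hg, ENNReal.ofReal_toReal hSf]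
  have h5 : ENNReal.ofReal E ≤ ENNReal.ofReal (l * g + l⁻¹ * (2 * B)) := by
    refine h1.trans (h4.trans ?_)
    rw [ENNReal.ofReal_add (by positivity) (by positivity), ENNReal.ofReal_mul hl0.le,
      ENNReal.ofReal_mul (inv_pos.2 hl0).le, ENNReal.ofReal_inv_of_pos hl0, hge, ENNReal.ofReal_mul (by norm_num),
      ENNReal.ofReal_ofNat]
    gcongr
  rw [ENNReal.ofReal_le_ofReal_iff (by positivity)] at h5
  rw [← hg]
  have h6 : l⁻¹ * (2 * B) = E / 2 := by
    rw [hl]
    field_simp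
    norm_num
  rw [h6] at h5
  have h7 : E / 2 ≤ 4 * B / E * g := by
    rw [← hl]
    linarith
  rw [div_le_iff₀ (by positivity)]
  have h8 : E / 2 * E ≤ 4 * B / E * g * E := mul_le_mul_of_nonneg_right h7 h0.le
  have h9 : 4 * B / E * g * E = 4 * B * g := by field_simp
  nlinarith

/-! ### 3. The middle part of two splits -/

/-- two splits of a word into bridges -/
lemma mid {a m b : List Bool} (h1 : a ∈ BU) (h2 : m ++ b ∈ BU) (h3 : a ++ m ∈ BU) (h4 : b ∈ BU) : m ∈ BU := by
  obtain ⟨c, hc⟩ := h1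
  obtain ⟨d, hd⟩ := h2
  obtain ⟨c', hc'⟩ := h3
  obtain ⟨d', hd'⟩ := h4
  have e : a ++ (m ++ b) = (a ++ m) ++ b := (List.append_assoc a m b).symm
  rcases Nat.lt_or_ge c' c with h | h
  · obtain ⟨v, hv, e1, e2⟩ := cut_nested hc' hc hd' hd h.le e.symm
    have e3 : a.length = a.length + m.length + v.length := by
      conv_lhs => rw [e1]
      rw [List.length_append, List.length_append]
    have e4 : v = [] := List.eq_nil_of_length_eq_zero (by omega)
    rw [e4] at hv
    have e5 := Brd_height hv (by rw [Brd_zero]; exact Set.mem_singleton _)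
    omega
  · obtain ⟨v, hv, e1, e2⟩ := cut_nested hc hc' hd hd' h e
    have e3 : m = v := List.append_cancel_left e1
    exact ⟨_, e3 ▸ hv⟩

lemma HB_BU {D : ℕ} {t : List Bool} (h : t ∈ HB D) : t ∈ BU := by
  obtain ⟨n, -, hn⟩ := h
  exact ⟨n, hn⟩

lemma hgt_app {a b : List Bool} (ha : a ∈ BU) (hb : b ∈ BU) : hgt (a ++ b) = hgt a + hgt b := by
  obtain ⟨c, hc⟩ := ha
  obtain ⟨d, hd⟩ := hb
  rw [hgt_eq (Brd_append hc hd), hgt_eq hc, hgt_eq hd]

lemma ip_en {t : List Bool} (h : t ∈ BU) : ip (en t) up = 3 * (hgt t : ℤ) := by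
  obtain ⟨n, hn⟩ := h
  rw [hgt_eq hn]
  exact (mem_Brd.1 hn).2.2.2

lemma gz_fin (v : Pt) (n : ℕ) : gf {Z | Z ∈ BU ∧ en Z = v ∧ Z.length = n} ≠ ⊤ := by
  refine ne_top_of_le_ne_top (RcT.gf_Brd_ne (RcT.hz v)) (gf_mono ?_)
  rintro Z ⟨⟨h, hZ⟩, he, -⟩
  rw [← he, RcT.hz_en, hgt_eq hZ]
  exact hZ

lemma gz_nonneg (v : Pt) (n : ℕ) : 0 ≤ gz v n := ENNReal.toReal_nonneg

/-! ### 4. The core -/

/-- **from pairs of high bridges with a given displacement and a given number of letters to one bridge** -/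
theorem core2 {m : ℕ → ℝ} (hm : ∀ k, 0 < m k) (hJ : JoB m) : ∃ K : ℝ, 0 < K ∧ ∀ (q H n : ℕ) (v : Pt)
    (P : List Bool → List Bool → Prop) (E : ℝ), 0 ≤ E → (∀ a b, P a b → a ∈ HB (2 ^ q) ∧ b ∈ HB (2 ^ q) ∧
      en a + en b = v ∧ a.length + b.length = n) → ip v up ≤ 3 * H → ENNReal.ofReal E ≤ E1 P →
        E ^ 2 / (K * (UU H * (Ub q ^ 2 / (4 ^ q * m q)))) ≤ gz v n := by
  classical
  obtain ⟨C, hC, hJ⟩ := hJ
  refine ⟨8 * C, by positivity, fun q H n v P E hE hP hv h1 => ?_⟩
  obtain ⟨S, hS⟩ : ∃ S : Set (List Bool), S = {Z | Z ∈ BU ∧ en Z = v ∧ Z.length = n} := ⟨_, rfl⟩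
  have hmq := hm q
  have hUH := Num2Aux.UU_pos H
  have hUq := Ub_pos q
  obtain ⟨Q, hQd⟩ : ∃ Q : List Bool → List Bool → List Bool → Prop, Q = fun a μ b => a ∈ HB (2 ^ q) ∧ b ∈ HB (2 ^ q) ∧
    μ ∈ BU ∧ hgt μ ≤ H ∧ μ.length ≤ n ∧ en a + en b = v - en μ ∧ a.length + b.length = n - μ.length := ⟨_, rfl⟩
  have hQ : ∀ a μ b, P a (μ ++ b) → P (a ++ μ) b → Q a μ b := by
    intro a μ b h2 h3
    obtain ⟨a1, a2, a3, a4⟩ := hP _ _ h2
    obtain ⟨b1, b2, b3, b4⟩ := hP _ _ h3
    have hμ := mid (HB_BU a1) (HB_BU a2) (HB_BU b1) (HB_BU b2)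
    rw [en_app hμ] at a3
    rw [List.length_append] at a4
    rw [hQd]
    refine ⟨a1, b2, hμ, ?_, by omega, ?_, by omega⟩
    · have e1 := ip_en (HB_BU b1)
      have e2 := ip_en (HB_BU b2)
      rw [hgt_app (HB_BU a1) hμ] at e1
      have e3 : ip v up = ip (en (a ++ μ)) up + ip (en b) up := by rw [← ip_add_left, b3]
      push_cast at e1
      omega
    · rw [← a3]
      abel
  have hSS : ∀ a b, P a b → a ++ b ∈ S := by
    intro a b h2
    obtain ⟨a1, a2, a3, a4⟩ := hP _ _ h2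
    rw [hS]
    refine ⟨?_, ?_, ?_⟩
    · obtain ⟨c, hc⟩ := HB_BU a1
      obtain ⟨d, hd⟩ := HB_BU a2
      exact ⟨_, Brd_append hc hd⟩
    · rw [en_app (HB_BU a1), a3]
    · rw [List.length_append, a4]
  have h3 : E3 Q ≤ ENNReal.ofReal (UU H * (C * (Ub q ^ 2 / (4 ^ q * m q)))) := by
    have e1 : E3 Q = ∑' μ : List Bool, ∑' a : List Bool, ∑' b : List Bool, (if Q a μ b then wE a * (wE μ * wE b) else 0) :=
      ENNReal.tsum_comm
    obtain ⟨U, hU⟩ : ∃ U : Set (List Bool), U = {X | ∃ n, n ≤ H ∧ X ∈ Brd n} := ⟨_, rfl⟩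
    have e2 : ∀ μ : List Bool, (∑' a : List Bool, ∑' b : List Bool, (if Q a μ b then wE a * (wE μ * wE b) else 0)) ≤
        (if μ ∈ U then wE μ else 0) * ENNReal.ofReal (C * (Ub q ^ 2 / (4 ^ q * m q))) := by
      intro μ
      by_cases hμ : μ ∈ U
      · rw [if_pos hμ]
        refine le_trans ?_ (mul_le_mul_right (hJ q (v - en μ) (n - μ.length)) _)
        unfold pairs
        rw [← ENNReal.tsum_mul_left]
        refine ENNReal.tsum_le_tsum fun a => ?_
        rw [← ENNReal.tsum_mul_left]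
        refine ENNReal.tsum_le_tsum fun b => ?_
        by_cases hq : Q a μ b
        · have hq' := hq
          rw [hQd] at hq'
          obtain ⟨c1, c2, c3, c4, c5, c6, c7⟩ := hq'
          rw [if_pos hq, if_pos ⟨c1, c2, c6, c7⟩]
          exact le_of_eq (by ring)
        · rw [if_neg hq]
          exact zero_le
      · rw [if_neg hμ, zero_mul]
        refine le_of_eq ?_
        rw [ENNReal.tsum_eq_zero]
        intro a
        rw [ENNReal.tsum_eq_zero]
        intro b
        refine if_neg fun hq => hμ ?_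
        rw [hU]
        rw [hQd] at hq
        obtain ⟨c, hc⟩ := hq.2.2.1
        refine ⟨c, ?_, hc⟩
        have := hq.2.2.2.1
        rwa [hgt_eq hc] at this
    rw [e1]
    refine (ENNReal.tsum_le_tsum e2).trans ?_
    rw [ENNReal.tsum_mul_right, ← gf_ind, ENNReal.ofReal_mul hUH.le, hU]
    exact mul_le_mul_left (PtC.gf_BU_le H) _
  have h4 := om_num hQ hSS (by rw [hS]; exact gz_fin v n) (by positivity) hE h1 h3
  unfold gz
  rw [← hS]
  refine le_trans (le_of_eq ?_) h4
  congr 1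
  ring

/-! ### 5. Finite families of first parts -/

/-- the relation: the displacement and the number of letters of the first part are in D -/
def PD (D : Finset (Pt × ℕ)) (v : Pt) (n : ℕ) (a b : List Bool) : Prop :=
  (en a, a.length) ∈ D ∧ a ∈ BU ∧ b ∈ BU ∧ en a + en b = v ∧ a.length + b.length = n

lemma gz_ofReal (v : Pt) (n : ℕ) : gf {Z | Z ∈ BU ∧ en Z = v ∧ Z.length = n} = ENNReal.ofReal (gz v n) := by
  unfold gz
  rw [ENNReal.ofReal_toReal (gz_fin v n)]

lemma E1_PD {D : Finset (Pt × ℕ)} {v : Pt} {n : ℕ} (hD : ∀ p ∈ D, p.2 ≤ n) :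
    E1 (PD D v n) = ENNReal.ofReal (∑ p ∈ D, gz p.1 p.2 * gz (v - p.1) (n - p.2)) := by
  classical
  rw [ENNReal.ofReal_sum_of_nonneg fun p _ => mul_nonneg (gz_nonneg _ _) (gz_nonneg _ _)]
  unfold E1
  obtain ⟨W, hW⟩ : ∃ W : Pt × ℕ → Set (List Bool), ∀ p, W p = {Z | Z ∈ BU ∧ en Z = p.1 ∧ Z.length = p.2} :=
    ⟨_, fun p => rfl⟩
  have hWm : ∀ p Z, Z ∈ W p ↔ Z ∈ BU ∧ en Z = p.1 ∧ Z.length = p.2 := fun p Z => by
    rw [hW]
    exact Iff.rfl
  have h1 : ∀ a : List Bool, (∑' b : List Bool, if PD D v n a b then wE a * wE b else 0) =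
      ∑ p ∈ D, (if a ∈ W p then wE a else 0) * ENNReal.ofReal (gz (v - p.1) (n - p.2)) := by
    intro a
    by_cases ha : (en a, a.length) ∈ D ∧ a ∈ BU
    · rw [Finset.sum_eq_single (en a, a.length)]
      · rw [if_pos ((hWm _ _).2 ⟨ha.2, rfl, rfl⟩), ← gz_ofReal, gf_ind,
          ← ENNReal.tsum_mul_left]
        refine tsum_congr fun b => ?_
        have hl := hD _ ha.1
        simp only at hl
        by_cases hb : b ∈ {Z | Z ∈ BU ∧ en Z = v - en a ∧ Z.length = n - a.length}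
        · rw [if_pos hb, if_pos]
          exact ⟨ha.1, ha.2, hb.1, by rw [hb.2.1]; abel, by rw [hb.2.2]; omega⟩
        · rw [if_neg hb, if_neg, mul_zero]
          rintro ⟨-, -, h3, h4, h5⟩
          exact hb ⟨h3, by rw [← h4]; abel, by omega⟩
      · intro p _ hp
        rw [if_neg, zero_mul]
        rw [hWm]
        rintro ⟨-, h3, h4⟩
        exact hp (Prod.ext h3.symm h4.symm)
      · intro h
        exact absurd ha.1 h
    · have h2 : ∀ b, ¬ PD D v n a b := fun b h => ha ⟨h.1, h.2.1⟩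
      simp only [h2, if_false, tsum_zero]
      refine (Finset.sum_eq_zero fun p hp => ?_).symm
      rw [if_neg, zero_mul]
      rw [hWm]
      rintro ⟨h3, h4, h5⟩
      refine ha ⟨?_, h3⟩
      rw [h4, h5]
      exact hp
  simp_rw [h1]
  rw [Summable.tsum_finsetSum (fun _ _ => ENNReal.summable)]
  refine Finset.sum_congr rfl fun p _ => ?_
  rw [ENNReal.tsum_mul_right, ← gf_ind, hW, gz_ofReal, ENNReal.ofReal_mul (gz_nonneg _ _)]

/-- **from pairs to one bridge, in numbers** -/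
theorem comb {m : ℕ → ℝ} (hm : ∀ k, 0 < m k) (hJ : JoB m) : ∃ K : ℝ, 0 < K ∧ ∀ (q H n : ℕ) (v : Pt)
    (D : Finset (Pt × ℕ)) (E : ℝ), 0 ≤ E → (∀ p ∈ D, 3 * 2 ^ q ≤ ip p.1 up ∧ 3 * 2 ^ q ≤ ip (v - p.1) up ∧ p.2 ≤ n) →
      ip v up ≤ 3 * H → E ≤ ∑ p ∈ D, gz p.1 p.2 * gz (v - p.1) (n - p.2) →
        E ^ 2 / (K * (UU H * (Ub q ^ 2 / (4 ^ q * m q)))) ≤ gz v n := by
  obtain ⟨K, hK, h⟩ := core2 hm hJ
  refine ⟨K, hK, fun q H n v D E hE hD hv h1 => h q H n v (PD D v n) E hE ?_ hv ?_⟩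
  · rintro a b ⟨h2, h3, h4, h5, h6⟩
    obtain ⟨e1, e2, e3⟩ := hD _ h2
    simp only at e1 e2 e3
    have hb : 3 * 2 ^ q ≤ ip (en b) up := by
      have : en b = v - en a := by rw [← h5]; abel
      rw [this]
      exact e2
    rw [ip_en h3] at e1
    rw [ip_en h4] at hb
    have f1 : (2 : ℤ) ^ q ≤ (hgt a : ℤ) := by omega
    have f2 : (2 : ℤ) ^ q ≤ (hgt b : ℤ) := by omega
    have f1' : 2 ^ q ≤ hgt a := by exact_mod_cast f1
    have f2' : 2 ^ q ≤ hgt b := by exact_mod_cast f2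
    obtain ⟨c, hc⟩ := h3
    obtain ⟨d, hd⟩ := h4
    rw [hgt_eq hc] at f1'
    rw [hgt_eq hd] at f2'
    exact ⟨⟨c, f1', hc⟩, ⟨d, f2', hd⟩, h5, h6⟩
  · rw [E1_PD fun p hp => (hD p hp).2.2]
    exact ENNReal.ofReal_le_ofReal h1

/-! ### 6. Coordinates -/

lemma en_pt {h : ℕ} {x : ℤ} {Z : List Bool} (hZ : Z ∈ EndB h x) : en Z = pt h x := by
  have h1 := (mem_Brd.1 hZ.1).2.2.2
  have h2 := hZ.2
  unfold lev at h1
  unfold latE lat at h2
  unfold en pt
  obtain ⟨p, hp⟩ : ∃ p, p = vx oo up Z Z.length := ⟨_, rfl⟩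
  rw [← hp] at h1 h2 ⊢
  simp only [ip, cross, up] at h1 h2
  refine Prod.ext ?_ ?_ <;> simp only <;> omega

lemma mem_EndB {h : ℕ} {x : ℤ} (hx : Even (x - h)) {Z : List Bool} (hZ : Z ∈ BU) (he : en Z = pt h x) : Z ∈ EndB h x := by
  obtain ⟨n, hn⟩ := hZ
  have h1 := (mem_Brd.1 hn).2.2.2
  unfold lev at h1
  unfold en pt at he
  rw [he] at h1
  rw [Int.even_iff] at hx
  simp only [ip, up] at h1
  have h3 : n = h := by omega
  refine ⟨h3 ▸ hn, ?_⟩
  unfold latE lat
  rw [he]
  simp only [cross, up]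
  omega

/-- the two forms of the weight -/
lemma gz_pt {h : ℕ} {x : ℤ} (hx : Even (x - h)) (b : ℕ) : gf {Z | Z ∈ EndB h x ∧ Z.length = b} = ENNReal.ofReal (gz (pt h x) b) := by
  rw [← gz_ofReal]
  congr 1
  ext Z
  constructor
  · rintro ⟨h1, h2⟩
    exact ⟨⟨h, h1.1⟩, en_pt h1, h2⟩
  · rintro ⟨h1, h2, h3⟩
    exact ⟨mem_EndB hx h1 h2, h3⟩

lemma ip_pt {h : ℕ} {x : ℤ} (hx : Even (x - h)) : ip (pt h x) up = 3 * h := by
  rw [Int.even_iff] at hx
  unfold pt
  simp only [ip, up]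
  omega

lemma pt_sub {h c : ℕ} {x y : ℤ} (hc : c ≤ h) (hx : Even (x - h)) (hy : Even (y - c)) :
    pt h x - pt c y = pt (h - c) (x - y) := by
  rw [Int.even_iff] at hx hy
  unfold pt
  refine Prod.ext ?_ ?_
  · rfl
  · simp only [Prod.snd_sub]
    omega

lemma pt_inj {h h' : ℕ} {x x' : ℤ} (hx : Even (x - h)) (hx' : Even (x' - h')) (he : pt h x = pt h' x') : h = h' ∧ x = x' := by
  rw [Int.even_iff] at hx hx'
  unfold pt at he
  have e1 := congrArg Prod.fst he
  have e2 := congrArg Prod.snd he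
  simp only at e1 e2
  omega

end LO1

end JNT

end HexObs
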