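import Pool.Agent.JNT.LowNum
import Pool.Agent.JNT.ShortP
import Pool.Agent.SDE.Mass1

/-!
JNT, lower side: an interval of numbers of letters for every end point in a cone; the doubling step.
-/

set_option autoImplicit false

namespace HexObs

namespace JNT

open Finset TS SDN NTW NTA PtC RP

open scoped ENNReal

/-- the scale is sharp -/
def Shp (m : ℕ → ℝ) : Prop := ∃ c C : ℝ, 0 < c ∧ 0 < C ∧ ∀ k : ℕ, c * ((2 : ℝ) ^ k) ^ (4 / 3 : ℝ) ≤ m k ∧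
  m k ≤ C * ((2 : ℝ) ^ k) ^ (4 / 3 : ℝ)

namespace LoQ

open LoN LO1

lemma hT1 {h : ℕ} (hh : 1 ≤ h) : (h : ℝ) ≤ (h : ℝ) ^ (4 / 3 : ℝ) := by
  have h1 : (1 : ℝ) ≤ h := by exact_mod_cast hh
  calc (h : ℝ) = (h : ℝ) ^ (1 : ℝ) := (Real.rpow_one _).symm
    _ ≤ _ := Real.rpow_le_rpow_of_exponent_le h1 (by norm_num)

/-- the form in real numbers -/
lemma QI_iff {β lam R : ℝ} : QI β lam R ↔ ∃ (κ : ℝ) (t0 : ℕ), 0 < κ ∧ ∀ (h : ℕ) (x : ℤ), t0 ≤ h → Even (x - h) →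
    |(x : ℝ)| ≤ R * h → ∃ s : ℝ, 0 ≤ s ∧ s + lam * (h : ℝ) ^ (4 / 3 : ℝ) ≤ β * (h : ℝ) ^ (4 / 3 : ℝ) ∧
      ∀ b : ℕ, Even b → s ≤ b → (b : ℝ) ≤ s + lam * (h : ℝ) ^ (4 / 3 : ℝ) →
        κ * (uu h / (h * (h : ℝ) ^ (4 / 3 : ℝ))) ≤ gz (pt h x) b := by
  constructor
  · rintro ⟨κ, t0, hκ, h⟩
    refine ⟨κ, t0, hκ, fun n x hn hx hR => ?_⟩
    obtain ⟨s, h1, h2, h3⟩ := h n x hn hx hR
    refine ⟨s, h1, h2, fun b hb hb1 hb2 => ?_⟩
    have h4 := h3 b hb hb1 hb2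
    rwa [gz_pt hx, ENNReal.ofReal_le_ofReal_iff (gz_nonneg _ _)] at h4
  · rintro ⟨κ, t0, hκ, h⟩
    refine ⟨κ, t0, hκ, fun n x hn hx hR => ?_⟩
    obtain ⟨s, h1, h2, h3⟩ := h n x hn hx hR
    refine ⟨s, h1, h2, fun b hb hb1 hb2 => ?_⟩
    rw [gz_pt hx, ENNReal.ofReal_le_ofReal_iff (gz_nonneg _ _)]
    exact h3 b hb hb1 hb2

/-- the scale of the pieces of a bridge of height h -/
lemma scale {h : ℕ} (hh : 16 ≤ h) : ∃ q : ℕ, 2 ^ q ≤ h / 4 ∧ h ≤ 16 * 2 ^ q ∧ 2 ^ q ≤ h := by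
  have h1 : h / 4 ≠ 0 := by omega
  refine ⟨Nat.log 2 (h / 4), Nat.pow_log_le_self 2 h1, ?_, (Nat.pow_log_le_self 2 h1).trans (Nat.div_le_self _ _)⟩
  have h2 := Nat.lt_pow_succ_log_self (b := 2) (by norm_num) (h / 4)
  rw [pow_succ] at h2
  omega

/-- the denominator of the second moment -/
lemma den {m : ℕ → ℝ} (hm : ∀ k, 0 < m k) (hS : Shp m) : ∃ K : ℝ, 0 < K ∧ ∀ h q : ℕ, 1 ≤ h → 2 ^ q ≤ h → h ≤ 16 * 2 ^ q →
    UU h * (Ub q ^ 2 / (4 ^ q * m q)) ≤ K * (h * uu h ^ 3 / (h : ℝ) ^ (4 / 3 : ℝ)) ∧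
    Ub q ^ 2 / (4 ^ q * m q) ≤ K * (uu h ^ 2 / (h : ℝ) ^ (4 / 3 : ℝ)) ∧ (h : ℝ) ^ (4 / 3 : ℝ) ≤ K * m q := by
  obtain ⟨c, C, hc, hC, hS⟩ := hS
  have hC0 : 0 < 6 + CW := LocalT.C0_pos
  obtain ⟨A, hA⟩ : ∃ A : ℝ, A = 256 * 64 / c := ⟨_, rfl⟩
  have hA0 : 0 < A := by rw [hA]; positivity
  obtain ⟨K, hK⟩ : ∃ K : ℝ, K = (6 + CW) ^ 3 * A + (6 + CW) ^ 2 * A + 64 / c := ⟨_, rfl⟩
  refine ⟨K, by rw [hK]; positivity, fun h q hh hq1 hq2 => ?_⟩
  have hh0 : (0 : ℝ) < h := by exact_mod_cast hh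
  have hu := uu_pos h
  have hU := Num2Aux.UU_pos h
  have hUq := Ub_pos q
  have hmq := hm q
  have hT : 0 < (h : ℝ) ^ (4 / 3 : ℝ) := by positivity
  have h2q : (0 : ℝ) < 2 ^ q := by positivity
  have e1 : UU h ≤ (6 + CW) * (h * uu h) := UU_le_mul hh
  have e2 : Ub q ≤ (6 + CW) * (h * uu h) := (Num2Aux.UU_mono hq1).trans e1
  have e3 : (h : ℝ) ≤ 16 * 2 ^ q := by exact_mod_cast hq2
  have e4 : (h : ℝ) ^ (4 / 3 : ℝ) ≤ 64 * ((2 : ℝ) ^ q) ^ (4 / 3 : ℝ) := by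
    calc (h : ℝ) ^ (4 / 3 : ℝ) ≤ (16 * 2 ^ q) ^ (4 / 3 : ℝ) := Real.rpow_le_rpow hh0.le e3 (by norm_num)
      _ = 16 ^ (4 / 3 : ℝ) * ((2 : ℝ) ^ q) ^ (4 / 3 : ℝ) := Real.mul_rpow (by norm_num) h2q.le
      _ ≤ 64 * ((2 : ℝ) ^ q) ^ (4 / 3 : ℝ) := by
          gcongr
          exact p43_le (by norm_num) (by norm_num) (by norm_num)
  have e5 : (h : ℝ) ^ (4 / 3 : ℝ) ≤ 64 / c * m q := by
    calc (h : ℝ) ^ (4 / 3 : ℝ) ≤ 64 * ((2 : ℝ) ^ q) ^ (4 / 3 : ℝ) := e4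
      _ = 64 / c * (c * ((2 : ℝ) ^ q) ^ (4 / 3 : ℝ)) := by field_simp
      _ ≤ _ := by
          gcongr
          exact (hS q).1
  have e6 : (h : ℝ) ^ 2 ≤ 256 * 4 ^ q := by
    calc (h : ℝ) ^ 2 ≤ (16 * 2 ^ q) ^ 2 := by gcongr
      _ = 256 * 4 ^ q := by
          rw [mul_pow, ← pow_mul, mul_comm q 2, pow_mul]
          norm_num
  have e7 : (h : ℝ) ^ 2 * (h : ℝ) ^ (4 / 3 : ℝ) ≤ A * (4 ^ q * m q) := by
    calc (h : ℝ) ^ 2 * (h : ℝ) ^ (4 / 3 : ℝ) ≤ (256 * 4 ^ q) * (64 / c * m q) := by gcongr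
      _ = _ := by
          rw [hA]
          ring
  have e8 : Ub q ^ 2 / (4 ^ q * m q) ≤ (6 + CW) ^ 2 * A * (uu h ^ 2 / (h : ℝ) ^ (4 / 3 : ℝ)) := by
    rw [div_le_iff₀ (by positivity)]
    calc Ub q ^ 2 ≤ ((6 + CW) * (h * uu h)) ^ 2 := by gcongr
      _ = (6 + CW) ^ 2 * (uu h ^ 2 / (h : ℝ) ^ (4 / 3 : ℝ)) * ((h : ℝ) ^ 2 * (h : ℝ) ^ (4 / 3 : ℝ)) := by
          field_simp
      _ ≤ (6 + CW) ^ 2 * (uu h ^ 2 / (h : ℝ) ^ (4 / 3 : ℝ)) * (A * (4 ^ q * m q)) := by gcongr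
      _ = _ := by ring
  have k1 : (6 + CW) ^ 3 * A ≤ K := by
    rw [hK]
    have : 0 < (6 + CW) ^ 2 * A := by positivity
    have : 0 < 64 / c := by positivity
    linarith
  have k2 : (6 + CW) ^ 2 * A ≤ K := by
    rw [hK]
    have : 0 < (6 + CW) ^ 3 * A := by positivity
    have : 0 < 64 / c := by positivity
    linarith
  have k3 : 64 / c ≤ K := by
    rw [hK]
    have : 0 < (6 + CW) ^ 3 * A := by positivity
    have : 0 < (6 + CW) ^ 2 * A := by positivity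
    linarith
  refine ⟨?_, ?_, ?_⟩
  · calc UU h * (Ub q ^ 2 / (4 ^ q * m q)) ≤
        ((6 + CW) * (h * uu h)) * ((6 + CW) ^ 2 * A * (uu h ^ 2 / (h : ℝ) ^ (4 / 3 : ℝ))) := by gcongr
      _ = (6 + CW) ^ 3 * A * (h * uu h ^ 3 / (h : ℝ) ^ (4 / 3 : ℝ)) := by
          field_simp
      _ ≤ _ := by gcongr
  · exact e8.trans (by gcongr)
  · exact e5.trans (by gcongr)

/-- from the first moment to one bridge, in the scaling of the height -/
theorem combQ {m : ℕ → ℝ} (hm : ∀ k, 0 < m k) (hS : Shp m) (hJ : JoB m) : ∃ K : ℝ, 0 < K ∧ ∀ (h n : ℕ) (x : ℤ)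
    (W : Finset (ℕ × ℤ)) (L : ℕ × ℤ → Finset ℕ) (κ : ℝ), 0 ≤ κ → 16 ≤ h → Even (x - h) →
      (∀ w ∈ W, w.1 ∈ Wn h ∧ Even (w.2 - w.1) ∧ ∀ l ∈ L w, l ≤ n) →
      κ * (uu h ^ 2 / (h : ℝ) ^ (4 / 3 : ℝ)) ≤ ∑ w ∈ W, ∑ l ∈ L w, gz (pt w.1 w.2) l * gz (pt (h - w.1) (x - w.2)) (n - l) →
        κ ^ 2 / K * (uu h / (h * (h : ℝ) ^ (4 / 3 : ℝ))) ≤ gz (pt h x) n := by
  obtain ⟨K1, hK1, hc⟩ := combT hm hJ
  obtain ⟨K2, hK2, hd⟩ := den hm hS
  refine ⟨K1 * K2, by positivity, fun h n x W L κ hκ hh hx hW hs => ?_⟩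
  obtain ⟨q, hq1, hq2, hq3⟩ := scale hh
  have hh0 : (0 : ℝ) < h := by
    have : 0 < h := by omega
    exact_mod_cast this
  have hu := uu_pos h
  have hT : 0 < (h : ℝ) ^ (4 / 3 : ℝ) := by positivity
  have h1 := hc q h n x W L (κ * (uu h ^ 2 / (h : ℝ) ^ (4 / 3 : ℝ))) (by positivity) hx (fun w hw => by
    obtain ⟨a1, a2, a3⟩ := hW w hw
    obtain ⟨b1, b2, b3, -⟩ := Wn_half (by omega) a1
    refine ⟨by omega, by omega, a2, a3⟩) hs
  refine le_trans ?_ h1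
  have h2 := (hd h q (by omega) hq3 hq2).1
  have hUq := Ub_pos q
  have hmq := hm q
  have hU := Num2Aux.UU_pos h
  have h3 : 0 < UU h * (Ub q ^ 2 / (4 ^ q * m q)) := by positivity
  calc κ ^ 2 / (K1 * K2) * (uu h / (h * (h : ℝ) ^ (4 / 3 : ℝ))) =
      (κ * (uu h ^ 2 / (h : ℝ) ^ (4 / 3 : ℝ))) ^ 2 / (K1 * (K2 * (h * uu h ^ 3 / (h : ℝ) ^ (4 / 3 : ℝ)))) := by
        field_simp
    _ ≤ _ := by
        refine div_le_div_of_nonneg_left (by positivity) (by positivity) ?_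
        exact mul_le_mul_of_nonneg_left h2 hK1.le

/-! ### 2. The family of the first ends -/

/-- many first ends around the straight line -/
lemma fam {δ : ℝ} (hδ : 0 < δ) {h : ℕ} {x : ℤ} (hh : 20 ≤ h) (hδh : 16 ≤ δ * h) : ∃ W : Finset (ℕ × ℤ),
    (∀ w ∈ W, w.1 ∈ Wn h ∧ Even (w.2 - w.1) ∧ |(w.2 : ℝ) - x * w.1 / h| ≤ δ / 2 * w.1) ∧ δ / 640 * (h : ℝ) ^ 2 ≤ W.card := by
  classical
  have hh0 : (0 : ℝ) < h := by
    have : 0 < h := by omega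
    exact_mod_cast this
  have h1 : ∀ c ∈ Wn h, ∃ F : Finset ℤ, (∀ y ∈ F, Even (y - c) ∧ |(y : ℝ) - x * c / h| ≤ δ / 2 * c) ∧
      δ / 16 * h ≤ F.card := by
    intro c hc
    obtain ⟨a1, a2, a3, a4, a5, a6, a7⟩ := Wn_half (by omega) hc
    have b1 : (h : ℝ) ≤ 4 * c := by exact_mod_cast a4
    obtain ⟨F, hF, hcard⟩ := cnt_int (u := x * c / h - δ / 2 * c) (v := x * c / h + δ / 2 * c) (by nlinarith) (c : ℤ)
    refine ⟨F, fun y hy => ?_, ?_⟩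
    · obtain ⟨c1, c2, c3⟩ := hF y hy
      refine ⟨c1, ?_⟩
      rw [abs_le]
      constructor <;> linarith
    · nlinarith
  choose! F hF using h1
  refine ⟨(Wn h).biUnion fun c => (F c).image fun y => (c, y), ?_, ?_⟩
  · intro w hw
    rw [Finset.mem_biUnion] at hw
    obtain ⟨c, hc, hw⟩ := hw
    obtain ⟨y, hy, rfl⟩ := Finset.mem_image.1 hw
    exact ⟨hc, ((hF c hc).1 y hy).1, ((hF c hc).1 y hy).2⟩
  · rw [Finset.card_biUnion]
    · have h2 : ∀ c ∈ Wn h, δ / 16 * h ≤ (((F c).image fun y => (c, y)).card : ℝ) := by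
        intro c hc
        rw [Finset.card_image_of_injective _ (fun y y' h => (Prod.mk.injEq _ _ _ _ ▸ h : _ ∧ _).2)]
        exact (hF c hc).2
      push_cast
      refine le_trans ?_ (Finset.sum_le_sum h2)
      rw [Finset.sum_const, nsmul_eq_mul]
      have h3 : (h : ℝ) / 40 ≤ (Wn h).card := by
        have h2 := card_Wn_ge h
        have h3 : h ≤ 40 * (Wn h).card := by omega
        have h4 : (h : ℝ) ≤ 40 * (Wn h).card := by exact_mod_cast h3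
        linarith
      calc δ / 640 * (h : ℝ) ^ 2 = h / 40 * (δ / 16 * h) := by ring
        _ ≤ _ := by gcongr
    · intro c _ c' _ hcc
      rw [Function.onFun, Finset.disjoint_left]
      intro w hw hw'
      obtain ⟨y, -, rfl⟩ := Finset.mem_image.1 hw
      obtain ⟨y', -, he⟩ := Finset.mem_image.1 hw'
      exact hcc (congrArg Prod.fst he).symm

/-- the cones of the two parts -/
lemma cones {R R' : ℝ} (hRR : R' < R) {h c : ℕ} {x y : ℤ} (hh : 4 ≤ h) (hc : c ∈ Wn h)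
    (hx : |(x : ℝ)| ≤ R' * h) (hy : |(y : ℝ) - x * c / h| ≤ (R - R') / 2 * c) :
    |(y : ℝ)| ≤ R * c ∧ |((x - y : ℤ) : ℝ)| ≤ R * ((h - c : ℕ) : ℝ) := by
  obtain ⟨a1, a2, a3, a4, a5, a6, a7⟩ := Wn_half hh hc
  obtain ⟨-, w1, w2⟩ := mem_Wn.1 hc
  have hh0 : (0 : ℝ) < h := by
    have : 0 < h := by omega
    exact_mod_cast this
  have hc0 : (0 : ℝ) < c := by exact_mod_cast a6
  have hhc : ((h - c : ℕ) : ℝ) = h - c := Nat.cast_sub a1
  have hhc0 : (0 : ℝ) < h - c := by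
    rw [← hhc]
    exact_mod_cast a7
  have w1' : 9 * (h : ℝ) ≤ 20 * c := by exact_mod_cast w1
  have w2' : 20 * (c : ℝ) ≤ 11 * h := by exact_mod_cast w2
  have hδ : 0 < R - R' := by linarith
  have hyc : |(x : ℝ) * c / h| ≤ R' * c := by
    rw [abs_div, abs_mul, Nat.abs_cast, Nat.abs_cast, div_le_iff₀ hh0]
    nlinarith
  constructor
  · rw [abs_le] at hy hyc ⊢
    constructor <;> nlinarith
  · have h3 : (x : ℝ) * (h - c) / h = x - x * c / h := by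
      field_simp
    have h4 : |(x : ℝ) * (h - c) / h| ≤ R' * (h - c) := by
      rw [abs_div, abs_mul, abs_of_nonneg hhc0.le, Nat.abs_cast, div_le_iff₀ hh0]
      nlinarith
    have h5 : (R - R') / 2 * c ≤ (R - R') * (h - c) := by nlinarith
    push_cast
    rw [hhc]
    rw [h3] at h4
    rw [abs_le] at h4 hy ⊢
    constructor <;> nlinarith

/-! ### 3. The doubling step -/

theorem qI_step {m : ℕ → ℝ} (hm : ∀ k, 0 < m k) (hS : Shp m) (hJ : JoB m) {β lam R R' : ℝ} (hl : 0 < lam)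
    (hRR : R' < R) (hQ : QI β lam R) : QI (796 / 1000 * β) (79 / 100 * lam) R' := by
  classical
  rw [QI_iff] at hQ ⊢
  obtain ⟨κ, t1, hκ, hQ⟩ := hQ
  obtain ⟨K, hK, hcomb⟩ := combQ hm hS hJ
  obtain ⟨δ, hδ⟩ : ∃ δ : ℝ, δ = R - R' := ⟨_, rfl⟩
  have hδ0 : 0 < δ := by
    rw [hδ]
    linarith
  obtain ⟨τ, hτ⟩ : ∃ τ : ℝ, τ = 1 / 1000 := ⟨_, rfl⟩
  have hτ0 : 0 < τ := by rw [hτ]; norm_num
  obtain ⟨J, hJd⟩ : ∃ J : ℕ, J = ⌊β / (τ * lam)⌋₊ := ⟨_, rfl⟩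
  obtain ⟨κ1, hκ1⟩ : ∃ κ1 : ℝ, κ1 = δ / 640 / (J + 1) * (τ * lam / 4) * κ ^ 2 := ⟨_, rfl⟩
  have hκ10 : 0 < κ1 := by
    rw [hκ1]
    positivity
  refine ⟨κ1 ^ 2 / K, 4 * t1 + 20 + ⌈16 / δ⌉₊ + ⌈4 / (τ * lam)⌉₊, by positivity, fun h x hh hx hR => ?_⟩
  have hh16 : 16 ≤ h := by omega
  have hh0 : (0 : ℝ) < h := by
    have : 0 < h := by omega
    exact_mod_cast this
  have hu := uu_pos h
  obtain ⟨T, hTd⟩ : ∃ T : ℝ, T = (h : ℝ) ^ (4 / 3 : ℝ) := ⟨_, rfl⟩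
  have hT : 0 < T := by
    rw [hTd]
    positivity
  have hhT : (h : ℝ) ≤ T := by
    rw [hTd]
    exact hT1 (by omega)
  have hδh : 16 ≤ δ * h := by
    have h1 : 16 / δ ≤ h := by
      have h2 : ⌈16 / δ⌉₊ ≤ h := by omega
      exact (Nat.le_ceil _).trans (by exact_mod_cast h2)
    rw [div_le_iff₀ hδ0] at h1
    linarith
  have hτT : 4 ≤ τ * lam * T := by
    have h1 : 4 / (τ * lam) ≤ h := by
      have h2 : ⌈4 / (τ * lam)⌉₊ ≤ h := by omega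
      exact (Nat.le_ceil _).trans (by exact_mod_cast h2)
    rw [div_le_iff₀ (by positivity)] at h1
    have h2 : (h : ℝ) * (τ * lam) ≤ T * (τ * lam) := by gcongr
    linarith
  obtain ⟨W, hW, hWc⟩ := fam hδ0 (x := x) (by omega : 20 ≤ h) hδh
  have hch : ∀ w ∈ W, ∃ s1 s2 : ℝ, (0 ≤ s1 ∧ s1 + lam * (w.1 : ℝ) ^ (4 / 3 : ℝ) ≤ β * (w.1 : ℝ) ^ (4 / 3 : ℝ) ∧
      ∀ b : ℕ, Even b → s1 ≤ b → (b : ℝ) ≤ s1 + lam * (w.1 : ℝ) ^ (4 / 3 : ℝ) →
        κ * (uu w.1 / (w.1 * (w.1 : ℝ) ^ (4 / 3 : ℝ))) ≤ gz (pt w.1 w.2) b) ∧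
      (0 ≤ s2 ∧ s2 + lam * ((h - w.1 : ℕ) : ℝ) ^ (4 / 3 : ℝ) ≤ β * ((h - w.1 : ℕ) : ℝ) ^ (4 / 3 : ℝ) ∧
      ∀ b : ℕ, Even b → s2 ≤ b → (b : ℝ) ≤ s2 + lam * ((h - w.1 : ℕ) : ℝ) ^ (4 / 3 : ℝ) →
        κ * (uu (h - w.1) / (((h - w.1 : ℕ) : ℝ) * ((h - w.1 : ℕ) : ℝ) ^ (4 / 3 : ℝ))) ≤ gz (pt (h - w.1) (x - w.2)) b) := by
    intro w hw
    obtain ⟨a1, a2, a3⟩ := hW w hw
    obtain ⟨b1, b2, b3, b4, b5, b6, b7⟩ := Wn_half (by omega) a1
    obtain ⟨c1, c2⟩ := cones hRR (by omega) a1 hR (by rw [← hδ]; exact a3)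
    have hev : Even (x - w.2 - ((h - w.1 : ℕ) : ℤ)) := by
      rw [Int.even_iff] at hx a2 ⊢
      rw [Nat.cast_sub b1]
      omega
    obtain ⟨s1, hs1⟩ := hQ w.1 w.2 (by omega) a2 c1
    obtain ⟨s2, hs2⟩ := hQ (h - w.1) (x - w.2) (by omega) hev c2
    exact ⟨s1, s2, hs1, hs2⟩
  choose! s1 s2 hs1 hs2 using hch
  -- the pigeonhole
  have hβ : 0 ≤ β := by
    have hne : W.Nonempty := by
      rw [← Finset.card_pos]
      have : (0 : ℝ) < W.card := lt_of_lt_of_le (by positivity) hWc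
      exact_mod_cast this
    obtain ⟨w, hw⟩ := hne
    obtain ⟨d1, d2, -⟩ := hs1 w hw
    obtain ⟨b1, b2, b3, b4, b5, b6, b7⟩ := Wn_half (by omega) (hW w hw).1
    have e : (0 : ℝ) < (w.1 : ℝ) ^ (4 / 3 : ℝ) := by
      have : (0 : ℝ) < w.1 := by exact_mod_cast b6
      positivity
    have : 0 ≤ β * (w.1 : ℝ) ^ (4 / 3 : ℝ) := by
      have : 0 < lam * (w.1 : ℝ) ^ (4 / 3 : ℝ) := by positivity
      linarith
    exact nonneg_of_mul_nonneg_left this e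
  have hcell : ∀ w ∈ W, s1 w + s2 w + lam * ((w.1 : ℝ) ^ (4 / 3 : ℝ) + ((h - w.1 : ℕ) : ℝ) ^ (4 / 3 : ℝ)) ≤
      796 / 1000 * β * T := by
    intro w hw
    obtain ⟨-, w1, w2⟩ := mem_Wn.1 (hW w hw).1
    obtain ⟨e1, -, -, -⟩ := win43 (by omega) w1 w2
    have d1 := (hs1 w hw).2.1
    have d2 := (hs2 w hw).2.1
    rw [← hTd] at e1
    calc _ ≤ β * ((w.1 : ℝ) ^ (4 / 3 : ℝ) + ((h - w.1 : ℕ) : ℝ) ^ (4 / 3 : ℝ)) := by linarith
      _ ≤ β * (796 / 1000 * T) := by gcongr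
      _ = _ := by ring
  have hmap : ∀ w ∈ W, ⌊(s1 w + s2 w) / (τ * lam * T)⌋₊ ∈ range (J + 1) := by
    intro w hw
    rw [Finset.mem_range, Nat.lt_succ_iff, hJd]
    refine Nat.floor_le_floor ?_
    have h1 := hcell w hw
    have h2 : 0 ≤ lam * ((w.1 : ℝ) ^ (4 / 3 : ℝ) + ((h - w.1 : ℕ) : ℝ) ^ (4 / 3 : ℝ)) := by positivity
    rw [div_le_div_iff₀ (by positivity) (by positivity)]
    have h3 : s1 w + s2 w ≤ β * T := by nlinarith
    calc (s1 w + s2 w) * (τ * lam) ≤ β * T * (τ * lam) := by gcongr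
      _ = _ := by ring
  obtain ⟨j, -, hj⟩ := Finset.exists_le_card_fiber_of_nsmul_le_card_of_maps_to (b := (W.card : ℝ) / (J + 1)) hmap
    ⟨0, Finset.mem_range.2 (by omega)⟩ (by
      rw [Finset.card_range, nsmul_eq_mul]
      push_cast
      rw [mul_div_cancel₀]
      positivity)
  obtain ⟨V, hV⟩ : ∃ V : Finset (ℕ × ℤ), V = W.filter fun w => ⌊(s1 w + s2 w) / (τ * lam * T)⌋₊ = j := ⟨_, rfl⟩
  rw [← hV] at hj
  have hVm : ∀ w ∈ V, w ∈ W ∧ j * (τ * lam * T) ≤ s1 w + s2 w ∧ s1 w + s2 w < (j + 1) * (τ * lam * T) := by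
    intro w hw
    rw [hV, Finset.mem_filter] at hw
    obtain ⟨h1, h2⟩ := hw
    have d1 := (hs1 w h1).1
    have d2 := (hs2 w h1).1
    have h3 : 0 ≤ (s1 w + s2 w) / (τ * lam * T) := by positivity
    have h4 := Nat.floor_le h3
    have h5 := Nat.lt_floor_add_one ((s1 w + s2 w) / (τ * lam * T))
    rw [h2] at h4 h5
    refine ⟨h1, ?_, ?_⟩
    · rwa [le_div_iff₀ (by positivity)] at h4
    · rwa [div_lt_iff₀ (by positivity)] at h5
  have hVc : δ / 640 / (J + 1) * (h : ℝ) ^ 2 ≤ V.card := by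
    refine le_trans ?_ hj
    rw [div_mul_eq_mul_div]
    gcongr
  have hVne : V.Nonempty := by
    rw [← Finset.card_pos]
    have : (0 : ℝ) < V.card := lt_of_lt_of_le (by positivity) hVc
    exact_mod_cast this
  obtain ⟨s, hs⟩ : ∃ s : ℝ, s = (j + 2) * (τ * lam * T) := ⟨_, rfl⟩
  rw [← hTd]
  refine ⟨s, by rw [hs]; positivity, ?_, fun b hb hb1 hb2 => ?_⟩
  · obtain ⟨w, hw⟩ := hVne
    obtain ⟨h1, h2, h3⟩ := hVm w hw
    have h4 := hcell w h1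
    obtain ⟨-, w1, w2⟩ := mem_Wn.1 (hW w h1).1
    obtain ⟨-, e2, -, -⟩ := win43 (by omega) w1 w2
    rw [← hTd] at e2
    have h5 : lam * (7937 / 10000 * T) ≤ lam * ((w.1 : ℝ) ^ (4 / 3 : ℝ) + ((h - w.1 : ℕ) : ℝ) ^ (4 / 3 : ℝ)) := by gcongr
    have h6 : 0 < lam * T := by positivity
    rw [hs]
    have h7 : (j + 2) * (τ * lam * T) = j * (τ * lam * T) + 2 * τ * (lam * T) := by ring
    rw [h7, hτ]
    rw [hτ] at h2
    nlinarith
  · -- one number of letters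
    have hF : ∀ w ∈ V, ∃ F : Finset ℕ, (∀ l ∈ F, l ≤ b ∧ (κ * (uu h / (h * T))) ^ 2 ≤
        gz (pt w.1 w.2) l * gz (pt (h - w.1) (x - w.2)) (b - l)) ∧ τ * lam * T / 4 ≤ F.card := by
      intro w hw
      obtain ⟨h1, h2, h3⟩ := hVm w hw
      obtain ⟨-, w1, w2⟩ := mem_Wn.1 (hW w h1).1
      obtain ⟨b1, b2, b3, b4, b5, b6, b7⟩ := Wn_half (by omega) (hW w h1).1
      obtain ⟨-, e2, e3, e4⟩ := win43 (by omega) w1 w2
      rw [← hTd] at e2 e3 e4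
      obtain ⟨d1, d2, d3⟩ := hs1 w h1
      obtain ⟨f1, f2, f3⟩ := hs2 w h1
      obtain ⟨A, hA⟩ : ∃ A : ℝ, A = (w.1 : ℝ) ^ (4 / 3 : ℝ) := ⟨_, rfl⟩
      obtain ⟨B, hB⟩ : ∃ B : ℝ, B = ((h - w.1 : ℕ) : ℝ) ^ (4 / 3 : ℝ) := ⟨_, rfl⟩
      rw [← hA] at d2 d3 e2 e3
      rw [← hB] at f2 f3 e2 e4
      have hlT : 0 < lam * T := by positivity
      have g1 : lam * (7937 / 10000 * T) ≤ lam * (A + B) := by gcongr
      have g2 : lam * (1 / 4 * T) ≤ lam * A := by gcongr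
      have g3 : lam * (1 / 4 * T) ≤ lam * B := by gcongr
      have hsS1 : s1 w + s2 w + τ * lam * T ≤ s := by
        rw [hs]
        linarith
      have hsS2 : s ≤ s1 w + s2 w + 2 * (τ * lam * T) := by
        rw [hs]
        linarith
      have hτe : τ * lam * T = 1 / 1000 * (lam * T) := by
        rw [hτ]
        ring
      obtain ⟨F, hF, hFc⟩ := cnt_nat (u := max (s1 w) (b - s2 w - lam * B)) (v := min (s1 w + lam * A) (b - s2 w))
        (d1.trans (le_max_left _ _)) (by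
          rw [le_sub_iff_add_le, le_min_iff]
          rw [hτe] at hτT hsS1 hsS2
          constructor
          · rw [← le_sub_iff_add_le', max_le_iff]
            constructor <;> linarith
          · rw [← le_sub_iff_add_le', max_le_iff]
            constructor <;> linarith)
      refine ⟨F, fun l hl => ?_, ?_⟩
      · obtain ⟨l1, l2, l3⟩ := hF l hl
        have m1 := (le_max_left _ _).trans l2
        have m2 := (le_max_right _ _).trans l2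
        have m3 := l3.trans (min_le_left _ _)
        have m4 := l3.trans (min_le_right _ _)
        have hlb : l ≤ b := by
          have : (l : ℝ) ≤ b := by linarith
          exact_mod_cast this
        refine ⟨hlb, ?_⟩
        have n1 := d3 l l1 m1 m3
        have n2 := f3 (b - l) ((Nat.even_sub hlb).2 ⟨fun _ => l1, fun _ => hb⟩) (by
          rw [Nat.cast_sub hlb]
          linarith) (by
          rw [Nat.cast_sub hlb]
          linarith)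
        have hc0 : (0 : ℝ) < w.1 := by exact_mod_cast b6
        have hd0 : (0 : ℝ) < ((h - w.1 : ℕ) : ℝ) := by exact_mod_cast b7
        have hcle : (w.1 : ℝ) ≤ h := by exact_mod_cast b1
        have hdle : ((h - w.1 : ℕ) : ℝ) ≤ h := by exact_mod_cast Nat.sub_le _ _
        have hA0 : 0 < A := by rw [hA]; positivity
        have hB0 : 0 < B := by rw [hB]; positivity
        have hAT : A ≤ T := by
          rw [hA, hTd]
          exact Real.rpow_le_rpow hc0.le hcle (by norm_num)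
        have hBT : B ≤ T := by
          rw [hB, hTd]
          exact Real.rpow_le_rpow hd0.le hdle (by norm_num)
        have p1 : κ * (uu h / (h * T)) ≤ κ * (uu w.1 / (w.1 * A)) := by
          refine mul_le_mul_of_nonneg_left ?_ hκ.le
          exact div_le_div₀ (uu_pos _).le (uu_anti b1) (by positivity) (mul_le_mul hcle hAT hA0.le hh0.le)
        have p2 : κ * (uu h / (h * T)) ≤ κ * (uu (h - w.1) / (((h - w.1 : ℕ) : ℝ) * B)) := by
          refine mul_le_mul_of_nonneg_left ?_ hκ.le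
          exact div_le_div₀ (uu_pos _).le (uu_anti (Nat.sub_le _ _)) (by positivity) (mul_le_mul hdle hBT hB0.le hh0.le)
        rw [sq]
        exact mul_le_mul (p1.trans n1) (p2.trans n2) (by positivity) (gz_nonneg _ _)
      · refine le_trans ?_ hFc
        refine div_le_div_of_nonneg_right ?_ (by norm_num)
        rw [le_sub_iff_add_le, le_min_iff]
        rw [hτe] at hτT hsS1 hsS2 ⊢
        constructor
        · rw [← le_sub_iff_add_le', max_le_iff]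
          constructor <;> linarith
        · rw [← le_sub_iff_add_le', max_le_iff]
          constructor <;> linarith
    choose! F hF1 hF2 using hF
    have h1 := hcomb h b x V F κ1 hκ10.le hh16 hx (fun w hw => by
      obtain ⟨a1, a2, a3⟩ := hVm w hw
      exact ⟨(hW w a1).1, (hW w a1).2.1, fun l hl => (hF1 w hw l hl).1⟩) (by
      rw [← hTd]
      have h2 : ∀ w ∈ V, τ * lam * T / 4 * (κ * (uu h / (h * T))) ^ 2 ≤
          ∑ l ∈ F w, gz (pt w.1 w.2) l * gz (pt (h - w.1) (x - w.2)) (b - l) := by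
        intro w hw
        refine le_trans ?_ (Finset.card_nsmul_le_sum (F w) _ ((κ * (uu h / (h * T))) ^ 2) fun l hl => (hF1 w hw l hl).2)
        rw [nsmul_eq_mul]
        exact mul_le_mul_of_nonneg_right (hF2 w hw) (by positivity)
      refine le_trans ?_ (Finset.card_nsmul_le_sum V _ _ h2)
      rw [nsmul_eq_mul]
      calc κ1 * (uu h ^ 2 / T) = δ / 640 / (J + 1) * (h : ℝ) ^ 2 * (τ * lam * T / 4 * (κ * (uu h / (h * T))) ^ 2) := by
            rw [hκ1]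
            field_simp
        _ ≤ _ := by gcongr)
    rw [← hTd] at h1
    exact h1

end LoQ

end JNT

end HexObs
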