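import Pool.Agent.JNT.LowQ
import Pool.Agent.JNT.Inv

/-!
JNT, lower side: the base of the intervals of numbers of letters, and the iteration of the doubling step.
-/

set_option autoImplicit false

namespace HexObs

namespace JNT

open Finset TS SDN NTW NTA PtC RP

open scoped ENNReal

namespace LoQ

open LoN LO1

/-- the convolution as a double sum -/
lemma conv2_eq (A B : Set (List Bool)) (x : ℤ) [∀ a b : List Bool, Decidable (a ∈ A ∧ b ∈ B ∧ latE a + latE b = x)] :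
    conv2 A B x = ∑' a : List Bool, ∑' b : List Bool, if a ∈ A ∧ b ∈ B ∧ latE a + latE b = x then wE a * wE b else 0 := by
  classical
  unfold conv2
  rw [tsum_subtype {p : List Bool × List Bool | p.1 ∈ A ∧ p.2 ∈ B ∧ latE p.1 + latE p.2 = x}
    (fun p : List Bool × List Bool => wE p.1 * wE p.2), ENNReal.tsum_prod']
  refine tsum_congr fun a => tsum_congr fun b => ?_
  by_cases h : a ∈ A ∧ b ∈ B ∧ latE a + latE b = x
  · rw [Set.indicator_of_mem (show (a, b) ∈ {p : List Bool × List Bool | p.1 ∈ A ∧ p.2 ∈ B ∧ latE p.1 + latE p.2 = x} from h),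
      if_pos h]
  · rw [Set.indicator_of_notMem (show (a, b) ∉ {p : List Bool × List Bool | p.1 ∈ A ∧ p.2 ∈ B ∧ latE p.1 + latE p.2 = x} from h),
      if_neg h]

/-- the pairs by the number of letters -/
lemma conv_pairs {h q N : ℕ} {x : ℤ} (hh : 4 ≤ h) (hq : 2 ^ q ≤ h / 4) (A B : ℕ → Set (List Bool))
    (hA : ∀ c ∈ Wn h, A c ⊆ Brd c) (hB : ∀ c ∈ Wn h, B c ⊆ Brd (h - c))
    (hl : ∀ c ∈ Wn h, ∀ a ∈ A c, ∀ b ∈ B c, a.length + b.length ≤ N) :
    ∑ c ∈ Wn h, conv2 (A c) (B c) x ≤ ∑ n ∈ range (N + 1), pairs (2 ^ q) (pt h x) n := by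
  classical
  simp_rw [conv2_eq]
  unfold pairs
  rw [← Summable.tsum_finsetSum (fun _ _ => ENNReal.summable), ← Summable.tsum_finsetSum (fun _ _ => ENNReal.summable)]
  refine ENNReal.tsum_le_tsum fun a => ?_
  rw [← Summable.tsum_finsetSum (fun _ _ => ENNReal.summable), ← Summable.tsum_finsetSum (fun _ _ => ENNReal.summable)]
  refine ENNReal.tsum_le_tsum fun b => ?_
  by_cases hex : ∃ c ∈ Wn h, a ∈ A c ∧ b ∈ B c ∧ latE a + latE b = x
  · obtain ⟨c, hc, h1, h2, h3⟩ := hex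
    obtain ⟨a1, a2, a3, -⟩ := Wn_half hh hc
    rw [Finset.sum_eq_single c]
    · rw [if_pos ⟨h1, h2, h3⟩]
      have hac := hA c hc h1
      have hbc := hB c hc h2
      have hen : en a + en b = pt h x := by
        rw [← en_app ⟨c, hac⟩]
        exact en_pt (cat_mem a1 hac hbc h3)
      have hN := hl c hc a h1 b h2
      refine le_trans (le_of_eq ?_) (Finset.single_le_sum (fun _ _ => zero_le)
        (Finset.mem_range.2 (Nat.lt_succ_of_le hN)))
      rw [if_pos]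
      exact ⟨⟨c, by omega, hac⟩, ⟨h - c, by omega, hbc⟩, hen, rfl⟩
    · intro c' hc' hne
      refine if_neg fun h4 => hne ?_
      exact Brd_height (hA c' hc' h4.1) (hA c hc h1)
    · intro h4
      exact absurd hc h4
  · rw [Finset.sum_eq_zero fun c hc => if_neg fun h4 => hex ⟨c, hc, h4⟩]
    exact zero_le

lemma pairs_E1 (n : ℕ) (v : Pt) (b : ℕ) : pairs n v b =
    E1 fun a b' => a ∈ HB n ∧ b' ∈ HB n ∧ en a + en b' = v ∧ a.length + b'.length = b := by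
  classical
  unfold pairs E1
  refine tsum_congr fun a => tsum_congr fun b' => ?_
  by_cases h : a ∈ HB n ∧ b' ∈ HB n ∧ en a + en b' = v ∧ a.length + b'.length = b
  · rw [if_pos h, if_pos h]
  · rw [if_neg h, if_neg h]

/-- **the base** -/
theorem qI_base {m : ℕ → ℝ} (hm : ∀ k, 0 < m k) (hS : Shp m) (hJ : JoB m) (hC : PairC m)
    (hZ : ∃ C : ℝ, 0 < C ∧ ∀ h : ℕ, 1 ≤ h → PW.mZ h ≤ C * (h : ℝ) ^ (4 / 3 : ℝ)) {R : ℝ} (hR : 0 < R) :
    ∃ β lam : ℝ, 0 < lam ∧ 0 < β ∧ QI β lam R := by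
  classical
  obtain ⟨CZ, hCZ, hZ⟩ := hZ
  obtain ⟨Cc, k0, hCc, hC⟩ := hC
  obtain ⟨K1, hK1, hcore⟩ := core2 hm hJ
  obtain ⟨K2, hK2, hden⟩ := den hm hS
  obtain ⟨κ, t1, hκ, hP⟩ := shP (a := 1) (R := R + 1) one_pos (by linarith)
  obtain ⟨t2, hmain⟩ := main_low (P := fun h => {b | (b.length : ℝ) ≤ 1 * PW.mZ h}) (R := R + 1) (R' := R) hR (by linarith)
    hκ hP
  obtain ⟨κ0, hκ0⟩ : ∃ κ0 : ℝ, κ0 = (R + 1 - R) * κ ^ 2 / 320 := ⟨_, rfl⟩
  have hκ00 : 0 < κ0 := by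
    rw [hκ0]
    have : R + 1 - R = 1 := by ring
    rw [this]
    positivity
  rw [← hκ0] at hmain
  obtain ⟨κ2, hκ2⟩ : ∃ κ2 : ℝ, κ2 = κ0 / (2 * (CZ + 1)) := ⟨_, rfl⟩
  have hκ20 : 0 < κ2 := by
    rw [hκ2]
    positivity
  obtain ⟨lam, hlam⟩ : ∃ lam : ℝ, lam = (κ2 / (Cc * K2)) ^ 16 / K2 := ⟨_, rfl⟩
  have hlam0 : 0 < lam := by
    rw [hlam]
    positivity
  refine ⟨CZ + lam, lam, hlam0, by positivity, ?_⟩
  rw [QI_iff]
  refine ⟨κ2 ^ 2 / (K1 * K2), t2 + 16 + 16 * 2 ^ k0, by positivity, fun h x hh hx hRx => ?_⟩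
  have hh16 : 16 ≤ h := by omega
  have hh0 : (0 : ℝ) < h := by
    have : 0 < h := by omega
    exact_mod_cast this
  have hu := uu_pos h
  obtain ⟨T, hTd⟩ : ∃ T : ℝ, T = (h : ℝ) ^ (4 / 3 : ℝ) := ⟨_, rfl⟩
  have hT : 0 < T := by
    rw [hTd]
    positivity
  have hhT : (h : ℝ) ≤ T := by
    rw [hTd]
    exact hT1 (by omega)
  obtain ⟨q, hq1, hq2, hq3⟩ := scale hh16
  obtain ⟨d1, d2, d3⟩ := hden h q (by omega) hq3 hq2
  rw [← hTd] at d1 d2 d3 ⊢
  have hmq := hm q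
  have hkq : k0 ≤ q := by
    have h1 : 2 ^ k0 ≤ 2 ^ q := by omega
    exact (Nat.pow_le_pow_iff_right (by norm_num)).1 h1
  -- the first moment
  obtain ⟨N, hN⟩ : ∃ N : ℕ, N = ⌊CZ * T⌋₊ := ⟨_, rfl⟩
  have h1 := (hmain h x (by omega) hx hRx).trans (conv_pairs (N := N) (q := q) (by omega) hq1 _ _
    (fun c _ a ha => ha.1) (fun c _ b hb => hb.1) (by
      intro c hc a ha b hb
      obtain ⟨a1, a2, a3, a4, a5, a6, a7⟩ := Wn_half (by omega) hc
      obtain ⟨-, w1, w2⟩ := mem_Wn.1 hc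
      obtain ⟨e1, -, -, -⟩ := win43 (by omega) w1 w2
      rw [← hTd] at e1
      have g1 : (a.length : ℝ) ≤ 1 * PW.mZ c := ha.2.1
      have g2 : (b.length : ℝ) ≤ 1 * PW.mZ (h - c) := hb.2
      have g3 := hZ c a6
      have g4 := hZ (h - c) a7
      rw [hN]
      apply Nat.le_floor
      push_cast
      calc (a.length : ℝ) + b.length ≤ CZ * ((c : ℝ) ^ (4 / 3 : ℝ) + ((h - c : ℕ) : ℝ) ^ (4 / 3 : ℝ)) := by linarith
        _ ≤ CZ * (1 * T) := by
            refine mul_le_mul_of_nonneg_left ?_ hCZ.le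
            linarith
        _ = _ := by ring))
  have h2 : κ0 * uu h ^ 2 ≤ ∑ n ∈ range (N + 1), (pairs (2 ^ q) (pt h x) n).toReal := by
    rw [← ENNReal.toReal_sum fun n _ => pairs_ne Nat.one_le_two_pow _ _]
    refine (ENNReal.ofReal_le_iff_le_toReal ?_).1 h1
    exact ENNReal.sum_ne_top.2 fun n _ => pairs_ne Nat.one_le_two_pow _ _
  obtain ⟨n0, hn0, hn1⟩ : ∃ n0 ∈ range (N + 1), κ0 * uu h ^ 2 / ((N : ℝ) + 1) ≤ (pairs (2 ^ q) (pt h x) n0).toReal := by
    by_contra hcon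
    push Not at hcon
    have h3 := Finset.sum_lt_sum_of_nonempty ⟨0, Finset.mem_range.2 (by omega)⟩ hcon
    rw [Finset.sum_const, Finset.card_range, nsmul_eq_mul] at h3
    push_cast at h3
    rw [mul_div_cancel₀] at h3
    · linarith
    · positivity
  have hNT : (N : ℝ) + 1 ≤ (CZ + 1) * T := by
    have g1 : (N : ℝ) ≤ CZ * T := by
      rw [hN]
      exact Nat.floor_le (by positivity)
    have g2 : (1 : ℝ) ≤ h := by
      have : 1 ≤ h := by omega
      exact_mod_cast this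
    linarith
  have hn2 : 2 * κ2 * (uu h ^ 2 / T) ≤ (pairs (2 ^ q) (pt h x) n0).toReal := by
    refine le_trans ?_ hn1
    calc 2 * κ2 * (uu h ^ 2 / T) = κ0 * uu h ^ 2 / ((CZ + 1) * T) := by
          rw [hκ2]
          field_simp
      _ ≤ _ := div_le_div_of_nonneg_left (by positivity) (by positivity) hNT
  have hev : Even n0 := by
    by_contra hcon
    rw [pairs_odd _ hcon] at hn2
    simp only [ENNReal.toReal_zero] at hn2
    have : 0 < 2 * κ2 * (uu h ^ 2 / T) := by positivity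
    linarith
  refine ⟨n0, Nat.cast_nonneg _, ?_, fun b hb hb1 hb2 => ?_⟩
  · have g1 : (n0 : ℝ) ≤ CZ * T := by
      have g2 : n0 ≤ N := by
        have := Finset.mem_range.1 hn0
        omega
      have g3 : (n0 : ℝ) ≤ N := by exact_mod_cast g2
      refine g3.trans ?_
      rw [hN]
      exact Nat.floor_le (by positivity)
    nlinarith
  · have h3 := hC q (pt h x) b n0 hkq hb hev
    have h4 : (|(b : ℝ) - n0| / m q) ^ (1 / 16 : ℝ) ≤ κ2 / (Cc * K2) := by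
      have g1 : |(b : ℝ) - n0| ≤ lam * T := by
        rw [abs_of_nonneg (by linarith)]
        linarith
      have g2 : |(b : ℝ) - n0| / m q ≤ (κ2 / (Cc * K2)) ^ 16 := by
        rw [div_le_iff₀ hmq]
        calc |(b : ℝ) - n0| ≤ lam * T := g1
          _ ≤ lam * (K2 * m q) := by gcongr
          _ = _ := by
              rw [hlam]
              field_simp
      have g3 := Real.rpow_le_rpow (by positivity) g2 (show (0 : ℝ) ≤ 1 / 16 by norm_num)
      refine g3.trans (le_of_eq ?_)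
      rw [← Real.rpow_natCast, ← Real.rpow_mul (by positivity)]
      norm_num
    have hUq := Ub_pos q
    have h5 : Cc * (Ub q ^ 2 / (4 ^ q * m q)) * (|(b : ℝ) - n0| / m q) ^ (1 / 16 : ℝ) ≤ κ2 * (uu h ^ 2 / T) := by
      calc Cc * (Ub q ^ 2 / (4 ^ q * m q)) * (|(b : ℝ) - n0| / m q) ^ (1 / 16 : ℝ) ≤
          Cc * (K2 * (uu h ^ 2 / T)) * (κ2 / (Cc * K2)) := by gcongr
        _ = _ := by field_simp
    have h6 : κ2 * (uu h ^ 2 / T) ≤ (pairs (2 ^ q) (pt h x) b).toReal := by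
      have g1 := abs_le.1 (h3.trans h5)
      linarith [g1.1]
    have h7 := hcore q h b (pt h x) (fun a b' => a ∈ HB (2 ^ q) ∧ b' ∈ HB (2 ^ q) ∧ en a + en b' = pt h x ∧
      a.length + b'.length = b) (κ2 * (uu h ^ 2 / T)) (by positivity) (fun a b' h => h) (le_of_eq (ip_pt hx)) (by
        refine (ENNReal.ofReal_le_ofReal h6).trans (le_of_eq ?_)
        rw [ENNReal.ofReal_toReal (pairs_ne Nat.one_le_two_pow _ _), pairs_E1])
    refine le_trans ?_ h7
    have hU := Num2Aux.UU_pos h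
    have h8 : 0 < UU h * (Ub q ^ 2 / (4 ^ q * m q)) := by positivity
    calc κ2 ^ 2 / (K1 * K2) * (uu h / (h * T)) = (κ2 * (uu h ^ 2 / T)) ^ 2 / (K1 * (K2 * (h * uu h ^ 3 / T))) := by
          field_simp
      _ ≤ _ := by
          refine div_le_div_of_nonneg_left (by positivity) (by positivity) ?_
          exact mul_le_mul_of_nonneg_left d1 hK1.le

/-! ### The iteration -/

lemma qI_mono {β lam R R' : ℝ} (h : QI β lam R) (hR : R' ≤ R) : QI β lam R' := by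
  obtain ⟨κ, t0, hκ, h⟩ := h
  exact ⟨κ, t0, hκ, fun n x hn hx hx' => h n x hn hx (hx'.trans (mul_le_mul_of_nonneg_right hR (Nat.cast_nonneg n)))⟩

theorem qI_iter {m : ℕ → ℝ} (hm : ∀ k, 0 < m k) (hS : Shp m) (hJ : JoB m) {β lam R : ℝ} (hl : 0 < lam) (hR : 0 < R)
    (hQ : QI β lam (2 * R)) (j : ℕ) : QI ((796 / 1000) ^ j * β) ((79 / 100) ^ j * lam) (R * (1 + (1 / 2) ^ j)) := by
  induction j with
  | zero =>
    rw [pow_zero, pow_zero, pow_zero, one_mul, one_mul, show R * (1 + 1) = 2 * R by ring]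
    exact hQ
  | succ j ih =>
    have h1 := qI_step hm hS hJ (R' := R * (1 + (1 / 2) ^ (j + 1))) (by positivity) (by
      rw [pow_succ]
      have : 0 < (1 / 2 : ℝ) ^ j := by positivity
      nlinarith) ih
    have e1 : 796 / 1000 * ((796 / 1000) ^ j * β) = (796 / 1000) ^ (j + 1) * β := by
      rw [pow_succ]
      ring
    have e2 : 79 / 100 * ((79 / 100) ^ j * lam) = (79 / 100) ^ (j + 1) * lam := by
      rw [pow_succ]
      ring
    rwa [e1, e2] at h1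

/-- **intervals of numbers of letters with a large ratio** -/
theorem qI_good {m : ℕ → ℝ} (hm : ∀ k, 0 < m k) (hS : Shp m) (hJ : JoB m) (hC : PairC m)
    (hZ : ∃ C : ℝ, 0 < C ∧ ∀ h : ℕ, 1 ≤ h → PW.mZ h ≤ C * (h : ℝ) ^ (4 / 3 : ℝ)) {R M β0 : ℝ} (hR : 0 < R)
    (hβ0 : 0 < β0) : ∃ β lam : ℝ, 0 < lam ∧ 0 < β ∧ β ≤ β0 ∧ M * β ^ (17 / 16 : ℝ) ≤ lam ∧ QI β lam R := by
  obtain ⟨β, lam, hl, hβ, hQ⟩ := qI_base hm hS hJ hC hZ (R := 2 * R) (by linarith)
  obtain ⟨a, ha⟩ : ∃ a : ℝ, a = (796 / 1000 : ℝ) ^ (17 / 16 : ℝ) := ⟨_, rfl⟩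
  have ha0 : 0 < a := by
    rw [ha]
    positivity
  have ha1 : a / (79 / 100) < 1 := by
    rw [div_lt_one (by norm_num), ha]
    exact ratio
  obtain ⟨j1, hj1⟩ := exists_pow_lt_of_lt_one (show 0 < lam / ((|M| + 1) * β ^ (17 / 16 : ℝ)) by positivity) ha1
  obtain ⟨j2, hj2⟩ := exists_pow_lt_of_lt_one (show 0 < β0 / β by positivity) (show (796 / 1000 : ℝ) < 1 by norm_num)
  obtain ⟨j, hj⟩ : ∃ j, j = max j1 j2 := ⟨_, rfl⟩
  have h1 : (a / (79 / 100)) ^ j ≤ lam / ((|M| + 1) * β ^ (17 / 16 : ℝ)) :=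
    (pow_le_pow_of_le_one (by positivity) ha1.le (by rw [hj]; exact le_max_left _ _)).trans hj1.le
  have h2 : (796 / 1000 : ℝ) ^ j ≤ β0 / β :=
    (pow_le_pow_of_le_one (by norm_num) (by norm_num) (by rw [hj]; exact le_max_right _ _)).trans hj2.le
  refine ⟨(796 / 1000) ^ j * β, (79 / 100) ^ j * lam, by positivity, by positivity, ?_, ?_, ?_⟩
  · rwa [le_div_iff₀ hβ] at h2
  · have e1 : ((796 / 1000 : ℝ) ^ j * β) ^ (17 / 16 : ℝ) = a ^ j * β ^ (17 / 16 : ℝ) := by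
      rw [Real.mul_rpow (by positivity) hβ.le, ha]
      congr 1
      rw [← Real.rpow_natCast, ← Real.rpow_natCast, ← Real.rpow_mul (by norm_num), ← Real.rpow_mul (by norm_num), mul_comm]
    rw [e1]
    rw [div_pow, div_le_div_iff₀ (by positivity) (by positivity)] at h1
    have h3 : M ≤ |M| + 1 := by
      have := le_abs_self M
      linarith
    have h4 : 0 < a ^ j * β ^ (17 / 16 : ℝ) := by positivity
    calc M * (a ^ j * β ^ (17 / 16 : ℝ)) ≤ (|M| + 1) * (a ^ j * β ^ (17 / 16 : ℝ)) := by gcongr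
      _ = a ^ j * ((|M| + 1) * β ^ (17 / 16 : ℝ)) := by ring
      _ ≤ lam * (79 / 100) ^ j := h1
      _ = _ := by ring
  · refine qI_mono (qI_iter hm hS hJ hl hR hQ j) ?_
    have : 0 < (1 / 2 : ℝ) ^ j := by positivity
    nlinarith

end LoQ

end JNT

end HexObs
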