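import Pool.Agent.JNT.LowQB

/-!
JNT, lower side: the joint local lower bound for high bridges with few letters (row W).
-/

set_option autoImplicit false

namespace HexObs

namespace JNT

open Finset TS SDN NTW NTA PtC RP

open scoped ENNReal

namespace LoW

open LoN LO1 LoQ

/-- the first ends -/
noncomputable def Wf (a b : ℕ) : Finset (ℕ × ℤ) :=
  ((Finset.Icc a b) ×ˢ (Finset.Icc (-(b : ℤ)) b)).filter fun w => Even (w.2 - w.1)

lemma mem_Wf {a b : ℕ} {w : ℕ × ℤ} : w ∈ Wf a b ↔ a ≤ w.1 ∧ w.1 ≤ b ∧ |w.2| ≤ (b : ℤ) ∧ Even (w.2 - w.1) := by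
  unfold Wf
  rw [Finset.mem_filter, Finset.mem_product, Finset.mem_Icc, Finset.mem_Icc, abs_le]
  tauto

/-- the bridges with the end in the box, by the end -/
lemma box_le (a b n : ℕ) : gf {Z | Z ∈ BU ∧ a ≤ hgt Z ∧ hgt Z ≤ b ∧ |latE Z| ≤ (hgt Z : ℤ) ∧ Z.length = n} ≤
    ENNReal.ofReal (∑ w ∈ Wf a b, gz (pt w.1 w.2) n) := by
  rw [ENNReal.ofReal_sum_of_nonneg fun w _ => gz_nonneg _ _]
  have h1 : {Z | Z ∈ BU ∧ a ≤ hgt Z ∧ hgt Z ≤ b ∧ |latE Z| ≤ (hgt Z : ℤ) ∧ Z.length = n} ⊆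
      ⋃ w ∈ Wf a b, {Z | Z ∈ BU ∧ en Z = pt w.1 w.2 ∧ Z.length = n} := by
    rintro Z ⟨⟨c, hc⟩, h1, h2, h3, h4⟩
    rw [hgt_eq hc] at h1 h2 h3
    rw [Set.mem_iUnion₂]
    refine ⟨(c, latE Z), ?_, ⟨c, hc⟩, en_pt ⟨hc, rfl⟩, h4⟩
    rw [mem_Wf]
    refine ⟨h1, h2, ?_, ?_⟩
    · have : (c : ℤ) ≤ b := by exact_mod_cast h2
      exact h3.trans this
    · have := LocalT.par_end hc
      rw [Int.even_iff]
      show (latE Z - (c : ℤ)) % 2 = 0
      omega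
  refine (gf_mono h1).trans ((BAR.gf_bi_le _ _).trans (le_of_eq ?_))
  exact Finset.sum_congr rfl fun w _ => gz_ofReal _ _

/-- the continuity for a family of ends -/
lemma tv_fam {m : ℕ → ℝ} (hT : TVX m) : ∃ (C : ℝ) (k0 : ℕ), 0 < C ∧ ∀ (k n n' : ℕ) (V : Finset (ℕ × ℤ)), k0 ≤ k → Even n →
    Even n' → (∀ w ∈ V, 2 ^ k ≤ w.1 ∧ Even (w.2 - w.1)) →
      ∑ w ∈ V, gz (pt w.1 w.2) n - C * (Ub k / m k) * (|(n : ℝ) - n'| / m k) ^ (1 / 16 : ℝ) ≤ ∑ w ∈ V, gz (pt w.1 w.2) n' := by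
  classical
  obtain ⟨C, k0, hC, hT⟩ := hT
  refine ⟨C, k0, hC, fun k n n' V hk hn hn' hV => ?_⟩
  have h1 := hT k n n' (V.image fun w => pt w.1 w.2) hk hn hn' (by
    intro z hz
    obtain ⟨w, hw, rfl⟩ := Finset.mem_image.1 hz
    obtain ⟨a1, a2⟩ := hV w hw
    rw [ip_pt a2]
    have : ((2 ^ k : ℕ) : ℤ) ≤ w.1 := by exact_mod_cast a1
    push_cast at this
    linarith)
  rw [Finset.sum_image (fun w hw w' hw' he => by
    obtain ⟨e1, e2⟩ := pt_inj (hV w hw).2 (hV w' hw').2 he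
    exact Prod.ext e1 e2)] at h1
  have h2 : ∑ w ∈ V, gz (pt w.1 w.2) n - ∑ w ∈ V, gz (pt w.1 w.2) n' ≤ ∑ w ∈ V, |gz (pt w.1 w.2) n - gz (pt w.1 w.2) n'| := by
    rw [← Finset.sum_sub_distrib]
    exact Finset.sum_le_sum fun w _ => le_abs_self _
  linarith

lemma half43 {h c : ℕ} (hc : 2 * c ≤ h) : 1 / 4 * (h : ℝ) ^ (4 / 3 : ℝ) ≤ ((h - c : ℕ) : ℝ) ^ (4 / 3 : ℝ) := by
  have h1 : (1 / 2 : ℝ) * h ≤ ((h - c : ℕ) : ℝ) := by
    rw [Nat.cast_sub (by omega)]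
    have : 2 * (c : ℝ) ≤ h := by exact_mod_cast hc
    linarith
  have h2 : (1 / 4 : ℝ) ≤ (1 / 2 : ℝ) ^ (4 / 3 : ℝ) := le_p43 (by norm_num) (by norm_num)
  calc 1 / 4 * (h : ℝ) ^ (4 / 3 : ℝ) ≤ (1 / 2 : ℝ) ^ (4 / 3 : ℝ) * (h : ℝ) ^ (4 / 3 : ℝ) := by gcongr
    _ = (1 / 2 * (h : ℝ)) ^ (4 / 3 : ℝ) := (Real.mul_rpow (by norm_num) (Nat.cast_nonneg _)).symm
    _ ≤ _ := Real.rpow_le_rpow (by positivity) h1 (by norm_num)

/-- **the joint local lower bound** -/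
theorem lowJ_of {m : ℕ → ℝ} (hm : ∀ k, 0 < m k) (hS : Shp m) (hJ : JoB m) (hT : TVX m)
    (hQ : ∀ R M β0 : ℝ, 0 < R → 0 < β0 → ∃ β lam : ℝ, 0 < lam ∧ 0 < β ∧ β ≤ β0 ∧ M * β ^ (17 / 16 : ℝ) ≤ lam ∧ QI β lam R)
    (hE : ExLen m) : LowJ m := by
  classical
  intro R a A hR ha haA
  obtain ⟨cE, i, j, kE, hcE, hE⟩ := hE a A ha haA
  obtain ⟨CT, kT, hCT, htv⟩ := tv_fam hT
  obtain ⟨K, hK, hcomb⟩ := combT hm hJ
  obtain ⟨cS, CS, hcS, hCS, hS⟩ := hS
  have hC0 : 0 < 6 + CW := LocalT.C0_pos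
  obtain ⟨H, hH⟩ : ∃ H : ℕ, H = 2 ^ (j + 1) := ⟨_, rfl⟩
  have hH1 : 1 ≤ H := by
    rw [hH]
    exact Nat.one_le_two_pow
  have hHr : (1 : ℝ) ≤ H := by exact_mod_cast hH1
  -- the constants of the scales
  obtain ⟨Ei, hEi⟩ : ∃ Ei : ℝ, Ei = CS / cS * 4 ^ i := ⟨_, rfl⟩
  have hEi0 : 0 < Ei := by
    rw [hEi]
    positivity
  obtain ⟨Lam, hLam⟩ : ∃ Lam : ℝ, Lam = (2 * (H : ℝ)) ^ (4 / 3 : ℝ) / cS := ⟨_, rfl⟩
  have hLam0 : 0 < Lam := by
    rw [hLam]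
    positivity
  obtain ⟨M, hM⟩ : ∃ M : ℝ, M = 34 * CT * Ei * (2 * Lam * Ei) ^ (1 / 16 : ℝ) / cE := ⟨_, rfl⟩
  obtain ⟨β, lam, hlam, hβ, hβ0, hML, hQI⟩ := hQ (2 * R + 1) M (a / (4 * Lam)) (by linarith) (by positivity)
  rw [QI_iff] at hQI
  obtain ⟨κ, t0, hκ, hQI⟩ := hQI
  obtain ⟨κ1, hκ1⟩ : ∃ κ1 : ℝ, κ1 = κ * (3 * (lam / 16) / 4) * (cE * lam / (34 * β)) := ⟨_, rfl⟩
  have hκ10 : 0 < κ1 := by
    rw [hκ1]
    positivity
  obtain ⟨c, hc⟩ : ∃ c : ℝ, c = κ1 ^ 2 / ((6 + CW) ^ 2 * K * Ei * 4 ^ i * 16 * H ^ 4) := ⟨_, rfl⟩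
  obtain ⟨n1, hn1⟩ : ∃ n1 : ℕ, n1 = ⌈64 / (3 * lam)⌉₊ := ⟨_, rfl⟩
  refine ⟨H, c, kE + kT + i + t0 + n1 + 1, hH1, by rw [hc]; positivity, fun k h b x hk hh1 hh2 hx hRx hb hb1 hb2 => ?_⟩
  rw [gz_pt hx, ENNReal.ofReal_le_ofReal_iff (gz_nonneg _ _)]
  have hmk := hm k
  have hUk := Ub_pos k
  obtain ⟨q, hq⟩ : ∃ q, q = k - i := ⟨_, rfl⟩
  have hqk : k = q + i := by omega
  have hmq := hm q
  have hUq := Ub_pos q
  have h2k : (0 : ℝ) < 2 ^ k := by positivity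
  have hkk : k < 2 ^ k := Nat.lt_two_pow_self
  -- heights
  have hj : 2 ^ (k + j) * 2 = H * 2 ^ k := by
    rw [hH, pow_add, pow_add, pow_one]
    ring
  have hjh : 2 * 2 ^ (k + j) ≤ h := by omega
  have hkh : 2 ^ k ≤ h := by
    calc 2 ^ k = 1 * 2 ^ k := (one_mul _).symm
      _ ≤ H * 2 ^ k := Nat.mul_le_mul_right _ hH1
      _ ≤ h := hh1
  have hqk2 : 2 ^ q ≤ 2 ^ (k + j) := Nat.pow_le_pow_right (by norm_num) (by omega)
  have hh0 : (0 : ℝ) < h := by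
    have : 0 < 2 ^ k := by positivity
    have : 0 < h := by omega
    exact_mod_cast this
  have hu := uu_pos h
  have hh2' : (h : ℝ) ≤ 2 * (H * 2 ^ k) := by exact_mod_cast hh2
  obtain ⟨T, hTd⟩ : ∃ T : ℝ, T = (h : ℝ) ^ (4 / 3 : ℝ) := ⟨_, rfl⟩
  have hT0 : 0 < T := by
    rw [hTd]
    positivity
  have hhT : (h : ℝ) ≤ T := by
    rw [hTd]
    exact hT1 (by exact_mod_cast hh0)
  have hTm : T ≤ Lam * m k := by
    rw [hTd]
    calc (h : ℝ) ^ (4 / 3 : ℝ) ≤ (2 * (H * 2 ^ k)) ^ (4 / 3 : ℝ) := Real.rpow_le_rpow hh0.le hh2' (by norm_num)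
      _ = (2 * (H : ℝ)) ^ (4 / 3 : ℝ) * ((2 : ℝ) ^ k) ^ (4 / 3 : ℝ) := by
          rw [← mul_assoc, Real.mul_rpow (by positivity) h2k.le]
      _ = Lam * (cS * ((2 : ℝ) ^ k) ^ (4 / 3 : ℝ)) := by
          rw [hLam]
          field_simp
      _ ≤ _ := by
          gcongr
          exact (hS k).1
  have hmm : m k ≤ Ei * m q := by
    calc m k ≤ CS * ((2 : ℝ) ^ k) ^ (4 / 3 : ℝ) := (hS k).2
      _ = CS * (((2 : ℝ) ^ i) ^ (4 / 3 : ℝ) * ((2 : ℝ) ^ q) ^ (4 / 3 : ℝ)) := by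
          rw [← Real.mul_rpow (by positivity) (by positivity), ← pow_add, hqk, add_comm i q]
      _ ≤ CS * (4 ^ i * ((2 : ℝ) ^ q) ^ (4 / 3 : ℝ)) := by
          gcongr
          refine p43_le (by positivity) (by positivity) ?_
          rw [← pow_mul, ← pow_mul, mul_comm i 4, pow_mul, mul_comm i 3, pow_mul]
          exact pow_le_pow_left₀ (by norm_num) (by norm_num) i
      _ = Ei * (cS * ((2 : ℝ) ^ q) ^ (4 / 3 : ℝ)) := by
          rw [hEi]
          field_simp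
      _ ≤ _ := by
          gcongr
          exact (hS q).1
  have hmq1 : 1 / m q ≤ Ei / m k := by
    rw [div_le_div_iff₀ hmq hmk]
    linarith
  -- the first ends
  obtain ⟨W, hW⟩ : ∃ W, W = Wf (2 ^ q) (2 ^ (k + j)) := ⟨_, rfl⟩
  have hWm : ∀ w ∈ W, 2 ^ q ≤ w.1 ∧ w.1 ≤ 2 ^ (k + j) ∧ |w.2| ≤ ((2 ^ (k + j) : ℕ) : ℤ) ∧ Even (w.2 - w.1) := fun w hw => by
    rw [hW] at hw
    exact mem_Wf.1 hw
  have hmass : cE * (Ub k / m k) ≤ ∑ w ∈ W, gz (pt w.1 w.2) b := by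
    have h1 := (hE k b (by omega) (by omega) hb hb1 hb2).trans (box_le _ _ _)
    rw [ENNReal.ofReal_le_ofReal_iff (Finset.sum_nonneg fun w _ => gz_nonneg _ _)] at h1
    rw [hW, hq]
    exact h1
  have hch : ∀ w ∈ W, ∃ s : ℝ, 0 ≤ s ∧ s ≤ β * T ∧ s + lam * T / 4 ≤ 2 * β * T ∧ ∀ l : ℕ, Even l → s ≤ l →
      (l : ℝ) ≤ s + lam * T / 4 → κ * (uu h / (h * T)) ≤ gz (pt (h - w.1) (x - w.2)) l := by
    intro w hw
    obtain ⟨a1, a2, a3, a4⟩ := hWm w hw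
    have b1 : w.1 ≤ h := by omega
    have hwr : 2 * (w.1 : ℝ) ≤ h := by
      have : 2 * w.1 ≤ h := by omega
      exact_mod_cast this
    have hev : Even (x - w.2 - ((h - w.1 : ℕ) : ℤ)) := by
      rw [Int.even_iff] at hx a4 ⊢
      rw [Nat.cast_sub b1]
      omega
    have hcone : |((x - w.2 : ℤ) : ℝ)| ≤ (2 * R + 1) * ((h - w.1 : ℕ) : ℝ) := by
      have c1 : |(w.2 : ℝ)| ≤ (2 ^ (k + j) : ℕ) := by exact_mod_cast a3
      have c2 : 2 * ((2 ^ (k + j) : ℕ) : ℝ) ≤ h := by exact_mod_cast hjh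
      rw [Nat.cast_sub b1]
      push_cast
      rw [abs_le] at hRx c1 ⊢
      push_cast at c1 c2
      constructor <;> nlinarith
    have ht0 : t0 ≤ h - w.1 := by
      have c3 : 2 ^ k ≤ 2 ^ (k + j) := Nat.pow_le_pow_right (by norm_num) (by omega)
      have c4 : t0 ≤ k := by omega
      have c5 : 2 ^ (k + j) ≤ h - w.1 := by omega
      exact (c4.trans hkk.le).trans (c3.trans c5)
    obtain ⟨s, d1, d2, d3⟩ := hQI (h - w.1) (x - w.2) ht0 hev hcone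
    have e1 : ((h - w.1 : ℕ) : ℝ) ^ (4 / 3 : ℝ) ≤ T := by
      rw [hTd]
      exact Real.rpow_le_rpow (Nat.cast_nonneg _) (by exact_mod_cast Nat.sub_le _ _) (by norm_num)
    have e2 : 1 / 4 * T ≤ ((h - w.1 : ℕ) : ℝ) ^ (4 / 3 : ℝ) := by
      rw [hTd]
      exact half43 (by omega)
    have e3 : 0 < ((h - w.1 : ℕ) : ℝ) := by
      have : 0 < h - w.1 := by omega
      exact_mod_cast this
    have e4 : s + lam * T / 4 ≤ s + lam * ((h - w.1 : ℕ) : ℝ) ^ (4 / 3 : ℝ) := by nlinarith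
    have e5 : β * ((h - w.1 : ℕ) : ℝ) ^ (4 / 3 : ℝ) ≤ β * T := by gcongr
    have e6 : 0 < lam * T := by positivity
    have e7 : 0 < β * T := by positivity
    refine ⟨s, d1, by linarith, by nlinarith, fun l hl hl1 hl2 => ?_⟩
    refine le_trans ?_ (d3 l hl hl1 (by linarith))
    refine mul_le_mul_of_nonneg_left ?_ hκ.le
    refine div_le_div₀ (uu_pos _).le (uu_anti (Nat.sub_le _ _)) (by positivity) ?_
    exact mul_le_mul (by exact_mod_cast Nat.sub_le _ _) e1 (by positivity) hh0.le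
  choose! s hs using hch
  -- the cells
  obtain ⟨g, hg⟩ : ∃ g : ℝ, g = lam * T / 16 := ⟨_, rfl⟩
  have hg0 : 0 < g := by
    rw [hg]
    positivity
  have hWne : W.Nonempty := by
    rw [Finset.nonempty_iff_ne_empty]
    intro h0
    rw [h0, Finset.sum_empty] at hmass
    have : 0 < cE * (Ub k / m k) := by positivity
    linarith
  have hlb : lam ≤ 4 * β := by
    obtain ⟨w, hw⟩ := hWne
    obtain ⟨d1, d2, d3, -⟩ := hs w hw
    have e6 : lam * T / 4 ≤ 2 * β * T := by linarith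
    have e7 : lam * T ≤ (8 * β) * T := by linarith
    have e8 := le_of_mul_le_mul_right e7 hT0
    -- the sharper bound
    obtain ⟨a1, a2, a3, a4⟩ := hWm w hw
    obtain ⟨s', f1, f2, -⟩ := hQI (max t0 1) (max t0 1 : ℕ) (le_max_left _ _) (by simp) (by
      rw [Int.cast_natCast, Nat.abs_cast]
      have : (0 : ℝ) ≤ (max t0 1 : ℕ) := Nat.cast_nonneg _
      nlinarith)
    have f3 : (0 : ℝ) < ((max t0 1 : ℕ) : ℝ) ^ (4 / 3 : ℝ) := by
      have : (0 : ℝ) < ((max t0 1 : ℕ) : ℝ) := by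
        have : 0 < max t0 1 := lt_of_lt_of_le one_pos (le_max_right _ _)
        exact_mod_cast this
      positivity
    have f4 : lam * ((max t0 1 : ℕ) : ℝ) ^ (4 / 3 : ℝ) ≤ β * ((max t0 1 : ℕ) : ℝ) ^ (4 / 3 : ℝ) := by linarith
    have f5 := le_of_mul_le_mul_right f4 f3
    linarith
  have hlb' : lam ≤ β := by
    obtain ⟨s', f1, f2, -⟩ := hQI (max t0 1) (max t0 1 : ℕ) (le_max_left _ _) (by simp) (by
      rw [Int.cast_natCast, Nat.abs_cast]
      have : (0 : ℝ) ≤ (max t0 1 : ℕ) := Nat.cast_nonneg _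
      nlinarith)
    have f3 : (0 : ℝ) < ((max t0 1 : ℕ) : ℝ) ^ (4 / 3 : ℝ) := by
      have : (0 : ℝ) < ((max t0 1 : ℕ) : ℝ) := by
        have : 0 < max t0 1 := lt_of_lt_of_le one_pos (le_max_right _ _)
        exact_mod_cast this
      positivity
    have f4 : lam * ((max t0 1 : ℕ) : ℝ) ^ (4 / 3 : ℝ) ≤ β * ((max t0 1 : ℕ) : ℝ) ^ (4 / 3 : ℝ) := by linarith
    exact le_of_mul_le_mul_right f4 f3
  obtain ⟨J, hJd⟩ : ∃ J : ℕ, J = ⌊16 * β / lam⌋₊ := ⟨_, rfl⟩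
  have hJ1 : (J : ℝ) + 1 ≤ 17 * β / lam := by
    have h1 : (J : ℝ) ≤ 16 * β / lam := by
      rw [hJd]
      exact Nat.floor_le (by positivity)
    have h2 : 1 ≤ β / lam := by rwa [one_le_div hlam]
    have h3 : 17 * β / lam = 16 * β / lam + β / lam := by ring
    linarith
  have hmap : ∀ w ∈ W, ⌊s w / g⌋₊ ∈ range (J + 1) := by
    intro w hw
    obtain ⟨d1, d2, -⟩ := hs w hw
    rw [Finset.mem_range, Nat.lt_succ_iff, hJd]
    refine Nat.floor_le_floor ?_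
    rw [div_le_div_iff₀ hg0 hlam, hg]
    nlinarith
  obtain ⟨r, -, hr⟩ := Finset.exists_le_sum_fiber_of_maps_to_of_nsmul_le_sum hmap
    (b := cE * (Ub k / m k) / (J + 1)) ⟨0, Finset.mem_range.2 (by omega)⟩ (w := fun w => gz (pt w.1 w.2) b) (by
      rw [Finset.card_range, nsmul_eq_mul]
      push_cast
      rw [mul_div_cancel₀]
      · exact hmass
      · positivity)
  obtain ⟨V, hV⟩ : ∃ V : Finset (ℕ × ℤ), V = W.filter fun w => ⌊s w / g⌋₊ = r := ⟨_, rfl⟩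
  rw [← hV] at hr
  have hVm : ∀ w ∈ V, w ∈ W ∧ r * g ≤ s w ∧ s w < (r + 1) * g := by
    intro w hw
    rw [hV, Finset.mem_filter] at hw
    obtain ⟨h1, h2⟩ := hw
    have d1 := (hs w h1).1
    have h3 : 0 ≤ s w / g := by positivity
    have h4 := Nat.floor_le h3
    have h5 := Nat.lt_floor_add_one (s w / g)
    rw [h2] at h4 h5
    refine ⟨h1, ?_, ?_⟩
    · rwa [le_div_iff₀ hg0] at h4
    · rwa [div_lt_iff₀ hg0] at h5
  have hr2 : cE * lam / (17 * β) * (Ub k / m k) ≤ ∑ w ∈ V, gz (pt w.1 w.2) b := by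
    refine le_trans ?_ hr
    have h1 : cE * (Ub k / m k) / (17 * β / lam) ≤ cE * (Ub k / m k) / (J + 1) :=
      div_le_div_of_nonneg_left (by positivity) (by positivity) hJ1
    refine le_trans (le_of_eq ?_) h1
    field_simp
  have hVne : V.Nonempty := by
    rw [Finset.nonempty_iff_ne_empty]
    intro h0
    rw [h0, Finset.sum_empty] at hr2
    have : 0 < cE * lam / (17 * β) * (Ub k / m k) := by positivity
    linarith
  have hrg : (r + 4) * g ≤ 2 * β * T := by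
    obtain ⟨w, hw⟩ := hVne
    obtain ⟨h1, h2, h3⟩ := hVm w hw
    have h4 := (hs w h1).2.2.1
    have h5 : lam * T / 4 = 4 * g := by
      rw [hg]
      ring
    linarith
  -- the numbers of letters of the second part
  have hgg : 4 ≤ (r + 4) * g - (r + 1) * g := by
    have h1 : 64 / (3 * lam) ≤ h := by
      have h2 : ⌈64 / (3 * lam)⌉₊ ≤ h := by
        rw [← hn1]
        omega
      exact (Nat.le_ceil _).trans (by exact_mod_cast h2)
    rw [div_le_iff₀ (by positivity)] at h1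
    have h3 : (r + 4) * g - (r + 1) * g = 3 * (lam * T) / 16 := by
      rw [hg]
      ring
    rw [h3]
    have h4 : (h : ℝ) * lam ≤ T * lam := by gcongr
    linarith
  obtain ⟨F, hF, hFc⟩ := cnt_nat (u := (r + 1) * g) (v := (r + 4) * g) (by positivity) hgg
  have hFc' : 3 * (lam / 16) / 4 * T ≤ F.card := by
    refine le_trans (le_of_eq ?_) hFc
    rw [hg]
    ring
  have hbl : ∀ l ∈ F, l ≤ b ∧ (l : ℝ) ≤ 2 * β * Lam * m k := by
    intro l hl
    have h1 := (hF l hl).2.2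
    have h2 : (l : ℝ) ≤ 2 * β * Lam * m k := by
      calc (l : ℝ) ≤ 2 * β * T := h1.trans hrg
        _ ≤ 2 * β * (Lam * m k) := by gcongr
        _ = _ := by ring
    refine ⟨?_, h2⟩
    have h3 : 2 * β * Lam * m k ≤ a * m k := by
      refine mul_le_mul_of_nonneg_right ?_ hmk.le
      rw [le_div_iff₀ (by positivity)] at hβ0
      nlinarith
    have h4 : (l : ℝ) ≤ b := h2.trans (h3.trans hb1)
    exact_mod_cast h4
  -- the masses of the first part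
  have hfirst : ∀ l ∈ F, cE * lam / (34 * β) * (Ub k / m k) ≤ ∑ w ∈ V, gz (pt w.1 w.2) (b - l) := by
    intro l hl
    obtain ⟨l1, l2⟩ := hbl l hl
    have hev := (hF l hl).1
    have h1 := htv q b (b - l) V (by omega) hb ((Nat.even_sub l1).2 ⟨fun _ => hev, fun _ => hb⟩) (fun w hw => by
      obtain ⟨a1, -, -, a4⟩ := hWm w (hVm w hw).1
      exact ⟨a1, a4⟩)
    have h2 : |(b : ℝ) - ((b - l : ℕ) : ℝ)| = l := by
      rw [Nat.cast_sub l1, sub_sub_cancel, Nat.abs_cast]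
    rw [h2] at h1
    have h3 : CT * (Ub q / m q) * ((l : ℝ) / m q) ^ (1 / 16 : ℝ) ≤ cE * lam / (34 * β) * (Ub k / m k) := by
      have g1 : Ub q / m q ≤ Ei * (Ub k / m k) := by
        have f1 : Ub q ≤ Ub k := Num2Aux.UU_mono (Nat.pow_le_pow_right (by norm_num) (by omega))
        calc Ub q / m q = Ub q * (1 / m q) := by ring
          _ ≤ Ub k * (Ei / m k) := by gcongr
          _ = _ := by ring
      have g2 : ((l : ℝ) / m q) ^ (1 / 16 : ℝ) ≤ (2 * Lam * Ei) ^ (1 / 16 : ℝ) * β ^ (1 / 16 : ℝ) := by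
        rw [← Real.mul_rpow (by positivity) hβ.le]
        refine Real.rpow_le_rpow (by positivity) ?_ (by norm_num)
        calc (l : ℝ) / m q = l * (1 / m q) := by ring
          _ ≤ (2 * β * Lam * m k) * (Ei / m k) := by gcongr
          _ = _ := by
              field_simp
      have g3 : M * β ^ (1 / 16 : ℝ) ≤ lam / β := by
        rw [le_div_iff₀ hβ]
        refine le_trans (le_of_eq ?_) hML
        have : β ^ (17 / 16 : ℝ) = β ^ (1 / 16 : ℝ) * β := by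
          rw [show (17 / 16 : ℝ) = 1 / 16 + 1 by norm_num, Real.rpow_add hβ, Real.rpow_one]
        rw [this]
        ring
      calc CT * (Ub q / m q) * ((l : ℝ) / m q) ^ (1 / 16 : ℝ) ≤
          CT * (Ei * (Ub k / m k)) * ((2 * Lam * Ei) ^ (1 / 16 : ℝ) * β ^ (1 / 16 : ℝ)) := by gcongr
        _ = cE / 34 * (M * β ^ (1 / 16 : ℝ)) * (Ub k / m k) := by
            rw [hM]
            field_simp
        _ ≤ cE / 34 * (lam / β) * (Ub k / m k) := by gcongr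
        _ = _ := by
            field_simp
    have h4 : cE * lam / (17 * β) * (Ub k / m k) = 2 * (cE * lam / (34 * β) * (Ub k / m k)) := by
      field_simp
      norm_num
    linarith
  -- the first moment
  obtain ⟨E, hEd⟩ : ∃ E : ℝ, E = κ1 * (uu h / h) * (Ub k / m k) := ⟨_, rfl⟩
  have hE0 : 0 ≤ E := by
    rw [hEd]
    positivity
  have h1 := hcomb q h b x V (fun _ => F.image fun l => b - l) E hE0 hx (fun w hw => by
    obtain ⟨a1, a2, a3, a4⟩ := hWm w (hVm w hw).1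
    refine ⟨a1, by omega, a4, fun l hl => ?_⟩
    obtain ⟨l', -, rfl⟩ := Finset.mem_image.1 hl
    exact Nat.sub_le _ _) (by
    have h2 : ∀ w ∈ V, ∑ l ∈ F.image (fun l => b - l), gz (pt w.1 w.2) l * gz (pt (h - w.1) (x - w.2)) (b - l) =
        ∑ l ∈ F, gz (pt w.1 w.2) (b - l) * gz (pt (h - w.1) (x - w.2)) l := by
      intro w _
      rw [Finset.sum_image (fun l hl l' hl' he => by
        have e1 := (hbl l hl).1
        have e2 := (hbl l' hl').1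
        omega)]
      refine Finset.sum_congr rfl fun l hl => ?_
      have e1 := (hbl l hl).1
      rw [show b - (b - l) = l by omega]
    rw [Finset.sum_congr rfl h2, Finset.sum_comm]
    have h3 : ∀ l ∈ F, cE * lam / (34 * β) * (Ub k / m k) * (κ * (uu h / (h * T))) ≤
        ∑ w ∈ V, gz (pt w.1 w.2) (b - l) * gz (pt (h - w.1) (x - w.2)) l := by
      intro l hl
      refine le_trans (mul_le_mul_of_nonneg_right (hfirst l hl) (by positivity)) ?_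
      rw [Finset.sum_mul]
      refine Finset.sum_le_sum fun w hw => mul_le_mul_of_nonneg_left ?_ (gz_nonneg _ _)
      obtain ⟨a1, a2, a3⟩ := hVm w hw
      obtain ⟨e1, e2, e3⟩ := hF l hl
      refine (hs w a1).2.2.2 l e1 ?_ ?_
      · linarith
      · have h5 : lam * T / 4 = 4 * g := by
          rw [hg]
          ring
        linarith
    refine le_trans ?_ (Finset.card_nsmul_le_sum F _ _ h3)
    rw [nsmul_eq_mul]
    calc E = 3 * (lam / 16) / 4 * T * (cE * lam / (34 * β) * (Ub k / m k) * (κ * (uu h / (h * T)))) := by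
          rw [hEd, hκ1]
          field_simp
      _ ≤ _ := by gcongr)
  refine le_trans ?_ h1
  -- the numbers
  have hU := Num2Aux.UU_pos h
  have hUl : UU h ≤ (6 + CW) * (h * uu h) := UU_le_mul (by exact_mod_cast hh0)
  have hUkh : Ub k ≤ UU h := Num2Aux.UU_mono hkh
  have hUqk : Ub q ≤ Ub k := Num2Aux.UU_mono (Nat.pow_le_pow_right (by norm_num) (by omega))
  have h4k : (4 : ℝ) ^ k = 4 ^ q * 4 ^ i := by rw [hqk, pow_add]
  have hden : UU h * (Ub q ^ 2 / (4 ^ q * m q)) ≤ UU h * (Ub k ^ 2 * (4 ^ i * Ei) / (4 ^ k * m k)) := by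
    refine mul_le_mul_of_nonneg_left ?_ hU.le
    rw [div_le_div_iff₀ (by positivity) (by positivity), h4k]
    calc Ub q ^ 2 * (4 ^ q * 4 ^ i * m k) ≤ Ub k ^ 2 * (4 ^ q * 4 ^ i * (Ei * m q)) := by gcongr
      _ = _ := by ring
  have hEl : κ1 * (UU h / ((6 + CW) * h ^ 2)) * (Ub k / m k) ≤ E := by
    rw [hEd]
    refine mul_le_mul_of_nonneg_right (mul_le_mul_of_nonneg_left ?_ hκ10.le) (by positivity)
    rw [div_le_div_iff₀ (by positivity) hh0]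
    calc UU h * h ≤ (6 + CW) * (h * uu h) * h := by gcongr
      _ = _ := by ring
  have hh4 : (h : ℝ) ^ 4 ≤ 16 * (H : ℝ) ^ 4 * (4 ^ k * 4 ^ k) := by
    calc (h : ℝ) ^ 4 ≤ (2 * (H * 2 ^ k)) ^ 4 := by gcongr
      _ = 16 * (H : ℝ) ^ 4 * ((2 ^ k) ^ 4) := by ring
      _ = _ := by
          congr 1
          rw [← mul_pow, ← pow_mul, mul_comm k 4, pow_mul]
          norm_num
  have hpos : 0 < UU h * (Ub q ^ 2 / (4 ^ q * m q)) := by positivity
  calc c * (Ub k / (4 ^ k * m k)) ≤ c * (UU h / (4 ^ k * m k)) := by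
        have : 0 < c := by
          rw [hc]
          positivity
        gcongr
    _ = κ1 ^ 2 * UU h / ((6 + CW) ^ 2 * K * Ei * 4 ^ i * m k) * (4 ^ k / (16 * (H : ℝ) ^ 4 * (4 ^ k * 4 ^ k))) := by
        rw [hc]
        field_simp
    _ ≤ κ1 ^ 2 * UU h / ((6 + CW) ^ 2 * K * Ei * 4 ^ i * m k) * (4 ^ k / (h : ℝ) ^ 4) := by
        gcongr
    _ = (κ1 * (UU h / ((6 + CW) * h ^ 2)) * (Ub k / m k)) ^ 2 / (K * (UU h * (Ub k ^ 2 * (4 ^ i * Ei) / (4 ^ k * m k)))) := by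
        field_simp
    _ ≤ E ^ 2 / (K * (UU h * (Ub q ^ 2 / (4 ^ q * m q)))) := by
        refine div_le_div₀ (by positivity) (by gcongr) (by positivity) ?_
        exact mul_le_mul_of_nonneg_left hden hK.le

end LoW

end JNT

end HexObs
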