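import Pool.Agent.JNT.Col
import Pool.Agent.RSWP.DefsL
import Pool.Agent.RSWP.Peak

/-!
JNT, row N: the loss at the scale of the phase (NdB), from the short and the long bridges.
-/

set_option autoImplicit false

namespace HexObs

namespace JNT

open Finset TS RP

open scoped ENNReal

lemma gf_Brd_ne (h : ℕ) : gf (Brd h) ≠ ⊤ := by
  rw [gf_Brd, BT_eq_uu]
  exact ENNReal.ofReal_ne_top

lemma uu_gf (h : ℕ) : (gf (Brd h)).toReal = uu h := by
  rw [gf_Brd]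
  rfl

lemma EndB_sub (h : ℕ) (x : ℤ) : EndB h x ⊆ Brd h := fun _ ht => ht.1

/-- the bridges that end at the column x end at the same vertex -/
lemma EndB_en {h : ℕ} {x : ℤ} {s t : List Bool} (hs : s ∈ EndB h x) (ht : t ∈ EndB h x) : en s = en t := by
  have a := mem_Brd.1 hs.1
  have a0 := mem_Brd.1 ht.1
  unfold en
  apply xy_inj (v0 := oo) upd
  have o1 : ∀ p : Pt, p - oo = p := fun p => sub_zero p
  apply Prod.ext
  · show -(cross up (vx oo up s s.length - oo)) = -(cross up (vx oo up t t.length - oo))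
    rw [o1, o1]
    exact hs.2.trans ht.2.symm
  · show ip (vx oo up s s.length - oo) up = ip (vx oo up t t.length - oo) up
    rw [lev_sub, lev_sub, a.2.2.2, a0.2.2.2]

/-- one height -/
theorem one_h {Ca : ℝ} (hCa : 0 < Ca) (hanti : ∀ h : ℕ, 1 ≤ h → ∀ x : ℤ, gf {t | t ∈ Brd h ∧ latE t = x} ≤
    ENNReal.ofReal (Ca * (uu h / h))) {h : ℕ} (hh : 1 ≤ h) {θ a α c : ℝ} (hc : 0 < c) {P Q : Set (List Bool)}
    (hPQ : Disjoint P Q) (hP : ∀ t ∈ P, |θ| * t.length ≤ a)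
    (hQ : ∀ t ∈ Q, 2 * α ≤ |θ| * t.length ∧ |θ| * t.length ≤ 1) (hα : 0 ≤ α) (hα1 : α ≤ 1) (ha : a ≤ α ^ 2 / 8)
    (hS : ∀ x : ℤ, |x| ≤ h → Even (x - h) → c * (uu h / h) ≤ (gf (EndB h x ∩ P)).toReal)
    {φ : Pt → ℂ} (hφ : ∀ z, ‖φ z‖ ≤ 1) :
    ‖Fo θ (Brd h) φ‖ ≤ uu h - α ^ 2 / 8 * (min 1 (c / Ca) * (gf {Z | Z ∈ Brd h ∧ |latE Z| ≤ (h : ℤ) ∧ Z ∈ Q}).toReal) := by
  classical
  obtain ⟨κ, hκ⟩ : ∃ κ, κ = min 1 (c / Ca) := ⟨_, rfl⟩
  have hκ0 : 0 ≤ κ := by rw [hκ]; exact le_min one_pos.le (by positivity)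
  have hh0 : (0 : ℝ) < h := by exact_mod_cast hh
  obtain ⟨I, hI⟩ : ∃ I : Finset ℤ, I = Finset.Icc (-(h : ℤ)) h := ⟨_, rfl⟩
  obtain ⟨R, hR⟩ : ∃ R : Set (List Bool), R = {Z | Z ∈ Brd h ∧ ¬ |latE Z| ≤ (h : ℤ)} := ⟨_, rfl⟩
  obtain ⟨B, hB⟩ : ∃ B : Set (List Bool), B = ⋃ x ∈ I, EndB h x := ⟨_, rfl⟩
  have hmem : ∀ x : ℤ, x ∈ I ↔ |x| ≤ (h : ℤ) := fun x => by rw [hI, Finset.mem_Icc, abs_le]
  have hBm : ∀ t, t ∈ B ↔ t ∈ Brd h ∧ |latE t| ≤ (h : ℤ) := by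
    intro t
    rw [hB]
    simp only [Set.mem_iUnion, exists_prop]
    constructor
    · rintro ⟨x, hx, h1, h2⟩
      rw [h2]
      exact ⟨h1, (hmem x).1 hx⟩
    · rintro ⟨h1, h2⟩
      exact ⟨latE t, (hmem _).2 h2, h1, rfl⟩
  have hu : Brd h = B ∪ R := by
    ext t
    rw [Set.mem_union, hBm, hR]
    constructor
    · intro ht
      by_cases h1 : |latE t| ≤ (h : ℤ)
      · exact Or.inl ⟨ht, h1⟩
      · exact Or.inr ⟨ht, h1⟩
    · rintro (h1 | h1)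
      · exact h1.1
      · exact h1.1
  have hd : Disjoint B R := by
    rw [Set.disjoint_left]
    intro t h1 h2
    rw [hR] at h2
    exact h2.2 ((hBm t).1 h1).2
  have hne := gf_Brd_ne h
  have hBne : gf B ≠ ⊤ := ne_top_of_le_ne_top hne (gf_mono fun t ht => ((hBm t).1 ht).1)
  have hRne : gf R ≠ ⊤ := ne_top_of_le_ne_top hne (gf_mono fun t ht => by rw [hR] at ht; exact ht.1)
  have hEne : ∀ x, gf (EndB h x) ≠ ⊤ := fun x => ne_top_of_le_ne_top hne (gf_mono (EndB_sub h x))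
  have hdis : ∀ i ∈ I, ∀ j ∈ I, i ≠ j → Disjoint (EndB h i) (EndB h j) := by
    intro i _ j _ hij
    rw [Set.disjoint_left]
    intro t h1 h2
    exact hij (h1.2.symm.trans h2.2)
  have hmass : uu h = (∑ x ∈ I, (gf (EndB h x)).toReal) + (gf R).toReal := by
    rw [← uu_gf, hu, gf_union hd, ENNReal.toReal_add hBne hRne, hB, gf_biUnion I _ hdis, ENNReal.toReal_sum fun x _ => hEne x]
  have hF : Fo θ (Brd h) φ = (∑ x ∈ I, Fo θ (EndB h x) φ) + Fo θ R φ := by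
    rw [hu, Fo_union hBne hRne hd hφ, hB, Fo_biUnion I (fun x _ => hEne x) hdis hφ]
  have hcol : ∀ x ∈ I, ‖Fo θ (EndB h x) φ‖ ≤ (gf (EndB h x)).toReal -
      α ^ 2 / 8 * (κ * (gf (EndB h x ∩ Q)).toReal) := by
    intro x hx
    have hx' := (hmem x).1 hx
    have h1 := col (θ := θ) (a := a) (α := α) (D := EndB h x) (S := EndB h x ∩ P) (L := EndB h x ∩ Q) (φ := φ) (hEne x)
      Set.inter_subset_left Set.inter_subset_left (Set.disjoint_of_subset Set.inter_subset_right Set.inter_subset_right hPQ)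
      (fun s hs t ht => EndB_en hs ht) hφ (fun t ht => hP t ht.2) (fun t ht => hQ t ht.2) hα hα1 ha
    have h2 : κ * (gf (EndB h x ∩ Q)).toReal ≤ min (gf (EndB h x ∩ P)).toReal (gf (EndB h x ∩ Q)).toReal := by
      rcases Set.eq_empty_or_nonempty (EndB h x ∩ Q) with h0 | ⟨t0, ht0⟩
      · rw [h0]
        have h3 : gf (∅ : Set (List Bool)) = 0 := by
          unfold gf
          simp
        rw [h3, ENNReal.toReal_zero, mul_zero]
        exact le_min ENNReal.toReal_nonneg le_rfl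
      · have hpar : Even (x - h) := by
          have h3 := latE_even ht0.1.1
          rwa [ht0.1.2] at h3
        have h3 := hS x hx' hpar
        have h4 : (gf (EndB h x ∩ Q)).toReal ≤ Ca * (uu h / h) := by
          have h5 : gf (EndB h x ∩ Q) ≤ ENNReal.ofReal (Ca * (uu h / h)) :=
            (gf_mono Set.inter_subset_left).trans (hanti h hh x)
          exact ENNReal.toReal_le_of_le_ofReal (by have := (uu_pos h).le; positivity) h5
        refine le_min ?_ ?_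
        · calc κ * (gf (EndB h x ∩ Q)).toReal ≤ c / Ca * (Ca * (uu h / h)) := by
                refine mul_le_mul ?_ h4 ENNReal.toReal_nonneg (by positivity)
                rw [hκ]
                exact min_le_right _ _
            _ = c * (uu h / h) := by field_simp
            _ ≤ _ := h3
        · have h5 : κ ≤ 1 := by rw [hκ]; exact min_le_left _ _
          calc κ * (gf (EndB h x ∩ Q)).toReal ≤ 1 * (gf (EndB h x ∩ Q)).toReal :=
                mul_le_mul_of_nonneg_right h5 ENNReal.toReal_nonneg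
            _ = _ := one_mul _
    have h3 : α ^ 2 / 8 * (κ * (gf (EndB h x ∩ Q)).toReal) ≤
        α ^ 2 / 8 * min (gf (EndB h x ∩ P)).toReal (gf (EndB h x ∩ Q)).toReal :=
      mul_le_mul_of_nonneg_left h2 (by positivity)
    linarith
  have hQs : (gf {Z | Z ∈ Brd h ∧ |latE Z| ≤ (h : ℤ) ∧ Z ∈ Q}).toReal = ∑ x ∈ I, (gf (EndB h x ∩ Q)).toReal := by
    have e : {Z | Z ∈ Brd h ∧ |latE Z| ≤ (h : ℤ) ∧ Z ∈ Q} = ⋃ x ∈ I, (EndB h x ∩ Q) := by
      ext t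
      simp only [Set.mem_iUnion, exists_prop, Set.mem_ofPred_eq, Set.mem_inter_iff]
      constructor
      · rintro ⟨h1, h2, h3⟩
        exact ⟨latE t, (hmem _).2 h2, ⟨h1, rfl⟩, h3⟩
      · rintro ⟨x, hx, ⟨h1, h2⟩, h3⟩
        rw [h2]
        exact ⟨h1, (hmem x).1 hx, h3⟩
    rw [e, gf_biUnion I _ fun i hi j hj hij => Set.disjoint_of_subset Set.inter_subset_left Set.inter_subset_left
      (hdis i hi j hj hij), ENNReal.toReal_sum fun x _ => ne_top_of_le_ne_top (hEne x) (gf_mono Set.inter_subset_left)]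
  rw [hF, ← hκ, hQs]
  refine (norm_add_le _ _).trans ((add_le_add (norm_sum_le_of_le I hcol) (NB_gf hRne φ hφ)).trans ?_)
  rw [hmass, Finset.sum_sub_distrib, ← Finset.mul_sum, ← Finset.mul_sum]
  linarith

/-- **row N** -/
theorem ndB_of {m : ℕ → ℝ} (hm : NTA.MLow m) (hu : NTA.MUp m) (hS : ShortB m) (hL : LongB m) : NdB m := by
  obtain ⟨y, A, c1, k1, hy, hyA, hc1, hL⟩ := hL
  obtain ⟨Cm, hCm, hu⟩ := hu
  obtain ⟨Ca, hCa, hanti⟩ := anti_end
  have hA : 0 < A := hy.trans_le hyA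
  -- the scale C
  obtain ⟨C, hC⟩ : ∃ C : ℕ, A ≤ (2 : ℝ) ^ (5 / 4 * (C : ℝ)) := by
    obtain ⟨n, hn⟩ := exists_nat_gt A
    refine ⟨n, hn.le.trans ?_⟩
    have h1 : (n : ℝ) ≤ (2 : ℝ) ^ (n : ℝ) := by
      rw [Real.rpow_natCast]
      exact_mod_cast Nat.lt_two_pow_self.le
    refine h1.trans (Real.rpow_le_rpow_of_exponent_le (by norm_num) ?_)
    have : (0 : ℝ) ≤ n := Nat.cast_nonneg n
    linarith
  have hup : ∀ k j : ℕ, m (k + j) ≤ Cm ^ j * m k := by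
    intro k j
    induction j with
    | zero => simp
    | succ j ih =>
      have h1 := hu (k + j)
      calc m (k + (j + 1)) ≤ Cm * m (k + j) := h1
        _ ≤ Cm * (Cm ^ j * m k) := mul_le_mul_of_nonneg_left ih (by linarith)
        _ = _ := by rw [pow_succ]; ring
  have hCm0 : 0 < Cm := by linarith
  -- the phases
  obtain ⟨α, hα⟩ : ∃ α : ℝ, α = min 1 (y / Cm ^ (C + 1) / 2) := ⟨_, rfl⟩
  have hα0 : 0 < α := by rw [hα]; exact lt_min one_pos (by positivity)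
  have hα1 : α ≤ 1 := by rw [hα]; exact min_le_left _ _
  have hα2 : 2 * α ≤ y / Cm ^ (C + 1) := by
    have : α ≤ y / Cm ^ (C + 1) / 2 := by rw [hα]; exact min_le_right _ _
    linarith
  obtain ⟨a, ha⟩ : ∃ a : ℝ, a = min (α ^ 2 / 8) (y / 2) := ⟨_, rfl⟩
  have ha0 : 0 < a := by rw [ha]; exact lt_min (by positivity) (by positivity)
  have ha1 : a ≤ α ^ 2 / 8 := by rw [ha]; exact min_le_left _ _
  have ha2 : a ≤ y / 2 := by rw [ha]; exact min_le_right _ _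
  obtain ⟨c, k2, hc, hS⟩ := hS a ha0
  refine ⟨C, max k1 k2, α ^ 2 / 8 * (min 1 (c / Ca) * c1), by positivity, ?_⟩
  intro k θ hk hθ1 hθ2 φ hφ
  have hmk := hm.pos k
  have hkC : m k ≤ m (k + C) := by
    have h1 := hm.low k C
    have h2 : (1 : ℝ) ≤ (2 : ℝ) ^ (5 / 4 * (C : ℝ)) := Real.one_le_rpow (by norm_num) (by positivity)
    nlinarith
  have hkA : A * m k ≤ m (k + C) := (mul_le_mul_of_nonneg_right hC hmk.le).trans (hm.low k C)
  obtain ⟨P, hP⟩ : ∃ P : Set (List Bool), P = {t | (t.length : ℝ) ≤ a * m k} := ⟨_, rfl⟩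
  obtain ⟨Q, hQ⟩ : ∃ Q : Set (List Bool), Q = {t | y * m k ≤ (t.length : ℝ) ∧ (t.length : ℝ) ≤ A * m k} := ⟨_, rfl⟩
  have hPQ : Disjoint P Q := by
    rw [Set.disjoint_left, hP, hQ]
    rintro t h1 ⟨h2, -⟩
    have h3 : y * m k ≤ a * m k := h2.trans h1
    have h4 : y ≤ a := le_of_mul_le_mul_right h3 hmk
    linarith
  have hPθ : ∀ t ∈ P, |θ| * t.length ≤ a := by
    intro t ht
    rw [hP] at ht
    calc |θ| * t.length ≤ |θ| * (a * m k) := mul_le_mul_of_nonneg_left ht (abs_nonneg θ)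
      _ = a * (|θ| * m k) := by ring
      _ ≤ a * (|θ| * m (k + C)) := mul_le_mul_of_nonneg_left (mul_le_mul_of_nonneg_left hkC (abs_nonneg θ)) ha0.le
      _ ≤ a * 1 := mul_le_mul_of_nonneg_left hθ2 ha0.le
      _ = a := mul_one a
  have hQθ : ∀ t ∈ Q, 2 * α ≤ |θ| * t.length ∧ |θ| * t.length ≤ 1 := by
    intro t ht
    rw [hQ] at ht
    obtain ⟨h1, h2⟩ := ht
    constructor
    · have h3 : 1 ≤ |θ| * (Cm ^ (C + 1) * m k) :=
        hθ1.trans (mul_le_mul_of_nonneg_left (hup k (C + 1)) (abs_nonneg θ))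
      have h4 : y / Cm ^ (C + 1) ≤ |θ| * (y * m k) := by
        rw [div_le_iff₀ (by positivity)]
        calc y = y * 1 := (mul_one y).symm
          _ ≤ y * (|θ| * (Cm ^ (C + 1) * m k)) := mul_le_mul_of_nonneg_left h3 hy.le
          _ = _ := by ring
      exact hα2.trans (h4.trans (mul_le_mul_of_nonneg_left h1 (abs_nonneg θ)))
    · calc |θ| * t.length ≤ |θ| * (A * m k) := mul_le_mul_of_nonneg_left h2 (abs_nonneg θ)
        _ ≤ |θ| * m (k + C) := mul_le_mul_of_nonneg_left hkA (abs_nonneg θ)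
        _ ≤ 1 := hθ2
  have hone : ∀ h ∈ Ico (2 ^ k) (2 ^ (k + 1)), ‖Fo θ (Brd h) (φ h)‖ ≤ uu h - α ^ 2 / 8 * (min 1 (c / Ca) *
      (gf {Z | Z ∈ Brd h ∧ |latE Z| ≤ (h : ℤ) ∧ Z ∈ Q}).toReal) := by
    intro h hh
    rw [Finset.mem_Ico] at hh
    have hh1 : 1 ≤ h := le_trans Nat.one_le_two_pow hh.1
    refine one_h hCa hanti hh1 hc hPQ hPθ hQθ hα0.le hα1 ha1 ?_ (hφ h)
    intro x hx hpar
    have h1 := hS k h x (le_trans (le_max_right _ _) hk) hh.1 hh.2.le hpar hx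
    have h2 : {Z | Z ∈ Brd h ∧ latE Z = x ∧ (Z.length : ℝ) ≤ a * m k} = EndB h x ∩ P := by
      ext t
      rw [hP]
      exact ⟨fun h3 => ⟨⟨h3.1, h3.2.1⟩, h3.2.2⟩, fun h3 => ⟨h3.1.1, h3.1.2, h3.2⟩⟩
    rw [h2] at h1
    exact (ENNReal.ofReal_le_iff_le_toReal (ne_top_of_le_ne_top (gf_Brd_ne h)
      (gf_mono (Set.inter_subset_left.trans (EndB_sub h x))))).1 h1
  refine (Finset.sum_le_sum hone).trans ?_
  rw [Finset.sum_sub_distrib, ← Finset.mul_sum, ← Finset.mul_sum]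
  have h1 := hL k (le_trans (le_max_left _ _) hk)
  have h2 : ∀ h ∈ Ico (2 ^ k) (2 ^ (k + 1)), gf {Z | Z ∈ Brd h ∧ |latE Z| ≤ (h : ℤ) ∧ Z ∈ Q} ≠ ⊤ := fun h _ =>
    ne_top_of_le_ne_top (gf_Brd_ne h) (gf_mono fun t ht => ht.1)
  have h3 : c1 * Ub k ≤ ∑ h ∈ Ico (2 ^ k) (2 ^ (k + 1)), (gf {Z | Z ∈ Brd h ∧ |latE Z| ≤ (h : ℤ) ∧ Z ∈ Q}).toReal := by
    rw [← ENNReal.toReal_sum h2]
    refine (ENNReal.ofReal_le_iff_le_toReal (ENNReal.sum_ne_top.2 h2)).1 (h1.trans (le_of_eq ?_))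
    refine Finset.sum_congr rfl fun h _ => ?_
    rw [hQ]
    rfl
  have h4 := mul_le_mul_of_nonneg_left (mul_le_mul_of_nonneg_left h3
    (show 0 ≤ min 1 (c / Ca) from le_min one_pos.le (by positivity))) (show 0 ≤ α ^ 2 / 8 by positivity)
  have h5 : α ^ 2 / 8 * (min 1 (c / Ca) * (c1 * Ub k)) = α ^ 2 / 8 * (min 1 (c / Ca) * c1) * Ub k := by ring
  linarith

end JNT

end HexObs
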