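import Pool.Agent.JNT.ExactL
import Pool.Agent.FIS.FishUp

/-!
JNT (pointwise tail): out of the box of the scale k + i, exactly n letters, with the label.
-/

set_option autoImplicit false

namespace HexObs

namespace JNT

namespace OB

open Finset TS SDN NTW NTA EN FIS

open scoped ENNReal

variable {Λ : Type} {lab : List Bool → Λ}

/-- **out of the box of the scale k + i, exactly n letters** -/
theorem out_boxL {m w : ℕ → ℝ} (hlo : ∃ c : ℝ, 0 < c ∧ ∀ k : ℕ, c * (2 : ℝ) ^ (4 / 3 * (k : ℝ)) ≤ m k)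
    (hup : ∃ C : ℝ, ∀ k : ℕ, m k ≤ C * (2 : ℝ) ^ (4 / 3 * (k : ℝ))) (hm : MLow m) (hwp : ∀ k, 0 < w k)
    (hwm : Monotone w) (hd : MUp w) (hwb : ∃ b : ℕ, ∀ k, w k ≤ 2 ^ (b * (k + 1)) * m k) (hA : ASm m) {J0 : ℕ}
    (hG : GBmL lab w J0) (hE : ExsL lab) (hX : EXTL lab m w) : OutL lab m w := by
  classical
  obtain ⟨b, hwb⟩ := hwb
  obtain ⟨B, c3, c2, hlos⟩ : ∃ B c3 c2 : ℕ, ∀ (k i n : ℕ), c3 ≤ i → 3 * i + c2 ≤ k → (n : ℝ) < m (k + 1) →
      gf {t | t ∈ SAL n ∧ T2.Ext (k + i) t} ≤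
        ENNReal.ofReal (2 ^ (B * (k + 1)) * (1 / 2) ^ (2 ^ (4 * i - c3))) * (ENNReal.ofReal (Ub k / w k) * Xb k ^ 2) := by
    obtain ⟨B, c3, c2, h⟩ := lossy hlo hup hA
    refine ⟨B + b, c3, c2, fun k i n h1 h2 h3 => (h k i n h1 h2 h3).trans ?_⟩
    have hmk := hm.pos k
    have hwk := hwp k
    have hU := Ub_pos k
    unfold nuX
    rw [← mul_assoc, ← mul_assoc, ← ENNReal.ofReal_mul (by positivity), ← ENNReal.ofReal_mul (by positivity)]
    refine mul_le_mul_left (ENNReal.ofReal_le_ofReal ?_) _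
    have e1 : 1 / m k ≤ 2 ^ (b * (k + 1)) / w k := by
      rw [div_le_div_iff₀ hmk hwk, one_mul]
      exact hwb k
    calc (2 : ℝ) ^ (B * (k + 1)) * (1 / 2) ^ (2 ^ (4 * i - c3)) * (Ub k / m k)
        = 2 ^ (B * (k + 1)) * (1 / 2) ^ (2 ^ (4 * i - c3)) * Ub k * (1 / m k) := by ring
      _ ≤ 2 ^ (B * (k + 1)) * (1 / 2) ^ (2 ^ (4 * i - c3)) * Ub k * (2 ^ (b * (k + 1)) / w k) := by gcongr
      _ = _ := by
          rw [add_mul, pow_add]
          ring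
  obtain ⟨r0, hr0⟩ : ∃ r0, r0 = c3 + 6 + B := ⟨_, rfl⟩
  obtain ⟨A, c8, i1, hA1, hex⟩ := exact_L hlo hup hm hwp hwm hd hA hG hE hX r0
  have hA0 : 0 < A := by linarith
  have hexV : ∀ (k i n : ℕ) (a : Λ), i1 ≤ i → 2 ^ (4 * i - r0) ≤ k → 3 * i + i1 ≤ k → m k ≤ n → (n : ℝ) < m (k + 1) →
      gf {t | (lab t = a ∧ t.length = n) ∧ t ∈ WL (k + i) ∧ t ∉ WL (k + i - 1)} ≤
        ENNReal.ofReal (A * (1 / 2) ^ (2 ^ (4 * i - c8))) * (ENNReal.ofReal (Ub k / w k) * Xb k ^ 2) := by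
    intro k i n a g1 g2 g3 g4 g5
    have h := hex k i n a g1 g2 g3 g4 g5
    rwa [ENNReal.ofReal_mul (by positivity), mul_assoc] at h
  obtain ⟨i0, hi0⟩ : ∃ i0, i0 = i1 + c2 + c3 + c8 + r0 + 1 := ⟨_, rfl⟩
  obtain ⟨c9, hc9⟩ : ∃ c9, c9 = c8 + c3 + 1 := ⟨_, rfl⟩
  refine ⟨A + 1, c9, i0, by linarith, fun k i n a hi hk hn1 hn2 => ?_⟩
  -- the first bad shell
  have hbad : ∃ j, i < j ∧ k < 2 ^ (4 * j - r0) := by
    refine ⟨k + i + 1 + r0, by omega, ?_⟩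
    calc k < 2 ^ k := Nat.lt_two_pow_self
      _ ≤ 2 ^ (4 * (k + i + 1 + r0) - r0) := Nat.pow_le_pow_right (by norm_num) (by omega)
  obtain ⟨f, hf⟩ : ∃ f, f = Nat.find hbad := ⟨_, rfl⟩
  have hf1 : i < f ∧ k < 2 ^ (4 * f - r0) := by
    rw [hf]
    exact Nat.find_spec hbad
  have hf2 : ∀ j, i < j → j < f → 2 ^ (4 * j - r0) ≤ k := by
    intro j h1 h2
    by_contra hc
    exact Nat.find_min hbad (by rwa [← hf]) ⟨h1, not_le.1 hc⟩
  obtain ⟨e, he⟩ : ∃ e, e = f - 1 := ⟨_, rfl⟩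
  have hek : 3 * e + i0 ≤ k := by
    rcases Nat.eq_or_lt_of_le (show i ≤ e by omega) with h | h
    · rw [← h]
      exact hk
    · have h1 := hf2 e h (by omega)
      have h2 : i0 + 3 * e ≤ 2 ^ (4 * e - r0) := lin_le' (by omega) (by omega)
      omega
  have h1 := hlos k e n (by omega) (by omega) hn2
  rw [ENNReal.ofReal_mul (by positivity), mul_assoc]
  obtain ⟨V, hV⟩ : ∃ V : ℝ≥0∞, V = ENNReal.ofReal (Ub k / w k) * Xb k ^ 2 := ⟨_, rfl⟩
  rw [← hV]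
  rw [← hV] at h1
  obtain ⟨Y, hY⟩ : ∃ Y : ℝ, Y = (1 / 2) ^ (2 ^ (4 * i - c9)) := ⟨_, rfl⟩
  have hY0 : 0 < Y := by rw [hY]; positivity
  rw [← hY]
  have h2 : (2 : ℝ) ^ (B * (k + 1)) * (1 / 2) ^ (2 ^ (4 * e - c3)) ≤ Y := by
    have e1 : B * (k + 1) ≤ 2 ^ (4 * e - (c3 + 1)) := by
      have e2 : k + 1 ≤ 2 * 2 ^ (4 * f - r0) := by
        have := hf1.2
        have h3 : 1 ≤ 2 ^ (4 * f - r0) := Nat.one_le_two_pow
        omega
      calc B * (k + 1) ≤ 2 ^ B * (2 * 2 ^ (4 * f - r0)) := Nat.mul_le_mul Nat.lt_two_pow_self.le e2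
        _ = 2 ^ (B + 1 + (4 * f - r0)) := by
            rw [pow_add, pow_add, pow_one]
            ring
        _ ≤ 2 ^ (4 * e - (c3 + 1)) := Nat.pow_le_pow_right (by norm_num) (by omega)
    have e3 : 2 ^ (4 * e - c3) = 2 ^ (4 * e - (c3 + 1)) + 2 ^ (4 * e - (c3 + 1)) := by
      rw [← two_mul, ← pow_succ']
      congr 1
      omega
    calc (2 : ℝ) ^ (B * (k + 1)) * (1 / 2) ^ (2 ^ (4 * e - c3))
        ≤ 2 ^ (2 ^ (4 * e - (c3 + 1))) * (1 / 2) ^ (2 ^ (4 * e - c3)) :=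
          mul_le_mul_of_nonneg_right (pow_le_pow_right₀ (by norm_num) e1) (by positivity)
      _ = (1 / 2) ^ (2 ^ (4 * e - (c3 + 1))) := by
          rw [e3, pow_add, ← mul_assoc, ← mul_pow, show (2 : ℝ) * (1 / 2) = 1 by norm_num, one_pow, one_mul]
      _ ≤ Y := by
          rw [hY]
          exact pow_le_pow_of_le_one (by norm_num) (by norm_num) (Nat.pow_le_pow_right (by norm_num) (by omega))
  -- the covering
  have hsub : {t | lab t = a ∧ t ∈ SawN n ∧ t ∉ WL (k + i)} ⊆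
      (⋃ j : ℕ, {t | 2 ^ (4 * (i + 1 + j) - r0) ≤ k ∧ (lab t = a ∧ t.length = n) ∧ t ∈ WL (k + (i + 1 + j)) ∧
        t ∉ WL (k + (i + 1 + j) - 1)}) ∪
      {t | t ∈ SAL n ∧ T2.Ext (k + e) t} := by
    rintro t ⟨hla, ⟨ht, hs⟩, hout⟩
    have hex := exists_WL (t := t) hs
    have h3 := Nat.find_spec hex
    have h5 : k + i < Nat.find hex := by
      by_contra hc
      exact hout (WL_mono (by omega) h3)
    have h6 : t ∉ WL (Nat.find hex - 1) := Nat.find_min hex (by omega)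
    obtain ⟨j, hj⟩ : ∃ j, j = Nat.find hex - k - i - 1 := ⟨_, rfl⟩
    rcases Nat.lt_or_ge (i + 1 + j) f with h7 | h7
    · left
      rw [Set.mem_iUnion]
      refine ⟨j, hf2 _ (by omega) h7, ⟨hla, ht⟩, ?_, ?_⟩
      · rw [show k + (i + 1 + j) = Nat.find hex by omega]
        exact h3
      · rw [show k + (i + 1 + j) - 1 = Nat.find hex - 1 by omega]
        exact h6
    · right
      refine ⟨⟨hs, ht.le⟩, ?_⟩
      have h8 : t ∉ WL (k + e) := fun h => h6 (WL_mono (by omega) h)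
      have h9 : ∃ n, n ≤ t.length ∧ ∃ dir, 2 ^ (k + e) < |row dir (vx oo up t n)| := by
        by_contra hc
        push Not at hc
        exact h8 ⟨hs, hc⟩
      obtain ⟨x, h10, dir, h11⟩ := h9
      exact ⟨x, h10, dir, h11.le⟩
  have h3 : ∀ j : ℕ, gf {t | 2 ^ (4 * (i + 1 + j) - r0) ≤ k ∧ (lab t = a ∧ t.length = n) ∧ t ∈ WL (k + (i + 1 + j)) ∧
      t ∉ WL (k + (i + 1 + j) - 1)} ≤ ENNReal.ofReal (A * Y * (1 / 2 / 2 ^ j)) * V := by
    intro j
    by_cases hj : 2 ^ (4 * (i + 1 + j) - r0) ≤ k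
    · have h4 : i0 + 3 * (i + 1 + j) ≤ 2 ^ (4 * (i + 1 + j) - r0) := lin_le' (by omega) (by omega)
      have h5 := hexV k (i + 1 + j) n a (by omega) hj (by omega) hn1 hn2
      rw [← hV] at h5
      refine (gf_mono fun t ht => ht.2).trans (h5.trans (mul_le_mul_left (ENNReal.ofReal_le_ofReal ?_) _))
      have h6 : 2 ^ (4 * i - c9) + (j + 1) ≤ 2 ^ (4 * (i + 1 + j) - c8) := by
        have a1 : 2 ^ (4 * i - c9) ≤ 2 ^ (4 * i - c8) := Nat.pow_le_pow_right (by norm_num) (by omega)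
        have a2 : 2 ^ (4 * (i + 1 + j) - c8) = 2 ^ (4 * i - c8) * 2 ^ (4 * (j + 1)) := by
          rw [← pow_add]
          congr 1
          omega
        have a3 : j + 1 + 1 ≤ 2 ^ (4 * (j + 1)) := by
          calc j + 1 + 1 ≤ 2 ^ (j + 1) := Nat.lt_two_pow_self
            _ ≤ 2 ^ (4 * (j + 1)) := Nat.pow_le_pow_right (by norm_num) (by omega)
        have a4 : 1 ≤ 2 ^ (4 * i - c8) := Nat.one_le_two_pow
        rw [a2]
        nlinarith
      calc A * (1 / 2) ^ (2 ^ (4 * (i + 1 + j) - c8)) ≤ A * (1 / 2) ^ (2 ^ (4 * i - c9) + (j + 1)) :=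
            mul_le_mul_of_nonneg_left (pow_le_pow_of_le_one (by norm_num) (by norm_num) h6) hA0.le
        _ = A * Y * (1 / 2 / 2 ^ j) := by
            rw [pow_add, ← hY, pow_succ, one_div_pow]
            ring
    · refine le_trans (gf_mono (Q := ∅) ?_) (le_trans (le_of_eq gf_empty) zero_le)
      rintro t ⟨h, -⟩
      exact absurd h hj
  refine (gf_mono hsub).trans ((gf_union_le _ _).trans ?_)
  rw [add_mul, one_mul, ENNReal.ofReal_add (by positivity) hY0.le, add_mul]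
  refine add_le_add ?_ (h1.trans (mul_le_mul_left (ENNReal.ofReal_le_ofReal h2) _))
  refine (Crw.gf_iUnion_le _).trans ((ENNReal.tsum_le_tsum h3).trans ?_)
  rw [ENNReal.tsum_mul_right]
  refine mul_le_mul_left ?_ _
  rw [← ENNReal.ofReal_tsum_of_nonneg (fun j => by positivity) ((summable_geometric_two' 1).mul_left _)]
  refine ENNReal.ofReal_le_ofReal (le_of_eq ?_)
  rw [tsum_mul_left, tsum_geometric_two', mul_one]

end OB

end JNT

end HexObs
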