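import Pool.Agent.JNT.Ph
import Pool.Agent.SIM.Cut1Sum

/-!
JNT, row C1: one bridge with a middle structure, given displacement and number of letters: average over the pieces of the
middle, bound by the pairs of bridges (helper59).
-/

set_option autoImplicit false

namespace HexObs

namespace JNT

open Finset TS

open scoped ENNReal

/-- three bridges of heights between n and N -/
def MidS (n N : ℕ) : Set (List Bool) := {G | ∃ (G1 H G2 : List Bool) (h1 h h2 : ℕ), G = G1 ++ (H ++ G2) ∧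
  G1 ∈ Brd h1 ∧ H ∈ Brd h ∧ G2 ∈ Brd h2 ∧ (n ≤ h1 ∧ h1 ≤ N) ∧ (n ≤ h ∧ h ≤ N) ∧ n ≤ h2 ∧ h2 ≤ N}

lemma midS_cut {n N : ℕ} {A G B : List Bool} (hA : A ∈ BU) (hG : G ∈ MidS n N) (hB : B ∈ BU) :
    SIM.Cut1 (HB n) (HB n) n N (A ++ (G ++ B)) := by
  obtain ⟨G1, H, G2, h1, h, h2, rfl, b1, b2, b3, b4, b5, b6, b7⟩ := hG
  obtain ⟨a, ha⟩ := hA
  obtain ⟨c, hc⟩ := hB
  refine ⟨A ++ G1, H, G2 ++ B, h, by simp only [List.append_assoc], b2, b5.1, b5.2, ?_, ?_⟩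
  · rintro X Y ⟨x, hx⟩ - -
    exact ⟨a + h1 + x, by omega, Brd_append (Brd_append ha b1) hx⟩
  · rintro X Y - ⟨y, hy⟩ -
    exact ⟨y + (h2 + c), by omega, Brd_append hy (Brd_append b3 hc)⟩

open scoped Classical in
/-- **one bridge with a middle structure** -/
theorem pair_cut : ∃ C : ℝ, 1 ≤ C ∧ ∀ (E : Set (List Bool)) (n b0 b : ℕ) (v : Pt) (x : ℝ≥0∞), 1 ≤ n →
    (∀ t ∈ E, SIM.Cut1 (HB n) (HB n) n (2 ^ b0) t ∧ en t = v ∧ t.length = b) →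
    (∀ (v' : Pt) (b' : ℕ), pairs n v' b' ≤ x) → gf E ≤ ENNReal.ofReal (C * (2 ^ b0 / (n * Ub b0))) * x := by
  obtain ⟨K, hK, hP⟩ := SIM.piece_mass
  refine ⟨K, hK, fun E n b0 b v x hn hE hx => ?_⟩
  have hU := Ub_pos b0
  have hn0 : (0 : ℝ) < n := by exact_mod_cast hn
  obtain ⟨p, hp⟩ : ∃ p : List Bool → ℝ≥0∞, p = fun P => if P ∈ IU ∧ hgt P ≤ 2 ^ b0 then wE P * (hgt P : ℝ≥0∞) else 0 :=
    ⟨_, rfl⟩
  have h1 : (n : ℝ≥0∞) * gf E ≤ ∑' P : List Bool, p P * x := by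
    refine (SIM.cut1_master fun t ht => (hE t ht).1).trans ?_
    refine ENNReal.tsum_le_tsum fun P => ?_
    by_cases hc : P ∈ IU ∧ hgt P ≤ 2 ^ b0
    · have e1 : p P = wE P * (hgt P : ℝ≥0∞) := by rw [hp]; exact if_pos hc
      have hPB : P ∈ BU := SIM.CS.IUB hc.1
      rw [e1]
      refine le_trans ?_ (mul_le_mul' le_rfl (hx (v - en P) (b - P.length)))
      unfold pairs
      rw [ENNReal.tsum_comm, ← ENNReal.tsum_mul_left]
      refine ENNReal.tsum_le_tsum fun L => ?_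
      rw [← ENNReal.tsum_mul_left]
      refine ENNReal.tsum_le_tsum fun R => ?_
      by_cases hd : (L ∈ HB n ∧ R ∈ HB n ∧ P ∈ IU ∧ hgt P ≤ 2 ^ b0) ∧ L ++ (P ++ R) ∈ E
      · obtain ⟨-, h3, h4⟩ := hE _ hd.2
        have hLB : L ∈ BU := by
          obtain ⟨h, -, hL⟩ := hd.1.1
          exact ⟨h, hL⟩
        rw [en_app hLB, en_app hPB] at h3
        rw [List.length_append, List.length_append] at h4
        have e5 : en L + en R = v - en P := by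
          rw [← h3]
          abel
        rw [if_pos hd, if_pos ⟨hd.1.1, hd.1.2.1, e5, by omega⟩]
        refine le_of_eq ?_
        ring
      · rw [if_neg hd]
        exact zero_le
    · refine le_trans (le_of_eq (ENNReal.tsum_eq_zero.2 fun R => ENNReal.tsum_eq_zero.2 fun L => if_neg ?_)) zero_le
      rintro ⟨h2, -⟩
      exact hc ⟨h2.2.2.1, h2.2.2.2⟩
  have h3 : ∑' P, p P ≤ ENNReal.ofReal (K * 2 ^ b0 / Ub b0) := by
    rw [hp]
    exact hP b0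
  have hn1 : (n : ℝ≥0∞) ≠ 0 := by exact_mod_cast (by omega : n ≠ 0)
  have hn2 : (n : ℝ≥0∞) ≠ ⊤ := ENNReal.natCast_ne_top n
  rw [ENNReal.tsum_mul_right] at h1
  have h4 : gf E ≤ (n : ℝ≥0∞)⁻¹ * (ENNReal.ofReal (K * 2 ^ b0 / Ub b0) * x) := by
    calc gf E = (n : ℝ≥0∞)⁻¹ * ((n : ℝ≥0∞) * gf E) := by
          rw [← mul_assoc, ENNReal.inv_mul_cancel hn1 hn2, one_mul]
      _ ≤ _ := mul_le_mul' le_rfl (h1.trans (mul_le_mul' h3 le_rfl))
  refine h4.trans (le_of_eq ?_)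
  rw [← mul_assoc, ← ENNReal.ofReal_natCast, ← ENNReal.ofReal_inv_of_pos hn0, ← ENNReal.ofReal_mul (by positivity)]
  congr 2
  field_simp

/-- row C1 in the form of the plan -/
theorem mid_joint {m : ℕ → ℝ} (hJ : JoB m) : ∃ C : ℝ, 0 < C ∧ ∀ (k b0 b : ℕ) (v : Pt),
    gf {Z | (∃ A ∈ BU, ∃ G ∈ MidS (2 ^ k) (2 ^ b0), ∃ B ∈ BU, Z = A ++ (G ++ B)) ∧ en Z = v ∧ Z.length = b} ≤
      ENNReal.ofReal (C * (2 ^ b0 / (2 ^ k * Ub b0)) * (Ub k ^ 2 / (4 ^ k * m k))) := by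
  obtain ⟨C1, hC1, h1⟩ := pair_cut
  obtain ⟨C2, hC2, h2⟩ := hJ
  refine ⟨C1 * C2, by positivity, fun k b0 b v => ?_⟩
  have hU := Ub_pos b0
  refine (h1 _ (2 ^ k) b0 b v _ Nat.one_le_two_pow ?_ (fun v' b' => h2 k v' b')).trans ?_
  · rintro t ⟨⟨A, hA, G, hG, B, hB, rfl⟩, h3, h4⟩
    exact ⟨midS_cut hA hG hB, h3, h4⟩
  · rw [← ENNReal.ofReal_mul (by positivity)]
    refine ENNReal.ofReal_le_ofReal (le_of_eq ?_)
    push_cast
    ring

end JNT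

end HexObs
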