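import Pool.Agent.JNT.UpM
import Pool.Agent.EN.TailW

/-!
JNT: the law of the end point, both sides, in terms of probabilities.
-/

set_option autoImplicit false

namespace NTSZ

namespace Loc

open Finset

open Pool.Agent.NTS.Res

open NTSF

open scoped Classical

/-- the upper side -/
theorem up_prb : ∃ c C : ℝ, 0 < c ∧ 0 < C ∧ ∀ n : ℕ, 1 ≤ n → ∀ (z : ℂ) (L : ℝ), 0 ≤ L →
    prb n (fun s => Pool.Agent.NTS.Res.pos s n = z ∧ ∃ j, j ≤ n ∧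
      L * (n : ℝ) ^ (3 / 4 : ℝ) ≤ ‖Pool.Agent.NTS.Res.pos s j‖) ≤
      C * (n : ℝ) ^ (-(3 / 2) : ℝ) * Real.exp (-(c * L ^ 4)) := by
  obtain ⟨c, C, hc, hC, h⟩ := loc_up_M
  exact ⟨c, C, hc, hC, fun n hn z L hL => prb_le _ (h n hn z L hL)⟩

/-- **both sides** -/
theorem loc_of (hlow : ∃ c C K : ℝ, 0 < c ∧ 0 < C ∧ 0 < K ∧ ∀ n : ℕ, 1 ≤ n → ∀ z : ℂ,
      (∃ s : Fin n → Fin 3, Pool.Agent.NTS.Res.pos s n = z) → K * (n : ℝ) ^ (3 / 4 : ℝ) ≤ ‖z‖ →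
      c * (n : ℝ) ^ (-(3 / 2) : ℝ) * Real.exp (-(C * (‖z‖ / (n : ℝ) ^ (3 / 4 : ℝ)) ^ 4)) * ((saw n).card : ℝ) ≤
        (((saw n).filter fun s => Pool.Agent.NTS.Res.pos s n = z).card : ℝ)) :
    ∃ c C K : ℝ, 0 < c ∧ 0 < C ∧ 0 < K ∧ ∀ n : ℕ, 1 ≤ n → ∀ z : ℂ,
      (∀ L : ℝ, 0 ≤ L → prb n (fun s => Pool.Agent.NTS.Res.pos s n = z ∧ ∃ j, j ≤ n ∧
        L * (n : ℝ) ^ (3 / 4 : ℝ) ≤ ‖Pool.Agent.NTS.Res.pos s j‖) ≤
        C * (n : ℝ) ^ (-(3 / 2) : ℝ) * Real.exp (-(c * L ^ 4))) ∧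
      ((∃ s : Fin n → Fin 3, Pool.Agent.NTS.Res.pos s n = z) → K * (n : ℝ) ^ (3 / 4 : ℝ) ≤ ‖z‖ →
        c * (n : ℝ) ^ (-(3 / 2) : ℝ) * Real.exp (-(C * (‖z‖ / (n : ℝ) ^ (3 / 4 : ℝ)) ^ 4)) ≤
          prb n (fun s => Pool.Agent.NTS.Res.pos s n = z)) := by
  obtain ⟨c1, C1, hc1, hC1, h1⟩ := up_prb
  obtain ⟨c2, C2, K, hc2, hC2, hK, h2⟩ := hlow
  refine ⟨min c1 c2, max C1 C2, K, lt_min hc1 hc2, lt_max_of_lt_left hC1, hK, fun n hn z => ⟨fun L hL => ?_,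
    fun hz hKz => ?_⟩⟩
  · refine (h1 n hn z L hL).trans ?_
    have hn' : (0 : ℝ) < n := by exact_mod_cast hn
    have hL4 : 0 ≤ L ^ 4 := by positivity
    refine mul_le_mul (mul_le_mul_of_nonneg_right (le_max_left _ _) (by positivity)) (Real.exp_le_exp.2 ?_)
      (Real.exp_nonneg _) (mul_nonneg (hC1.le.trans (le_max_left _ _)) (by positivity))
    have := mul_le_mul_of_nonneg_right (min_le_left c1 c2) hL4
    linarith
  · have hn' : (0 : ℝ) < n := by exact_mod_cast hn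
    have hcard := saw_card_pos n
    refine le_prb _ (le_trans (mul_le_mul_of_nonneg_right ?_ hcard.le) (h2 n hn z hz hKz))
    have hX : 0 ≤ (‖z‖ / (n : ℝ) ^ (3 / 4 : ℝ)) ^ 4 := by positivity
    refine mul_le_mul (mul_le_mul_of_nonneg_right (min_le_right _ _) (by positivity)) (Real.exp_le_exp.2 ?_)
      (Real.exp_nonneg _) (mul_nonneg hc2.le (by positivity))
    have := mul_le_mul_of_nonneg_right (le_max_right C1 C2) hX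
    linarith

end Loc

end NTSZ
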