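import Pool.Agent.JNT.Inv
import Pool.Agent.BAR.Power

/-!
JNT: the bridges with a phase of the scale r; size of the characteristic function of two bridges.
-/

set_option autoImplicit false

namespace HexObs

namespace JNT

open Finset TS NTA

open scoped ENNReal

/-- the phase is of scale r or shorter -/
def ScB (m : ℕ → ℝ) : Prop := ∃ C : ℝ, 0 < C ∧ ∀ (r : ℕ) (θ : ℝ), |θ| ≤ Real.pi / 2 → 1 ≤ |θ| * m r → ∀ n : ℕ, 1 ≤ n →
  ∀ S : Finset ℕ, (∀ h ∈ S, n ≤ h) → ∀ φ : Pt → ℂ, (∀ z, ‖φ z‖ ≤ 1) →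
    ‖∑ h ∈ S, Fo θ (Brd h) φ‖ ≤ C * (Ub r * min 1 (Ub r / UU n))

/-- the characteristic function of two bridges -/
def FvB (m : ℕ → ℝ) : Prop := ∃ C : ℝ, 0 < C ∧ ∀ (k r : ℕ) (v : Pt) (θ : ℝ), |θ| ≤ Real.pi / 2 → 1 ≤ |θ| * m r →
  ‖Fv (2 ^ k) v θ‖ ≤ C * (Ub k / 4 ^ k) * (Ub r * min 1 (Ub r / Ub k))

lemma mlow_mono {m : ℕ → ℝ} (hm : MLow m) {k l : ℕ} (h : k ≤ l) : m k ≤ m l := by
  obtain ⟨j, rfl⟩ := Nat.exists_eq_add_of_le h
  have h1 := hm.low k j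
  have h2 := hm.pos k
  have h3 : (1 : ℝ) ≤ (2 : ℝ) ^ (5 / 4 * (j : ℝ)) := Real.one_le_rpow (by norm_num) (by positivity)
  nlinarith

theorem scB_of {m : ℕ → ℝ} (hm : MLow m) (hK : ConB m) (hO : SmB) : ScB m := by
  classical
  obtain ⟨C, k0, ρ, hρ1, hK⟩ := hK
  obtain ⟨ρ', hρ0', hρ1', hO⟩ := hO (1 / m (k0 + C)) (by have := hm.pos (k0 + C); positivity)
  obtain ⟨R, hR⟩ : ∃ R, R = max ρ ρ' := ⟨_, rfl⟩
  have hR0 : 0 ≤ R := by rw [hR]; exact hρ0'.trans (le_max_right _ _)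
  have hR1 : R < 1 := by rw [hR]; exact max_lt hρ1 hρ1'
  obtain ⟨C1, hC1, hT⟩ := recB R hR0 hR1
  refine ⟨4 * (1 + C1), by positivity, fun r θ hθ hr n hn S hS φ hφ => ?_⟩
  have hUr := Ub_pos r
  have hUn := Num2Aux.UU_pos n
  -- a good height
  obtain ⟨N, hN1, hN2⟩ : ∃ N, UU N ≤ 2 * Ub r ∧ NB θ (EN.LB.Bk N) R := by
    have hex : ∃ s, 1 ≤ |θ| * m s := ⟨r, hr⟩
    obtain ⟨s, hs⟩ : ∃ s, s = Nat.find hex := ⟨_, rfl⟩
    have h1 : 1 ≤ |θ| * m s := by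
      rw [hs]
      exact Nat.find_spec hex
    have h2 : ∀ i, i < s → |θ| * m i < 1 := fun i hi => by
      rw [hs] at hi
      exact not_le.1 (Nat.find_min hex hi)
    have hsr : s ≤ r := by
      rw [hs]
      exact Nat.find_min' hex hr
    have hUs : Ub s ≤ Ub r := Num2Aux.UU_mono (Nat.pow_le_pow_right (by norm_num) hsr)
    rcases Nat.lt_or_ge s (k0 + C + 1) with h3 | h3
    · refine ⟨0, ?_, fun φ hφ => (hO θ ?_ hθ φ hφ).trans (by rw [hR]; exact le_max_right _ _)⟩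
      · have h4 : UU 0 ≤ Ub r := Num2Aux.UU_mono (Nat.zero_le _)
        linarith
      · have h4 := hm.pos (k0 + C)
        have h5 : m s ≤ m (k0 + C) := mlow_mono hm (by omega)
        rw [div_le_iff₀ h4]
        exact h1.trans (mul_le_mul_of_nonneg_left h5 (abs_nonneg θ))
    · obtain ⟨k', rfl⟩ : ∃ k', s = k' + C + 1 := ⟨s - C - 1, by omega⟩
      refine ⟨2 ^ (k' + 2), ?_, fun φ hφ => (hK k' θ (by omega) h1 (h2 _ (by omega)).le φ hφ).trans
        (by rw [hR]; exact le_max_left _ _)⟩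
      have h4 : UU (2 ^ (k' + 2)) ≤ UU (2 * 2 ^ (k' + C + 1)) := by
        refine Num2Aux.UU_mono ?_
        rw [← pow_succ']
        exact Nat.pow_le_pow_right (by norm_num) (by omega)
      have h5 := Ex.UU_mul_le (2 ^ (k' + C + 1)) 2 (by norm_num)
      have h6 : Ub (k' + C + 1) = UU (2 ^ (k' + C + 1)) := rfl
      push_cast at h5
      linarith
  have hUN := Num2Aux.UU_pos N
  have b1 : ‖∑ h ∈ S, Fo θ (Brd h) φ‖ ≤ 4 * (1 + C1) * (Ub r * (Ub r / UU n)) := by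
    have h1 := hT N θ hN2 n hn S hS φ hφ
    have h2 : UU N ^ 2 ≤ (2 * Ub r) ^ 2 := pow_le_pow_left₀ hUN.le hN1 2
    calc ‖∑ h ∈ S, Fo θ (Brd h) φ‖ ≤ C1 * (UU N ^ 2 / UU n) := h1
      _ ≤ C1 * ((2 * Ub r) ^ 2 / UU n) := by gcongr
      _ = 4 * C1 * (Ub r * (Ub r / UU n)) := by ring
      _ ≤ _ := by
          apply mul_le_mul_of_nonneg_right _ (by positivity)
          linarith
  have b2 : ‖∑ h ∈ S, Fo θ (Brd h) φ‖ ≤ 4 * (1 + C1) * (Ub r * 1) := by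
    have hsp := Finset.sum_filter_add_sum_filter_not S (fun h => h < N) (fun h => Fo θ (Brd h) φ)
    rw [← hsp]
    have e1 : ‖∑ h ∈ S.filter (fun h => h < N), Fo θ (Brd h) φ‖ ≤ UU N := by
      refine (norm_sum_le_of_le (f := fun h => Fo θ (Brd h) φ) (n := fun h => uu h) _ fun h _ => ?_).trans ?_
      · have := RcT.Fo_Brd (θ := θ) h hφ
        rwa [mul_one] at this
      · unfold UU
        refine Finset.sum_le_sum_of_subset_of_nonneg (fun h hh => ?_) fun h _ _ => (uu_pos h).le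
        rw [Finset.mem_filter] at hh
        exact Finset.mem_range.2 (by omega)
    have e2 : ‖∑ h ∈ S.filter (fun h => ¬ h < N), Fo θ (Brd h) φ‖ ≤ C1 * UU N := by
      have h1 := hT N θ hN2 (max n N) (hn.trans (le_max_left _ _)) (S.filter (fun h => ¬ h < N)) (fun h hh => by
        rw [Finset.mem_filter] at hh
        exact max_le (hS h hh.1) (by omega)) φ hφ
      refine h1.trans (mul_le_mul_of_nonneg_left ?_ hC1.le)
      have h2 : UU N ≤ UU (max n N) := Num2Aux.UU_mono (le_max_right _ _)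
      rw [div_le_iff₀ (Num2Aux.UU_pos _)]
      nlinarith
    calc _ ≤ UU N + C1 * UU N := (norm_add_le _ _).trans (add_le_add e1 e2)
      _ = (1 + C1) * UU N := by ring
      _ ≤ (1 + C1) * (2 * Ub r) := by gcongr
      _ ≤ _ := by nlinarith
  rcases le_total (1 : ℝ) (Ub r / UU n) with h | h
  · rwa [min_eq_left h]
  · rwa [min_eq_right h]

theorem fvB_of {m : ℕ → ℝ} (h : ScB m) : FvB m := by
  obtain ⟨C, hC, h⟩ := h
  obtain ⟨C0, hC0, hG⟩ := IvT.gf_at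
  refine ⟨C0 * C, by positivity, fun k r v θ hθ hr => ?_⟩
  have hn : 1 ≤ 2 ^ k := Nat.one_le_two_pow
  have hU := Num2Aux.UU_pos (2 ^ k)
  have hM : 0 < C0 * (UU (2 ^ k) / ((2 ^ k : ℕ) : ℝ) ^ 2) := by positivity
  rw [IvT.Fv_eq hn]
  refine (IvT.sum_scale hM (IvT.ph_le hM.le fun z => hG (2 ^ k) hn z) fun ψ hψ =>
    h r θ hθ hr (2 ^ k) hn _ (fun i hi => (Finset.mem_Icc.1 hi).1) ψ hψ).trans (le_of_eq ?_)
  have h4 : ((2 ^ k : ℕ) : ℝ) ^ 2 = 4 ^ k := by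
    push_cast
    rw [← pow_mul, mul_comm k 2, pow_mul]
    norm_num
  rw [h4]
  unfold Ub
  ring

end JNT

end HexObs
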