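import Pool.Agent.JNT.ZgLN
import Pool.Agent.EN.ExStep

/-!
JNT: the classes of the recursion of the labelled norm of one leaf (relation form of EN/ExStep).
-/

set_option autoImplicit false

namespace HexObs

namespace JNT

open Finset TS SDN NTW NTA EN

open scoped ENNReal

variable {Λ : Type} {lab : List Bool → Λ}

/-- **the zig-zags with a low part l** -/
theorem far_normL (hLU : LabU lab) : ∃ (K : ℝ) (s : ℕ), 1 ≤ K ∧ 5 ≤ s ∧ ∀ (kc j : ℕ) (e : ℝ), j + 5 + s ≤ kc → 0 ≤ e →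
    SmDL lab DmJ j (EN.Bk j) e →
    SmDL lab DmJ kc {g | g ∈ Zg (2 ^ (kc + 4)) (NTm.GU (j + 5) kc (2 ^ (kc + 8))) (EN.Bk j) (Ak kc) ∨
      g ∈ Zg (2 ^ (kc + 4)) (Ak kc) (EN.Bk j) (NTm.GU (j + 5) kc (2 ^ (kc + 8)))}
      (K * 2 ^ (kc - j) / 4 ^ (2 ^ (kc - (j + 5 + s))) * e) := by
  obtain ⟨C, δ, h⟩ := inp_exists
  obtain ⟨Kz, hKz, hz⟩ := comp_zgL hLU
  obtain ⟨Ka, hKa, ha⟩ := LQ.SmD_all
  obtain ⟨Kl, hKl, hl⟩ := all_low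
  obtain ⟨Kg, sg, hKg, hg⟩ := gu_low
  obtain ⟨Kc, sc, hKc, hc⟩ := cleanD_of h (ssA h) (ssThree h) (ssBoth h)
  obtain ⟨s, hs⟩ : ∃ s, s = sg + sc + 5 := ⟨_, rfl⟩
  have hpos : 0 ≤ Kz * (Kc * 8 ^ 8) * Kl + Kz * Ka * (Kg * 8 ^ 8) := by positivity
  refine ⟨1 + (Kz * (Kc * 8 ^ 8) * Kl + Kz * Ka * (Kg * 8 ^ 8)), s, by linarith, by omega, fun kc j e hj he hE => ?_⟩
  obtain ⟨n, hn⟩ : ∃ n, n = 2 ^ (kc - (j + 5 + s)) := ⟨_, rfl⟩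
  have hn' : ∀ t ≤ s, n * 2 ^ (j + 5 + t) ≤ 2 ^ kc := by
    intro t ht
    rw [hn, ← pow_add]
    exact Nat.pow_le_pow_right (by norm_num) (by omega)
  have hU := Ub_pos j
  have hjk : j ≤ kc := by omega
  have h4 : (0 : ℝ) < 4 ^ n := by positivity
  have hL : EN.Bk j ⊆ HB (2 ^ (j + 4)) := Bk_HB j
  have h1 := hz kc j (NTm.GU (j + 5) kc (2 ^ (kc + 8))) (EN.Bk j) (Ak kc) (Kc * 8 ^ 8 / 4 ^ n) e (Kl * 2 ^ (kc - j)) hjk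
    (GU_HB _ _ _) hL (Ak_HB kc) (by positivity) he (by positivity)
    (hc kc 8 n (j + 5) (by omega) (hn' sc (by omega)) (by omega) (by norm_num)) hE
    (fun x Φ hΦ => hl j kc x Φ hjk hΦ)
  have h2 := hz kc j (Ak kc) (EN.Bk j) (NTm.GU (j + 5) kc (2 ^ (kc + 8))) Ka e (Kg * 8 ^ 8 / 4 ^ n * 2 ^ (kc - j)) hjk
    (Ak_HB kc) hL (GU_HB _ _ _) (by linarith) he (by positivity) (ha kc) hE (fun x Φ hΦ => by
      refine (hg j kc 8 (j + 5) n x Φ hΦ hjk (by omega) (by omega) (hn' sg (by omega)) (by norm_num)).trans ?_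
      refine mul_le_mul_left (ENNReal.ofReal_le_ofReal ?_) _
      refine mul_le_mul_of_nonneg_left ?_ (by positivity)
      rw [div_le_iff₀ hU]
      exact Fl.Ub_ratio hjk)
  refine smDL_up ?_ (smDL_union (by positivity) (by positivity) h1 h2)
  rw [← hn]
  have e1 : Kz * (Kc * 8 ^ 8 / 4 ^ n) * e * (Kl * 2 ^ (kc - j)) + Kz * Ka * e * (Kg * 8 ^ 8 / 4 ^ n * 2 ^ (kc - j)) =
      (Kz * (Kc * 8 ^ 8) * Kl + Kz * Ka * (Kg * 8 ^ 8)) * (2 ^ (kc - j) / 4 ^ n * e) := by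
    field_simp
  rw [e1]
  have h5 : (0 : ℝ) ≤ 2 ^ (kc - j) / 4 ^ n * e := by positivity
  calc (Kz * (Kc * 8 ^ 8) * Kl + Kz * Ka * (Kg * 8 ^ 8)) * (2 ^ (kc - j) / 4 ^ n * e)
      ≤ (1 + (Kz * (Kc * 8 ^ 8) * Kl + Kz * Ka * (Kg * 8 ^ 8))) * (2 ^ (kc - j) / 4 ^ n * e) :=
        mul_le_mul_of_nonneg_right (by linarith) h5
    _ = _ := by ring

/-- **the zig-zags with a part l near the top scale** -/
theorem near_normL (hLU : LabU lab) : ∃ K : ℝ, 1 ≤ K ∧ ∀ (kc j : ℕ) (G : Set (List Bool)) (a b e : ℝ), j ≤ kc →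
    0 ≤ a → 0 ≤ b → 0 ≤ e →
    SmDL lab DmJ kc {g | g ∈ Ak kc ∧ g ∈ G} a → SmD DmJ kc (Ak kc \ G) b → SmDL lab DmJ j (EN.Bk j) e →
    SmDL lab DmJ kc (Zg (2 ^ (kc + 4)) (Ak kc) (EN.Bk j) (Ak kc)) (K * 2 ^ (kc - j) * (a + b * e)) := by
  obtain ⟨Kz, hKz, hz⟩ := comp_zgL hLU
  obtain ⟨Kg, hKg, hg⟩ := comp_goodL hLU
  obtain ⟨Ka, hKa, ha⟩ := LQ.SmD_all
  obtain ⟨Kl, hKl, hl⟩ := all_low
  have hpos : 0 ≤ Kz * Kl + Kg * Ka * Kl := by positivity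
  refine ⟨1 + (Kz * Kl + Kg * Ka * Kl), by linarith, fun kc j G a b e hjk ha0 hb0 he0 h1 h2 h3 => ?_⟩
  have hL : EN.Bk j ⊆ HB (2 ^ (j + 4)) := Bk_HB j
  have h4 := hg kc j {g | g ∈ Ak kc ∧ g ∈ G} (EN.Bk j) (Ak kc) a Ka (Kl * 2 ^ (kc - j)) hjk (fun g hg => Ak_HB kc hg.1) hL
    (Ak_HB kc) ha0 (by linarith) (by positivity) h1 (fun x Φ hΦ => (QF.SmD_mono (Bk_Ak j) (ha j)).near x Φ hΦ)
    (fun x Φ hΦ => hl j kc x Φ hjk hΦ)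
  have h5 := hz kc j (Ak kc \ G) (EN.Bk j) (Ak kc) b e (Kl * 2 ^ (kc - j)) hjk (fun g hg => Ak_HB kc hg.1) hL
    (Ak_HB kc) hb0 he0 (by positivity) h2 h3 (fun x Φ hΦ => hl j kc x Φ hjk hΦ)
  have hsub : Zg (2 ^ (kc + 4)) (Ak kc) (EN.Bk j) (Ak kc) ⊆ Zg (2 ^ (kc + 4)) {g | g ∈ Ak kc ∧ g ∈ G} (EN.Bk j) (Ak kc) ∪
      Zg (2 ^ (kc + 4)) (Ak kc \ G) (EN.Bk j) (Ak kc) := by
    rintro g ⟨hgD, s1, a1, l, a2, s2, a3, f1, f2, hunf⟩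
    by_cases hG : s1 ∈ G
    · exact Or.inl ⟨hgD, s1, ⟨a1, hG⟩, l, a2, s2, a3, f1, f2, hunf⟩
    · exact Or.inr ⟨hgD, s1, ⟨a1, hG⟩, l, a2, s2, a3, f1, f2, hunf⟩
  refine smDL_up ?_ (smDL_mono hsub (smDL_union (by positivity) (by positivity) h4 h5))
  have h6 : (0 : ℝ) ≤ 2 ^ (kc - j) * a := by positivity
  have h7 : (0 : ℝ) ≤ 2 ^ (kc - j) * (b * e) := by positivity
  have e1 : Kg * a * Ka * (Kl * 2 ^ (kc - j)) + Kz * b * e * (Kl * 2 ^ (kc - j)) =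
      (Kg * Ka * Kl) * (2 ^ (kc - j) * a) + (Kz * Kl) * (2 ^ (kc - j) * (b * e)) := by ring
  have e2 : (1 + (Kz * Kl + Kg * Ka * Kl)) * 2 ^ (kc - j) * (a + b * e) =
      (1 + (Kz * Kl + Kg * Ka * Kl)) * (2 ^ (kc - j) * a) + (1 + (Kz * Kl + Kg * Ka * Kl)) * (2 ^ (kc - j) * (b * e)) := by
    ring
  rw [e1, e2]
  have h8 : 0 ≤ Kz * Kl := by positivity
  have h9 : 0 ≤ Kg * Ka * Kl := by positivity
  exact add_le_add (mul_le_mul_of_nonneg_right (by linarith) h6) (mul_le_mul_of_nonneg_right (by linarith) h7)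

end JNT

end HexObs
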