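import Pool.Agent.JNT.Ph

/-!
JNT, row N: two families of words with the same end, the phases of the first are small, the phases of the second are not.
-/

set_option autoImplicit false

namespace HexObs

namespace JNT

open Finset TS

open scoped ENNReal

/-- norm of the sum of two vectors in different directions -/
lemma two_vec {w v : ℂ} {p l α : ℝ} (hp : 0 ≤ p) (hpl : p ≤ l) (hw : w = (p : ℂ)) (hv : ‖v‖ ≤ l) (hα : 0 ≤ α)
    (hα1 : α ≤ 1) (him : α * l ≤ |v.im|) : ‖w + v‖ ≤ p + l - α ^ 2 / 4 * p := by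
  have hl : 0 ≤ l := hp.trans hpl
  have h1 : v.re ^ 2 + v.im ^ 2 ≤ l ^ 2 := by
    have h2 : ‖v‖ ^ 2 ≤ l ^ 2 := pow_le_pow_left₀ (norm_nonneg v) hv 2
    rw [← Complex.normSq_eq_norm_sq, Complex.normSq_apply] at h2
    nlinarith
  have h2 : (α * l) ^ 2 ≤ v.im ^ 2 := by
    rw [← sq_abs v.im]
    exact pow_le_pow_left₀ (by positivity) him 2
  have h3 : v.re ≤ l * (1 - α ^ 2 / 2) := by
    have h4 : v.re ^ 2 ≤ (l * (1 - α ^ 2 / 2)) ^ 2 := by nlinarith [sq_nonneg (α ^ 2 * l)]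
    have h5 : 0 ≤ l * (1 - α ^ 2 / 2) := by
      have : α ^ 2 ≤ 1 := by nlinarith
      nlinarith
    exact (le_abs_self _).trans (abs_le_of_sq_le_sq h4 h5)
  have h6 : ‖w + v‖ ^ 2 ≤ (p + l) ^ 2 - p * l * α ^ 2 := by
    rw [← Complex.normSq_eq_norm_sq, Complex.normSq_apply, hw]
    simp only [Complex.add_re, Complex.add_im, Complex.ofReal_re, Complex.ofReal_im]
    nlinarith [mul_le_mul_of_nonneg_left h3 hp]
  have h7 : 0 ≤ p + l - α ^ 2 / 4 * p := by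
    have : α ^ 2 ≤ 1 := by nlinarith
    nlinarith
  refine (sq_le_sq₀ (norm_nonneg _) h7).1 ?_
  refine h6.trans ?_
  nlinarith [mul_nonneg hp (mul_nonneg hl (sq_nonneg α)), mul_nonneg (mul_nonneg hp (sub_nonneg.2 hpl)) (sq_nonneg α),
    sq_nonneg (α ^ 2 / 4 * p)]

/-- the two masses -/
lemma two_mass {u v : ℂ} {s l α a : ℝ} (hs : 0 ≤ s) (hl : 0 ≤ l) (hus : ‖u‖ ≤ s) (hu : ‖u - (s : ℂ)‖ ≤ a * s)
    (hv : ‖v‖ ≤ l) (hα : 0 ≤ α) (hα1 : α ≤ 1) (him : α * l ≤ |v.im|) (ha : a ≤ α ^ 2 / 8) :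
    ‖u + v‖ ≤ s + l - α ^ 2 / 8 * min s l := by
  rcases hs.eq_or_lt with h0 | h0
  · have h1 : u = 0 := by
      rw [← norm_le_zero_iff]
      rw [← h0] at hus
      exact hus
    rw [h1, zero_add, ← h0, min_eq_left hl]
    linarith
  · obtain ⟨p, hp⟩ : ∃ p, p = min s l := ⟨_, rfl⟩
    have hp0 : 0 ≤ p := by rw [hp]; exact le_min hs hl
    have hps : p ≤ s := by rw [hp]; exact min_le_left _ _
    have hpl : p ≤ l := by rw [hp]; exact min_le_right _ _
    obtain ⟨r, hr⟩ : ∃ r : ℝ, r = p / s := ⟨_, rfl⟩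
    have hrs : r * s = p := by rw [hr]; field_simp
    have hr0 : 0 ≤ r := by rw [hr]; positivity
    have hr1 : r ≤ 1 := by rw [hr, div_le_one h0]; exact hps
    have e : u + v = ((1 - r : ℝ) : ℂ) * u + (((r : ℝ) : ℂ) * (u - (s : ℂ)) + (((p : ℝ) : ℂ) + v)) := by
      rw [← hrs]
      push_cast
      ring
    have h1 : ‖((1 - r : ℝ) : ℂ) * u‖ ≤ (1 - r) * s := by
      rw [norm_mul, Complex.norm_real, Real.norm_of_nonneg (by linarith)]
      exact mul_le_mul_of_nonneg_left hus (by linarith)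
    have h2 : ‖((r : ℝ) : ℂ) * (u - (s : ℂ))‖ ≤ a * p := by
      rw [norm_mul, Complex.norm_real, Real.norm_of_nonneg hr0]
      calc r * ‖u - (s : ℂ)‖ ≤ r * (a * s) := mul_le_mul_of_nonneg_left hu hr0
        _ = a * p := by rw [← hrs]; ring
    have h3 := two_vec (w := ((p : ℝ) : ℂ)) hp0 hpl rfl hv hα hα1 him
    rw [e, ← hp]
    have h4 := (norm_add_le (((1 - r : ℝ) : ℂ) * u) (((r : ℝ) : ℂ) * (u - (s : ℂ)) + (((p : ℝ) : ℂ) + v))).trans
      (add_le_add h1 ((norm_add_le _ _).trans (add_le_add h2 h3)))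
    refine h4.trans ?_
    nlinarith [mul_le_mul_of_nonneg_right ha hp0]

end JNT

end HexObs
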