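import Pool.Agent.JNT.EndZ
import Pool.Agent.JNT.OutBox
import Pool.Agent.JNT.LocUp
import Pool.Agent.EN.TailZ

/-!
JNT: the pointwise bound with the tail for the self-avoiding walks with n steps, every n, no hypothesis.
-/

set_option autoImplicit false

namespace HexObs

namespace JNT

open Finset TS SDN NTW NTA EN

open scoped ENNReal

theorem mlo_M : ∃ c : ℝ, 0 < c ∧ ∀ k : ℕ, c * (2 : ℝ) ^ (4 / 3 * (k : ℝ)) ≤ mM k := VF.mLow VF.sharpZ

theorem mhi_M : ∃ C : ℝ, ∀ k : ℕ, mM k ≤ C * (2 : ℝ) ^ (4 / 3 * (k : ℝ)) := by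
  obtain ⟨C, _, h⟩ := VF.mUp VF.sharpZ
  exact ⟨C, h⟩

/-- **out of the box, a given number of letters and a given end, no hypothesis** -/
theorem outL_M : OutL labN mM (w4 mM) := by
  obtain ⟨J0, hG⟩ := gbmL_Z
  refine OB.out_boxL mlo_M mhi_M mlow_M (w4_pos mlow_M) (w4_mono mlow_M) (w4_up mup_M) ⟨2, fun k => ?_⟩ asm_M hG
    exsL_Z extL_Z
  have h1 := mlow_M.pos k
  have h2 : (4 : ℝ) ^ k ≤ 2 ^ (2 * (k + 1)) := by
    rw [pow_mul]
    norm_num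
    exact pow_le_pow_right₀ (by norm_num) (Nat.le_succ k)
  show mM k * 4 ^ k ≤ 2 ^ (2 * (k + 1)) * mM k
  rw [mul_comm]
  exact mul_le_mul_of_nonneg_right h2 h1.le

theorem farUpX_M : FarUpX mM := farUpX_of mlow_M.pos outL_M endX_Z

end JNT

end HexObs

namespace NTSZ

open Pool.Agent.NTS.Res

open scoped Classical

/-- **the pointwise bound with the tail, for the walks, every n, no hypothesis** -/
theorem Loc.loc_up_M : ∃ c C : ℝ, 0 < c ∧ 0 < C ∧ ∀ n : ℕ, 1 ≤ n → ∀ (z : ℂ) (L : ℝ), 0 ≤ L →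
      (((saw n).filter fun s => Pool.Agent.NTS.Res.pos s n = z ∧ ∃ j, j ≤ n ∧
        L * (n : ℝ) ^ (3 / 4 : ℝ) ≤ ‖Pool.Agent.NTS.Res.pos s j‖).card : ℝ) ≤
        C * (n : ℝ) ^ (-(3 / 2) : ℝ) * Real.exp (-(c * L ^ 4)) * ((saw n).card : ℝ) :=
  Loc.loc_up HexObs.JNT.mlo_M HexObs.JNT.mhi_M HexObs.EN.factsX_M HexObs.JNT.endX_Z HexObs.JNT.farUpX_M

end NTSZ
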