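import Pool.Agent.EN.ZgNorm
import Pool.Agent.JNT.Rel

/-!
JNT, one leaf as a zig-zag unf [s1, l, s2], in relation form: the sum over the zig-zags and their continuations on the right in
the relation C a is at most the sum over s1 of the continuations (l, s2) in a relation which is rigid in s1 (for given l, s2)
and rigid in l (for given s1, s2).
-/

set_option autoImplicit false

namespace HexObs

namespace JNT

open Finset TS SDN NTW NTA EN

open SDN.CN (wE_unf3)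

open scoped ENNReal

variable {D D1 : ℕ} {S1 L S2 : Set (List Bool)} {ι ι' Λ : Type} {lab : List Bool → Λ}

open Classical in
/-- the leaf s with the continuations l, s2 in the relation C -/
noncomputable def zgF (D D1 : ℕ) (L S2 : Set (List Bool)) (F : ι' → List Bool → ℝ≥0∞) (C : ι' → List Bool → Prop)
    (s : List Bool) : ℝ≥0∞ :=
  ∑' l, if l ∈ L ∧ RT D1 LFold s l then wE l * ∑' w, (if w ∈ S2 ∧ RT D1 LFold l w then
    wE w * ∑' b, (if C b (unf [s, l, w]) ∧ s ∈ HB D ∧ l ∈ HB D1 ∧ w ∈ HB D then F b w else 0) else 0) else 0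

open Classical in
/-- **the sum over the leaves unf [s1, l, s2] in relation form** -/
theorem zg_coreL (hD1 : 1 ≤ D1) (hDD : D1 ≤ D) (h1 : S1 ⊆ HB D) (h2 : L ⊆ HB D1) (h3 : S2 ⊆ HB D)
    {F : ι' → List Bool → ℝ≥0∞} (hF : ∀ b, HerD D (F b)) (C : ι' → List Bool → Prop) {Q : List Bool → Prop}
    {q : List Bool → ℝ≥0∞}
    (hq : ∀ x ∈ HB D, ∀ z w, unf [x, z, w] ∈ HB D → q (unf [x, z, w]) ≤ q x)
    (hQ : ∀ x ∈ HB D, ∀ z w, Q (unf [x, z, w]) → Q x) :
    Rec8.sw {g | g ∈ Zg D S1 L S2 ∧ Q g} (fun g => q g * ∑' b, if C b g then F b g else 0) ≤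
      Rec8.sw {s | s ∈ S1 ∧ Q s} (fun s => q s * zgF D D1 L S2 F C s) := by
  have hD : 1 ≤ D := hD1.trans hDD
  obtain ⟨H, hH⟩ : ∃ H : List Bool × (List Bool × List Bool) → ℝ≥0∞, H = fun p =>
      if (p.1 ∈ S1 ∧ Q p.1) ∧ (p.2.1 ∈ L ∧ LFold p.1 p.2.1) ∧ (p.2.2 ∈ S2 ∧ LFold p.2.1 p.2.2) then
        wE p.1 * (q p.1 * (wE p.2.1 * (wE p.2.2 * ∑' b, if C b (unf [p.1, p.2.1, p.2.2]) then F b p.2.2 else 0)))
      else 0 := ⟨_, rfl⟩
  have Hv : ∀ a b c, H (a, (b, c)) = if (a ∈ S1 ∧ Q a) ∧ (b ∈ L ∧ LFold a b) ∧ (c ∈ S2 ∧ LFold b c) then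
        wE a * (q a * (wE b * (wE c * ∑' e, if C e (unf [a, b, c]) then F e c else 0)))
      else 0 := fun a b c => by rw [hH]
  refine (Rec8.sw_cover _ _ H (fun p : List Bool × (List Bool × List Bool) => unf [p.1, p.2.1, p.2.2]) ?_).trans ?_
  · rintro g ⟨hg, hQg⟩
    obtain ⟨hgD, s1, a1, l, a2, s2, a3, f1, f2, hunf⟩ := hg
    have b1 := h1 a1
    have b2 := h2 a2
    have b3 := h3 a3
    have n1 := HB_ne hD b1
    have n2 := HB_ne hD1 b2
    have n3 := HB_ne hD b3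
    refine ⟨(s1, (l, s2)), hunf, ?_⟩
    rw [Hv, if_pos ⟨⟨a1, hQ s1 b1 l s2 (by rw [hunf]; exact hQg)⟩, ⟨a2, f1⟩, ⟨a3, f2⟩⟩, hunf]
    have c1 : wE g ≤ wE s1 * (wE l * wE s2) := by
      rw [← hunf]
      exact wE_unf3 n1 n2 n3
    have c2 : q g ≤ q s1 := by
      have := hq s1 b1 l s2 (by rw [hunf]; exact hgD)
      rwa [hunf] at this
    have c3 : (∑' b, if C b g then F b g else 0) ≤ ∑' b, if C b g then F b s2 else 0 := by
      refine ENNReal.tsum_le_tsum fun b => ?_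
      split_ifs
      · obtain ⟨s, hs⟩ := unf3_suf s1 l s2
        rw [hunf] at hs
        have := (hF b).suf s s2 b3 (hs ▸ hgD)
        rwa [← hs] at this
      · exact le_rfl
    calc wE g * (q g * ∑' b, if C b g then F b g else 0)
        ≤ (wE s1 * (wE l * wE s2)) * (q s1 * ∑' b, if C b g then F b s2 else 0) := mul_le_mul' c1 (mul_le_mul' c2 c3)
      _ = _ := by ring
  · rw [ENNReal.tsum_prod', Rec8.sw_ind]
    refine ENNReal.tsum_le_tsum fun s1 => ?_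
    rw [ENNReal.tsum_prod']
    by_cases c1 : s1 ∈ S1 ∧ Q s1
    swap
    · rw [if_neg (show ¬ s1 ∈ {s | s ∈ S1 ∧ Q s} from c1)]
      refine le_of_eq (ENNReal.tsum_eq_zero.2 fun l => ENNReal.tsum_eq_zero.2 fun s2 => ?_)
      rw [Hv]
      exact if_neg fun h => c1 h.1
    rw [if_pos (show s1 ∈ {s | s ∈ S1 ∧ Q s} from c1)]
    unfold zgF
    rw [← ENNReal.tsum_mul_left, ← ENNReal.tsum_mul_left]
    refine ENNReal.tsum_le_tsum fun l => ?_
    by_cases c2 : l ∈ L ∧ LFold s1 l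
    swap
    · refine le_trans (le_of_eq (ENNReal.tsum_eq_zero.2 fun s2 => ?_)) zero_le
      rw [Hv]
      exact if_neg fun h => c2 h.2.1
    rw [if_pos (show l ∈ L ∧ RT D1 LFold s1 l from ⟨c2.1, RT_of (HB_anti hDD (h1 c1.1)) c2.2⟩), ← ENNReal.tsum_mul_left,
      ← ENNReal.tsum_mul_left, ← ENNReal.tsum_mul_left]
    refine ENNReal.tsum_le_tsum fun s2 => ?_
    rw [Hv]
    by_cases c3 : s2 ∈ S2 ∧ LFold l s2
    swap
    · refine le_trans (le_of_eq (if_neg fun h => c3 h.2.2)) zero_le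
    rw [if_pos ⟨c1, c2, c3⟩, if_pos (show s2 ∈ S2 ∧ RT D1 LFold l s2 from ⟨c3.1, RT_of (h2 c2.1) c3.2⟩)]
    refine mul_le_mul_right (mul_le_mul_right (mul_le_mul_right (mul_le_mul_right ?_ _) _) _) _
    refine ENNReal.tsum_le_tsum fun b => ?_
    by_cases c4 : C b (unf [s1, l, s2])
    · rw [if_pos c4, if_pos ⟨c4, h1 c1.1, h2 c2.1, h3 c3.1⟩]
    · rw [if_neg c4]
      exact zero_le

/-- one leaf -/
lemma vA_sing (D : ℕ) (A : Set (List Bool)) (Φ : List Bool → ℝ≥0∞) (x t : List Bool) [Decidable (x ∈ A ∧ RT D LFold t x)] :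
    vA D {y | y ∈ A ∧ y = x} Φ t = if x ∈ A ∧ RT D LFold t x then wE x * Φ x else 0 := by
  classical
  unfold vA
  rw [Rec8.sw_ind, tsum_eq_single x fun y hy => ?_]
  · by_cases h : x ∈ A ∧ RT D LFold t x
    · rw [if_pos h, if_pos (show x ∈ {g' | g' ∈ {y | y ∈ A ∧ y = x} ∧ RT D LFold t g'} from ⟨⟨h.1, rfl⟩, h.2⟩)]
    · rw [if_neg h, if_neg]
      exact fun h2 => h ⟨h2.1.1, h2.2⟩
  · rw [if_neg]
    exact fun h2 => hy h2.1.2

/-- all leaves -/
lemma tsum_vA_sing (D : ℕ) (A : Set (List Bool)) (Φ : List Bool → ℝ≥0∞) (t : List Bool) :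
    ∑' x, vA D {y | y ∈ A ∧ y = x} Φ t = vA D A Φ t := by
  classical
  have h : ∀ x, vA D {y | y ∈ A ∧ y = x} Φ t = if x ∈ {g' | g' ∈ A ∧ RT D LFold t g'} then wE x * Φ x else 0 := by
    intro x
    rw [vA_sing]
    by_cases h : x ∈ A ∧ RT D LFold t x
    · rw [if_pos h, if_pos (show x ∈ {g' | g' ∈ A ∧ RT D LFold t g'} from h)]
    · rw [if_neg h, if_neg (show ¬ x ∈ {g' | g' ∈ A ∧ RT D LFold t g'} from h)]
  rw [tsum_congr h]
  unfold vA
  rw [Rec8.sw_ind]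
  exact tsum_congr fun x => by split_ifs <;> rfl

/-- a sum of functionals -/
lemma vA_tsumL {κ : Type} (D : ℕ) (A : Set (List Bool)) (F : κ → List Bool → ℝ≥0∞) (t : List Bool) :
    vA D A (fun g => ∑' b, F b g) t = ∑' b, vA D A (F b) t := EN.sw_tsum _ _

/-! ### smoothing by l -/

/-- the continuations of l -/
noncomputable def F2 (D1 : ℕ) (S2 : Set (List Bool)) (F : ι' → List Bool → ℝ≥0∞) (p : ι' × List Bool) (t : List Bool) : ℝ≥0∞ :=
  vA D1 {s | s ∈ S2 ∧ s = p.2} (F p.1) t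

/-- the relation of l -/
def C2 (D D1 : ℕ) (C : ι → ι' → List Bool → Prop) (a : ι × List Bool) (p : ι' × List Bool) (l : List Bool) : Prop :=
  C a.1 p.1 (unf [a.2, l, p.2]) ∧ a.2 ∈ HB D ∧ l ∈ HB D1 ∧ p.2 ∈ HB D

lemma tot_F2 (D1 : ℕ) (S2 : Set (List Bool)) (F : ι' → List Bool → ℝ≥0∞) :
    (fun t => ∑' p, F2 D1 S2 F p t) = vA D1 S2 (fun t => ∑' b, F b t) := by
  funext t
  rw [ENNReal.tsum_prod', vA_tsumL]
  refine tsum_congr fun b => ?_
  exact tsum_vA_sing D1 S2 (F b) t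

lemma zgF_F2 (F : ι' → List Bool → ℝ≥0∞) (C : ι → ι' → List Bool → Prop) (a : ι) (s : List Bool) :
    zgF D D1 L S2 F (C a) s = vA D1 L (one (F2 D1 S2 F) (C2 D D1 C) (a, s)) s := by
  classical
  unfold zgF vA
  rw [Rec8.sw_ind]
  refine tsum_congr fun l => ?_
  by_cases h : l ∈ L ∧ RT D1 LFold s l
  swap
  · rw [if_neg h, if_neg (show ¬ l ∈ {g' | g' ∈ L ∧ RT D1 LFold s g'} from h)]
  rw [if_pos h, if_pos (show l ∈ {g' | g' ∈ L ∧ RT D1 LFold s g'} from h)]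
  congr 1
  unfold one
  rw [ENNReal.tsum_prod', ENNReal.tsum_comm]
  refine tsum_congr fun w => ?_
  by_cases hw : w ∈ S2 ∧ RT D1 LFold l w
  · rw [if_pos hw, ← ENNReal.tsum_mul_left]
    refine tsum_congr fun b => ?_
    by_cases hc : C a b (unf [s, l, w]) ∧ s ∈ HB D ∧ l ∈ HB D1 ∧ w ∈ HB D
    · rw [if_pos hc, if_pos (show C2 D D1 C (a, s) (b, w) l from hc)]
      unfold F2
      rw [vA_sing, if_pos hw]
    · rw [if_neg hc, if_neg (show ¬ C2 D D1 C (a, s) (b, w) l from hc), mul_zero]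
  · rw [if_neg hw]
    refine (ENNReal.tsum_eq_zero.2 fun b => ?_).symm
    split_ifs
    · unfold F2
      rw [vA_sing, if_neg hw]
    · rfl

lemma SameE_l {s l l' w : List Bool} (hw : w ≠ []) : SameE (unf [s, l, w]) (unf [s, l', w]) := by
  constructor
  · show (s.dropLast ++ (!lst s) :: _).headD true = (s.dropLast ++ (!lst s) :: _).headD true
    cases s.dropLast <;> rfl
  · obtain ⟨a, ha⟩ := unf3_suf s l w
    obtain ⟨b, hb⟩ := unf3_suf s l' w
    rw [ha, hb]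
    unfold lst
    rw [List.getLastD_eq_getLast?, List.getLastD_eq_getLast?, List.getLast?_append_of_ne_nil _ hw,
      List.getLast?_append_of_ne_nil _ hw]

lemma rig_C2 (hD1 : 16 ≤ D1) (hDD : D1 ≤ D) (hU : LabU lab) {C : ι → ι' → List Bool → Prop} (hC : RigD lab C) :
    RigD lab (C2 D D1 C) := by
  rintro ⟨a, s⟩ ⟨b, w⟩ l l' ⟨h1, h2, h3, h4⟩ ⟨h1', -, h3', -⟩ he
  have hD : 16 ≤ D := hD1.trans hDD
  refine hU [s] [w] l l' (fun x hx => ?_) (fun x hx => ?_) (HB_anti hD1 h3) (HB_anti hD1 h3') he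
    (hC a b _ _ h1 h1' (SameE_l (HB_ne (by omega) h4)))
  · rw [List.mem_singleton] at hx
    rw [hx]
    exact HB_anti hD h2
  · rw [List.mem_singleton] at hx
    rw [hx]
    exact HB_anti hD h4

/-! ### smoothing by s1 -/

/-- the continuations of s1 -/
noncomputable def F3 (D1 : ℕ) (L S2 : Set (List Bool)) (F : ι' → List Bool → ℝ≥0∞) (p : ι' × (List Bool × List Bool))
    (t : List Bool) : ℝ≥0∞ := vA D1 {l | l ∈ L ∧ l = p.2.1} (vA D1 {s | s ∈ S2 ∧ s = p.2.2} (F p.1)) t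

/-- the relation of s1 -/
def C3 (D D1 : ℕ) (C : ι → ι' → List Bool → Prop) (a : ι) (p : ι' × (List Bool × List Bool)) (s : List Bool) : Prop :=
  C a p.1 (unf [s, p.2.1, p.2.2]) ∧ s ∈ HB D ∧ p.2.1 ∈ HB D1 ∧ p.2.2 ∈ HB D

lemma tot_F3 (D1 : ℕ) (L S2 : Set (List Bool)) (F : ι' → List Bool → ℝ≥0∞) :
    (fun t => ∑' p, F3 D1 L S2 F p t) = vA D1 L (vA D1 S2 (fun t => ∑' b, F b t)) := by
  funext t
  have h1 : ∀ b, ∑' q : List Bool × List Bool, F3 D1 L S2 F (b, q) t = vA D1 L (vA D1 S2 (F b)) t := by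
    intro b
    rw [ENNReal.tsum_prod']
    have h2 : ∀ l, ∑' w, F3 D1 L S2 F (b, (l, w)) t = vA D1 {x | x ∈ L ∧ x = l} (vA D1 S2 (F b)) t := by
      intro l
      have h3 : vA D1 S2 (F b) = fun g => ∑' w, vA D1 {s | s ∈ S2 ∧ s = w} (F b) g :=
        funext fun g => (tsum_vA_sing D1 S2 (F b) g).symm
      rw [h3, vA_tsumL]
      rfl
    rw [tsum_congr h2]
    exact tsum_vA_sing D1 L _ t
  rw [ENNReal.tsum_prod', tsum_congr h1, ← vA_tsumL]
  congr 1
  funext g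
  exact (vA_tsumL D1 S2 F g).symm

lemma zgF_F3 (F : ι' → List Bool → ℝ≥0∞) (C : ι → ι' → List Bool → Prop) (a : ι) (s : List Bool) :
    zgF D D1 L S2 F (C a) s = one (F3 D1 L S2 F) (C3 D D1 C) a s := by
  classical
  unfold zgF one
  rw [ENNReal.tsum_prod', ENNReal.tsum_comm, ENNReal.tsum_prod']
  refine tsum_congr fun l => ?_
  by_cases h : l ∈ L ∧ RT D1 LFold s l
  swap
  · rw [if_neg h]
    refine (ENNReal.tsum_eq_zero.2 fun w => ENNReal.tsum_eq_zero.2 fun b => ?_).symm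
    split_ifs
    · unfold F3
      rw [vA_sing, if_neg h]
    · rfl
  rw [if_pos h, ← ENNReal.tsum_mul_left]
  refine tsum_congr fun w => ?_
  by_cases hw : w ∈ S2 ∧ RT D1 LFold l w
  · rw [if_pos hw, ← ENNReal.tsum_mul_left, ← ENNReal.tsum_mul_left]
    refine tsum_congr fun b => ?_
    by_cases hc : C a b (unf [s, l, w]) ∧ s ∈ HB D ∧ l ∈ HB D1 ∧ w ∈ HB D
    · rw [if_pos hc, if_pos (show C3 D D1 C a (b, (l, w)) s from hc)]
      unfold F3
      rw [vA_sing, if_pos h, vA_sing, if_pos hw]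
    · rw [if_neg hc, if_neg (show ¬ C3 D D1 C a (b, (l, w)) s from hc), mul_zero, mul_zero]
  · rw [if_neg hw, mul_zero]
    refine (ENNReal.tsum_eq_zero.2 fun b => ?_).symm
    split_ifs
    · unfold F3
      rw [vA_sing, vA_sing, if_neg hw]
      simp
    · rfl

lemma SameE_s {s s' l w : List Bool} (hs : s.dropLast ≠ []) (hs' : s'.dropLast ≠ []) (hw : w ≠ []) (he : SameE s s') :
    SameE (unf [s, l, w]) (unf [s', l, w]) := by
  have h0 : ∀ t : List Bool, t.dropLast ≠ [] → (unf [t, l, w]).headD true = t.headD true := by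
    intro t ht
    show (t.dropLast ++ (!lst t) :: _).headD true = t.headD true
    match t, ht with
    | [], h => exact absurd rfl h
    | [x], h => exact absurd rfl h
    | x :: y :: t, _ => rfl
  constructor
  · rw [h0 s hs, h0 s' hs']
    exact he.1
  · obtain ⟨a, ha⟩ := unf3_suf s l w
    obtain ⟨b, hb⟩ := unf3_suf s' l w
    rw [ha, hb]
    unfold lst
    rw [List.getLastD_eq_getLast?, List.getLastD_eq_getLast?, List.getLast?_append_of_ne_nil _ hw,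
      List.getLast?_append_of_ne_nil _ hw]

lemma dropLast_ne {D : ℕ} (hD : 1 ≤ D) {s : List Bool} (hs : s ∈ HB D) : s.dropLast ≠ [] := by
  obtain ⟨n, hn, h⟩ := hs
  have h1 := (mem_Brd.1 h).2.2.2
  have hdir : ∀ d ∈ dirs, ip d up ≤ 2 := by decide
  match s, h1 with
  | [], h1 =>
    rw [List.length_nil, lev_zero] at h1
    omega
  | [x], h1 =>
    rw [List.length_singleton, lev_succ, lev_zero] at h1
    have h2 := hdir (dx up [x] 0) (ds_mem upd _ : dx up [x] 0 ∈ dirs)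
    omega
  | x :: y :: t, _ => simp

lemma rig_C3 (hD1 : 16 ≤ D1) (hDD : D1 ≤ D) (hU : LabU lab) {C : ι → ι' → List Bool → Prop} (hC : RigD lab C) :
    RigD lab (C3 D D1 C) := by
  rintro a ⟨b, ⟨l, w⟩⟩ s s' ⟨h1, h2, h3, h4⟩ ⟨h1', h2', -, -⟩ he
  have hD : 16 ≤ D := hD1.trans hDD
  refine hU [] [l, w] s s' (fun x hx => ?_) (fun x hx => ?_) (HB_anti hD h2) (HB_anti hD h2') he
    (hC a b _ _ h1 h1' (SameE_s (dropLast_ne (by omega) h2) (dropLast_ne (by omega) h2') (HB_ne (by omega) h4) he))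
  · exact absurd hx List.not_mem_nil
  · simp only [List.mem_cons, List.not_mem_nil, or_false] at hx
    rcases hx with hx | hx
    · rw [hx]
      exact HB_anti hD1 h3
    · rw [hx]
      exact HB_anti hD h4

end JNT

end HexObs
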