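import Pool.Agent.JNT.ZgL
import Pool.Agent.JNT.Comp

/-!
JNT: the labelled norm of the class of the zig-zags unf [s1, l, s2], two forms: the label is smoothed by l or by s1.
-/

set_option autoImplicit false

namespace HexObs

namespace JNT

open Finset TS SDN NTW NTA EN

open scoped ENNReal

variable {D D1 : ℕ} {S1 L S2 : Set (List Bool)} {ι ι' Λ : Type} {lab : List Bool → Λ}

/-- behind a leaf t -/
theorem vA_zgL (hD1 : 1 ≤ D1) (hDD : D1 ≤ D) (h1 : S1 ⊆ HB D) (h2 : L ⊆ HB D1) (h3 : S2 ⊆ HB D)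
    {F : ι' → List Bool → ℝ≥0∞} (hF : ∀ b, HerD D (F b)) (C : ι → ι' → List Bool → Prop) (a : ι) (t : List Bool) :
    vA D (Zg D S1 L S2) (one F C a) t ≤ vA D S1 (zgF D D1 L S2 F (C a)) t := by
  have h := zg_coreL hD1 hDD h1 h2 h3 hF (C a) (Q := fun g => RT D LFold t g) (q := fun _ => 1)
    (fun _ _ _ _ _ => le_rfl) (fun x hx z w => RT_fst (hD1.trans hDD) hx)
  simp only [one_mul] at h
  exact h

/-- between two functionals -/
theorem free_zgL (hD1 : 1 ≤ D1) (hDD : D1 ≤ D) (h1 : S1 ⊆ HB D) (h2 : L ⊆ HB D1) (h3 : S2 ⊆ HB D)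
    {F : ι' → List Bool → ℝ≥0∞} {P : ι → List Bool → ℝ≥0∞} (hF : ∀ b, HerD D (F b)) (hP : ∀ a, Flp D (P a))
    (C : ι → ι' → List Bool → Prop) :
    Rec8.sw (Zg D S1 L S2) (fun g => ∑' a, P a (rev g) * one F C a g) ≤
      Rec8.sw S1 (fun s => ∑' a, P a (rev s) * zgF D D1 L S2 F (C a) s) := by
  rw [EN.sw_tsum, EN.sw_tsum]
  refine ENNReal.tsum_le_tsum fun a => ?_
  have h := zg_coreL hD1 hDD h1 h2 h3 hF (C a) (Q := fun _ => True) (q := fun g => P a (rev g))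
    (flp_zig (hD1.trans hDD) (hP a)) (fun _ _ _ _ _ => trivial)
  simp only [and_true, Set.ofPred_mem_eq] at h
  exact h

/-- **smoothing by l** -/
theorem comp_zgL (hLU : LabU lab) : ∃ K : ℝ, 1 ≤ K ∧ ∀ (kc j : ℕ) (S1 L S2 : Set (List Bool)) (d1 e d2 : ℝ),
    j ≤ kc →
    S1 ⊆ HB (2 ^ (kc + 4)) → L ⊆ HB (2 ^ (j + 4)) → S2 ⊆ HB (2 ^ (kc + 4)) → 0 ≤ d1 → 0 ≤ e → 0 ≤ d2 →
    SmD DmJ kc S1 d1 → SmDL lab DmJ j L e →
    (∀ (x : ℝ≥0∞) (Φ : List Bool → ℝ≥0∞), DmJ kc x Φ →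
      xT (2 ^ (j + 4)) j (vA (2 ^ (j + 4)) S2 Φ) ≤ ENNReal.ofReal d2 * x) →
    SmDL lab DmJ kc (Zg (2 ^ (kc + 4)) S1 L S2) (K * d1 * e * d2) := by
  obtain ⟨C, δ, h⟩ := inp_exists
  obtain ⟨K, hK, hdx⟩ := DomJ_xT h
  refine ⟨K, hK, fun kc j S1 L S2 d1 e d2 hj hS1 hL hS2 hd1 he hd2 h1 h2 h3 => ?_⟩
  have hD1 : 1 ≤ 2 ^ (j + 4) := Nat.one_le_two_pow
  have hDD : 2 ^ (j + 4) ≤ 2 ^ (kc + 4) := Nat.pow_le_pow_right (by norm_num) (by omega)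
  have hD16 : 16 ≤ 2 ^ (j + 4) := le_trans (by norm_num : 16 ≤ 2 ^ 4) (Nat.pow_le_pow_right (by norm_num) (by omega))
  have hU := Ub_pos kc
  -- the functional of l and s2
  have key : ∀ {ι ι' : Type} (x : ℝ≥0∞) (F : ι' → List Bool → ℝ≥0∞) (C : ι → ι' → List Bool → Prop), RigD lab C →
      (∀ b, HerD (2 ^ (kc + 4)) (F b)) → DmJ kc x (fun t => ∑' b, F b t) →
      DmJ kc (ENNReal.ofReal (K * e * d2) * x)
        (fun t => ⨆ p : ι × List Bool, vA (2 ^ (j + 4)) L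
          (one (F2 (2 ^ (j + 4)) S2 F) (C2 (2 ^ (kc + 4)) (2 ^ (j + 4)) C) p) t) := by
    intro ι ι' x F C hC hF hx
    have hY : ∀ p, HerD (2 ^ (j + 4)) (F2 (2 ^ (j + 4)) S2 F p) := fun p => NTm.herD_vA hD1 _ _
    have hYt : (fun t => ∑' p, F2 (2 ^ (j + 4)) S2 F p t) = vA (2 ^ (j + 4)) S2 (fun t => ∑' b, F b t) := tot_F2 _ _ _
    have hYD : HerD (2 ^ (j + 4)) (fun t => ∑' p, F2 (2 ^ (j + 4)) S2 F p t) := by
      rw [hYt]
      exact NTm.herD_vA hD1 _ _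
    have h4 := h2.near _ _ _ (rig_C2 hD16 hDD hLU hC) hY (DmJ_dm j _ hYD)
    have h5 : xT (2 ^ (j + 4)) j (fun t => ∑' p, F2 (2 ^ (j + 4)) S2 F p t) ≤ ENNReal.ofReal d2 * x := by
      rw [hYt]
      exact h3 x _ hx
    have hH : HerD (2 ^ (j + 4)) (fun t => ⨆ p : ι × List Bool, vA (2 ^ (j + 4)) L
        (one (F2 (2 ^ (j + 4)) S2 F) (C2 (2 ^ (kc + 4)) (2 ^ (j + 4)) C) p) t) :=
      herD_iSup fun p => NTm.herD_vA hD1 _ _
    refine ⟨herD_up hDD hH, (hdx (2 ^ (j + 4)) j kc _ hH.her le_rfl hj).mono ?_⟩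
    calc ENNReal.ofReal K * xT (2 ^ (j + 4)) j (fun t => ⨆ p : ι × List Bool, vA (2 ^ (j + 4)) L
          (one (F2 (2 ^ (j + 4)) S2 F) (C2 (2 ^ (kc + 4)) (2 ^ (j + 4)) C) p) t)
        ≤ ENNReal.ofReal K * (ENNReal.ofReal e * (ENNReal.ofReal d2 * x)) :=
          mul_le_mul_right (h4.trans (mul_le_mul_right h5 _)) _
      _ = _ := by
          rw [ENNReal.ofReal_mul (by positivity), ENNReal.ofReal_mul (by linarith)]
          ring
  refine ⟨fun {ι ι'} x F C hC hF hx => ?_, fun {ι ι'} y x P F C hC hP hPf hF hy hx => ?_⟩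
  · have h6 := h1.near _ _ (key x F C hC hF hx)
    refine le_trans (xT_mono fun t => iSup_le fun a => ?_) (h6.trans (le_of_eq ?_))
    · refine (vA_zgL hD1 hDD hS1 hL hS2 hF C a t).trans ?_
      refine vA_monoF (fun s => ?_) t
      rw [zgF_F2]
      exact le_iSup (fun p : ι × List Bool => vA (2 ^ (j + 4)) L
        (one (F2 (2 ^ (j + 4)) S2 F) (C2 (2 ^ (kc + 4)) (2 ^ (j + 4)) C) p) s) (a, s)
    · rw [← mul_assoc, ← ENNReal.ofReal_mul hd1]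
      congr 2
      ring
  · have h6 := h1.free y _ (fun t => ∑' a, P a t) _ hy (fun s t c g1 g2 => ENNReal.tsum_le_tsum fun i => hPf i s t c g1 g2)
      (key x F C hC hF hx)
    refine (free_zgL hD1 hDD hS1 hL hS2 hF hPf C).trans (le_trans (Rec8.sw_mono' fun s _ => ?_) (h6.trans (le_of_eq ?_)))
    · rw [← ENNReal.tsum_mul_right]
      refine ENNReal.tsum_le_tsum fun a => mul_le_mul_right ?_ _
      rw [zgF_F2]
      exact le_iSup (fun p : ι × List Bool => vA (2 ^ (j + 4)) L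
        (one (F2 (2 ^ (j + 4)) S2 F) (C2 (2 ^ (kc + 4)) (2 ^ (j + 4)) C) p) s) (a, s)
    · have e1 : ENNReal.ofReal (d1 * Ub kc) * (y * (ENNReal.ofReal (K * e * d2) * x)) =
          (ENNReal.ofReal (d1 * Ub kc) * ENNReal.ofReal (K * e * d2)) * (y * x) := by ring
      rw [e1, ← ENNReal.ofReal_mul (by positivity)]
      congr 2
      ring

/-- **smoothing by s1** -/
theorem comp_goodL (hLU : LabU lab) : ∃ K : ℝ, 1 ≤ K ∧ ∀ (kc j : ℕ) (S1 L S2 : Set (List Bool)) (a e d2 : ℝ),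
    j ≤ kc →
    S1 ⊆ HB (2 ^ (kc + 4)) → L ⊆ HB (2 ^ (j + 4)) → S2 ⊆ HB (2 ^ (kc + 4)) → 0 ≤ a → 0 ≤ e → 0 ≤ d2 →
    SmDL lab DmJ kc S1 a →
    (∀ (x : ℝ≥0∞) (Φ : List Bool → ℝ≥0∞), DmJ j x Φ →
      xT (2 ^ (j + 4)) j (vA (2 ^ (j + 4)) L Φ) ≤ ENNReal.ofReal e * x) →
    (∀ (x : ℝ≥0∞) (Φ : List Bool → ℝ≥0∞), DmJ kc x Φ →
      xT (2 ^ (j + 4)) j (vA (2 ^ (j + 4)) S2 Φ) ≤ ENNReal.ofReal d2 * x) →
    SmDL lab DmJ kc (Zg (2 ^ (kc + 4)) S1 L S2) (K * a * e * d2) := by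
  obtain ⟨C, δ, h⟩ := inp_exists
  obtain ⟨K, hK, hdx⟩ := DomJ_xT h
  refine ⟨K, hK, fun kc j S1 L S2 a e d2 hj hS1 hL hS2 ha he hd2 h1 h2 h3 => ?_⟩
  have hD1 : 1 ≤ 2 ^ (j + 4) := Nat.one_le_two_pow
  have hDD : 2 ^ (j + 4) ≤ 2 ^ (kc + 4) := Nat.pow_le_pow_right (by norm_num) (by omega)
  have hD16 : 16 ≤ 2 ^ (j + 4) := le_trans (by norm_num : 16 ≤ 2 ^ 4) (Nat.pow_le_pow_right (by norm_num) (by omega))
  have hU := Ub_pos kc
  have hGH : ∀ {ι' : Type} (F : ι' → List Bool → ℝ≥0∞) p, HerD (2 ^ (kc + 4)) (F3 (2 ^ (j + 4)) L S2 F p) :=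
    fun F p => herD_up hDD (NTm.herD_vA hD1 _ _)
  have key : ∀ {ι' : Type} (x : ℝ≥0∞) (F : ι' → List Bool → ℝ≥0∞), DmJ kc x (fun t => ∑' b, F b t) →
      DmJ kc (ENNReal.ofReal (K * e * d2) * x) (fun t => ∑' p, F3 (2 ^ (j + 4)) L S2 F p t) := by
    intro ι' x F hx
    have hXt : (fun t => ∑' p, F3 (2 ^ (j + 4)) L S2 F p t) =
        vA (2 ^ (j + 4)) L (vA (2 ^ (j + 4)) S2 (fun t => ∑' b, F b t)) := tot_F3 _ _ _ _
    have hY : HerD (2 ^ (j + 4)) (vA (2 ^ (j + 4)) S2 (fun t => ∑' b, F b t)) := NTm.herD_vA hD1 _ _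
    have h4 := h2 _ _ (DmJ_dm j _ hY)
    have h5 := h3 x _ hx
    have hH : HerD (2 ^ (j + 4)) (vA (2 ^ (j + 4)) L (vA (2 ^ (j + 4)) S2 (fun t => ∑' b, F b t))) :=
      NTm.herD_vA hD1 _ _
    rw [hXt]
    refine ⟨herD_up hDD hH, (hdx (2 ^ (j + 4)) j kc _ hH.her le_rfl hj).mono ?_⟩
    calc ENNReal.ofReal K * xT (2 ^ (j + 4)) j (vA (2 ^ (j + 4)) L (vA (2 ^ (j + 4)) S2 (fun t => ∑' b, F b t)))
        ≤ ENNReal.ofReal K * (ENNReal.ofReal e * (ENNReal.ofReal d2 * x)) :=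
          mul_le_mul_right (h4.trans (mul_le_mul_right h5 _)) _
      _ = _ := by
          rw [ENNReal.ofReal_mul (by positivity), ENNReal.ofReal_mul (by linarith)]
          ring
  refine ⟨fun {ι ι'} x F C hC hF hx => ?_, fun {ι ι'} y x P F C hC hP hPf hF hy hx => ?_⟩
  · have h6 := h1.near _ _ _ (rig_C3 hD16 hDD hLU hC) (hGH F) (key x F hx)
    refine le_trans (xT_mono fun t => iSup_mono fun i => ?_) (h6.trans (le_of_eq ?_))
    · refine (vA_zgL hD1 hDD hS1 hL hS2 hF C i t).trans (le_of_eq ?_)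
      congr 1
      funext s
      exact zgF_F3 F C i s
    · rw [← mul_assoc, ← ENNReal.ofReal_mul ha]
      congr 2
      ring
  · have h6 := h1.free y _ P _ _ (rig_C3 hD16 hDD hLU hC) hP hPf (hGH F) hy (key x F hx)
    refine (free_zgL hD1 hDD hS1 hL hS2 hF hPf C).trans (le_trans (le_of_eq ?_) (h6.trans (le_of_eq ?_)))
    · congr 1
      funext s
      exact tsum_congr fun i => by rw [zgF_F3]
    · have e1 : ENNReal.ofReal (a * Ub kc) * (y * (ENNReal.ofReal (K * e * d2) * x)) =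
          (ENNReal.ofReal (a * Ub kc) * ENNReal.ofReal (K * e * d2)) * (y * x) := by ring
      rw [e1, ← ENNReal.ofReal_mul (by positivity)]
      congr 2
      ring

end JNT

end HexObs
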